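import Pool.Agent.H269.DefsG

/-!
# GN-01 nuclear operators: closure properties (MP_f2af60_mp, infinitely many resonances in odd dimension)
-/

set_option autoImplicit false

open MeasureTheory Filter Topology Complex
open scoped InnerProductSpace ENNReal NNReal

namespace Pool.Agent.H269



section NucSec

variable {ι : Type} [DecidableEq ι] [Countable ι] {H : Type} [NormedAddCommGroup H]
  [InnerProductSpace ℂ H] [CompleteSpace H] {b : HilbertBasis ι ℂ H}

theorem NucLe.of_countable {α : Type} [Countable α] (v φ : α → H)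
    (hs : Summable (fun a => ‖v a‖ * ‖φ a‖)) (X : H →L[ℂ] H)
    (hX : ∀ h, HasSum (fun a => ⟪φ a, h⟫_ℂ • v a) (X h)) :
    NucLe X (∑' a, ‖v a‖ * ‖φ a‖) := by
  obtain ⟨e, he⟩ := exists_injective_nat α
  have hv : ∀ a, Function.extend e v (0 : ℕ → H) (e a) = v a := fun a => he.extend_apply v (0 : ℕ → H) a
  have hφ : ∀ a, Function.extend e φ (0 : ℕ → H) (e a) = φ a := fun a => he.extend_apply φ (0 : ℕ → H) a
  have hv0 : ∀ n, n ∉ Set.range e → Function.extend e v (0 : ℕ → H) n = 0 := by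
    intro n hn
    rw [Function.extend_apply' v (0 : ℕ → H) n (fun h => hn h)]
    rfl
  have h1 : HasSum (fun n => ‖Function.extend e v (0 : ℕ → H) n‖ * ‖Function.extend e φ (0 : ℕ → H) n‖)
      (∑' a, ‖v a‖ * ‖φ a‖) := by
    rw [← he.hasSum_iff]
    · have : (fun n => ‖Function.extend e v (0 : ℕ → H) n‖ * ‖Function.extend e φ (0 : ℕ → H) n‖) ∘ e =
          fun a => ‖v a‖ * ‖φ a‖ := by
        funext a
        simp only [Function.comp_apply, hv, hφ]
      rw [this]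
      exact hs.hasSum
    · intro n hn
      rw [hv0 n hn, norm_zero, zero_mul]
  refine ⟨Function.extend e v (0 : ℕ → H), Function.extend e φ (0 : ℕ → H), h1.summable, h1.tsum_eq.le, fun h => ?_⟩
  rw [← he.hasSum_iff]
  · have : (fun n => ⟪Function.extend e φ (0 : ℕ → H) n, h⟫_ℂ • Function.extend e v (0 : ℕ → H) n) ∘ e =
        fun a => ⟪φ a, h⟫_ℂ • v a := by
      funext a
      simp only [Function.comp_apply, hv, hφ]
    rw [this]
    exact hX h
  · intro n hn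
    rw [hv0 n hn, smul_zero]

theorem NucLe.nonneg {X : H →L[ℂ] H} {c : ℝ} (hX : NucLe X c) : 0 ≤ c := by
  obtain ⟨v, φ, _, h2, _⟩ := hX
  exact le_trans (tsum_nonneg fun a => mul_nonneg (norm_nonneg _) (norm_nonneg _)) h2

theorem NucLe.mono {X : H →L[ℂ] H} {c d : ℝ} (hX : NucLe X c) (h : c ≤ d) : NucLe X d := by
  obtain ⟨v, φ, h1, h2, h3⟩ := hX
  exact ⟨v, φ, h1, h2.trans h, h3⟩

theorem NucLe.zero : NucLe (0 : H →L[ℂ] H) 0 := by
  refine ⟨fun _ => 0, fun _ => 0, ?_, ?_, fun h => ?_⟩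
  · simp only [norm_zero, mul_zero]
    exact summable_zero
  · simp
  · simp only [smul_zero, zero_apply]
    exact hasSum_zero

theorem NucLe.add {X Z : H →L[ℂ] H} {c d : ℝ} (hX : NucLe X c) (hZ : NucLe Z d) :
    NucLe (X + Z) (c + d) := by
  obtain ⟨v, φ, h1, h2, h3⟩ := hX
  obtain ⟨w, ψ, k1, k2, k3⟩ := hZ
  have hs : HasSum (fun a : ℕ ⊕ ℕ => ‖Sum.elim v w a‖ * ‖Sum.elim φ ψ a‖)
      ((∑' a, ‖v a‖ * ‖φ a‖) + ∑' a, ‖w a‖ * ‖ψ a‖) :=
    HasSum.sum (f := fun a : ℕ ⊕ ℕ => ‖Sum.elim v w a‖ * ‖Sum.elim φ ψ a‖) h1.hasSum k1.hasSum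
  have key := NucLe.of_countable (Sum.elim v w) (Sum.elim φ ψ) hs.summable (X + Z) (fun h => by
    rw [add_apply]
    exact HasSum.sum (f := fun a : ℕ ⊕ ℕ => ⟪Sum.elim φ ψ a, h⟫_ℂ • Sum.elim v w a) (h3 h) (k3 h))
  refine key.mono ?_
  rw [hs.tsum_eq]
  exact add_le_add h2 k2

theorem NucLe.smul {X : H →L[ℂ] H} {c : ℝ} (hX : NucLe X c) (z : ℂ) :
    NucLe (z • X) (‖z‖ * c) := by
  obtain ⟨v, φ, h1, h2, h3⟩ := hX
  have e : ∀ a, ‖z • v a‖ * ‖φ a‖ = ‖z‖ * (‖v a‖ * ‖φ a‖) := fun a => by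
    rw [norm_smul]; ring
  refine ⟨fun a => z • v a, φ, ?_, ?_, fun h => ?_⟩
  · simp only [e]
    exact h1.mul_left _
  · simp only [e]
    rw [tsum_mul_left]
    exact mul_le_mul_of_nonneg_left h2 (norm_nonneg _)
  · have := (h3 h).const_smul z
    simp only [smul_comm z] at this
    exact this

theorem NucLe.neg {X : H →L[ℂ] H} {c : ℝ} (hX : NucLe X c) : NucLe (-X) c := by
  have h := hX.smul (-1)
  rw [norm_neg, norm_one, one_mul, neg_one_smul] at h
  exact h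

theorem NucLe.sub {X Z : H →L[ℂ] H} {c d : ℝ} (hX : NucLe X c) (hZ : NucLe Z d) :
    NucLe (X - Z) (c + d) := by
  rw [sub_eq_add_neg]
  exact hX.add hZ.neg

theorem NucLe.left_mul {X : H →L[ℂ] H} {c : ℝ} (hX : NucLe X c) (C : H →L[ℂ] H) :
    NucLe (C * X) (‖C‖ * c) := by
  obtain ⟨v, φ, h1, h2, h3⟩ := hX
  have e : ∀ a, ‖C (v a)‖ * ‖φ a‖ ≤ ‖C‖ * (‖v a‖ * ‖φ a‖) := fun a => by
    rw [← mul_assoc]
    exact mul_le_mul_of_nonneg_right (C.le_opNorm _) (norm_nonneg _)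
  have hs : Summable fun a => ‖C (v a)‖ * ‖φ a‖ :=
    Summable.of_nonneg_of_le (fun a => mul_nonneg (norm_nonneg _) (norm_nonneg _)) e
      (h1.mul_left _)
  refine ⟨fun a => C (v a), φ, hs, ?_, fun h => ?_⟩
  · refine (hs.tsum_le_tsum e (h1.mul_left _)).trans ?_
    rw [tsum_mul_left]
    exact mul_le_mul_of_nonneg_left h2 (norm_nonneg _)
  · have := (h3 h).mapL C
    simp only [map_smul] at this
    exact this

theorem NucLe.right_mul {X : H →L[ℂ] H} {c : ℝ} (hX : NucLe X c) (C : H →L[ℂ] H) :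
    NucLe (X * C) (c * ‖C‖) := by
  obtain ⟨v, φ, h1, h2, h3⟩ := hX
  have e : ∀ a, ‖v a‖ * ‖ContinuousLinearMap.adjoint C (φ a)‖ ≤ (‖v a‖ * ‖φ a‖) * ‖C‖ :=
      fun a => by
    rw [mul_assoc]
    refine mul_le_mul_of_nonneg_left ?_ (norm_nonneg _)
    have := (ContinuousLinearMap.adjoint C).le_opNorm (φ a)
    rw [LinearIsometryEquiv.norm_map] at this
    rw [mul_comm]
    exact this
  have hs : Summable fun a => ‖v a‖ * ‖ContinuousLinearMap.adjoint C (φ a)‖ :=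
    Summable.of_nonneg_of_le (fun a => mul_nonneg (norm_nonneg _) (norm_nonneg _)) e
      (h1.mul_right _)
  refine ⟨v, fun a => ContinuousLinearMap.adjoint C (φ a), hs, ?_, fun h => ?_⟩
  · refine (hs.tsum_le_tsum e (h1.mul_right _)).trans ?_
    rw [tsum_mul_right]
    exact mul_le_mul_of_nonneg_right h2 (norm_nonneg _)
  · have := h3 (C h)
    simp only [ContinuousLinearMap.adjoint_inner_left]
    exact this

end NucSec

end Pool.Agent.H269

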