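import Pool.Agent.H269.DefsG
import Pool.Agent.H269.GN.G001
import Pool.Agent.H269.R5.J01
import Pool.Agent.H269.R5.J09

/-!
# GN-02 nuclear operators: HS bound, products of HS operators, countable sums (MP_f2af60_mp, infinitely many resonances in odd dimension)
-/

set_option autoImplicit false

open MeasureTheory Filter Topology Complex
open scoped InnerProductSpace ENNReal NNReal

namespace Pool.Agent.H269



section NucSec

variable {ι : Type} [DecidableEq ι] [Countable ι] {H : Type} [NormedAddCommGroup H]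
  [InnerProductSpace ℂ H] [CompleteSpace H] {b : HilbertBasis ι ℂ H}

theorem NucLe.toHS {X : H →L[ℂ] H} {c : ℝ} (hX : NucLe X c) : HSle b X c := by
  obtain ⟨v, φ, hs, hle, hr⟩ := hX
  exact (nuclear_HS v φ hs X hr).mono hle

theorem NucLe.mul_HS {A B : H →L[ℂ] H} {c d : ℝ} (hA : HSle b A c) (hB : HSle b B d) :
    NucLe (A * B) (c * d) := by
  have hBa := hB.adjoint
  have hcd : 0 ≤ c * d := mul_nonneg hA.1 hB.1
  have hbd : ∀ s : Finset ι,
      ∑ i ∈ s, ‖A (b i)‖ * ‖ContinuousLinearMap.adjoint B (b i)‖ ≤ c * d := by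
    intro s
    have h1 := Finset.sum_mul_sq_le_sq_mul_sq s (fun i => ‖A (b i)‖)
      (fun i => ‖ContinuousLinearMap.adjoint B (b i)‖)
    have h2 : (∑ i ∈ s, ‖A (b i)‖ ^ 2) * (∑ i ∈ s, ‖ContinuousLinearMap.adjoint B (b i)‖ ^ 2) ≤
        c ^ 2 * d ^ 2 :=
      mul_le_mul (hA.2 s) (hBa.2 s) (Finset.sum_nonneg fun _ _ => sq_nonneg _) (sq_nonneg _)
    have h3 : (∑ i ∈ s, ‖A (b i)‖ * ‖ContinuousLinearMap.adjoint B (b i)‖) ^ 2 ≤ (c * d) ^ 2 := by
      rw [mul_pow]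
      exact h1.trans h2
    exact le_of_sq_le_sq h3 hcd
  have hs : Summable (fun i => ‖A (b i)‖ * ‖ContinuousLinearMap.adjoint B (b i)‖) :=
    summable_of_sum_le (fun _ => mul_nonneg (norm_nonneg _) (norm_nonneg _)) hbd
  have hr : ∀ h, HasSum (fun i => ⟪ContinuousLinearMap.adjoint B (b i), h⟫_ℂ • A (b i))
      ((A * B) h) := by
    intro h
    have h1 := (b.hasSum_repr (B h)).mapL A
    have h2 : (fun i => A (b.repr (B h) i • b i)) =
        fun i => ⟪ContinuousLinearMap.adjoint B (b i), h⟫_ℂ • A (b i) := by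
      funext i
      rw [map_smul, b.repr_apply_apply, ContinuousLinearMap.adjoint_inner_left]
    rw [h2] at h1
    exact h1
  exact (NucLe.of_countable (fun i => A (b i)) (fun i => ContinuousLinearMap.adjoint B (b i)) hs
    (A * B) hr).mono (Real.tsum_le_of_sum_le (fun _ => mul_nonneg (norm_nonneg _) (norm_nonneg _))
      hbd)

theorem NucLe.hasSum {X : ℕ → H →L[ℂ] H} {c : ℕ → ℝ} {Y : H →L[ℂ] H} (hX : ∀ k, NucLe (X k) (c k))
    (hc : Summable c) (hY : ∀ h, HasSum (fun k => X k h) (Y h)) : NucLe Y (∑' k, c k) := by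
  choose v φ hs hle hr using hX
  have hfib : ∀ k, 0 ≤ ∑' a, ‖v k a‖ * ‖φ k a‖ := fun k =>
    tsum_nonneg fun _ => mul_nonneg (norm_nonneg _) (norm_nonneg _)
  have hsk : Summable (fun k => ∑' a, ‖v k a‖ * ‖φ k a‖) :=
    Summable.of_nonneg_of_le hfib hle hc
  have hsum : Summable (fun p : ℕ × ℕ => ‖v p.1 p.2‖ * ‖φ p.1 p.2‖) :=
    (summable_prod_of_nonneg fun p => mul_nonneg (norm_nonneg _) (norm_nonneg _)).mpr ⟨hs, hsk⟩
  have hr' : ∀ h, HasSum (fun p : ℕ × ℕ => ⟪φ p.1 p.2, h⟫_ℂ • v p.1 p.2) (Y h) := by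
    intro h
    have hsm : Summable (fun p : ℕ × ℕ => ⟪φ p.1 p.2, h⟫_ℂ • v p.1 p.2) := by
      refine Summable.of_norm_bounded (hsum.mul_left ‖h‖) fun p => ?_
      rw [norm_smul]
      calc ‖⟪φ p.1 p.2, h⟫_ℂ‖ * ‖v p.1 p.2‖ ≤ (‖φ p.1 p.2‖ * ‖h‖) * ‖v p.1 p.2‖ :=
            mul_le_mul_of_nonneg_right (norm_inner_le_norm _ _) (norm_nonneg _)
        _ = ‖h‖ * (‖v p.1 p.2‖ * ‖φ p.1 p.2‖) := by ring
    have h1 := hsm.hasSum.prod_fiberwise (fun k => hr k h)
    have h2 := h1.unique (hY h)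
    rw [← h2]
    exact hsm.hasSum
  refine (NucLe.of_countable (fun p : ℕ × ℕ => v p.1 p.2) (fun p : ℕ × ℕ => φ p.1 p.2) hsum Y
    hr').mono ?_
  rw [hsum.tsum_prod' hs]
  exact hsk.tsum_le_tsum hle hc

end NucSec

end Pool.Agent.H269
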