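import Pool.Agent.H269.DefsG
import Pool.Agent.H269.GN.G001
import Pool.Agent.H269.GN.G002
import Pool.Agent.H269.R5.J01
import Pool.Agent.H269.R5.J02
import Pool.Agent.H269.R5.J09

/-!
# GN-03 the trace on nuclear operators (MP_f2af60_mp, infinitely many resonances in odd dimension)
-/

set_option autoImplicit false

open MeasureTheory Filter Topology Complex
open scoped InnerProductSpace ENNReal NNReal

namespace Pool.Agent.H269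



section NucSec

variable {ι : Type} [DecidableEq ι] [Countable ι] {H : Type} [NormedAddCommGroup H]
  [InnerProductSpace ℂ H] [CompleteSpace H] {b : HilbertBasis ι ℂ H}

theorem tr_rep {α : Type} [Countable α] (v φ : α → H)
    (hs : Summable (fun a => ‖v a‖ * ‖φ a‖)) (X : H →L[ℂ] H)
    (hX : ∀ h, HasSum (fun a => ⟪φ a, h⟫_ℂ • v a) (X h)) (T : H →L[ℂ] H) :
    tr b (T * X) = ∑' a, ⟪φ a, T (v a)⟫_ℂ := by
  rw [← Tr2_nuclear (b := b) v φ hs X hX T]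
  rfl

theorem aux_bessel (v φ : H) (s : Finset ι) :
    ∑ i ∈ s, ‖⟪φ, b i⟫_ℂ‖ * ‖⟪b i, v⟫_ℂ‖ ≤ ‖v‖ * ‖φ‖ := by
  have h1 : ∑ i ∈ s, ‖⟪b i, v⟫_ℂ‖ ^ 2 ≤ ‖v‖ ^ 2 := b.orthonormal.sum_inner_products_le v
  have h2 : ∑ i ∈ s, ‖⟪φ, b i⟫_ℂ‖ ^ 2 ≤ ‖φ‖ ^ 2 := by
    have := b.orthonormal.sum_inner_products_le (s := s) φ
    refine le_trans (le_of_eq ?_) this
    exact Finset.sum_congr rfl fun i _ => by rw [norm_inner_symm]
  have h3 := Finset.sum_mul_sq_le_sq_mul_sq s (fun i => ‖⟪φ, b i⟫_ℂ‖) (fun i => ‖⟪b i, v⟫_ℂ‖)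
  have h4 : (∑ i ∈ s, ‖⟪φ, b i⟫_ℂ‖ * ‖⟪b i, v⟫_ℂ‖) ^ 2 ≤ (‖v‖ * ‖φ‖) ^ 2 := by
    refine le_trans h3 ?_
    rw [mul_pow, mul_comm (‖v‖ ^ 2)]
    exact mul_le_mul h2 h1 (Finset.sum_nonneg fun _ _ => by positivity) (by positivity)
  exact (sq_le_sq₀ (Finset.sum_nonneg fun _ _ => by positivity) (by positivity)).1 h4

theorem aux_fin {X : H →L[ℂ] H} {c : ℝ} (hX : NucLe X c) (s : Finset ι) :
    ∑ i ∈ s, ‖⟪b i, X (b i)⟫_ℂ‖ ≤ c := by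
  obtain ⟨v, φ, hs, hc, hX⟩ := hX
  have hle : ∀ i a, ‖⟪φ a, b i⟫_ℂ‖ * ‖⟪b i, v a⟫_ℂ‖ ≤ ‖v a‖ * ‖φ a‖ := fun i a => by
    have := aux_bessel (b := b) (v a) (φ a) {i}
    simpa using this
  have hsum : ∀ i, Summable fun a => ‖⟪φ a, b i⟫_ℂ‖ * ‖⟪b i, v a⟫_ℂ‖ := fun i =>
    Summable.of_nonneg_of_le (fun a => by positivity) (hle i) hs
  have h1 : ∀ i, ‖⟪b i, X (b i)⟫_ℂ‖ ≤ ∑' a, ‖⟪φ a, b i⟫_ℂ‖ * ‖⟪b i, v a⟫_ℂ‖ := by
    intro i
    have h2 : HasSum (fun a => ⟪b i, ⟪φ a, b i⟫_ℂ • v a⟫_ℂ) ⟪b i, X (b i)⟫_ℂ := by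
      have := (innerSL ℂ (b i)).hasSum (hX (b i))
      simpa using this
    have h3 : ∀ a, ‖⟪b i, ⟪φ a, b i⟫_ℂ • v a⟫_ℂ‖ = ‖⟪φ a, b i⟫_ℂ‖ * ‖⟪b i, v a⟫_ℂ‖ := by
      intro a
      rw [inner_smul_right, norm_mul]
    have h4 : Summable fun a => ‖⟪b i, ⟪φ a, b i⟫_ℂ • v a⟫_ℂ‖ := by
      simpa only [h3] using hsum i
    rw [← h2.tsum_eq]
    refine le_trans (norm_tsum_le_tsum_norm h4) (le_of_eq ?_)
    exact tsum_congr h3
  calc ∑ i ∈ s, ‖⟪b i, X (b i)⟫_ℂ‖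
      ≤ ∑ i ∈ s, ∑' a, ‖⟪φ a, b i⟫_ℂ‖ * ‖⟪b i, v a⟫_ℂ‖ := Finset.sum_le_sum fun i _ => h1 i
    _ = ∑' a, ∑ i ∈ s, ‖⟪φ a, b i⟫_ℂ‖ * ‖⟪b i, v a⟫_ℂ‖ :=
        (Summable.tsum_finsetSum fun i _ => hsum i).symm
    _ ≤ ∑' a, ‖v a‖ * ‖φ a‖ := by
        refine Summable.tsum_le_tsum (fun a => aux_bessel (v a) (φ a) s) ?_ hs
        exact summable_sum fun i _ => hsum i
    _ ≤ c := hc

theorem tr_summable {X : H →L[ℂ] H} {c : ℝ} (hX : NucLe X c) :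
    Summable (fun i => ⟪b i, X (b i)⟫_ℂ) :=
  Summable.of_norm (summable_of_sum_le (fun _ => norm_nonneg _) (aux_fin (b := b) hX))

theorem tr_norm_le {X : H →L[ℂ] H} {c : ℝ} (hX : NucLe X c) :
    ‖tr b X‖ ≤ c ∧ ∀ s : Finset ι, ∑ i ∈ s, ‖⟪b i, X (b i)⟫_ℂ‖ ≤ c := by
  refine ⟨?_, aux_fin hX⟩
  have h1 : Summable fun i => ‖⟪b i, X (b i)⟫_ℂ‖ :=
    summable_of_sum_le (fun _ => norm_nonneg _) (aux_fin (b := b) hX)
  exact le_trans (norm_tsum_le_tsum_norm h1) (h1.tsum_le_of_sum_le (aux_fin hX))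

theorem tr_zero : tr b (0 : H →L[ℂ] H) = 0 := by
  simp [tr]

theorem tr_add {X Z : H →L[ℂ] H} {c d : ℝ} (hX : NucLe X c) (hZ : NucLe Z d) :
    tr b (X + Z) = tr b X + tr b Z := by
  unfold tr
  rw [← (tr_summable hX).tsum_add (tr_summable hZ)]
  exact tsum_congr fun i => by rw [ContinuousLinearMap.add_apply, inner_add_right]

theorem tr_sub {X Z : H →L[ℂ] H} {c d : ℝ} (hX : NucLe X c) (hZ : NucLe Z d) :
    tr b (X - Z) = tr b X - tr b Z := by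
  unfold tr
  rw [← (tr_summable hX).tsum_sub (tr_summable hZ)]
  exact tsum_congr fun i => by rw [ContinuousLinearMap.sub_apply, inner_sub_right]

theorem tr_smul (X : H →L[ℂ] H) (z : ℂ) : tr b (z • X) = z * tr b X := by
  unfold tr
  rw [← tsum_mul_left]
  exact tsum_congr fun i => by rw [ContinuousLinearMap.smul_apply, inner_smul_right]

theorem tr_mul_comm {X : H →L[ℂ] H} {c : ℝ} (hX : NucLe X c) (T : H →L[ℂ] H) :
    tr b (T * X) = tr b (X * T) := by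
  obtain ⟨v, φ, hs, hc, hX⟩ := hX
  have hX' : ∀ h, HasSum (fun a => ⟪ContinuousLinearMap.adjoint T (φ a), h⟫_ℂ • v a)
      ((X * T) h) := by
    intro h
    have := hX (T h)
    simpa [ContinuousLinearMap.adjoint_inner_left] using this
  have hs' : Summable (fun a => ‖v a‖ * ‖ContinuousLinearMap.adjoint T (φ a)‖) := by
    refine Summable.of_nonneg_of_le (fun a => by positivity) (fun a => ?_)
      (hs.mul_left ‖ContinuousLinearMap.adjoint T‖)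
    calc ‖v a‖ * ‖ContinuousLinearMap.adjoint T (φ a)‖
        ≤ ‖v a‖ * (‖ContinuousLinearMap.adjoint T‖ * ‖φ a‖) :=
          mul_le_mul_of_nonneg_left (ContinuousLinearMap.le_opNorm _ _) (norm_nonneg _)
      _ = ‖ContinuousLinearMap.adjoint T‖ * (‖v a‖ * ‖φ a‖) := by ring
  rw [tr_rep v φ hs X hX T]
  have h1 := tr_rep (b := b) v (fun a => ContinuousLinearMap.adjoint T (φ a)) hs' (X * T) hX' 1
  rw [one_mul] at h1
  rw [h1]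
  refine tsum_congr fun a => ?_
  simp [ContinuousLinearMap.adjoint_inner_left]

end NucSec

end Pool.Agent.H269
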