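import Pool.Agent.H269.DefsG
import Pool.Agent.H269.GN.G001
import Pool.Agent.H269.GN.G002
import Pool.Agent.H269.GN.G003
import Pool.Agent.H269.R5.J01
import Pool.Agent.H269.R5.J02
import Pool.Agent.H269.R5.J04
import Pool.Agent.H269.R5.J05
import Pool.Agent.H269.R5.J06
import Pool.Agent.H269.R5.J10

/-!
# GN-04 det1: multiplicativity and estimates (MP_f2af60_mp, infinitely many resonances in odd dimension)
-/

set_option autoImplicit false

open MeasureTheory Filter Topology Complex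
open scoped InnerProductSpace ENNReal NNReal

namespace Pool.Agent.H269


section NucSec

variable {ι : Type} [DecidableEq ι] [Countable ι] {H : Type} [NormedAddCommGroup H]
  [InnerProductSpace ℂ H] [CompleteSpace H] {b : HilbertBasis ι ℂ H}

theorem det1_zero : det1 b (0 : H →L[ℂ] H) = 1 := by
  unfold det1
  rw [det2_zero, tr_zero, Complex.exp_zero, mul_one]

theorem det1_mul {X Z : H →L[ℂ] H} {c d : ℝ} (hX : NucLe X c) (hZ : NucLe Z d) :
    det1 b (X + Z + X * Z) = det1 b X * det1 b Z := by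
  have h1 := det2_mul (b := b) (hX.toHS) (hZ.toHS)
  have h2 : tr b (X + Z + X * Z) = Tr2 b X Z + (tr b X + tr b Z) := by
    rw [tr_add (hX.add hZ) (hX.right_mul Z), tr_add hX hZ]
    rw [add_comm]
    rfl
  unfold det1
  rw [h2, Complex.exp_add, ← mul_assoc, h1, Complex.exp_add]
  ring

theorem det1_sub_one {X : H →L[ℂ] H} {c : ℝ} (hX : NucLe X c) (hc : c ≤ 1) :
    ‖det1 b X - 1 - tr b X‖ ≤ 60 * c ^ 2 ∧ ‖det1 b X - 1‖ ≤ 60 * c := by
  have h0 : 0 ≤ c := hX.nonneg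
  have h1 : ‖det2 b X - 1‖ ≤ 16 * c ^ 2 := det2_sub_one hX.toHS hc
  have h2 : ‖tr b X‖ ≤ c := (tr_norm_le hX).1
  have h3 : ‖cexp (tr b X) - 1 - tr b X‖ ≤ c ^ 2 :=
    (Complex.norm_exp_sub_one_sub_id_le (h2.trans hc)).trans
      (pow_le_pow_left₀ (norm_nonneg _) h2 2)
  have h4 : ‖cexp (tr b X)‖ ≤ 2.75 := by
    rw [Complex.norm_exp]
    have h5 : (tr b X).re ≤ 1 := (Complex.re_le_norm _).trans (h2.trans hc)
    have h6 : Real.exp (tr b X).re ≤ Real.exp 1 := Real.exp_le_exp.mpr h5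
    have h7 := Real.exp_one_lt_d9
    linarith
  have h5 : ‖det1 b X - 1 - tr b X‖ ≤ 45 * c ^ 2 := by
    have e : det1 b X - 1 - tr b X
        = (det2 b X - 1) * cexp (tr b X) + (cexp (tr b X) - 1 - tr b X) := by
      unfold det1
      ring
    rw [e]
    calc ‖(det2 b X - 1) * cexp (tr b X) + (cexp (tr b X) - 1 - tr b X)‖
        ≤ ‖(det2 b X - 1) * cexp (tr b X)‖ + ‖cexp (tr b X) - 1 - tr b X‖ := norm_add_le _ _
      _ ≤ 16 * c ^ 2 * 2.75 + c ^ 2 := by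
          rw [norm_mul]
          gcongr
      _ = 45 * c ^ 2 := by ring
  have hcc : c ^ 2 ≤ c := by nlinarith
  refine ⟨h5.trans (by nlinarith), ?_⟩
  calc ‖det1 b X - 1‖ = ‖(det1 b X - 1 - tr b X) + tr b X‖ := by ring_nf
    _ ≤ ‖det1 b X - 1 - tr b X‖ + ‖tr b X‖ := norm_add_le _ _
    _ ≤ 45 * c ^ 2 + c := by gcongr
    _ ≤ 60 * c := by nlinarith

theorem det1_nuclear {α : Type} [Countable α] (v φ : α → H)
    (hs : Summable (fun a => ‖v a‖ * ‖φ a‖)) (hv : Summable (fun a => ‖v a‖)) (X : H →L[ℂ] H)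
    (hX : ∀ h, HasSum (fun a => ⟪φ a, h⟫_ℂ • v a) (X h)) (S B : ℝ) (hS : ∑' a, ‖v a‖ ≤ S)
    (hB : ∀ F : Finset α, ∏ a ∈ F, (1 + ‖φ a‖ * S) ≤ B) : ‖det1 b X‖ ≤ B := by
  have h := det2_nuclear (b := b) v φ hs hv X hX S B hS hB
  have h1 : tr b X = ∑' a, ⟪φ a, v a⟫_ℂ := by
    have h2 := tr_rep (b := b) v φ hs X hX 1
    rw [one_mul] at h2
    exact h2
  unfold det1
  rw [h1]
  exact h

end NucSec

end Pool.Agent.H269
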