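import Pool.Agent.H269.DefsG
import Pool.Agent.H269.GN.G001
import Pool.Agent.H269.GN.G002
import Pool.Agent.H269.GN.G003
import Pool.Agent.H269.GN.G004
import Pool.Agent.H269.R5.J01
import Pool.Agent.H269.R5.J02
import Pool.Agent.H269.R5.J04
import Pool.Agent.H269.R5.J05
import Pool.Agent.H269.R5.J10

/-!
# GN-05 det1: Gram matrix formula and commutation (MP_f2af60_mp, infinitely many resonances in odd dimension)
-/

set_option autoImplicit false

open MeasureTheory Filter Topology Complex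
open scoped InnerProductSpace ENNReal NNReal

namespace Pool.Agent.H269



section NucSec

variable {ι : Type} [DecidableEq ι] [Countable ι] {H : Type} [NormedAddCommGroup H]
  [InnerProductSpace ℂ H] [CompleteSpace H] {b : HilbertBasis ι ℂ H}

/-- finite part of a nuclear sum -/
noncomputable def gXF {α : Type} (v φ : α → H) (F : Finset α) : H →L[ℂ] H :=
  ∑ a ∈ F, InnerProductSpace.rankOne ℂ (v a) (φ a)

omit [CompleteSpace H] in
theorem gXF_apply {α : Type} (v φ : α → H) (F : Finset α) (h : H) :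
    gXF v φ F h = ∑ a ∈ F, ⟪φ a, h⟫_ℂ • v a := by
  simp [gXF]

omit [CompleteSpace H] in
theorem gXF_hasSum {α : Type} [DecidableEq α] (v φ : α → H) (F : Finset α) (h : H) :
    HasSum (fun a => ⟪φ a, h⟫_ℂ • (if a ∈ F then v a else 0)) (gXF v φ F h) := by
  rw [gXF_apply]
  have h1 : ∑ a ∈ F, ⟪φ a, h⟫_ℂ • v a = ∑ a ∈ F, ⟪φ a, h⟫_ℂ • (if a ∈ F then v a else 0) := by
    refine Finset.sum_congr rfl fun a ha => ?_
    rw [if_pos ha]
  rw [h1]
  refine hasSum_sum_of_ne_finset_zero fun a ha => ?_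
  rw [if_neg ha, smul_zero]

omit [CompleteSpace H] in
theorem g_tail {α : Type} [DecidableEq α] (v φ : α → H)
    (hs : Summable (fun a => ‖v a‖ * ‖φ a‖)) (F : Finset α) :
    HasSum (fun a => ‖(if a ∈ F then (0 : H) else v a)‖ * ‖φ a‖)
      ((∑' a, ‖v a‖ * ‖φ a‖) - ∑ a ∈ F, ‖v a‖ * ‖φ a‖) := by
  have h1 : HasSum (fun a => if a ∈ F then ‖v a‖ * ‖φ a‖ else 0) (∑ a ∈ F, ‖v a‖ * ‖φ a‖) := by
    have h2 : ∑ a ∈ F, ‖v a‖ * ‖φ a‖ = ∑ a ∈ F, if a ∈ F then ‖v a‖ * ‖φ a‖ else 0 := by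
      refine Finset.sum_congr rfl fun a ha => ?_
      rw [if_pos ha]
    rw [h2]
    refine hasSum_sum_of_ne_finset_zero fun a ha => ?_
    rw [if_neg ha]
  have h3 := hs.hasSum.sub h1
  refine h3.congr_fun ?_ 
  intro a
  by_cases ha : a ∈ F <;> simp [ha]

theorem gXF_nuc {α : Type} [Countable α] [DecidableEq α] (v φ : α → H)
    (hs : Summable (fun a => ‖v a‖ * ‖φ a‖)) (F : Finset α) :
    NucLe (gXF v φ F) (∑' a, ‖v a‖ * ‖φ a‖) := by
  have h0 : ∀ a, ‖(if a ∈ F then v a else (0 : H))‖ * ‖φ a‖ ≤ ‖v a‖ * ‖φ a‖ := by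
    intro a
    by_cases ha : a ∈ F
    · simp [ha]
    · simp only [ha, if_false, norm_zero, zero_mul]
      positivity
  have h1 : Summable (fun a => ‖(if a ∈ F then v a else (0 : H))‖ * ‖φ a‖) :=
    Summable.of_nonneg_of_le (fun a => by positivity) h0 hs
  have h2 := NucLe.of_countable (fun a => if a ∈ F then v a else (0 : H)) φ h1 (gXF v φ F)
    (gXF_hasSum v φ F)
  exact h2.mono (Summable.tsum_le_tsum h0 h1 hs)

theorem gXF_diff {α : Type} [Countable α] [DecidableEq α] (v φ : α → H)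
    (hs : Summable (fun a => ‖v a‖ * ‖φ a‖)) (X : H →L[ℂ] H)
    (hX : ∀ h, HasSum (fun a => ⟪φ a, h⟫_ℂ • v a) (X h)) (F : Finset α) :
    NucLe (X - gXF v φ F) ((∑' a, ‖v a‖ * ‖φ a‖) - ∑ a ∈ F, ‖v a‖ * ‖φ a‖) := by
  have h1 := g_tail v φ hs F
  have h2 := NucLe.of_countable (fun a => if a ∈ F then (0 : H) else v a) φ h1.summable
    (X - gXF v φ F) ?_
  · rwa [h1.tsum_eq] at h2
  · intro h
    have h3 := (hX h).sub (gXF_hasSum v φ F h)
    rw [sub_apply]
    refine h3.congr_fun ?_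
    intro a
    by_cases ha : a ∈ F <;> simp [ha]

theorem gXF_tendsto (b : HilbertBasis ι ℂ H) {α : Type} [Countable α] [DecidableEq α] (v φ : α → H)
    (hs : Summable (fun a => ‖v a‖ * ‖φ a‖)) (X : H →L[ℂ] H)
    (hX : ∀ h, HasSum (fun a => ⟪φ a, h⟫_ℂ • v a) (X h)) :
    Tendsto (fun F : Finset α => det1 b (gXF v φ F)) atTop (𝓝 (det1 b X)) := by
  set S := ∑' a, ‖v a‖ * ‖φ a‖ with hS
  have hXn : NucLe X S := NucLe.of_countable v φ hs X hX
  have hr : Tendsto (fun F : Finset α => S - ∑ a ∈ F, ‖v a‖ * ‖φ a‖) atTop (𝓝 0) := by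
    have := hs.hasSum
    have h1 : Tendsto (fun F : Finset α => ∑ a ∈ F, ‖v a‖ * ‖φ a‖) atTop (𝓝 S) := this
    simpa using h1.const_sub S
  have h2 : Tendsto (fun F : Finset α => det2 b (gXF v φ F)) atTop (𝓝 (det2 b X)) := by
    rw [tendsto_iff_norm_sub_tendsto_zero]
    refine squeeze_zero (fun F => norm_nonneg _)
      (g := fun F => (S - ∑ a ∈ F, ‖v a‖ * ‖φ a‖) * Real.exp ((S + S + 1) ^ 2 / 2)) ?_ ?_
    · intro F
      rw [norm_sub_rev]
      exact det2_lip hXn.toHS (gXF_nuc v φ hs F).toHS (gXF_diff v φ hs X hX F).toHS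
    · simpa using hr.mul_const (Real.exp ((S + S + 1) ^ 2 / 2))
  have h3 : Tendsto (fun F : Finset α => tr b (gXF v φ F)) atTop (𝓝 (tr b X)) := by
    rw [tendsto_iff_norm_sub_tendsto_zero]
    refine squeeze_zero (fun F => norm_nonneg _) (g := fun F => (S - ∑ a ∈ F, ‖v a‖ * ‖φ a‖)) ?_ hr
    intro F
    rw [norm_sub_rev, ← tr_sub hXn (gXF_nuc v φ hs F)]
    exact (tr_norm_le (gXF_diff v φ hs X hX F)).1
  unfold det1
  exact h2.mul ((Complex.continuous_exp.tendsto _).comp h3)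

theorem gXF_det (b : HilbertBasis ι ℂ H) {α : Type} [Countable α] [DecidableEq α] (v φ : α → H)
    (hs : Summable (fun a => ‖v a‖ * ‖φ a‖)) (F : Finset α) :
    det1 b (gXF v φ F) = (1 + Matrix.of fun a a' : F => ⟪φ a, v a'⟫_ℂ).det := by
  have hn := gXF_nuc v φ hs F
  have h1 : Tendsto (fun s : Finset ι => (1 + Mx b (gXF v φ F) s).det) atTop
      (𝓝 (det1 b (gXF v φ F))) := by
    have h2 := det2_tendsto (b := b) hn.toHS
    have h3 : Tendsto (fun s : Finset ι => (Mx b (gXF v φ F) s).trace) atTop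
        (𝓝 (tr b (gXF v φ F))) := by
      have h4 := (tr_summable (b := b) hn).hasSum
      have h5 : (fun s : Finset ι => (Mx b (gXF v φ F) s).trace) =
          fun s : Finset ι => ∑ i ∈ s, ⟪b i, gXF v φ F (b i)⟫_ℂ := by
        funext s
        simp only [Matrix.trace, Matrix.diag, Mx, Matrix.of_apply]
        exact Finset.sum_coe_sort s (fun i => ⟪b i, gXF v φ F (b i)⟫_ℂ)
      rw [h5]
      exact h4
    have h6 := h2.mul ((Complex.continuous_exp.tendsto _).comp h3)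
    unfold det1
    refine h6.congr ?_
    intro s
    simp only [d2, Function.comp]
    rw [mul_assoc, ← Complex.exp_add, neg_add_cancel, Complex.exp_zero, mul_one]
  have h7 : Tendsto (fun s : Finset ι => (1 + Mx b (gXF v φ F) s).det) atTop
      (𝓝 ((1 + Matrix.of fun a a' : F => ⟪φ a, v a'⟫_ℂ).det)) := by
    have h8 : ∀ s : Finset ι, (1 + Mx b (gXF v φ F) s).det =
        (1 + Matrix.of fun a a' : F => ∑ i ∈ s, ⟪φ a, b i⟫_ℂ * ⟪b i, v a'⟫_ℂ).det := by
      intro s
      have h9 : Mx b (gXF v φ F) s = (Matrix.of fun (i : s) (a : F) => ⟪b i, v a⟫_ℂ) *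
          (Matrix.of fun (a : F) (j : s) => ⟪φ a, b j⟫_ℂ) := by
        ext i j
        simp only [Mx, Matrix.of_apply, Matrix.mul_apply]
        rw [gXF_apply, inner_sum]
        rw [← Finset.sum_coe_sort F]
        refine Finset.sum_congr rfl fun a _ => ?_
        rw [inner_smul_right, mul_comm]
      have h10 : (Matrix.of fun a a' : F => ∑ i ∈ s, ⟪φ a, b i⟫_ℂ * ⟪b i, v a'⟫_ℂ) =
          (Matrix.of fun (a : F) (j : s) => ⟪φ a, b j⟫_ℂ) *
          (Matrix.of fun (i : s) (a : F) => ⟪b i, v a⟫_ℂ) := by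
        ext a a'
        simp only [Matrix.of_apply, Matrix.mul_apply]
        rw [← Finset.sum_coe_sort s]
      rw [h9, h10]
      exact Matrix.det_one_add_mul_comm _ _
    simp_rw [h8]
    have hcont : Continuous (fun M : Matrix F F ℂ => (1 + M).det) := by fun_prop
    have hlim : Tendsto (fun s : Finset ι => (fun a a' : F =>
        ∑ i ∈ s, ⟪φ a, b i⟫_ℂ * ⟪b i, v a'⟫_ℂ : F → F → ℂ)) atTop
        (𝓝 (fun a a' : F => ⟪φ a, v a'⟫_ℂ)) := by
      rw [tendsto_pi_nhds]
      intro a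
      rw [tendsto_pi_nhds]
      intro a'
      exact b.hasSum_inner_mul_inner (φ a) (v a')
    exact (hcont.tendsto _).comp hlim
  exact tendsto_nhds_unique h1 h7

theorem det1_gram {α : Type} [Countable α] [DecidableEq α] (v φ : α → H)
    (hs : Summable (fun a => ‖v a‖ * ‖φ a‖)) (X : H →L[ℂ] H)
    (hX : ∀ h, HasSum (fun a => ⟪φ a, h⟫_ℂ • v a) (X h)) :
    Tendsto (fun F : Finset α => (1 + Matrix.of fun a a' : F => ⟪φ a, v a'⟫_ℂ).det) atTop
      (𝓝 (det1 b X)) := by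
  refine (gXF_tendsto b v φ hs X hX).congr ?_
  intro F
  exact gXF_det b v φ hs F

theorem det1_comm {X : H →L[ℂ] H} {c : ℝ} (hX : NucLe X c) (T : H →L[ℂ] H) :
    det1 b (T * X) = det1 b (X * T) := by
  obtain ⟨v, φ, hs, -, hsum⟩ := hX
  have h1 : Summable (fun a => ‖T (v a)‖ * ‖φ a‖) := by
    refine Summable.of_nonneg_of_le (fun a => by positivity) (fun a => ?_) (hs.mul_left ‖T‖)
    calc ‖T (v a)‖ * ‖φ a‖ ≤ (‖T‖ * ‖v a‖) * ‖φ a‖ := by
          gcongr
          exact T.le_opNorm _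
      _ = ‖T‖ * (‖v a‖ * ‖φ a‖) := by ring
  have h2 : Summable (fun a => ‖v a‖ * ‖ContinuousLinearMap.adjoint T (φ a)‖) := by
    refine Summable.of_nonneg_of_le (fun a => by positivity) (fun a => ?_)
      (hs.mul_left ‖ContinuousLinearMap.adjoint T‖)
    calc ‖v a‖ * ‖ContinuousLinearMap.adjoint T (φ a)‖
        ≤ ‖v a‖ * (‖ContinuousLinearMap.adjoint T‖ * ‖φ a‖) := by
          gcongr
          exact (ContinuousLinearMap.adjoint T).le_opNorm _
      _ = ‖ContinuousLinearMap.adjoint T‖ * (‖v a‖ * ‖φ a‖) := by ring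
  have h3 := det1_gram (b := b) (fun a => T (v a)) φ h1 (T * X) (by
    intro h
    have := (hsum h).mapL T
    simpa using this)
  have h4 := det1_gram (b := b) v (fun a => ContinuousLinearMap.adjoint T (φ a)) h2 (X * T) (by
    intro h
    have := hsum (T h)
    simpa [ContinuousLinearMap.adjoint_inner_left] using this)
  refine tendsto_nhds_unique h3 ?_
  simpa only [ContinuousLinearMap.adjoint_inner_left] using h4

end NucSec

end Pool.Agent.H269
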