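import Pool.Agent.H269.DefsG
import Pool.Agent.H269.GN.G001
import Pool.Agent.H269.GN.G002

/-!
# GN-06 exponentials and powers: nuclear differences (MP_f2af60_mp, infinitely many resonances in odd dimension)
-/

set_option autoImplicit false

open MeasureTheory Filter Topology Complex
open scoped InnerProductSpace ENNReal NNReal

namespace Pool.Agent.H269


section NucHelp

variable {H : Type} [NormedAddCommGroup H] [InnerProductSpace ℂ H] [CompleteSpace H]

theorem norm_pow_le_pow_aux (A : H →L[ℂ] H) {s : ℝ} (hs : ‖A‖ ≤ s) (k : ℕ) :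
    ‖A ^ k‖ ≤ s ^ k := by
  rcases Nat.eq_zero_or_pos k with rfl | hk
  · simp only [pow_zero]
    exact ContinuousLinearMap.norm_id_le
  · exact (norm_pow_le' A hk).trans (pow_le_pow_left₀ (norm_nonneg A) hs k)

theorem pow_sub_nuc_aux (A B : H →L[ℂ] H) {d s : ℝ} (h : NucLe (B - A) d)
    (hA : ‖A‖ ≤ s) (hB : ‖B‖ ≤ s) (k : ℕ) :
    NucLe (B ^ k - A ^ k) (k * d * s ^ (k - 1)) := by
  have hd : 0 ≤ d := h.nonneg
  have hs : 0 ≤ s := (norm_nonneg A).trans hA
  induction k with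
  | zero => simpa using (NucLe.zero : NucLe (0 : H →L[ℂ] H) 0)
  | succ k ih =>
    have e : B ^ (k + 1) - A ^ (k + 1) = B * (B ^ k - A ^ k) + (B - A) * A ^ k := by
      rw [pow_succ', pow_succ']
      noncomm_ring
    rw [e]
    refine ((ih.left_mul B).add (h.right_mul (A ^ k))).mono ?_
    have h1 : ‖B‖ * (k * d * s ^ (k - 1)) ≤ k * d * s ^ k := by
      rcases Nat.eq_zero_or_pos k with rfl | hk
      · simp
      · obtain ⟨m, rfl⟩ : ∃ m, k = m + 1 := ⟨k - 1, by omega⟩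
        have h2 : 0 ≤ ((m + 1 : ℕ) : ℝ) * d * s ^ m := by positivity
        calc ‖B‖ * (((m + 1 : ℕ) : ℝ) * d * s ^ (m + 1 - 1))
            ≤ s * (((m + 1 : ℕ) : ℝ) * d * s ^ (m + 1 - 1)) := by
              apply mul_le_mul_of_nonneg_right hB
              simpa using h2
          _ = ((m + 1 : ℕ) : ℝ) * d * s ^ (m + 1) := by
              rw [Nat.add_sub_cancel, pow_succ]; ring
    have h3 : d * ‖A ^ k‖ ≤ d * s ^ k :=
      mul_le_mul_of_nonneg_left (norm_pow_le_pow_aux A hA k) hd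
    calc ‖B‖ * (k * d * s ^ (k - 1)) + d * ‖A ^ k‖ ≤ k * d * s ^ k + d * s ^ k := add_le_add h1 h3
      _ = ((k + 1 : ℕ) : ℝ) * d * s ^ (k + 1 - 1) := by
        rw [Nat.add_sub_cancel]; push_cast; ring

theorem finsum_nuc_aux {α : Type} (s : Finset α) (X : α → H →L[ℂ] H)
    (hX : ∀ a, ∃ c, NucLe (X a) c) : ∃ c, NucLe (∑ a ∈ s, X a) c := by
  classical
  induction s using Finset.induction_on with
  | empty => exact ⟨0, by simpa using (NucLe.zero : NucLe (0 : H →L[ℂ] H) 0)⟩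
  | insert a s ha ih =>
    obtain ⟨c, hc⟩ := ih
    obtain ⟨c', hc'⟩ := hX a
    exact ⟨c' + c, by rw [Finset.sum_insert ha]; exact hc'.add hc⟩

theorem finsum_smul_nuc_aux {α : Type} (s : Finset α) (X : α → H →L[ℂ] H) (z : α → ℂ)
    (hX : ∀ a, ∃ c, NucLe (X a) c) : ∃ c, NucLe (∑ a ∈ s, z a • X a) c := by
  refine finsum_nuc_aux s (fun a => z a • X a) ?_
  intro a
  obtain ⟨c, hc⟩ := hX a
  exact ⟨‖z a‖ * c, hc.smul (z a)⟩

theorem eval_hasSum_aux {X : ℕ → H →L[ℂ] H} {Y : H →L[ℂ] H} (h : HasSum X Y) (x : H) :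
    HasSum (fun k => X k x) (Y x) :=
  (ContinuousLinearMap.apply ℂ H x).hasSum h

theorem exp_terms_aux (A B : H →L[ℂ] H) :
    HasSum (fun k : ℕ => ((k.factorial : ℂ)⁻¹) • (B ^ k - A ^ k))
      (NormedSpace.exp B - NormedSpace.exp A) := by
  have h1 := NormedSpace.exp_series_hasSum_exp' (𝕂 := ℂ) B
  have h2 := NormedSpace.exp_series_hasSum_exp' (𝕂 := ℂ) A
  have h3 := h1.sub h2
  refine h3.congr_fun ?_
  intro k
  simp only [smul_sub]

end NucHelp


section NucSec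

variable {ι : Type} [DecidableEq ι] [Countable ι] {H : Type} [NormedAddCommGroup H]
  [InnerProductSpace ℂ H] [CompleteSpace H] {b : HilbertBasis ι ℂ H}

theorem exp_sub_nuc (A B : H →L[ℂ] H) {d : ℝ} (h : NucLe (B - A) d) :
    NucLe (NormedSpace.exp B - NormedSpace.exp A) (d * Real.exp (‖A‖ + ‖B‖)) ∧
    NucLe (NormedSpace.exp B - NormedSpace.exp A - (B - A))
      (d * (‖A‖ + ‖B‖) * Real.exp (‖A‖ + ‖B‖)) := by
  have hd : 0 ≤ d := h.nonneg
  set s : ℝ := ‖A‖ + ‖B‖ with hsdef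
  have hs : 0 ≤ s := by positivity
  have hA : ‖A‖ ≤ s := by rw [hsdef]; linarith [norm_nonneg B]
  have hB : ‖B‖ ≤ s := by rw [hsdef]; linarith [norm_nonneg A]
  have hterm : ∀ k : ℕ, NucLe (((k.factorial : ℂ)⁻¹) • (B ^ k - A ^ k))
      ((k.factorial : ℝ)⁻¹ * (k * d * s ^ (k - 1))) := by
    intro k
    have := (pow_sub_nuc_aux A B h hA hB k).smul ((k.factorial : ℂ)⁻¹)
    simpa using this
  have hexp : HasSum (fun k : ℕ => s ^ k / (k.factorial : ℝ)) (Real.exp s) := by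
    have := NormedSpace.expSeries_div_hasSum_exp (𝔸 := ℝ) s
    rwa [← Real.exp_eq_exp_ℝ] at this
  have hsucc : ∀ k : ℕ, (((k + 1).factorial : ℝ)⁻¹ * (((k + 1 : ℕ) : ℝ) * d * s ^ (k + 1 - 1)))
      = d * (s ^ k / (k.factorial : ℝ)) := by
    intro k
    rw [Nat.add_sub_cancel, Nat.factorial_succ]
    have h1 : ((k + 1 : ℕ) : ℝ) ≠ 0 := by positivity
    have h2 : (k.factorial : ℝ) ≠ 0 := by positivity
    push_cast
    field_simp
  have hc1 : HasSum (fun k : ℕ => (((k + 1).factorial : ℝ)⁻¹ *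
      (((k + 1 : ℕ) : ℝ) * d * s ^ (k + 1 - 1)))) (d * Real.exp s) := by
    simp only [hsucc]
    exact hexp.mul_left d
  have hc2 : HasSum (fun k : ℕ => (((k + 2).factorial : ℝ)⁻¹ *
      (((k + 2 : ℕ) : ℝ) * d * s ^ (k + 2 - 1)))) (d * (Real.exp s - 1)) := by
    have h1 : HasSum (fun k : ℕ => s ^ (k + 1) / ((k + 1).factorial : ℝ)) (Real.exp s - 1) := by
      have := (hasSum_nat_add_iff' (f := fun k : ℕ => s ^ k / (k.factorial : ℝ)) 1).mpr hexp
      simpa using this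
    have h2 := h1.mul_left d
    refine h2.congr_fun ?_
    intro k
    exact hsucc (k + 1)
  have hall := exp_terms_aux A B
  have hsh1 : HasSum (fun k : ℕ => (((k + 1).factorial : ℂ)⁻¹) • (B ^ (k + 1) - A ^ (k + 1)))
      (NormedSpace.exp B - NormedSpace.exp A) := by
    have := (hasSum_nat_add_iff' (f := fun k : ℕ => ((k.factorial : ℂ)⁻¹) • (B ^ k - A ^ k)) 1).mpr
      hall
    simpa using this
  have hsh2 : HasSum (fun k : ℕ => (((k + 2).factorial : ℂ)⁻¹) • (B ^ (k + 2) - A ^ (k + 2)))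
      (NormedSpace.exp B - NormedSpace.exp A - (B - A)) := by
    have := (hasSum_nat_add_iff' (f := fun k : ℕ => ((k.factorial : ℂ)⁻¹) • (B ^ k - A ^ k)) 2).mpr
      hall
    simpa [Finset.sum_range_succ] using this
  constructor
  · have := NucLe.hasSum (fun k => hterm (k + 1)) hc1.summable
      (Y := NormedSpace.exp B - NormedSpace.exp A)
      (fun x => (ContinuousLinearMap.apply ℂ H x).hasSum hsh1)
    rw [hc1.tsum_eq] at this
    exact this
  · have hpt : ∀ x : H, HasSum (fun k : ℕ =>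
        ((((k + 2).factorial : ℂ)⁻¹) • (B ^ (k + 2) - A ^ (k + 2))) x)
        ((NormedSpace.exp B - NormedSpace.exp A - (B - A)) x) :=
      fun x => eval_hasSum_aux hsh2 x
    have := NucLe.hasSum (fun k => hterm (k + 2)) hc2.summable
      (Y := NormedSpace.exp B - NormedSpace.exp A - (B - A)) hpt
    rw [hc2.tsum_eq] at this
    refine this.mono ?_
    have h1 : Real.exp s - 1 ≤ s * Real.exp s := by
      have h2 : 1 - s ≤ Real.exp (-s) := by
        have := Real.add_one_le_exp (-s)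
        linarith
      have h3 : (1 - s) * Real.exp s ≤ Real.exp (-s) * Real.exp s :=
        mul_le_mul_of_nonneg_right h2 (Real.exp_pos s).le
      rw [← Real.exp_add, neg_add_cancel, Real.exp_zero] at h3
      linarith
    calc d * (Real.exp s - 1) ≤ d * (s * Real.exp s) := mul_le_mul_of_nonneg_left h1 hd
      _ = d * s * Real.exp s := by ring

theorem ee_sub_nuc (p : ℕ) {T T' : H →L[ℂ] H} {d : ℝ} (h : NucLe (T' - T) d) :
    (∀ j : ℕ, ∃ d', NucLe (T' ^ j - T ^ j) d') ∧ ∃ d', NucLe (ee p T' - ee p T) d' := by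
  have h1 : ∀ j : ℕ, ∃ d', NucLe (T' ^ j - T ^ j) d' := by
    intro j
    exact ⟨_, pow_sub_nuc_aux T T' h (le_max_left ‖T‖ ‖T'‖) (le_max_right ‖T‖ ‖T'‖) j⟩
  refine ⟨h1, ?_⟩
  have e : ee p T' - ee p T = ∑ j ∈ Finset.range (p - 1),
      ((-1 : ℂ) ^ (j + 1) / ((j : ℂ) + 1)) • (T' ^ (j + 1) - T ^ (j + 1)) := by
    unfold ee
    rw [← Finset.sum_sub_distrib]
    refine Finset.sum_congr rfl fun j _ => ?_
    rw [smul_sub]
  rw [e]
  exact finsum_smul_nuc_aux (Finset.range (p - 1)) (fun j : ℕ => T' ^ (j + 1) - T ^ (j + 1))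
    (fun j : ℕ => (-1 : ℂ) ^ (j + 1) / ((j : ℂ) + 1)) (fun j => h1 (j + 1))

end NucSec

end Pool.Agent.H269
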