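import Pool.Agent.H269.DefsG
import Pool.Agent.H269.GN.G001
import Pool.Agent.H269.GN.G002
import Pool.Agent.H269.GN.G003
import Pool.Agent.H269.GN.G004
import Pool.Agent.H269.GN.G005
import Pool.Agent.H269.GN.G006

/-!
# GN-07 determinant of exp(-A) exp(B) (MP_f2af60_mp, infinitely many resonances in odd dimension)
-/

set_option autoImplicit false

open MeasureTheory Filter Topology Complex
open scoped InnerProductSpace ENNReal NNReal

namespace Pool.Agent.H269



section NucSec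

variable {ι : Type} [DecidableEq ι] [Countable ι] {H : Type} [NormedAddCommGroup H]
  [InnerProductSpace ℂ H] [CompleteSpace H] {b : HilbertBasis ι ℂ H}

theorem gn7_exp_add (X Y : H →L[ℂ] H) (h : Commute X Y) :
    NormedSpace.exp (X + Y) = NormedSpace.exp X * NormedSpace.exp Y := by
  let _ : NormedAlgebra ℚ (H →L[ℂ] H) := NormedAlgebra.restrictScalars ℚ ℂ (H →L[ℂ] H)
  exact NormedSpace.exp_add_of_commute h

theorem gn7_exp_cont : Continuous (NormedSpace.exp : (H →L[ℂ] H) → (H →L[ℂ] H)) := by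
  let _ : NormedAlgebra ℚ (H →L[ℂ] H) := NormedAlgebra.restrictScalars ℚ ℂ (H →L[ℂ] H)
  exact NormedSpace.exp_continuous

theorem gn7_exp_neg_mul (X : H →L[ℂ] H) : NormedSpace.exp (-X) * NormedSpace.exp X = 1 := by
  rw [← gn7_exp_add (-X) X ((Commute.refl X).neg_left), neg_add_cancel, NormedSpace.exp_zero]

theorem gn7_exp_mul_neg (X : H →L[ℂ] H) : NormedSpace.exp X * NormedSpace.exp (-X) = 1 := by
  rw [← gn7_exp_add X (-X) ((Commute.refl X).neg_right), add_neg_cancel, NormedSpace.exp_zero]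

/-- `exp (-tA) exp (tB) - 1` -/
noncomputable def gn7Z (A B : H →L[ℂ] H) (t : ℂ) : H →L[ℂ] H :=
  NormedSpace.exp (-(t • A)) * NormedSpace.exp (t • B) - 1

theorem gn7Z_eq (A B : H →L[ℂ] H) (t : ℂ) :
    gn7Z A B t = NormedSpace.exp (-(t • A)) * (NormedSpace.exp (t • B) - NormedSpace.exp (t • A)) := by
  unfold gn7Z
  rw [mul_sub, gn7_exp_neg_mul]

theorem gn7_smul_nuc {A B : H →L[ℂ] H} {d : ℝ} (h : NucLe (B - A) d) (t : ℂ) :
    NucLe (t • B - t • A) (‖t‖ * d) := by
  rw [← smul_sub]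
  exact h.smul t

theorem gn7Z_nuc {A B : H →L[ℂ] H} {d : ℝ} (h : NucLe (B - A) d) (t : ℂ) :
    NucLe (gn7Z A B t) (‖NormedSpace.exp (-(t • A))‖ *
      (‖t‖ * d * Real.exp (‖t • A‖ + ‖t • B‖))) := by
  rw [gn7Z_eq]
  exact ((exp_sub_nuc (t • A) (t • B) (gn7_smul_nuc h t)).1).left_mul _

theorem gn7Z_add (A B : H →L[ℂ] H) (s t : ℂ) :
    gn7Z A B (s + t) =
      NormedSpace.exp (-(t • A)) * (gn7Z A B s * NormedSpace.exp (t • A)) + gn7Z A B t +
        NormedSpace.exp (-(t • A)) * (gn7Z A B s * NormedSpace.exp (t • A)) * gn7Z A B t := by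
  have e1 : NormedSpace.exp (-((s + t) • A)) =
      NormedSpace.exp (-(t • A)) * NormedSpace.exp (-(s • A)) := by
    rw [← gn7_exp_add]
    · congr 1
      rw [add_smul]
      abel
    · exact (((Commute.refl A).smul_left t).smul_right s).neg_left.neg_right
  have e2 : NormedSpace.exp ((s + t) • B) = NormedSpace.exp (s • B) * NormedSpace.exp (t • B) := by
    rw [← gn7_exp_add]
    · rw [add_smul]
    · exact ((Commute.refl B).smul_left s).smul_right t
  have e3 := gn7_exp_mul_neg (t • A)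
  have key : ∀ P Q U V R T : H →L[ℂ] H, Q * P = 1 →
      P * R * (T * V) - 1 = P * ((R * T - 1) * Q) + (P * V - 1) +
        P * ((R * T - 1) * Q) * (P * V - 1) := by
    intro P Q U V R T hQP
    have h1 : P * ((R * T - 1) * Q) * (P * V - 1) =
        P * ((R * T - 1) * (Q * P)) * V - P * ((R * T - 1) * Q) := by noncomm_ring
    rw [h1, hQP]
    noncomm_ring
  unfold gn7Z
  rw [e1, e2]
  exact key _ _ 1 _ _ _ e3

theorem gn7_det_add {A B : H →L[ℂ] H} {d : ℝ} (h : NucLe (B - A) d) (s t : ℂ) :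
    det1 b (gn7Z A B (s + t)) = det1 b (gn7Z A B s) * det1 b (gn7Z A B t) := by
  have h1 : NucLe (gn7Z A B s * NormedSpace.exp (t • A)) _ :=
    (gn7Z_nuc h s).right_mul _
  have h2 := h1.left_mul (NormedSpace.exp (-(t • A)))
  rw [gn7Z_add, det1_mul h2 (gn7Z_nuc h t), det1_comm h1, mul_assoc, gn7_exp_mul_neg, mul_one]

theorem gn7_det_nat {A B : H →L[ℂ] H} {d : ℝ} (h : NucLe (B - A) d) (t : ℂ) (n : ℕ) :
    det1 b (gn7Z A B (n * t)) = det1 b (gn7Z A B t) ^ n := by
  induction n with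
  | zero =>
    have : gn7Z A B ((0 : ℕ) * t) = 0 := by
      unfold gn7Z
      rw [Nat.cast_zero, zero_mul, zero_smul, zero_smul, neg_zero, NormedSpace.exp_zero, mul_one,
        sub_self]
    rw [this, det1_zero, pow_zero]
  | succ n ih =>
    rw [Nat.cast_succ, add_mul, one_mul, gn7_det_add h, ih, pow_succ]

theorem gn7_diff_nuc {A B : H →L[ℂ] H} {d : ℝ} (h : NucLe (B - A) d) (t : ℂ) :
    NucLe (gn7Z A B t - t • (B - A))
      (‖NormedSpace.exp (-(t • A))‖ * (‖t‖ * d * (‖t • A‖ + ‖t • B‖) *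
        Real.exp (‖t • A‖ + ‖t • B‖)) + ‖NormedSpace.exp (-(t • A)) - 1‖ * (‖t‖ * d)) := by
  have h1 := ((exp_sub_nuc (t • A) (t • B) (gn7_smul_nuc h t)).2).left_mul
    (NormedSpace.exp (-(t • A)))
  have h2 := (gn7_smul_nuc h t).left_mul (NormedSpace.exp (-(t • A)) - 1)
  have h3 := h1.add h2
  have h4 : gn7Z A B t - t • (B - A) = NormedSpace.exp (-(t • A)) *
      (NormedSpace.exp (t • B) - NormedSpace.exp (t • A) - (t • B - t • A)) +
        (NormedSpace.exp (-(t • A)) - 1) * (t • B - t • A) := by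
    have key : ∀ P Q R S T : H →L[ℂ] H,
        P * (Q - R) - (S - T) = P * (Q - R - (S - T)) + (P - 1) * (S - T) := by
      intro P Q R S T
      noncomm_ring
    rw [gn7Z_eq, smul_sub]
    exact key _ _ _ _ _
  rw [h4]
  exact h3

theorem det1_exp (A B : H →L[ℂ] H) {d : ℝ} (h : NucLe (B - A) d) :
    det1 b (NormedSpace.exp (-A) * NormedSpace.exp B - 1) = cexp (tr b (B - A)) := by
  have hd : 0 ≤ d := h.nonneg
  let t : ℕ → ℂ := fun n => ((n : ℂ))⁻¹
  have ht : Tendsto t atTop (𝓝 0) := tendsto_inv_atTop_nhds_zero_nat (𝕜 := ℂ)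
  have htA : Tendsto (fun n => t n • A) atTop (𝓝 0) := by
    have := ht.smul_const A
    rwa [zero_smul] at this
  have htB : Tendsto (fun n => t n • B) atTop (𝓝 0) := by
    have := ht.smul_const B
    rwa [zero_smul] at this
  have hE : Tendsto (fun n => NormedSpace.exp (-(t n • A))) atTop (𝓝 1) := by
    have h1 := (gn7_exp_cont (H := H)).tendsto 0
    rw [NormedSpace.exp_zero] at h1
    refine h1.comp ?_
    have h2 := htA.neg
    rwa [neg_zero] at h2
  have ha : Tendsto (fun n => ‖NormedSpace.exp (-(t n • A))‖) atTop (𝓝 ‖(1 : H →L[ℂ] H)‖) := hE.norm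
  have hv : Tendsto (fun n => ‖NormedSpace.exp (-(t n • A)) - 1‖) atTop (𝓝 0) := by
    have := (hE.sub_const 1).norm
    rwa [sub_self, norm_zero] at this
  have hu : Tendsto (fun n => ‖t n • A‖ + ‖t n • B‖) atTop (𝓝 0) := by
    have := htA.norm.add htB.norm
    rwa [norm_zero, add_zero] at this
  have hr : Tendsto (fun n => Real.exp (‖t n • A‖ + ‖t n • B‖)) atTop (𝓝 1) := by
    have := (Real.continuous_exp.tendsto 0).comp hu
    rwa [Real.exp_zero] at this
  have htn : Tendsto (fun n => ‖t n‖) atTop (𝓝 0) := by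
    have := ht.norm
    rwa [norm_zero] at this
  -- the nuclear bound of `Z`
  have hc : Tendsto (fun n => ‖NormedSpace.exp (-(t n • A))‖ *
      (‖t n‖ * d * Real.exp (‖t n • A‖ + ‖t n • B‖))) atTop (𝓝 0) := by
    have := ha.mul ((htn.mul_const d).mul hr)
    rwa [zero_mul, zero_mul, mul_zero] at this
  have hlim : Tendsto (fun n : ℕ => (n : ℂ) * (det1 b (gn7Z A B (t n)) - 1)) atTop
      (𝓝 (tr b (B - A))) := by
    rw [tendsto_iff_norm_sub_tendsto_zero]
    have hF : Tendsto (fun n =>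
        60 * (‖NormedSpace.exp (-(t n • A))‖ * (d * Real.exp (‖t n • A‖ + ‖t n • B‖))) *
          (‖NormedSpace.exp (-(t n • A))‖ *
            (‖t n‖ * d * Real.exp (‖t n • A‖ + ‖t n • B‖))) +
        (‖NormedSpace.exp (-(t n • A))‖ * (d * (‖t n • A‖ + ‖t n • B‖) *
          Real.exp (‖t n • A‖ + ‖t n • B‖)) + ‖NormedSpace.exp (-(t n • A)) - 1‖ * d))
        atTop (𝓝 0) := by
      have h1 := ((ha.mul (hr.const_mul d)).const_mul 60).mul hc
      have h2 := (ha.mul ((hu.const_mul d).mul hr)).add (hv.mul_const d)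
      have h3 := h1.add h2
      have h4 : 60 * (‖(1 : H →L[ℂ] H)‖ * (d * 1)) * 0 +
          (‖(1 : H →L[ℂ] H)‖ * (d * 0 * 1) + 0 * d) = 0 := by ring
      rw [h4] at h3
      exact h3
    refine squeeze_zero' (Eventually.of_forall fun _ => norm_nonneg _) ?_ hF
    filter_upwards [hc.eventually (gt_mem_nhds zero_lt_one), eventually_gt_atTop 0] with n hn hn0
    have hnpos : (0 : ℝ) < n := by exact_mod_cast hn0
    have hnc : (n : ℂ) ≠ 0 := by exact_mod_cast hn0.ne'
    have htnn : ‖t n‖ = (n : ℝ)⁻¹ := by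
      show ‖((n : ℂ))⁻¹‖ = _
      rw [norm_inv, Complex.norm_natCast]
    have hnt : (n : ℝ) * ‖t n‖ = 1 := by
      rw [htnn]
      exact mul_inv_cancel₀ hnpos.ne'
    have hntc : (n : ℂ) * t n = 1 := mul_inv_cancel₀ hnc
    have b1 := (det1_sub_one (b := b) (gn7Z_nuc h (t n)) hn.le).1
    have b2 := (tr_norm_le (b := b) (gn7_diff_nuc h (t n))).1
    have b3 : tr b (gn7Z A B (t n) - t n • (B - A)) =
        tr b (gn7Z A B (t n)) - t n * tr b (B - A) := by
      rw [tr_sub (gn7Z_nuc h (t n)) (h.smul (t n)), tr_smul]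
    rw [b3] at b2
    have b4 : (n : ℂ) * (det1 b (gn7Z A B (t n)) - 1) - tr b (B - A) =
        (n : ℂ) * (det1 b (gn7Z A B (t n)) - 1 - tr b (gn7Z A B (t n))) +
          (n : ℂ) * (tr b (gn7Z A B (t n)) - t n * tr b (B - A)) := by
      have : (n : ℂ) * (t n * tr b (B - A)) = tr b (B - A) := by
        rw [← mul_assoc, hntc, one_mul]
      rw [mul_sub (n : ℂ) (tr b (gn7Z A B (t n))), this]
      ring
    rw [b4]
    refine (norm_add_le _ _).trans ?_
    rw [norm_mul, norm_mul, Complex.norm_natCast]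
    refine (add_le_add (mul_le_mul_of_nonneg_left b1 hnpos.le)
      (mul_le_mul_of_nonneg_left b2 hnpos.le)).trans_eq ?_
    generalize ‖NormedSpace.exp (-(t n • A))‖ = x
    generalize Real.exp (‖t n • A‖ + ‖t n • B‖) = y
    generalize ‖NormedSpace.exp (-(t n • A)) - 1‖ = z
    generalize ‖t n • A‖ + ‖t n • B‖ = u
    have e1 : (n : ℝ) * (60 * (x * (‖t n‖ * d * y)) ^ 2) =
        ((n : ℝ) * ‖t n‖) * (60 * (x * (d * y)) * (x * (‖t n‖ * d * y))) := by ring
    have e2 : (n : ℝ) * (x * (‖t n‖ * d * u * y) + z * (‖t n‖ * d)) =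
        ((n : ℝ) * ‖t n‖) * (x * (d * u * y) + z * d) := by ring
    rw [e1, e2, hnt, one_mul, one_mul]
  have hpow := Complex.tendsto_one_add_pow_exp_of_tendsto hlim
  have hconst : ∀ᶠ n : ℕ in atTop, (1 + (det1 b (gn7Z A B (t n)) - 1)) ^ n =
      det1 b (NormedSpace.exp (-A) * NormedSpace.exp B - 1) := by
    filter_upwards [eventually_gt_atTop 0] with n hn0
    have hnc : (n : ℂ) ≠ 0 := by exact_mod_cast hn0.ne'
    have hntc : (n : ℂ) * t n = 1 := mul_inv_cancel₀ hnc
    rw [add_sub_cancel, ← gn7_det_nat h, hntc]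
    unfold gn7Z
    rw [one_smul, one_smul]
  exact tendsto_nhds_unique (tendsto_const_nhds.congr' (hconst.mono fun n hn => hn.symm)) hpow

end NucSec

end Pool.Agent.H269
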