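import Pool.Agent.H269.DefsG

/-!
# GN-08 the operator Kp: formula, invertibility, analyticity (MP_f2af60_mp, infinitely many resonances in odd dimension)
-/

set_option autoImplicit false

open MeasureTheory Filter Topology Complex
open scoped InnerProductSpace ENNReal NNReal

namespace Pool.Agent.H269


section Gen

variable {𝔸 : Type} [NormedRing 𝔸] [NormedAlgebra ℂ 𝔸] [CompleteSpace 𝔸]

theorem j8_exp_deriv {A : ℝ → 𝔸} {A' : 𝔸} {t : ℝ} (hA : HasDerivAt A A' t)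
    (hc : ∀ s, Commute (A t) (A s)) :
    HasDerivAt (fun s => NormedSpace.exp (A s)) (NormedSpace.exp (A t) * A') t := by
  letI : NormedAlgebra ℚ 𝔸 := NormedAlgebra.restrictScalars ℚ ℂ 𝔸
  have h1 : (fun s => NormedSpace.exp (A s))
      = fun s => NormedSpace.exp (A t) * NormedSpace.exp (A s - A t) := by
    funext s
    rw [← NormedSpace.exp_add_of_commute ((hc s).sub_right (Commute.refl _))]
    congr 1
    abel
  have h2 : HasDerivAt (fun s => A s - A t) A' t := hA.sub_const _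
  have h3 : HasDerivAt (fun s => NormedSpace.exp (A s - A t)) A' t := by
    have h4 : HasFDerivAt (NormedSpace.exp : 𝔸 → 𝔸) (1 : 𝔸 →L[ℝ] 𝔸)
        ((fun s => A s - A t) t) := by
      simpa using (hasFDerivAt_exp_zero (𝕂 := ℝ) (𝔸 := 𝔸))
    exact h4.comp_hasDerivAt t h2
  rw [h1]
  exact h3.const_mul _

theorem j8_norm_exp (h1 : ‖(1 : 𝔸)‖ ≤ 1) (x : 𝔸) :
    ‖NormedSpace.exp x‖ ≤ Real.exp ‖x‖ := by
  have hs := NormedSpace.exp_series_hasSum_exp' (𝕂 := ℝ) x
  have hr := NormedSpace.exp_series_hasSum_exp' (𝕂 := ℝ) ‖x‖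
  rw [← Real.exp_eq_exp_ℝ] at hr
  have hb : ∀ n : ℕ, ‖((n.factorial : ℝ)⁻¹) • x ^ n‖ ≤ ((n.factorial : ℝ)⁻¹) • ‖x‖ ^ n := by
    intro n
    rw [norm_smul, smul_eq_mul, norm_inv, Real.norm_natCast]
    have : ‖x ^ n‖ ≤ ‖x‖ ^ n := by
      rcases Nat.eq_zero_or_pos n with hn | hn
      · subst hn
        simpa using h1
      · exact norm_pow_le' x hn
    gcongr
  rw [← hs.tsum_eq, ← hr.tsum_eq]
  exact tsum_of_norm_bounded hr.summable.hasSum hb

/-- the path of exponents -/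
noncomputable def j8_eg (q : ℕ) (T : 𝔸) (t : ℝ) : 𝔸 :=
  ∑ j ∈ Finset.range q, (((-1 : ℂ) ^ (j + 1) / ((j : ℂ) + 1)) * (t : ℂ) ^ (j + 1)) • T ^ (j + 1)

/-- the derivative of the path of exponents -/
noncomputable def j8_egd (q : ℕ) (T : 𝔸) (t : ℝ) : 𝔸 :=
  ∑ j ∈ Finset.range q, ((-1 : ℂ) ^ (j + 1) * (t : ℂ) ^ j) • T ^ (j + 1)

theorem j8_comm_eg (q : ℕ) (T : 𝔸) (t : ℝ) : Commute T (j8_eg q T t) := by
  unfold j8_eg
  refine Commute.sum_right _ _ _ fun j _ => ?_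
  exact ((Commute.refl T).pow_right _).smul_right _

theorem j8_comm_egd (q : ℕ) (T : 𝔸) (t : ℝ) : Commute T (j8_egd q T t) := by
  unfold j8_egd
  refine Commute.sum_right _ _ _ fun j _ => ?_
  exact ((Commute.refl T).pow_right _).smul_right _

theorem j8_comm_of {X : 𝔸} {T : 𝔸} (h : Commute T X) (q : ℕ) (t : ℝ) :
    Commute X (j8_eg q T t) := by
  unfold j8_eg
  refine Commute.sum_right _ _ _ fun j _ => ?_
  exact ((h.symm).pow_right _).smul_right _

theorem j8_comm_of' {X : 𝔸} {T : 𝔸} (h : Commute T X) (q : ℕ) (t : ℝ) :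
    Commute X (j8_egd q T t) := by
  unfold j8_egd
  refine Commute.sum_right _ _ _ fun j _ => ?_
  exact ((h.symm).pow_right _).smul_right _

theorem j8_eg_deriv (q : ℕ) (T : 𝔸) (t : ℝ) :
    HasDerivAt (fun s => j8_eg q T s) (j8_egd q T t) t := by
  unfold j8_eg j8_egd
  refine HasDerivAt.fun_sum fun j _ => ?_
  have h1 : HasDerivAt (fun s : ℝ => ((s : ℂ)) ^ (j + 1)) (((j + 1 : ℕ) : ℂ) * (t : ℂ) ^ j) t := by
    have := (hasDerivAt_pow (j + 1) (t : ℂ)).comp_ofReal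
    simpa using this
  have h2 := (h1.const_mul ((-1 : ℂ) ^ (j + 1) / ((j : ℂ) + 1))).smul_const (T ^ (j + 1))
  convert h2 using 2
  have : ((j : ℂ) + 1) ≠ 0 := by exact_mod_cast Nat.succ_ne_zero j
  push_cast
  field_simp

theorem j8_tele (q : ℕ) (T : 𝔸) (t : ℝ) :
    T + (1 + (t : ℂ) • T) * j8_egd q T t = ((-1 : ℂ) ^ q * (t : ℂ) ^ q) • T ^ (q + 1) := by
  induction q with
  | zero => simp [j8_egd]
  | succ q ih =>
    have h1 : j8_egd (q + 1) T t = j8_egd q T t + ((-1 : ℂ) ^ (q + 1) * (t : ℂ) ^ q) • T ^ (q + 1) := by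
      unfold j8_egd
      rw [Finset.sum_range_succ]
    rw [h1, mul_add, ← add_assoc, ih, add_mul, one_mul, smul_mul_smul_comm, ← pow_succ']
    rw [← add_assoc, ← add_smul]
    have h2 : (-1 : ℂ) ^ q * (t : ℂ) ^ q + (-1) ^ (q + 1) * (t : ℂ) ^ q = 0 := by ring
    rw [h2, zero_smul, zero_add]
    congr 1
    ring

theorem j8_F_deriv (q : ℕ) (T : 𝔸) (t : ℝ) :
    HasDerivAt (fun s : ℝ => (1 + (s : ℂ) • T) * NormedSpace.exp (j8_eg q T s))
      (T ^ (q + 1) * (((-1 : ℂ) ^ q * (t : ℂ) ^ q) • NormedSpace.exp (j8_eg q T t))) t := by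
  have h1 : HasDerivAt (fun s : ℝ => (1 : 𝔸) + (s : ℂ) • T) T t := by
    have h0 : HasDerivAt (fun s : ℝ => (s : ℂ)) 1 t := Complex.ofRealCLM.hasDerivAt
    have := (h0.smul_const T).const_add (1 : 𝔸)
    simpa using this
  have hc : ∀ s, Commute (j8_eg q T t) (j8_eg q T s) := fun s => j8_comm_of (j8_comm_eg q T t) q s
  have h2 := j8_exp_deriv (j8_eg_deriv q T t) hc
  have h3 := h1.mul h2
  refine h3.congr_deriv ?_
  have hce : Commute (NormedSpace.exp (j8_eg q T t)) (j8_egd q T t) :=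
    (j8_comm_of' (j8_comm_eg q T t) q t).exp_left
  rw [hce.eq, ← mul_assoc, ← add_mul, j8_tele]
  rw [smul_mul_assoc, mul_smul_comm]

theorem j8_main (h1 : ‖(1 : 𝔸)‖ ≤ 1) (q : ℕ) (T : 𝔸) :
    ∃ H' : 𝔸, (1 + T) * NormedSpace.exp (j8_eg q T 1) - 1 = T ^ (q + 1) * H' ∧ Commute T H' ∧
      ‖H'‖ ≤ Real.exp (∑ j ∈ Finset.range q, ‖T‖ ^ (j + 1)) := by
  letI : NormedAlgebra ℚ 𝔸 := NormedAlgebra.restrictScalars ℚ ℂ 𝔸
  have hcont : Continuous fun t : ℝ =>
      ((-1 : ℂ) ^ q * (t : ℂ) ^ q) • NormedSpace.exp (j8_eg q T t) := by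
    have hc1 : Continuous fun t : ℝ => j8_eg q T t := by
      unfold j8_eg
      fun_prop
    have hc2 : Continuous fun t : ℝ => NormedSpace.exp (j8_eg q T t) :=
      NormedSpace.exp_continuous.comp hc1
    fun_prop
  set G : ℝ → 𝔸 := fun t => ((-1 : ℂ) ^ q * (t : ℂ) ^ q) • NormedSpace.exp (j8_eg q T t) with hG
  have hGi : IntervalIntegrable G volume 0 1 := hcont.intervalIntegrable _ _
  have hL : ∀ X : 𝔸, ∫ t in (0:ℝ)..1, X * G t = X * ∫ t in (0:ℝ)..1, G t := by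
    intro X
    exact ContinuousLinearMap.intervalIntegral_comp_comm (ContinuousLinearMap.mul ℝ 𝔸 X) hGi
  have hR : ∀ X : 𝔸, ∫ t in (0:ℝ)..1, G t * X = (∫ t in (0:ℝ)..1, G t) * X := by
    intro X
    exact ContinuousLinearMap.intervalIntegral_comp_comm
      ((ContinuousLinearMap.mul ℝ 𝔸).flip X) hGi
  have hcomm : ∀ t, Commute T (G t) := fun t => ((j8_comm_eg q T t).exp_right).smul_right _
  refine ⟨∫ t in (0:ℝ)..1, G t, ?_, ?_, ?_⟩
  · rw [← hL]
    have h2 := intervalIntegral.integral_eq_sub_of_hasDerivAt (a := 0) (b := 1)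
      (fun t _ => j8_F_deriv q T t)
      ((continuous_const.mul hcont).intervalIntegrable _ _)
    rw [h2]
    have h3 : j8_eg q T 0 = 0 := by
      unfold j8_eg
      refine Finset.sum_eq_zero fun j _ => ?_
      simp
    simp [h3, NormedSpace.exp_zero]
  · show T * _ = _ * T
    rw [← hL, ← hR]
    congr 1
    funext t
    exact (hcomm t).eq
  · have h4 : ∀ t ∈ Set.uIoc (0:ℝ) 1, ‖G t‖ ≤ Real.exp (∑ j ∈ Finset.range q, ‖T‖ ^ (j + 1)) := by
      intro t ht
      rw [Set.uIoc_of_le zero_le_one] at ht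
      have ht0 : 0 ≤ t := ht.1.le
      have ht1 : t ≤ 1 := ht.2
      rw [hG]
      simp only
      rw [norm_smul]
      have h5 : ‖((-1 : ℂ) ^ q * (t : ℂ) ^ q)‖ ≤ 1 := by
        rw [norm_mul, norm_pow, norm_pow, norm_neg, norm_one, one_pow, one_mul,
          Complex.norm_real, Real.norm_of_nonneg ht0]
        exact pow_le_one₀ ht0 ht1
      have h6 : ‖j8_eg q T t‖ ≤ ∑ j ∈ Finset.range q, ‖T‖ ^ (j + 1) := by
        unfold j8_eg
        refine (norm_sum_le _ _).trans (Finset.sum_le_sum fun j _ => ?_)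
        rw [norm_smul]
        have h7 : ‖((-1 : ℂ) ^ (j + 1) / ((j : ℂ) + 1)) * (t : ℂ) ^ (j + 1)‖ ≤ 1 := by
          rw [norm_mul, norm_div, norm_pow, norm_pow, norm_neg, norm_one, one_pow,
            Complex.norm_real, Real.norm_of_nonneg ht0]
          have h8 : (1:ℝ) ≤ ‖((j : ℂ) + 1)‖ := by
            have : ((j : ℂ) + 1) = ((j + 1 : ℕ) : ℂ) := by push_cast; ring
            rw [this, Complex.norm_natCast]
            exact_mod_cast Nat.succ_le_succ (Nat.zero_le j)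
          have h9 : 1 / ‖((j : ℂ) + 1)‖ ≤ 1 := by
            rw [div_le_one (by linarith)]
            exact h8
          exact mul_le_one₀ h9 (by positivity) (pow_le_one₀ ht0 ht1)
        calc _ ≤ 1 * ‖T‖ ^ (j + 1) := by
              gcongr
              exact norm_pow_le' T (Nat.succ_pos j)
          _ = _ := one_mul _
      calc _ ≤ 1 * Real.exp (∑ j ∈ Finset.range q, ‖T‖ ^ (j + 1)) := by
            gcongr
            exact (j8_norm_exp h1 _).trans (Real.exp_le_exp.mpr h6)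
        _ = _ := one_mul _
    have := intervalIntegral.norm_integral_le_of_norm_le_const h4
    simpa using this

end Gen

section NucSec

variable {ι : Type} [DecidableEq ι] [Countable ι] {H : Type} [NormedAddCommGroup H]
  [InnerProductSpace ℂ H] [CompleteSpace H] {b : HilbertBasis ι ℂ H}

theorem Kp_eq (p : ℕ) (hp : 1 ≤ p) (T : H →L[ℂ] H) :
    ∃ H' : H →L[ℂ] H, Kp p T = T ^ p * H' ∧ Commute T H' ∧
      ‖H'‖ ≤ Real.exp (∑ j ∈ Finset.range (p - 1), ‖T‖ ^ (j + 1)) := by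
  obtain ⟨q, rfl⟩ : ∃ q, p = q + 1 := ⟨p - 1, by omega⟩
  obtain ⟨H', h1, h2, h3⟩ := j8_main (𝔸 := H →L[ℂ] H) ContinuousLinearMap.norm_id_le q T
  refine ⟨H', ?_, h2, h3⟩
  rw [← h1]
  have h4 : ee (q + 1) T = j8_eg q T 1 := by
    unfold ee j8_eg
    simp
  unfold Kp
  rw [h4]

theorem isUnit_Kp (p : ℕ) (T : H →L[ℂ] H) : IsUnit (1 + Kp p T) ↔ IsUnit (1 + T) := by
  letI : NormedAlgebra ℚ (H →L[ℂ] H) := NormedAlgebra.restrictScalars ℚ ℂ (H →L[ℂ] H)
  have h1 : 1 + Kp p T = (1 + T) * NormedSpace.exp (ee p T) := by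
    unfold Kp
    abel
  rw [h1]
  obtain ⟨u, hu⟩ := NormedSpace.isUnit_exp (ee p T)
  rw [← hu]
  exact Units.isUnit_mul_units _ _

theorem Kp_differentiable (p : ℕ) {T : ℂ → H →L[ℂ] H} (hT : Differentiable ℂ T) :
    Differentiable ℂ (fun l => Kp p (T l)) := by
  have h1 : Differentiable ℂ fun l => ee p (T l) := by
    unfold ee
    fun_prop
  have h2 : Differentiable ℂ (NormedSpace.exp : (H →L[ℂ] H) → (H →L[ℂ] H)) := fun x =>
    (NormedSpace.exp_analytic (𝕂 := ℂ) x).differentiableAt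
  have h3 : Differentiable ℂ fun l => NormedSpace.exp (ee p (T l)) := h2.comp h1
  unfold Kp
  exact (((differentiable_const _).add hT).mul h3).sub (differentiable_const _)

end NucSec

end Pool.Agent.H269
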