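import Pool.Agent.H269.DefsG
import Pool.Agent.H269.GN.G001
import Pool.Agent.H269.GN.G002
import Pool.Agent.H269.GN.G008
import Pool.Agent.H269.R5.J01

/-!
# GN-09 the operator Kp: HS and nuclear bounds (MP_f2af60_mp, infinitely many resonances in odd dimension)
-/

set_option autoImplicit false

open MeasureTheory Filter Topology Complex
open scoped InnerProductSpace ENNReal NNReal

namespace Pool.Agent.H269



section NucSec

variable {ι : Type} [DecidableEq ι] [Countable ι] {H : Type} [NormedAddCommGroup H]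
  [InnerProductSpace ℂ H] [CompleteSpace H] {b : HilbertBasis ι ℂ H}

theorem Kp_bounds (q : ℕ) (hq : 1 ≤ q) {T : H →L[ℂ] H} {c : ℝ} (hT : HSle b (T ^ q) c) :
    HSle b (Kp (2 * q) T)
      (c * (‖T‖ ^ q * Real.exp (∑ j ∈ Finset.range (2 * q - 1), ‖T‖ ^ (j + 1)))) ∧
    NucLe (Kp (2 * q) T)
      (c * (c * Real.exp (∑ j ∈ Finset.range (2 * q - 1), ‖T‖ ^ (j + 1)))) := by
  obtain ⟨H', hK, hcomm, hH'⟩ := Kp_eq (2 * q) (by omega) T
  have hpos : 0 ≤ Real.exp (∑ j ∈ Finset.range (2 * q - 1), ‖T‖ ^ (j + 1)) := (Real.exp_pos _).le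
  have hc : 0 ≤ c := hT.1
  have hsplit : Kp (2 * q) T = T ^ q * (T ^ q * H') := by
    rw [hK, two_mul, pow_add, mul_assoc]
  have hn : ‖T ^ q * H'‖ ≤ ‖T‖ ^ q * Real.exp (∑ j ∈ Finset.range (2 * q - 1), ‖T‖ ^ (j + 1)) := by
    calc ‖T ^ q * H'‖ ≤ ‖T ^ q‖ * ‖H'‖ := norm_mul_le _ _
      _ ≤ ‖T‖ ^ q * Real.exp (∑ j ∈ Finset.range (2 * q - 1), ‖T‖ ^ (j + 1)) :=
        mul_le_mul (norm_pow_le' T (by omega)) hH' (norm_nonneg _) (by positivity)
  constructor
  · rw [hsplit]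
    exact (hT.right_mul (T ^ q * H')).mono (mul_le_mul_of_nonneg_left hn hc)
  · rw [hsplit]
    exact (NucLe.mul_HS hT (hT.right_mul H')).mono
      (mul_le_mul_of_nonneg_left (mul_le_mul_of_nonneg_left hH' hc) hc)

end NucSec

end Pool.Agent.H269
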