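import Pool.Agent.H269.DefsG

/-!
# GN-10 limits of locally bounded sequences of entire functions (MP_f2af60_mp, infinitely many resonances in odd dimension)
-/

set_option autoImplicit false

open MeasureTheory Filter Topology Complex
open scoped InnerProductSpace ENNReal NNReal

namespace Pool.Agent.H269



section NucSec

variable {ι : Type} [DecidableEq ι] [Countable ι] {H : Type} [NormedAddCommGroup H]
  [InnerProductSpace ℂ H] [CompleteSpace H] {b : HilbertBasis ι ℂ H}

theorem entire_of_tendsto (f : ℕ → ℂ → ℂ) (g : ℂ → ℂ) (hf : ∀ k, Differentiable ℂ (f k))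
    (hb : ∀ r : ℝ, ∃ C : ℝ, ∀ k, ∀ z : ℂ, ‖z‖ ≤ r → ‖f k z‖ ≤ C)
    (hg : ∀ z, Tendsto (fun k => f k z) atTop (𝓝 (g z))) : Differentiable ℂ g := by
  intro z₀
  have hr0 : (0 : ℝ) < ‖z₀‖ + 1 := by positivity
  obtain ⟨C, hC⟩ := hb (‖z₀‖ + 1)
  have hgm : Measurable g :=
    measurable_of_tendsto_metrizable (fun k => (hf k).continuous.measurable) (tendsto_pi_nhds.2 hg)
  have hgC : ∀ z, ‖z‖ ≤ ‖z₀‖ + 1 → ‖g z‖ ≤ C := fun z hz =>
    le_of_tendsto ((hg z).norm) (Eventually.of_forall fun k => hC k z hz)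
  have hC0 : 0 ≤ C := (norm_nonneg _).trans (hgC 0 (by simpa using hr0.le))
  have hcircle : ∀ θ : ℝ, ‖circleMap 0 (‖z₀‖ + 1) θ‖ = ‖z₀‖ + 1 := fun θ => by
    rw [norm_circleMap_zero, abs_of_pos hr0]
  have hgi : CircleIntegrable g 0 (‖z₀‖ + 1) := by
    unfold CircleIntegrable
    refine (intervalIntegrable_const (c := C)).mono_fun
      (hgm.comp (continuous_circleMap 0 _).measurable).aestronglyMeasurable ?_
    refine Eventually.of_forall fun θ => ?_
    rw [Real.norm_eq_abs, abs_of_nonneg hC0]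
    exact hgC _ (hcircle θ).le
  have heq : ∀ z ∈ Metric.ball (0 : ℂ) (‖z₀‖ + 1), g z =
      (2 * (Real.pi : ℂ) * I : ℂ)⁻¹ • ∮ w in C(0, ‖z₀‖ + 1), (w - z)⁻¹ • g w := by
    intro z hz
    have hzn : ‖z‖ < ‖z₀‖ + 1 := by simpa using hz
    have hne : ∀ θ : ℝ, ‖z₀‖ + 1 - ‖z‖ ≤ ‖circleMap 0 (‖z₀‖ + 1) θ - z‖ := fun θ => by
      have := norm_sub_norm_le (circleMap 0 (‖z₀‖ + 1) θ) z
      rw [hcircle θ] at this
      exact this
    have h1 : ∀ k, (2 * (Real.pi : ℂ) * I : ℂ)⁻¹ •
        ∮ w in C(0, ‖z₀‖ + 1), (w - z)⁻¹ • f k w = f k z := fun k =>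
      two_pi_I_inv_smul_circleIntegral_sub_inv_smul_of_differentiable_on_off_countable
        Set.countable_empty hz (hf k).continuous.continuousOn (fun x _ => hf k x)
    have h2 : Tendsto (fun k => ∮ w in C(0, ‖z₀‖ + 1), (w - z)⁻¹ • f k w) atTop
        (𝓝 (∮ w in C(0, ‖z₀‖ + 1), (w - z)⁻¹ • g w)) := by
      unfold circleIntegral
      refine intervalIntegral.tendsto_integral_filter_of_dominated_convergence
        (fun _ => (‖z₀‖ + 1) * ((‖z₀‖ + 1 - ‖z‖)⁻¹ * C)) ?_ ?_ intervalIntegrable_const ?_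
      · refine Eventually.of_forall fun k => ?_
        have hc1 : Continuous (fun θ : ℝ => deriv (circleMap 0 (‖z₀‖ + 1)) θ) := by
          simp only [deriv_circleMap]
          fun_prop
        have hc2 : Continuous (fun θ : ℝ => (circleMap 0 (‖z₀‖ + 1) θ - z)⁻¹) := by
          refine Continuous.inv₀ (by fun_prop) fun θ h0 => ?_
          have := hne θ
          rw [h0, norm_zero] at this
          linarith
        have hc3 : Continuous (fun θ : ℝ => f k (circleMap 0 (‖z₀‖ + 1) θ)) :=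
          (hf k).continuous.comp (continuous_circleMap 0 _)
        exact (hc1.smul (hc2.smul hc3)).aestronglyMeasurable
      · refine Eventually.of_forall fun k => Eventually.of_forall fun θ _ => ?_
        rw [norm_smul, norm_smul, norm_inv]
        have e1 : ‖deriv (circleMap 0 (‖z₀‖ + 1)) θ‖ = ‖z₀‖ + 1 := by
          rw [deriv_circleMap, norm_mul, norm_I, mul_one, hcircle θ]
        rw [e1]
        have hpos : 0 < ‖z₀‖ + 1 - ‖z‖ := by linarith
        refine mul_le_mul_of_nonneg_left ?_ hr0.le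
        refine mul_le_mul ?_ (hC k _ (hcircle θ).le) (norm_nonneg _) (by positivity)
        exact inv_anti₀ hpos (hne θ)
      · refine Eventually.of_forall fun θ _ => ?_
        exact ((hg _).const_smul _).const_smul _
    refine tendsto_nhds_unique (hg z) ?_
    have h3 := h2.const_smul ((2 * (Real.pi : ℂ) * I : ℂ)⁻¹)
    simp only [h1] at h3
    exact h3
  obtain ⟨R, hR⟩ : ∃ R : ℝ≥0, (R : ℝ) = ‖z₀‖ + 1 :=
    ⟨Real.toNNReal (‖z₀‖ + 1), Real.coe_toNNReal _ hr0.le⟩
  have hfp := hasFPowerSeriesOn_cauchy_integral (f := g) (c := 0) (R := R)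
    (by rw [hR]; exact hgi) (by rw [← NNReal.coe_pos, hR]; exact hr0)
  have hmem : z₀ ∈ Metric.ball (0 : ℂ) (‖z₀‖ + 1) := by simp
  have hd : DifferentiableAt ℂ (fun z => (2 * (Real.pi : ℂ) * I : ℂ)⁻¹ •
      ∮ w in C(0, ‖z₀‖ + 1), (w - z)⁻¹ • g w) z₀ := by
    have hd' := (hfp.analyticAt_of_mem (y := z₀) (by
      rw [Metric.eball_coe, hR]
      exact hmem)).differentiableAt
    rw [hR] at hd'
    exact hd'
  refine hd.congr_of_eventuallyEq ?_
  filter_upwards [Metric.isOpen_ball.mem_nhds hmem] with z hz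
  exact heq z hz

end NucSec

end Pool.Agent.H269
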