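import Pool.Agent.H269.DefsG
import Pool.Agent.H269.GN.G001
import Pool.Agent.H269.GN.G002
import Pool.Agent.H269.GN.G003
import Pool.Agent.H269.GN.G010
import Pool.Agent.H269.R5.J01
import Pool.Agent.H269.R5.J03
import Pool.Agent.H269.R5.J04

/-!
# GN-11 det2 and trace of an analytic family are entire (MP_f2af60_mp, infinitely many resonances in odd dimension)
-/

set_option autoImplicit false

open MeasureTheory Filter Topology Complex
open scoped InnerProductSpace ENNReal NNReal

namespace Pool.Agent.H269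



section NucSec

variable {ι : Type} [DecidableEq ι] [Countable ι] {H : Type} [NormedAddCommGroup H]
  [InnerProductSpace ℂ H] [CompleteSpace H] {b : HilbertBasis ι ℂ H}

theorem entry_differentiable {K : ℂ → H →L[ℂ] H} (hK : Differentiable ℂ K) (u w : H) :
    Differentiable ℂ (fun z => ⟪u, K z w⟫_ℂ) :=
  (innerSL ℂ u).differentiable.comp (hK.clm_apply (differentiable_const w))

theorem Mx_sum_le {A : H →L[ℂ] H} {c : ℝ} (hA : HSle b A c) (s : Finset ι) :
    ∑ i : s, ∑ j : s, ‖Mx b A s i j‖ ^ 2 ≤ c ^ 2 := by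
  rw [Finset.sum_comm]
  calc ∑ j : s, ∑ i : s, ‖Mx b A s i j‖ ^ 2
      ≤ ∑ j : s, ‖A (b j)‖ ^ 2 := by
        refine Finset.sum_le_sum fun j _ => ?_
        have h1 : ∑ i : s, ‖Mx b A s i j‖ ^ 2 = ∑ i ∈ s, ‖⟪b i, A (b j)⟫_ℂ‖ ^ 2 := by
          simp only [Mx, Matrix.of_apply]
          exact Finset.sum_coe_sort s (fun i => ‖⟪b i, A (b j)⟫_ℂ‖ ^ 2)
        rw [h1]
        exact b.orthonormal.sum_inner_products_le (A (b j))
    _ = ∑ j ∈ s, ‖A (b j)‖ ^ 2 := Finset.sum_coe_sort s (fun j => ‖A (b j)‖ ^ 2)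
    _ ≤ c ^ 2 := hA.2 s

theorem det2_entire {K : ℂ → H →L[ℂ] H} (hK : Differentiable ℂ K)
    (hb : ∀ r : ℝ, ∃ c, ∀ z : ℂ, ‖z‖ ≤ r → HSle b (K z) c) :
    Differentiable ℂ (fun z => det2 b (K z)) := by
  obtain ⟨s, hs⟩ := Filter.exists_seq_tendsto (atTop : Filter (Finset ι))
  refine entire_of_tendsto (fun k z => d2 (Mx b (K z) (s k))) _ ?_ ?_ ?_
  · intro k
    have hent : ∀ i j : s k, Differentiable ℂ (fun z => Mx b (K z) (s k) i j) := by
      intro i j
      simp only [Mx, Matrix.of_apply]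
      exact entry_differentiable hK _ _
    have hdet : Differentiable ℂ (fun z => (1 + Mx b (K z) (s k)).det) := by
      simp only [Matrix.det_apply]
      refine Differentiable.fun_sum fun σ _ => Differentiable.const_smul ?_ _
      refine Differentiable.fun_finsetProd fun i _ => ?_
      simp only [Matrix.add_apply]
      exact (differentiable_const _).add (hent _ _)
    have htr : Differentiable ℂ (fun z => (Mx b (K z) (s k)).trace) := by
      simp only [Matrix.trace, Matrix.diag_apply]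
      exact Differentiable.fun_sum fun i _ => hent _ _
    unfold d2
    exact hdet.mul htr.neg.cexp
  · intro r
    obtain ⟨c, hc⟩ := hb r
    refine ⟨Real.exp (c ^ 2 / 2), fun k z hz => (d2_bound _).trans ?_⟩
    exact Real.exp_le_exp.2 (by have := Mx_sum_le (hc z hz) (s k); linarith)
  · intro z
    obtain ⟨c, hc⟩ := hb ‖z‖
    exact (det2_tendsto (hc z le_rfl)).comp hs

theorem tr_entire {K : ℂ → H →L[ℂ] H} (hK : Differentiable ℂ K)
    (hb : ∀ r : ℝ, ∃ c, ∀ z : ℂ, ‖z‖ ≤ r → NucLe (K z) c) :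
    Differentiable ℂ (fun z => tr b (K z)) := by
  obtain ⟨s, hs⟩ := Filter.exists_seq_tendsto (atTop : Filter (Finset ι))
  refine entire_of_tendsto (fun k z => ∑ i ∈ s k, ⟪b i, K z (b i)⟫_ℂ) _ ?_ ?_ ?_
  · intro k
    exact Differentiable.fun_sum fun i _ => entry_differentiable hK _ _
  · intro r
    obtain ⟨c, hc⟩ := hb r
    exact ⟨c, fun k z hz => (norm_sum_le _ _).trans ((tr_norm_le (hc z hz)).2 _)⟩
  · intro z
    obtain ⟨c, hc⟩ := hb ‖z‖
    exact (tr_summable (hc z le_rfl)).hasSum.comp hs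

end NucSec

end Pool.Agent.H269
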