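import Pool.Agent.H269.DefsG
import Pool.Agent.H269.GN.G001
import Pool.Agent.H269.GN.G002
import Pool.Agent.H269.GN.G003
import Pool.Agent.H269.GN.G008
import Pool.Agent.H269.GN.G009
import Pool.Agent.H269.GN.G011
import Pool.Agent.H269.R5.J01
import Pool.Agent.H269.R5.J04
import Pool.Agent.H269.R5.J06
import Pool.Agent.H269.R5.J41

/-!
# GN-12 det of 1 + Kp: entire, zeros (MP_f2af60_mp, infinitely many resonances in odd dimension)
-/

set_option autoImplicit false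

open MeasureTheory Filter Topology Complex
open scoped InnerProductSpace ENNReal NNReal

namespace Pool.Agent.H269



section NucSec

variable {ι : Type} [DecidableEq ι] [Countable ι] {H : Type} [NormedAddCommGroup H]
  [InnerProductSpace ℂ H] [CompleteSpace H] {b : HilbertBasis ι ℂ H}

theorem detKp_entire (q : ℕ) (hq : 1 ≤ q) {T : ℂ → H →L[ℂ] H} (hT : Differentiable ℂ T)
    (hb : ∀ r : ℝ, ∃ c, ∀ z : ℂ, ‖z‖ ≤ r → HSle b (T z ^ q) c) :
    Differentiable ℂ (fun z => det1 b (Kp (2 * q) (T z))) := by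
  have hK : Differentiable ℂ (fun z => Kp (2 * q) (T z)) := Kp_differentiable (2 * q) hT
  have hbd : ∀ r : ℝ, ∃ M, 0 ≤ M ∧ ∀ z : ℂ, ‖z‖ ≤ r → ‖T z‖ ≤ M := by
    intro r
    have hc : IsCompact (Metric.closedBall (0 : ℂ) r) := isCompact_closedBall 0 r
    obtain ⟨M, hM⟩ := hc.exists_bound_of_continuousOn (f := T) hT.continuous.continuousOn
    exact ⟨max M 0, le_max_right _ _, fun z hz =>
      (hM z (by simpa using hz)).trans (le_max_left _ _)⟩
  have h1 : ∀ r : ℝ, ∃ c, ∀ z : ℂ, ‖z‖ ≤ r → HSle b (Kp (2 * q) (T z)) c := by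
    intro r
    obtain ⟨M, hM0, hM⟩ := hbd r
    obtain ⟨c, hc⟩ := hb r
    refine ⟨c * (M ^ q * Real.exp (∑ j ∈ Finset.range (2 * q - 1), M ^ (j + 1))), fun z hz => ?_⟩
    have hc0 : 0 ≤ c := (hc z hz).1
    have hMz := hM z hz
    refine (Kp_bounds q hq (hc z hz)).1.mono ?_
    gcongr
  have h2 : ∀ r : ℝ, ∃ c, ∀ z : ℂ, ‖z‖ ≤ r → NucLe (Kp (2 * q) (T z)) c := by
    intro r
    obtain ⟨M, hM0, hM⟩ := hbd r
    obtain ⟨c, hc⟩ := hb r
    refine ⟨c * (c * Real.exp (∑ j ∈ Finset.range (2 * q - 1), M ^ (j + 1))), fun z hz => ?_⟩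
    have hc0 : 0 ≤ c := (hc z hz).1
    have hMz := hM z hz
    refine (Kp_bounds q hq (hc z hz)).2.mono ?_
    gcongr
  exact (det2_entire (b := b) hK h1).mul (tr_entire (b := b) hK h2).cexp

theorem detKp_eq_zero (q : ℕ) (hq : 1 ≤ q) {T : H →L[ℂ] H} {c : ℝ} (hT : HSle b (T ^ q) c) :
    det1 b (Kp (2 * q) T) = 0 ↔ ¬ IsUnit (1 + T) := by
  have h1 := (Kp_bounds q hq hT).1
  unfold det1
  rw [mul_eq_zero, or_iff_left (Complex.exp_ne_zero _), ← isUnit_Kp (2 * q) T]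
  constructor
  · intro h hu
    exact det2_ne_zero h1 hu h
  · intro hu
    exact det2_eq_zero h1 hu

end NucSec

end Pool.Agent.H269
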