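import Pool.Agent.H269.DefsG
import Pool.Agent.H269.GN.G001
import Pool.Agent.H269.GN.G002
import Pool.Agent.H269.GN.G003
import Pool.Agent.H269.GN.G009
import Pool.Agent.H269.R5.J01
import Pool.Agent.H269.R5.J04
import Pool.Agent.H269.R5.J06

/-!
# GN-13 det of 1 + Kp: bounds (MP_f2af60_mp, infinitely many resonances in odd dimension)
-/

set_option autoImplicit false

open MeasureTheory Filter Topology Complex
open scoped InnerProductSpace ENNReal NNReal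

namespace Pool.Agent.H269



section NucSec

variable {ι : Type} [DecidableEq ι] [Countable ι] {H : Type} [NormedAddCommGroup H]
  [InnerProductSpace ℂ H] [CompleteSpace H] {b : HilbertBasis ι ℂ H}

theorem H269_sum_le (q : ℕ) (n B : ℝ) (hn : 0 ≤ n) (hB : 1 ≤ B) (hnB : n ≤ B) :
    ∑ j ∈ Finset.range (2 * q - 1), n ^ (j + 1) ≤ 2 * q * B ^ (2 * q) := by
  have h1 : ∀ j ∈ Finset.range (2 * q - 1), n ^ (j + 1) ≤ B ^ (2 * q) := by
    intro j hj
    have hj' := Finset.mem_range.1 hj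
    exact le_trans (pow_le_pow_left₀ hn hnB _) (pow_le_pow_right₀ hB (by omega))
  refine le_trans (Finset.sum_le_card_nsmul _ _ _ h1) ?_
  rw [Finset.card_range, nsmul_eq_mul]
  refine mul_le_mul_of_nonneg_right ?_ (by positivity)
  have : ((2 * q - 1 : ℕ) : ℝ) ≤ ((2 * q : ℕ) : ℝ) := by exact_mod_cast Nat.sub_le _ _
  refine le_trans this ?_
  push_cast
  exact le_rfl

theorem detKp_bound (q : ℕ) (hq : 1 ≤ q) {T : H →L[ℂ] H} {c : ℝ} (hT : HSle b (T ^ q) c)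
    (B : ℝ) (hB : 1 ≤ B) (hTB : ‖T‖ ≤ B) :
    ‖det1 b (Kp (2 * q) T)‖ ≤ Real.exp (c ^ 2 * Real.exp (8 * q * B ^ (2 * q))) := by
  obtain ⟨h1, h2⟩ := Kp_bounds q hq hT
  have hc : 0 ≤ c := hT.1
  have hn0 : 0 ≤ ‖T‖ := norm_nonneg _
  have hS := H269_sum_le q ‖T‖ B hn0 hB hTB
  set E := Real.exp (∑ j ∈ Finset.range (2 * q - 1), ‖T‖ ^ (j + 1)) with hE
  set X := B ^ (2 * q) with hX
  have hX1 : 1 ≤ X := one_le_pow₀ hB
  have hE1 : E ≤ Real.exp (2 * q * X) := Real.exp_le_exp.2 hS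
  have hE0 : 0 < E := Real.exp_pos _
  have hq1 : (1 : ℝ) ≤ q := by exact_mod_cast hq
  have b1 := det2_bound h1
  have b2 := (tr_norm_le (b := b) h2).1
  unfold det1
  rw [norm_mul, Complex.norm_exp]
  have b3 : Real.exp (tr b (Kp (2 * q) T)).re ≤ Real.exp (c * (c * E)) :=
    Real.exp_le_exp.2 (le_trans (Complex.re_le_norm _) b2)
  refine le_trans (mul_le_mul b1 b3 (Real.exp_pos _).le (Real.exp_pos _).le) ?_
  rw [← Real.exp_add]
  refine Real.exp_le_exp.2 ?_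
  have hn2 : (‖T‖ ^ q) ^ 2 ≤ X := by
    rw [← pow_mul, mul_comm q 2]
    exact pow_le_pow_left₀ hn0 hTB _
  have hXe : X ≤ Real.exp (q * X) := by
    have := Real.add_one_le_exp ((q : ℝ) * X)
    nlinarith
  have hE2 : E ^ 2 ≤ Real.exp (4 * q * X) := by
    have : Real.exp (4 * q * X) = Real.exp (2 * q * X) ^ 2 := by
      rw [sq, ← Real.exp_add]
      ring_nf
    rw [this]
    exact pow_le_pow_left₀ hE0.le hE1 2
  have hA : (‖T‖ ^ q) ^ 2 * E ^ 2 ≤ Real.exp (5 * q * X) := by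
    have : Real.exp (5 * q * X) = Real.exp (q * X) * Real.exp (4 * q * X) := by
      rw [← Real.exp_add]
      ring_nf
    rw [this]
    exact mul_le_mul (le_trans hn2 hXe) hE2 (by positivity) (Real.exp_pos _).le
  have hF : E ≤ Real.exp (5 * q * X) := le_trans hE1 (Real.exp_le_exp.2 (by nlinarith))
  have hG : 2 * Real.exp (5 * q * X) ≤ Real.exp (8 * q * X) := by
    have h8 : Real.exp (8 * q * X) = Real.exp (3 * q * X) * Real.exp (5 * q * X) := by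
      rw [← Real.exp_add]
      ring_nf
    rw [h8]
    refine mul_le_mul_of_nonneg_right ?_ (Real.exp_pos _).le
    have := Real.add_one_le_exp (3 * (q : ℝ) * X)
    nlinarith
  have hfin : (c * (‖T‖ ^ q * E)) ^ 2 / 2 + c * (c * E) =
      c ^ 2 * ((‖T‖ ^ q) ^ 2 * E ^ 2 / 2 + E) := by ring
  rw [hfin]
  refine mul_le_mul_of_nonneg_left ?_ (sq_nonneg c)
  have := Real.exp_pos (5 * q * X)
  linarith

theorem detKp_near (q : ℕ) (hq : 1 ≤ q) : ∃ C : ℝ, 0 < C ∧ ∀ {T : H →L[ℂ] H} {c : ℝ},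
    HSle b (T ^ q) c → ‖T‖ ≤ 1 → C * c ^ 2 ≤ 1 → ‖det1 b (Kp (2 * q) T) - 1‖ ≤ C * c ^ 2 := by
  set e0 := Real.exp (2 * (q : ℝ)) with he0
  have he1 : 1 ≤ e0 := Real.one_le_exp (by positivity)
  refine ⟨100 * e0 ^ 2, by positivity, ?_⟩
  intro T c hT hT1 hCc
  obtain ⟨h1, h2⟩ := Kp_bounds q hq hT
  have hc : 0 ≤ c := hT.1
  have hn0 : 0 ≤ ‖T‖ := norm_nonneg _
  have hS := H269_sum_le q ‖T‖ 1 hn0 le_rfl hT1
  rw [one_pow, mul_one] at hS
  set E := Real.exp (∑ j ∈ Finset.range (2 * q - 1), ‖T‖ ^ (j + 1)) with hE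
  have hE1 : E ≤ e0 := Real.exp_le_exp.2 hS
  have hE0 : 0 < E := Real.exp_pos _
  have hnq : ‖T‖ ^ q ≤ 1 := pow_le_one₀ hn0 hT1
  have hnq0 : 0 ≤ ‖T‖ ^ q := pow_nonneg hn0 q
  have ha : c * (‖T‖ ^ q * E) ≤ c * e0 := by
    refine mul_le_mul_of_nonneg_left ?_ hc
    nlinarith
  have hce0 : 0 ≤ c * e0 := by positivity
  have hce : c * e0 ≤ 1 / 10 := by
    by_contra hlt
    push Not at hlt
    nlinarith
  have ha0 : 0 ≤ c * (‖T‖ ^ q * E) := by positivity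
  have b1 := det2_sub_one h1 (by linarith)
  have b2 := (tr_norm_le (b := b) h2).1
  have ht : ‖tr b (Kp (2 * q) T)‖ ≤ c ^ 2 * e0 := by
    refine le_trans b2 ?_
    have : c * (c * E) = c ^ 2 * E := by ring
    rw [this]
    exact mul_le_mul_of_nonneg_left hE1 (sq_nonneg c)
  have hcc : c ^ 2 * e0 ≤ c ^ 2 * e0 ^ 2 := by
    refine mul_le_mul_of_nonneg_left ?_ (sq_nonneg c)
    nlinarith
  have hcs : c ^ 2 * e0 ^ 2 ≤ 1 / 100 := by
    have : 100 * e0 ^ 2 * c ^ 2 = 100 * (c ^ 2 * e0 ^ 2) := by ring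
    linarith
  have ht1 : ‖tr b (Kp (2 * q) T)‖ ≤ 1 := by linarith
  set t := tr b (Kp (2 * q) T) with htdef
  have b3 : ‖cexp t - 1‖ ≤ 2 * ‖t‖ := Complex.norm_exp_sub_one_le ht1
  have b4 : ‖cexp t‖ ≤ 3 := by
    have : cexp t = (cexp t - 1) + 1 := by ring
    rw [this]
    refine le_trans (norm_add_le _ _) ?_
    rw [norm_one]
    linarith
  have e : det1 b (Kp (2 * q) T) - 1 =
      (det2 b (Kp (2 * q) T) - 1) * cexp t + (cexp t - 1) := by
    unfold det1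
    ring
  rw [e]
  refine le_trans (norm_add_le _ _) ?_
  rw [norm_mul]
  have b5 : ‖det2 b (Kp (2 * q) T) - 1‖ * ‖cexp t‖ ≤ 16 * (c * (‖T‖ ^ q * E)) ^ 2 * 3 :=
    mul_le_mul b1 b4 (norm_nonneg _) (by positivity)
  have b6 : (c * (‖T‖ ^ q * E)) ^ 2 ≤ (c * e0) ^ 2 := pow_le_pow_left₀ ha0 ha 2
  have b7 : (c * e0) ^ 2 = c ^ 2 * e0 ^ 2 := by ring
  have b8 : 100 * e0 ^ 2 * c ^ 2 = 100 * (c ^ 2 * e0 ^ 2) := by ring
  have b9 : 0 ≤ c ^ 2 * e0 ^ 2 := by positivity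
  linarith

end NucSec

end Pool.Agent.H269
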