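import Pool.Agent.H269.DefsG
import Pool.Agent.H269.GN.G001
import Pool.Agent.H269.GN.G002
import Pool.Agent.H269.GN.G003
import Pool.Agent.H269.GN.G004
import Pool.Agent.H269.GN.G005
import Pool.Agent.H269.GN.G006
import Pool.Agent.H269.GN.G007
import Pool.Agent.H269.GN.G009
import Pool.Agent.H269.R5.J01
import Pool.Agent.H269.R5.J02
import Pool.Agent.H269.R5.J04
import Pool.Agent.H269.R5.J05

/-!
# GN-14 reflection formula for the regularized determinant (MP_f2af60_mp, infinitely many resonances in odd dimension)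
-/

set_option autoImplicit false

open MeasureTheory Filter Topology Complex
open scoped InnerProductSpace ENNReal NNReal

namespace Pool.Agent.H269



section NucSec

variable {ι : Type} [DecidableEq ι] [Countable ι] {H : Type} [NormedAddCommGroup H]
  [InnerProductSpace ℂ H] [CompleteSpace H] {b : HilbertBasis ι ℂ H}

theorem tr_finset_sum_aux (n : ℕ) (F : ℕ → H →L[ℂ] H) (hF : ∀ j, ∃ c : ℝ, NucLe (F j) c) :
    (∃ c : ℝ, NucLe (∑ j ∈ Finset.range n, F j) c) ∧
      tr b (∑ j ∈ Finset.range n, F j) = ∑ j ∈ Finset.range n, tr b (F j) := by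
  induction n with
  | zero => exact ⟨⟨0, by simpa using NucLe.zero⟩, by simpa using tr_zero⟩
  | succ n ih =>
    obtain ⟨⟨c, hc⟩, ht⟩ := ih
    obtain ⟨c', hc'⟩ := hF n
    refine ⟨⟨c + c', ?_⟩, ?_⟩
    · rw [Finset.sum_range_succ]
      exact hc.add hc'
    · rw [Finset.sum_range_succ, Finset.sum_range_succ, tr_add hc hc', ht]

theorem detKp_reflect (q : ℕ) (hq : 1 ≤ q) {T T' Y : H →L[ℂ] H} {c c' d : ℝ}
    (hT : HSle b (T ^ q) c) (hT' : HSle b (T' ^ q) c') (hJ : NucLe (T' - T) d)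
    (h1 : (1 + T) * Y = 1) (h2 : Y * (1 + T) = 1) :
    det1 b (Kp (2 * q) T') = det1 b (Kp (2 * q) T) * det1 b (Y * (T' - T)) *
      cexp (∑ j ∈ Finset.range (2 * q - 1),
        ((-1 : ℂ) ^ (j + 1) / ((j : ℂ) + 1)) * tr b (T' ^ (j + 1) - T ^ (j + 1))) := by
  let : NormedAlgebra ℚ (H →L[ℂ] H) := NormedAlgebra.restrictScalars ℚ ℂ _
  obtain ⟨hpow, d', hd'⟩ := ee_sub_nuc (2 * q) hJ
  have hEEi : NormedSpace.exp (ee (2 * q) T) * NormedSpace.exp (-(ee (2 * q) T)) = 1 := by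
    rw [← NormedSpace.exp_add_of_commute ((Commute.refl _).neg_right), add_neg_cancel,
      NormedSpace.exp_zero]
  have hEiE : NormedSpace.exp (-(ee (2 * q) T)) * NormedSpace.exp (ee (2 * q) T) = 1 := by
    rw [← NormedSpace.exp_add_of_commute ((Commute.refl _).neg_left), neg_add_cancel,
      NormedSpace.exp_zero]
  have hX : NucLe (Y * (T' - T)) (‖Y‖ * d) := hJ.left_mul Y
  have hdet : det1 b (NormedSpace.exp (-(ee (2 * q) T)) * NormedSpace.exp (ee (2 * q) T') - 1) =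
      cexp (tr b (ee (2 * q) T' - ee (2 * q) T)) := det1_exp (ee (2 * q) T) (ee (2 * q) T') hd'
  have htr : tr b (ee (2 * q) T' - ee (2 * q) T) = ∑ j ∈ Finset.range (2 * q - 1),
        ((-1 : ℂ) ^ (j + 1) / ((j : ℂ) + 1)) * tr b (T' ^ (j + 1) - T ^ (j + 1)) := by
    have e1 : ee (2 * q) T' - ee (2 * q) T = ∑ j ∈ Finset.range (2 * q - 1),
        (((-1 : ℂ) ^ (j + 1) / ((j : ℂ) + 1)) • (T' ^ (j + 1) - T ^ (j + 1))) := by
      simp only [ee, smul_sub, Finset.sum_sub_distrib]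
    rw [e1, (tr_finset_sum_aux (b := b) (2 * q - 1) _ ?_).2]
    · refine Finset.sum_congr rfl fun j _ => ?_
      rw [tr_smul]
    · intro j
      obtain ⟨w, hw⟩ := hpow (j + 1)
      exact ⟨_, hw.smul _⟩
  have hEE : NucLe (NormedSpace.exp (ee (2 * q) T') - NormedSpace.exp (ee (2 * q) T))
      (d' * Real.exp (‖ee (2 * q) T‖ + ‖ee (2 * q) T'‖)) := (exp_sub_nuc _ _ hd').1
  have hKdef : Kp (2 * q) T = (1 + T) * NormedSpace.exp (ee (2 * q) T) - 1 := rfl
  have hKdef' : Kp (2 * q) T' = (1 + T') * NormedSpace.exp (ee (2 * q) T') - 1 := rfl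
  have hKN := (Kp_bounds (b := b) q hq hT).2
  rw [← htr, ← hdet]
  generalize NormedSpace.exp (ee (2 * q) T) = E at *
  generalize NormedSpace.exp (-(ee (2 * q) T)) = Ei at *
  generalize NormedSpace.exp (ee (2 * q) T') = E' at *
  have hV : NucLe (Ei * E' - 1) (‖Ei‖ * (d' * Real.exp (‖ee (2 * q) T‖ + ‖ee (2 * q) T'‖))) := by
    have e2 : Ei * E' - 1 = Ei * (E' - E) := by rw [mul_sub, hEiE]
    rw [e2]
    exact hEE.left_mul Ei
  have hXE := hX.right_mul E
  have hW := hXE.left_mul Ei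
  have hWV := (hW.add hV).add (hW.right_mul (Ei * E' - 1))
  have hK' : Kp (2 * q) T' = Kp (2 * q) T +
      (Ei * (Y * (T' - T) * E) + (Ei * E' - 1) + Ei * (Y * (T' - T) * E) * (Ei * E' - 1)) +
      Kp (2 * q) T *
      (Ei * (Y * (T' - T) * E) + (Ei * E' - 1) + Ei * (Y * (T' - T) * E) * (Ei * E' - 1)) := by
    have e3 : Ei * (Y * (T' - T) * E) + (Ei * E' - 1) + Ei * (Y * (T' - T) * E) * (Ei * E' - 1) =
        Ei * (1 + Y * (T' - T)) * E' - 1 := by
      have : Ei * (Y * (T' - T) * E) * (Ei * E' - 1) =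
          Ei * (Y * (T' - T)) * ((E * Ei) * E') - Ei * (Y * (T' - T) * E) := by noncomm_ring
      rw [this, hEEi]
      noncomm_ring
    rw [e3, hKdef, hKdef']
    have e4 : (1 + T) * E * (Ei * (1 + Y * (T' - T)) * E') = (1 + T') * E' := by
      have : (1 + T) * E * (Ei * (1 + Y * (T' - T)) * E') =
          (1 + T) * (E * Ei) * E' + (1 + T) * (E * Ei) * (Y * (T' - T)) * E' := by noncomm_ring
      rw [this, hEEi, mul_one, ← mul_assoc, h1]
      noncomm_ring
    have e5 : (1 + T) * E - 1 + (Ei * (1 + Y * (T' - T)) * E' - 1) +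
        ((1 + T) * E - 1) * (Ei * (1 + Y * (T' - T)) * E' - 1) =
        (1 + T) * E * (Ei * (1 + Y * (T' - T)) * E') - 1 := by noncomm_ring
    rw [e5, e4]
  rw [hK', det1_mul hKN hWV, det1_mul hW hV, det1_comm hXE Ei, mul_assoc (Y * (T' - T)) E Ei, hEEi,
    mul_one, mul_assoc]

end NucSec

end Pool.Agent.H269
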