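import Pool.Agent.H269.DefsG

/-!
# GN-20 reverse Bessel polynomials, derivative of the Green function (MP_f2af60_mp, infinitely many resonances in odd dimension)
-/

set_option autoImplicit false

open MeasureTheory Filter Topology Complex
open scoped InnerProductSpace ENNReal NNReal

namespace Pool.Agent.H269


theorem aux3376_deriv : (v : ℕ) → (w : ℂ) →
    HasDerivAt (th (v + 1)) (th (v + 1) w - w * th v w) w
  | 0, w => by
    have h1 : th 1 = fun w : ℂ => 1 + w := by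
      funext w
      rfl
    have h2 : th (0 + 1) w - w * th 0 w = 1 := by
      change (1 + w) - w * 1 = 1
      ring
    rw [h2]
    change HasDerivAt (th 1) 1 w
    rw [h1]
    exact (hasDerivAt_id w).const_add 1
  | 1, w => by
    have h1 : th (1 + 1) = fun w : ℂ => 3 * (1 + w) + w ^ 2 := by
      funext w
      change (2 * ((0 : ℕ) : ℂ) + 3) * (1 + w) + w ^ 2 * 1 = 3 * (1 + w) + w ^ 2
      push_cast
      ring
    have h2 : th (1 + 1) w - w * th 1 w = 3 * 1 + 2 * w := by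
      rw [h1]
      change 3 * (1 + w) + w ^ 2 - w * (1 + w) = 3 * 1 + 2 * w
      ring
    rw [h2, h1]
    have h3 : HasDerivAt (fun w : ℂ => 3 * (1 + w)) (3 * 1) w :=
      ((hasDerivAt_id w).const_add 1).const_mul 3
    have h4 : HasDerivAt (fun w : ℂ => w ^ 2) (2 * w) w := by
      have := hasDerivAt_pow 2 w
      simpa using this
    exact h3.add h4
  | (k + 2), w => by
    have i1 := aux3376_deriv (k + 1) w
    have i0 := aux3376_deriv k w
    have h1 : th (k + 2 + 1) = fun w : ℂ =>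
        (2 * ((k + 1 : ℕ) : ℂ) + 3) * th (k + 1 + 1) w + w ^ 2 * th (k + 1) w := by
      funext w
      rfl
    have h0 : th (k + 2) w = (2 * (k : ℂ) + 3) * th (k + 1) w + w ^ 2 * th k w := rfl
    have h4 : HasDerivAt (fun w : ℂ => w ^ 2) (2 * w) w := by
      have := hasDerivAt_pow 2 w
      simpa using this
    have h5 : HasDerivAt (fun w : ℂ =>
        (2 * ((k + 1 : ℕ) : ℂ) + 3) * th (k + 1 + 1) w + w ^ 2 * th (k + 1) w) _ w :=
      (i1.const_mul (2 * ((k + 1 : ℕ) : ℂ) + 3)).add (h4.mul i0)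
    rw [h1]
    refine h5.congr_deriv ?_
    simp only [h0]
    push_cast
    ring

theorem aux3376_diff : (v : ℕ) → Differentiable ℂ (th v)
  | 0 => by
    have h1 : th 0 = fun _ : ℂ => (1 : ℂ) := by
      funext w
      rfl
    rw [h1]
    exact differentiable_const 1
  | (v + 1) => fun w => (aux3376_deriv v w).differentiableAt


theorem th_bound (v : ℕ) : ∃ C : ℝ, 0 < C ∧ ∀ w : ℂ, ‖th v w‖ ≤ C * (1 + ‖w‖) ^ v := by
  induction v using Nat.twoStepInduction with
  | zero =>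
    refine ⟨1, one_pos, fun w => ?_⟩
    change ‖(1 : ℂ)‖ ≤ 1 * (1 + ‖w‖) ^ 0
    simp
  | one =>
    refine ⟨1, one_pos, fun w => ?_⟩
    change ‖1 + w‖ ≤ 1 * (1 + ‖w‖) ^ 1
    have := norm_add_le (1 : ℂ) w
    simpa using this
  | more k h0 h1 =>
    obtain ⟨C0, hC0, H0⟩ := h0
    obtain ⟨C1, hC1, H1⟩ := h1
    refine ⟨(2 * (k : ℝ) + 3) * C1 + C0, by positivity, fun w => ?_⟩
    change ‖(2 * (k : ℂ) + 3) * th (k + 1) w + w ^ 2 * th k w‖ ≤ _
    have hw : 0 ≤ ‖w‖ := norm_nonneg w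
    have hk : ‖(2 * (k : ℂ) + 3)‖ = 2 * (k : ℝ) + 3 := by
      have : (2 * (k : ℂ) + 3) = ((2 * (k : ℝ) + 3 : ℝ) : ℂ) := by push_cast; ring
      rw [this, Complex.norm_real, Real.norm_of_nonneg (by positivity)]
    have e1 : ‖(2 * (k : ℂ) + 3) * th (k + 1) w‖ ≤
        (2 * (k : ℝ) + 3) * (C1 * (1 + ‖w‖) ^ (k + 2)) := by
      rw [norm_mul, hk]
      refine mul_le_mul_of_nonneg_left ((H1 w).trans ?_) (by positivity)
      refine mul_le_mul_of_nonneg_left ?_ hC1.le
      exact pow_le_pow_right₀ (by linarith) (by omega)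
    have e2 : ‖w ^ 2 * th k w‖ ≤ C0 * (1 + ‖w‖) ^ (k + 2) := by
      rw [norm_mul, norm_pow]
      calc ‖w‖ ^ 2 * ‖th k w‖ ≤ (1 + ‖w‖) ^ 2 * (C0 * (1 + ‖w‖) ^ k) := by
            refine mul_le_mul ?_ (H0 w) (norm_nonneg _) (by positivity)
            exact pow_le_pow_left₀ hw (by linarith) 2
        _ = C0 * (1 + ‖w‖) ^ (k + 2) := by ring
    calc ‖(2 * (k : ℂ) + 3) * th (k + 1) w + w ^ 2 * th k w‖
        ≤ ‖(2 * (k : ℂ) + 3) * th (k + 1) w‖ + ‖w ^ 2 * th k w‖ := norm_add_le _ _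
      _ ≤ (2 * (k : ℝ) + 3) * (C1 * (1 + ‖w‖) ^ (k + 2)) + C0 * (1 + ‖w‖) ^ (k + 2) :=
          add_le_add e1 e2
      _ = ((2 * (k : ℝ) + 3) * C1 + C0) * (1 + ‖w‖) ^ (k + 2) := by ring

theorem th_real (v : ℕ) (x : ℝ) (hx : 0 ≤ x) : ∃ y : ℝ, 1 ≤ y ∧ th v x = y := by
  induction v using Nat.twoStepInduction with
  | zero => exact ⟨1, le_refl _, by
      change (1 : ℂ) = ((1 : ℝ) : ℂ)
      simp⟩
  | one => exact ⟨1 + x, by linarith, by
      change 1 + (x : ℂ) = ((1 + x : ℝ) : ℂ)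
      push_cast
      rfl⟩
  | more k h0 h1 =>
    obtain ⟨y0, hy0, H0⟩ := h0
    obtain ⟨y1, hy1, H1⟩ := h1
    refine ⟨(2 * (k : ℝ) + 3) * y1 + x ^ 2 * y0, ?_, ?_⟩
    · have hk : (0 : ℝ) ≤ k := Nat.cast_nonneg k
      have h3 : 0 ≤ x ^ 2 * y0 := by positivity
      have h4 : 0 ≤ 2 * (k : ℝ) * y1 := by positivity
      nlinarith
    · change (2 * (k : ℂ) + 3) * th (k + 1) x + (x : ℂ) ^ 2 * th k x = _
      rw [H0, H1]
      push_cast
      ring

theorem th_deriv (v : ℕ) (w : ℂ) :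
    HasDerivAt (fun w => cexp (-w) * th (v + 1) w) (-w * (cexp (-w) * th v w)) w := by
  have h1 : HasDerivAt (fun w : ℂ => cexp (-w)) (cexp (-w) * (-1)) w :=
    (hasDerivAt_neg w).cexp
  have h2 : HasDerivAt (fun w : ℂ => cexp (-w) * th (v + 1) w) _ w :=
    h1.mul (aux3376_deriv v w)
  refine h2.congr_deriv ?_
  ring

theorem Gr_hasDerivAt (v : ℕ) (l : ℂ) (r : ℝ) :
    HasDerivAt (fun l => Gr (v + 1) l r) (l / (2 * (Real.pi : ℂ)) * Gr v l r) l := by
  have h1 : HasDerivAt (fun l : ℂ => -(I * l * r)) (-(I * r)) l := by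
    have h : HasDerivAt (fun l : ℂ => -(I * l * r)) _ l :=
      (((hasDerivAt_id l).const_mul I).mul_const (r : ℂ)).neg
    refine h.congr_deriv ?_
    ring
  have h2 : HasDerivAt (fun l : ℂ => cexp (-(-(I * l * r))) * th (v + 1) (-(I * l * r)))
      (-(-(I * l * r)) * (cexp (-(-(I * l * r))) * th v (-(I * l * r))) * (-(I * r))) l :=
    HasDerivAt.comp (h₂ := fun w : ℂ => cexp (-w) * th (v + 1) w)
      (h := fun l : ℂ => -(I * l * r)) l (th_deriv v (-(I * l * r))) h1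
  have h3 := h2.div_const (4 * (Real.pi : ℂ) * (2 * (Real.pi : ℂ)) ^ (v + 1) *
    (r : ℂ) ^ (2 * (v + 1) + 1))
  have e1 : (fun l => Gr (v + 1) l r) = fun l : ℂ =>
      cexp (-(-(I * l * r))) * th (v + 1) (-(I * l * r)) /
      (4 * (Real.pi : ℂ) * (2 * (Real.pi : ℂ)) ^ (v + 1) * (r : ℂ) ^ (2 * (v + 1) + 1)) := by
    funext l
    rw [Gr, neg_neg]
  rw [e1]
  refine h3.congr_deriv ?_
  rw [Gr, neg_neg]
  rcases eq_or_ne r 0 with hr | hr
  · subst hr
    simp
  · have hrc : (r : ℂ) ≠ 0 := by exact_mod_cast hr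
    have hpi : (Real.pi : ℂ) ≠ 0 := by exact_mod_cast Real.pi_ne_zero
    have hI : I * I = -1 := Complex.I_mul_I
    have e2 : (I * l * r) * (cexp (I * l * r) * th v (-(I * l * r))) * (-(I * r)) =
        l * r ^ 2 * (cexp (I * l * r) * th v (-(I * l * r))) := by
      have : (I * l * r) * (cexp (I * l * r) * th v (-(I * l * r))) * (-(I * r)) =
        -(I * I) * (l * r ^ 2 * (cexp (I * l * r) * th v (-(I * l * r)))) := by ring
      rw [this, hI]
      ring
    rw [e2]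
    have e3 : (r : ℂ) ^ (2 * (v + 1) + 1) = r ^ 2 * r ^ (2 * v + 1) := by
      rw [← pow_add]
      congr 1
      ring
    rw [e3, pow_succ (2 * (Real.pi : ℂ)) v]
    field_simp

theorem Gr_differentiable (v : ℕ) (r : ℝ) : Differentiable ℂ (fun l => Gr v l r) := by
  unfold Gr
  have h1 : Differentiable ℂ (fun l : ℂ => I * l * r) :=
    (differentiable_id.const_mul I).mul_const (r : ℂ)
  have h2 : Differentiable ℂ (fun l : ℂ => th v (-(I * l * r))) :=
    (aux3376_diff v).comp h1.neg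
  exact (h1.cexp.mul h2).div_const _

theorem Gr_measurable (v : ℕ) (l : ℂ) : Measurable (fun r : ℝ => Gr v l r) := by
  unfold Gr
  have h1 : Continuous (fun r : ℝ => I * l * (r : ℂ)) :=
    continuous_const.mul Complex.continuous_ofReal
  have h2 : Continuous (fun r : ℝ => th v (-(I * l * (r : ℂ)))) :=
    (aux3376_diff v).continuous.comp h1.neg
  have h3 : Continuous (fun r : ℝ => cexp (I * l * (r : ℂ))) := h1.cexp
  have h4 : Continuous (fun r : ℝ => 4 * (Real.pi : ℂ) * (2 * (Real.pi : ℂ)) ^ v *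
      (r : ℂ) ^ (2 * v + 1)) :=
    continuous_const.mul (Complex.continuous_ofReal.pow _)
  exact (h3.mul h2).measurable.div h4.measurable

end Pool.Agent.H269
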