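import Pool.Agent.H269.DefsG
import Pool.Agent.H269.GN.G020

/-!
# GN-21 bounds for the Green function (MP_f2af60_mp, infinitely many resonances in odd dimension)
-/

set_option autoImplicit false

open MeasureTheory Filter Topology Complex
open scoped InnerProductSpace ENNReal NNReal

namespace Pool.Agent.H269


/-- the constant in the Green function -/
noncomputable def N0 (v : ℕ) : ℝ := 4 * Real.pi * (2 * Real.pi) ^ v

theorem N0_pos (v : ℕ) : 0 < N0 v := by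
  unfold N0
  positivity

theorem den_eq (v : ℕ) (r : ℝ) :
    4 * (Real.pi : ℂ) * (2 * (Real.pi : ℂ)) ^ v * (r : ℂ) ^ (2 * v + 1) =
      ((N0 v * r ^ (2 * v + 1) : ℝ) : ℂ) := by
  unfold N0
  push_cast
  ring

theorem Gr_norm_le {v : ℕ} {C : ℝ} (hC : ∀ w : ℂ, ‖th v w‖ ≤ C * (1 + ‖w‖) ^ v) (l : ℂ) (r : ℝ)
    (hr : 0 ≤ r) :
    ‖Gr v l r‖ ≤ C / N0 v * (1 + ‖l‖ * r) ^ v * Real.exp (-l.im * r) / r ^ (2 * v + 1) := by
  unfold Gr
  rw [den_eq, norm_div, norm_mul, Complex.norm_exp, Complex.norm_real, Real.norm_of_nonneg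
    (by have := N0_pos v; positivity)]
  have h1 : (I * l * (r : ℂ)).re = -l.im * r := by
    simp [Complex.mul_re]
  have h2 : ‖-(I * l * (r : ℂ))‖ = ‖l‖ * r := by
    rw [norm_neg, norm_mul, norm_mul, Complex.norm_I, Complex.norm_real, Real.norm_of_nonneg hr]
    ring
  rw [h1]
  have h3 := hC (-(I * l * (r : ℂ)))
  rw [h2] at h3
  have h4 : Real.exp (-l.im * r) * ‖th v (-(I * l * (r : ℂ)))‖ ≤
      Real.exp (-l.im * r) * (C * (1 + ‖l‖ * r) ^ v) :=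
    mul_le_mul_of_nonneg_left h3 (Real.exp_pos _).le
  have h5 := div_le_div_of_nonneg_right h4
    (show (0 : ℝ) ≤ N0 v * r ^ (2 * v + 1) by have := N0_pos v; positivity)
  refine h5.trans (le_of_eq ?_)
  rw [← div_div]
  have := (N0_pos v).ne'
  congr 1
  field_simp


theorem Gr_bound (v : ℕ) : ∃ C : ℝ, 0 < C ∧ ∀ (l : ℂ) (r : ℝ), 0 ≤ r →
    ‖Gr v l r‖ ≤ C * (1 + ‖l‖ * r) ^ v * Real.exp (-l.im * r) / r ^ (2 * v + 1) := by
  obtain ⟨C, hC0, hC⟩ := th_bound v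
  exact ⟨C / N0 v, div_pos hC0 (N0_pos v), fun l r hr => Gr_norm_le hC l r hr⟩

theorem Gr_imag (v : ℕ) (κ r : ℝ) (hκ : 0 ≤ κ) (hr : 0 ≤ r) :
    Gr v (I * κ) r = ((Gr v (I * κ) r).re : ℂ) ∧
    Real.exp (-κ * r) / (4 * Real.pi * (2 * Real.pi) ^ v * r ^ (2 * v + 1)) ≤
      (Gr v (I * κ) r).re := by
  obtain ⟨y, hy, hth⟩ := th_real v (κ * r) (by positivity)
  have h1 : I * (I * (κ : ℂ)) * (r : ℂ) = ((-(κ * r) : ℝ) : ℂ) := by
    push_cast
    linear_combination ((κ : ℂ) * (r : ℂ)) * Complex.I_mul_I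
  have h2 : -(((-(κ * r) : ℝ)) : ℂ) = ((κ * r : ℝ) : ℂ) := by
    push_cast
    ring
  have h3 : Gr v (I * κ) r =
      ((Real.exp (-(κ * r)) * y / (N0 v * r ^ (2 * v + 1)) : ℝ) : ℂ) := by
    unfold Gr
    rw [den_eq, h1, h2, hth, ← Complex.ofReal_exp]
    push_cast
    ring
  rw [h3]
  refine ⟨by rw [Complex.ofReal_re], ?_⟩
  rw [Complex.ofReal_re]
  have h4 : 4 * Real.pi * (2 * Real.pi) ^ v * r ^ (2 * v + 1) = N0 v * r ^ (2 * v + 1) := rfl
  rw [h4]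
  refine div_le_div_of_nonneg_right ?_ (by have := N0_pos v; positivity)
  have h5 : -κ * r = -(κ * r) := by ring
  rw [h5]
  have h6 := Real.exp_pos (-(κ * r))
  nlinarith

theorem Gr_dom_strip (v : ℕ) (B R : ℝ) (hB : 0 ≤ B) (hR : 0 < R) : ∃ C : ℝ, 0 < C ∧
    ∀ (l : ℂ) (r : ℝ), -B ≤ l.im → 0 ≤ r → r ≤ R →
      ‖Gr v l r‖ ≤ C * (1 + ‖l‖) ^ v * (Gr v (I * (1 : ℝ)) r).re := by
  obtain ⟨C, hC0, hC⟩ := Gr_bound v
  refine ⟨C * (1 + R) ^ v * Real.exp (B * R) * N0 v * Real.exp R, ?_, ?_⟩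
  · have := N0_pos v
    positivity
  intro l r hl hr hrR
  have hb := hC l r hr
  have hi := (Gr_imag v 1 r zero_le_one hr).2
  have h4 : 4 * Real.pi * (2 * Real.pi) ^ v * r ^ (2 * v + 1) = N0 v * r ^ (2 * v + 1) := rfl
  rw [h4, ← div_div] at hi
  have hN := N0_pos v
  have hpow : (1 + ‖l‖ * r) ^ v ≤ (1 + R) ^ v * (1 + ‖l‖) ^ v := by
    rw [← mul_pow]
    refine pow_le_pow_left₀ (by positivity) ?_ v
    have h1 : ‖l‖ * r ≤ ‖l‖ * R := mul_le_mul_of_nonneg_left hrR (norm_nonneg l)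
    nlinarith [norm_nonneg l]
  have hexp : Real.exp (-l.im * r) ≤ Real.exp (B * R) := by
    apply Real.exp_le_exp.2
    have h1 : -l.im * r ≤ B * r := mul_le_mul_of_nonneg_right (by linarith) hr
    have h2 : B * r ≤ B * R := mul_le_mul_of_nonneg_left hrR hB
    linarith
  have hexp2 : Real.exp (-R) ≤ Real.exp (-1 * r) := Real.exp_le_exp.2 (by linarith)
  have hrm : (0 : ℝ) ≤ r ^ (2 * v + 1) := by positivity
  have hA : ‖Gr v l r‖ ≤ C * ((1 + R) ^ v * (1 + ‖l‖) ^ v) * Real.exp (B * R)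
      / r ^ (2 * v + 1) := by
    refine hb.trans (div_le_div_of_nonneg_right ?_ hrm)
    refine mul_le_mul (mul_le_mul_of_nonneg_left hpow hC0.le) hexp (Real.exp_pos _).le
      (by positivity)
  have hB2 : Real.exp (-R) / N0 v / r ^ (2 * v + 1) ≤ (Gr v (I * (1 : ℝ)) r).re := by
    refine le_trans (div_le_div_of_nonneg_right ?_ hrm) hi
    exact div_le_div_of_nonneg_right hexp2 hN.le
  have hK : 0 ≤ C * (1 + R) ^ v * Real.exp (B * R) * N0 v * Real.exp R * (1 + ‖l‖) ^ v := by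
    positivity
  have h7 := mul_le_mul_of_nonneg_left hB2 hK
  refine hA.trans (le_trans (le_of_eq ?_) h7)
  have h8 : Real.exp R * Real.exp (-R) = 1 := by rw [← Real.exp_add]; simp
  have h9 : C * (1 + R) ^ v * Real.exp (B * R) * N0 v * Real.exp R * (1 + ‖l‖) ^ v *
      (Real.exp (-R) / N0 v / r ^ (2 * v + 1)) =
      C * (1 + R) ^ v * Real.exp (B * R) * (1 + ‖l‖) ^ v * (N0 v / N0 v) *
        (Real.exp R * Real.exp (-R)) / r ^ (2 * v + 1) := by
    ring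
  rw [h9, h8, div_self hN.ne']
  ring

theorem Gr_dom_near (v : ℕ) : ∃ C : ℝ, 0 < C ∧ ∀ (κ : ℝ), 0 < κ → ∀ l : ℂ, ‖l - I * κ‖ ≤ κ / 4 →
    ∀ r : ℝ, 0 ≤ r → ‖Gr v l r‖ ≤ C * (Gr v (I * ((κ / 2 : ℝ) : ℂ)) r).re := by
  obtain ⟨C, hC0, hC⟩ := Gr_bound v
  have hN := N0_pos v
  refine ⟨C * (5 ^ v * (v.factorial : ℝ) * Real.exp (1 / 5)) * N0 v, by positivity, ?_⟩
  intro κ hκ l hl r hr
  have hb := hC l r hr
  have hi := (Gr_imag v (κ / 2) r (by positivity) hr).2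
  have h4 : 4 * Real.pi * (2 * Real.pi) ^ v * r ^ (2 * v + 1) = N0 v * r ^ (2 * v + 1) := rfl
  rw [h4, ← div_div] at hi
  have hrm : (0 : ℝ) ≤ r ^ (2 * v + 1) := by positivity
  have him : 3 * κ / 4 ≤ l.im := by
    have h1 := (Complex.abs_im_le_norm (l - I * κ)).trans hl
    have h2 : (l - I * (κ : ℂ)).im = l.im - κ := by simp
    rw [h2] at h1
    have := (abs_le.1 h1).1
    linarith
  have hnl : ‖l‖ ≤ 5 * κ / 4 := by
    have h1 : ‖l‖ ≤ ‖l - I * κ‖ + ‖I * (κ : ℂ)‖ := by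
      have := norm_add_le (l - I * κ) (I * (κ : ℂ))
      simpa using this
    have h2 : ‖I * (κ : ℂ)‖ = κ := by
      rw [norm_mul, Complex.norm_I, one_mul, Complex.norm_real, Real.norm_of_nonneg hκ.le]
    linarith
  have hs : 0 ≤ κ * r := by positivity
  have hpow : (1 + ‖l‖ * r) ^ v ≤ (5 ^ v * (v.factorial : ℝ) * Real.exp (1 / 5)) *
      Real.exp (κ * r / 4) := by
    have h1 : (1 + ‖l‖ * r) ≤ 5 * (1 / 5 + κ * r / 4) := by
      have := mul_le_mul_of_nonneg_right hnl hr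
      linarith
    have h2 := Real.pow_div_factorial_le_exp (1 / 5 + κ * r / 4) (by positivity) v
    have hf : (0 : ℝ) < (v.factorial : ℝ) := by positivity
    rw [div_le_iff₀ hf, Real.exp_add] at h2
    calc (1 + ‖l‖ * r) ^ v ≤ (5 * (1 / 5 + κ * r / 4)) ^ v :=
          pow_le_pow_left₀ (by positivity) h1 v
      _ = 5 ^ v * (1 / 5 + κ * r / 4) ^ v := by rw [mul_pow]
      _ ≤ 5 ^ v * (Real.exp (1 / 5) * Real.exp (κ * r / 4) * (v.factorial : ℝ)) :=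
          mul_le_mul_of_nonneg_left h2 (by positivity)
      _ = _ := by ring
  have hexp : Real.exp (-l.im * r) ≤ Real.exp (-(3 * κ / 4) * r) := by
    apply Real.exp_le_exp.2
    exact mul_le_mul_of_nonneg_right (by linarith) hr
  have hA : ‖Gr v l r‖ ≤ C * ((5 ^ v * (v.factorial : ℝ) * Real.exp (1 / 5)) *
      Real.exp (κ * r / 4)) * Real.exp (-(3 * κ / 4) * r) / r ^ (2 * v + 1) := by
    refine hb.trans (div_le_div_of_nonneg_right ?_ hrm)
    refine mul_le_mul (mul_le_mul_of_nonneg_left hpow hC0.le) hexp (Real.exp_pos _).le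
      (by positivity)
  have hK : 0 ≤ C * (5 ^ v * (v.factorial : ℝ) * Real.exp (1 / 5)) * N0 v := by positivity
  have h7 := mul_le_mul_of_nonneg_left hi hK
  refine hA.trans (le_trans (le_of_eq ?_) h7)
  have h8 : Real.exp (κ * r / 4) * Real.exp (-(3 * κ / 4) * r) = Real.exp (-(κ / 2) * r) := by
    rw [← Real.exp_add]
    congr 1
    ring
  have h9 : C * (5 ^ v * (v.factorial : ℝ) * Real.exp (1 / 5)) * N0 v *
      (Real.exp (-(κ / 2) * r) / N0 v / r ^ (2 * v + 1)) =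
      C * (5 ^ v * (v.factorial : ℝ) * Real.exp (1 / 5)) * (N0 v / N0 v) *
        Real.exp (-(κ / 2) * r) / r ^ (2 * v + 1) := by
    ring
  rw [h9, div_self hN.ne', ← h8]
  ring

end Pool.Agent.H269
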