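import Pool.Agent.H269.DefsG
import Pool.Agent.H269.GN.G020
import Pool.Agent.H269.GN.G021

/-!
# GN-22 heat representation of the Green function on the imaginary axis (MP_f2af60_mp, infinitely many resonances in odd dimension)
-/

set_option autoImplicit false

open MeasureTheory Filter Topology Complex
open scoped InnerProductSpace ENNReal NNReal

namespace Pool.Agent.H269


namespace J3378

/-- the error function, normalised to vanish at `-∞` -/
noncomputable def Ph (u : ℝ) : ℝ := √Real.pi / 2 + ∫ x in (0 : ℝ)..u, Real.exp (-x ^ 2)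

theorem Ph_deriv (u : ℝ) : HasDerivAt Ph (Real.exp (-u ^ 2)) u := by
  have hc : Continuous (fun x : ℝ => Real.exp (-x ^ 2)) := by fun_prop
  exact (hc.integral_hasStrictDerivAt 0 u).hasDerivAt.const_add _

theorem Ph_top : Tendsto Ph atTop (𝓝 (√Real.pi)) := by
  have h1 : IntegrableOn (fun x : ℝ => Real.exp (-x ^ 2)) (Set.Ioi 0) := by
    have := (integrable_exp_neg_mul_sq (b := 1) one_pos).integrableOn (s := Set.Ioi (0 : ℝ))
    simpa using this
  have h2 : ∫ x in Set.Ioi (0 : ℝ), Real.exp (-x ^ 2) = √Real.pi / 2 := by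
    have := integral_gaussian_Ioi 1
    simpa using this
  have h3 := (intervalIntegral_tendsto_integral_Ioi 0 h1 tendsto_id).const_add (√Real.pi / 2)
  rw [h2] at h3
  have h4 : √Real.pi / 2 + √Real.pi / 2 = √Real.pi := by ring
  rw [h4] at h3
  exact h3

theorem Ph_neg (u : ℝ) : Ph (-u) = √Real.pi - Ph u := by
  unfold Ph
  have h : ∫ x in (0 : ℝ)..(-u), Real.exp (-x ^ 2) = -∫ x in (0 : ℝ)..u, Real.exp (-x ^ 2) := by
    have h1 := intervalIntegral.integral_comp_neg (a := 0) (b := u)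
      (fun x : ℝ => Real.exp (-x ^ 2))
    simp only [neg_sq, neg_zero] at h1
    rw [h1, intervalIntegral.integral_symm]
  rw [h]
  ring

theorem Ph_bot : Tendsto Ph atBot (𝓝 0) := by
  have h1 : Tendsto (fun u => √Real.pi - Ph (-u)) atBot (𝓝 (√Real.pi - √Real.pi)) :=
    (Ph_top.comp tendsto_neg_atBot_atTop).const_sub _
  rw [sub_self] at h1
  refine h1.congr fun u => ?_
  rw [Ph_neg]
  ring

/-- fundamental theorem of calculus on `(0, ∞)` with limits at both ends -/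
theorem ftc {f f' : ℝ → ℝ} {l m : ℝ} (hd : ∀ t : ℝ, 0 < t → HasDerivAt f (f' t) t)
    (hi : IntegrableOn f' (Set.Ioi 0)) (h0 : Tendsto f (𝓝[>] 0) (𝓝 l))
    (h1 : Tendsto f atTop (𝓝 m)) : ∫ t in Set.Ioi (0 : ℝ), f' t = m - l := by
  have hg0 : (fun t : ℝ => if t ≤ 0 then l else f t) 0 = l := if_pos le_rfl
  have hcont : ContinuousWithinAt (fun t : ℝ => if t ≤ 0 then l else f t) (Set.Ici 0) 0 := by
    rw [← continuousWithinAt_Ioi_iff_Ici]
    unfold ContinuousWithinAt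
    rw [hg0]
    refine h0.congr' ?_
    filter_upwards [self_mem_nhdsWithin] with s hs
    exact (if_neg (not_le.2 hs)).symm
  have hd' : ∀ x ∈ Set.Ioi (0 : ℝ), HasDerivAt (fun t : ℝ => if t ≤ 0 then l else f t) (f' x) x := by
    intro x hx
    refine (hd x hx).congr_of_eventuallyEq ?_
    filter_upwards [lt_mem_nhds hx] with t ht
    exact if_neg (not_le.2 ht)
  have ht : Tendsto (fun t : ℝ => if t ≤ 0 then l else f t) atTop (𝓝 m) := by
    refine h1.congr' ?_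
    filter_upwards [Ioi_mem_atTop 0] with s hs
    exact (if_neg (not_le.2 hs)).symm
  rw [integral_Ioi_of_hasDerivAt_of_tendsto hcont hd' hi ht, if_pos le_rfl]

section

variable {a κ : ℝ}

/-- the exponential factor -/
noncomputable def E (a κ t : ℝ) : ℝ := Real.exp (-(a ^ 2 / t) - κ ^ 2 * t)

theorem E_pos (a κ t : ℝ) : 0 < E a κ t := Real.exp_pos _

theorem E_deriv {t : ℝ} (ht : 0 < t) :
    HasDerivAt (E a κ) (E a κ t * (a ^ 2 / t ^ 2 - κ ^ 2)) t := by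
  have ht0 : t ≠ 0 := ht.ne'
  have h1 : HasDerivAt (fun t : ℝ => -(a ^ 2 / t) - κ ^ 2 * t) (a ^ 2 / t ^ 2 - κ ^ 2) t := by
    have h2 := ((hasDerivAt_inv ht0).const_mul (a ^ 2)).neg
    have h3 := h2.sub ((hasDerivAt_id t).const_mul (κ ^ 2))
    refine h3.congr_deriv ?_
    field_simp
  exact h1.exp

/-- the integrand -/
noncomputable def F (a κ s t : ℝ) : ℝ := t ^ (-s) * E a κ t

theorem F_deriv (s : ℝ) {t : ℝ} (ht : 0 < t) :
    HasDerivAt (F a κ s)
      (a ^ 2 * F a κ (s + 2) t - s * F a κ (s + 1) t - κ ^ 2 * F a κ s t) t := by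
  have ht0 : t ≠ 0 := ht.ne'
  have h1 := (Real.hasDerivAt_rpow_const (p := -s) (Or.inl ht0)).mul (E_deriv (a := a) (κ := κ) ht)
  refine h1.congr_deriv ?_
  unfold F
  have e1 : t ^ (-(s + 2)) = t ^ (-s) / t ^ 2 := by
    rw [show -(s + 2) = -s - 2 by ring, Real.rpow_sub ht, Real.rpow_two]
  have e2 : t ^ (-(s + 1)) = t ^ (-s - 1) := by
    congr 1; ring
  rw [e1, e2]
  field_simp
  ring

theorem F_bound (ha : 0 < a) (s : ℝ) (N : ℕ) {t : ℝ} (ht : 0 < t) :
    F a κ s t ≤ ((N.factorial : ℝ) / (a ^ 2) ^ N) * (t ^ ((N : ℝ) - s) *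
      Real.exp (-κ ^ 2 * t ^ (1 : ℝ))) := by
  unfold F E
  have h1 : Real.exp (-(a ^ 2 / t)) ≤ (N.factorial : ℝ) / (a ^ 2) ^ N * t ^ N := by
    rw [Real.exp_neg]
    have h2 : (a ^ 2 / t) ^ N / (N.factorial : ℝ) ≤ Real.exp (a ^ 2 / t) :=
      Real.pow_div_factorial_le_exp (a ^ 2 / t) (by positivity) N
    have h3 : 0 < (a ^ 2 / t) ^ N / (N.factorial : ℝ) := by positivity
    calc (Real.exp (a ^ 2 / t))⁻¹ ≤ ((a ^ 2 / t) ^ N / (N.factorial : ℝ))⁻¹ := inv_anti₀ h3 h2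
      _ = (N.factorial : ℝ) / (a ^ 2) ^ N * t ^ N := by
        rw [div_pow]
        field_simp
  have h4 : Real.exp (-(a ^ 2 / t) - κ ^ 2 * t) =
      Real.exp (-(a ^ 2 / t)) * Real.exp (-κ ^ 2 * t ^ (1 : ℝ)) := by
    rw [← Real.exp_add, Real.rpow_one]
    congr 1
    ring
  have h5 : t ^ ((N : ℝ) - s) = t ^ (-s) * t ^ N := by
    rw [show (N : ℝ) - s = -s + N by ring, Real.rpow_add ht, Real.rpow_natCast]
  rw [h4, h5]
  have h6 : 0 < t ^ (-s) := Real.rpow_pos_of_pos ht _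
  have h7 : 0 < Real.exp (-κ ^ 2 * t ^ (1 : ℝ)) := Real.exp_pos _
  calc t ^ (-s) * (Real.exp (-(a ^ 2 / t)) * Real.exp (-κ ^ 2 * t ^ (1 : ℝ)))
      ≤ t ^ (-s) * ((N.factorial : ℝ) / (a ^ 2) ^ N * t ^ N *
        Real.exp (-κ ^ 2 * t ^ (1 : ℝ))) := by gcongr
    _ = _ := by ring

theorem F_nonneg (s : ℝ) {t : ℝ} (ht : 0 < t) : 0 ≤ F a κ s t := by
  unfold F
  have := E_pos a κ t
  positivity

theorem F_meas (s : ℝ) : Measurable (F a κ s) := by
  unfold F E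
  fun_prop

theorem F_int (ha : 0 < a) (hκ : 0 < κ) (s : ℝ) : IntegrableOn (F a κ s) (Set.Ioi 0) := by
  obtain ⟨N, hN⟩ := exists_nat_gt s
  have h1 : IntegrableOn (fun t : ℝ => t ^ ((N : ℝ) - s) * Real.exp (-κ ^ 2 * t ^ (1 : ℝ)))
      (Set.Ioi 0) :=
    integrableOn_rpow_mul_exp_neg_mul_rpow (by linarith) one_pos (by positivity)
  refine Integrable.mono' (h1.const_mul ((N.factorial : ℝ) / (a ^ 2) ^ N))
    (F_meas s).aestronglyMeasurable ?_
  filter_upwards [ae_restrict_mem measurableSet_Ioi] with t ht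
  have ht' : 0 < t := ht
  rw [Real.norm_eq_abs, abs_of_nonneg (F_nonneg s ht')]
  exact F_bound ha s N ht'

theorem F_zero (ha : 0 < a) (s : ℝ) : Tendsto (F a κ s) (𝓝[>] 0) (𝓝 0) := by
  obtain ⟨N, hN⟩ := exists_nat_gt s
  have h1 : Tendsto (fun t : ℝ => ((N.factorial : ℝ) / (a ^ 2) ^ N) * t ^ ((N : ℝ) - s))
      (𝓝[>] 0) (𝓝 0) := by
    have h2 : ContinuousAt (fun t : ℝ => t ^ ((N : ℝ) - s)) 0 :=
      Real.continuousAt_rpow_const 0 _ (Or.inr (by linarith))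
    have h3 : Tendsto (fun t : ℝ => t ^ ((N : ℝ) - s)) (𝓝[>] 0) (𝓝 0) := by
      have h4 := h2.tendsto
      rw [Real.zero_rpow (by linarith)] at h4
      exact h4.mono_left nhdsWithin_le_nhds
    simpa using h3.const_mul ((N.factorial : ℝ) / (a ^ 2) ^ N)
  refine tendsto_of_tendsto_of_tendsto_of_le_of_le' tendsto_const_nhds h1 ?_ ?_
  · filter_upwards [self_mem_nhdsWithin] with t ht
    exact F_nonneg s ht
  · filter_upwards [self_mem_nhdsWithin] with t ht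
    have ht' : 0 < t := ht
    refine (F_bound ha s N ht').trans ?_
    have h2 : Real.exp (-κ ^ 2 * t ^ (1 : ℝ)) ≤ 1 := by
      rw [Real.rpow_one]
      apply Real.exp_le_one_iff.2
      nlinarith [sq_nonneg κ]
    have h3 : 0 ≤ t ^ ((N : ℝ) - s) := (Real.rpow_pos_of_pos ht' _).le
    have h4 : 0 ≤ (N.factorial : ℝ) / (a ^ 2) ^ N := by positivity
    exact mul_le_mul_of_nonneg_left (mul_le_of_le_one_right h3 h2) h4

theorem F_top (hκ : 0 < κ) (s : ℝ) : Tendsto (F a κ s) atTop (𝓝 0) := by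
  have h1 : Tendsto (fun t : ℝ => t ^ (-s) * Real.exp (-(κ ^ 2) * t)) atTop (𝓝 0) :=
    tendsto_rpow_mul_exp_neg_mul_atTop_nhds_zero (-s) (κ ^ 2) (by positivity)
  refine tendsto_of_tendsto_of_tendsto_of_le_of_le' tendsto_const_nhds h1 ?_ ?_
  · filter_upwards [Ioi_mem_atTop 0] with t ht
    exact F_nonneg s ht
  · filter_upwards [Ioi_mem_atTop 0] with t ht
    have ht' : 0 < t := ht
    unfold F E
    have h2 : Real.exp (-(a ^ 2 / t) - κ ^ 2 * t) ≤ Real.exp (-(κ ^ 2) * t) := by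
      apply Real.exp_le_exp.2
      have : 0 ≤ a ^ 2 / t := by positivity
      linarith
    exact mul_le_mul_of_nonneg_left h2 (Real.rpow_pos_of_pos ht' _).le

/-- the integrals -/
noncomputable def J (a κ s : ℝ) : ℝ := ∫ t in Set.Ioi (0 : ℝ), F a κ s t

theorem J_rec (ha : 0 < a) (hκ : 0 < κ) (s : ℝ) :
    a ^ 2 * J a κ (s + 2) = s * J a κ (s + 1) + κ ^ 2 * J a κ s := by
  have i2 := (F_int ha hκ (s + 2)).const_mul (a ^ 2)
  have i1 := (F_int ha hκ (s + 1)).const_mul s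
  have i0 := (F_int ha hκ s).const_mul (κ ^ 2)
  have h := ftc (f := F a κ s) (f' := fun t => a ^ 2 * F a κ (s + 2) t - s * F a κ (s + 1) t -
    κ ^ 2 * F a κ s t) (fun t ht => F_deriv s ht) ((i2.sub i1).sub i0) (F_zero ha s) (F_top hκ s)
  have h2 := integral_sub (i2.sub i1) i0
  have h3 := integral_sub i2 i1
  simp only [Pi.sub_apply] at h2
  rw [h2, h3, integral_const_mul, integral_const_mul, integral_const_mul] at h
  unfold J
  linarith

theorem sq_lim (κ a : ℝ) (ha : 0 < a) (hκ : 0 < κ) :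
    Tendsto (fun t : ℝ => κ * √t - a / √t) (𝓝[>] 0) atBot ∧
    Tendsto (fun t : ℝ => κ * √t - a / √t) atTop atTop ∧
    Tendsto (fun t : ℝ => -(κ * √t + a / √t)) (𝓝[>] 0) atBot ∧
    Tendsto (fun t : ℝ => -(κ * √t + a / √t)) atTop atBot := by
  have hs0 : Tendsto (fun t : ℝ => √t) (𝓝[>] 0) (𝓝[>] 0) := by
    rw [tendsto_nhdsWithin_iff]
    constructor
    · have h := Real.continuous_sqrt.tendsto 0
      rw [Real.sqrt_zero] at h
      exact h.mono_left nhdsWithin_le_nhds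
    · filter_upwards [self_mem_nhdsWithin] with t ht
      exact Real.sqrt_pos.2 ht
  have hst : Tendsto (fun t : ℝ => √t) atTop atTop := Real.tendsto_sqrt_atTop
  have hinv : Tendsto (fun t : ℝ => a / √t) (𝓝[>] 0) atTop := by
    simp only [div_eq_mul_inv]
    exact (tendsto_inv_nhdsGT_zero.comp hs0).const_mul_atTop ha
  have hlin : Tendsto (fun t : ℝ => κ * √t) (𝓝[>] 0) (𝓝 0) := by
    have : Continuous fun s : ℝ => κ * √s := by fun_prop
    have h := this.tendsto 0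
    rw [Real.sqrt_zero, mul_zero] at h
    exact h.mono_left nhdsWithin_le_nhds
  have hinv' : Tendsto (fun t : ℝ => a / √t) atTop (𝓝 0) := tendsto_const_nhds.div_atTop hst
  have hlin' : Tendsto (fun t : ℝ => κ * √t) atTop atTop := hst.const_mul_atTop hκ
  refine ⟨?_, ?_, ?_, ?_⟩
  · simp only [sub_eq_add_neg]
    exact hlin.add_atBot (tendsto_neg_atTop_atBot.comp hinv)
  · simp only [sub_eq_add_neg]
    exact hlin'.atTop_add hinv'.neg
  · exact tendsto_neg_atTop_atBot.comp (hlin.add_atTop hinv)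
  · exact tendsto_neg_atTop_atBot.comp (hlin'.atTop_add hinv')

theorem rpow_half {t : ℝ} (ht : 0 < t) : t ^ (-(1 / 2 : ℝ)) = 1 / √t := by
  rw [Real.rpow_neg ht.le, ← Real.sqrt_eq_rpow, one_div]

theorem rpow_threehalf {t : ℝ} (ht : 0 < t) : t ^ (-(3 / 2 : ℝ)) = 1 / (t * √t) := by
  rw [show -(3 / 2 : ℝ) = -(1 / 2 : ℝ) - 1 by norm_num, Real.rpow_sub ht, rpow_half ht,
    Real.rpow_one]
  field_simp

theorem A_deriv {t : ℝ} (ht : 0 < t) :
    HasDerivAt (fun t => Real.exp (-2 * a * κ) * Ph (κ * √t - a / √t))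
      (κ / 2 * F a κ (1 / 2) t + a / 2 * F a κ (3 / 2) t) t := by
  have hs : 0 < √t := Real.sqrt_pos.2 ht
  have hs0 : √t ≠ 0 := hs.ne'
  have hsq : √t ^ 2 = t := Real.sq_sqrt ht.le
  have h0 : HasDerivAt (fun t : ℝ => √t) (1 / (2 * √t)) t := Real.hasDerivAt_sqrt ht.ne'
  have h1 : HasDerivAt (fun t : ℝ => κ * √t - a / √t)
      (κ / (2 * √t) + a / (2 * (t * √t))) t := by
    have h2 := (h0.const_mul κ).sub ((h0.inv hs0).const_mul a)
    refine h2.congr_deriv ?_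
    rw [hsq]
    field_simp
    ring
  have h3 := ((Ph_deriv (κ * √t - a / √t)).comp t h1).const_mul (Real.exp (-2 * a * κ))
  refine h3.congr_deriv ?_
  rw [← mul_assoc, ← Real.exp_add]
  have h4 : -2 * a * κ + -(κ * √t - a / √t) ^ 2 = -(a ^ 2 / t) - κ ^ 2 * t := by
    have : (κ * √t - a / √t) ^ 2 = κ ^ 2 * √t ^ 2 - 2 * a * κ + a ^ 2 / √t ^ 2 := by
      field_simp
      ring
    rw [this, hsq]
    ring
  rw [h4]
  unfold F E
  rw [rpow_half ht, rpow_threehalf ht]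
  ring

theorem B_deriv {t : ℝ} (ht : 0 < t) :
    HasDerivAt (fun t => Real.exp (2 * a * κ) * Ph (-(κ * √t + a / √t)))
      (a / 2 * F a κ (3 / 2) t - κ / 2 * F a κ (1 / 2) t) t := by
  have hs : 0 < √t := Real.sqrt_pos.2 ht
  have hs0 : √t ≠ 0 := hs.ne'
  have hsq : √t ^ 2 = t := Real.sq_sqrt ht.le
  have h0 : HasDerivAt (fun t : ℝ => √t) (1 / (2 * √t)) t := Real.hasDerivAt_sqrt ht.ne'
  have h1 : HasDerivAt (fun t : ℝ => -(κ * √t + a / √t))
      (a / (2 * (t * √t)) - κ / (2 * √t)) t := by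
    have h2 := ((h0.const_mul κ).add ((h0.inv hs0).const_mul a)).neg
    refine h2.congr_deriv ?_
    rw [hsq]
    field_simp
    ring
  have h3 := ((Ph_deriv (-(κ * √t + a / √t))).comp t h1).const_mul (Real.exp (2 * a * κ))
  refine h3.congr_deriv ?_
  rw [← mul_assoc, ← Real.exp_add]
  have h4 : 2 * a * κ + -(-(κ * √t + a / √t)) ^ 2 = -(a ^ 2 / t) - κ ^ 2 * t := by
    have : (-(κ * √t + a / √t)) ^ 2 = κ ^ 2 * √t ^ 2 + 2 * a * κ + a ^ 2 / √t ^ 2 := by
      field_simp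
      ring
    rw [this, hsq]
    ring
  rw [h4]
  unfold F E
  rw [rpow_half ht, rpow_threehalf ht]
  ring

theorem J_base (ha : 0 < a) (hκ : 0 < κ) :
    J a κ (1 / 2) = √Real.pi / κ * Real.exp (-2 * a * κ) ∧
    J a κ (3 / 2) = √Real.pi / a * Real.exp (-2 * a * κ) := by
  obtain ⟨l1, l2, l3, l4⟩ := sq_lim κ a ha hκ
  have iA1 := (F_int ha hκ (1 / 2)).const_mul (κ / 2)
  have iA2 := (F_int ha hκ (3 / 2)).const_mul (a / 2)
  have hA := ftc (fun t ht => A_deriv (a := a) (κ := κ) ht) (iA1.add iA2)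
    ((Ph_bot.comp l1).const_mul (Real.exp (-2 * a * κ)))
    ((Ph_top.comp l2).const_mul (Real.exp (-2 * a * κ)))
  have hB := ftc (fun t ht => B_deriv (a := a) (κ := κ) ht) (iA2.sub iA1)
    ((Ph_bot.comp l3).const_mul (Real.exp (2 * a * κ)))
    ((Ph_bot.comp l4).const_mul (Real.exp (2 * a * κ)))
  rw [integral_add iA1 iA2, integral_const_mul, integral_const_mul] at hA
  rw [integral_sub iA2 iA1, integral_const_mul, integral_const_mul] at hB
  change κ / 2 * J a κ (1 / 2) + a / 2 * J a κ (3 / 2) = _ at hA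
  change a / 2 * J a κ (3 / 2) - κ / 2 * J a κ (1 / 2) = _ at hB
  rw [mul_zero, sub_zero] at hA
  rw [mul_zero, sub_self] at hB
  constructor
  · rw [div_mul_eq_mul_div, eq_div_iff hκ.ne']
    linarith
  · rw [div_mul_eq_mul_div, eq_div_iff ha.ne']
    linarith

end

/-- reverse Bessel polynomials over the reals -/
noncomputable def thr : ℕ → ℝ → ℝ
  | 0, _ => 1
  | 1, w => 1 + w
  | (k + 2), w => (2 * (k : ℝ) + 3) * thr (k + 1) w + w ^ 2 * thr k w

theorem th_eq (x : ℝ) : ∀ v : ℕ, th v (x : ℂ) = (thr v x : ℂ)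
  | 0 => by simp [th, thr]
  | 1 => by simp [th, thr]
  | (k + 2) => by
    rw [th, thr, th_eq x (k + 1), th_eq x k]
    push_cast
    ring

theorem J_eq {κ r : ℝ} (hκ : 0 < κ) (hr : 0 < r) : ∀ v : ℕ,
    J (r / 2) κ ((v : ℝ) + 3 / 2) =
      √Real.pi * 2 ^ (v + 1) / r ^ (2 * v + 1) * Real.exp (-κ * r) * thr v (κ * r)
  | 0 => by
    have ha : 0 < r / 2 := by positivity
    have h := (J_base ha hκ).2
    rw [Nat.cast_zero, zero_add, h, thr]
    have e : -2 * (r / 2) * κ = -κ * r := by ring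
    rw [e]
    simp
    field_simp
  | 1 => by
    have ha : 0 < r / 2 := by positivity
    have h := J_rec ha hκ (1 / 2)
    rw [show (1 / 2 : ℝ) + 1 = 3 / 2 by norm_num, (J_base ha hκ).1, (J_base ha hκ).2,
      show (1 / 2 : ℝ) + 2 = ((1 : ℕ) : ℝ) + 3 / 2 by norm_num] at h
    have e : -2 * (r / 2) * κ = -κ * r := by ring
    rw [e] at h
    have h2 : J (r / 2) κ (((1 : ℕ) : ℝ) + 3 / 2) = (4 / r ^ 2) *
        (1 / 2 * (√Real.pi / (r / 2) * Real.exp (-κ * r)) +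
          κ ^ 2 * (√Real.pi / κ * Real.exp (-κ * r))) := by
      rw [← h]
      field_simp
      ring
    rw [h2, thr]
    field_simp
    ring
  | (k + 2) => by
    have ha : 0 < r / 2 := by positivity
    have h := J_rec ha hκ ((k : ℝ) + 3 / 2)
    have e1 : (k : ℝ) + 3 / 2 + 1 = ((k + 1 : ℕ) : ℝ) + 3 / 2 := by push_cast; ring
    have e2 : (k : ℝ) + 3 / 2 + 2 = ((k + 2 : ℕ) : ℝ) + 3 / 2 := by push_cast; ring
    rw [e1, e2, J_eq hκ hr k, J_eq hκ hr (k + 1)] at h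
    have h2 : J (r / 2) κ (((k + 2 : ℕ) : ℝ) + 3 / 2) = (4 / r ^ 2) *
        ((r / 2) ^ 2 * J (r / 2) κ (((k + 2 : ℕ) : ℝ) + 3 / 2)) := by
      field_simp
      ring
    rw [h2, h, thr]
    have p1 : r ^ (2 * (k + 1) + 1) = r ^ (2 * k + 1) * r ^ 2 := by ring
    have p2 : r ^ (2 * (k + 2) + 1) = r ^ (2 * k + 1) * r ^ 4 := by ring
    have p3 : (2 : ℝ) ^ (k + 1 + 1) = 2 ^ (k + 1) * 2 := by ring
    have p4 : (2 : ℝ) ^ (k + 2 + 1) = 2 ^ (k + 1) * 4 := by ring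
    rw [p1, p2, p3, p4]
    have hrk : r ^ (2 * k + 1) ≠ 0 := pow_ne_zero _ hr.ne'
    have hr0 : r ≠ 0 := hr.ne'
    field_simp

theorem hk_eq (v : ℕ) (κ r : ℝ) {t : ℝ} (ht : 0 < t) :
    hk v t r * Real.exp (-κ ^ 2 * t) =
      (4 * Real.pi) ^ (-((v : ℝ) + 3 / 2)) * F (r / 2) κ ((v : ℝ) + 3 / 2) t := by
  unfold hk F E
  have hpi := Real.pi_pos
  have e1 : -((2 * (v : ℝ) + 3) / 2) = -((v : ℝ) + 3 / 2) := by ring
  rw [e1, Real.mul_rpow (by positivity) ht.le]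
  have e2 : Real.exp (-((r / 2) ^ 2 / t) - κ ^ 2 * t) =
      Real.exp (-r ^ 2 / (4 * t)) * Real.exp (-κ ^ 2 * t) := by
    rw [← Real.exp_add]
    congr 1
    field_simp
    ring
  rw [e2]
  ring

theorem pow_eq (v : ℕ) : (4 * Real.pi) ^ (-((v : ℝ) + 3 / 2)) =
    1 / ((4 * Real.pi) ^ (v + 1) * (2 * √Real.pi)) := by
  have hpi := Real.pi_pos
  have h4 : 0 < 4 * Real.pi := by positivity
  rw [Real.rpow_neg h4.le, one_div]
  congr 1
  rw [show (v : ℝ) + 3 / 2 = ((v + 1 : ℕ) : ℝ) + 1 / 2 by push_cast; ring, Real.rpow_add h4,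
    Real.rpow_natCast, ← Real.sqrt_eq_rpow, Real.sqrt_mul (by norm_num)]
  congr 2
  rw [show (4 : ℝ) = 2 ^ 2 by norm_num, Real.sqrt_sq (by norm_num)]

theorem Gr_re (v : ℕ) (κ r : ℝ) : (Gr v (I * κ) r).re =
    Real.exp (-κ * r) * thr v (κ * r) / (4 * Real.pi * (2 * Real.pi) ^ v * r ^ (2 * v + 1)) := by
  have h : Gr v (I * κ) r = ((Real.exp (-κ * r) * thr v (κ * r) /
      (4 * Real.pi * (2 * Real.pi) ^ v * r ^ (2 * v + 1)) : ℝ) : ℂ) := by
    unfold Gr
    have e1 : I * (I * (κ : ℂ)) * (r : ℂ) = ((-κ * r : ℝ) : ℂ) := by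
      push_cast
      linear_combination (κ : ℂ) * (r : ℂ) * I_sq
    have e2 : -((-κ * r : ℝ) : ℂ) = ((κ * r : ℝ) : ℂ) := by push_cast; ring
    rw [e1, e2, th_eq]
    push_cast
    ring
  rw [h, ofReal_re]

end J3378

theorem Gr_heat (v : ℕ) (κ r : ℝ) (hκ : 0 < κ) (hr : 0 < r) :
    IntegrableOn (fun t : ℝ => hk v t r * Real.exp (-κ ^ 2 * t)) (Set.Ioi 0) ∧
    (Gr v (I * κ) r).re = ∫ t in Set.Ioi (0 : ℝ), hk v t r * Real.exp (-κ ^ 2 * t) := by
  have ha : 0 < r / 2 := by positivity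
  have hpi := Real.pi_pos
  have hsq : 0 < √Real.pi := Real.sqrt_pos.2 hpi
  have hi := (J3378.F_int ha hκ ((v : ℝ) + 3 / 2)).const_mul
    ((4 * Real.pi) ^ (-((v : ℝ) + 3 / 2)))
  constructor
  · refine IntegrableOn.congr_fun hi (fun t ht => ?_) measurableSet_Ioi
    exact (J3378.hk_eq v κ r ht).symm
  · rw [setIntegral_congr_fun measurableSet_Ioi fun t ht => J3378.hk_eq v κ r ht,
      integral_const_mul]
    change _ = _ * J3378.J (r / 2) κ ((v : ℝ) + 3 / 2)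
    rw [J3378.J_eq hκ hr v, J3378.Gr_re, J3378.pow_eq]
    have e1 : (4 * Real.pi) ^ (v + 1) = 2 ^ (v + 1) * 2 * Real.pi * (2 * Real.pi) ^ v := by
      rw [show (4 * Real.pi) = 2 * (2 * Real.pi) by ring, mul_pow, pow_succ (2 * Real.pi) v]
      ring
    rw [e1]
    field_simp
    ring

end Pool.Agent.H269
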