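import Pool.Agent.H269.DefsG

/-!
# GN-28 radial integrals and the heat kernel (MP_f2af60_mp, infinitely many resonances in odd dimension)
-/

set_option autoImplicit false

open MeasureTheory Filter Topology Complex
open scoped InnerProductSpace ENNReal NNReal

namespace Pool.Agent.H269



theorem hkx_aux (j : ℕ) {β : ℝ} (hβ : 0 < β) :
    IntegrableOn (fun t : ℝ => t ^ j * Real.exp (-β * t)) (Set.Ioi 0) := by
  have h := integrableOn_rpow_mul_exp_neg_mul_rpow (p := 1) (s := (j : ℝ)) (b := β)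
    (by have : (0 : ℝ) ≤ j := Nat.cast_nonneg j
        linarith) one_pos hβ
  refine h.congr_fun (fun t _ => ?_) measurableSet_Ioi
  simp only [Real.rpow_natCast, Real.rpow_one]

theorem hkx_gauss (v : ℕ) {b : ℝ} (hb : 0 < b) :
    Integrable (fun x : EV v => Real.exp (-b * ‖x‖ ^ 2)) := by
  have h := (GaussianFourier.integrable_cexp_neg_mul_sq_norm_add (V := EV v) (b := (b : ℂ))
    (by simpa using hb) 0 0).norm
  refine h.congr (Eventually.of_forall fun x => ?_)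
  simp only [zero_mul, add_zero, Complex.norm_exp]
  congr 1
  norm_cast

theorem hkx_pos (v : ℕ) {t : ℝ} (ht : 0 < t) (r : ℝ) : 0 ≤ hk v t r := by
  unfold hk
  positivity

theorem hkx_eq (v : ℕ) (t r : ℝ) : hk v t r =
    (4 * Real.pi * t) ^ (-((2 * (v : ℝ) + 3) / 2)) * Real.exp (-(1 / (4 * t)) * r ^ 2) := by
  unfold hk
  congr 2
  ring

theorem hkx_one (v : ℕ) {t : ℝ} (ht : 0 < t) :
    (4 * Real.pi * t) ^ (-((2 * (v : ℝ) + 3) / 2)) *
      (Real.pi / (1 / (4 * t))) ^ ((2 * (v : ℝ) + 3) / 2) = 1 := by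
  have hpi := Real.pi_pos
  have e : Real.pi / (1 / (4 * t)) = 4 * Real.pi * t := by field_simp
  rw [e, ← Real.rpow_add (by positivity), neg_add_cancel, Real.rpow_zero]

theorem hkx_mul (v : ℕ) {s t : ℝ} (hs : 0 < s) (ht : 0 < t) :
    (4 * Real.pi * s) ^ (-((2 * (v : ℝ) + 3) / 2)) * (4 * Real.pi * t) ^ (-((2 * (v : ℝ) + 3) / 2)) =
      (4 * Real.pi * (s + t)) ^ (-((2 * (v : ℝ) + 3) / 2)) *
        (4 * Real.pi * (s * t / (s + t))) ^ (-((2 * (v : ℝ) + 3) / 2)) := by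
  have hpi := Real.pi_pos
  rw [← Real.mul_rpow (by positivity) (by positivity), ← Real.mul_rpow (by positivity)
    (by positivity)]
  congr 1
  field_simp

theorem hkx_square (v : ℕ) {s t : ℝ} (hs : 0 < s) (ht : 0 < t) (x y z : EV v) :
    -‖x - y‖ ^ 2 / (4 * s) + -‖y - z‖ ^ 2 / (4 * t) = -‖x - z‖ ^ 2 / (4 * (s + t)) +
      -‖y - ((t / (s + t)) • x + (s / (s + t)) • z)‖ ^ 2 / (4 * (s * t / (s + t))) := by
  set a := x - y with ha
  set b := y - z with hb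
  have e1 : x - z = a + b := by rw [ha, hb]; abel
  have hst : s + t ≠ 0 := by positivity
  have e2 : y - ((t / (s + t)) • x + (s / (s + t)) • z) =
      (s / (s + t)) • b - (t / (s + t)) • a := by
    rw [ha, hb, smul_sub, smul_sub]
    have h3 : y = (s / (s + t)) • y + (t / (s + t)) • y := by
      rw [← add_smul, ← add_div, div_self hst, one_smul]
    nth_rewrite 1 [h3]
    abel
  have n1 : ‖a + b‖ ^ 2 = ‖a‖ ^ 2 + 2 * inner ℝ a b + ‖b‖ ^ 2 := norm_add_sq_real a b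
  have n2 : ‖(s / (s + t)) • b - (t / (s + t)) • a‖ ^ 2 = (s / (s + t)) ^ 2 * ‖b‖ ^ 2 -
      2 * ((s / (s + t)) * (t / (s + t)) * inner ℝ a b) + (t / (s + t)) ^ 2 * ‖a‖ ^ 2 := by
    rw [@norm_sub_sq_real, norm_smul, norm_smul, real_inner_smul_left,
      real_inner_smul_right, real_inner_comm b a, mul_pow, mul_pow, Real.norm_eq_abs,
      Real.norm_eq_abs, sq_abs, sq_abs]
    ring
  rw [e1, e2, n1, n2]
  field_simp
  ring

theorem rad_int (v a : ℕ) (ha : a ≤ 2 * v + 2) (β : ℝ) (hβ : 0 < β) :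
    ∫⁻ x : EV v, ENNReal.ofReal (Real.exp (-β * ‖x‖) / ‖x‖ ^ a) < ∞ := by
  have hdim : Module.finrank ℝ (EV v) = 2 * v + 3 := by simp [EV]
  have hc : Set.EqOn (fun t : ℝ => t ^ (2 * v + 2 - a) * Real.exp (-β * t))
      (fun t : ℝ => t ^ (Module.finrank ℝ (EV v) - 1) • (Real.exp (-β * t) / t ^ a))
      (Set.Ioi 0) := by
    intro t ht
    have ht0 : (0 : ℝ) < t := ht
    simp only [hdim, smul_eq_mul]
    have : t ^ (2 * v + 3 - 1) = t ^ a * t ^ (2 * v + 2 - a) := by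
      rw [← pow_add]
      congr 1
      omega
    rw [this]
    field_simp
  have hint : Integrable (fun x : EV v => Real.exp (-β * ‖x‖) / ‖x‖ ^ a) := by
    have := (integrable_fun_norm_addHaar (volume : Measure (EV v))
      (f := fun t : ℝ => Real.exp (-β * t) / t ^ a)).2
    exact this ((hkx_aux _ hβ).congr_fun hc measurableSet_Ioi)
  exact hint.lintegral_lt_top

theorem hk_int (v : ℕ) (t : ℝ) (ht : 0 < t) :
    ∫⁻ x : EV v, ENNReal.ofReal (hk v t ‖x‖) = 1 := by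
  have hb : 0 < 1 / (4 * t) := by positivity
  have hdim : (Module.finrank ℝ (EV v) : ℝ) = 2 * (v : ℝ) + 3 := by simp [EV]
  have hi : Integrable (fun x : EV v => hk v t ‖x‖) := by
    simp only [hkx_eq]
    exact (hkx_gauss v hb).const_mul _
  rw [← ofReal_integral_eq_lintegral_ofReal hi (Eventually.of_forall fun x => hkx_pos v ht _)]
  simp only [hkx_eq]
  rw [integral_const_mul, GaussianFourier.integral_rexp_neg_mul_sq_norm hb, hdim, hkx_one v ht,
    ENNReal.ofReal_one]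

theorem hk_semigroup (v : ℕ) (s t : ℝ) (hs : 0 < s) (ht : 0 < t) (x z : EV v) :
    ∫⁻ y : EV v, ENNReal.ofReal (hk v s ‖x - y‖) * ENNReal.ofReal (hk v t ‖y - z‖) =
      ENNReal.ofReal (hk v (s + t) ‖x - z‖) := by
  have hst : 0 < s * t / (s + t) := by positivity
  have e : ∀ y : EV v, ENNReal.ofReal (hk v s ‖x - y‖) * ENNReal.ofReal (hk v t ‖y - z‖) =
      ENNReal.ofReal (hk v (s + t) ‖x - z‖) *
        ENNReal.ofReal (hk v (s * t / (s + t)) ‖y - ((t / (s + t)) • x + (s / (s + t)) • z)‖) := by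
    intro y
    rw [← ENNReal.ofReal_mul (hkx_pos v hs _), ← ENNReal.ofReal_mul (hkx_pos v (by positivity) _)]
    congr 1
    unfold hk
    rw [mul_mul_mul_comm, mul_mul_mul_comm ((4 * Real.pi * (s + t)) ^ _), ← Real.exp_add,
      ← Real.exp_add, hkx_mul v hs ht, hkx_square v hs ht x y z]
  simp only [e]
  rw [lintegral_const_mul' _ _ ENNReal.ofReal_ne_top]
  rw [lintegral_sub_right_eq_self (fun y : EV v => ENNReal.ofReal (hk v (s * t / (s + t)) ‖y‖))
    ((t / (s + t)) • x + (s / (s + t)) • z), hk_int v _ hst, mul_one]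

theorem hk_mul (v : ℕ) (s t r : ℝ) (hs : 0 < s) (ht : 0 < t) :
    hk v s r * hk v t r =
      (4 * Real.pi * (s + t)) ^ (-((2 * (v : ℝ) + 3) / 2)) * hk v (s * t / (s + t)) r := by
  unfold hk
  rw [mul_mul_mul_comm, hkx_mul v hs ht, ← Real.exp_add, mul_assoc]
  congr 3
  field_simp
  ring

theorem hk_fourier (v : ℕ) (t : ℝ) (ht : 0 < t) (ξ : EV v) :
    ∫ x : EV v, cexp (-(2 * Real.pi * inner ℝ x ξ : ℝ) * I) * (hk v t ‖x‖ : ℂ) =
      ((Real.exp (-4 * Real.pi ^ 2 * ‖ξ‖ ^ 2 * t) : ℝ) : ℂ) := by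
  have hb : 0 < 1 / (4 * t) := by positivity
  have hpi := Real.pi_pos
  have h := GaussianFourier.integral_cexp_neg_mul_sq_norm_add (V := EV v)
    (b := ((1 / (4 * t) : ℝ) : ℂ)) (by simpa using hb) (-(2 * Real.pi * I)) ξ
  have hdim : (Module.finrank ℝ (EV v) : ℂ) = 2 * (v : ℂ) + 3 := by simp [EV]
  have e : ∀ x : EV v, cexp (-(2 * Real.pi * inner ℝ x ξ : ℝ) * I) * (hk v t ‖x‖ : ℂ) =
      (((4 * Real.pi * t) ^ (-((2 * (v : ℝ) + 3) / 2)) : ℝ) : ℂ) *
        cexp (-((1 / (4 * t) : ℝ) : ℂ) * (‖x‖ : ℂ) ^ 2 + -(2 * Real.pi * I) * (inner ℝ ξ x : ℝ)) := by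
    intro x
    have e1 : (hk v t ‖x‖ : ℂ) = (((4 * Real.pi * t) ^ (-((2 * (v : ℝ) + 3) / 2)) : ℝ) : ℂ) *
        cexp ((-(1 / (4 * t)) * ‖x‖ ^ 2 : ℝ) : ℂ) := by
      rw [hkx_eq, Complex.ofReal_mul, Complex.ofReal_exp]
    rw [e1, mul_left_comm, ← Complex.exp_add, real_inner_comm x ξ]
    congr 2
    push_cast
    ring
  simp only [e]
  rw [integral_const_mul, h, hdim]
  have h2 : ((Real.pi : ℂ) / ((1 / (4 * t) : ℝ) : ℂ)) ^ ((2 * (v : ℂ) + 3) / 2) =
      (((Real.pi / (1 / (4 * t))) ^ ((2 * (v : ℝ) + 3) / 2) : ℝ) : ℂ) := by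
    rw [Complex.ofReal_cpow (by positivity)]
    push_cast
    rfl
  rw [h2, ← mul_assoc, ← Complex.ofReal_mul, hkx_one v ht, Complex.ofReal_one, one_mul,
    Complex.ofReal_exp]
  congr 1
  have ht' : (t : ℂ) ≠ 0 := by exact_mod_cast ht.ne'
  push_cast
  have hI : (-(2 * (Real.pi : ℂ) * I)) ^ 2 = -4 * (Real.pi : ℂ) ^ 2 := by
    rw [neg_sq, mul_pow, I_sq]
    ring
  rw [hI]
  field_simp

end Pool.Agent.H269
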