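import Pool.Agent.H269.DefsG
import Pool.Agent.H269.GN.G020
import Pool.Agent.H269.GN.G021
import Pool.Agent.H269.GN.G022
import Pool.Agent.H269.GN.G028

/-!
# GN-23 Fourier transform of the Green function (MP_f2af60_mp, infinitely many resonances in odd dimension)
-/

set_option autoImplicit false

open MeasureTheory Filter Topology Complex
open scoped InnerProductSpace ENNReal NNReal

namespace Pool.Agent.H269


theorem gf_poly (v : ℕ) {M β : ℝ} (hM : 0 ≤ M) (hβ : 0 < β) {r : ℝ} (hr : 0 ≤ r) :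
    (1 + M * r) ^ v ≤ (1 + M * (v + 1) / β) ^ (v + 1) * Real.exp (β * r) := by
  have hv : (0 : ℝ) < v + 1 := by positivity
  have h1 : β * r / (v + 1) ≤ Real.exp (β * r / (v + 1)) := by
    have := Real.add_one_le_exp (β * r / (v + 1))
    linarith
  have h2 : 1 ≤ Real.exp (β * r / (v + 1)) := Real.one_le_exp (by positivity)
  have h3 : 1 + M * r ≤ (1 + M * (v + 1) / β) * Real.exp (β * r / (v + 1)) := by
    have h4 : M * r = M * (v + 1) / β * (β * r / (v + 1)) := by field_simp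
    have h5 : 0 ≤ M * (v + 1) / β := by positivity
    have h6 := mul_le_mul_of_nonneg_left h1 h5
    rw [← h4] at h6
    linarith
  have h7 : 1 ≤ 1 + M * r := by nlinarith
  calc (1 + M * r) ^ v ≤ (1 + M * r) ^ (v + 1) := pow_le_pow_right₀ h7 (Nat.le_succ v)
    _ ≤ ((1 + M * (v + 1) / β) * Real.exp (β * r / (v + 1))) ^ (v + 1) := by
        gcongr
    _ = (1 + M * (v + 1) / β) ^ (v + 1) * Real.exp (β * r) := by
        rw [mul_pow, ← Real.exp_nat_mul]
        congr 2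
        push_cast
        field_simp

/-- uniform bound of the Green function on a half plane, bounded `l` -/
theorem gf_bound (v : ℕ) (M b : ℝ) (hM : 0 ≤ M) (hb : 0 < b) : ∃ K : ℝ, 0 ≤ K ∧
    ∀ (l : ℂ) (r : ℝ), ‖l‖ ≤ M → b ≤ l.im → 0 ≤ r →
      ‖Gr v l r‖ ≤ K * (Real.exp (-(b / 2) * r) / r ^ (2 * v + 1)) := by
  obtain ⟨C, hC, h⟩ := Gr_bound v
  refine ⟨C * (1 + M * (v + 1) / (b / 2)) ^ (v + 1), by positivity, fun l r hl hlb hr => ?_⟩
  refine (h l r hr).trans ?_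
  have h1 : (1 + ‖l‖ * r) ^ v ≤ (1 + M * r) ^ v := by gcongr
  have h2 := gf_poly v hM (half_pos hb) hr
  have h3 : Real.exp (-l.im * r) ≤ Real.exp (-b * r) := by
    apply Real.exp_le_exp.2
    nlinarith
  have h4 : Real.exp (b / 2 * r) * Real.exp (-b * r) = Real.exp (-(b / 2) * r) := by
    rw [← Real.exp_add]; congr 1; ring
  have h5 : 0 ≤ (1 + M * (v + 1) / (b / 2)) ^ (v + 1) := by positivity
  rw [← mul_div_assoc]
  apply div_le_div_of_nonneg_right _ (by positivity)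
  calc C * (1 + ‖l‖ * r) ^ v * Real.exp (-l.im * r)
      ≤ C * ((1 + M * (v + 1) / (b / 2)) ^ (v + 1) * Real.exp (b / 2 * r)) * Real.exp (-b * r) := by
        have := h1.trans h2
        gcongr
    _ = C * (1 + M * (v + 1) / (b / 2)) ^ (v + 1) * (Real.exp (b / 2 * r) * Real.exp (-b * r)) := by
        ring
    _ = _ := by rw [h4]

theorem gf_rad (v : ℕ) {β : ℝ} (hβ : 0 < β) :
    Integrable (fun x : EV v => Real.exp (-β * ‖x‖) / ‖x‖ ^ (2 * v + 1)) := by
  have hm : AEStronglyMeasurable (fun x : EV v => Real.exp (-β * ‖x‖) / ‖x‖ ^ (2 * v + 1)) volume := by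
    have : Measurable (fun x : EV v => Real.exp (-β * ‖x‖) / ‖x‖ ^ (2 * v + 1)) := by fun_prop
    exact this.aestronglyMeasurable
  rw [← lintegral_ofReal_ne_top_iff_integrable hm (Eventually.of_forall fun x => by
    show (0 : ℝ) ≤ _; positivity)]
  exact (rad_int v (2 * v + 1) (by omega) β hβ).ne

theorem gf_meas (v : ℕ) (l : ℂ) : Measurable (fun x : EV v => Gr v l ‖x‖) :=
  (Gr_measurable v l).comp measurable_norm

theorem gf_integrable (v : ℕ) {l : ℂ} (hl : 0 < l.im) :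
    Integrable (fun x : EV v => Gr v l ‖x‖) := by
  obtain ⟨K, hK, h⟩ := gf_bound v ‖l‖ l.im (norm_nonneg _) hl
  refine ((gf_rad v (half_pos hl)).const_mul K).mono' (gf_meas v l).aestronglyMeasurable ?_
  filter_upwards with x
  exact h l ‖x‖ le_rfl le_rfl (norm_nonneg _)

theorem gf_phase (v : ℕ) (ξ x : EV v) : ‖cexp (-(2 * Real.pi * inner ℝ x ξ : ℝ) * I)‖ = 1 := by
  have : (-((2 * Real.pi * inner ℝ x ξ : ℝ) : ℂ)) = ((-(2 * Real.pi * inner ℝ x ξ) : ℝ) : ℂ) := by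
    push_cast; ring
  rw [this, Complex.norm_exp_ofReal_mul_I]

theorem gf_phase_meas (v : ℕ) (ξ : EV v) :
    Measurable (fun x : EV v => cexp (-(2 * Real.pi * inner ℝ x ξ : ℝ) * I)) := by
  have h1 : Measurable fun x : EV v => inner ℝ x ξ := by fun_prop
  fun_prop

/-- the double integrand -/
noncomputable def gfF (v : ℕ) (κ : ℝ) (ξ : EV v) (x : EV v) (t : ℝ) : ℂ :=
  cexp (-(2 * Real.pi * inner ℝ x ξ : ℝ) * I) * ((hk v t ‖x‖ * Real.exp (-κ ^ 2 * t) : ℝ) : ℂ)

theorem gfF_meas (v : ℕ) (κ : ℝ) (ξ : EV v) : Measurable (fun p : EV v × ℝ => gfF v κ ξ p.1 p.2) := by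
  unfold gfF hk
  have h1 : Measurable fun p : EV v × ℝ => inner ℝ p.1 ξ := by fun_prop
  have h2 : Measurable fun p : EV v × ℝ => (4 * Real.pi * p.2) ^ (-((2 * (v : ℝ) + 3) / 2)) := by
    have : Measurable fun p : EV v × ℝ => (4 * Real.pi * p.2) := by fun_prop
    exact this.pow_const _
  have h3 : Measurable fun p : EV v × ℝ => Real.exp (-‖p.1‖ ^ 2 / (4 * p.2)) := by fun_prop
  have h4 : Measurable fun p : EV v × ℝ => Real.exp (-κ ^ 2 * p.2) := by fun_prop
  have h5 : Measurable fun p : EV v × ℝ => cexp (-(2 * Real.pi * inner ℝ p.1 ξ : ℝ) * I) := by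
    fun_prop
  exact h5.mul (Complex.measurable_ofReal.comp ((h2.mul h3).mul h4))

theorem hk_nonneg (v : ℕ) {t : ℝ} (ht : 0 < t) (r : ℝ) : 0 ≤ hk v t r := by
  unfold hk
  have := Real.pi_pos
  positivity

theorem gfF_norm (v : ℕ) (κ : ℝ) (ξ x : EV v) {t : ℝ} (ht : 0 < t) :
    ‖gfF v κ ξ x t‖ = Real.exp (-κ ^ 2 * t) * hk v t ‖x‖ := by
  unfold gfF
  have h1 := hk_nonneg v ht ‖x‖
  rw [norm_mul, gf_phase, one_mul, Complex.norm_real, Real.norm_eq_abs,
    abs_of_nonneg (by positivity)]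
  ring

theorem hk_meas (v : ℕ) (t : ℝ) : Measurable (fun x : EV v => hk v t ‖x‖) := by
  unfold hk
  fun_prop

theorem hk_integrable (v : ℕ) {t : ℝ} (ht : 0 < t) : Integrable (fun x : EV v => hk v t ‖x‖) := by
  rw [← lintegral_ofReal_ne_top_iff_integrable (hk_meas v t).aestronglyMeasurable
    (Eventually.of_forall fun x => hk_nonneg v ht _), hk_int v t ht]
  exact ENNReal.one_ne_top

theorem hk_integral (v : ℕ) {t : ℝ} (ht : 0 < t) : ∫ x : EV v, hk v t ‖x‖ = 1 := by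
  rw [integral_eq_lintegral_of_nonneg_ae (Eventually.of_forall fun x => hk_nonneg v ht _)
    (hk_meas v t).aestronglyMeasurable, hk_int v t ht]
  rfl

theorem gfF_integrable (v : ℕ) {κ : ℝ} (hκ : 0 < κ) (ξ : EV v) :
    Integrable (fun p : EV v × ℝ => gfF v κ ξ p.1 p.2)
      ((volume : Measure (EV v)).prod (volume.restrict (Set.Ioi (0 : ℝ)))) := by
  rw [integrable_prod_iff' (gfF_meas v κ ξ).aestronglyMeasurable]
  constructor
  · filter_upwards [ae_restrict_mem measurableSet_Ioi] with t ht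
    have ht' : 0 < t := ht
    have hm : AEStronglyMeasurable (fun x : EV v => gfF v κ ξ x t) volume := by
      have := (gfF_meas v κ ξ).comp
        (measurable_id.prodMk (measurable_const (a := t)) : Measurable fun x : EV v => (x, t))
      exact this.aestronglyMeasurable
    refine ((hk_integrable v ht').const_mul (Real.exp (-κ ^ 2 * t))).mono' hm ?_
    filter_upwards with x
    exact (gfF_norm v κ ξ x ht').le
  · have h1 : IntegrableOn (fun t : ℝ => Real.exp (-κ ^ 2 * t)) (Set.Ioi 0) :=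
      integrableOn_exp_mul_Ioi (by nlinarith) 0
    refine h1.congr ?_
    filter_upwards [ae_restrict_mem measurableSet_Ioi] with t ht
    have ht' : 0 < t := ht
    simp only [gfF_norm v κ ξ _ ht']
    rw [integral_const_mul, hk_integral v ht', mul_one]

theorem gf_imag (v : ℕ) {κ : ℝ} (hκ : 0 < κ) (ξ : EV v) :
    ∫ x : EV v, cexp (-(2 * Real.pi * inner ℝ x ξ : ℝ) * I) * Gr v (I * κ) ‖x‖ =
      1 / (4 * (Real.pi : ℂ) ^ 2 * (‖ξ‖ : ℂ) ^ 2 - (I * κ) ^ 2) := by
  have hpi := Real.pi_pos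
  have h1 : ∀ᵐ x : EV v, cexp (-(2 * Real.pi * inner ℝ x ξ : ℝ) * I) * Gr v (I * κ) ‖x‖ =
      ∫ t in Set.Ioi (0 : ℝ), gfF v κ ξ x t := by
    have : ∀ᵐ x : EV v, x ≠ 0 := by
      have h0 : (volume : Measure (EV v)) {0} = 0 := measure_singleton 0
      rw [ae_iff]
      simp
    filter_upwards [this] with x hx
    rw [(Gr_imag v κ ‖x‖ hκ.le (norm_nonneg _)).1, (Gr_heat v κ ‖x‖ hκ (norm_pos_iff.2 hx)).2]
    unfold gfF
    rw [integral_const_mul, integral_complex_ofReal]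
  rw [integral_congr_ae h1]
  rw [integral_integral_swap (f := gfF v κ ξ) (gfF_integrable v hκ ξ)]
  have hD : 0 < 4 * Real.pi ^ 2 * ‖ξ‖ ^ 2 + κ ^ 2 := by positivity
  have h2 : ∫ t in Set.Ioi (0 : ℝ), ∫ x : EV v, gfF v κ ξ x t =
      ∫ t in Set.Ioi (0 : ℝ), ((Real.exp (-(4 * Real.pi ^ 2 * ‖ξ‖ ^ 2 + κ ^ 2) * t) : ℝ) : ℂ) := by
    apply setIntegral_congr_fun measurableSet_Ioi
    intro t ht
    have ht' : 0 < t := ht
    have e1 : ∀ x : EV v, gfF v κ ξ x t = ((Real.exp (-κ ^ 2 * t) : ℝ) : ℂ) *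
        (cexp (-(2 * Real.pi * inner ℝ x ξ : ℝ) * I) * (hk v t ‖x‖ : ℂ)) := by
      intro x
      unfold gfF
      push_cast
      ring
    simp only [e1]
    rw [integral_const_mul, hk_fourier v t ht', ← Complex.ofReal_mul, ← Real.exp_add]
    congr 2
    ring
  rw [h2, integral_complex_ofReal, integral_exp_mul_Ioi (by linarith) 0]
  have h3 : (4 * (Real.pi : ℂ) ^ 2 * (‖ξ‖ : ℂ) ^ 2 - (I * κ) ^ 2) =
    (((4 * Real.pi ^ 2 * ‖ξ‖ ^ 2 + κ ^ 2 : ℝ)) : ℂ) := by
    rw [mul_pow, Complex.I_sq]; push_cast; ring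
  rw [h3, mul_zero, Real.exp_zero]
  push_cast
  rw [neg_div_neg_eq]

theorem gf_deriv_meas (v : ℕ) (l : ℂ) : Measurable (fun r : ℝ => deriv (fun l => Gr v l r) l) := by
  cases v with
  | zero =>
    have h : ∀ r : ℝ, deriv (fun l => Gr 0 l r) l =
        cexp (I * l * r) * (I * r) / (4 * (Real.pi : ℂ) * (2 * (Real.pi : ℂ)) ^ 0 * (r : ℂ) ^ (2 * 0 + 1)) := by
      intro r
      apply HasDerivAt.deriv
      have h1 : HasDerivAt (fun l : ℂ => I * l * r) (I * r) l := by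
        have := ((hasDerivAt_id l).const_mul I).mul_const (r : ℂ)
        simpa using this
      have h2 := (h1.cexp).div_const (4 * (Real.pi : ℂ) * (2 * (Real.pi : ℂ)) ^ 0 * (r : ℂ) ^ (2 * 0 + 1))
      refine h2.congr_of_eventuallyEq (Eventually.of_forall fun l => ?_)
      show Gr 0 l r = _
      unfold Gr th
      rw [mul_one]
    simp only [h]
    fun_prop
  | succ v =>
    have h : ∀ r : ℝ, deriv (fun l => Gr (v + 1) l r) l = l / (2 * (Real.pi : ℂ)) * Gr v l r :=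
      fun r => (Gr_hasDerivAt v l r).deriv
    simp only [h]
    exact (Gr_measurable v l).const_mul _

theorem gf_diff (v : ℕ) (ξ : EV v) {l₀ : ℂ} (hl : 0 < l₀.im) :
    DifferentiableAt ℂ (fun l : ℂ => ∫ x : EV v, cexp (-(2 * Real.pi * inner ℝ x ξ : ℝ) * I) *
      Gr v l ‖x‖) l₀ := by
  have hb : 0 < l₀.im / 2 := by positivity
  have hb4 : 0 < l₀.im / 4 := by positivity
  obtain ⟨K, hK, hKb⟩ := gf_bound v (‖l₀‖ + l₀.im / 2) (l₀.im / 2) (by positivity) hb
  have hnear : ∀ w : ℂ, ‖w - l₀‖ ≤ l₀.im / 2 → ‖w‖ ≤ ‖l₀‖ + l₀.im / 2 ∧ l₀.im / 2 ≤ w.im := by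
    intro w hw
    constructor
    · have := norm_sub_norm_le w l₀
      linarith
    · have h3 := Complex.abs_im_le_norm (w - l₀)
      rw [Complex.sub_im] at h3
      have h4 := abs_le.1 (h3.trans hw)
      linarith [h4.1]
  have hkey := hasDerivAt_integral_of_dominated_loc_of_deriv_le
    (μ := (volume : Measure (EV v)))
    (F := fun (l : ℂ) (x : EV v) => cexp (-(2 * Real.pi * inner ℝ x ξ : ℝ) * I) * Gr v l ‖x‖)
    (F' := fun (l : ℂ) (x : EV v) => cexp (-(2 * Real.pi * inner ℝ x ξ : ℝ) * I) *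
      deriv (fun l => Gr v l ‖x‖) l)
    (x₀ := l₀) (s := Metric.ball l₀ (l₀.im / 4))
    (bound := fun x => (K * (Real.exp (-(l₀.im / 2 / 2) * ‖x‖) / ‖x‖ ^ (2 * v + 1))) / (l₀.im / 4))
    (Metric.ball_mem_nhds _ hb4)
    (Eventually.of_forall fun l => ((gf_phase_meas v ξ).mul (gf_meas v l)).aestronglyMeasurable)
    ?_ ((gf_phase_meas v ξ).mul ((gf_deriv_meas v l₀).comp measurable_norm)).aestronglyMeasurable
    ?_ ?_ ?_
  · exact hkey.2.differentiableAt
  · refine (gf_integrable v hl).norm.mono' ((gf_phase_meas v ξ).mul (gf_meas v l₀)).aestronglyMeasurable ?_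
    filter_upwards with x
    rw [norm_mul, gf_phase, one_mul]
  · filter_upwards with x l hlm
    rw [norm_mul, gf_phase, one_mul]
    refine Complex.norm_deriv_le_of_forall_mem_sphere_norm_le hb4
      (Gr_differentiable v ‖x‖).diffContOnCl fun w hw => ?_
    rw [Metric.mem_ball, Complex.dist_eq] at hlm
    rw [mem_sphere_iff_norm] at hw
    have h1 : ‖w - l₀‖ ≤ l₀.im / 2 := by
      have : w - l₀ = (w - l) + (l - l₀) := by ring
      rw [this]
      refine (norm_add_le _ _).trans ?_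
      linarith
    exact hKb w ‖x‖ (hnear w h1).1 (hnear w h1).2 (norm_nonneg _)
  · exact ((gf_rad v (β := l₀.im / 2 / 2) (by positivity)).const_mul K).div_const _
  · filter_upwards with x l _
    exact (Gr_differentiable v ‖x‖ l).hasDerivAt.const_mul _

theorem gf_denom (v : ℕ) (ξ : EV v) {l : ℂ} (hl : 0 < l.im) :
    4 * (Real.pi : ℂ) ^ 2 * (‖ξ‖ : ℂ) ^ 2 - l ^ 2 ≠ 0 := by
  intro h
  have h1 : l ^ 2 = ((4 * Real.pi ^ 2 * ‖ξ‖ ^ 2 : ℝ) : ℂ) := by
    push_cast
    linear_combination -h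
  have h2 : (l ^ 2).im = 0 := by rw [h1, Complex.ofReal_im]
  have h3 : (l ^ 2).re = 4 * Real.pi ^ 2 * ‖ξ‖ ^ 2 := by rw [h1, Complex.ofReal_re]
  rw [sq, Complex.mul_im] at h2
  rw [sq, Complex.mul_re] at h3
  have h4 : l.re = 0 := by
    have : l.re * l.im = 0 := by linarith
    rcases mul_eq_zero.1 this with h | h
    · exact h
    · exact absurd h hl.ne'
  rw [h4] at h3
  have h5 : 0 ≤ 4 * Real.pi ^ 2 * ‖ξ‖ ^ 2 := by positivity
  nlinarith [mul_pos hl hl]


theorem Gr_fourier (v : ℕ) (l : ℂ) (hl : 0 < l.im) :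
    Integrable (fun x : EV v => Gr v l ‖x‖) ∧
    ∀ ξ : EV v, ∫ x : EV v, cexp (-(2 * Real.pi * inner ℝ x ξ : ℝ) * I) * Gr v l ‖x‖ =
      1 / (4 * (Real.pi : ℂ) ^ 2 * (‖ξ‖ : ℂ) ^ 2 - l ^ 2) := by
  refine ⟨gf_integrable v hl, fun ξ => ?_⟩
  have hopen : IsOpen {z : ℂ | 0 < z.im} := isOpen_lt continuous_const Complex.continuous_im
  have hf : AnalyticOnNhd ℂ (fun l : ℂ => ∫ x : EV v, cexp (-(2 * Real.pi * inner ℝ x ξ : ℝ) * I) *
      Gr v l ‖x‖) {z : ℂ | 0 < z.im} := by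
    apply DifferentiableOn.analyticOnNhd _ hopen
    intro z hz
    exact (gf_diff v ξ hz).differentiableWithinAt
  have hg : AnalyticOnNhd ℂ (fun l : ℂ => 1 / (4 * (Real.pi : ℂ) ^ 2 * (‖ξ‖ : ℂ) ^ 2 - l ^ 2))
      {z : ℂ | 0 < z.im} := by
    apply DifferentiableOn.analyticOnNhd _ hopen
    intro z hz
    have hd : DifferentiableAt ℂ (fun l : ℂ => 4 * (Real.pi : ℂ) ^ 2 * (‖ξ‖ : ℂ) ^ 2 - l ^ 2) z := by
      fun_prop
    exact ((differentiableAt_const 1).div hd (gf_denom v ξ hz)).differentiableWithinAt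
  have hpre : IsPreconnected {z : ℂ | 0 < z.im} := (convex_halfSpace_im_gt 0).isPreconnected
  have hI : I ∈ {z : ℂ | 0 < z.im} := by simp
  have htend : Tendsto (fun κ : ℝ => I * (κ : ℂ)) (𝓝[≠] 1) (𝓝[≠] I) := by
    apply tendsto_nhdsWithin_of_tendsto_nhds_of_eventually_within
    · have hc : Continuous (fun κ : ℝ => I * (κ : ℂ)) := by fun_prop
      have := hc.tendsto 1
      simp only [Complex.ofReal_one, mul_one] at this
      exact this.mono_left nhdsWithin_le_nhds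
    · filter_upwards [self_mem_nhdsWithin] with κ hκ
      intro h
      apply hκ
      have h1 : I * (κ : ℂ) = I * 1 := by rw [mul_one]; exact h
      have h2 := mul_left_cancel₀ Complex.I_ne_zero h1
      exact_mod_cast h2
  have hfreq : ∃ᶠ z in 𝓝[≠] I, (fun l : ℂ => ∫ x : EV v, cexp (-(2 * Real.pi * inner ℝ x ξ : ℝ) * I) *
      Gr v l ‖x‖) z = (fun l : ℂ => 1 / (4 * (Real.pi : ℂ) ^ 2 * (‖ξ‖ : ℂ) ^ 2 - l ^ 2)) z := by
    apply htend.frequently
    apply Eventually.frequently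
    have : ∀ᶠ κ : ℝ in 𝓝[≠] 1, 0 < κ := nhdsWithin_le_nhds (lt_mem_nhds one_pos)
    filter_upwards [this] with κ hκ
    exact gf_imag v hκ ξ
  exact hf.eqOn_of_preconnected_of_frequently_eq hg hpre hI hfreq hl

end Pool.Agent.H269
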