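import Pool.Agent.H269.DefsG
import Pool.Agent.H269.GN.G020

/-!
# GN-25 power series of the Green function, singular part (MP_f2af60_mp, infinitely many resonances in odd dimension)
-/

set_option autoImplicit false

open MeasureTheory Filter Topology Complex
open scoped InnerProductSpace ENNReal NNReal

namespace Pool.Agent.H269



lemma J81_th_diff (v : ℕ) : Differentiable ℂ (fun w => th v w) := by
  induction v using Nat.strong_induction_on with
  | _ v ih =>
    match v, ih with
    | 0, _ => simp only [th]; fun_prop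
    | 1, _ => simp only [th]; fun_prop
    | (k + 2), ih =>
      have h1 := ih (k + 1) (by omega)
      have h0 := ih k (by omega)
      simp only [th]
      fun_prop

lemma J81_F_diff (v : ℕ) : Differentiable ℂ (fun w => cexp (-w) * th v w) := by
  have := J81_th_diff v
  fun_prop

lemma J81_iter_diff (f : ℂ → ℂ) (hf : Differentiable ℂ f) (n : ℕ) :
    Differentiable ℂ (iteratedDeriv n f) := by
  have h : ContDiff ℂ (⊤ : ℕ∞) f := hf.contDiff
  exact h.differentiable_iteratedDeriv n (by exact_mod_cast ENat.natCast_lt_top n)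

lemma J81_iter_mul (f : ℂ → ℂ) (hf : Differentiable ℂ f) (n : ℕ) :
    ∀ w, iteratedDeriv n (fun w => w * f w) w =
      w * iteratedDeriv n f w + n * iteratedDeriv (n - 1) f w := by
  induction n with
  | zero => intro w; simp
  | succ n ih =>
    intro w
    rw [iteratedDeriv_succ]
    have h1 : iteratedDeriv n (fun w => w * f w) =
        fun w => w * iteratedDeriv n f w + n * iteratedDeriv (n - 1) f w := funext ih
    rw [h1]
    have hd : HasDerivAt (iteratedDeriv n f) (iteratedDeriv (n + 1) f w) w := by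
      rw [iteratedDeriv_succ]
      exact (J81_iter_diff f hf n w).hasDerivAt
    have hm : HasDerivAt (fun w => w * iteratedDeriv n f w)
        (1 * iteratedDeriv n f w + w * iteratedDeriv (n + 1) f w) w :=
      (hasDerivAt_id w).mul hd
    rcases n with _ | m
    · have := hm.deriv
      simp only [Nat.cast_zero, zero_mul, add_zero, iteratedDeriv_zero] at this ⊢
      rw [this]
      simp
      ring
    · have hd' : HasDerivAt (iteratedDeriv m f) (iteratedDeriv (m + 1) f w) w := by
        rw [iteratedDeriv_succ]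
        exact (J81_iter_diff f hf m w).hasDerivAt
      have h2 := (hm.add (hd'.const_mul ((m + 1 : ℕ) : ℂ))).deriv
      have e : (m + 1 - 1 : ℕ) = m := by omega
      have e' : (m + 1 + 1 - 1 : ℕ) = m + 1 := by omega
      rw [e, e']
      refine (Eq.trans ?_ h2).trans ?_
      · rfl
      · push_cast
        ring

lemma J81_th_zero (v : ℕ) : th (v + 1) 0 = (2 * (v : ℂ) + 1) * th v 0 := by
  rcases v with _ | k
  · simp [th]
  · simp only [th]
    push_cast
    ring

lemma J81_iter (v : ℕ) : ∀ n : ℕ,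
    iteratedDeriv n (fun w => cexp (-w) * th v w) 0 = (n.factorial : ℂ) * (ct v n : ℂ) := by
  induction v with
  | zero =>
    intro n
    have h : (fun w : ℂ => cexp (-w) * th 0 w) = fun w => cexp ((-1) * w) := by
      funext w
      simp [th]
    rw [h, iteratedDeriv_cexp_const_mul]
    have hf : (n.factorial : ℂ) ≠ 0 := by exact_mod_cast n.factorial_ne_zero
    simp only [ct]
    push_cast
    field_simp
    simp
  | succ v ih =>
    intro n
    have hder : deriv (fun w => cexp (-w) * th (v + 1) w) =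
        fun w => w * (-(cexp (-w) * th v w)) := by
      funext w
      rw [(th_deriv v w).deriv]
      ring
    have hdiff : Differentiable ℂ (fun w => -(cexp (-w) * th v w)) := (J81_F_diff v).neg
    match n with
    | 0 =>
      have h0 := ih 0
      simp only [iteratedDeriv_zero, ct] at h0 ⊢
      rw [J81_th_zero]
      push_cast
      simp at h0 ⊢
      exact Or.inl h0
    | 1 =>
      rw [iteratedDeriv_succ', hder]
      simp [ct]
    | (n + 2) =>
      rw [iteratedDeriv_succ', hder, J81_iter_mul _ hdiff]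
      have e : (n + 1 - 1 : ℕ) = n := by omega
      rw [e]
      have h2 : iteratedDeriv n (fun w => -(cexp (-w) * th v w)) 0 =
          - iteratedDeriv n (fun w => cexp (-w) * th v w) 0 := by
        exact iteratedDeriv_fun_neg n _ 0
      rw [h2, ih n]
      have hn : ((n : ℂ) + 2) ≠ 0 := by
        have : ((n : ℂ) + 2) = ((n + 2 : ℕ) : ℂ) := by push_cast; ring
        rw [this]
        exact_mod_cast (by omega : n + 2 ≠ 0)
      simp only [ct, Nat.factorial_succ]
      push_cast
      field_simp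
      ring

lemma J81_sum_split (g : ℕ → ℂ) (v : ℕ) : ∑ i ∈ Finset.range (2 * v + 1), g i =
    ∑ i ∈ Finset.range (v + 1), g (2 * i) + ∑ i ∈ Finset.range v, g (2 * i + 1) := by
  induction v with
  | zero => simp
  | succ v ih =>
    have e : 2 * (v + 1) + 1 = 2 * v + 1 + 1 + 1 := by ring
    rw [e, Finset.sum_range_succ, Finset.sum_range_succ, ih, Finset.sum_range_succ _ (v + 1),
      Finset.sum_range_succ _ v, Finset.sum_range_succ _ v]
    have e2 : 2 * (v + 1) = 2 * v + 1 + 1 := by ring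
    rw [e2]
    ring

theorem ct_odd (v i : ℕ) (h : Odd i) (hi : i < 2 * v + 1) : ct v i = 0 := by
  induction v generalizing i with
  | zero =>
    have : i = 0 := by omega
    subst this
    simp at h
  | succ v ih =>
    match i, h, hi with
    | 0, h, _ => simp at h
    | 1, _, _ => simp [ct]
    | (j + 2), h, hi =>
      have hj : Odd j := by
        rw [Nat.odd_iff] at h ⊢
        omega
      simp [ct, ih j hj (by omega)]

theorem ct_bound (v i : ℕ) : |ct v (2 * v + 1 + i)| ≤ 1 / ((i + 1).factorial : ℝ) := by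
  induction v with
  | zero =>
    have e : 2 * 0 + 1 + i = i + 1 := by omega
    rw [e]
    simp [ct, abs_div, abs_pow]
  | succ v ih =>
    have e : 2 * (v + 1) + 1 + i = (2 * v + 1 + i) + 2 := by omega
    rw [e]
    have h1 : ct (v + 1) ((2 * v + 1 + i) + 2) = - ct v (2 * v + 1 + i) / (((2 * v + 1 + i : ℕ) : ℝ) + 2) := rfl
    rw [h1, abs_div, abs_neg]
    have h2 : (1 : ℝ) ≤ |((2 * v + 1 + i : ℕ) : ℝ) + 2| := by
      rw [abs_of_nonneg (by positivity)]
      have : (0 : ℝ) ≤ ((2 * v + 1 + i : ℕ) : ℝ) := by positivity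
      linarith
    exact (div_le_self (abs_nonneg _) h2).trans ih

theorem exp_th_series (v : ℕ) (w : ℂ) :
    HasSum (fun i : ℕ => (ct v i : ℂ) * w ^ i) (cexp (-w) * th v w) := by
  have h := Complex.hasSum_taylorSeries_of_entire (J81_F_diff v) 0 w
  refine h.congr_fun ?_
  intro n
  have hf : (n.factorial : ℂ) ≠ 0 := by exact_mod_cast n.factorial_ne_zero
  rw [J81_iter v n]
  simp only [sub_zero, smul_eq_mul]
  field_simp

theorem Gr_eq (v : ℕ) (l : ℂ) (r : ℝ) (hr : 0 < r) : Gr v l r = Sg v l r + Rg v l r := by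
  have hs := exp_th_series v (-(I * l * r))
  rw [neg_neg] at hs
  have hsplit := hs.summable.sum_add_tsum_nat_add (2 * v + 1)
  rw [hs.tsum_eq, J81_sum_split] at hsplit
  have hodd : ∑ i ∈ Finset.range v, (ct v (2 * i + 1) : ℂ) * (-(I * l * r)) ^ (2 * i + 1) = 0 := by
    refine Finset.sum_eq_zero ?_
    intro i hi
    rw [Finset.mem_range] at hi
    rw [ct_odd v (2 * i + 1) ⟨i, rfl⟩ (by omega)]
    simp
  rw [hodd, add_zero] at hsplit
  have hr' : (r : ℂ) ≠ 0 := by exact_mod_cast hr.ne'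
  have ht : ∑' i : ℕ, (ct v (i + (2 * v + 1)) : ℂ) * (-(I * l * r)) ^ (i + (2 * v + 1)) =
      (r : ℂ) ^ (2 * v + 1) *
      ∑' i : ℕ, (ct v (2 * v + 1 + i) : ℂ) * (-(I * l)) ^ (2 * v + 1 + i) * (r : ℂ) ^ i := by
    rw [← tsum_mul_left]
    refine tsum_congr ?_
    intro i
    have e : -(I * l * (r : ℂ)) = (-(I * l)) * r := by ring
    rw [e, mul_pow, add_comm i (2 * v + 1), pow_add (r : ℂ)]
    ring
  rw [ht] at hsplit
  unfold Gr Sg Rg
  rw [← hsplit]
  have hpi : (Real.pi : ℂ) ≠ 0 := by exact_mod_cast Real.pi_ne_zero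
  have h2 : (4 * (Real.pi : ℂ) * (2 * (Real.pi : ℂ)) ^ v) ≠ 0 :=
    mul_ne_zero (mul_ne_zero (by norm_num) hpi) (pow_ne_zero _ (mul_ne_zero (by norm_num) hpi))
  have h3 : (r : ℂ) ^ (2 * v + 1) ≠ 0 := pow_ne_zero _ hr'
  rw [add_div, mul_comm ((r : ℂ) ^ (2 * v + 1)), mul_div_mul_right _ _ h3]

theorem Sg_even (v : ℕ) (l : ℂ) (r : ℝ) : Sg v (-l) r = Sg v l r := by
  unfold Sg
  congr 1
  refine Finset.sum_congr rfl ?_
  intro i _
  have e : -(I * -l * (r : ℂ)) = -(-(I * l * r)) := by ring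
  rw [e, Even.neg_pow (even_two_mul i)]

theorem Sg_bound (v : ℕ) (R : ℝ) (hR : 0 < R) : ∃ C : ℝ, 0 < C ∧ ∀ (l : ℂ) (r : ℝ), 0 ≤ r → r ≤ R →
    ‖Sg v l r‖ ≤ C * (1 + ‖l‖) ^ (2 * v) / r ^ (2 * v + 1) := by
  have hpi := Real.pi_pos
  set D : ℝ := 4 * Real.pi * (2 * Real.pi) ^ v with hD
  have hDpos : 0 < D := by positivity
  refine ⟨(∑ i ∈ Finset.range (v + 1), |ct v (2 * i)| + 1) * (1 + R) ^ (2 * v) / D, by positivity, ?_⟩
  intro l r hr0 hrR
  have hn : ‖(4 * (Real.pi : ℂ) * (2 * (Real.pi : ℂ)) ^ v * (r : ℂ) ^ (2 * v + 1))‖ =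
      D * r ^ (2 * v + 1) := by
    have : (4 * (Real.pi : ℂ) * (2 * (Real.pi : ℂ)) ^ v * (r : ℂ) ^ (2 * v + 1)) =
        ((D * r ^ (2 * v + 1) : ℝ) : ℂ) := by
      rw [hD]; push_cast; ring
    rw [this, Complex.norm_real, Real.norm_eq_abs, abs_of_nonneg (by positivity)]
  unfold Sg
  rw [norm_div, hn, ← div_div]
  refine div_le_div_of_nonneg_right ?_ (by positivity)
  rw [div_mul_eq_mul_div]
  refine div_le_div_of_nonneg_right ?_ hDpos.le
  refine (norm_sum_le _ _).trans ?_
  have hterm : ∀ i ∈ Finset.range (v + 1), ‖(ct v (2 * i) : ℂ) * (-(I * l * r)) ^ (2 * i)‖ ≤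
      |ct v (2 * i)| * ((1 + R) ^ (2 * v) * (1 + ‖l‖) ^ (2 * v)) := by
    intro i hi
    rw [Finset.mem_range] at hi
    rw [norm_mul, Complex.norm_real, Real.norm_eq_abs]
    refine mul_le_mul_of_nonneg_left ?_ (abs_nonneg _)
    rw [norm_pow, norm_neg, norm_mul, norm_mul, Complex.norm_I, one_mul, Complex.norm_real,
      Real.norm_eq_abs, abs_of_nonneg hr0]
    have hl := norm_nonneg l
    have h1 : ‖l‖ * r ≤ (1 + R) * (1 + ‖l‖) := by nlinarith
    calc (‖l‖ * r) ^ (2 * i) ≤ ((1 + R) * (1 + ‖l‖)) ^ (2 * i) :=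
          pow_le_pow_left₀ (by positivity) h1 _
      _ ≤ ((1 + R) * (1 + ‖l‖)) ^ (2 * v) := by
          refine pow_le_pow_right₀ ?_ (by omega)
          nlinarith
      _ = (1 + R) ^ (2 * v) * (1 + ‖l‖) ^ (2 * v) := mul_pow _ _ _
  refine (Finset.sum_le_sum hterm).trans ?_
  rw [← Finset.sum_mul]
  have hS : 0 ≤ ∑ i ∈ Finset.range (v + 1), |ct v (2 * i)| :=
    Finset.sum_nonneg fun i _ => abs_nonneg _
  have hP : 0 ≤ (1 + R) ^ (2 * v) * (1 + ‖l‖) ^ (2 * v) := by positivity
  nlinarith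

theorem Sg_differentiable (v : ℕ) (r : ℝ) : Differentiable ℂ (fun l => Sg v l r) := by
  unfold Sg
  fun_prop

theorem Rg_zero (v : ℕ) (l : ℂ) : Rg v l 0 =
    (ct v (2 * v + 1) : ℂ) * (-(I * l)) ^ (2 * v + 1) / (4 * (Real.pi : ℂ) * (2 * (Real.pi : ℂ)) ^ v) := by
  unfold Rg
  rw [tsum_eq_single 0]
  · simp
  · intro i hi
    simp [hi]

end Pool.Agent.H269
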