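import Pool.Agent.H269.DefsG
import Pool.Agent.H269.GN.G020
import Pool.Agent.H269.GN.G021
import Pool.Agent.H269.GN.G025

/-!
# GN-26 the regular part of the Green function: analytic and bounded (MP_f2af60_mp, infinitely many resonances in odd dimension)
-/

set_option autoImplicit false

open MeasureTheory Filter Topology Complex
open scoped InnerProductSpace ENNReal NNReal

namespace Pool.Agent.H269



theorem Rg_term_bound (v i : ℕ) (l : ℂ) (r M : ℝ) (hl : ‖l‖ ≤ M) :
    ‖(ct v (2 * v + 1 + i) : ℂ) * (-(I * l)) ^ (2 * v + 1 + i) * (r : ℂ) ^ i‖ ≤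
      M ^ (2 * v + 1) * ((M * |r|) ^ i / (i.factorial : ℝ)) := by
  have hM : 0 ≤ M := (norm_nonneg l).trans hl
  have h1 : |ct v (2 * v + 1 + i)| ≤ 1 / (i.factorial : ℝ) := by
    refine (ct_bound v i).trans ?_
    apply one_div_le_one_div_of_le (by exact_mod_cast i.factorial_pos)
    exact_mod_cast Nat.factorial_le (Nat.le_succ i)
  rw [norm_mul, norm_mul, norm_pow, norm_pow, norm_neg, norm_mul, Complex.norm_I, one_mul,
    Complex.norm_real, Complex.norm_real, Real.norm_eq_abs, Real.norm_eq_abs]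
  calc |ct v (2 * v + 1 + i)| * ‖l‖ ^ (2 * v + 1 + i) * |r| ^ i
      ≤ 1 / (i.factorial : ℝ) * M ^ (2 * v + 1 + i) * |r| ^ i := by gcongr
    _ = _ := by
      rw [pow_add, mul_pow]
      ring

theorem Rg_differentiable (v : ℕ) (r : ℝ) : Differentiable ℂ (fun l => Rg v l r) := by
  unfold Rg
  apply Differentiable.div_const
  intro l
  have hd : DifferentiableOn ℂ (fun w : ℂ => ∑' i : ℕ,
      (ct v (2 * v + 1 + i) : ℂ) * (-(I * w)) ^ (2 * v + 1 + i) * (r : ℂ) ^ i)
      (Metric.ball 0 (‖l‖ + 1)) := by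
    apply differentiableOn_tsum_of_summable_norm
      (u := fun i : ℕ => (‖l‖ + 1) ^ (2 * v + 1) * (((‖l‖ + 1) * |r|) ^ i / (i.factorial : ℝ)))
    · exact (Real.summable_pow_div_factorial _).mul_left _
    · intro i
      apply Differentiable.differentiableOn
      fun_prop
    · exact Metric.isOpen_ball
    · intro i w hw
      rw [mem_ball_zero_iff] at hw
      exact Rg_term_bound v i w r _ hw.le
  exact hd.differentiableAt (Metric.isOpen_ball.mem_nhds (by
    rw [mem_ball_zero_iff]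
    linarith))

theorem Rg_bound (v : ℕ) (B R : ℝ) (hB : 0 ≤ B) (hR : 0 < R) : ∃ C : ℝ, 0 < C ∧
    ∀ (l : ℂ) (r : ℝ), -B ≤ l.im → 0 ≤ r → r ≤ R → ‖Rg v l r‖ ≤ C * (1 + ‖l‖) ^ (4 * v + 1) := by
  obtain ⟨C1, hC1, hG⟩ := Gr_bound v
  obtain ⟨C2, hC2, hS⟩ := Sg_bound v R hR
  refine ⟨Real.exp 1 + C1 * (1 + R) ^ v * Real.exp (B * R) + C2, by positivity, ?_⟩
  intro l r hl hr0 hrR
  have hL : 0 ≤ ‖l‖ := norm_nonneg l
  have hpos : 0 < (1 + ‖l‖) ^ (4 * v + 1) := by positivity
  rcases le_or_gt (‖l‖ * r) 1 with hlr | hlr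
  · -- small argument
    have h1 : ‖∑' i : ℕ, (ct v (2 * v + 1 + i) : ℂ) * (-(I * l)) ^ (2 * v + 1 + i) * (r : ℂ) ^ i‖ ≤
        ‖l‖ ^ (2 * v + 1) * Real.exp (‖l‖ * |r|) := by
      have hs := ((Real.summable_pow_div_factorial (‖l‖ * |r|)).mul_left (‖l‖ ^ (2 * v + 1)))
      refine (tsum_of_norm_bounded hs.hasSum (fun i => Rg_term_bound v i l r _ le_rfl)).trans ?_
      rw [tsum_mul_left, Real.exp_eq_exp_ℝ, NormedSpace.exp_eq_tsum_div]
    have h2 : ‖(4 * (Real.pi : ℂ) * (2 * (Real.pi : ℂ)) ^ v)‖ = 4 * Real.pi * (2 * Real.pi) ^ v := by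
      rw [norm_mul, norm_mul, norm_pow, norm_mul, Complex.norm_real, Real.norm_eq_abs,
        abs_of_pos Real.pi_pos]
      simp
    have h3 : 1 ≤ 4 * Real.pi * (2 * Real.pi) ^ v := by
      have hp := Real.pi_gt_three
      have : 1 ≤ (2 * Real.pi) ^ v := one_le_pow₀ (by linarith)
      nlinarith
    have h4 : ‖Rg v l r‖ ≤ ‖l‖ ^ (2 * v + 1) * Real.exp (‖l‖ * |r|) := by
      unfold Rg
      rw [norm_div, h2]
      exact (div_le_self (norm_nonneg _) h3).trans h1
    rw [abs_of_nonneg hr0] at h4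
    refine h4.trans ?_
    calc ‖l‖ ^ (2 * v + 1) * Real.exp (‖l‖ * r)
        ≤ (1 + ‖l‖) ^ (4 * v + 1) * Real.exp 1 := by
          apply mul_le_mul _ (Real.exp_le_exp.2 hlr) (Real.exp_pos _).le hpos.le
          calc ‖l‖ ^ (2 * v + 1) ≤ (1 + ‖l‖) ^ (2 * v + 1) := by
                apply pow_le_pow_left₀ hL
                linarith
            _ ≤ (1 + ‖l‖) ^ (4 * v + 1) := pow_le_pow_right₀ (by linarith) (by omega)
      _ ≤ _ := by
          rw [mul_comm]
          apply mul_le_mul_of_nonneg_right _ hpos.le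
          have : 0 ≤ C1 * (1 + R) ^ v * Real.exp (B * R) := by positivity
          linarith
  · have hr : 0 < r := by
      rcases hr0.lt_or_eq with h | h
      · exact h
      · rw [← h, mul_zero] at hlr
        linarith
    have h1 : Rg v l r = Gr v l r - Sg v l r := by
      rw [Gr_eq v l r hr]
      ring
    have h2 : 1 / r ^ (2 * v + 1) ≤ (1 + ‖l‖) ^ (2 * v + 1) := by
      rw [← one_div_pow]
      apply pow_le_pow_left₀ (by positivity)
      rw [div_le_iff₀ hr]
      nlinarith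
    have h3 : ‖Gr v l r‖ ≤ C1 * (1 + R) ^ v * Real.exp (B * R) * (1 + ‖l‖) ^ (4 * v + 1) := by
      refine (hG l r hr0).trans ?_
      have h4 : (1 + ‖l‖ * r) ^ v ≤ (1 + R) ^ v * (1 + ‖l‖) ^ v := by
        rw [← mul_pow]
        apply pow_le_pow_left₀ (by positivity)
        nlinarith [mul_le_mul_of_nonneg_left hrR hL]
      have h5 : Real.exp (-l.im * r) ≤ Real.exp (B * R) := by
        apply Real.exp_le_exp.2
        calc -l.im * r ≤ B * r := by
              apply mul_le_mul_of_nonneg_right _ hr0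
              linarith
          _ ≤ B * R := mul_le_mul_of_nonneg_left hrR hB
      calc C1 * (1 + ‖l‖ * r) ^ v * Real.exp (-l.im * r) / r ^ (2 * v + 1)
          = C1 * (1 + ‖l‖ * r) ^ v * Real.exp (-l.im * r) * (1 / r ^ (2 * v + 1)) := by ring
        _ ≤ C1 * ((1 + R) ^ v * (1 + ‖l‖) ^ v) * Real.exp (B * R) * (1 + ‖l‖) ^ (2 * v + 1) := by
            gcongr
        _ = C1 * (1 + R) ^ v * Real.exp (B * R) * (1 + ‖l‖) ^ (v + (2 * v + 1)) := by
            rw [pow_add]
            ring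
        _ ≤ _ := by
            apply mul_le_mul_of_nonneg_left _ (by positivity)
            exact pow_le_pow_right₀ (by linarith) (by omega)
    have h6 : ‖Sg v l r‖ ≤ C2 * (1 + ‖l‖) ^ (4 * v + 1) := by
      refine (hS l r hr0 hrR).trans ?_
      calc C2 * (1 + ‖l‖) ^ (2 * v) / r ^ (2 * v + 1)
          = C2 * (1 + ‖l‖) ^ (2 * v) * (1 / r ^ (2 * v + 1)) := by ring
        _ ≤ C2 * (1 + ‖l‖) ^ (2 * v) * (1 + ‖l‖) ^ (2 * v + 1) := by gcongr
        _ = C2 * (1 + ‖l‖) ^ (2 * v + (2 * v + 1)) := by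
            rw [pow_add]
            ring
        _ = _ := by
            congr 2
            ring
    rw [h1]
    refine (norm_sub_le _ _).trans ?_
    have h7 : 0 ≤ Real.exp 1 * (1 + ‖l‖) ^ (4 * v + 1) := by positivity
    nlinarith

end Pool.Agent.H269
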