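import Pool.Agent.H269.DefsG
import Pool.Agent.H269.GN.G025

/-!
# GN-27 the difference of incoming and outgoing Green functions (MP_f2af60_mp, infinitely many resonances in odd dimension)
-/

set_option autoImplicit false

open MeasureTheory Filter Topology Complex
open scoped InnerProductSpace ENNReal NNReal

namespace Pool.Agent.H269



theorem cg_den (v : ℕ) : (2 : ℝ) ≤ 4 * Real.pi * (2 * Real.pi) ^ v := by
  have h1 : (3 : ℝ) < Real.pi := Real.pi_gt_three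
  have h2 : (1 : ℝ) ≤ (2 * Real.pi) ^ v := one_le_pow₀ (by linarith)
  nlinarith

theorem cg_den_norm (v : ℕ) : ‖(4 * (Real.pi : ℂ) * (2 * (Real.pi : ℂ)) ^ v)‖ =
    4 * Real.pi * (2 * Real.pi) ^ v := by
  have h1 : (0 : ℝ) < Real.pi := Real.pi_pos
  have h2 : (4 * (Real.pi : ℂ) * (2 * (Real.pi : ℂ)) ^ v) =
      ((4 * Real.pi * (2 * Real.pi) ^ v : ℝ) : ℂ) := by push_cast; ring
  rw [h2, Complex.norm_real, Real.norm_of_nonneg (by positivity)]

theorem cg_den_ne (v : ℕ) : (4 * (Real.pi : ℂ) * (2 * (Real.pi : ℂ)) ^ v) ≠ 0 := by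
  rw [← norm_ne_zero_iff, cg_den_norm]
  linarith [cg_den v]

theorem cg_bound (v : ℕ) (l : ℂ) (j : ℕ) :
    ‖cg v l j‖ ≤ ‖l‖ ^ (2 * v + 1 + 2 * j) / ((2 * j + 1).factorial : ℝ) := by
  unfold cg
  rw [norm_div, cg_den_norm, norm_mul, norm_mul, norm_pow, norm_neg, norm_neg, norm_mul,
    Complex.norm_I, one_mul, Complex.norm_real, Real.norm_eq_abs]
  have h2 : ‖(2 : ℂ)‖ = 2 := by simp
  rw [h2]
  have h1 := cg_den v
  have h3 := ct_bound v (2 * j)
  have hf : (0 : ℝ) < ((2 * j + 1).factorial : ℝ) := by exact_mod_cast Nat.factorial_pos _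
  have h4 : 0 ≤ ‖l‖ ^ (2 * v + 1 + 2 * j) := by positivity
  have hD : (0 : ℝ) < 4 * Real.pi * (2 * Real.pi) ^ v := by linarith
  rw [div_le_iff₀ hD]
  calc 2 * |ct v (2 * v + 1 + 2 * j)| * ‖l‖ ^ (2 * v + 1 + 2 * j) ≤
        2 * (1 / ((2 * j + 1).factorial : ℝ)) * ‖l‖ ^ (2 * v + 1 + 2 * j) :=
          mul_le_mul_of_nonneg_right (by linarith) h4
    _ = ‖l‖ ^ (2 * v + 1 + 2 * j) / ((2 * j + 1).factorial : ℝ) * 2 := by ring
    _ ≤ _ := mul_le_mul_of_nonneg_left h1 (by positivity)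

theorem Jg_summable (v : ℕ) (l : ℂ) (r : ℝ) :
    Summable (fun j : ℕ => cg v l j * (r : ℂ) ^ (2 * j)) := by
  have hs : Summable (fun j : ℕ => ‖l‖ ^ (2 * v + 1) * (((‖l‖ * |r|) ^ 2) ^ j /
      (j.factorial : ℝ))) :=
    (Real.summable_pow_div_factorial ((‖l‖ * |r|) ^ 2)).mul_left _
  refine Summable.of_norm_bounded hs fun j => ?_
  rw [norm_mul, norm_pow, Complex.norm_real, Real.norm_eq_abs]
  have h1 := cg_bound v l j
  have hf : (0 : ℝ) < (j.factorial : ℝ) := by exact_mod_cast Nat.factorial_pos _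
  have hf2 : (j.factorial : ℝ) ≤ ((2 * j + 1).factorial : ℝ) := by
    exact_mod_cast Nat.factorial_le (by omega)
  have h2 : ‖l‖ ^ (2 * v + 1 + 2 * j) / ((2 * j + 1).factorial : ℝ) ≤
      ‖l‖ ^ (2 * v + 1 + 2 * j) / (j.factorial : ℝ) :=
    div_le_div_of_nonneg_left (by positivity) hf hf2
  calc ‖cg v l j‖ * |r| ^ (2 * j) ≤ ‖l‖ ^ (2 * v + 1 + 2 * j) / (j.factorial : ℝ) *
        |r| ^ (2 * j) := mul_le_mul_of_nonneg_right (h1.trans h2) (by positivity)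
    _ = _ := by
      rw [pow_add, ← pow_mul, mul_pow]
      ring

theorem Jg_hasSum (v : ℕ) (l : ℂ) (r : ℝ) (hr : 0 < r) :
    HasSum (fun j : ℕ => cg v l j * (r : ℂ) ^ (2 * j)) (Gr v (-l) r - Gr v l r) := by
  obtain ⟨w, hw⟩ : ∃ w : ℂ, w = -(I * l * r) := ⟨_, rfl⟩
  have hrc : (r : ℂ) ≠ 0 := by exact_mod_cast hr.ne'
  have h1 := exp_th_series v w
  have h2 := exp_th_series v (-w)
  have h3 := h2.sub h1
  have hinj : Function.Injective (fun j : ℕ => 2 * v + 1 + 2 * j) := by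
    intro a b hab
    simp only at hab
    omega
  have h4 : HasSum ((fun i : ℕ => (ct v i : ℂ) * (-w) ^ i - (ct v i : ℂ) * w ^ i) ∘
      (fun j : ℕ => 2 * v + 1 + 2 * j))
      (cexp (-(-w)) * th v (-w) - cexp (-w) * th v w) := by
    refine (hinj.hasSum_iff ?_).2 h3
    intro i hi
    rcases Nat.even_or_odd i with he | ho
    · rw [he.neg_pow, sub_self]
    · by_cases hlt : i < 2 * v + 1
      · rw [ct_odd v i ho hlt]; simp
      · exfalso
        apply hi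
        obtain ⟨m, hm⟩ := ho
        exact ⟨m - v, by simp only; omega⟩
  have h5 := h4.div_const (4 * (Real.pi : ℂ) * (2 * (Real.pi : ℂ)) ^ v * (r : ℂ) ^ (2 * v + 1))
  have e1 : (cexp (-(-w)) * th v (-w) - cexp (-w) * th v w) /
      (4 * (Real.pi : ℂ) * (2 * (Real.pi : ℂ)) ^ v * (r : ℂ) ^ (2 * v + 1)) =
      Gr v (-l) r - Gr v l r := by
    unfold Gr
    have a1 : I * -l * (r : ℂ) = -(-w) := by rw [hw]; ring
    have a2 : I * l * (r : ℂ) = -w := by rw [hw]; ring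
    rw [a1, a2, neg_neg w, sub_div]
  have e2 : (fun j : ℕ => cg v l j * (r : ℂ) ^ (2 * j)) = fun j =>
      ((fun i : ℕ => (ct v i : ℂ) * (-w) ^ i - (ct v i : ℂ) * w ^ i) ∘
      (fun j : ℕ => 2 * v + 1 + 2 * j)) j /
      (4 * (Real.pi : ℂ) * (2 * (Real.pi : ℂ)) ^ v * (r : ℂ) ^ (2 * v + 1)) := by
    funext j
    simp only [Function.comp_apply]
    have ho : Odd (2 * v + 1 + 2 * j) := ⟨v + j, by ring⟩
    have hD := cg_den_ne v
    have hR : (r : ℂ) ^ (2 * v + 1) ≠ 0 := pow_ne_zero _ hrc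
    rw [ho.neg_pow]
    unfold cg
    have a3 : w ^ (2 * v + 1 + 2 * j) = (-(I * l)) ^ (2 * v + 1 + 2 * j) *
        ((r : ℂ) ^ (2 * v + 1) * (r : ℂ) ^ (2 * j)) := by
      rw [← pow_add, ← mul_pow, hw]
      congr 1
      ring
    rw [a3]
    rw [eq_div_iff (mul_ne_zero hD hR), div_mul_eq_mul_div, div_mul_eq_mul_div, div_eq_iff hD]
    ring
  rw [e2, ← e1]
  exact h5

theorem Jg_eq (v : ℕ) (l : ℂ) (r : ℝ) (hr : 0 < r) : Jg v l r = Gr v (-l) r - Gr v l r := by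
  unfold Jg
  exact (Jg_hasSum v l r hr).tsum_eq

theorem Jg_zero (v : ℕ) (l : ℂ) : Jg v l 0 = Rg v (-l) 0 - Rg v l 0 := by
  rw [Rg_zero, Rg_zero]
  unfold Jg
  rw [tsum_eq_single 0]
  · have ho : Odd (2 * v + 1) := ⟨v, rfl⟩
    have a1 : -(I * -l) = -(-(I * l)) := by ring
    rw [a1, ho.neg_pow (-(I * l))]
    unfold cg
    simp only [mul_zero, add_zero, pow_zero, mul_one]
    ring
  · intro j hj
    have h1 : 2 * j ≠ 0 := by omega
    rw [Complex.ofReal_zero, zero_pow h1, mul_zero]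

end Pool.Agent.H269
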