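import Pool.Agent.H269.DefsG
import Pool.Agent.H269.GN.G020
import Pool.Agent.H269.GN.G021
import Pool.Agent.H269.GN.G022
import Pool.Agent.H269.GN.G028
import Pool.Agent.H269.R5.J15
import Pool.Agent.H269.R5.J16
import Pool.Agent.H269.R5.J17

/-!
# GN-29 powers of kernel operators dominated by the Green function are HS (MP_f2af60_mp, infinitely many resonances in odd dimension)
-/

set_option autoImplicit false

open MeasureTheory Filter Topology Complex
open scoped InnerProductSpace ENNReal NNReal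

namespace Pool.Agent.H269


section aux3385

theorem measurable_prodKer_3385 {E : Type} [MeasurableSpace E] {μ : Measure E} [IsFiniteMeasure μ]
    {k m : E → E → ℂ} (hk : Measurable (Function.uncurry k))
    (hm : Measurable (Function.uncurry m)) :
    Measurable (Function.uncurry fun x y => ∫ z, k x z * m z y ∂μ) := by
  have h1 : Measurable (fun p : (E × E) × E => k p.1.1 p.2 * m p.2 p.1.2) := by
    have e1 : Measurable (fun p : (E × E) × E => k p.1.1 p.2) :=
      hk.comp (measurable_fst.fst.prodMk measurable_snd)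
    have e2 : Measurable (fun p : (E × E) × E => m p.2 p.1.2) :=
      hm.comp (measurable_snd.prodMk measurable_fst.snd)
    exact e1.mul e2
  exact (h1.stronglyMeasurable.integral_prod_right' (ν := μ)).measurable

theorem isKer_mul_3385 {E : Type} [MeasurableSpace E] {μ : Measure E} [IsFiniteMeasure μ]
    {k m : E → E → ℂ} (hk : Measurable (Function.uncurry k))
    (hm : Measurable (Function.uncurry m)) {S : ℝ≥0∞} (hS : S ≠ ∞)
    (h1 : ∀ z, ∫⁻ x, ‖k x z‖ₑ ∂μ ≤ S) (h2 : ∀ y, ∫⁻ z, ‖m z y‖ₑ ∂μ ≤ S)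
    {A B : Lp ℂ 2 μ →L[ℂ] Lp ℂ 2 μ} (hA : IsKer μ k A) (hB : IsKer μ m B) :
    IsKer μ (fun x y => ∫ z, k x z * m z y ∂μ) (A * B) := by
  intro f
  have hf : Measurable (f : E → ℂ) := (Lp.stronglyMeasurable f).measurable
  have hfint : Integrable (f : E → ℂ) μ :=
    (Lp.memLp f).integrable (by norm_num)
  have hkz : ∀ z, Measurable (fun x => ‖k x z‖ₑ) := fun z =>
    (hk.comp (measurable_id.prodMk measurable_const)).enorm
  have hkx : ∀ x, Measurable (fun z => k x z) := fun x =>
    hk.comp (measurable_const.prodMk measurable_id)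
  have hmz : ∀ z, Measurable (fun y => m z y) := fun z =>
    hm.comp (measurable_const.prodMk measurable_id)
  have hmy : ∀ y, Measurable (fun z => ‖m z y‖ₑ) := fun y =>
    (hm.comp (measurable_id.prodMk measurable_const)).enorm
  have hgm : Measurable (Function.uncurry fun z y => ‖m z y‖ₑ * ‖f y‖ₑ) :=
    hm.enorm.mul (hf.comp measurable_snd).enorm
  set g : E → ℝ≥0∞ := fun z => ∫⁻ y, ‖m z y‖ₑ * ‖f y‖ₑ ∂μ with hg
  have hgmeas : Measurable g := hgm.lintegral_prod_right'
  have hgfin : ∫⁻ z, g z ∂μ ≤ S * ∫⁻ y, ‖f y‖ₑ ∂μ := by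
    rw [hg, lintegral_lintegral_swap hgm.aemeasurable]
    calc ∫⁻ y, ∫⁻ z, ‖m z y‖ₑ * ‖f y‖ₑ ∂μ ∂μ = ∫⁻ y, (∫⁻ z, ‖m z y‖ₑ ∂μ) * ‖f y‖ₑ ∂μ := by
          refine lintegral_congr fun y => ?_
          rw [lintegral_mul_const _ (hmy y)]
      _ ≤ ∫⁻ y, S * ‖f y‖ₑ ∂μ := lintegral_mono fun y => by gcongr; exact h2 y
      _ = S * ∫⁻ y, ‖f y‖ₑ ∂μ := lintegral_const_mul _ hf.enorm
  have hkg : Measurable (Function.uncurry fun x z => ‖k x z‖ₑ * g z) :=
    hk.enorm.mul (hgmeas.comp measurable_snd)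
  have htot : ∫⁻ x, ∫⁻ z, ‖k x z‖ₑ * g z ∂μ ∂μ ≠ ∞ := by
    rw [lintegral_lintegral_swap hkg.aemeasurable]
    refine ne_top_of_le_ne_top (b := S * (S * ∫⁻ y, ‖f y‖ₑ ∂μ)) ?_ ?_
    · refine ENNReal.mul_ne_top hS (ENNReal.mul_ne_top hS ?_)
      exact hfint.hasFiniteIntegral.ne
    · calc ∫⁻ z, ∫⁻ x, ‖k x z‖ₑ * g z ∂μ ∂μ = ∫⁻ z, (∫⁻ x, ‖k x z‖ₑ ∂μ) * g z ∂μ := by
            refine lintegral_congr fun z => ?_
            rw [lintegral_mul_const _ (hkz z)]
        _ ≤ ∫⁻ z, S * g z ∂μ := lintegral_mono fun z => by gcongr; exact h1 z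
        _ = S * ∫⁻ z, g z ∂μ := lintegral_const_mul _ hgmeas
        _ ≤ _ := by gcongr
  have hae : ∀ᵐ x ∂μ, ∫⁻ z, ‖k x z‖ₑ * g z ∂μ < ∞ :=
    ae_lt_top hkg.lintegral_prod_right' htot
  have hint : ∀ᵐ x ∂μ, Integrable
      (Function.uncurry fun z y => k x z * m z y * f y) (μ.prod μ) := by
    filter_upwards [hae] with x hx
    have hmeas : Measurable (Function.uncurry fun z y => k x z * m z y * f y) :=
      (((hkx x).comp measurable_fst).mul hm).mul (hf.comp measurable_snd)
    refine ⟨hmeas.aestronglyMeasurable, ?_⟩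
    unfold HasFiniteIntegral
    rw [lintegral_prod _ hmeas.enorm.aemeasurable]
    refine lt_of_le_of_lt (le_of_eq ?_) hx
    refine lintegral_congr fun z => ?_
    rw [hg]
    simp only [Function.uncurry_apply_pair]
    have hmf : Measurable (fun y => ‖m z y‖ₑ * ‖f y‖ₑ) := ((hmz z).enorm).mul hf.enorm
    rw [← lintegral_const_mul _ hmf]
    refine lintegral_congr fun y => ?_
    rw [enorm_mul, enorm_mul, mul_assoc]
  have hB2 := (hB f).2
  have hA2 := (hA (B f)).2
  constructor
  · filter_upwards [hint] with x hx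
    refine hx.integral_prod_right.congr ?_
    refine Eventually.of_forall fun y => ?_
    simp only [Function.uncurry_apply_pair]
    rw [integral_mul_const]
  · change (A (B f) : E → ℂ) =ᵐ[μ] _
    filter_upwards [hA2, hint] with x hx hx'
    rw [hx]
    calc ∫ z, k x z * (B f : E → ℂ) z ∂μ = ∫ z, ∫ y, k x z * m z y * f y ∂μ ∂μ := by
          refine integral_congr_ae ?_
          filter_upwards [hB2] with z hz
          rw [hz, ← integral_const_mul]
          refine integral_congr_ae (Eventually.of_forall fun y => ?_)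
          simp only
          rw [mul_assoc]
      _ = ∫ y, ∫ z, k x z * m z y * f y ∂μ ∂μ := integral_integral_swap hx'
      _ = _ := by
          refine integral_congr_ae (Eventually.of_forall fun y => ?_)
          simp only
          rw [integral_mul_const]

instance finmu3385 (v : ℕ) (R : ℝ) : IsFiniteMeasure (muV v R) :=
  ⟨by rw [Measure.restrict_apply_univ]; exact measure_closedBall_lt_top⟩

/-- the weight `t ^ m / m! * exp (- κ ^ 2 * t)` -/
noncomputable def G3385 (κ : ℝ) (m : ℕ) (t : ℝ) : ℝ≥0∞ :=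
  ENNReal.ofReal (t ^ m / (m.factorial : ℝ) * Real.exp (-κ ^ 2 * t))

/-- the heat kernel as a lower real function -/
noncomputable def h3385 (v : ℕ) (t : ℝ) (x : EV v) : ℝ≥0∞ := ENNReal.ofReal (hk v t ‖x‖)

/-- iterated Green functions -/
noncomputable def gam3385 (v : ℕ) (κ : ℝ) (m : ℕ) (x : EV v) : ℝ≥0∞ :=
  ∫⁻ t in Set.Ioi (0 : ℝ), G3385 κ m t * h3385 v t x

theorem measurable_G3385 (κ : ℝ) (m : ℕ) : Measurable (G3385 κ m) := by
  unfold G3385
  fun_prop

theorem measurable_h3385 (v : ℕ) : Measurable (fun p : ℝ × EV v => h3385 v p.1 p.2) := by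
  unfold h3385 hk
  fun_prop

theorem measurable_gam3385 (v : ℕ) (κ : ℝ) (m : ℕ) : Measurable (gam3385 v κ m) := by
  have h1 : Measurable (fun p : EV v × ℝ => G3385 κ m p.2 * h3385 v p.2 p.1) :=
    ((measurable_G3385 κ m).comp measurable_snd).mul
      ((measurable_h3385 v).comp (measurable_snd.prodMk measurable_fst))
  exact h1.lintegral_prod_right' (ν := volume.restrict (Set.Ioi (0 : ℝ)))

/-- the inner time integral -/
theorem inner_3385 (κ : ℝ) (m : ℕ) (u : ℝ) (hu : 0 < u) :
    ∫⁻ s in Set.Ioo (0 : ℝ) u, G3385 κ 0 s * G3385 κ m (u - s) = G3385 κ (m + 1) u := by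
  have h1 : ∫⁻ s in Set.Ioo (0 : ℝ) u, G3385 κ 0 s * G3385 κ m (u - s) =
      ∫⁻ s in Set.Ioo (0 : ℝ) u,
        ENNReal.ofReal ((u - s) ^ m / (m.factorial : ℝ) * Real.exp (-κ ^ 2 * u)) := by
    refine setLIntegral_congr_fun measurableSet_Ioo fun s hs => ?_
    unfold G3385
    rw [← ENNReal.ofReal_mul (by positivity)]
    congr 1
    have : Real.exp (-κ ^ 2 * u) = Real.exp (-κ ^ 2 * s) * Real.exp (-κ ^ 2 * (u - s)) := by
      rw [← Real.exp_add]; congr 1; ring
    rw [this]
    simp only [pow_zero, Nat.factorial_zero, Nat.cast_one, div_one, one_mul]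
    ring
  rw [h1]
  have h2 : ∫ s in Set.Ioo (0 : ℝ) u, (u - s) ^ m / (m.factorial : ℝ) * Real.exp (-κ ^ 2 * u) =
      u ^ (m + 1) / ((m + 1).factorial : ℝ) * Real.exp (-κ ^ 2 * u) := by
    rw [← integral_Ioc_eq_integral_Ioo, ← intervalIntegral.integral_of_le hu.le]
    have h3 : ∫ s in (0 : ℝ)..u, (u - s) ^ m = u ^ (m + 1) / ((m : ℝ) + 1) := by
      rw [intervalIntegral.integral_comp_sub_left (fun x => x ^ m) u]
      simp
    rw [intervalIntegral.integral_mul_const, intervalIntegral.integral_div, h3,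
      Nat.factorial_succ]
    push_cast
    rw [div_div]
  rw [G3385, ← h2, ofReal_integral_eq_lintegral_ofReal]
  · have hc : Continuous (fun s : ℝ => (u - s) ^ m / (m.factorial : ℝ) *
        Real.exp (-κ ^ 2 * u)) := by fun_prop
    exact hc.integrableOn_Icc.mono_set Set.Ioo_subset_Icc_self
  · rw [EventuallyLE, ae_restrict_iff' measurableSet_Ioo]
    refine Eventually.of_forall fun s hs => ?_
    have : 0 ≤ u - s := by linarith [hs.2]
    simp only [Pi.zero_apply]
    positivity

theorem time_3385 (κ : ℝ) (m : ℕ) (F : ℝ → ℝ≥0∞) (hF : Measurable F) :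
    ∫⁻ s in Set.Ioi (0 : ℝ), ∫⁻ t in Set.Ioi (0 : ℝ), G3385 κ 0 s * G3385 κ m t * F (s + t) =
      ∫⁻ u in Set.Ioi (0 : ℝ), G3385 κ (m + 1) u * F u := by
  have hG0 := measurable_G3385 κ 0
  have hGm := measurable_G3385 κ m
  have e1 : ∀ s : ℝ, ∫⁻ t in Set.Ioi (0 : ℝ), G3385 κ 0 s * G3385 κ m t * F (s + t) =
      ∫⁻ u, (Set.Ioi s).indicator (fun u => G3385 κ 0 s * G3385 κ m (u - s) * F u) u := by
    intro s
    rw [← lintegral_indicator measurableSet_Ioi, ← lintegral_sub_right_eq_self _ s]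
    refine lintegral_congr fun u => ?_
    by_cases hu : s < u
    · rw [Set.indicator_of_mem, Set.indicator_of_mem]
      · congr 2; ring
      · exact hu
      · simpa using hu
    · rw [Set.indicator_of_notMem, Set.indicator_of_notMem]
      · simpa using hu
      · simpa using hu
  simp_rw [e1]
  rw [← lintegral_indicator measurableSet_Ioi]
  have e2 : ∀ s : ℝ, (Set.Ioi (0 : ℝ)).indicator (fun s => ∫⁻ u, (Set.Ioi s).indicator
      (fun u => G3385 κ 0 s * G3385 κ m (u - s) * F u) u) s =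
      ∫⁻ u, {p : ℝ × ℝ | 0 < p.1 ∧ p.1 < p.2}.indicator
        (fun p => G3385 κ 0 p.1 * G3385 κ m (p.2 - p.1) * F p.2) (s, u) := by
    intro s
    by_cases hs : 0 < s
    · rw [Set.indicator_of_mem (by exact hs)]
      refine lintegral_congr fun u => ?_
      by_cases hu : s < u
      · rw [Set.indicator_of_mem (by exact hu), Set.indicator_of_mem (by exact ⟨hs, hu⟩)]
      · rw [Set.indicator_of_notMem (by simpa using hu),
          Set.indicator_of_notMem (by rintro ⟨-, h⟩; exact hu h)]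
    · rw [Set.indicator_of_notMem (by simpa using hs)]
      symm
      rw [lintegral_eq_zero_iff']
      · refine Eventually.of_forall fun u => ?_
        simp only [Pi.zero_apply]
        rw [Set.indicator_of_notMem]
        rintro ⟨h, -⟩
        exact hs h
      · have : (fun u : ℝ => {p : ℝ × ℝ | 0 < p.1 ∧ p.1 < p.2}.indicator
          (fun p => G3385 κ 0 p.1 * G3385 κ m (p.2 - p.1) * F p.2) (s, u)) = fun _ => 0 := by
          funext u
          rw [Set.indicator_of_notMem]
          rintro ⟨h, -⟩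
          exact hs h
        rw [this]
        exact aemeasurable_const
  simp_rw [e2]
  have hset : MeasurableSet {p : ℝ × ℝ | 0 < p.1 ∧ p.1 < p.2} :=
    (measurableSet_lt measurable_const measurable_fst).inter
      (measurableSet_lt measurable_fst measurable_snd)
  have hmeas : Measurable ({p : ℝ × ℝ | 0 < p.1 ∧ p.1 < p.2}.indicator
        (fun p => G3385 κ 0 p.1 * G3385 κ m (p.2 - p.1) * F p.2)) := by
    refine Measurable.indicator ?_ hset
    exact ((hG0.comp measurable_fst).mul (hGm.comp (measurable_snd.sub measurable_fst))).mul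
      (hF.comp measurable_snd)
  rw [lintegral_lintegral_swap (f := fun s u => {p : ℝ × ℝ | 0 < p.1 ∧ p.1 < p.2}.indicator
        (fun p => G3385 κ 0 p.1 * G3385 κ m (p.2 - p.1) * F p.2) (s, u)) hmeas.aemeasurable]
  rw [← lintegral_indicator measurableSet_Ioi]
  refine lintegral_congr fun u => ?_
  by_cases hu : 0 < u
  · rw [Set.indicator_of_mem (by exact hu), ← inner_3385 κ m u hu]
    rw [← lintegral_mul_const]
    · rw [← lintegral_indicator measurableSet_Ioo]
      refine lintegral_congr fun s => ?_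
      by_cases hs : s ∈ Set.Ioo (0 : ℝ) u
      · rw [Set.indicator_of_mem hs, Set.indicator_of_mem (by exact hs)]
      · rw [Set.indicator_of_notMem hs, Set.indicator_of_notMem (by exact hs)]
    · exact hG0.mul (hGm.comp (measurable_const.sub measurable_id))
  · rw [Set.indicator_of_notMem (by simpa using hu)]
    have : (fun s : ℝ => {p : ℝ × ℝ | 0 < p.1 ∧ p.1 < p.2}.indicator
          (fun p => G3385 κ 0 p.1 * G3385 κ m (p.2 - p.1) * F p.2) (s, u)) = fun _ => 0 := by
      funext s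
      rw [Set.indicator_of_notMem]
      rintro ⟨h1, h2⟩
      exact hu (h1.trans h2)
    rw [this]
    simp

theorem conv_3385 (v : ℕ) (κ : ℝ) (m : ℕ) (x z : EV v) :
    ∫⁻ y : EV v, gam3385 v κ 0 (x - y) * gam3385 v κ m (y - z) = gam3385 v κ (m + 1) (x - z) := by
  have hG0 := measurable_G3385 κ 0
  have hGm := measurable_G3385 κ m
  have hh := measurable_h3385 v
  have hht : ∀ y : EV v, Measurable (fun t : ℝ => h3385 v t y) := fun y =>
    hh.comp (measurable_id.prodMk measurable_const)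
  have hhy : ∀ t : ℝ, Measurable (fun y : EV v => h3385 v t y) := fun t =>
    hh.comp (measurable_const.prodMk measurable_id)
  have e1 : ∀ y : EV v, gam3385 v κ 0 (x - y) * gam3385 v κ m (y - z) =
      ∫⁻ s in Set.Ioi (0 : ℝ), ∫⁻ t in Set.Ioi (0 : ℝ),
        (G3385 κ 0 s * h3385 v s (x - y)) * (G3385 κ m t * h3385 v t (y - z)) := by
    intro y
    unfold gam3385
    have m1 : Measurable (fun t : ℝ => G3385 κ 0 t * h3385 v t (x - y)) := hG0.mul (hht (x - y))
    have m2 : Measurable (fun t : ℝ => G3385 κ m t * h3385 v t (y - z)) := hGm.mul (hht (y - z))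
    rw [← lintegral_mul_const _ m1]
    refine lintegral_congr fun s => ?_
    rw [lintegral_const_mul _ m2]
  simp_rw [e1]
  have hF3 : Measurable (fun p : (EV v × ℝ) × ℝ =>
      (G3385 κ 0 p.1.2 * h3385 v p.1.2 (x - p.1.1)) *
        (G3385 κ m p.2 * h3385 v p.2 (p.1.1 - z))) := by
    refine Measurable.mul (Measurable.mul (hG0.comp measurable_fst.snd) ?_)
      (Measurable.mul (hGm.comp measurable_snd) ?_)
    · exact hh.comp (measurable_fst.snd.prodMk (measurable_const.sub measurable_fst.fst))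
    · exact hh.comp (measurable_snd.prodMk (measurable_fst.fst.sub measurable_const))
  rw [lintegral_lintegral_swap]
  swap
  · exact (hF3.lintegral_prod_right' (ν := volume.restrict (Set.Ioi (0 : ℝ)))).aemeasurable
  have e2 : ∀ s ∈ Set.Ioi (0 : ℝ), ∫⁻ y : EV v, ∫⁻ t in Set.Ioi (0 : ℝ),
        (G3385 κ 0 s * h3385 v s (x - y)) * (G3385 κ m t * h3385 v t (y - z)) =
      ∫⁻ t in Set.Ioi (0 : ℝ), G3385 κ 0 s * G3385 κ m t * h3385 v (s + t) (x - z) := by
    intro s hs
    rw [lintegral_lintegral_swap]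
    swap
    · refine Measurable.aemeasurable ?_
      refine Measurable.mul (Measurable.mul measurable_const ?_)
        (Measurable.mul (hGm.comp measurable_snd) ?_)
      · exact hh.comp (measurable_const.prodMk (measurable_const.sub measurable_fst))
      · exact hh.comp (measurable_snd.prodMk (measurable_fst.sub measurable_const))
    refine setLIntegral_congr_fun measurableSet_Ioi fun t ht => ?_
    have e3 : ∀ y : EV v, (G3385 κ 0 s * h3385 v s (x - y)) * (G3385 κ m t * h3385 v t (y - z)) =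
        (G3385 κ 0 s * G3385 κ m t) * (h3385 v s (x - y) * h3385 v t (y - z)) := fun y => by ring
    simp_rw [e3]
    rw [lintegral_const_mul]
    · congr 1
      exact hk_semigroup v s t hs ht x z
    · exact ((hhy s).comp (measurable_const.sub measurable_id)).mul
        ((hhy t).comp (measurable_id.sub measurable_const))
  rw [setLIntegral_congr_fun measurableSet_Ioi e2]
  exact time_3385 κ m (fun u => h3385 v u (x - z)) (hht (x - z))

theorem integrable_G3385 (κ : ℝ) (hκ : 0 < κ) (a : ℝ) (ha : 0 < a) :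
    ∫⁻ t in Set.Ioi (0 : ℝ), ENNReal.ofReal (t ^ (a - 1) * Real.exp (-κ ^ 2 * t)) =
      ENNReal.ofReal ((1 / κ ^ 2) ^ a * Real.Gamma a) := by
  have h := Real.integral_rpow_mul_exp_neg_mul_Ioi ha (r := κ ^ 2) (by positivity)
  have h' : ∫ t in Set.Ioi (0 : ℝ), t ^ (a - 1) * Real.exp (-κ ^ 2 * t) =
      (1 / κ ^ 2) ^ a * Real.Gamma a := by
    rw [← h]
    refine integral_congr_ae (Eventually.of_forall fun t => ?_)
    simp only [neg_mul]
  rw [← h', ofReal_integral_eq_lintegral_ofReal]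
  · refine Integrable.of_integral_ne_zero ?_
    rw [h']
    have := Real.Gamma_pos_of_pos ha
    positivity
  · rw [EventuallyLE, ae_restrict_iff' measurableSet_Ioi]
    refine Eventually.of_forall fun t ht => ?_
    have : (0 : ℝ) < t := ht
    simp only [Pi.zero_apply]
    positivity

theorem lint_G3385 (κ : ℝ) (hκ : 0 < κ) (m : ℕ) :
    ∫⁻ t in Set.Ioi (0 : ℝ), G3385 κ m t ≠ ∞ := by
  have h := integrable_G3385 κ hκ (m + 1) (by positivity)
  refine ne_top_of_le_ne_top (b := ENNReal.ofReal ((1 / κ ^ 2) ^ ((m : ℝ) + 1) *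
    Real.Gamma ((m : ℝ) + 1))) ENNReal.ofReal_ne_top ?_
  rw [← h]
  refine setLIntegral_mono' measurableSet_Ioi fun t ht => ?_
  have ht' : (0 : ℝ) < t := ht
  unfold G3385
  refine ENNReal.ofReal_le_ofReal ?_
  have e : t ^ ((m : ℝ) + 1 - 1) = t ^ m := by
    rw [add_sub_cancel_right, Real.rpow_natCast]
  rw [e]
  have h1 : (1 : ℝ) ≤ (m.factorial : ℝ) := by exact_mod_cast Nat.succ_le_of_lt m.factorial_pos
  gcongr
  exact div_le_self (by positivity) h1

theorem lint_gam3385 (v : ℕ) (κ : ℝ) (hκ : 0 < κ) (m : ℕ) :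
    ∫⁻ x : EV v, gam3385 v κ m x ≠ ∞ := by
  have hGm := measurable_G3385 κ m
  have hh := measurable_h3385 v
  have hhy : ∀ t : ℝ, Measurable (fun y : EV v => h3385 v t y) := fun t =>
    hh.comp (measurable_const.prodMk measurable_id)
  have e : ∫⁻ x : EV v, gam3385 v κ m x = ∫⁻ t in Set.Ioi (0 : ℝ), G3385 κ m t := by
    unfold gam3385
    rw [lintegral_lintegral_swap]
    swap
    · exact ((hGm.comp measurable_snd).mul
        (hh.comp (measurable_snd.prodMk measurable_fst))).aemeasurable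
    refine setLIntegral_congr_fun measurableSet_Ioi fun t ht => ?_
    rw [lintegral_const_mul _ (hhy t)]
    have := hk_int v t ht
    unfold h3385
    rw [this, mul_one]
  rw [e]
  exact lint_G3385 κ hκ m

theorem gam_bound_3385 (v : ℕ) (κ : ℝ) (hκ : 0 < κ) (x : EV v) :
    gam3385 v κ (2 * v + 2) x ≤
      ENNReal.ofReal (Real.Gamma ((v : ℝ) + 3 / 2) / κ ^ (2 * v + 3)) := by
  have h := integrable_G3385 κ hκ ((v : ℝ) + 3 / 2) (by positivity)
  have e : (1 / κ ^ 2) ^ ((v : ℝ) + 3 / 2) * Real.Gamma ((v : ℝ) + 3 / 2) =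
      Real.Gamma ((v : ℝ) + 3 / 2) / κ ^ (2 * v + 3) := by
    rw [one_div, ← Real.rpow_natCast κ 2, ← Real.rpow_neg hκ.le, ← Real.rpow_mul hκ.le,
      show (-((2 : ℕ) : ℝ) * ((v : ℝ) + 3 / 2)) = -((2 * v + 3 : ℕ) : ℝ) by push_cast; ring,
      Real.rpow_neg hκ.le, Real.rpow_natCast]
    exact (div_eq_inv_mul _ _).symm
  rw [← e, ← h]
  unfold gam3385 G3385 h3385 hk
  refine setLIntegral_mono' measurableSet_Ioi fun t ht => ?_
  have ht' : (0 : ℝ) < t := ht
  rw [← ENNReal.ofReal_mul (by positivity)]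
  refine ENNReal.ofReal_le_ofReal ?_
  have h1 : (1 : ℝ) ≤ ((2 * v + 2).factorial : ℝ) := by
    exact_mod_cast Nat.succ_le_of_lt (2 * v + 2).factorial_pos
  have h2 : (4 * Real.pi * t) ^ (-((2 * (v : ℝ) + 3) / 2)) ≤ t ^ (-((2 * (v : ℝ) + 3) / 2)) := by
    rw [Real.mul_rpow (by positivity) ht'.le]
    have : (4 * Real.pi) ^ (-((2 * (v : ℝ) + 3) / 2)) ≤ 1 := by
      refine Real.rpow_le_one_of_one_le_of_nonpos ?_ ?_
      · linarith [Real.pi_gt_three]
      · have : (0 : ℝ) ≤ v := Nat.cast_nonneg v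
        linarith
    calc _ ≤ 1 * t ^ (-((2 * (v : ℝ) + 3) / 2)) := by gcongr
      _ = _ := one_mul _
  have h3 : Real.exp (-‖x‖ ^ 2 / (4 * t)) ≤ 1 := by
    rw [Real.exp_le_one_iff, neg_div]
    have : 0 ≤ ‖x‖ ^ 2 / (4 * t) := by positivity
    linarith
  have h4 : t ^ (2 * v + 2) * t ^ (-((2 * (v : ℝ) + 3) / 2)) = t ^ ((v : ℝ) + 3 / 2 - 1) := by
    rw [← Real.rpow_natCast, ← Real.rpow_add ht']
    congr 1
    push_cast
    ring
  calc t ^ (2 * v + 2) / ((2 * v + 2).factorial : ℝ) * Real.exp (-κ ^ 2 * t) *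
        ((4 * Real.pi * t) ^ (-((2 * (v : ℝ) + 3) / 2)) * Real.exp (-‖x‖ ^ 2 / (4 * t)))
      ≤ t ^ (2 * v + 2) * Real.exp (-κ ^ 2 * t) * (t ^ (-((2 * (v : ℝ) + 3) / 2)) * 1) := by
        gcongr
        exact div_le_self (by positivity) h1
    _ = _ := by
        rw [← h4]
        ring

theorem base_3385 (v : ℕ) (κ : ℝ) (hκ : 0 < κ) (w : EV v) (hw : w ≠ 0) :
    ENNReal.ofReal (Gr v (I * κ) ‖w‖).re = gam3385 v κ 0 w := by
  have hr : 0 < ‖w‖ := norm_pos_iff.2 hw
  obtain ⟨h1, h2⟩ := Gr_heat v κ ‖w‖ hκ hr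
  rw [h2, ofReal_integral_eq_lintegral_ofReal h1]
  · unfold gam3385
    refine setLIntegral_congr_fun measurableSet_Ioi fun t ht => ?_
    unfold G3385 h3385
    rw [← ENNReal.ofReal_mul (by positivity)]
    congr 1
    simp only [pow_zero, Nat.factorial_zero, Nat.cast_one, div_one, one_mul]
    ring
  · rw [EventuallyLE, ae_restrict_iff' measurableSet_Ioi]
    refine Eventually.of_forall fun t ht => ?_
    have : (0 : ℝ) < t := ht
    simp only [Pi.zero_apply]
    unfold hk
    positivity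

end aux3385

theorem pow_HSle (v : ℕ) (R : ℝ) : ∃ C : ℝ, 0 ≤ C ∧ ∀ (a κ : ℝ), 0 ≤ a → 0 < κ →
    ∀ (k : EV v → EV v → ℂ) (T : OpV v R), Measurable (Function.uncurry k) →
    (∀ x ∈ Metric.closedBall (0 : EV v) R, ∀ y ∈ Metric.closedBall (0 : EV v) R,
      ‖k x y‖ ≤ a * (Gr v (I * κ) ‖x - y‖).re) → IsKer (muV v R) k T →
    ∀ (ι : Type) [DecidableEq ι] (b : HilbertBasis ι ℂ (Lp ℂ 2 (muV v R))),
      HSle b (T ^ (2 * v + 3)) (C * a ^ (2 * v + 3) / κ ^ (2 * v + 3)) := by
  set V : ℝ := (muV v R).real Set.univ with hV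
  have hV0 : 0 ≤ V := measureReal_nonneg
  have hΓ : 0 < Real.Gamma ((v : ℝ) + 3 / 2) := Real.Gamma_pos_of_pos (by positivity)
  refine ⟨V * Real.Gamma ((v : ℝ) + 3 / 2), by positivity, ?_⟩
  intro a κ ha hκ k T hkm hkb hT ι _ b
  classical
  -- the kernel cut off outside the ball
  set S : Set (EV v × EV v) := Metric.closedBall (0 : EV v) R ×ˢ Metric.closedBall (0 : EV v) R
    with hS
  have hSm : MeasurableSet S := measurableSet_closedBall.prod measurableSet_closedBall
  set k₁ : EV v → EV v → ℂ := fun x y => S.indicator (Function.uncurry k) (x, y) with hk₁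
  have hk₁m : Measurable (Function.uncurry k₁) := by
    have : Function.uncurry k₁ = S.indicator (Function.uncurry k) := by
      funext p
      rfl
    rw [this]
    exact hkm.indicator hSm
  have hT₁ : IsKer (muV v R) k₁ T := by
    refine IsKer.congr hT ?_
    have hb : ∀ᵐ x ∂(muV v R), x ∈ Metric.closedBall (0 : EV v) R :=
      ae_restrict_mem measurableSet_closedBall
    filter_upwards [hb] with x hx
    filter_upwards [hb] with y hy
    rw [hk₁]
    simp only
    rw [Set.indicator_of_mem (show (x, y) ∈ S from ⟨hx, hy⟩)]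
    rfl
  have hk₁b : ∀ x y, ‖k₁ x y‖ₑ ≤ ENNReal.ofReal a * gam3385 v κ 0 (x - y) := by
    intro x y
    by_cases hxy : (x, y) ∈ S
    · have e : k₁ x y = k x y := by
        rw [hk₁]
        simp only
        rw [Set.indicator_of_mem hxy]
        rfl
      rw [e, ← ofReal_norm]
      have h1 := hkb x hxy.1 y hxy.2
      by_cases hne : x - y = 0
      · have h2 : ‖k x y‖ ≤ 0 := by
          refine h1.trans (le_of_eq ?_)
          rw [hne, norm_zero]
          simp [Gr]
        rw [ENNReal.ofReal_of_nonpos h2]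
        exact zero_le
      · rw [← base_3385 v κ hκ _ hne, ← ENNReal.ofReal_mul ha]
        exact ENNReal.ofReal_le_ofReal h1
    · have e : k₁ x y = 0 := by
        rw [hk₁]
        simp only
        rw [Set.indicator_of_notMem hxy]
      rw [e]
      simp
  have hcol : ∀ (c : ℝ≥0∞) (m : ℕ) (f : EV v → EV v → ℂ),
      (∀ x y, ‖f x y‖ₑ ≤ c * gam3385 v κ m (x - y)) →
      ∀ y, ∫⁻ z, ‖f z y‖ₑ ∂(muV v R) ≤ c * ∫⁻ x : EV v, gam3385 v κ m x := by
    intro c m f hf y
    have hme : Measurable (fun z : EV v => gam3385 v κ m (z - y)) :=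
      (measurable_gam3385 v κ m).comp (measurable_id.sub measurable_const)
    calc ∫⁻ z, ‖f z y‖ₑ ∂(muV v R) ≤ ∫⁻ z, c * gam3385 v κ m (z - y) ∂(muV v R) :=
          lintegral_mono fun z => hf z y
      _ ≤ ∫⁻ z : EV v, c * gam3385 v κ m (z - y) :=
          lintegral_mono' Measure.restrict_le_self le_rfl
      _ = c * ∫⁻ z : EV v, gam3385 v κ m (z - y) := lintegral_const_mul _ hme
      _ = c * ∫⁻ x : EV v, gam3385 v κ m x := by
          rw [lintegral_sub_right_eq_self (fun x => gam3385 v κ m x) y]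
  -- kernels of the powers
  have key : ∀ m : ℕ, ∃ f : EV v → EV v → ℂ, Measurable (Function.uncurry f) ∧
      IsKer (muV v R) f (T ^ (m + 1)) ∧
      ∀ x y, ‖f x y‖ₑ ≤ ENNReal.ofReal a ^ (m + 1) * gam3385 v κ m (x - y) := by
    intro m
    induction m with
    | zero => exact ⟨k₁, hk₁m, by simpa using hT₁, by simpa using hk₁b⟩
    | succ m ih =>
      obtain ⟨f, hfm, hfk, hfb⟩ := ih
      refine ⟨fun x y => ∫ z, k₁ x z * f z y ∂(muV v R), measurable_prodKer_3385 hk₁m hfm, ?_, ?_⟩
      · rw [pow_succ' T (m + 1)]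
        set S1 : ℝ≥0∞ := ENNReal.ofReal a * ∫⁻ x : EV v, gam3385 v κ 0 x with hS1
        set S2 : ℝ≥0∞ := ENNReal.ofReal a ^ (m + 1) * ∫⁻ x : EV v, gam3385 v κ m x with hS2
        have hS1f : S1 ≠ ∞ := ENNReal.mul_ne_top ENNReal.ofReal_ne_top (lint_gam3385 v κ hκ 0)
        have hS2f : S2 ≠ ∞ := ENNReal.mul_ne_top (ENNReal.pow_ne_top ENNReal.ofReal_ne_top)
          (lint_gam3385 v κ hκ m)
        refine isKer_mul_3385 hk₁m hfm (S := S1 + S2) (ENNReal.add_ne_top.2 ⟨hS1f, hS2f⟩) ?_ ?_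
          hT₁ hfk
        · intro z
          exact (hcol _ 0 k₁ hk₁b z).trans le_self_add
        · intro z
          exact (hcol _ m f hfb z).trans le_add_self
      · intro x y
        refine (enorm_integral_le_lintegral_enorm _).trans ?_
        rw [← conv_3385 v κ m x y]
        have hme : Measurable (fun z : EV v => gam3385 v κ 0 (x - z) * gam3385 v κ m (z - y)) :=
          ((measurable_gam3385 v κ 0).comp (measurable_const.sub measurable_id)).mul
            ((measurable_gam3385 v κ m).comp (measurable_id.sub measurable_const))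
        rw [← lintegral_const_mul _ hme]
        refine le_trans ?_ (lintegral_mono' (Measure.restrict_le_self
          (s := Metric.closedBall (0 : EV v) R)) le_rfl)
        refine lintegral_mono fun z => ?_
        rw [enorm_mul]
        calc ‖k₁ x z‖ₑ * ‖f z y‖ₑ ≤ (ENNReal.ofReal a * gam3385 v κ 0 (x - z)) *
              (ENNReal.ofReal a ^ (m + 1) * gam3385 v κ m (z - y)) :=
              mul_le_mul' (hk₁b x z) (hfb z y)
          _ = _ := by ring
  obtain ⟨f, hfm, hfk, hfb⟩ := key (2 * v + 2)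
  have hfk' : IsKer (muV v R) f (T ^ (2 * v + 3)) := hfk
  refine IsKer.HSle b hfm hfk' _ (by positivity) ?_
  have hVe : muV v R Set.univ = ENNReal.ofReal V := by
    rw [hV, Measure.real, ENNReal.ofReal_toReal (measure_ne_top _ _)]
  set D : ℝ := a ^ (2 * v + 3) * (Real.Gamma ((v : ℝ) + 3 / 2) / κ ^ (2 * v + 3)) with hD
  have hD0 : 0 ≤ D := by positivity
  have hpt : ∀ x y, ‖f x y‖ₑ ≤ ENNReal.ofReal D := by
    intro x y
    refine (hfb x y).trans ?_
    rw [hD, ENNReal.ofReal_mul (by positivity), ENNReal.ofReal_pow ha]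
    exact mul_le_mul' le_rfl (gam_bound_3385 v κ hκ _)
  calc ∫⁻ x, ∫⁻ y, ‖f x y‖ₑ ^ 2 ∂(muV v R) ∂(muV v R)
      ≤ ∫⁻ _, ∫⁻ _, ENNReal.ofReal D ^ 2 ∂(muV v R) ∂(muV v R) :=
        lintegral_mono fun x => lintegral_mono fun y => by
          have := hpt x y
          gcongr
    _ = ENNReal.ofReal D ^ 2 * ENNReal.ofReal V * ENNReal.ofReal V := by
        rw [lintegral_const, lintegral_const, hVe]
    _ = ENNReal.ofReal ((V * Real.Gamma ((v : ℝ) + 3 / 2) * a ^ (2 * v + 3) /
        κ ^ (2 * v + 3)) ^ 2) := by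
        rw [← ENNReal.ofReal_pow hD0, ← ENNReal.ofReal_mul (by positivity),
          ← ENNReal.ofReal_mul (by positivity)]
        congr 1
        rw [hD]
        ring
    _ ≤ _ := le_rfl

end Pool.Agent.H269
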