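import Pool.Agent.H269.DefsG
import Pool.Agent.H269.GN.G027

/-!
# GN-30 nuclear decomposition in odd dimension (MP_f2af60_mp, infinitely many resonances in odd dimension)
-/

set_option autoImplicit false

open MeasureTheory Filter Topology Complex
open scoped InnerProductSpace ENNReal NNReal

namespace Pool.Agent.H269


namespace NGaux

section abstractPart

variable {E : Type} [MeasurableSpace E] {μ : Measure E} [IsFiniteMeasure μ] {I : Type}
  [Countable I] {w ψ : I → E → ℂ} {α β : I → ℝ} {v φ : I → Lp ℂ 2 μ}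

theorem inner_phi (hφ : ∀ a, (φ a : E → ℂ) =ᵐ[μ] fun x => (starRingEnd ℂ) (ψ a x))
    (a : I) (h : Lp ℂ 2 μ) : ⟪φ a, h⟫_ℂ = ∫ x, ψ a x * h x ∂μ := by
  rw [L2.inner_def]
  refine integral_congr_ae ?_
  filter_upwards [hφ a] with x hx
  rw [hx, RCLike.inner_apply, Complex.conj_conj, mul_comm]

theorem lp_int (h : Lp ℂ 2 μ) : Integrable (fun x => h x) μ :=
  (Lp.memLp h).integrable one_le_two

theorem norm_inner_phi (hψβ : ∀ a x, ‖ψ a x‖ ≤ β a)
    (hφ : ∀ a, (φ a : E → ℂ) =ᵐ[μ] fun x => (starRingEnd ℂ) (ψ a x))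
    (a : I) (h : Lp ℂ 2 μ) : ‖⟪φ a, h⟫_ℂ‖ ≤ β a * ∫ x, ‖h x‖ ∂μ := by
  rw [inner_phi hφ, ← integral_const_mul]
  refine (norm_integral_le_integral_norm _).trans ?_
  refine integral_mono_of_nonneg (ae_of_all _ fun x => norm_nonneg _)
    ((lp_int h).norm.const_mul _) (ae_of_all _ fun x => ?_)
  change ‖ψ a x * h x‖ ≤ β a * ‖h x‖
  rw [norm_mul]
  exact mul_le_mul_of_nonneg_right (hψβ a x) (norm_nonneg _)

/-- expansion of the operator -/
theorem abs_one (hw : ∀ a, Measurable (w a)) (hψ : ∀ a, Measurable (ψ a))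
    (hα0 : ∀ a, 0 ≤ α a) (hβ0 : ∀ a, 0 ≤ β a)
    (hwα : ∀ a x, ‖w a x‖ ≤ α a) (hψβ : ∀ a x, ‖ψ a x‖ ≤ β a)
    (hs : Summable (fun a => α a * β a))
    (hv : ∀ a, (v a : E → ℂ) =ᵐ[μ] w a)
    (hφ : ∀ a, (φ a : E → ℂ) =ᵐ[μ] fun x => (starRingEnd ℂ) (ψ a x))
    (κ : E → E → ℂ) (hκ : ∀ᵐ x ∂μ, ∀ᵐ y ∂μ, κ x y = ∑' a, w a x * ψ a y)
    (J : Lp ℂ 2 μ →L[ℂ] Lp ℂ 2 μ) (hJ : IsKer μ κ J) (h : Lp ℂ 2 μ) :
    HasSum (fun a => ⟪φ a, h⟫_ℂ • v a) (J h) := by
  classical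
  obtain ⟨c, hc0, hc⟩ : ∃ c : ℝ, 0 ≤ c ∧ ∀ a, ‖v a‖ ≤ c * α a := by
    refine ⟨(measureUnivNNReal μ : ℝ) ^ (ENNReal.toReal 2)⁻¹, by positivity, fun a => ?_⟩
    refine Lp.norm_le_of_ae_bound (hα0 a) ?_
    filter_upwards [hv a] with x hx
    rw [hx]
    exact hwα a x
  have hh0 : 0 ≤ ∫ x, ‖h x‖ ∂μ := integral_nonneg fun x => norm_nonneg _
  have hsum : Summable (fun a => ⟪φ a, h⟫_ℂ • v a) := by
    refine Summable.of_norm_bounded (g := fun a => ((∫ x, ‖h x‖ ∂μ) * c) * (α a * β a))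
      (hs.mul_left _) fun a => ?_
    rw [norm_smul]
    calc ‖⟪φ a, h⟫_ℂ‖ * ‖v a‖ ≤ (β a * ∫ x, ‖h x‖ ∂μ) * (c * α a) :=
          mul_le_mul (norm_inner_phi hψβ hφ a h) (hc a) (norm_nonneg _)
            (mul_nonneg (hβ0 a) hh0)
      _ = _ := by ring
  have hS := hsum.hasSum
  have key : (∑' a, ⟪φ a, h⟫_ℂ • v a) = J h := by
    refine ext_inner_left ℂ fun g => ?_
    have h1 : HasSum (fun a => ⟪g, ⟪φ a, h⟫_ℂ • v a⟫_ℂ) ⟪g, ∑' a, ⟪φ a, h⟫_ℂ • v a⟫_ℂ :=
      (innerSL ℂ g).hasSum hS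
    -- the same through integrals
    let F : I → E → ℂ := fun a x => (starRingEnd ℂ) (g x) * (w a x * ⟪φ a, h⟫_ℂ)
    have hgi : Integrable (fun x => (starRingEnd ℂ) (g x)) μ := by
      have := (lp_int g)
      exact (Complex.conjCLE : ℂ →L[ℝ] ℂ).integrable_comp this
    have hFi : ∀ a, Integrable (F a) μ := by
      intro a
      refine hgi.mul_bdd (c := α a * ‖⟪φ a, h⟫_ℂ‖)
        ((hw a).mul_const _).aestronglyMeasurable (ae_of_all _ fun x => ?_)
      rw [norm_mul]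
      exact mul_le_mul_of_nonneg_right (hwα a x) (norm_nonneg _)
    have hg0 : 0 ≤ ∫ x, ‖g x‖ ∂μ := integral_nonneg fun x => norm_nonneg _
    have hFs : Summable (fun a => ∫ x, ‖F a x‖ ∂μ) := by
      refine Summable.of_nonneg_of_le (fun a => integral_nonneg fun x => norm_nonneg _)
        (f := fun a => ((∫ x, ‖g x‖ ∂μ) * (∫ x, ‖h x‖ ∂μ)) * (α a * β a)) (fun a => ?_)
        (hs.mul_left _)
      have e1 : ∫ x, ‖F a x‖ ∂μ ≤ ∫ x, (α a * ‖⟪φ a, h⟫_ℂ‖) * ‖g x‖ ∂μ := by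
        refine integral_mono_of_nonneg (ae_of_all _ fun x => norm_nonneg _)
          ((lp_int g).norm.const_mul _) (ae_of_all _ fun x => ?_)
        change ‖(starRingEnd ℂ) (g x) * (w a x * ⟪φ a, h⟫_ℂ)‖ ≤ _
        rw [norm_mul, norm_mul, RCLike.norm_conj, mul_comm]
        exact mul_le_mul_of_nonneg_right
          (mul_le_mul_of_nonneg_right (hwα a x) (norm_nonneg _)) (norm_nonneg _)
      refine e1.trans ?_
      rw [integral_const_mul]
      calc (α a * ‖⟪φ a, h⟫_ℂ‖) * ∫ x, ‖g x‖ ∂μ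
          ≤ (α a * (β a * ∫ x, ‖h x‖ ∂μ)) * ∫ x, ‖g x‖ ∂μ :=
            mul_le_mul_of_nonneg_right (mul_le_mul_of_nonneg_left
              (norm_inner_phi hψβ hφ a h) (hα0 a)) hg0
        _ = _ := by ring
    have h2 := hasSum_integral_of_summable_integral_norm hFi hFs
    have h3 : (fun a => ∫ x, F a x ∂μ) = fun a => ⟪g, ⟪φ a, h⟫_ℂ • v a⟫_ℂ := by
      funext a
      rw [inner_smul_right, L2.inner_def g (v a), ← integral_const_mul]
      refine integral_congr_ae ?_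
      filter_upwards [hv a] with x hx
      rw [hx, RCLike.inner_apply]
      change (starRingEnd ℂ) (g x) * (w a x * ⟪φ a, h⟫_ℂ) = _
      ring
    rw [h3] at h2
    rw [h1.unique h2, L2.inner_def]
    refine integral_congr_ae ?_
    filter_upwards [(hJ h).2, hκ] with x hx hκx
    change ∑' a, (starRingEnd ℂ) (g x) * (w a x * ⟪φ a, h⟫_ℂ) = _
    rw [tsum_mul_left, RCLike.inner_apply, hx, mul_comm]
    congr 1
    -- pointwise expansion of the integral
    let G : I → E → ℂ := fun a y => (w a x * ψ a y) * h y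
    have hGi : ∀ a, Integrable (G a) μ := by
      intro a
      refine (lp_int h).bdd_mul (c := α a * β a)
        ((hψ a).const_mul _).aestronglyMeasurable (ae_of_all _ fun y => ?_)
      rw [norm_mul]
      exact mul_le_mul (hwα a x) (hψβ a y) (norm_nonneg _) (hα0 a)
    have hGs : Summable (fun a => ∫ y, ‖G a y‖ ∂μ) := by
      refine Summable.of_nonneg_of_le (fun a => integral_nonneg fun x => norm_nonneg _)
        (f := fun a => (∫ x, ‖h x‖ ∂μ) * (α a * β a)) (fun a => ?_) (hs.mul_left _)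
      have e1 : ∫ y, ‖G a y‖ ∂μ ≤ ∫ y, (α a * β a) * ‖h y‖ ∂μ := by
        refine integral_mono_of_nonneg (ae_of_all _ fun x => norm_nonneg _)
          ((lp_int h).norm.const_mul _) (ae_of_all _ fun y => ?_)
        change ‖(w a x * ψ a y) * h y‖ ≤ _
        rw [norm_mul, norm_mul]
        exact mul_le_mul_of_nonneg_right
          (mul_le_mul (hwα a x) (hψβ a y) (norm_nonneg _) (hα0 a)) (norm_nonneg _)
      refine e1.trans ?_
      rw [integral_const_mul, mul_comm]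
    have h4 := hasSum_integral_of_summable_integral_norm hGi hGs
    have h5 : (fun a => ∫ y, G a y ∂μ) = fun a => w a x * ⟪φ a, h⟫_ℂ := by
      funext a
      rw [inner_phi hφ, ← integral_const_mul]
      refine integral_congr_ae (ae_of_all _ fun y => ?_)
      change (w a x * ψ a y) * h y = w a x * (ψ a y * h y)
      ring
    rw [h5] at h4
    rw [h4.tsum_eq]
    refine integral_congr_ae ?_
    filter_upwards [hκx] with y hy
    change ∑' a, (w a x * ψ a y) * h y = κ x y * h y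
    rw [tsum_mul_right, hy]
  rw [← key]
  exact hS

/-- the trace -/
theorem abs_two (hw : ∀ a, Measurable (w a)) (hψ : ∀ a, Measurable (ψ a))
    (hα0 : ∀ a, 0 ≤ α a)
    (hwα : ∀ a x, ‖w a x‖ ≤ α a) (hψβ : ∀ a x, ‖ψ a x‖ ≤ β a)
    (hs : Summable (fun a => α a * β a))
    (hv : ∀ a, (v a : E → ℂ) =ᵐ[μ] w a)
    (hφ : ∀ a, (φ a : E → ℂ) =ᵐ[μ] fun x => (starRingEnd ℂ) (ψ a x))
    (κ : E → ℂ) (hκ : ∀ᵐ x ∂μ, κ x = ∑' a, w a x * ψ a x) :
    ∑' a, ⟪φ a, v a⟫_ℂ = ∫ x, κ x ∂μ := by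
  have hFi : ∀ a, Integrable (fun x => w a x * ψ a x) μ := by
    intro a
    refine (integrable_const (α a * β a)).mono' ((hw a).mul (hψ a)).aestronglyMeasurable
      (ae_of_all _ fun x => ?_)
    rw [norm_mul]
    exact mul_le_mul (hwα a x) (hψβ a x) (norm_nonneg _) (hα0 a)
  have hFs : Summable (fun a => ∫ x, ‖w a x * ψ a x‖ ∂μ) := by
    refine Summable.of_nonneg_of_le (fun a => integral_nonneg fun x => norm_nonneg _)
      (f := fun a => (μ.real Set.univ) * (α a * β a)) (fun a => ?_) (hs.mul_left _)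
    have e1 : ∫ x, ‖w a x * ψ a x‖ ∂μ ≤ ∫ x, (α a * β a) ∂μ := by
      refine integral_mono_of_nonneg (ae_of_all _ fun x => norm_nonneg _)
        (integrable_const _) (ae_of_all _ fun x => ?_)
      change ‖w a x * ψ a x‖ ≤ _
      rw [norm_mul]
      exact mul_le_mul (hwα a x) (hψβ a x) (norm_nonneg _) (hα0 a)
    refine e1.trans ?_
    rw [integral_const, smul_eq_mul]
  have h2 := hasSum_integral_of_summable_integral_norm hFi hFs
  have h3 : (fun a => ∫ x, w a x * ψ a x ∂μ) = fun a => ⟪φ a, v a⟫_ℂ := by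
    funext a
    rw [inner_phi hφ]
    refine integral_congr_ae ?_
    filter_upwards [hv a] with x hx
    rw [hx, mul_comm]
  rw [h3] at h2
  rw [h2.tsum_eq]
  refine integral_congr_ae ?_
  filter_upwards [hκ] with x hx
  rw [hx]

/-- the trace of a product -/
theorem abs_three (hw : ∀ a, Measurable (w a)) (hψ : ∀ a, Measurable (ψ a))
    (hα0 : ∀ a, 0 ≤ α a) (hβ0 : ∀ a, 0 ≤ β a)
    (hwα : ∀ a x, ‖w a x‖ ≤ α a) (hψβ : ∀ a x, ‖ψ a x‖ ≤ β a)
    (hs : Summable (fun a => α a * β a))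
    (hv : ∀ a, (v a : E → ℂ) =ᵐ[μ] w a)
    (hφ : ∀ a, (φ a : E → ℂ) =ᵐ[μ] fun x => (starRingEnd ℂ) (ψ a x))
    (κ : E → E → ℂ) (hκ : ∀ᵐ x ∂μ, ∀ᵐ y ∂μ, κ y x = ∑' a, w a y * ψ a x)
    (k : E → E → ℂ) (T : Lp ℂ 2 μ →L[ℂ] Lp ℂ 2 μ)
    (hk : Integrable (Function.uncurry k) (μ.prod μ)) (hT : IsKer μ k T) :
    ∑' a, ⟪φ a, T (v a)⟫_ℂ = ∫ x, ∫ y, k x y * κ y x ∂μ ∂μ := by
  -- the integrand
  let F : I → E × E → ℂ := fun a z => (ψ a z.1 * w a z.2) * Function.uncurry k z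
  have hbd : ∀ a (z : E × E), ‖ψ a z.1 * w a z.2‖ ≤ α a * β a := by
    intro a z
    rw [norm_mul, mul_comm]
    exact mul_le_mul (hwα a _) (hψβ a _) (norm_nonneg _) (hα0 a)
  have hFi : ∀ a, Integrable (F a) (μ.prod μ) := by
    intro a
    exact hk.bdd_mul (c := α a * β a)
      (((hψ a).comp measurable_fst).mul ((hw a).comp measurable_snd)).aestronglyMeasurable
      (ae_of_all _ fun z => hbd a z)
  have hk0 : 0 ≤ ∫ z, ‖Function.uncurry k z‖ ∂(μ.prod μ) := integral_nonneg fun x => norm_nonneg _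
  have hGi : ∀ a, Integrable (fun x => ∫ y, F a (x, y) ∂μ) μ := fun a =>
    (hFi a).integral_prod_left
  have hGs : Summable (fun a => ∫ x, ‖∫ y, F a (x, y) ∂μ‖ ∂μ) := by
    refine Summable.of_nonneg_of_le (fun a => integral_nonneg fun x => norm_nonneg _)
      (f := fun a => (∫ z, ‖Function.uncurry k z‖ ∂(μ.prod μ)) * (α a * β a)) (fun a => ?_)
      (hs.mul_left _)
    have e1 : ∫ x, ‖∫ y, F a (x, y) ∂μ‖ ∂μ ≤ ∫ x, ∫ y, ‖F a (x, y)‖ ∂μ ∂μ := by
      refine integral_mono_of_nonneg (ae_of_all _ fun x => norm_nonneg _)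
        (hFi a).norm.integral_prod_left (ae_of_all _ fun x => ?_)
      exact norm_integral_le_integral_norm _
    have e2 : ∫ x, ∫ y, ‖F a (x, y)‖ ∂μ ∂μ = ∫ z, ‖F a z‖ ∂(μ.prod μ) :=
      (integral_prod _ (hFi a).norm).symm
    have e3 : ∫ z, ‖F a z‖ ∂(μ.prod μ) ≤
        ∫ z, (α a * β a) * ‖Function.uncurry k z‖ ∂(μ.prod μ) := by
      refine integral_mono_of_nonneg (ae_of_all _ fun x => norm_nonneg _)
        (hk.norm.const_mul _) (ae_of_all _ fun z => ?_)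
      change ‖(ψ a z.1 * w a z.2) * Function.uncurry k z‖ ≤ _
      rw [norm_mul]
      exact mul_le_mul_of_nonneg_right (hbd a z) (norm_nonneg _)
    refine e1.trans (e2.le.trans (e3.trans ?_))
    rw [integral_const_mul, mul_comm]
  have h2 := hasSum_integral_of_summable_integral_norm hGi hGs
  have h3 : (fun a => ∫ x, ∫ y, F a (x, y) ∂μ ∂μ) = fun a => ⟪φ a, T (v a)⟫_ℂ := by
    funext a
    rw [inner_phi hφ]
    refine integral_congr_ae ?_
    filter_upwards [(hT (v a)).2] with x hx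
    rw [hx, ← integral_const_mul]
    refine integral_congr_ae ?_
    filter_upwards [hv a] with y hy
    rw [hy]
    change (ψ a x * w a y) * k x y = ψ a x * (k x y * w a y)
    ring
  rw [h3] at h2
  rw [h2.tsum_eq]
  refine integral_congr_ae ?_
  filter_upwards [hk.prod_right_ae, hκ] with x hkx hκx
  have hkx' : Integrable (fun y => k x y) μ := hkx
  have hLi : ∀ a, Integrable (fun y => F a (x, y)) μ := by
    intro a
    exact hkx'.bdd_mul (c := α a * β a) ((hw a).const_mul (ψ a x)).aestronglyMeasurable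
      (ae_of_all _ fun y => hbd a (x, y))
  have hLs : Summable (fun a => ∫ y, ‖F a (x, y)‖ ∂μ) := by
    refine Summable.of_nonneg_of_le (fun a => integral_nonneg fun x => norm_nonneg _)
      (f := fun a => (∫ y, ‖k x y‖ ∂μ) * (α a * β a)) (fun a => ?_) (hs.mul_left _)
    have e1 : ∫ y, ‖F a (x, y)‖ ∂μ ≤ ∫ y, (α a * β a) * ‖k x y‖ ∂μ := by
      refine integral_mono_of_nonneg (ae_of_all _ fun x => norm_nonneg _)
        (hkx'.norm.const_mul _) (ae_of_all _ fun y => ?_)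
      change ‖(ψ a x * w a y) * k x y‖ ≤ _
      rw [norm_mul]
      exact mul_le_mul_of_nonneg_right (hbd a (x, y)) (norm_nonneg _)
    refine e1.trans ?_
    rw [integral_const_mul, mul_comm]
  have h4 := hasSum_integral_of_summable_integral_norm hLi hLs
  rw [h4.tsum_eq]
  refine integral_congr_ae ?_
  filter_upwards [hκx] with y hy
  rw [hy, ← tsum_mul_left]
  refine tsum_congr fun a => ?_
  change (ψ a x * w a y) * k x y = _
  ring

end abstractPart

section concretePart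

variable {v : ℕ}

/-- first factors in the polarisation of the squared distance -/
noncomputable def pp (i : Fin (2 * v + 5)) (x : EV v) : ℝ :=
  (Fin.cons (‖x‖ ^ 2) (Fin.cons 1 (fun j : Fin (2 * v + 3) => x j)) :
    Fin (2 * v + 3 + 1 + 1) → ℝ) i

/-- second factors in the polarisation of the squared distance -/
noncomputable def qq (i : Fin (2 * v + 5)) (y : EV v) : ℝ :=
  (Fin.cons 1 (Fin.cons (‖y‖ ^ 2) (fun j : Fin (2 * v + 3) => -2 * y j)) :
    Fin (2 * v + 3 + 1 + 1) → ℝ) i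

theorem pp_cases (P : ℝ → Prop) (x : EV v) (h0 : P (‖x‖ ^ 2)) (h1 : P 1)
    (h2 : ∀ j : Fin (2 * v + 3), P (x j)) (i : Fin (2 * v + 5)) : P (pp i x) := by
  have key : ∀ i : Fin (2 * v + 3 + 1 + 1), P ((Fin.cons (‖x‖ ^ 2) (Fin.cons 1
      (fun j : Fin (2 * v + 3) => x j)) : Fin (2 * v + 3 + 1 + 1) → ℝ) i) := by
    intro i
    refine Fin.cases ?_ (fun i => ?_) i
    · simpa using h0
    · refine Fin.cases ?_ (fun i => ?_) i
      · simpa using h1
      · simpa using h2 i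
  exact key i

theorem qq_cases (P : ℝ → Prop) (x : EV v) (h0 : P 1) (h1 : P (‖x‖ ^ 2))
    (h2 : ∀ j : Fin (2 * v + 3), P (-2 * x j)) (i : Fin (2 * v + 5)) : P (qq i x) := by
  have key : ∀ i : Fin (2 * v + 3 + 1 + 1), P ((Fin.cons 1 (Fin.cons (‖x‖ ^ 2)
      (fun j : Fin (2 * v + 3) => -2 * x j)) : Fin (2 * v + 3 + 1 + 1) → ℝ) i) := by
    intro i
    refine Fin.cases ?_ (fun i => ?_) i
    · simpa using h0
    · refine Fin.cases ?_ (fun i => ?_) i
      · simpa using h1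
      · simpa using h2 i
  exact key i

theorem sum_pq (x y : EV v) : ∑ i, pp i x * qq i y = ‖x - y‖ ^ 2 := by
  have key : ∑ i : Fin (2 * v + 3 + 1 + 1),
      (Fin.cons (‖x‖ ^ 2) (Fin.cons 1 (fun j : Fin (2 * v + 3) => x j)) :
        Fin (2 * v + 3 + 1 + 1) → ℝ) i *
      (Fin.cons 1 (Fin.cons (‖y‖ ^ 2) (fun j : Fin (2 * v + 3) => -2 * y j)) :
        Fin (2 * v + 3 + 1 + 1) → ℝ) i = ‖x - y‖ ^ 2 := by
    rw [Fin.sum_univ_succ, Fin.sum_univ_succ]
    simp only [Fin.cons_zero, Fin.cons_succ]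
    rw [EuclideanSpace.real_norm_sq_eq x, EuclideanSpace.real_norm_sq_eq y,
      EuclideanSpace.real_norm_sq_eq (x - y), one_mul, mul_one, ← Finset.sum_add_distrib,
      ← Finset.sum_add_distrib]
    refine Finset.sum_congr rfl fun j _ => ?_
    rw [PiLp.sub_apply]
    ring
  exact key

theorem pp_meas (i : Fin (2 * v + 5)) : Measurable (pp (v := v) i) := by
  have key : ∀ i : Fin (2 * v + 3 + 1 + 1), Measurable (fun x : EV v => (Fin.cons (‖x‖ ^ 2)
      (Fin.cons 1 (fun j : Fin (2 * v + 3) => x j)) : Fin (2 * v + 3 + 1 + 1) → ℝ) i) := by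
    intro i
    refine Fin.cases ?_ (fun i => ?_) i
    · simp only [Fin.cons_zero]; fun_prop
    · refine Fin.cases ?_ (fun i => ?_) i
      · simp only [Fin.cons_succ, Fin.cons_zero]; fun_prop
      · simp only [Fin.cons_succ]; fun_prop
  exact key i

theorem qq_meas (i : Fin (2 * v + 5)) : Measurable (qq (v := v) i) := by
  have key : ∀ i : Fin (2 * v + 3 + 1 + 1), Measurable (fun x : EV v => (Fin.cons 1
      (Fin.cons (‖x‖ ^ 2) (fun j : Fin (2 * v + 3) => -2 * x j)) :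
        Fin (2 * v + 3 + 1 + 1) → ℝ) i) := by
    intro i
    refine Fin.cases ?_ (fun i => ?_) i
    · simp only [Fin.cons_zero]; fun_prop
    · refine Fin.cases ?_ (fun i => ?_) i
      · simp only [Fin.cons_succ, Fin.cons_zero]; fun_prop
      · simp only [Fin.cons_succ]; fun_prop
  exact key i

theorem pp_bd {R : ℝ} (hR : 0 ≤ R) {x : EV v} (hx : ‖x‖ ≤ R) (i : Fin (2 * v + 5)) :
    |pp i x| ≤ 2 * (1 + R) ^ 2 := by
  have h0 : ‖x‖ ^ 2 ≤ R ^ 2 := pow_le_pow_left₀ (norm_nonneg _) hx 2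
  have h1 : ∀ j, |x j| ≤ R := fun j => by
    have := PiLp.norm_apply_le x j
    rw [Real.norm_eq_abs] at this
    exact this.trans hx
  have h2 : R ≤ 2 * (1 + R) ^ 2 := by nlinarith
  refine pp_cases (fun r => |r| ≤ 2 * (1 + R) ^ 2) x ?_ ?_ (fun j => (h1 j).trans h2) i
  · rw [abs_of_nonneg (by positivity)]
    nlinarith
  · rw [_root_.abs_one]
    nlinarith

theorem qq_bd {R : ℝ} (hR : 0 ≤ R) {x : EV v} (hx : ‖x‖ ≤ R) (i : Fin (2 * v + 5)) :
    |qq i x| ≤ 2 * (1 + R) ^ 2 := by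
  have h0 : ‖x‖ ^ 2 ≤ R ^ 2 := pow_le_pow_left₀ (norm_nonneg _) hx 2
  have h1 : ∀ j, |x j| ≤ R := fun j => by
    have := PiLp.norm_apply_le x j
    rw [Real.norm_eq_abs] at this
    exact this.trans hx
  have h2 : R ≤ (1 + R) ^ 2 := by nlinarith
  refine qq_cases (fun r => |r| ≤ 2 * (1 + R) ^ 2) x ?_ ?_ (fun j => ?_) i
  · rw [_root_.abs_one]
    nlinarith
  · rw [abs_of_nonneg (by positivity)]
    nlinarith
  · rw [abs_mul, abs_neg, _root_.abs_two]
    have := h1 j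
    linarith

/-- the multinomial coefficient -/
def mn (a : Fin (2 * v + 5) → ℕ) : ℕ := Nat.multinomial Finset.univ a

theorem mn_le (a : Fin (2 * v + 5) → ℕ) : mn a ≤ (2 * v + 5) ^ (∑ i, a i) := by
  have h := Finset.sum_pow_eq_sum_piAntidiag (R := ℕ) (Finset.univ : Finset (Fin (2 * v + 5)))
    (fun _ => 1) (∑ i, a i)
  simp only [Finset.sum_const, Finset.card_univ, Fintype.card_fin, smul_eq_mul, mul_one, one_pow,
    Finset.prod_const_one] at h
  rw [h]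
  exact Finset.single_le_sum (f := fun k => ((Nat.multinomial Finset.univ k : ℕ) : ℕ))
    (fun _ _ => Nat.zero_le _) (Finset.mem_piAntidiag.mpr ⟨rfl, fun i _ => Finset.mem_univ i⟩)

theorem cg_bd (l : ℂ) (j : ℕ) :
    ‖cg v l j‖ ≤ ‖l‖ ^ (2 * j + 2 * v + 1) / ((2 * j + 1).factorial : ℝ) := by
  have h := cg_bound v l j
  rwa [show 2 * v + 1 + 2 * j = 2 * j + 2 * v + 1 by ring] at h

/-- the left functions -/
noncomputable def ww (R : ℝ) (V : EV v → ℝ) (a : Fin (2 * v + 5) → ℕ) : EV v → ℂ :=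
  (Metric.closedBall (0 : EV v) R).indicator fun x =>
    (V x : ℂ) * ((∏ i, (pp i x : ℂ) ^ a i) * (((2 * (2 * (1 + R) ^ 2) : ℝ) : ℂ) ^ (∑ i, a i))⁻¹)

/-- the right functions -/
noncomputable def psi (R : ℝ) (l : ℂ) (a : Fin (2 * v + 5) → ℕ) : EV v → ℂ :=
  (Metric.closedBall (0 : EV v) R).indicator fun x =>
    (cg v l (∑ i, a i) * (mn a : ℂ)) *
      ((((2 * (2 * (1 + R) ^ 2) : ℝ) : ℂ) ^ (∑ i, a i)) * ∏ i, (qq i x : ℂ) ^ a i)

theorem ww_meas (R : ℝ) {V : EV v → ℝ} (hV : Measurable V) (a : Fin (2 * v + 5) → ℕ) :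
    Measurable (ww R V a) := by
  refine Measurable.indicator ?_ Metric.isClosed_closedBall.measurableSet
  refine (Complex.measurable_ofReal.comp hV).mul (Measurable.mul_const ?_ _)
  exact Finset.measurable_prod _ fun i _ => (Complex.measurable_ofReal.comp (pp_meas i)).pow_const _

theorem psi_meas (R : ℝ) (l : ℂ) (a : Fin (2 * v + 5) → ℕ) : Measurable (psi R l a) := by
  refine Measurable.indicator ?_ Metric.isClosed_closedBall.measurableSet
  refine Measurable.const_mul (Measurable.const_mul ?_ _) _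
  exact Finset.measurable_prod _ fun i _ => (Complex.measurable_ofReal.comp (qq_meas i)).pow_const _

theorem prod_bd {D : ℝ} {u : Fin (2 * v + 5) → ℝ} (hu : ∀ i, |u i| ≤ D) (a : Fin (2 * v + 5) → ℕ) :
    ‖∏ i, (u i : ℂ) ^ a i‖ ≤ D ^ (∑ i, a i) := by
  rw [norm_prod, ← Finset.prod_pow_eq_pow_sum]
  refine Finset.prod_le_prod (fun i _ => norm_nonneg _) fun i _ => ?_
  rw [norm_pow, Complex.norm_real, Real.norm_eq_abs]
  exact pow_le_pow_left₀ (abs_nonneg _) (hu i) _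

theorem ww_bd {R : ℝ} (hR : 0 ≤ R) {V : EV v → ℝ} {M : ℝ} (hM : ∀ x, |V x| ≤ M)
    (a : Fin (2 * v + 5) → ℕ) (x : EV v) : ‖ww R V a x‖ ≤ M * (1 / 2) ^ (∑ i, a i) := by
  have hM0 : 0 ≤ M := (abs_nonneg _).trans (hM 0)
  unfold ww
  by_cases hx : x ∈ Metric.closedBall (0 : EV v) R
  · rw [Set.indicator_of_mem hx]
    have hx' : ‖x‖ ≤ R := by rwa [mem_closedBall_zero_iff] at hx
    rw [norm_mul, norm_mul, norm_inv, norm_pow, Complex.norm_real, Complex.norm_real,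
      Real.norm_eq_abs]
    have hD : (0 : ℝ) < 2 * (1 + R) ^ 2 := by positivity
    refine mul_le_mul (hM x) ?_ (by positivity) hM0
    rw [Real.norm_of_nonneg (by positivity), one_div, inv_pow]
    have h1 := prod_bd (D := 2 * (1 + R) ^ 2) (u := fun i => pp i x) (pp_bd hR hx') a
    calc ‖∏ i, (pp i x : ℂ) ^ a i‖ * ((2 * (2 * (1 + R) ^ 2)) ^ (∑ i, a i))⁻¹
        ≤ (2 * (1 + R) ^ 2) ^ (∑ i, a i) * ((2 * (2 * (1 + R) ^ 2)) ^ (∑ i, a i))⁻¹ :=
          mul_le_mul_of_nonneg_right h1 (by positivity)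
      _ = (2 ^ (∑ i, a i))⁻¹ := by
          rw [mul_pow 2 (2 * (1 + R) ^ 2), mul_inv, mul_comm, mul_assoc,
            inv_mul_cancel₀ (pow_pos hD _).ne', mul_one]
  · rw [Set.indicator_of_notMem hx, norm_zero]
    positivity

theorem psi_bd {R : ℝ} (hR : 0 ≤ R) (l : ℂ) (a : Fin (2 * v + 5) → ℕ) (x : EV v) :
    ‖psi R l a x‖ ≤ ((2 * (v : ℝ) + 5) * (2 * (2 * (1 + R) ^ 2)) * (2 * (1 + R) ^ 2)) ^ (∑ i, a i) *
      (‖l‖ ^ (2 * (∑ i, a i) + 2 * v + 1) / ((2 * (∑ i, a i) + 1).factorial : ℝ)) := by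
  unfold psi
  by_cases hx : x ∈ Metric.closedBall (0 : EV v) R
  · rw [Set.indicator_of_mem hx]
    have hx' : ‖x‖ ≤ R := by rwa [mem_closedBall_zero_iff] at hx
    rw [norm_mul, norm_mul, norm_mul, norm_pow, Complex.norm_real, Complex.norm_natCast,
      Real.norm_of_nonneg (by positivity)]
    have h1 := prod_bd (D := 2 * (1 + R) ^ 2) (u := fun i => qq i x) (qq_bd hR hx') a
    have h2 := cg_bd (v := v) l (∑ i, a i)
    have h3 : (mn a : ℝ) ≤ (2 * (v : ℝ) + 5) ^ (∑ i, a i) := by exact_mod_cast mn_le a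
    calc ‖cg v l (∑ i, a i)‖ * (mn a : ℝ) *
          ((2 * (2 * (1 + R) ^ 2)) ^ (∑ i, a i) * ‖∏ i, (qq i x : ℂ) ^ a i‖)
        ≤ ((‖l‖ ^ (2 * (∑ i, a i) + 2 * v + 1) / ((2 * (∑ i, a i) + 1).factorial : ℝ)) *
            (2 * (v : ℝ) + 5) ^ (∑ i, a i)) *
          ((2 * (2 * (1 + R) ^ 2)) ^ (∑ i, a i) * (2 * (1 + R) ^ 2) ^ (∑ i, a i)) := by
          refine mul_le_mul (mul_le_mul h2 h3 (by positivity) (by positivity))
            (mul_le_mul_of_nonneg_left h1 (by positivity)) (by positivity) (by positivity)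
      _ = _ := by
          generalize 2 * (1 + R) ^ 2 = D
          generalize 2 * D = ρ
          rw [mul_pow ((2 * (v : ℝ) + 5) * ρ) D, mul_pow (2 * (v : ℝ) + 5) ρ]
          ring
  · rw [Set.indicator_of_notMem hx, norm_zero]
    positivity

theorem summable_geo (n : ℕ) : Summable fun a : Fin n → ℕ => ((1 : ℝ) / 2) ^ (∑ i, a i) := by
  induction n with
  | zero => exact (hasSum_fintype _).summable
  | succ n ih =>
    have h1 : Summable fun p : ℕ × (Fin n → ℕ) => ((1 : ℝ) / 2) ^ p.1 * (1 / 2) ^ (∑ i, p.2 i) :=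
      Summable.mul_of_nonneg (f := fun m : ℕ => ((1 : ℝ) / 2) ^ m)
        (g := fun a : Fin n → ℕ => ((1 : ℝ) / 2) ^ (∑ i, a i))
        summable_geometric_two ih (fun _ => by positivity) (fun _ => by positivity)
    refine (Equiv.summable_iff (f := fun a : Fin (n + 1) → ℕ => ((1 : ℝ) / 2) ^ (∑ i, a i))
      (Fin.consEquiv fun _ : Fin (n + 1) => ℕ)).mp ?_
    refine h1.congr fun p => ?_
    have h2 : (∑ i, (Fin.cons p.1 p.2 : Fin (n + 1) → ℕ) i) = p.1 + ∑ i, p.2 i := by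
      rw [Fin.sum_univ_succ]
      simp
    rw [← pow_add, ← h2]
    rfl

theorem summable_ab (R M : ℝ) (l : ℂ) : Summable fun a : Fin (2 * v + 5) → ℕ =>
    (M * (1 / 2) ^ (∑ i, a i)) *
      (((2 * (v : ℝ) + 5) * (2 * (2 * (1 + R) ^ 2)) * (2 * (1 + R) ^ 2)) ^ (∑ i, a i) *
      (‖l‖ ^ (2 * (∑ i, a i) + 2 * v + 1) / ((2 * (∑ i, a i) + 1).factorial : ℝ))) := by
  set B : ℝ := (2 * (v : ℝ) + 5) * (2 * (2 * (1 + R) ^ 2)) * (2 * (1 + R) ^ 2) with hB
  have hB0 : 0 ≤ B := by positivity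
  refine Summable.of_norm_bounded
    (g := fun a : Fin (2 * v + 5) → ℕ => (|M| * (‖l‖ ^ (2 * v + 1) * Real.exp (B * ‖l‖ ^ 2))) * (1 / 2) ^ (∑ i, a i))
    ((summable_geo (2 * v + 5)).mul_left _) fun a => ?_
  set N := ∑ i, a i
  have h1 : B ^ N * (‖l‖ ^ (2 * N + 2 * v + 1) / ((2 * N + 1).factorial : ℝ)) ≤
      ‖l‖ ^ (2 * v + 1) * Real.exp (B * ‖l‖ ^ 2) := by
    have h2 := Real.pow_div_factorial_le_exp (B * ‖l‖ ^ 2) (by positivity) N
    have h3 : (N.factorial : ℝ) ≤ ((2 * N + 1).factorial : ℝ) := by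
      exact_mod_cast Nat.factorial_le (by omega)
    have h4 : (0 : ℝ) < (N.factorial : ℝ) := by exact_mod_cast Nat.factorial_pos _
    calc B ^ N * (‖l‖ ^ (2 * N + 2 * v + 1) / ((2 * N + 1).factorial : ℝ))
        ≤ B ^ N * (‖l‖ ^ (2 * N + 2 * v + 1) / (N.factorial : ℝ)) := by
          refine mul_le_mul_of_nonneg_left ?_ (by positivity)
          exact div_le_div_of_nonneg_left (by positivity) h4 h3
      _ = ‖l‖ ^ (2 * v + 1) * ((B * ‖l‖ ^ 2) ^ N / (N.factorial : ℝ)) := by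
          rw [mul_pow B (‖l‖ ^ 2), ← pow_mul, pow_add]
          ring
      _ ≤ _ := mul_le_mul_of_nonneg_left h2 (by positivity)
  have h0 : 0 ≤ B ^ N * (‖l‖ ^ (2 * N + 2 * v + 1) / ((2 * N + 1).factorial : ℝ)) := by positivity
  rw [norm_mul, norm_mul, Real.norm_eq_abs M, Real.norm_of_nonneg h0,
    Real.norm_of_nonneg (by positivity : (0 : ℝ) ≤ (1 / 2) ^ N)]
  calc |M| * (1 / 2) ^ N * (B ^ N * (‖l‖ ^ (2 * N + 2 * v + 1) / ((2 * N + 1).factorial : ℝ)))
      ≤ |M| * (1 / 2) ^ N * (‖l‖ ^ (2 * v + 1) * Real.exp (B * ‖l‖ ^ 2)) :=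
        mul_le_mul_of_nonneg_left h1 (by positivity)
    _ = _ := by ring

theorem kernel_eq {R : ℝ} (hR : 0 ≤ R) {V : EV v → ℝ} {M : ℝ} (hM : ∀ x, |V x| ≤ M) (l : ℂ)
    {x y : EV v} (hx : x ∈ Metric.closedBall (0 : EV v) R) (hy : y ∈ Metric.closedBall (0 : EV v) R) :
    (V x : ℂ) * Jg v l ‖x - y‖ = ∑' a, ww R V a x * psi R l a y := by
  have hs : Summable (fun a => ww R V a x * psi R l a y) := by
    refine Summable.of_norm_bounded (summable_ab R M l) fun a => ?_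
    rw [norm_mul]
    refine mul_le_mul (ww_bd hR hM a x) (psi_bd hR l a y) (norm_nonneg _) ?_
    have := (norm_nonneg _).trans (ww_bd hR hM a x)
    exact this
  have h1 := hs.hasSum.tsum_fiberwise (fun a : Fin (2 * v + 5) → ℕ => ∑ i, a i)
  rw [← h1.tsum_eq]
  unfold Jg
  rw [← tsum_mul_left]
  refine tsum_congr fun j => ?_
  have hset : ((fun a : Fin (2 * v + 5) → ℕ => ∑ i, a i) ⁻¹' {j}) =
      ((Finset.univ.piAntidiag j : Finset (Fin (2 * v + 5) → ℕ)) : Set (Fin (2 * v + 5) → ℕ)) := by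
    ext a
    simp only [Set.mem_preimage, Set.mem_singleton_iff, Finset.mem_coe, Finset.mem_piAntidiag]
    exact ⟨fun h => ⟨h, fun i _ => Finset.mem_univ i⟩, fun h => h.1⟩
  rw [hset]
  have hfs := Finset.tsum_subtype (Finset.univ.piAntidiag j : Finset (Fin (2 * v + 5) → ℕ))
    (fun a => ww R V a x * psi R l a y)
  refine Eq.trans ?_ hfs.symm
  have hρ : (((2 * (2 * (1 + R) ^ 2) : ℝ) : ℂ)) ≠ 0 := by
    rw [Complex.ofReal_ne_zero]
    positivity
  have h2 : ∀ a ∈ (Finset.univ.piAntidiag j : Finset (Fin (2 * v + 5) → ℕ)),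
      ww R V a x * psi R l a y = ((V x : ℂ) * cg v l j) *
        ((mn a : ℂ) * ∏ i, ((pp i x * qq i y : ℝ) : ℂ) ^ a i) := by
    intro a ha
    have ha' : ∑ i, a i = j := (Finset.mem_piAntidiag.mp ha).1
    unfold ww psi
    rw [Set.indicator_of_mem hx, Set.indicator_of_mem hy, ha']
    have h3 : (∏ i, ((pp i x * qq i y : ℝ) : ℂ) ^ a i) =
        (∏ i, (pp i x : ℂ) ^ a i) * ∏ i, (qq i y : ℂ) ^ a i := by
      rw [← Finset.prod_mul_distrib]
      refine Finset.prod_congr rfl fun i _ => ?_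
      rw [Complex.ofReal_mul, mul_pow]
    rw [h3]
    have h4 : ((((2 * (2 * (1 + R) ^ 2) : ℝ) : ℂ)) ^ j)⁻¹ *
        (((2 * (2 * (1 + R) ^ 2) : ℝ) : ℂ)) ^ j = 1 := inv_mul_cancel₀ (pow_ne_zero _ hρ)
    generalize ((((2 * (2 * (1 + R) ^ 2) : ℝ) : ℂ)) ^ j)⁻¹ = u at h4
    generalize (((2 * (2 * (1 + R) ^ 2) : ℝ) : ℂ)) ^ j = u' at h4
    calc _ = (u * u') * ((V x : ℂ) * cg v l j * ((mn a : ℂ) *
        ((∏ i, (pp i x : ℂ) ^ a i) * ∏ i, (qq i y : ℂ) ^ a i))) := by ring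
      _ = _ := by rw [h4, one_mul]
  rw [Finset.sum_congr rfl h2, ← Finset.mul_sum]
  have h5 := Finset.sum_pow_eq_sum_piAntidiag (R := ℂ) (Finset.univ : Finset (Fin (2 * v + 5)))
    (fun i => ((pp i x * qq i y : ℝ) : ℂ)) j
  have h6 : (∑ i, ((pp i x * qq i y : ℝ) : ℂ)) = ((‖x - y‖ : ℝ) : ℂ) ^ 2 := by
    rw [← Complex.ofReal_sum, sum_pq, Complex.ofReal_pow]
  rw [h6] at h5
  unfold mn
  rw [← h5, ← pow_mul, mul_assoc]

end concretePart

end NGaux


theorem nuclear_Jg (v : ℕ) (R : ℝ) (hR : 0 ≤ R) (V : EV v → ℝ) (hV : Measurable V) (M : ℝ)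
    (hM : ∀ x, |V x| ≤ M) :
    ∃ (A : ℝ) (u : (Fin (2 * v + 5) → ℕ) → Lp ℂ 2 (muV v R))
      (φ : ℂ → (Fin (2 * v + 5) → ℕ) → Lp ℂ 2 (muV v R)),
      0 ≤ A ∧ Summable (fun a => ‖u a‖) ∧
      (∀ l a, ‖φ l a‖ ≤ A * (A ^ (∑ i, a i) * ‖l‖ ^ (2 * (∑ i, a i) + 2 * v + 1) /
        ((2 * (∑ i, a i) + 1).factorial : ℝ))) ∧
      (∀ (l : ℂ) (J : OpV v R),
        IsKer (muV v R) (fun x y => (V x : ℂ) * Jg v l ‖x - y‖) J →
        ∀ h, HasSum (fun a => ⟪φ l a, h⟫_ℂ • u a) (J h)) ∧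
      (∀ l, ∑' a, ⟪φ l a, u a⟫_ℂ = Jg v l 0 * ∫ x, (V x : ℂ) ∂(muV v R)) ∧
      (∀ (l : ℂ) (k : EV v → EV v → ℂ) (T : OpV v R),
        Measurable (Function.uncurry k) →
        Integrable (Function.uncurry k) ((muV v R).prod (muV v R)) → IsKer (muV v R) k T →
        ∑' a, ⟪φ l a, T (u a)⟫_ℂ =
          ∫ x, ∫ y, k x y * ((V y : ℂ) * Jg v l ‖y - x‖) ∂(muV v R) ∂(muV v R)) := by
  classical
  have hfin : IsFiniteMeasure (muV v R) := by
    refine ⟨?_⟩
    rw [Measure.restrict_apply_univ]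
    exact (isCompact_closedBall (0 : EV v) R).measure_lt_top
  have hM0 : 0 ≤ M := (abs_nonneg _).trans (hM 0)
  -- elements of `L²`
  have hwL : ∀ a, MemLp (NGaux.ww R V a) 2 (muV v R) := fun a =>
    MemLp.of_bound (NGaux.ww_meas R hV a).aestronglyMeasurable _
      (ae_of_all _ (NGaux.ww_bd hR hM a))
  have hpL : ∀ l a, MemLp (fun x => (starRingEnd ℂ) (NGaux.psi R l a x)) 2 (muV v R) := fun l a =>
    MemLp.of_bound
      (Complex.continuous_conj.measurable.comp (NGaux.psi_meas R l a)).aestronglyMeasurable _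
      (ae_of_all _ fun x => by
        rw [RCLike.norm_conj]
        exact NGaux.psi_bd hR l a x)
  let u : (Fin (2 * v + 5) → ℕ) → Lp ℂ 2 (muV v R) := fun a => (hwL a).toLp _
  let φ : ℂ → (Fin (2 * v + 5) → ℕ) → Lp ℂ 2 (muV v R) := fun l a => (hpL l a).toLp _
  have hv : ∀ a, (u a : EV v → ℂ) =ᵐ[muV v R] NGaux.ww R V a := fun a => (hwL a).coeFn_toLp
  have hφ : ∀ l a, (φ l a : EV v → ℂ) =ᵐ[muV v R] fun x => (starRingEnd ℂ) (NGaux.psi R l a x) :=
    fun l a => (hpL l a).coeFn_toLp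
  set c : ℝ := (measureUnivNNReal (muV v R) : ℝ) ^ (ENNReal.toReal 2)⁻¹ with hc
  have hc0 : 0 ≤ c := by positivity
  set B : ℝ := (2 * (v : ℝ) + 5) * (2 * (2 * (1 + R) ^ 2)) * (2 * (1 + R) ^ 2) with hB
  have hB0 : 0 ≤ B := by positivity
  have hball : ∀ᵐ x ∂(muV v R), x ∈ Metric.closedBall (0 : EV v) R :=
    ae_restrict_mem Metric.isClosed_closedBall.measurableSet
  have hα0 : ∀ a : Fin (2 * v + 5) → ℕ, 0 ≤ M * (1 / 2) ^ (∑ i, a i) := fun a => by positivity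
  have hβ0 : ∀ (l : ℂ) (a : Fin (2 * v + 5) → ℕ), 0 ≤ B ^ (∑ i, a i) *
      (‖l‖ ^ (2 * (∑ i, a i) + 2 * v + 1) / ((2 * (∑ i, a i) + 1).factorial : ℝ)) :=
    fun l a => by positivity
  refine ⟨max c B, u, φ, hc0.trans (le_max_left _ _), ?_, ?_, ?_, ?_, ?_⟩
  · refine Summable.of_nonneg_of_le (fun a => norm_nonneg _) (fun a => ?_)
      ((NGaux.summable_geo (2 * v + 5)).mul_left (c * M))
    have h1 : ‖u a‖ ≤ c * (M * (1 / 2) ^ (∑ i, a i)) := by
      refine Lp.norm_le_of_ae_bound (hα0 a) ?_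
      filter_upwards [hv a] with x hx
      rw [hx]
      exact NGaux.ww_bd hR hM a x
    rw [mul_assoc]
    exact h1
  · intro l a
    have h1 : ‖φ l a‖ ≤ c * (B ^ (∑ i, a i) *
        (‖l‖ ^ (2 * (∑ i, a i) + 2 * v + 1) / ((2 * (∑ i, a i) + 1).factorial : ℝ))) := by
      refine Lp.norm_le_of_ae_bound (hβ0 l a) ?_
      filter_upwards [hφ l a] with x hx
      rw [hx, RCLike.norm_conj]
      exact NGaux.psi_bd hR l a x
    refine h1.trans ?_
    refine mul_le_mul (le_max_left _ _) ?_ (hβ0 l a) (hc0.trans (le_max_left _ _))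
    rw [mul_div_assoc]
    refine mul_le_mul_of_nonneg_right ?_ (by positivity)
    exact pow_le_pow_left₀ hB0 (le_max_right _ _) _
  · intro l J hJ h
    refine NGaux.abs_one (NGaux.ww_meas R hV) (NGaux.psi_meas R l) hα0 (hβ0 l)
      (NGaux.ww_bd hR hM) (NGaux.psi_bd hR l) (NGaux.summable_ab R M l) hv (hφ l) _ ?_ J hJ h
    filter_upwards [hball] with x hx
    filter_upwards [hball] with y hy
    exact NGaux.kernel_eq hR hM l hx hy
  · intro l
    rw [NGaux.abs_two (NGaux.ww_meas R hV) (NGaux.psi_meas R l) hα0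
      (NGaux.ww_bd hR hM) (NGaux.psi_bd hR l) (NGaux.summable_ab R M l) hv (hφ l)
      (fun x => Jg v l 0 * (V x : ℂ)) ?_]
    · rw [integral_const_mul]
    · filter_upwards [hball] with x hx
      have h1 := NGaux.kernel_eq hR hM l hx hx
      rw [sub_self, norm_zero] at h1
      rw [← h1, mul_comm]
  · intro l k T _ hk hT
    refine NGaux.abs_three (NGaux.ww_meas R hV) (NGaux.psi_meas R l) hα0 (hβ0 l)
      (NGaux.ww_bd hR hM) (NGaux.psi_bd hR l) (NGaux.summable_ab R M l) hv (hφ l)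
      (fun y x => (V y : ℂ) * Jg v l ‖y - x‖) ?_ k T hk hT
    filter_upwards [hball] with x hx
    filter_upwards [hball] with y hy
    exact NGaux.kernel_eq hR hM l hy hx

end Pool.Agent.H269
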