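import Pool.Agent.H269.DefsG

/-!
# GN-31 product bound, general exponents (MP_f2af60_mp, infinitely many resonances in odd dimension)
-/

set_option autoImplicit false

open MeasureTheory Filter Topology Complex
open scoped InnerProductSpace ENNReal NNReal

namespace Pool.Agent.H269


theorem gb_pow_le {y : ℝ} (hy : 0 ≤ y) (n : ℕ) :
    y ^ n / (n.factorial : ℝ) ≤ Real.exp y := by
  have h := Real.sum_le_exp_of_nonneg hy (n + 1)
  refine le_trans ?_ h
  exact Finset.single_le_sum (f := fun i => y ^ i / (i.factorial : ℝ))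
    (fun i _ => by positivity) (Finset.mem_range.2 (Nat.lt_succ_self n))

theorem gb_tail {y : ℝ} (hy : 0 ≤ y) {n : ℕ} (hn : 16 * y ≤ n) :
    y ^ n / (n.factorial : ℝ) ≤ (1 / 2) ^ n := by
  have h1 := gb_pow_le (show 0 ≤ 16 * y by positivity) n
  have h2 : Real.exp (16 * y) ≤ 3 ^ n := by
    calc Real.exp (16 * y) ≤ Real.exp n := Real.exp_le_exp.2 hn
      _ = Real.exp 1 ^ n := by rw [← Real.exp_nat_mul, mul_one]
      _ ≤ 3 ^ n := pow_le_pow_left₀ (Real.exp_pos _).le
          (by linarith [Real.exp_one_lt_d9]) n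
  have h3 : (16 * y) ^ n / (n.factorial : ℝ) = 16 ^ n * (y ^ n / (n.factorial : ℝ)) := by
    rw [mul_pow, mul_div_assoc]
  rw [h3] at h1
  have h4 : (3 : ℝ) ^ n ≤ 16 ^ n * (1 / 2) ^ n := by
    rw [← mul_pow]
    exact pow_le_pow_left₀ (by norm_num) (by norm_num) n
  have h5 : (0 : ℝ) < 16 ^ n := by positivity
  have h6 : 16 ^ n * (y ^ n / (n.factorial : ℝ)) ≤ 16 ^ n * (1 / 2) ^ n := by linarith
  exact le_of_mul_le_mul_left h6 h5

theorem gb_sum (d : ℕ) (F : Finset (Fin d → ℕ)) :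
    ∑ a ∈ F, (1 / 2 : ℝ) ^ (∑ i, a i) ≤ 2 ^ d := by
  classical
  set N : ℕ := F.sup (fun a => ∑ i, a i) + 1 with hN
  have hsub : F ⊆ Fintype.piFinset (fun _ : Fin d => Finset.range N) := by
    intro a ha
    rw [Fintype.mem_piFinset]
    intro i
    rw [Finset.mem_range, hN, Nat.lt_succ_iff]
    have h1 : a i ≤ ∑ i, a i := Finset.single_le_sum (f := a) (fun _ _ => Nat.zero_le _)
      (Finset.mem_univ i)
    exact h1.trans (Finset.le_sup (f := fun a : Fin d → ℕ => ∑ i, a i) ha)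
  have h1 : ∑ j ∈ Finset.range N, (1 / 2 : ℝ) ^ j ≤ 2 := by
    have h := geom_sum_Ico_le_of_lt_one (x := (1 / 2 : ℝ)) (m := 0) (n := N) (by norm_num)
      (by norm_num)
    rw [Finset.range_eq_Ico]
    refine h.trans ?_
    norm_num
  calc ∑ a ∈ F, (1 / 2 : ℝ) ^ (∑ i, a i)
      ≤ ∑ a ∈ Fintype.piFinset (fun _ : Fin d => Finset.range N), (1 / 2 : ℝ) ^ (∑ i, a i) :=
        Finset.sum_le_sum_of_subset_of_nonneg hsub (fun _ _ _ => by positivity)
    _ = ∑ a ∈ Fintype.piFinset (fun _ : Fin d => Finset.range N), ∏ i, (1 / 2 : ℝ) ^ (a i) := by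
        refine Finset.sum_congr rfl fun a _ => ?_
        rw [Finset.prod_pow_eq_pow_sum]
    _ = ∏ _i : Fin d, ∑ j ∈ Finset.range N, (1 / 2 : ℝ) ^ j := by
        rw [Finset.prod_univ_sum]
    _ ≤ ∏ _i : Fin d, (2 : ℝ) := Finset.prod_le_prod (fun _ _ => by positivity) (fun _ _ => h1)
    _ = 2 ^ d := by simp

theorem prod_boundG (d v : ℕ) (A B : ℝ) (hA : 0 ≤ A) (hB : 0 ≤ B) :
    ∃ C : ℝ, ∀ x : ℝ, 0 ≤ x → ∀ F : Finset (Fin d → ℕ),
      ∏ a ∈ F, (1 + B * (A ^ (∑ i, a i) * x ^ (2 * (∑ i, a i) + 2 * v + 1) /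
        ((2 * (∑ i, a i) + 1).factorial : ℝ))) ≤ Real.exp (C * (1 + x) ^ (d + 2)) := by
  classical
  set c : ℝ := A + 1 with hc
  have hc1 : 1 ≤ c := by linarith
  set G : ℝ := B * ((2 * v).factorial : ℝ) with hG
  have hG0 : 0 ≤ G := by positivity
  refine ⟨(16 * c + 1) ^ d * (c + 1 + G) + 2 ^ d * G, fun x hx F => ?_⟩
  set K0 : ℕ := ⌈16 * c * (1 + x)⌉₊ with hK0
  have hK0l : 16 * c * (1 + x) ≤ K0 := Nat.le_ceil _
  have hK0u : (K0 : ℝ) ≤ (16 * c + 1) * (1 + x) := by
    have h := (Nat.ceil_lt_add_one (show 0 ≤ 16 * c * (1 + x) by positivity)).le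
    refine h.trans ?_
    nlinarith
  set y : ℝ := c * x with hy
  have hy0 : 0 ≤ y := by positivity
  have hxv : x ^ (2 * v) ≤ ((2 * v).factorial : ℝ) * Real.exp x := by
    have h := gb_pow_le hx (2 * v)
    rw [div_le_iff₀ (by positivity)] at h
    linarith
  -- the terms
  have hAk : ∀ k : ℕ, A ^ k * x ^ (2 * k + 2 * v + 1) / ((2 * k + 1).factorial : ℝ)
      ≤ x ^ (2 * v) * (y ^ (2 * k + 1) / ((2 * k + 1).factorial : ℝ)) := by
    intro k
    have h1 : A ^ k ≤ c ^ (2 * k + 1) := by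
      calc A ^ k ≤ c ^ k := pow_le_pow_left₀ hA (by linarith) k
        _ ≤ c ^ (2 * k + 1) := pow_le_pow_right₀ hc1 (by omega)
    have h2 : A ^ k * x ^ (2 * k + 2 * v + 1) ≤ x ^ (2 * v) * y ^ (2 * k + 1) := by
      rw [hy, mul_pow, show 2 * k + 2 * v + 1 = 2 * v + (2 * k + 1) by ring, pow_add x (2 * v)]
      have h3 : 0 ≤ x ^ (2 * v) * x ^ (2 * k + 1) := by positivity
      calc A ^ k * (x ^ (2 * v) * x ^ (2 * k + 1))
          ≤ c ^ (2 * k + 1) * (x ^ (2 * v) * x ^ (2 * k + 1)) :=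
            mul_le_mul_of_nonneg_right h1 h3
        _ = x ^ (2 * v) * (c ^ (2 * k + 1) * x ^ (2 * k + 1)) := by ring
    rw [← mul_div_assoc]
    exact div_le_div_of_nonneg_right h2 (by positivity)
  -- B times the term
  have hBk : ∀ k : ℕ, B * (A ^ k * x ^ (2 * k + 2 * v + 1) / ((2 * k + 1).factorial : ℝ))
      ≤ G * (Real.exp x * (y ^ (2 * k + 1) / ((2 * k + 1).factorial : ℝ))) := by
    intro k
    have h1 := mul_le_mul_of_nonneg_left (hAk k) hB
    have h2 : 0 ≤ y ^ (2 * k + 1) / ((2 * k + 1).factorial : ℝ) := by positivity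
    have h3 := mul_le_mul_of_nonneg_left (mul_le_mul_of_nonneg_right hxv h2) hB
    calc _ ≤ _ := h1
      _ ≤ _ := h3
      _ = _ := by rw [hG]; ring
  set D : ℝ := (c + 1 + G) * (1 + x) with hD
  have hD0 : 0 ≤ D := by positivity
  have hfac : ∀ a ∈ F, 1 + B * (A ^ (∑ i, a i) * x ^ (2 * (∑ i, a i) + 2 * v + 1) /
        ((2 * (∑ i, a i) + 1).factorial : ℝ))
      ≤ Real.exp ((if (∑ i, a i) < K0 then D else 0) + G * (1 / 2) ^ (∑ i, a i)) := by
    intro a _
    set k := ∑ i, a i with hk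
    have h1 := hBk k
    have h2 : 0 ≤ G * (1 / 2) ^ k := by positivity
    split_ifs with hkK
    · have h3 := gb_pow_le hy0 (2 * k + 1)
      have h4 : 1 + G * (Real.exp x * Real.exp y) ≤ Real.exp (x + y + G) := by
        rw [← Real.exp_add]
        have h5 : 1 ≤ Real.exp (x + y) := Real.one_le_exp (by positivity)
        have h6 : 1 + G ≤ Real.exp G := by
          have := Real.add_one_le_exp G
          linarith
        calc 1 + G * Real.exp (x + y) ≤ Real.exp (x + y) * (1 + G) := by nlinarith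
          _ ≤ Real.exp (x + y) * Real.exp G :=
              mul_le_mul_of_nonneg_left h6 (Real.exp_pos _).le
          _ = Real.exp (x + y + G) := by rw [← Real.exp_add]
      have h7 : G * (Real.exp x * (y ^ (2 * k + 1) / ((2 * k + 1).factorial : ℝ)))
          ≤ G * (Real.exp x * Real.exp y) :=
        mul_le_mul_of_nonneg_left (mul_le_mul_of_nonneg_left h3 (Real.exp_pos _).le) hG0
      have h8 : x + y + G ≤ D + G * (1 / 2) ^ k := by
        have h9 : x + y + G ≤ D := by
          rw [hy, hD]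
          nlinarith [mul_nonneg hG0 hx, mul_nonneg (by linarith : (0 : ℝ) ≤ c) hx]
        linarith
      calc _ ≤ 1 + G * (Real.exp x * Real.exp y) := by linarith
        _ ≤ Real.exp (x + y + G) := h4
        _ ≤ _ := Real.exp_le_exp.2 h8
    · push Not at hkK
      have hkr : (K0 : ℝ) ≤ k := by exact_mod_cast hkK
      have h3 : y ^ (2 * k + 1) / ((2 * k + 1).factorial : ℝ) ≤ (1 / 2) ^ (2 * k + 1) := by
        apply gb_tail hy0
        push_cast
        rw [hy]
        nlinarith [(Nat.cast_nonneg k : (0 : ℝ) ≤ k)]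
      have h4 : Real.exp x * ((1 : ℝ) / 2) ^ (2 * k + 1) ≤ (1 / 2) ^ k := by
        have e1 : Real.exp x ≤ 2 ^ (k + 1) := by
          have e2 : 2 * x ≤ ((k + 1 : ℕ) : ℝ) := by
            push_cast
            nlinarith
          have e3 : Real.exp 1 ≤ 4 := by linarith [Real.exp_one_lt_d9]
          have e4 : Real.exp x * Real.exp x ≤ 2 ^ (k + 1) * 2 ^ (k + 1) := by
            calc Real.exp x * Real.exp x = Real.exp (2 * x) := by
                  rw [← Real.exp_add]; congr 1; ring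
              _ ≤ Real.exp ((k + 1 : ℕ) : ℝ) := Real.exp_le_exp.2 e2
              _ = Real.exp 1 ^ (k + 1) := by rw [← Real.exp_nat_mul, mul_one]
              _ ≤ 4 ^ (k + 1) := pow_le_pow_left₀ (Real.exp_pos _).le e3 _
              _ = 2 ^ (k + 1) * 2 ^ (k + 1) := by rw [← mul_pow]; norm_num
          by_contra hcon
          push Not at hcon
          have e5 : (0 : ℝ) < 2 ^ (k + 1) := by positivity
          nlinarith
        calc Real.exp x * ((1 : ℝ) / 2) ^ (2 * k + 1)
            ≤ 2 ^ (k + 1) * ((1 : ℝ) / 2) ^ (2 * k + 1) :=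
              mul_le_mul_of_nonneg_right e1 (by positivity)
          _ = (2 * (1 / 2)) ^ (k + 1) * (1 / 2) ^ k := by
              rw [show 2 * k + 1 = (k + 1) + k by ring, pow_add, mul_pow]; ring
          _ = (1 / 2) ^ k := by norm_num
      have h5 : G * (Real.exp x * (y ^ (2 * k + 1) / ((2 * k + 1).factorial : ℝ)))
          ≤ G * (1 / 2) ^ k := by
        refine mul_le_mul_of_nonneg_left ?_ hG0
        exact (mul_le_mul_of_nonneg_left h3 (Real.exp_pos _).le).trans h4
      have h6 := Real.add_one_le_exp (G * (1 / 2) ^ k)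
      rw [zero_add]
      linarith
  have hcard : ((F.filter fun a => (∑ i, a i) < K0).card : ℝ) ≤ (K0 : ℝ) ^ d := by
    have hsub : (F.filter fun a => (∑ i, a i) < K0)
        ⊆ Fintype.piFinset (fun _ : Fin d => Finset.range K0) := by
      intro a ha
      rw [Finset.mem_filter] at ha
      rw [Fintype.mem_piFinset]
      intro i
      rw [Finset.mem_range]
      exact lt_of_le_of_lt (Finset.single_le_sum (f := a) (fun _ _ => Nat.zero_le _)
        (Finset.mem_univ i)) ha.2
    have h := Finset.card_le_card hsub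
    rw [Fintype.card_piFinset] at h
    simp only [Finset.card_range, Finset.prod_const, Finset.card_univ, Fintype.card_fin] at h
    exact_mod_cast h
  have hx1 : 1 ≤ 1 + x := by linarith
  calc ∏ a ∈ F, (1 + B * (A ^ (∑ i, a i) * x ^ (2 * (∑ i, a i) + 2 * v + 1) /
        ((2 * (∑ i, a i) + 1).factorial : ℝ)))
      ≤ ∏ a ∈ F, Real.exp ((if (∑ i, a i) < K0 then D else 0)
          + G * (1 / 2) ^ (∑ i, a i)) :=
        Finset.prod_le_prod (fun a _ => by positivity) hfac
    _ = Real.exp (∑ a ∈ F, ((if (∑ i, a i) < K0 then D else 0)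
          + G * (1 / 2) ^ (∑ i, a i))) := by rw [Real.exp_sum]
    _ ≤ _ := by
        apply Real.exp_le_exp.2
        rw [Finset.sum_add_distrib, ← Finset.mul_sum, ← Finset.sum_filter, Finset.sum_const,
          nsmul_eq_mul]
        have h1 := gb_sum d F
        have h2 : G * ∑ a ∈ F, (1 / 2 : ℝ) ^ (∑ i, a i) ≤ G * 2 ^ d :=
          mul_le_mul_of_nonneg_left h1 hG0
        have h3 : ((F.filter fun a => (∑ i, a i) < K0).card : ℝ) * D
            ≤ ((16 * c + 1) * (1 + x)) ^ d * D :=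
          mul_le_mul_of_nonneg_right
            (hcard.trans (pow_le_pow_left₀ (Nat.cast_nonneg _) hK0u d)) hD0
        have h4 : ((16 * c + 1) * (1 + x)) ^ d * D
            = (16 * c + 1) ^ d * (c + 1 + G) * (1 + x) ^ (d + 1) := by
          rw [hD, mul_pow, pow_succ]; ring
        have h5 : (1 : ℝ) ≤ (1 + x) ^ (d + 2) := one_le_pow₀ hx1
        have h6 : G * 2 ^ d ≤ 2 ^ d * G * (1 + x) ^ (d + 2) := by
          have := mul_le_mul_of_nonneg_left h5 (show 0 ≤ 2 ^ d * G by positivity)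
          linarith
        have h7 : (1 + x) ^ (d + 1) ≤ (1 + x) ^ (d + 2) := pow_le_pow_right₀ hx1 (by omega)
        have h8 : (16 * c + 1) ^ d * (c + 1 + G) * (1 + x) ^ (d + 1)
            ≤ (16 * c + 1) ^ d * (c + 1 + G) * (1 + x) ^ (d + 2) :=
          mul_le_mul_of_nonneg_left h7 (by positivity)
        rw [h4] at h3
        rw [add_mul]
        linarith

end Pool.Agent.H269
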