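import Pool.Agent.H269.DefsG
import Pool.Agent.H269.GN.G020
import Pool.Agent.H269.GN.G021
import Pool.Agent.H269.GN.G028
import Pool.Agent.H269.R5.J15

/-!
# GN-40 existence of the operator family, odd dimension (MP_f2af60_mp, infinitely many resonances in odd dimension)
-/

set_option autoImplicit false

open MeasureTheory Filter Topology Complex
open scoped InnerProductSpace ENNReal NNReal

namespace Pool.Agent.H269


theorem exists_FamG_lint (v : ℕ) (C : ℝ) : ∃ K : ℝ, 0 ≤ K ∧ ∀ x : EV v,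
    (∫⁻ y : EV v, ENNReal.ofReal (C * (Real.exp (-1 * ‖x - y‖) / ‖x - y‖ ^ (2 * v + 1))) ≤
      ENNReal.ofReal K) ∧
    (∫⁻ y : EV v, ENNReal.ofReal (C * (Real.exp (-1 * ‖y - x‖) / ‖y - x‖ ^ (2 * v + 1))) ≤
      ENNReal.ofReal K) := by
  have h1 := rad_int v (2 * v + 1) (by omega) 1 one_pos
  set c : ℝ := (∫⁻ x : EV v, ENNReal.ofReal (Real.exp (-1 * ‖x‖) / ‖x‖ ^ (2 * v + 1))).toReal
    with hc
  have hc1 : ∫⁻ x : EV v, ENNReal.ofReal (Real.exp (-1 * ‖x‖) / ‖x‖ ^ (2 * v + 1)) =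
      ENNReal.ofReal c := by
    rw [hc, ENNReal.ofReal_toReal h1.ne]
  have hc0 : 0 ≤ c := ENNReal.toReal_nonneg
  have hfm : Measurable (fun y : EV v => ENNReal.ofReal (Real.exp (-1 * ‖y‖) / ‖y‖ ^ (2 * v + 1))) := by
    fun_prop
  have h2 : ∫⁻ y : EV v, ENNReal.ofReal (|C| * (Real.exp (-1 * ‖y‖) / ‖y‖ ^ (2 * v + 1))) =
      ENNReal.ofReal (|C| * c) := by
    rw [ENNReal.ofReal_mul (abs_nonneg C), ← hc1, ← lintegral_const_mul _ hfm]
    apply lintegral_congr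
    intro y
    rw [ENNReal.ofReal_mul (abs_nonneg C)]
  refine ⟨|C| * c, by positivity, fun x => ⟨?_, ?_⟩⟩
  · rw [← h2, ← lintegral_sub_left_eq_self
      (fun y : EV v => ENNReal.ofReal (|C| * (Real.exp (-1 * ‖y‖) / ‖y‖ ^ (2 * v + 1)))) x]
    apply lintegral_mono
    intro y
    apply ENNReal.ofReal_le_ofReal
    have : 0 ≤ Real.exp (-1 * ‖x - y‖) / ‖x - y‖ ^ (2 * v + 1) := by positivity
    exact mul_le_mul_of_nonneg_right (le_abs_self C) this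
  · rw [← h2, ← lintegral_sub_right_eq_self
      (fun y : EV v => ENNReal.ofReal (|C| * (Real.exp (-1 * ‖y‖) / ‖y‖ ^ (2 * v + 1)))) x]
    apply lintegral_mono
    intro y
    apply ENNReal.ofReal_le_ofReal
    have : 0 ≤ Real.exp (-1 * ‖y - x‖) / ‖y - x‖ ^ (2 * v + 1) := by positivity
    exact mul_le_mul_of_nonneg_right (le_abs_self C) this

theorem exists_FamG_ker (v : ℕ) (R : ℝ) (u : EV v → ℂ) (hu : Measurable u) (M : ℝ)
    (hM : ∀ x, ‖u x‖ ≤ M) (φ : ℝ → ℂ) (hφ : Measurable φ) (C : ℝ)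
    (hb : ∀ r, 0 ≤ r → r ≤ 2 * R → ‖φ r‖ ≤ C * (Real.exp (-1 * r) / r ^ (2 * v + 1))) :
    ∃ A : OpV v R, IsKer (muV v R) (fun x y => u x * φ ‖x - y‖) A := by
  have : IsFiniteMeasure (muV v R) := ⟨by
    rw [Measure.restrict_apply_univ]
    exact measure_closedBall_lt_top⟩
  obtain ⟨K, hK, hKx⟩ := exists_FamG_lint v (M * C)
  have hM0 : 0 ≤ M := (norm_nonneg _).trans (hM 0)
  have hmem : ∀ᵐ x ∂(muV v R), x ∈ Metric.closedBall (0 : EV v) R :=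
    ae_restrict_mem Metric.isClosed_closedBall.measurableSet
  have hle : ∀ x ∈ Metric.closedBall (0 : EV v) R, ∀ y ∈ Metric.closedBall (0 : EV v) R,
      ∀ z, ‖u z * φ ‖x - y‖‖ₑ ≤
        ENNReal.ofReal (M * C * (Real.exp (-1 * ‖x - y‖) / ‖x - y‖ ^ (2 * v + 1))) := by
    intro x hx y hy z
    rw [mem_closedBall_zero_iff] at hx hy
    have h1 : ‖x - y‖ ≤ 2 * R := (norm_sub_le x y).trans (by linarith)
    have h2 := hb ‖x - y‖ (norm_nonneg _) h1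
    rw [← ofReal_norm, norm_mul]
    apply ENNReal.ofReal_le_ofReal
    calc ‖u z‖ * ‖φ ‖x - y‖‖ ≤ M * (C * (Real.exp (-1 * ‖x - y‖) / ‖x - y‖ ^ (2 * v + 1))) :=
          mul_le_mul (hM z) h2 (norm_nonneg _) hM0
      _ = _ := by ring
  have hmeas : Measurable (Function.uncurry (fun x y : EV v => u x * φ ‖x - y‖)) := by
    have h1 : Measurable (fun p : EV v × EV v => u p.1) := hu.comp measurable_fst
    have h2 : Measurable (fun p : EV v × EV v => φ ‖p.1 - p.2‖) := by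
      apply hφ.comp
      fun_prop
    exact h1.mul h2
  have g1 : ∀ᵐ x ∂(muV v R), ∫⁻ y, ‖u x * φ ‖x - y‖‖ₑ ∂(muV v R) ≤ ENNReal.ofReal K := by
    filter_upwards [hmem] with x hx
    calc ∫⁻ y, ‖u x * φ ‖x - y‖‖ₑ ∂(muV v R)
        ≤ ∫⁻ y, ENNReal.ofReal (M * C * (Real.exp (-1 * ‖x - y‖) / ‖x - y‖ ^ (2 * v + 1)))
            ∂(muV v R) := by
          apply lintegral_mono_ae
          filter_upwards [hmem] with y hy
          exact hle x hx y hy x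
      _ ≤ ∫⁻ y, ENNReal.ofReal (M * C * (Real.exp (-1 * ‖x - y‖) / ‖x - y‖ ^ (2 * v + 1))) :=
          setLIntegral_le_lintegral _ _
      _ ≤ _ := (hKx x).1
  have g2 : ∀ᵐ y ∂(muV v R), ∫⁻ x, ‖u x * φ ‖x - y‖‖ₑ ∂(muV v R) ≤ ENNReal.ofReal K := by
    filter_upwards [hmem] with y hy
    calc ∫⁻ x, ‖u x * φ ‖x - y‖‖ₑ ∂(muV v R)
        ≤ ∫⁻ x, ENNReal.ofReal (M * C * (Real.exp (-1 * ‖x - y‖) / ‖x - y‖ ^ (2 * v + 1)))
            ∂(muV v R) := by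
          apply lintegral_mono_ae
          filter_upwards [hmem] with x hx
          exact hle x hx y hy x
      _ ≤ ∫⁻ x, ENNReal.ofReal (M * C * (Real.exp (-1 * ‖x - y‖) / ‖x - y‖ ^ (2 * v + 1))) :=
          setLIntegral_le_lintegral _ _
      _ ≤ _ := (hKx y).2
  obtain ⟨A, hA, -⟩ := exists_isKer (μ := muV v R) (fun x y => u x * φ ‖x - y‖) hmeas K hK g1 g2
  exact ⟨A, hA⟩

theorem exists_FamG_exp (l : ℂ) (r R : ℝ) (h0 : 0 ≤ r) (h1 : r ≤ 2 * R) :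
    Real.exp (-l.im * r) ≤ Real.exp (‖l‖ * (2 * R)) * Real.exp (2 * R) * Real.exp (-1 * r) := by
  rw [← Real.exp_add, ← Real.exp_add]
  apply Real.exp_le_exp.2
  have h2 : |l.im| ≤ ‖l‖ := Complex.abs_im_le_norm l
  have h3 : -l.im ≤ ‖l‖ := (neg_le_abs _).trans h2
  have h4 : -l.im * r ≤ ‖l‖ * r := mul_le_mul_of_nonneg_right h3 h0
  have h5 : ‖l‖ * r ≤ ‖l‖ * (2 * R) := mul_le_mul_of_nonneg_left h1 (norm_nonneg _)
  linarith

theorem exists_FamG_Gr (v : ℕ) (l : ℂ) (R : ℝ) : ∃ C : ℝ, ∀ r, 0 ≤ r → r ≤ 2 * R →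
    ‖Gr v l r‖ ≤ C * (Real.exp (-1 * r) / r ^ (2 * v + 1)) := by
  obtain ⟨C, hC, hG⟩ := Gr_bound v
  refine ⟨C * (1 + ‖l‖ * (2 * R)) ^ v * (Real.exp (‖l‖ * (2 * R)) * Real.exp (2 * R)),
    fun r h0 h1 => ?_⟩
  refine (hG l r h0).trans ?_
  have h2 := exists_FamG_exp l r R h0 h1
  have h4 : ‖l‖ * r ≤ ‖l‖ * (2 * R) := mul_le_mul_of_nonneg_left h1 (norm_nonneg _)
  have h5 : 0 ≤ ‖l‖ * r := by positivity
  have h6 : (1 + ‖l‖ * r) ^ v ≤ (1 + ‖l‖ * (2 * R)) ^ v :=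
    pow_le_pow_left₀ (by linarith) (by linarith) v
  have h3 : C * (1 + ‖l‖ * r) ^ v * Real.exp (-l.im * r) ≤ C * (1 + ‖l‖ * (2 * R)) ^ v *
      (Real.exp (‖l‖ * (2 * R)) * Real.exp (2 * R) * Real.exp (-1 * r)) := by
    refine mul_le_mul (mul_le_mul_of_nonneg_left h6 hC.le) h2 (Real.exp_pos _).le ?_
    have : 0 ≤ 1 + ‖l‖ * (2 * R) := by linarith
    positivity
  calc C * (1 + ‖l‖ * r) ^ v * Real.exp (-l.im * r) / r ^ (2 * v + 1)
      ≤ C * (1 + ‖l‖ * (2 * R)) ^ v *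
      (Real.exp (‖l‖ * (2 * R)) * Real.exp (2 * R) * Real.exp (-1 * r)) / r ^ (2 * v + 1) :=
        div_le_div_of_nonneg_right h3 (by positivity)
    _ = _ := by ring


section OSec

variable {v : ℕ} {R M : ℝ} {V : EV v → ℝ} {A T : ℂ → OpV v R}

theorem exists_FamG (v : ℕ) (R M : ℝ) (V : EV v → ℝ) (hR : 0 < R) (hM : 0 ≤ M) (hV : Measurable V)
    (hb : ∀ x, |V x| ≤ M) (hs : ∀ x, x ∉ Metric.closedBall (0 : EV v) R → V x = 0) :
    ∃ A T : ℂ → OpV v R, FamG v R M V A T := by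
  have hGm : ∀ l, Measurable (Gr v l) := fun l => Gr_measurable v l
  have hVc : Measurable (fun x => (V x : ℂ)) := Complex.measurable_ofReal.comp hV
  have hVb : ∀ x, ‖(V x : ℂ)‖ ≤ M := by
    intro x; rw [Complex.norm_real]; exact hb x
  have hA : ∀ l, ∃ A : OpV v R, IsKer (muV v R) (fun x y => Gr v l ‖x - y‖) A := by
    intro l
    obtain ⟨C, hC⟩ := exists_FamG_Gr v l R
    obtain ⟨A, hA⟩ := exists_FamG_ker v R (fun _ => 1) measurable_const 1 (fun _ => by simp)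
      (Gr v l) (hGm l) C hC
    refine ⟨A, ?_⟩
    simpa only [one_mul] using hA
  have hT : ∀ l, ∃ A : OpV v R, IsKer (muV v R) (fun x y => (V x : ℂ) * Gr v l ‖x - y‖) A := by
    intro l
    obtain ⟨C, hC⟩ := exists_FamG_Gr v l R
    exact exists_FamG_ker v R (fun x => (V x : ℂ)) hVc M hVb (Gr v l) (hGm l) C hC
  choose A hA using hA
  choose T hT using hT
  exact ⟨A, T, ⟨hR, hM, hV, hb, hs, hA, hT⟩⟩

end OSec

end Pool.Agent.H269

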