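import Pool.Agent.H269.DefsG
import Pool.Agent.H269.GN.G020
import Pool.Agent.H269.GN.G021
import Pool.Agent.H269.GN.G028
import Pool.Agent.H269.R5.J15
import Pool.Agent.H269.R5.J16

/-!
# GN-41 operator family: V times the resolvent, growth (MP_f2af60_mp, infinitely many resonances in odd dimension)
-/

set_option autoImplicit false

open MeasureTheory Filter Topology Complex
open scoped InnerProductSpace ENNReal NNReal

namespace Pool.Agent.H269



section OSec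

variable {v : ℕ} {R M : ℝ} {V : EV v → ℝ} {A T : ℂ → OpV v R}

theorem FamG.T_apply (F : FamG v R M V A T) (l : ℂ) (f : Lp ℂ 2 (muV v R)) :
    (T l f : EV v → ℂ) =ᵐ[muV v R] fun x => (V x : ℂ) * (A l f : EV v → ℂ) x := by
  filter_upwards [(F.kT l f).2, (F.kA l f).2] with x h1 h2
  rw [h1, h2, ← integral_const_mul]
  refine integral_congr_ae (Filter.Eventually.of_forall fun y => ?_)
  simp only [mul_assoc]

theorem FamG.T_norm (F : FamG v R M V A T) (l : ℂ) : ‖T l‖ ≤ M * ‖A l‖ := by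
  refine ContinuousLinearMap.opNorm_le_bound _ (mul_nonneg F.hM (norm_nonneg _)) fun f => ?_
  have h1 : ‖T l f‖ ≤ M * ‖A l f‖ := by
    refine Lp.norm_le_mul_norm_of_ae_le_mul ?_
    filter_upwards [F.T_apply l f] with x hx
    rw [hx, norm_mul, Complex.norm_real]
    exact mul_le_mul_of_nonneg_right (F.bdd x) (norm_nonneg _)
  refine h1.trans ?_
  rw [mul_assoc]
  exact mul_le_mul_of_nonneg_left ((A l).le_opNorm f) F.hM

/-- pointwise bound of the Green function on bounded distances -/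
theorem Gr_le_aux (v : ℕ) (R B : ℝ) (hR : 0 < R) (hB : 0 ≤ B) : ∃ C : ℝ, 0 ≤ C ∧
    ∀ (l : ℂ) (r : ℝ), -B ≤ l.im → 0 ≤ r → r ≤ 2 * R →
      ‖Gr v l r‖ ≤ C * (1 + ‖l‖) ^ v * (Real.exp (-1 * r) / r ^ (2 * v + 1)) := by
  obtain ⟨C, hC, h⟩ := Gr_bound v
  refine ⟨C * (1 + 2 * R) ^ v * Real.exp (2 * R * B + 2 * R), by positivity,
    fun l r hl hr hr2 => (h l r hr).trans ?_⟩
  have hn := norm_nonneg l
  have e1 : (1 + ‖l‖ * r) ^ v ≤ (1 + 2 * R) ^ v * (1 + ‖l‖) ^ v := by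
    rw [← mul_pow]
    refine pow_le_pow_left₀ (by positivity) ?_ v
    have : ‖l‖ * r ≤ ‖l‖ * (2 * R) := mul_le_mul_of_nonneg_left hr2 hn
    nlinarith
  have e2 : Real.exp (-l.im * r) ≤ Real.exp (2 * R * B + 2 * R) * Real.exp (-1 * r) := by
    rw [← Real.exp_add]
    refine Real.exp_le_exp.2 ?_
    have h1 : -l.im * r ≤ B * r := mul_le_mul_of_nonneg_right (by linarith) hr
    have h2 : B * r ≤ B * (2 * R) := mul_le_mul_of_nonneg_left hr2 hB
    linarith
  have e3 : C * (1 + ‖l‖ * r) ^ v * Real.exp (-l.im * r) ≤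
      C * ((1 + 2 * R) ^ v * (1 + ‖l‖) ^ v) *
        (Real.exp (2 * R * B + 2 * R) * Real.exp (-1 * r)) :=
    mul_le_mul (mul_le_mul_of_nonneg_left e1 hC.le) e2 (Real.exp_nonneg _) (by positivity)
  calc C * (1 + ‖l‖ * r) ^ v * Real.exp (-l.im * r) / r ^ (2 * v + 1)
      ≤ C * ((1 + 2 * R) ^ v * (1 + ‖l‖) ^ v) *
        (Real.exp (2 * R * B + 2 * R) * Real.exp (-1 * r)) / r ^ (2 * v + 1) :=
        div_le_div_of_nonneg_right e3 (by positivity)
    _ = _ := by ring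

theorem FamG.growth (F : FamG v R M V A T) (B : ℝ) (hB : 0 ≤ B) :
    ∃ C : ℝ, 0 ≤ C ∧ ∀ l : ℂ, -B ≤ l.im → ‖A l‖ ≤ C * (1 + ‖l‖) ^ v := by
  obtain ⟨C, hC, h⟩ := Gr_le_aux v R B F.hR hB
  have hJ := rad_int v (2 * v + 1) (by omega) 1 one_pos
  set J : ℝ≥0∞ := ∫⁻ x : EV v, ENNReal.ofReal (Real.exp (-1 * ‖x‖) / ‖x‖ ^ (2 * v + 1)) with hJd
  refine ⟨C * J.toReal, mul_nonneg hC ENNReal.toReal_nonneg, fun l hl => ?_⟩
  have : IsFiniteMeasure (muV v R) :=
    ⟨by rw [Measure.restrict_apply_univ]; exact measure_closedBall_lt_top⟩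
  have hn : 0 ≤ C * (1 + ‖l‖) ^ v := by positivity
  -- bound on the ball
  have key : ∀ x y : EV v, x ∈ Metric.closedBall (0 : EV v) R → y ∈ Metric.closedBall (0 : EV v) R →
      ‖Gr v l ‖x - y‖‖ₑ ≤ ENNReal.ofReal (C * (1 + ‖l‖) ^ v) *
        ENNReal.ofReal (Real.exp (-1 * ‖x - y‖) / ‖x - y‖ ^ (2 * v + 1)) := by
    intro x y hx hy
    rw [← ENNReal.ofReal_mul hn, ← ofReal_norm]
    refine ENNReal.ofReal_le_ofReal (h l _ hl (norm_nonneg _) ?_)
    rw [mem_closedBall_zero_iff] at hx hy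
    have := norm_sub_le x y
    linarith
  have hbd : ∀ x : EV v, x ∈ Metric.closedBall (0 : EV v) R →
      ∫⁻ y, ‖Gr v l ‖x - y‖‖ₑ ∂(muV v R) ≤ ENNReal.ofReal (C * J.toReal * (1 + ‖l‖) ^ v) := by
    intro x hx
    have s1 : ∫⁻ y, ‖Gr v l ‖x - y‖‖ₑ ∂(muV v R) ≤
        ∫⁻ y, ENNReal.ofReal (C * (1 + ‖l‖) ^ v) *
          ENNReal.ofReal (Real.exp (-1 * ‖x - y‖) / ‖x - y‖ ^ (2 * v + 1)) ∂(muV v R) := by
      refine lintegral_mono_ae ?_
      filter_upwards [ae_restrict_mem (measurableSet_closedBall)] with y hy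
      exact key x y hx hy
    have s2 : ∫⁻ y, ENNReal.ofReal (C * (1 + ‖l‖) ^ v) *
          ENNReal.ofReal (Real.exp (-1 * ‖x - y‖) / ‖x - y‖ ^ (2 * v + 1)) ∂(muV v R) ≤
        ∫⁻ y : EV v, ENNReal.ofReal (C * (1 + ‖l‖) ^ v) *
          ENNReal.ofReal (Real.exp (-1 * ‖x - y‖) / ‖x - y‖ ^ (2 * v + 1)) :=
      lintegral_mono' Measure.restrict_le_self le_rfl
    have s3 : ∫⁻ y : EV v, ENNReal.ofReal (C * (1 + ‖l‖) ^ v) *
          ENNReal.ofReal (Real.exp (-1 * ‖x - y‖) / ‖x - y‖ ^ (2 * v + 1)) =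
        ENNReal.ofReal (C * (1 + ‖l‖) ^ v) * J := by
      rw [lintegral_const_mul' _ _ ENNReal.ofReal_ne_top, hJd]
      congr 1
      exact lintegral_sub_left_eq_self
        (fun z : EV v => ENNReal.ofReal (Real.exp (-1 * ‖z‖) / ‖z‖ ^ (2 * v + 1))) x
    refine s1.trans (s2.trans (s3.trans_le (le_of_eq ?_)))
    rw [← ENNReal.ofReal_toReal hJ.ne, ← ENNReal.ofReal_mul hn, ENNReal.toReal_ofReal
      ENNReal.toReal_nonneg]
    congr 1
    ring
  have hmeas : Measurable (Function.uncurry fun x y : EV v => Gr v l ‖x - y‖) :=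
    (Gr_measurable v l).comp (measurable_fst.sub measurable_snd).norm
  obtain ⟨A', hA', hA'n⟩ := exists_isKer (μ := muV v R) (fun x y => Gr v l ‖x - y‖) hmeas
    (C * J.toReal * (1 + ‖l‖) ^ v)
    (mul_nonneg (mul_nonneg hC ENNReal.toReal_nonneg) (by positivity))
    (by
      filter_upwards [ae_restrict_mem (measurableSet_closedBall)] with x hx
      exact hbd x hx)
    (by
      filter_upwards [ae_restrict_mem (measurableSet_closedBall)] with y hy
      have := hbd y hy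
      refine le_trans (le_of_eq ?_) this
      refine lintegral_congr fun x => ?_
      rw [norm_sub_rev])
  rw [(F.kA l).unique hA']
  exact hA'n

end OSec

end Pool.Agent.H269
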