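import Pool.Agent.H269.DefsG
import Pool.Agent.H269.GN.G020
import Pool.Agent.H269.GN.G021
import Pool.Agent.H269.GN.G028
import Pool.Agent.H269.GN.G041
import Pool.Agent.H269.R5.J15
import Pool.Agent.H269.R5.J16

/-!
# GN-42 operator family is differentiable in operator norm (MP_f2af60_mp, infinitely many resonances in odd dimension)
-/

set_option autoImplicit false

open MeasureTheory Filter Topology Complex
open scoped InnerProductSpace ENNReal NNReal

namespace Pool.Agent.H269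


section Job

theorem job_tay (f : ℂ → ℂ) (hf : Differentiable ℂ f) (l : ℂ) (B : ℝ)
    (hB : ∀ w, ‖w - l‖ ≤ 2 → ‖f w‖ ≤ B) :
    (∀ h : ℂ, ‖h‖ ≤ 1 → ‖f (l + h) - f l - h * deriv f l‖ ≤ 4 * B * ‖h‖ ^ 2) ∧
      ‖deriv f l‖ ≤ 2 * B := by
  have hB0 : 0 ≤ B := (norm_nonneg _).trans (hB l (by simp))
  have h1 : ∀ w, ‖w - l‖ ≤ 3 / 2 → ‖deriv f w‖ ≤ 2 * B := by
    intro w hw
    have := Complex.norm_deriv_le_of_forall_mem_sphere_norm_le (c := w) (R := 1 / 2) (C := B)
      (f := f) (by norm_num) hf.diffContOnCl (by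
        intro z hz
        apply hB
        rw [mem_sphere_iff_norm] at hz
        calc ‖z - l‖ = ‖(z - w) + (w - l)‖ := by congr 1; ring
          _ ≤ ‖z - w‖ + ‖w - l‖ := norm_add_le _ _
          _ ≤ 2 := by rw [hz]; linarith)
    calc ‖deriv f w‖ ≤ B / (1 / 2) := this
      _ = 2 * B := by ring
  have hf' : Differentiable ℂ (deriv f) := fun w =>
    ((hf.analyticAt w).deriv).differentiableAt
  have h2 : ∀ w, ‖w - l‖ ≤ 1 → ‖deriv (deriv f) w‖ ≤ 4 * B := by
    intro w hw
    have := Complex.norm_deriv_le_of_forall_mem_sphere_norm_le (c := w) (R := 1 / 2) (C := 2 * B)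
      (f := deriv f) (by norm_num) hf'.diffContOnCl (by
        intro z hz
        apply h1
        rw [mem_sphere_iff_norm] at hz
        calc ‖z - l‖ = ‖(z - w) + (w - l)‖ := by congr 1; ring
          _ ≤ ‖z - w‖ + ‖w - l‖ := norm_add_le _ _
          _ ≤ 3 / 2 := by rw [hz]; linarith)
    calc ‖deriv (deriv f) w‖ ≤ 2 * B / (1 / 2) := this
      _ = 4 * B := by ring
  refine ⟨?_, h1 l (by rw [sub_self, norm_zero]; norm_num)⟩
  intro h hh
  -- the derivative on the ball of radius `‖h‖`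
  have h3 : ∀ w ∈ Metric.closedBall l ‖h‖, ‖deriv f w - deriv f l‖ ≤ 4 * B * ‖h‖ := by
    intro w hw
    rw [mem_closedBall_iff_norm] at hw
    have := (convex_closedBall l ‖h‖).norm_image_sub_le_of_norm_deriv_le (f := deriv f)
      (C := 4 * B) (fun z _ => hf' z) (fun z hz => h2 z (by
        rw [mem_closedBall_iff_norm] at hz; linarith))
      (Metric.mem_closedBall_self (norm_nonneg h)) (mem_closedBall_iff_norm.2 hw)
    refine this.trans ?_
    gcongr
  have hg : ∀ w, HasDerivAt (fun z => f z - z * deriv f l) (deriv f w - deriv f l) w := by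
    intro w
    have e1 := (hf w).hasDerivAt
    have e2 := (hasDerivAt_id w).mul_const (deriv f l)
    rw [one_mul] at e2
    exact e1.sub e2
  have := (convex_closedBall l ‖h‖).norm_image_sub_le_of_norm_deriv_le
      (f := fun z => f z - z * deriv f l)
      (C := 4 * B * ‖h‖) (fun z _ => (hg z).differentiableAt) (fun z hz => by
        rw [(hg z).deriv]; exact h3 z hz)
      (Metric.mem_closedBall_self (norm_nonneg h))
      (show l + h ∈ Metric.closedBall l ‖h‖ by rw [mem_closedBall_iff_norm]; simp)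
  have e : f (l + h) - f l - h * deriv f l =
      (fun z => f z - z * deriv f l) (l + h) - (fun z => f z - z * deriv f l) l := by
    simp only; ring
  rw [e]
  refine this.trans (le_of_eq ?_)
  rw [add_sub_cancel_left]; ring

theorem job_schur (v : ℕ) {R : ℝ} (hR : 0 < R) : ∃ S : ℝ, 0 ≤ S ∧ ∀ K : ℝ, 0 ≤ K →
    ∀ k : EV v → EV v → ℂ,
    (∀ x y, ‖x‖ ≤ R → ‖y‖ ≤ R → ‖k x y‖ ≤ K / ‖x - y‖ ^ (2 * v + 1)) →
    (∀ᵐ x ∂(muV v R), ∫⁻ y, ‖k x y‖ₑ ∂(muV v R) ≤ ENNReal.ofReal (K * S)) ∧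
    (∀ᵐ y ∂(muV v R), ∫⁻ x, ‖k x y‖ₑ ∂(muV v R) ≤ ENNReal.ofReal (K * S)) := by
  have hS := rad_int v (2 * v + 1) (by omega) 1 one_pos
  set g : EV v → ℝ≥0∞ := fun x => ENNReal.ofReal (Real.exp (-1 * ‖x‖) / ‖x‖ ^ (2 * v + 1)) with hg
  refine ⟨Real.exp (2 * R) * (∫⁻ x, g x).toReal, by positivity, ?_⟩
  intro K hK k hk
  have hpt : ∀ x y : EV v, ‖x‖ ≤ R → ‖y‖ ≤ R →
      ‖k x y‖ₑ ≤ ENNReal.ofReal (K * Real.exp (2 * R)) * g (x - y) := by
    intro x y hx hy
    rw [hg]
    simp only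
    rw [← ENNReal.ofReal_mul (by positivity), ← ofReal_norm]
    apply ENNReal.ofReal_le_ofReal
    refine (hk x y hx hy).trans ?_
    have h2 : ‖x - y‖ ≤ 2 * R := (norm_sub_le _ _).trans (by linarith)
    have h3 : 1 ≤ Real.exp (2 * R) * Real.exp (-1 * ‖x - y‖) := by
      rw [← Real.exp_add]
      apply Real.one_le_exp
      linarith
    calc K / ‖x - y‖ ^ (2 * v + 1) = (K * 1) / ‖x - y‖ ^ (2 * v + 1) := by rw [mul_one]
      _ ≤ (K * (Real.exp (2 * R) * Real.exp (-1 * ‖x - y‖))) / ‖x - y‖ ^ (2 * v + 1) := by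
        gcongr
      _ = _ := by ring
  have hfin : ENNReal.ofReal (K * Real.exp (2 * R)) * (∫⁻ x, g x) =
      ENNReal.ofReal (K * (Real.exp (2 * R) * (∫⁻ x, g x).toReal)) := by
    rw [← mul_assoc, ENNReal.ofReal_mul (p := K * Real.exp (2 * R)) (by positivity),
      ENNReal.ofReal_toReal hS.ne]
  constructor
  · filter_upwards [ae_restrict_mem (μ := (volume : Measure (EV v)))
      (s := Metric.closedBall (0 : EV v) R) Metric.isClosed_closedBall.measurableSet] with x hx
    rw [mem_closedBall_zero_iff] at hx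
    calc ∫⁻ y, ‖k x y‖ₑ ∂(muV v R)
        ≤ ∫⁻ y, ENNReal.ofReal (K * Real.exp (2 * R)) * g (x - y) ∂(muV v R) := by
          apply lintegral_mono_ae
          filter_upwards [ae_restrict_mem (μ := (volume : Measure (EV v)))
            (s := Metric.closedBall (0 : EV v) R) Metric.isClosed_closedBall.measurableSet]
            with y hy
          rw [mem_closedBall_zero_iff] at hy
          exact hpt x y hx hy
      _ ≤ ∫⁻ y, ENNReal.ofReal (K * Real.exp (2 * R)) * g (x - y) :=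
          lintegral_mono' Measure.restrict_le_self le_rfl
      _ = ENNReal.ofReal (K * Real.exp (2 * R)) * ∫⁻ y, g (x - y) :=
          lintegral_const_mul' _ _ ENNReal.ofReal_ne_top
      _ = ENNReal.ofReal (K * Real.exp (2 * R)) * ∫⁻ y, g y := by
          rw [lintegral_sub_left_eq_self]
      _ = _ := hfin
  · filter_upwards [ae_restrict_mem (μ := (volume : Measure (EV v)))
      (s := Metric.closedBall (0 : EV v) R) Metric.isClosed_closedBall.measurableSet] with y hy
    rw [mem_closedBall_zero_iff] at hy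
    calc ∫⁻ x, ‖k x y‖ₑ ∂(muV v R)
        ≤ ∫⁻ x, ENNReal.ofReal (K * Real.exp (2 * R)) * g (x - y) ∂(muV v R) := by
          apply lintegral_mono_ae
          filter_upwards [ae_restrict_mem (μ := (volume : Measure (EV v)))
            (s := Metric.closedBall (0 : EV v) R) Metric.isClosed_closedBall.measurableSet]
            with x hx
          rw [mem_closedBall_zero_iff] at hx
          exact hpt x y hx hy
      _ ≤ ∫⁻ x, ENNReal.ofReal (K * Real.exp (2 * R)) * g (x - y) :=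
          lintegral_mono' Measure.restrict_le_self le_rfl
      _ = ENNReal.ofReal (K * Real.exp (2 * R)) * ∫⁻ x, g (x - y) :=
          lintegral_const_mul' _ _ ENNReal.ofReal_ne_top
      _ = ENNReal.ofReal (K * Real.exp (2 * R)) * ∫⁻ x, g x := by
          rw [lintegral_sub_right_eq_self]
      _ = _ := hfin

theorem job_meas (v : ℕ) (l : ℂ) : Measurable (fun r : ℝ => deriv (fun l => Gr v l r) l) := by
  refine measurable_of_tendsto_metrizable (f := fun (n : ℕ) (r : ℝ) =>
    ((1 / ((n : ℝ) + 1) : ℝ) : ℂ)⁻¹ • (Gr v (l + ((1 / ((n : ℝ) + 1) : ℝ) : ℂ)) r - Gr v l r))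
    (fun n => ?_) ?_
  · simp only [smul_eq_mul]
    exact ((Gr_measurable v _).sub (Gr_measurable v _)).const_mul _
  · rw [tendsto_pi_nhds]
    intro r
    have h1 := ((Gr_differentiable v r) l).hasDerivAt
    rw [hasDerivAt_iff_tendsto_slope_zero] at h1
    refine h1.comp ?_
    rw [tendsto_nhdsWithin_iff]
    constructor
    · have : Tendsto (fun n : ℕ => (1 / ((n : ℝ) + 1) : ℝ)) atTop (𝓝 0) :=
        tendsto_one_div_add_atTop_nhds_zero_nat
      have h2 := (Complex.continuous_ofReal.tendsto 0).comp this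
      rw [Complex.ofReal_zero] at h2
      exact h2
    · filter_upwards with n
      have : ((1 / ((n : ℝ) + 1) : ℝ) : ℂ) ≠ 0 := by
        rw [Ne, Complex.ofReal_eq_zero]
        positivity
      exact this

theorem job_diff {v : ℕ} {R : ℝ} (hR : 0 < R) (W : EV v → ℂ) (hW : Measurable W) (M' : ℝ)
    (hM' : 0 ≤ M') (hb : ∀ x, ‖W x‖ ≤ M') (B : ℂ → OpV v R)
    (hB : ∀ l, IsKer (muV v R) (fun x y => W x * Gr v l ‖x - y‖) (B l)) : Differentiable ℂ B := by
  have : IsFiniteMeasure (muV v R) :=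
    ⟨by rw [Measure.restrict_apply_univ]; exact measure_closedBall_lt_top⟩
  intro l
  obtain ⟨C0, hC0, hG⟩ := Gr_bound v
  set Bd : ℝ := C0 * (1 + (‖l‖ + 2) * (2 * R)) ^ v * Real.exp ((‖l‖ + 2) * (2 * R)) with hBd
  have hBd0 : 0 ≤ Bd := by rw [hBd]; positivity
  have hbd : ∀ r : ℝ, 0 ≤ r → r ≤ 2 * R → ∀ l' : ℂ, ‖l' - l‖ ≤ 2 →
      ‖Gr v l' r‖ ≤ Bd / r ^ (2 * v + 1) := by
    intro r h0 h1 l' h2
    refine (hG l' r h0).trans ?_
    have h3 : ‖l'‖ ≤ ‖l‖ + 2 := by
      calc ‖l'‖ = ‖l + (l' - l)‖ := by congr 1; ring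
        _ ≤ ‖l‖ + ‖l' - l‖ := norm_add_le _ _
        _ ≤ _ := by linarith
    have h4 : ‖l'‖ * r ≤ (‖l‖ + 2) * (2 * R) := by gcongr
    have h5 : -l'.im * r ≤ (‖l‖ + 2) * (2 * R) := by
      refine le_trans ?_ h4
      have := Complex.abs_im_le_norm l'
      have h6 : -l'.im ≤ ‖l'‖ := (neg_le_abs _).trans this
      exact mul_le_mul_of_nonneg_right h6 h0
    apply div_le_div_of_nonneg_right ?_ (by positivity)
    rw [hBd]
    gcongr
  have htay : ∀ r : ℝ, 0 ≤ r → r ≤ 2 * R →
      (∀ h : ℂ, ‖h‖ ≤ 1 → ‖Gr v (l + h) r - Gr v l r - h * deriv (fun l => Gr v l r) l‖ ≤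
        4 * (Bd / r ^ (2 * v + 1)) * ‖h‖ ^ 2) ∧
      ‖deriv (fun l => Gr v l r) l‖ ≤ 2 * (Bd / r ^ (2 * v + 1)) := by
    intro r h0 h1
    exact job_tay (fun l => Gr v l r) (Gr_differentiable v r) l _ (hbd r h0 h1)
  obtain ⟨S, hS0, hS⟩ := job_schur v hR
  have hdist : ∀ x y : EV v, ‖x‖ ≤ R → ‖y‖ ≤ R → ‖x - y‖ ≤ 2 * R := fun x y hx hy =>
    (norm_sub_le _ _).trans (by linarith)
  have hmx : Measurable (fun q : EV v × EV v => ‖q.1 - q.2‖) :=
    (measurable_fst.sub measurable_snd).norm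
  -- the derivative
  obtain ⟨B', hB', -⟩ := exists_isKer (μ := muV v R)
    (fun x y => W x * deriv (fun l => Gr v l ‖x - y‖) l)
    ((hW.comp measurable_fst).mul ((job_meas v l).comp hmx)) (M' * (2 * Bd) * S) (by positivity)
    (hS (M' * (2 * Bd)) (by positivity) _ (by
      intro x y hx hy
      rw [norm_mul]
      calc ‖W x‖ * ‖deriv (fun l => Gr v l ‖x - y‖) l‖
          ≤ M' * (2 * (Bd / ‖x - y‖ ^ (2 * v + 1))) :=
            mul_le_mul (hb x) (htay _ (norm_nonneg _) (hdist x y hx hy)).2 (norm_nonneg _) hM'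
        _ = _ := by ring)).1
    (hS (M' * (2 * Bd)) (by positivity) _ (by
      intro x y hx hy
      rw [norm_mul]
      calc ‖W x‖ * ‖deriv (fun l => Gr v l ‖x - y‖) l‖
          ≤ M' * (2 * (Bd / ‖x - y‖ ^ (2 * v + 1))) :=
            mul_le_mul (hb x) (htay _ (norm_nonneg _) (hdist x y hx hy)).2 (norm_nonneg _) hM'
        _ = _ := by ring)).2
  have hrem : ∀ h : ℂ, ‖h‖ ≤ 1 →
      ‖B (l + h) - B l - h • B'‖ ≤ (M' * (4 * Bd) * S) * ‖h‖ ^ 2 := by
    intro h hh
    have hk1 : ∀ x y : EV v, ‖x‖ ≤ R → ‖y‖ ≤ R →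
        ‖W x * (Gr v (l + h) ‖x - y‖ - Gr v l ‖x - y‖ - h * deriv (fun l => Gr v l ‖x - y‖) l)‖ ≤
          (M' * (4 * Bd) * ‖h‖ ^ 2) / ‖x - y‖ ^ (2 * v + 1) := by
      intro x y hx hy
      rw [norm_mul]
      calc _ ≤ M' * (4 * (Bd / ‖x - y‖ ^ (2 * v + 1)) * ‖h‖ ^ 2) :=
            mul_le_mul (hb x) ((htay _ (norm_nonneg _) (hdist x y hx hy)).1 h hh)
              (norm_nonneg _) hM'
        _ = _ := by ring
    have hS' := hS (M' * (4 * Bd) * ‖h‖ ^ 2) (by positivity) _ hk1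
    obtain ⟨E, hE, hEn⟩ := exists_isKer (μ := muV v R)
      (fun x y => W x * (Gr v (l + h) ‖x - y‖ - Gr v l ‖x - y‖ -
        h * deriv (fun l => Gr v l ‖x - y‖) l))
      ((hW.comp measurable_fst).mul ((((Gr_measurable v (l + h)).comp hmx).sub
        ((Gr_measurable v l).comp hmx)).sub (((job_meas v l).comp hmx).const_mul h)))
      (M' * (4 * Bd) * ‖h‖ ^ 2 * S) (by positivity) hS'.1 hS'.2
    have hEq : E = B (l + h) - B l - h • B' := by
      refine IsKer.unique hE ?_
      refine IsKer.congr (((hB (l + h)).sub (hB l)).sub (hB'.smul h)) ?_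
      filter_upwards with x
      filter_upwards with y
      ring
    rw [← hEq]
    exact hEn.trans (le_of_eq (by ring))
  have : HasDerivAt B B' l := by
    rw [hasDerivAt_iff_isLittleO_nhds_zero]
    refine Asymptotics.IsBigO.trans_isLittleO (g := fun h : ℂ => h ^ 2) ?_
      (Asymptotics.isLittleO_pow_id one_lt_two)
    refine Asymptotics.IsBigO.of_bound (M' * (4 * Bd) * S) ?_
    filter_upwards [Metric.closedBall_mem_nhds (0 : ℂ) one_pos] with h hh
    rw [mem_closedBall_zero_iff] at hh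
    rw [norm_pow]
    exact hrem h hh
  exact this.differentiableAt

end Job


section OSec

variable {v : ℕ} {R M : ℝ} {V : EV v → ℝ} {A T : ℂ → OpV v R}

theorem FamG.differentiable (F : FamG v R M V A T) : Differentiable ℂ A ∧ Differentiable ℂ T := by
  constructor
  · exact job_diff F.hR (fun _ => 1) measurable_const 1 zero_le_one (fun x => by simp) A
      (fun l => by simpa using F.kA l)
  · exact job_diff F.hR (fun x => (V x : ℂ)) (Complex.measurable_ofReal.comp F.meas) M F.hM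
      (fun x => by simpa using F.bdd x) T F.kT

end OSec

end Pool.Agent.H269

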