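import Pool.Agent.H269.DefsG
import Pool.Agent.H269.GN.G023
import Pool.Agent.H269.GN.G024
import Pool.Agent.H269.R5.J16

/-!
# GN-43 norm of the cut-off free resolvent, odd dimension (MP_f2af60_mp, infinitely many resonances in odd dimension)
-/

set_option autoImplicit false

open MeasureTheory Filter Topology Complex
open scoped InnerProductSpace ENNReal NNReal

namespace Pool.Agent.H269


/-- the square of the norm of `L²` -/
theorem j3511_eLpNorm_sq {E : Type} [MeasurableSpace E] {μ : Measure E} (f : E → ℂ) :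
    eLpNorm f 2 μ ^ 2 = ∫⁻ x, ‖f x‖ₑ ^ 2 ∂μ := by
  have h := eLpNorm_nnreal_pow_eq_lintegral (f := f) (μ := μ) (p := 2) (by norm_num)
  simpa using h

theorem j3511_c_norm_A_le {v : ℕ} {R M : ℝ} {V : EV v → ℝ} {A T : ℂ → OpV v R}
    (F : FamG v R M V A T) (l : ℂ) (hl : 0 < l.im) (c : ℝ) (hc0 : 0 ≤ c)
    (hc : ∀ ξ : ℝ, 0 ≤ ξ → c ≤ ‖(ξ : ℂ) ^ 2 - l ^ 2‖) (f : Lp ℂ 2 (muV v R)) :
    c * ‖A l f‖ ≤ ‖f‖ := by
  have hb : MeasurableSet (Metric.closedBall (0 : EV v) R) := Metric.isClosed_closedBall.measurableSet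
  set h : EV v → ℂ := (Metric.closedBall (0 : EV v) R).indicator (f : EV v → ℂ) with hh
  have h1 : MemLp h 2 volume := (memLp_indicator_iff_restrict hb).2 (Lp.memLp f)
  have h2 : HasCompactSupport h := HasCompactSupport.intro (isCompact_closedBall (0 : EV v) R)
    fun x hx => Set.indicator_of_notMem hx _
  obtain ⟨-, h3, -⟩ := free_resolventG v l hl h h1 h2
  replace h3 := h3 c hc0 hc
  have h4 : ∀ x, ∫ y, Gr v l ‖x - y‖ * h y = ∫ y, Gr v l ‖x - y‖ * f y ∂(muV v R) := by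
    intro x
    rw [← integral_indicator hb]
    refine integral_congr_ae (Eventually.of_forall fun y => ?_)
    simp only [hh, Set.indicator]
    split_ifs
    · rfl
    · simp
  have h5 : ∫⁻ x, ‖h x‖ₑ ^ 2 = eLpNorm f 2 (muV v R) ^ 2 := by
    rw [j3511_eLpNorm_sq, ← lintegral_indicator hb]
    refine lintegral_congr fun x => ?_
    simp only [hh, Set.indicator]
    split_ifs
    · rfl
    · simp
  have h6 : ENNReal.ofReal (c ^ 2) * eLpNorm (A l f) 2 (muV v R) ^ 2 ≤ eLpNorm f 2 (muV v R) ^ 2 := by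
    rw [j3511_eLpNorm_sq, ← h5]
    refine le_trans ?_ h3
    have h7 : ∫⁻ x, ‖(A l f : EV v → ℂ) x‖ₑ ^ 2 ∂(muV v R) =
        ∫⁻ x, ‖∫ y, Gr v l ‖x - y‖ * h y‖ₑ ^ 2 ∂(muV v R) := by
      refine lintegral_congr_ae ?_
      filter_upwards [(F.kA l f).2] with x hx
      rw [hx, h4]
    rw [h7]
    exact mul_le_mul_right (setLIntegral_le_lintegral _ _) _
  have h8 : ENNReal.ofReal c * eLpNorm (A l f) 2 (muV v R) ≤ eLpNorm f 2 (muV v R) := by
    have h9 : (ENNReal.ofReal c * eLpNorm (A l f) 2 (muV v R)) ^ 2 ≤ eLpNorm f 2 (muV v R) ^ 2 := by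
      rw [mul_pow, ← ENNReal.ofReal_pow hc0]
      exact h6
    exact (ENNReal.pow_le_pow_left_iff (by norm_num)).1 h9
  rw [Lp.norm_def, Lp.norm_def]
  have h11 := ENNReal.toReal_mono (Lp.eLpNorm_ne_top f) h8
  rwa [ENNReal.toReal_mul, ENNReal.toReal_ofReal hc0] at h11

theorem j3511_im_sq_le (l : ℂ) (hl : 0 < l.im) (ξ : ℝ) :
    l.im ^ 2 ≤ ‖(ξ : ℂ) ^ 2 - l ^ 2‖ := by
  have h1 : (ξ : ℂ) ^ 2 - l ^ 2 = ((ξ : ℂ) - l) * ((ξ : ℂ) + l) := by ring
  rw [h1, norm_mul, sq]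
  have h2 : l.im ≤ ‖(ξ : ℂ) - l‖ := by
    have h3 := Complex.abs_im_le_norm ((ξ : ℂ) - l)
    simp only [Complex.sub_im, Complex.ofReal_im, zero_sub, abs_neg] at h3
    exact (le_abs_self _).trans h3
  have h3 : l.im ≤ ‖(ξ : ℂ) + l‖ := by
    have h3 := Complex.abs_im_le_norm ((ξ : ℂ) + l)
    simp only [Complex.add_im, Complex.ofReal_im, zero_add] at h3
    exact (le_abs_self _).trans h3
  exact mul_le_mul h2 h3 hl.le (norm_nonneg _)

theorem j3511_re_im_le (l : ℂ) (hl : 0 < l.im) (ξ : ℝ) :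
    2 * |l.re| * l.im ≤ ‖(ξ : ℂ) ^ 2 - l ^ 2‖ := by
  have h1 := Complex.abs_im_le_norm ((ξ : ℂ) ^ 2 - l ^ 2)
  have h2 : ((ξ : ℂ) ^ 2 - l ^ 2).im = -(2 * l.re * l.im) := by
    simp [sq, Complex.mul_im]
    ring
  rw [h2, abs_neg, abs_mul, abs_mul, abs_of_pos hl, abs_two] at h1
  exact h1



section OSec

variable {v : ℕ} {R M : ℝ} {V : EV v → ℝ} {A T : ℂ → OpV v R}

theorem FamG.norm_le (F : FamG v R M V A T) (l : ℂ) (hl : 0 < l.im) :
    ‖A l‖ ≤ (l.im ^ 2)⁻¹ ∧ |l.re| * l.im * ‖A l‖ ≤ 1 := by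
  constructor
  · refine ContinuousLinearMap.opNorm_le_bound _ (by positivity) fun f => ?_
    have h1 := j3511_c_norm_A_le F l hl (l.im ^ 2) (by positivity)
      (fun ξ _ => j3511_im_sq_le l hl ξ) f
    have h2 : 0 < l.im ^ 2 := by positivity
    rw [inv_mul_eq_div, le_div_iff₀ h2, mul_comm]
    exact h1
  · rcases eq_or_lt_of_le (abs_nonneg l.re) with h0 | h0
    · rw [← h0]; simp
    · have h2 : 0 < 2 * |l.re| * l.im := by positivity
      have h3 : ‖A l‖ ≤ (2 * |l.re| * l.im)⁻¹ := by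
        refine ContinuousLinearMap.opNorm_le_bound _ (by positivity) fun f => ?_
        have h1 := j3511_c_norm_A_le F l hl (2 * |l.re| * l.im) h2.le
          (fun ξ _ => j3511_re_im_le l hl ξ) f
        rw [inv_mul_eq_div, le_div_iff₀ h2, mul_comm]
        exact h1
      have h4 : 2 * |l.re| * l.im * ‖A l‖ ≤ 1 := by
        calc 2 * |l.re| * l.im * ‖A l‖ ≤ 2 * |l.re| * l.im * (2 * |l.re| * l.im)⁻¹ :=
              mul_le_mul_of_nonneg_left h3 h2.le
          _ = 1 := mul_inv_cancel₀ h2.ne'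
      have h5 : 0 ≤ |l.re| * l.im * ‖A l‖ := by positivity
      nlinarith

end OSec

end Pool.Agent.H269

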