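import Pool.Agent.H269.DefsG
import Pool.Agent.H269.GN.G041
import Pool.Agent.H269.GN.G042
import Pool.Agent.H269.GN.G043

/-!
# GN-44 the operator family is bounded on half planes (three lines) (MP_f2af60_mp, infinitely many resonances in odd dimension)
-/

set_option autoImplicit false

open MeasureTheory Filter Topology Complex
open scoped InnerProductSpace ENNReal NNReal

namespace Pool.Agent.H269


section aux3512

theorem exp_bd_3512 (v : ℕ) (t : ℝ) :
    (1 + |t|) ^ v * Real.exp (-t ^ 2) ≤ (v.factorial : ℝ) * Real.exp 2 := by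
  have h1 : (1 + |t|) ^ v / (v.factorial : ℝ) ≤ Real.exp (1 + |t|) :=
    Real.pow_div_factorial_le_exp _ (by positivity) v
  have hf : (0 : ℝ) < (v.factorial : ℝ) := by exact_mod_cast v.factorial_pos
  rw [div_le_iff₀ hf] at h1
  have h2 : 1 + |t| + -t ^ 2 ≤ 2 := by
    have : t ^ 2 = |t| ^ 2 := (sq_abs t).symm
    nlinarith [sq_nonneg (|t| - 1 / 2)]
  calc (1 + |t|) ^ v * Real.exp (-t ^ 2) ≤ (Real.exp (1 + |t|) * (v.factorial : ℝ)) *
        Real.exp (-t ^ 2) := by gcongr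
    _ = (v.factorial : ℝ) * Real.exp (1 + |t| + -t ^ 2) := by
        rw [Real.exp_add (1 + |t|) (-t ^ 2)]; ring
    _ ≤ _ := by gcongr

theorem three_3512 {E : Type} [NormedAddCommGroup E] [NormedSpace ℂ E] (A : ℂ → E)
    (hd : Differentiable ℂ A) (v : ℕ) (b C : ℝ) (hb : 0 ≤ b) (hC : 0 ≤ C)
    (hg : ∀ l : ℂ, -b ≤ l.im → ‖A l‖ ≤ C * (1 + ‖l‖) ^ v)
    (h1 : ∀ l : ℂ, l.im = 1 → (1 + |l.re|) * ‖A l‖ ≤ 2)
    (l : ℂ) (hl1 : -b ≤ l.im) (hl2 : l.im ≤ 1) (hl3 : v * (1 - l.im) ≤ l.im + b) :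
    ‖A l‖ ≤ (1 + Real.exp ((b + 1) ^ 2) * C * (2 + b) ^ v * ((v.factorial : ℝ) * Real.exp 2)) *
      (2 * Real.exp 1 * Real.exp 2) := by
  set x0 : ℝ := l.re with hx0
  set X : ℝ := 1 + |x0| with hX
  have hX1 : 1 ≤ X := by rw [hX]; linarith [abs_nonneg x0]
  have hX0 : 0 < X := by linarith
  set P : ℝ := 1 + Real.exp ((b + 1) ^ 2) * C * (2 + b) ^ v * ((v.factorial : ℝ) * Real.exp 2)
    with hP
  have hP1 : 1 ≤ P := by
    rw [hP]
    have : 0 ≤ Real.exp ((b + 1) ^ 2) * C * (2 + b) ^ v * ((v.factorial : ℝ) * Real.exp 2) := by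
      positivity
    linarith
  set Q : ℝ := 2 * Real.exp 1 * Real.exp 2 with hQ
  have hQ1 : 1 ≤ Q := by
    rw [hQ]
    have e1 : 1 ≤ Real.exp 1 := Real.one_le_exp (by norm_num)
    have e2 : 1 ≤ Real.exp 2 := Real.one_le_exp (by norm_num)
    nlinarith
  set f : ℂ → E := fun z => cexp ((z + I * x0) ^ 2) • A (I * z) with hf
  have hfd : Differentiable ℂ f := by
    rw [hf]
    refine Differentiable.smul (by fun_prop) ?_
    exact hd.comp (by fun_prop)
  have hnorm : ∀ z : ℂ, ‖f z‖ = Real.exp (z.re ^ 2) * Real.exp (-(z.im + x0) ^ 2) *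
      ‖A (I * z)‖ := by
    intro z
    rw [hf]
    simp only
    rw [norm_smul, Complex.norm_exp, ← Real.exp_add]
    congr 2
    simp [pow_two]
    ring
  have htri : ∀ s : ℝ, 1 + |s| ≤ X * (1 + |s + x0|) := by
    intro s
    have : |s| ≤ |s + x0| + |x0| := by
      have := abs_sub (s + x0) x0
      rwa [add_sub_cancel_right] at this
    rw [hX]
    nlinarith [abs_nonneg x0, abs_nonneg (s + x0), mul_nonneg (abs_nonneg x0) (abs_nonneg (s + x0))]
  have htri' : ∀ s : ℝ, X ≤ (1 + |s|) * (1 + |s + x0|) := by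
    intro s
    have : |x0| ≤ |s + x0| + |s| := by
      have := abs_sub (s + x0) s
      rwa [add_sub_cancel_left] at this
    rw [hX]
    nlinarith [abs_nonneg s, abs_nonneg (s + x0), mul_nonneg (abs_nonneg s) (abs_nonneg (s + x0))]
  have hall : ∀ z : ℂ, -b ≤ z.re → z.re ≤ 1 → ‖f z‖ ≤ P * X ^ v := by
    intro z hz1 hz2
    have hre : |z.re| ≤ b + 1 := abs_le.2 ⟨by linarith, by linarith⟩
    have e1 : Real.exp (z.re ^ 2) ≤ Real.exp ((b + 1) ^ 2) := by
      refine Real.exp_le_exp.2 ?_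
      rw [← sq_abs z.re]
      gcongr
    have e2 : ‖A (I * z)‖ ≤ C * ((2 + b) * (X * (1 + |z.im + x0|))) ^ v := by
      refine (hg (I * z) (by simpa using hz1)).trans ?_
      have e3 : 1 + ‖I * z‖ ≤ (2 + b) * (X * (1 + |z.im + x0|)) := by
        have e4 : ‖I * z‖ ≤ |z.re| + |z.im| := by
          rw [norm_mul, Complex.norm_I, one_mul]
          exact Complex.norm_le_abs_re_add_abs_im z
        have e5 := htri z.im
        calc 1 + ‖I * z‖ ≤ 2 + b + |z.im| := by linarith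
          _ ≤ (2 + b) * (1 + |z.im|) := by nlinarith [abs_nonneg z.im]
          _ ≤ _ := by gcongr
      gcongr
    rw [hnorm]
    calc Real.exp (z.re ^ 2) * Real.exp (-(z.im + x0) ^ 2) * ‖A (I * z)‖
        ≤ Real.exp ((b + 1) ^ 2) * Real.exp (-(z.im + x0) ^ 2) *
          (C * ((2 + b) * (X * (1 + |z.im + x0|))) ^ v) := by gcongr
      _ = (Real.exp ((b + 1) ^ 2) * C * (2 + b) ^ v *
          ((1 + |z.im + x0|) ^ v * Real.exp (-(z.im + x0) ^ 2))) * X ^ v := by
          rw [mul_pow, mul_pow]; ring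
      _ ≤ (Real.exp ((b + 1) ^ 2) * C * (2 + b) ^ v *
          ((v.factorial : ℝ) * Real.exp 2)) * X ^ v := by
          have := exp_bd_3512 v (z.im + x0)
          gcongr
      _ ≤ P * X ^ v := by
          have : Real.exp ((b + 1) ^ 2) * C * (2 + b) ^ v *
              ((v.factorial : ℝ) * Real.exp 2) ≤ P := by rw [hP]; linarith
          gcongr
  have hright : ∀ z : ℂ, z.re = 1 → ‖f z‖ ≤ Q / X := by
    intro z hz
    rw [hnorm, hz]
    have e1 := h1 (I * z) (by simpa using hz)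
    have e2 : (I * z).re = -z.im := by simp
    rw [e2, abs_neg] at e1
    rw [le_div_iff₀ hX0]
    have e3 := htri' z.im
    have e4 := exp_bd_3512 1 (z.im + x0)
    simp only [pow_one, Nat.factorial_one, Nat.cast_one, one_mul] at e4
    calc Real.exp (1 ^ 2) * Real.exp (-(z.im + x0) ^ 2) * ‖A (I * z)‖ * X
        ≤ Real.exp (1 ^ 2) * Real.exp (-(z.im + x0) ^ 2) * ‖A (I * z)‖ *
          ((1 + |z.im|) * (1 + |z.im + x0|)) := by gcongr
      _ = Real.exp 1 * ((1 + |z.im + x0|) * Real.exp (-(z.im + x0) ^ 2)) *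
          ((1 + |z.im|) * ‖A (I * z)‖) := by rw [one_pow]; ring
      _ ≤ Real.exp 1 * Real.exp 2 * 2 := by gcongr
      _ = Q := by rw [hQ]; ring
  set z0 : ℂ := ⟨l.im, -x0⟩ with hz0
  have hz0re : z0.re = l.im := rfl
  have hz0im : z0.im = -x0 := rfl
  have hIz : I * z0 = l := by
    apply Complex.ext
    · simp [hz0re, hz0im, hx0]
    · simp [hz0re]
  have hul : -b < 1 := by linarith
  have hmain := Complex.HadamardThreeLines.norm_le_interp_of_mem_verticalClosedStrip'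
    (f := f) (z := z0) (a := P * X ^ v) (b := Q / X) hul ⟨hl1, hl2⟩ hfd.diffContOnCl
    ⟨P * X ^ v, by
      rintro _ ⟨z, hz, rfl⟩
      exact hall z hz.1 hz.2⟩
    (by
      intro z hz
      have hz' : z.re = -b := hz
      exact hall z hz'.ge (by rw [hz']; linarith))
    (fun z hz => hright z hz)
  set θ : ℝ := (z0.re - -b) / (1 - -b) with hθ
  have hb1 : 0 < 1 - -b := by linarith
  have hθ0 : 0 ≤ θ := by
    rw [hθ, hz0re]
    exact div_nonneg (by linarith) hb1.le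
  have hθ1 : θ ≤ 1 := by
    rw [hθ, hz0re, div_le_one hb1]
    linarith
  have hθv : (v : ℝ) * (1 - θ) - θ ≤ 0 := by
    have e : (v : ℝ) * (1 - θ) - θ = (v * (1 - l.im) - (l.im + b)) / (1 - -b) := by
      rw [hθ, hz0re]
      field_simp
      ring
    rw [e]
    exact div_nonpos_of_nonpos_of_nonneg (by linarith) hb1.le
  have hle : ‖A l‖ ≤ ‖f z0‖ := by
    rw [hnorm, hIz, hz0re, hz0im]
    have e1 : 1 ≤ Real.exp (l.im ^ 2) := Real.one_le_exp (by positivity)
    have e2 : Real.exp (-(-x0 + x0) ^ 2) = 1 := by simp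
    rw [e2, mul_one]
    nlinarith [norm_nonneg (A l)]
  refine hle.trans (hmain.trans ?_)
  have hXv : (X ^ v) ^ (1 - θ) = X ^ ((v : ℝ) * (1 - θ)) := by
    rw [← Real.rpow_natCast, ← Real.rpow_mul hX0.le]
  rw [Real.mul_rpow (by linarith) (by positivity), Real.div_rpow (by linarith) hX0.le, hXv]
  have e1 : P ^ (1 - θ) ≤ P := by
    calc P ^ (1 - θ) ≤ P ^ (1 : ℝ) := Real.rpow_le_rpow_of_exponent_le hP1 (by linarith)
      _ = P := Real.rpow_one P
  have e2 : Q ^ θ ≤ Q := by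
    calc Q ^ θ ≤ Q ^ (1 : ℝ) := Real.rpow_le_rpow_of_exponent_le hQ1 hθ1
      _ = Q := Real.rpow_one Q
  have e3 : X ^ ((v : ℝ) * (1 - θ)) / X ^ θ ≤ 1 := by
    rw [← Real.rpow_sub hX0]
    exact Real.rpow_le_one_of_one_le_of_nonpos hX1 hθv
  calc P ^ (1 - θ) * X ^ ((v : ℝ) * (1 - θ)) * (Q ^ θ / X ^ θ)
      = (P ^ (1 - θ) * Q ^ θ) * (X ^ ((v : ℝ) * (1 - θ)) / X ^ θ) := by ring
    _ ≤ (P * Q) * 1 := by
        have : 0 ≤ X ^ ((v : ℝ) * (1 - θ)) / X ^ θ := by positivity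
        gcongr
    _ = P * Q := mul_one _

end aux3512

section OSec

variable {v : ℕ} {R M : ℝ} {V : EV v → ℝ} {A T : ℂ → OpV v R}

theorem FamG.strip (F : FamG v R M V A T) (B : ℝ) (hB : 0 ≤ B) :
    ∃ C : ℝ, 1 ≤ C ∧ ∀ l : ℂ, -B ≤ l.im → ‖T l‖ ≤ C := by
  set b : ℝ := B + v * (1 + B) with hb
  have hv : (0 : ℝ) ≤ v := Nat.cast_nonneg v
  have hb0 : 0 ≤ b := by positivity
  obtain ⟨C, hC, hg⟩ := F.growth b hb0
  set D : ℝ := (1 + Real.exp ((b + 1) ^ 2) * C * (2 + b) ^ v *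
    ((v.factorial : ℝ) * Real.exp 2)) * (2 * Real.exp 1 * Real.exp 2) with hD
  have hD0 : 0 ≤ D := by positivity
  have hM := F.hM
  have key : ∀ l : ℂ, -B ≤ l.im → ‖A l‖ ≤ 1 + D := by
    intro l hl
    rcases le_total l.im 1 with h1 | h1
    · have := three_3512 A F.differentiable.1 v b C hb0 hC hg ?_ l ?_ h1 ?_
      · linarith
      · intro z hz
        obtain ⟨e1, e2⟩ := F.norm_le z (by rw [hz]; norm_num)
        rw [hz] at e1 e2
        simp only [one_pow, inv_one, mul_one] at e1 e2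
        linarith
      · rw [hb]
        have : 0 ≤ (v : ℝ) * (1 + B) := by positivity
        linarith
      · rw [hb]
        have : (v : ℝ) * (1 - l.im) ≤ v * (1 + B) := by gcongr; linarith
        linarith
    · obtain ⟨e1, -⟩ := F.norm_le l (by linarith)
      have : (l.im ^ 2)⁻¹ ≤ 1 := inv_le_one_of_one_le₀ (one_le_pow₀ h1)
      linarith
  refine ⟨1 + M * (1 + D), by nlinarith, ?_⟩
  intro l hl
  have h1 := F.T_norm l
  have h2 := key l hl
  have h3 : M * ‖A l‖ ≤ M * (1 + D) := by gcongr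
  linarith

end OSec

end Pool.Agent.H269
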