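import Pool.Agent.H269.DefsG
import Pool.Agent.H269.GN.G020
import Pool.Agent.H269.GN.G021
import Pool.Agent.H269.GN.G029

/-!
# GN-45 HS bounds for T^n (MP_f2af60_mp, infinitely many resonances in odd dimension)
-/

set_option autoImplicit false

open MeasureTheory Filter Topology Complex
open scoped InnerProductSpace ENNReal NNReal

namespace Pool.Agent.H269


theorem ball_sub {v : ℕ} {R : ℝ} {x y : EV v} (hx : x ∈ Metric.closedBall (0 : EV v) R)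
    (hy : y ∈ Metric.closedBall (0 : EV v) R) : ‖x - y‖ ≤ 2 * R := by
  rw [mem_closedBall_zero_iff] at hx hy
  have := norm_sub_le x y
  linarith

theorem kerT_meas {v : ℕ} {R M : ℝ} {V : EV v → ℝ} {A T : ℂ → OpV v R}
    (F : FamG v R M V A T) (l : ℂ) :
    Measurable (Function.uncurry (fun x y : EV v => (V x : ℂ) * Gr v l ‖x - y‖)) := by
  have h1 : Measurable (fun p : EV v × EV v => (V p.1 : ℂ)) :=
    Complex.measurable_ofReal.comp (F.meas.comp measurable_fst)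
  have h2 : Measurable (fun p : EV v × EV v => Gr v l ‖p.1 - p.2‖) :=
    (Gr_measurable v l).comp ((measurable_fst.sub measurable_snd).norm)
  exact h1.mul h2


section OSec

variable {v : ℕ} {R M : ℝ} {V : EV v → ℝ} {A T : ℂ → OpV v R}

theorem FamG.pow_HS (F : FamG v R M V A T) (B : ℝ) (hB : 0 ≤ B) : ∃ C : ℝ, 0 ≤ C ∧
    ∀ (ι : Type) [DecidableEq ι] (b : HilbertBasis ι ℂ (Lp ℂ 2 (muV v R))),
      ∀ l : ℂ, -B ≤ l.im → HSle b (T l ^ (2 * v + 3)) (C * (1 + ‖l‖) ^ (v * (2 * v + 3))) := by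
  have hR := F.hR
  have hM := F.hM
  obtain ⟨C, hC, h⟩ := Gr_dom_strip v B (2 * R) hB (by linarith)
  obtain ⟨C1, hC1, h1⟩ := pow_HSle v R
  refine ⟨C1 * (M * C) ^ (2 * v + 3), by positivity, ?_⟩
  intro ι _ b l hl
  have h2 := h1 (M * C * (1 + ‖l‖) ^ v) 1 (by positivity) one_pos
    (fun x y => (V x : ℂ) * Gr v l ‖x - y‖) (T l) (kerT_meas F l) ?_ (F.kT l) ι b
  · have e : C1 * (M * C * (1 + ‖l‖) ^ v) ^ (2 * v + 3) / (1 : ℝ) ^ (2 * v + 3) =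
        C1 * (M * C) ^ (2 * v + 3) * (1 + ‖l‖) ^ (v * (2 * v + 3)) := by
      rw [one_pow, div_one, mul_pow, ← pow_mul, mul_assoc]
    rwa [e] at h2
  · intro x hx y hy
    have hxy := ball_sub hx hy
    have hg := h l ‖x - y‖ hl (norm_nonneg _) hxy
    have hV : ‖(V x : ℂ)‖ ≤ M := by
      rw [Complex.norm_real]
      exact F.bdd x
    calc ‖(V x : ℂ) * Gr v l ‖x - y‖‖ = ‖(V x : ℂ)‖ * ‖Gr v l ‖x - y‖‖ := norm_mul _ _
      _ ≤ M * (C * (1 + ‖l‖) ^ v * (Gr v (I * (1 : ℝ)) ‖x - y‖).re) :=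
          mul_le_mul hV hg (norm_nonneg _) hM
      _ = M * C * (1 + ‖l‖) ^ v * (Gr v (I * (1 : ℝ)) ‖x - y‖).re := by ring

theorem FamG.pow_HS_near (F : FamG v R M V A T) : ∃ C : ℝ, 0 ≤ C ∧
    ∀ (ι : Type) [DecidableEq ι] (b : HilbertBasis ι ℂ (Lp ℂ 2 (muV v R))),
      ∀ κ : ℝ, 0 < κ → ∀ l : ℂ, ‖l - I * κ‖ ≤ κ / 4 →
        HSle b (T l ^ (2 * v + 3)) (C / κ ^ (2 * v + 3)) := by
  have hR := F.hR
  have hM := F.hM
  obtain ⟨C, hC, h⟩ := Gr_dom_near v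
  obtain ⟨C1, hC1, h1⟩ := pow_HSle v R
  refine ⟨C1 * (M * C) ^ (2 * v + 3) * 2 ^ (2 * v + 3), by positivity, ?_⟩
  intro ι _ b κ hκ l hl
  have h2 := h1 (M * C) (κ / 2) (by positivity) (by positivity)
    (fun x y => (V x : ℂ) * Gr v l ‖x - y‖) (T l) (kerT_meas F l) ?_ (F.kT l) ι b
  · have e : C1 * (M * C) ^ (2 * v + 3) / (κ / 2) ^ (2 * v + 3) =
        C1 * (M * C) ^ (2 * v + 3) * 2 ^ (2 * v + 3) / κ ^ (2 * v + 3) := by
      rw [div_pow]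
      field_simp
    rwa [e] at h2
  · intro x hx y hy
    have hg := h κ hκ l hl ‖x - y‖ (norm_nonneg _)
    have hV : ‖(V x : ℂ)‖ ≤ M := by
      rw [Complex.norm_real]
      exact F.bdd x
    calc ‖(V x : ℂ) * Gr v l ‖x - y‖‖ = ‖(V x : ℂ)‖ * ‖Gr v l ‖x - y‖‖ := norm_mul _ _
      _ ≤ M * (C * (Gr v (I * ((κ / 2 : ℝ) : ℂ)) ‖x - y‖).re) :=
          mul_le_mul hV hg (norm_nonneg _) hM
      _ = M * C * (Gr v (I * ((κ / 2 : ℝ) : ℂ)) ‖x - y‖).re := by ring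

end OSec

end Pool.Agent.H269
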