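import Pool.Agent.H269.DefsG
import Pool.Agent.H269.GN.G001
import Pool.Agent.H269.GN.G002
import Pool.Agent.H269.GN.G003
import Pool.Agent.H269.GN.G020
import Pool.Agent.H269.GN.G021
import Pool.Agent.H269.GN.G027
import Pool.Agent.H269.GN.G028
import Pool.Agent.H269.GN.G030
import Pool.Agent.H269.R5.J16

/-!
# GN-46 the difference T(-l) - T(l): nuclear decomposition and traces (MP_f2af60_mp, infinitely many resonances in odd dimension)
-/

set_option autoImplicit false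

open MeasureTheory Filter Topology Complex
open scoped InnerProductSpace ENNReal NNReal

namespace Pool.Agent.H269



theorem muV_finite (v : ℕ) (R : ℝ) : IsFiniteMeasure (muV v R) :=
  ⟨by rw [Measure.restrict_apply_univ]; exact measure_closedBall_lt_top⟩

theorem muV_ae_ne (v : ℕ) (R : ℝ) (x : EV v) : ∀ᵐ y ∂(muV v R), y ≠ x := by
  rw [ae_iff]
  have h : {a : EV v | ¬ a ≠ x} = {x} := by ext; simp
  rw [h]
  exact measure_singleton x

theorem phi_const (v : ℕ) (a0 x : ℝ) (h0 : 0 ≤ a0) (hx : 0 ≤ x) (k : ℕ) :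
    a0 * (a0 ^ k * x ^ (2 * k + 2 * v + 1) / ((2 * k + 1).factorial : ℝ)) ≤
      a0 * (x ^ (2 * v + 1) * Real.exp ((1 + a0) * (1 + x))) := by
  apply mul_le_mul_of_nonneg_left _ h0
  have h1 : a0 ^ k ≤ (1 + a0) ^ (2 * k + 1) :=
    calc a0 ^ k ≤ (1 + a0) ^ k := pow_le_pow_left₀ h0 (by linarith) k
      _ ≤ (1 + a0) ^ (2 * k + 1) := pow_le_pow_right₀ (by linarith) (by omega)
  have h2 : x ^ (2 * k) ≤ (1 + x) ^ (2 * k + 1) :=
    calc x ^ (2 * k) ≤ (1 + x) ^ (2 * k) := pow_le_pow_left₀ hx (by linarith) _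
      _ ≤ (1 + x) ^ (2 * k + 1) := pow_le_pow_right₀ (by linarith) (by omega)
  have h3 : ((1 + a0) * (1 + x)) ^ (2 * k + 1) / ((2 * k + 1).factorial : ℝ) ≤
      Real.exp ((1 + a0) * (1 + x)) :=
    Real.pow_div_factorial_le_exp _ (by positivity) _
  have h4 : x ^ (2 * k + 2 * v + 1) = x ^ (2 * v + 1) * x ^ (2 * k) := by
    rw [← pow_add]; congr 1; ring
  have h5 : 0 ≤ x ^ (2 * v + 1) := by positivity
  calc a0 ^ k * x ^ (2 * k + 2 * v + 1) / ((2 * k + 1).factorial : ℝ)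
      = x ^ (2 * v + 1) * (a0 ^ k * x ^ (2 * k) / ((2 * k + 1).factorial : ℝ)) := by
        rw [h4]; ring
    _ ≤ x ^ (2 * v + 1) * (((1 + a0) * (1 + x)) ^ (2 * k + 1) / ((2 * k + 1).factorial : ℝ)) := by
        apply mul_le_mul_of_nonneg_left _ h5
        rw [mul_pow]
        gcongr
    _ ≤ x ^ (2 * v + 1) * Real.exp ((1 + a0) * (1 + x)) := mul_le_mul_of_nonneg_left h3 h5

section OSec

variable {v : ℕ} {R M : ℝ} {V : EV v → ℝ} {A T : ℂ → OpV v R}

theorem FamG.isKerJ (F : FamG v R M V A T) (l : ℂ) :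
    IsKer (muV v R) (fun x y => (V x : ℂ) * Jg v l ‖x - y‖) (T (-l) - T l) := by
  have := muV_finite v R
  refine ((F.kT (-l)).sub (F.kT l)).congr ?_
  refine Filter.Eventually.of_forall fun x => ?_
  filter_upwards [muV_ae_ne v R x] with y hy
  have hr : 0 < ‖x - y‖ := norm_pos_iff.2 (sub_ne_zero.2 (Ne.symm hy))
  rw [Jg_eq v l _ hr]
  ring

theorem FamG.nuclear (F : FamG v R M V A T) :
    ∃ (a0 : ℝ) (u : (Fin (2 * v + 5) → ℕ) → Lp ℂ 2 (muV v R))
      (φ : ℂ → (Fin (2 * v + 5) → ℕ) → Lp ℂ 2 (muV v R)),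
      0 ≤ a0 ∧ Summable (fun a => ‖u a‖) ∧
      (∀ l a, ‖φ l a‖ ≤ a0 * (a0 ^ (∑ i, a i) * ‖l‖ ^ (2 * (∑ i, a i) + 2 * v + 1) /
        ((2 * (∑ i, a i) + 1).factorial : ℝ))) ∧
      ∀ (l : ℂ) (h : Lp ℂ 2 (muV v R)),
        HasSum (fun a => ⟪φ l a, h⟫_ℂ • u a) ((T (-l) - T l) h) := by
  obtain ⟨a0, u, φ, h0, hs, hb, hk, -, -⟩ := nuclear_Jg v R F.hR.le V F.meas M F.bdd
  exact ⟨a0, u, φ, h0, hs, hb, fun l h => hk l _ (F.isKerJ l) h⟩

theorem FamG.tr_J (F : FamG v R M V A T) {ι : Type} [Countable ι] [DecidableEq ι]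
    (b : HilbertBasis ι ℂ (Lp ℂ 2 (muV v R))) (l : ℂ) :
    (∃ d, NucLe (T (-l) - T l) d) ∧
    tr b (T (-l) - T l) = (Rg v (-l) 0 - Rg v l 0) * ∫ x, (V x : ℂ) ∧
    ∀ (k : EV v → EV v → ℂ) (S : OpV v R), Measurable (Function.uncurry k) →
      Integrable (Function.uncurry k) ((muV v R).prod (muV v R)) → IsKer (muV v R) k S →
      tr b (S * (T (-l) - T l)) =
        ∫ x, ∫ y, k x y * ((V y : ℂ) * (Gr v (-l) ‖y - x‖ - Gr v l ‖y - x‖))
          ∂(muV v R) ∂(muV v R) := by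
  obtain ⟨a0, u, φ, h0, hs, hb, hk, htr, hS⟩ := nuclear_Jg v R F.hR.le V F.meas M F.bdd
  have hX := hk l _ (F.isKerJ l)
  have hsum : Summable (fun a => ‖u a‖ * ‖φ l a‖) := by
    refine Summable.of_nonneg_of_le (fun a => by positivity) (fun a => ?_)
      (hs.mul_right (a0 * (‖l‖ ^ (2 * v + 1) * Real.exp ((1 + a0) * (1 + ‖l‖)))))
    exact mul_le_mul_of_nonneg_left
      ((hb l a).trans (phi_const v a0 ‖l‖ h0 (norm_nonneg l) _)) (norm_nonneg _)
  refine ⟨⟨_, NucLe.of_countable u (φ l) hsum _ hX⟩, ?_, ?_⟩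
  · have h1 := tr_rep (b := b) u (φ l) hsum _ hX 1
    rw [one_mul] at h1
    rw [h1]
    have h2 := htr l
    simp only [one_apply_eq_self]
    rw [h2, Jg_zero]
    congr 1
    apply setIntegral_eq_integral_of_forall_compl_eq_zero
    intro x hx
    rw [F.supp x hx]
    simp
  · intro k S hkm hki hkS
    rw [tr_rep (b := b) u (φ l) hsum _ hX S, hS l k S hkm hki hkS]
    congr 1
    funext x
    apply integral_congr_ae
    filter_upwards [muV_ae_ne v R x] with y hy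
    have hr : 0 < ‖y - x‖ := norm_pos_iff.2 (sub_ne_zero.2 hy)
    rw [Jg_eq v l _ hr]

end OSec

end Pool.Agent.H269
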