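import Pool.Agent.H269.DefsG
import Pool.Agent.H269.GN.G001
import Pool.Agent.H269.GN.G002
import Pool.Agent.H269.GN.G003
import Pool.Agent.H269.GN.G004
import Pool.Agent.H269.GN.G031
import Pool.Agent.H269.GN.G046

/-!
# GN-47 the determinant of 1 + Y(T(-l) - T(l)): bounds (MP_f2af60_mp, infinitely many resonances in odd dimension)
-/

set_option autoImplicit false

open MeasureTheory Filter Topology Complex
open scoped InnerProductSpace ENNReal NNReal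

namespace Pool.Agent.H269



section OSec

variable {v : ℕ} {R M : ℝ} {V : EV v → ℝ} {A T : ℂ → OpV v R}

theorem FamG.det_YJ (F : FamG v R M V A T) {ι : Type} [Countable ι] [DecidableEq ι]
    (b : HilbertBasis ι ℂ (Lp ℂ 2 (muV v R))) :
    ∃ C : ℝ, ∀ (l : ℂ) (Y : OpV v R), ‖Y‖ ≤ 2 →
      ‖det1 b (Y * (T (-l) - T l))‖ ≤ Real.exp (C * (1 + ‖l‖) ^ (2 * v + 7)) := by
  obtain ⟨a0, u, φ, ha0, hu, hφ, hJ⟩ := F.nuclear
  have hS0 : 0 ≤ ∑' a, ‖u a‖ := tsum_nonneg fun a => norm_nonneg _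
  obtain ⟨C1, hC1⟩ := prod_boundG (2 * v + 5) v a0 a0 ha0 ha0
  obtain ⟨C, hC⟩ := prod_boundG (2 * v + 5) v a0 (a0 * (2 * ∑' a, ‖u a‖)) ha0 (by positivity)
  refine ⟨C, fun l Y hY => ?_⟩
  have hYu : ∀ a, ‖Y (u a)‖ ≤ 2 * ‖u a‖ := fun a =>
    (Y.le_opNorm (u a)).trans (mul_le_mul_of_nonneg_right hY (norm_nonneg _))
  have hsv : Summable fun a => ‖Y (u a)‖ :=
    Summable.of_nonneg_of_le (fun a => norm_nonneg _) hYu (hu.mul_left 2)
  have hφb : ∀ a, ‖φ l a‖ ≤ Real.exp (C1 * (1 + ‖l‖) ^ (2 * v + 5 + 2)) := by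
    intro a
    have h1 := hC1 ‖l‖ (norm_nonneg _) {a}
    rw [Finset.prod_singleton] at h1
    have h2 := hφ l a
    linarith
  have hs : Summable fun a => ‖Y (u a)‖ * ‖φ l a‖ := by
    apply Summable.of_nonneg_of_le (fun a => by positivity) _
      (hsv.mul_right (Real.exp (C1 * (1 + ‖l‖) ^ (2 * v + 5 + 2))))
    intro a
    exact mul_le_mul_of_nonneg_left (hφb a) (norm_nonneg _)
  apply det1_nuclear (fun a => Y (u a)) (φ l) hs hsv _ _ (2 * ∑' a, ‖u a‖) _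
  · rw [← tsum_mul_left]
    exact hsv.tsum_le_tsum hYu (hu.mul_left 2)
  · intro s
    refine le_trans ?_ (hC ‖l‖ (norm_nonneg _) s)
    apply Finset.prod_le_prod
    · intro a _
      positivity
    · intro a _
      have h2 := mul_le_mul_of_nonneg_right (hφ l a)
        (show 0 ≤ 2 * ∑' a, ‖u a‖ by positivity)
      linarith
  · intro h
    have h1 := (hJ l h).mapL Y
    simpa using h1

theorem FamG.det_YJ_low (F : FamG v R M V A T) {ι : Type} [Countable ι] [DecidableEq ι]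
    (b : HilbertBasis ι ℂ (Lp ℂ 2 (muV v R))) (L : ℝ) :
    ∃ C δ : ℝ, 0 < δ ∧ ∀ (l : ℂ) (Y : OpV v R), ‖l‖ ≤ δ → ‖Y‖ ≤ L →
      ‖det1 b (Y * (T (-l) - T l)) - 1‖ ≤ C * ‖l‖ ^ (2 * v + 1) := by
  obtain ⟨a0, u, φ, ha0, hu, hφ, hJ⟩ := F.nuclear
  have hS0 : 0 ≤ ∑' a, ‖u a‖ := tsum_nonneg fun a => norm_nonneg _
  obtain ⟨C1, hC1⟩ := prod_boundG (2 * v + 5) v a0 1 ha0 zero_le_one
  set M1 := Real.exp (C1 * (1 + 1) ^ (2 * v + 5 + 2)) with hM1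
  have hM1' : 0 ≤ M1 := (Real.exp_pos _).le
  have hφb : ∀ l a, ‖l‖ ≤ 1 → ‖φ l a‖ ≤ a0 * M1 * ‖l‖ ^ (2 * v + 1) := by
    intro l a hl
    have h1 := hC1 1 zero_le_one {a}
    rw [Finset.prod_singleton, one_pow, mul_one, one_mul] at h1
    refine (hφ l a).trans ?_
    rw [mul_assoc]
    apply mul_le_mul_of_nonneg_left _ ha0
    have h2 : ‖l‖ ^ (2 * (∑ i, a i)) ≤ 1 := pow_le_one₀ (norm_nonneg _) hl
    have h3 : a0 ^ (∑ i, a i) * ‖l‖ ^ (2 * (∑ i, a i) + 2 * v + 1) /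
        ((2 * (∑ i, a i) + 1).factorial : ℝ) =
        (a0 ^ (∑ i, a i) / ((2 * (∑ i, a i) + 1).factorial : ℝ)) *
          (‖l‖ ^ (2 * (∑ i, a i)) * ‖l‖ ^ (2 * v + 1)) := by
      rw [← pow_add, add_assoc]
      ring
    rw [h3]
    have h4 : ‖l‖ ^ (2 * (∑ i, a i)) * ‖l‖ ^ (2 * v + 1) ≤ ‖l‖ ^ (2 * v + 1) :=
      mul_le_of_le_one_left (by positivity) h2
    have h5 : a0 ^ (∑ i, a i) / ((2 * (∑ i, a i) + 1).factorial : ℝ) ≤ M1 := by rw [hM1]; linarith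
    exact mul_le_mul h5 h4 (by positivity) hM1'
  set K := |L| * ((∑' a, ‖u a‖) * (a0 * M1)) with hK
  have hK0 : 0 ≤ K := by positivity
  refine ⟨60 * K, min 1 (1 / (K + 1)), lt_min one_pos (by positivity), ?_⟩
  intro l Y hl hY
  have hl1 : ‖l‖ ≤ 1 := hl.trans (min_le_left _ _)
  have hl2 : ‖l‖ ≤ 1 / (K + 1) := hl.trans (min_le_right _ _)
  have hs : Summable fun a => ‖u a‖ * ‖φ l a‖ := by
    apply Summable.of_nonneg_of_le (fun a => by positivity) _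
      (hu.mul_right (a0 * M1 * ‖l‖ ^ (2 * v + 1)))
    intro a
    exact mul_le_mul_of_nonneg_left (hφb l a hl1) (norm_nonneg _)
  have h1 : NucLe (T (-l) - T l) (∑' a, ‖u a‖ * ‖φ l a‖) :=
    NucLe.of_countable u (φ l) hs _ (hJ l)
  have h2 : ∑' a, ‖u a‖ * ‖φ l a‖ ≤ (∑' a, ‖u a‖) * (a0 * M1 * ‖l‖ ^ (2 * v + 1)) := by
    rw [← tsum_mul_right]
    exact hs.tsum_le_tsum (fun a => mul_le_mul_of_nonneg_left (hφb l a hl1) (norm_nonneg _))
      (hu.mul_right _)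
  have h3 : NucLe (Y * (T (-l) - T l)) (K * ‖l‖ ^ (2 * v + 1)) := by
    apply (h1.left_mul Y).mono
    have h4 : ‖Y‖ ≤ |L| := hY.trans (le_abs_self L)
    calc ‖Y‖ * ∑' a, ‖u a‖ * ‖φ l a‖ ≤ |L| * ((∑' a, ‖u a‖) * (a0 * M1 * ‖l‖ ^ (2 * v + 1))) :=
          mul_le_mul h4 h2 (tsum_nonneg fun a => by positivity) (abs_nonneg _)
      _ = K * ‖l‖ ^ (2 * v + 1) := by rw [hK]; ring
  have h4 : K * ‖l‖ ^ (2 * v + 1) ≤ 1 := by
    have h5 : ‖l‖ ^ (2 * v + 1) ≤ ‖l‖ := pow_le_of_le_one (norm_nonneg _) hl1 (by omega)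
    calc K * ‖l‖ ^ (2 * v + 1) ≤ K * (1 / (K + 1)) :=
          mul_le_mul_of_nonneg_left (h5.trans hl2) hK0
      _ ≤ 1 := by
          rw [mul_one_div, div_le_one (by positivity)]
          linarith
  have h5 := (det1_sub_one (b := b) h3 h4).2
  linarith

end OSec

end Pool.Agent.H269
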