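import Pool.Agent.H269.DefsG
import Pool.Agent.H269.GN.G012
import Pool.Agent.H269.GN.G013
import Pool.Agent.H269.GN.G041
import Pool.Agent.H269.GN.G042
import Pool.Agent.H269.GN.G043
import Pool.Agent.H269.GN.G044
import Pool.Agent.H269.GN.G045
import Pool.Agent.H269.R5.J01

/-!
# GN-48 the determinant Det(T(l)): entire, growth, near the imaginary axis (MP_f2af60_mp, infinitely many resonances in odd dimension)
-/

set_option autoImplicit false

open MeasureTheory Filter Topology Complex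
open scoped InnerProductSpace ENNReal NNReal

namespace Pool.Agent.H269



section OSec

variable {v : ℕ} {R M : ℝ} {V : EV v → ℝ} {A T : ℂ → OpV v R}

theorem FamG.Det_entire (F : FamG v R M V A T) {ι : Type} [Countable ι] [DecidableEq ι]
    (b : HilbertBasis ι ℂ (Lp ℂ 2 (muV v R))) :
    Differentiable ℂ (fun l => det1 b (Kp (2 * (2 * v + 3)) (T l))) ∧
    ∀ l, det1 b (Kp (2 * (2 * v + 3)) (T l)) = 0 ↔ ¬ IsUnit (1 + T l) := by
  constructor
  · refine detKp_entire (2 * v + 3) (by omega) F.differentiable.2 ?_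
    intro r
    obtain ⟨C, hC0, hC⟩ := F.pow_HS |r| (abs_nonneg r)
    refine ⟨C * (1 + r) ^ (v * (2 * v + 3)), ?_⟩
    intro z hz
    have h1 : -|r| ≤ z.im := by
      have h2 := Complex.abs_im_le_norm z
      have h3 := neg_abs_le z.im
      have h4 := le_abs_self r
      linarith
    refine (hC ι b z h1).mono ?_
    have h5 : 1 + ‖z‖ ≤ 1 + r := by linarith
    have h6 : (1 + ‖z‖) ^ (v * (2 * v + 3)) ≤ (1 + r) ^ (v * (2 * v + 3)) :=
      pow_le_pow_left₀ (by positivity) h5 _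
    exact mul_le_mul_of_nonneg_left h6 hC0
  · intro l
    obtain ⟨C, hC0, hC⟩ := F.pow_HS |l.im| (abs_nonneg l.im)
    exact detKp_eq_zero (2 * v + 3) (by omega) (hC ι b l (neg_abs_le l.im))

theorem FamG.Det_bound (F : FamG v R M V A T) {ι : Type} [Countable ι] [DecidableEq ι]
    (b : HilbertBasis ι ℂ (Lp ℂ 2 (muV v R))) (B : ℝ) (hB : 0 ≤ B) :
    ∃ C : ℝ, ∀ l : ℂ, -B ≤ l.im → ‖det1 b (Kp (2 * (2 * v + 3)) (T l))‖ ≤
      Real.exp (C * (1 + ‖l‖) ^ (2 * (v * (2 * v + 3)))) := by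
  obtain ⟨C1, hC1, h1⟩ := F.strip B hB
  obtain ⟨C2, hC2, h2⟩ := F.pow_HS B hB
  refine ⟨C2 ^ 2 * Real.exp (8 * ((2 * v + 3 : ℕ) : ℝ) * C1 ^ (2 * (2 * v + 3))), ?_⟩
  intro l hl
  have h3 := detKp_bound (2 * v + 3) (by omega) (h2 ι b l hl) C1 hC1 (h1 l hl)
  refine h3.trans (le_of_eq ?_)
  congr 1
  rw [mul_pow, ← pow_mul, mul_comm (v * (2 * v + 3)) 2]
  ring

theorem FamG.Det_near (F : FamG v R M V A T) {ι : Type} [Countable ι] [DecidableEq ι]
    (b : HilbertBasis ι ℂ (Lp ℂ 2 (muV v R))) :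
    ∃ C κ₀ : ℝ, 0 < κ₀ ∧ ∀ κ : ℝ, κ₀ ≤ κ → ∀ l : ℂ, ‖l - I * κ‖ ≤ κ / 4 →
      ‖det1 b (Kp (2 * (2 * v + 3)) (T l)) - 1‖ ≤ C / κ ^ (2 * (2 * v + 3)) := by
  obtain ⟨C0, hC0, h0⟩ := detKp_near (b := b) (2 * v + 3) (by omega)
  obtain ⟨C1, hC1, h1⟩ := F.pow_HS_near
  have hM := F.hM
  refine ⟨C0 * C1 ^ 2, 1 + 2 * M + C0 * C1 ^ 2, by positivity, ?_⟩
  intro κ hκ l hl
  have hp : 0 ≤ C0 * C1 ^ 2 := by positivity
  have hκ1 : 1 ≤ κ := by linarith
  have hκ0 : 0 < κ := by linarith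
  have him : 3 * κ / 4 ≤ l.im := by
    have h2 := Complex.abs_im_le_norm (l - I * κ)
    have h3 : (l - I * κ).im = l.im - κ := by simp
    rw [h3] at h2
    have h4 := neg_abs_le (l.im - κ)
    linarith
  have him0 : 0 < l.im := by linarith
  have hT : ‖T l‖ ≤ 1 := by
    have h2 := F.T_norm l
    have h3 := (F.norm_le l him0).1
    have h4 : M * ‖A l‖ ≤ M * (l.im ^ 2)⁻¹ := mul_le_mul_of_nonneg_left h3 hM
    have h5 : M ≤ l.im ^ 2 := by nlinarith
    have h6 : M * (l.im ^ 2)⁻¹ ≤ 1 := by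
      rw [← div_eq_mul_inv, div_le_one (by positivity)]
      exact h5
    linarith
  have hpow : C0 * (C1 / κ ^ (2 * v + 3)) ^ 2 = C0 * C1 ^ 2 / κ ^ (2 * (2 * v + 3)) := by
    rw [div_pow, ← pow_mul, mul_comm (2 * v + 3) 2]
    ring
  have hle : κ ≤ κ ^ (2 * (2 * v + 3)) := le_self_pow₀ hκ1 (by omega)
  have h2 := h0 (h1 ι b κ hκ0 l hl) hT (by
    rw [hpow, div_le_one (by positivity)]
    linarith)
  rw [hpow] at h2
  exact h2

end OSec

end Pool.Agent.H269
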