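import Pool.Agent.H269.DefsG
import Pool.Agent.H269.GN.G001
import Pool.Agent.H269.GN.G002
import Pool.Agent.H269.GN.G008
import Pool.Agent.H269.GN.G009
import Pool.Agent.H269.GN.G011
import Pool.Agent.H269.GN.G041
import Pool.Agent.H269.GN.G042
import Pool.Agent.H269.GN.G043
import Pool.Agent.H269.GN.G045
import Pool.Agent.H269.R5.J01
import Pool.Agent.H269.R5.J04
import Pool.Agent.H269.R5.J06
import Pool.Agent.H269.R5.J11
import Pool.Agent.H269.R5.J19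
import Pool.Agent.H269.R5.J41

/-!
# GN-49 poles of a matrix element, odd dimension (MP_f2af60_mp, infinitely many resonances in odd dimension)
-/

set_option autoImplicit false

open MeasureTheory Filter Topology Complex
open scoped InnerProductSpace ENNReal NNReal

namespace Pool.Agent.H269



section OSec

variable {v : ℕ} {R M : ℝ} {V : EV v → ℝ} {A T : ℂ → OpV v R}

theorem P3517_norm_T (F : FamG v R M V A T) (μ : ℂ) (x : Lp ℂ 2 (muV v R)) :
    ‖T μ x‖ ≤ M * ‖A μ x‖ := by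
  refine Lp.norm_le_mul_norm_of_ae_le_mul ?_
  filter_upwards [F.T_apply μ x] with y hy
  rw [hy, norm_mul]
  refine mul_le_mul_of_nonneg_right ?_ (norm_nonneg _)
  rw [Complex.norm_real]
  exact F.bdd y

/-- if `1 + T l₁` is not invertible then `A (u n) * Y n` cannot stay bounded -/
theorem P3517_bdd (F : FamG v R M V A T) (l₁ : ℂ) (h : ¬ IsUnit (1 + T l₁)) (u : ℕ → ℂ)
    (hu : Tendsto u atTop (𝓝 l₁)) (Y : ℕ → OpV v R) (hY : ∀ n, (1 + T (u n)) * Y n = 1)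
    (hY' : ∀ n, Y n * (1 + T (u n)) = 1) (L : ℝ) (hL : ∀ n, ‖A (u n) * Y n‖ ≤ L) : False := by
  have hL0 : 0 ≤ L := (norm_nonneg _).trans (hL 0)
  have hM := F.hM
  have hYb : ∀ n, ‖Y n‖ ≤ 1 + M * L := by
    intro n
    have e1 : Y n = 1 - T (u n) * Y n := by
      have := hY n
      rw [add_mul, one_mul] at this
      rw [← this]
      abel
    have h1 : ‖T (u n) * Y n‖ ≤ M * L := by
      refine ContinuousLinearMap.opNorm_le_bound _ (mul_nonneg hM hL0) fun x => ?_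
      calc ‖(T (u n) * Y n) x‖ = ‖T (u n) (Y n x)‖ := rfl
        _ ≤ M * ‖A (u n) (Y n x)‖ := P3517_norm_T F _ _
        _ = M * ‖(A (u n) * Y n) x‖ := rfl
        _ ≤ M * (L * ‖x‖) := by
            refine mul_le_mul_of_nonneg_left ?_ hM
            exact (ContinuousLinearMap.le_opNorm _ _).trans
              (mul_le_mul_of_nonneg_right (hL n) (norm_nonneg _))
        _ = M * L * ‖x‖ := by ring
    have h2 : ‖(1 : OpV v R)‖ ≤ 1 := ContinuousLinearMap.norm_id_le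
    calc ‖Y n‖ = ‖1 - T (u n) * Y n‖ := by rw [← e1]
      _ ≤ ‖(1 : OpV v R)‖ + ‖T (u n) * Y n‖ := norm_sub_le _ _
      _ ≤ 1 + M * L := add_le_add h2 h1
  have hTc : Tendsto (fun n => T (u n)) atTop (𝓝 (T l₁)) :=
    (F.differentiable.2.continuous.tendsto l₁).comp hu
  have hlim : Tendsto (fun n => (1 + M * L) * ‖T l₁ - T (u n)‖) atTop (𝓝 0) := by
    have h1 : Tendsto (fun n => ‖T l₁ - T (u n)‖) atTop (𝓝 0) := by
      have := (tendsto_const_nhds (x := T l₁)).sub hTc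
      simpa using this.norm
    simpa using h1.const_mul (1 + M * L)
  have hev : ∀ᶠ n in atTop, (1 + M * L) * ‖T l₁ - T (u n)‖ < 1 :=
    hlim.eventually (gt_mem_nhds one_pos)
  obtain ⟨n, hn1⟩ := hev.exists
  have hlt : ‖-(Y n * (T l₁ - T (u n)))‖ < 1 := by
    rw [norm_neg]
    calc ‖Y n * (T l₁ - T (u n))‖ ≤ ‖Y n‖ * ‖T l₁ - T (u n)‖ := norm_mul_le _ _
      _ ≤ (1 + M * L) * ‖T l₁ - T (u n)‖ :=
          mul_le_mul_of_nonneg_right (hYb n) (norm_nonneg _)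
      _ < 1 := hn1
  have hun := isUnit_one_sub_of_norm_lt_one hlt
  have hun2 : IsUnit (1 + T (u n)) := ⟨⟨1 + T (u n), Y n, hY n, hY' n⟩, rfl⟩
  apply h
  have e2 : 1 + T l₁ = (1 + T (u n)) * (1 - -(Y n * (T l₁ - T (u n)))) := by
    rw [sub_neg_eq_add, mul_add, mul_one, ← mul_assoc, hY n, one_mul]
    abel
  rw [e2]
  exact hun2.mul hun

/-- the two uniform boundedness steps -/
theorem P3517_bs (W : ℕ → OpV v R)
    (hb : ∀ f g : Lp ℂ 2 (muV v R), ∃ C : ℝ, ∀ n, ‖⟪g, W n f⟫_ℂ‖ ≤ C) :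
    ∃ L : ℝ, ∀ n, ‖W n‖ ≤ L := by
  refine banach_steinhaus fun f => ?_
  have h1 : ∃ C' : ℝ, ∀ n, ‖(innerSL ℂ (W n f) : Lp ℂ 2 (muV v R) →L[ℂ] ℂ)‖ ≤ C' := by
    refine banach_steinhaus fun g => ?_
    obtain ⟨C, hC⟩ := hb f g
    refine ⟨C, fun n => ?_⟩
    rw [innerSL_apply_apply, norm_inner_symm]
    exact hC n
  obtain ⟨C', hC'⟩ := h1
  refine ⟨C', fun n => ?_⟩
  have := hC' n
  rwa [innerSL_apply_norm] at this

/-- the exponential factor -/
noncomputable def P3517_E (T : ℂ → OpV v R) (q : ℕ) (μ : ℂ) : OpV v R :=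
  NormedSpace.exp (ee q (T μ))

theorem P3517_E_diff (T : ℂ → OpV v R) (hT : Differentiable ℂ T) (q : ℕ) :
    Differentiable ℂ (P3517_E T q) := by
  have h1 : Differentiable ℂ (fun μ => ee q (T μ)) := by
    unfold ee
    refine Differentiable.fun_sum fun j _ => ?_
    exact (hT.pow (j + 1)).const_smul ((-1 : ℂ) ^ (j + 1) / ((j : ℂ) + 1))
  intro μ
  exact ((NormedSpace.exp_analytic (𝕂 := ℂ) (ee q (T μ))).differentiableAt).comp μ (h1 μ)

theorem P3517_E_unit (T : ℂ → OpV v R) (q : ℕ) (μ : ℂ) :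
    ∃ E' : OpV v R, P3517_E T q μ * E' = 1 ∧ E' * P3517_E T q μ = 1 := by
  let _ : NormedAlgebra ℚ (OpV v R) := NormedAlgebra.restrictScalars ℚ ℂ _
  refine ⟨NormedSpace.exp (-(ee q (T μ))), ?_, ?_⟩
  · unfold P3517_E
    rw [← NormedSpace.exp_add_of_commute (Commute.neg_right (Commute.refl _)), add_neg_cancel,
      NormedSpace.exp_zero]
  · unfold P3517_E
    have h1 := NormedSpace.exp_add_of_commute (x := -(ee q (T μ))) (y := ee q (T μ))
      (Commute.neg_left (Commute.refl _))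
    rw [neg_add_cancel, NormedSpace.exp_zero] at h1
    exact h1.symm

/-- continuous families are bounded on balls -/
theorem P3517_loc {B : Type} [NormedAddCommGroup B] (f : ℂ → B) (hf : Continuous f) (r : ℝ) :
    ∃ c, ∀ z : ℂ, ‖z‖ ≤ r → ‖f z‖ ≤ c := by
  obtain ⟨c, hc⟩ := (isCompact_closedBall (0 : ℂ) r).exists_bound_of_continuousOn hf.continuousOn
  exact ⟨c, fun z hz => hc z (by simpa using hz)⟩

theorem P3517_HS (F : FamG v R M V A T) {ι : Type} [DecidableEq ι] [Countable ι]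
    (b : HilbertBasis ι ℂ (Lp ℂ 2 (muV v R))) (r : ℝ) :
    ∃ c, ∀ z : ℂ, ‖z‖ ≤ r → HSle b (Kp (2 * (2 * v + 3)) (T z)) c := by
  obtain ⟨τ, hτ⟩ := P3517_loc T F.differentiable.2.continuous r
  obtain ⟨C, hC0, hC⟩ := F.pow_HS |r| (abs_nonneg _)
  set c0 : ℝ := C * (1 + |r|) ^ (v * (2 * v + 3)) with hc0
  refine ⟨c0 * (|τ| ^ (2 * v + 3) *
    Real.exp (∑ j ∈ Finset.range (2 * (2 * v + 3) - 1), |τ| ^ (j + 1))), fun z hz => ?_⟩
  have hzr : ‖z‖ ≤ |r| := hz.trans (le_abs_self r)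
  have h1 := hC ι b z (by
    have h2 := Complex.abs_im_le_norm z
    have h3 := neg_abs_le z.im
    linarith)
  have h2 : HSle b (T z ^ (2 * v + 3)) c0 := by
    refine h1.mono ?_
    rw [hc0]
    gcongr
  have h3 := (Kp_bounds (2 * v + 3) (by omega) h2).1
  refine h3.mono ?_
  have hT : ‖T z‖ ≤ |τ| := (hτ z hz).trans (le_abs_self _)
  have hc00 : 0 ≤ c0 := by positivity
  gcongr

/-- the functional `⟪g, A μ E μ ·⟫` -/
noncomputable def P3517_l (g : Lp ℂ 2 (muV v R)) (A T : ℂ → OpV v R) (μ : ℂ) :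
    Lp ℂ 2 (muV v R) →L[ℂ] ℂ :=
  (innerSL ℂ g).comp (A μ * P3517_E T (2 * (2 * v + 3)) μ)

theorem P3517_l_apply (g : Lp ℂ 2 (muV v R)) (A T : ℂ → OpV v R) (μ : ℂ)
    (x : Lp ℂ 2 (muV v R)) :
    P3517_l g A T μ x = ⟪g, A μ (P3517_E T (2 * (2 * v + 3)) μ x)⟫_ℂ := rfl

theorem P3517_l_diff (F : FamG v R M V A T) (g : Lp ℂ 2 (muV v R)) :
    Differentiable ℂ (P3517_l g A T) := by
  have h1 : Differentiable ℂ (fun μ => A μ * P3517_E T (2 * (2 * v + 3)) μ) :=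
    F.differentiable.1.mul (P3517_E_diff T F.differentiable.2 _)
  have h2 := (ContinuousLinearMap.compL ℂ (Lp ℂ 2 (muV v R)) (Lp ℂ 2 (muV v R)) ℂ
    (innerSL ℂ g)).differentiable.comp h1
  exact h2

/-- the Riesz representer -/
noncomputable def P3517_w (g : Lp ℂ 2 (muV v R)) (A T : ℂ → OpV v R) (μ : ℂ) :
    Lp ℂ 2 (muV v R) :=
  (InnerProductSpace.toDual ℂ (Lp ℂ 2 (muV v R))).symm (P3517_l g A T μ)

theorem P3517_w_inner (g : Lp ℂ 2 (muV v R)) (A T : ℂ → OpV v R) (μ : ℂ)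
    (x : Lp ℂ 2 (muV v R)) : ⟪P3517_w g A T μ, x⟫_ℂ = P3517_l g A T μ x := by
  unfold P3517_w
  exact InnerProductSpace.toDual_symm_apply

theorem P3517_w_norm (g : Lp ℂ 2 (muV v R)) (A T : ℂ → OpV v R) (μ : ℂ) :
    ‖P3517_w g A T μ‖ = ‖P3517_l g A T μ‖ := by
  unfold P3517_w
  exact LinearIsometryEquiv.norm_map _ _

theorem P3517_rk (f g : Lp ℂ 2 (muV v R)) (A T : ℂ → OpV v R) (μ : ℂ) :
    InnerProductSpace.rankOne ℂ f (P3517_w g A T μ) = (P3517_l g A T μ).smulRight f := by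
  ext1 x
  rw [InnerProductSpace.rankOne_apply, P3517_w_inner]
  rfl

theorem P3517_rk_diff (F : FamG v R M V A T) (f g : Lp ℂ 2 (muV v R)) :
    Differentiable ℂ (fun μ => InnerProductSpace.rankOne ℂ f (P3517_w g A T μ)) := by
  have h1 : (fun μ => InnerProductSpace.rankOne ℂ f (P3517_w g A T μ)) =
      fun μ => (P3517_l g A T μ).smulRight f := by
    funext μ
    exact P3517_rk f g A T μ
  rw [h1]
  have h2 := P3517_l_diff F g
  have h3 := ((ContinuousLinearMap.smulRightL ℂ (Lp ℂ 2 (muV v R)) (Lp ℂ 2 (muV v R))).flip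
    f).differentiable.comp h2
  exact h3

/-- the entire numerators -/
theorem P3517_N (F : FamG v R M V A T) {ι : Type} [DecidableEq ι] [Countable ι]
    (b : HilbertBasis ι ℂ (Lp ℂ 2 (muV v R))) (f g : Lp ℂ 2 (muV v R)) :
    ∃ N : ℂ → ℂ, Differentiable ℂ N ∧
      ∀ (μ : ℂ) (Y : OpV v R), (1 + T μ) * Y = 1 → Y * (1 + T μ) = 1 →
        ⟪g, A μ (Y f)⟫_ℂ * det2 b (Kp (2 * (2 * v + 3)) (T μ)) = N μ := by
  set K : ℂ → OpV v R := fun μ => Kp (2 * (2 * v + 3)) (T μ) with hK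
  have hKd : Differentiable ℂ K := Kp_differentiable _ F.differentiable.2
  have hHS := P3517_HS F b
  set N : ℂ → ℂ := fun μ =>
    det2 b (K μ + InnerProductSpace.rankOne ℂ f (P3517_w g A T μ)) * cexp (P3517_l g A T μ f) -
      det2 b (K μ) with hN
  refine ⟨N, ?_, ?_⟩
  · refine Differentiable.sub (Differentiable.mul ?_ ?_) ?_
    · refine det2_entire (hKd.add (P3517_rk_diff F f g)) fun r => ?_
      obtain ⟨c, hc⟩ := hHS r
      obtain ⟨c', hc'⟩ := P3517_loc (P3517_l g A T) (P3517_l_diff F g).continuous r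
      refine ⟨c + ‖f‖ * c', fun z hz => ?_⟩
      refine (hc z hz).add ((HSle.rankOne b f (P3517_w g A T z)).mono ?_)
      rw [P3517_w_norm]
      exact mul_le_mul_of_nonneg_left (hc' z hz) (norm_nonneg _)
    · refine Differentiable.cexp ?_
      exact ((ContinuousLinearMap.apply ℂ ℂ f).differentiable).comp (P3517_l_diff F g)
    · exact det2_entire hKd hHS
  · intro μ Y h1 h2
    obtain ⟨E', hE1, hE2⟩ := P3517_E_unit T (2 * (2 * v + 3)) μ
    have hKE : 1 + K μ = (1 + T μ) * P3517_E T (2 * (2 * v + 3)) μ := by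
      rw [hK]
      simp only [Kp, P3517_E]
      abel
    have h3 : (1 + K μ) * (E' * Y) = 1 := by
      rw [hKE]
      calc (1 + T μ) * P3517_E T (2 * (2 * v + 3)) μ * (E' * Y)
          = (1 + T μ) * (P3517_E T (2 * (2 * v + 3)) μ * E') * Y := by simp only [mul_assoc]
        _ = 1 := by rw [hE1, mul_one, h1]
    have h4 : (E' * Y) * (1 + K μ) = 1 := by
      rw [hKE]
      calc E' * Y * ((1 + T μ) * P3517_E T (2 * (2 * v + 3)) μ)
          = E' * (Y * (1 + T μ)) * P3517_E T (2 * (2 * v + 3)) μ := by simp only [mul_assoc]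
        _ = 1 := by rw [h2, mul_one, hE2]
    obtain ⟨c, hc⟩ := hHS ‖μ‖
    have h5 := det2_rankOne (hc μ le_rfl) (E' * Y) h3 h4 f (P3517_w g A T μ)
    rw [P3517_w_inner, P3517_w_inner] at h5
    have h6 : P3517_l g A T μ ((E' * Y) f) = ⟪g, A μ (Y f)⟫_ℂ := by
      rw [P3517_l_apply]
      have h7 : P3517_E T (2 * (2 * v + 3)) μ ((E' * Y) f) = Y f := by
        calc P3517_E T (2 * (2 * v + 3)) μ ((E' * Y) f)
            = ((P3517_E T (2 * (2 * v + 3)) μ * E') * Y) f := rfl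
          _ = Y f := by rw [hE1, one_mul]
      rw [h7]
    rw [h6] at h5
    rw [hN]
    simp only
    rw [h5]
    ring

end OSec

section OSec

variable {v : ℕ} {R M : ℝ} {V : EV v → ℝ} {A T : ℂ → OpV v R}

theorem FamG.exists_pole (F : FamG v R M V A T) (l₁ : ℂ) (h : ¬ IsUnit (1 + T l₁)) :
    ∃ (f g : Lp ℂ 2 (muV v R)) (Φ : ℂ → ℂ), MeromorphicOn Φ Set.univ ∧
      (∀ (μ : ℂ) (Y : OpV v R), (1 + T μ) * Y = 1 → Y * (1 + T μ) = 1 →
        Φ μ = ⟪g, A μ (Y f)⟫_ℂ) ∧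
      meromorphicOrderAt Φ l₁ < 0 := by
  classical
  have hq1 : 1 ≤ 2 * v + 3 := by omega
  have : Fact ((2 : ℝ≥0∞) ≠ ⊤) := ⟨by norm_num⟩
  have : TopologicalSpace.SeparableSpace (Lp ℂ 2 (muV v R)) := inferInstance
  obtain ⟨ι, hι, ⟨b⟩⟩ := exists_countable_basis (Lp ℂ 2 (muV v R))
  have hM := F.hM
  -- the base point
  have hκ : ∃ l0 : ℂ, ‖T l0‖ < 1 := by
    refine ⟨((1 + M : ℝ) : ℂ) * I, ?_⟩
    have him : (((1 + M : ℝ) : ℂ) * I).im = 1 + M := by
      simp only [Complex.mul_im, Complex.ofReal_re, Complex.ofReal_im, Complex.I_re, Complex.I_im]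
      ring
    have h1 := (F.norm_le (((1 + M : ℝ) : ℂ) * I) (by rw [him]; linarith)).1
    rw [him] at h1
    have h2 := F.T_norm (((1 + M : ℝ) : ℂ) * I)
    have h3 : M * ((1 + M) ^ 2)⁻¹ < 1 := by
      rw [← div_eq_mul_inv, div_lt_one (by positivity)]
      nlinarith
    calc ‖T (((1 + M : ℝ) : ℂ) * I)‖ ≤ M * ‖A (((1 + M : ℝ) : ℂ) * I)‖ := h2
      _ ≤ M * ((1 + M) ^ 2)⁻¹ := mul_le_mul_of_nonneg_left h1 hM
      _ < 1 := h3
  obtain ⟨l0, hl0⟩ := hκ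
  have hU0 : IsUnit (1 + T l0) := by
    have := isUnit_one_sub_of_norm_lt_one (x := -T l0) (by rwa [norm_neg])
    rwa [sub_neg_eq_add] at this
  set K : ℂ → OpV v R := fun μ => Kp (2 * (2 * v + 3)) (T μ) with hK
  have hKd : Differentiable ℂ K := Kp_differentiable _ F.differentiable.2
  have hHS := P3517_HS F b
  set d : ℂ → ℂ := fun z => det2 b (K z) with hd
  have hdd : Differentiable ℂ d := det2_entire hKd hHS
  -- invertible where `d` does not vanish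
  have hinv : ∀ μ, d μ ≠ 0 → IsUnit (1 + T μ) := by
    intro μ hμ
    obtain ⟨c, hc⟩ := hHS ‖μ‖
    rw [← isUnit_Kp (2 * (2 * v + 3))]
    by_contra hcon
    exact hμ (det2_eq_zero (hc μ le_rfl) hcon)
  have hinv' : ∀ μ, IsUnit (1 + T μ) → d μ ≠ 0 := by
    intro μ hμ
    obtain ⟨c, hc⟩ := hHS ‖μ‖
    rw [← isUnit_Kp (2 * (2 * v + 3))] at hμ
    exact det2_ne_zero (hc μ le_rfl) hμ
  have hd0 : d l0 ≠ 0 := hinv' l0 hU0
  have hN : ∀ f g : Lp ℂ 2 (muV v R), ∃ N : ℂ → ℂ, Differentiable ℂ N ∧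
      ∀ (μ : ℂ) (Y : OpV v R), (1 + T μ) * Y = 1 → Y * (1 + T μ) = 1 →
        ⟪g, A μ (Y f)⟫_ℂ * d μ = N μ := fun f g => P3517_N F b f g
  choose N hNd hNe using hN
  have hΦ : ∀ f g : Lp ℂ 2 (muV v R), ∀ (μ : ℂ) (Y : OpV v R), (1 + T μ) * Y = 1 →
      Y * (1 + T μ) = 1 → N f g μ / d μ = ⟪g, A μ (Y f)⟫_ℂ := by
    intro f g μ Y h1 h2
    have h3 : d μ ≠ 0 := hinv' μ ⟨⟨1 + T μ, Y, h1, h2⟩, rfl⟩
    rw [div_eq_iff h3]
    exact (hNe f g μ Y h1 h2).symm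
  have hmer : ∀ f g : Lp ℂ 2 (muV v R), MeromorphicOn (fun μ => N f g μ / d μ) Set.univ := by
    intro f g z _
    exact ((hNd f g).analyticAt z).meromorphicAt.div (hdd.analyticAt z).meromorphicAt
  by_contra hcon
  have hord : ∀ f g : Lp ℂ 2 (muV v R), 0 ≤ meromorphicOrderAt (fun μ => N f g μ / d μ) l₁ := by
    intro f g
    by_contra hlt
    exact hcon ⟨f, g, _, hmer f g, hΦ f g, not_le.mp hlt⟩
  -- zeros of `d` are isolated
  have hdne : ∀ᶠ μ in 𝓝[≠] l₁, d μ ≠ 0 := by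
    rcases (hdd.analyticAt l₁).eventually_eq_zero_or_eventually_ne_zero with h1 | h1
    · exfalso
      have h2 : AnalyticOnNhd ℂ d Set.univ := fun z _ => hdd.analyticAt z
      have h3 : AnalyticOnNhd ℂ (fun _ : ℂ => (0 : ℂ)) Set.univ := analyticOnNhd_const
      have h4 := h2.eq_of_eventuallyEq h3 h1
      have h5 := congrFun h4 l0
      exact hd0 h5
    · exact h1
  obtain ⟨s, hs⟩ := exists_seq_tendsto (𝓝[≠] l₁)
  obtain ⟨n0, hn0⟩ := eventually_atTop.mp (hs.eventually hdne)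
  set u : ℕ → ℂ := fun n => s (n + n0) with hu
  have hu1 : Tendsto u atTop (𝓝[≠] l₁) := hs.comp (tendsto_add_atTop_nat n0)
  have hu2 : ∀ n, d (u n) ≠ 0 := fun n => hn0 _ (Nat.le_add_left _ _)
  have hYex : ∀ n, ∃ Y : OpV v R, (1 + T (u n)) * Y = 1 ∧ Y * (1 + T (u n)) = 1 := by
    intro n
    obtain ⟨⟨X, Y, h1, h2⟩, h3⟩ := hinv _ (hu2 n)
    simp only at h3
    subst h3
    exact ⟨Y, h1, h2⟩
  choose Y hY hY' using hYex
  have hbd : ∀ f g : Lp ℂ 2 (muV v R), ∃ C : ℝ, ∀ n, ‖⟪g, (A (u n) * Y n) f⟫_ℂ‖ ≤ C := by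
    intro f g
    obtain ⟨c, hc⟩ := tendsto_nhds_of_meromorphicOrderAt_nonneg (hmer f g l₁ (Set.mem_univ _))
      (hord f g)
    have h1 := hc.comp hu1
    obtain ⟨C, hC⟩ := h1.norm.bddAbove_range
    refine ⟨C, fun n => ?_⟩
    have h2 := hC ⟨n, rfl⟩
    have h3 := hΦ f g (u n) (Y n) (hY n) (hY' n)
    have h4 : ‖N f g (u n) / d (u n)‖ ≤ C := h2
    rw [h3] at h4
    exact h4
  obtain ⟨L, hL⟩ := P3517_bs (fun n => A (u n) * Y n) hbd
  exact P3517_bdd F l₁ h u (hu1.mono_right nhdsWithin_le_nhds) Y hY hY' L hL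

end OSec

end Pool.Agent.H269
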