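import Pool.Agent.H269.DefsG
import Pool.Agent.H269.GN.G020
import Pool.Agent.H269.GN.G024
import Pool.Agent.H269.GN.G041
import Pool.Agent.H269.R5.J16
import Pool.Agent.H269.DefsG3

/-!
# GN-50 weak solution of the resolvent equation, odd dimension (MP_f2af60_mp, infinitely many resonances in odd dimension)
-/

set_option autoImplicit false

open MeasureTheory Filter Topology Complex
open scoped InnerProductSpace ENNReal NNReal

namespace Pool.Agent.H269


open Laplacian in
theorem weak_lapV {v : ℕ} {φ : EV v → ℂ} (hφ : ContDiff ℝ ((⊤ : ℕ∞) : WithTop ℕ∞) φ)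
    (hc : HasCompactSupport φ) : Continuous (Δ φ) ∧ HasCompactSupport (Δ φ) := by
  rw [InnerProductSpace.laplacian_eq_iteratedFDeriv_stdOrthonormalBasis]
  have h1 : Continuous (fun x => iteratedFDeriv ℝ 2 φ x) :=
    hφ.continuous_iteratedFDeriv (m := 2) (WithTop.coe_le_coe.2 le_top)
  have h2 : HasCompactSupport (fun x => iteratedFDeriv ℝ 2 φ x) := hc.iteratedFDeriv 2
  constructor
  · refine continuous_finsetSum _ fun i _ => ?_
    exact (ContinuousMultilinearMap.apply ℝ (fun _ : Fin 2 => EV v) ℂ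
      ![(stdOrthonormalBasis ℝ (EV v)) i, (stdOrthonormalBasis ℝ (EV v)) i]).continuous.comp h1
  · exact h2.comp_left (g := fun m : EV v [×2]→L[ℝ] ℂ => ∑ i,
      m ![(stdOrthonormalBasis ℝ (EV v)) i, (stdOrthonormalBasis ℝ (EV v)) i]) (by simp)

theorem extV_memLp {v : ℕ} {R : ℝ} (f : Lp ℂ 2 (muV v R)) : MemLp (extV v R f) 2 volume := by
  unfold extV
  rw [memLp_indicator_iff_restrict measurableSet_closedBall]
  exact Lp.memLp f

theorem extV_support {v : ℕ} {R : ℝ} (f : Lp ℂ 2 (muV v R)) : HasCompactSupport (extV v R f) := by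
  apply HasCompactSupport.intro (isCompact_closedBall (0 : EV v) R)
  intro x hx
  exact Set.indicator_of_notMem hx _

theorem extV_integral {v : ℕ} {R : ℝ} (f : Lp ℂ 2 (muV v R)) (φ : EV v → ℂ) :
    ∫ x, extV v R f x * φ x = ∫ x, f x * φ x ∂(muV v R) := by
  unfold extV
  rw [← integral_indicator measurableSet_closedBall]
  congr 1
  funext x
  by_cases hx : x ∈ Metric.closedBall (0 : EV v) R
  · rw [Set.indicator_of_mem hx, Set.indicator_of_mem hx]
  · rw [Set.indicator_of_notMem hx, Set.indicator_of_notMem hx, zero_mul]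

theorem extV_integral' {v : ℕ} {R : ℝ} (f : Lp ℂ 2 (muV v R)) (φ : EV v → ℂ) :
    ∫ x, φ x * extV v R f x = ∫ x, φ x * f x ∂(muV v R) := by
  simp only [mul_comm (φ _)]
  exact extV_integral f φ

theorem mul_intV {v : ℕ} {μ : Measure (EV v)} {f g : EV v → ℂ} (hf : MemLp f 2 μ) (hg : MemLp g 2 μ) :
    Integrable (fun x => f x * g x) μ := hf.integrable_mul hg



section OSec

variable {v : ℕ} {R M : ℝ} {V : EV v → ℝ} {A T : ℂ → OpV v R}

open Laplacian in
theorem FamG.weak_sol (F : FamG v R M V A T) (μ : ℂ) (hμ : 0 < μ.im) (f h : Lp ℂ 2 (muV v R))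
    (hf : h + T μ h = f) :
    ∃ u : EV v → ℂ, MemLp u 2 volume ∧
      (∀ φ : EV v → ℂ, ContDiff ℝ ((⊤ : ℕ∞) : WithTop ℕ∞) φ → HasCompactSupport φ →
        ∫ x, u x * (-(Δ φ x) + (V x : ℂ) * φ x - μ ^ 2 * φ x) = ∫ x, extV v R f x * φ x) ∧
      ∀ g : Lp ℂ 2 (muV v R), ∫ x, u x * (starRingEnd ℂ) (extV v R g x) = ⟪g, A μ h⟫_ℂ := by
  obtain ⟨u1, -, u3⟩ := free_resolventG v μ hμ (extV v R h) (extV_memLp h) (extV_support h)
  set u : EV v → ℂ := fun x => ∫ y, Gr v μ ‖x - y‖ * extV v R h y with hu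
  have huA : ∀ᵐ x ∂(muV v R), u x = (A μ h : EV v → ℂ) x := by
    filter_upwards [(F.kA μ h).2] with x hx
    rw [hx, hu]
    exact extV_integral' h _
  have huT : ∀ᵐ x ∂(muV v R), u x * (V x : ℂ) = (T μ h : EV v → ℂ) x := by
    filter_upwards [huA, F.T_apply μ h] with x h1 h2
    rw [h1, h2, mul_comm]
  refine ⟨u, u1, ?_, ?_⟩
  · intro φ hφ hc
    obtain ⟨l1, l2⟩ := weak_lapV hφ hc
    have hφ2 : MemLp φ 2 volume := hφ.continuous.memLp_of_hasCompactSupport hc
    have hl2 : MemLp (Δ φ) 2 volume := l1.memLp_of_hasCompactSupport l2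
    have hV : MemLp (fun x => (V x : ℂ) * φ x) 2 volume := by
      refine hφ2.of_le_mul (c := M) ?_ ?_
      · exact ((Complex.measurable_ofReal.comp F.meas).aestronglyMeasurable).mul
          hφ.continuous.aestronglyMeasurable
      · filter_upwards with x
        rw [norm_mul]
        refine mul_le_mul_of_nonneg_right ?_ (norm_nonneg _)
        rw [Complex.norm_real, Real.norm_eq_abs]
        exact F.bdd x
    have hm : MemLp (fun x => μ ^ 2 * φ x) 2 volume := hφ2.const_mul _
    have i1 : Integrable (fun x => u x * (-(Δ φ x) - μ ^ 2 * φ x)) volume :=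
      mul_intV u1 (hl2.neg.sub hm)
    have i2 : Integrable (fun x => u x * ((V x : ℂ) * φ x)) volume := mul_intV u1 hV
    have e1 : ∫ x, u x * (-(Δ φ x) + (V x : ℂ) * φ x - μ ^ 2 * φ x) =
        (∫ x, u x * (-(Δ φ x) - μ ^ 2 * φ x)) + (∫ x, u x * ((V x : ℂ) * φ x)) := by
      rw [← integral_add i1 i2]
      congr 1
      funext x
      ring
    have e2 : ∫ x, u x * ((V x : ℂ) * φ x) = ∫ x, (T μ h : EV v → ℂ) x * φ x ∂(muV v R) := by
      have e3 : ∫ x, u x * ((V x : ℂ) * φ x) = ∫ x, u x * ((V x : ℂ) * φ x) ∂(muV v R) := by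
        rw [← integral_indicator measurableSet_closedBall]
        congr 1
        funext x
        by_cases hx : x ∈ Metric.closedBall (0 : EV v) R
        · rw [Set.indicator_of_mem hx]
        · rw [Set.indicator_of_notMem hx, F.supp x hx]
          simp
      rw [e3]
      apply integral_congr_ae
      filter_upwards [huT] with x hx
      rw [← hx]
      ring
    rw [e1, u3 φ hφ hc, e2, extV_integral, extV_integral]
    have hφR : MemLp φ 2 (muV v R) := hφ2.restrict _
    rw [← integral_add (mul_intV (Lp.memLp h) hφR) (mul_intV (Lp.memLp (T μ h)) hφR)]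
    apply integral_congr_ae
    rw [← hf]
    filter_upwards [Lp.coeFn_add h (T μ h)] with x hx
    rw [hx, Pi.add_apply]
    ring
  · intro g
    have e1 : ∫ x, u x * (starRingEnd ℂ) (extV v R g x) =
        ∫ x, u x * (starRingEnd ℂ) (g x) ∂(muV v R) := by
      unfold extV
      rw [← integral_indicator measurableSet_closedBall]
      congr 1
      funext x
      by_cases hx : x ∈ Metric.closedBall (0 : EV v) R
      · rw [Set.indicator_of_mem hx, Set.indicator_of_mem hx]
      · rw [Set.indicator_of_notMem hx, Set.indicator_of_notMem hx, map_zero, mul_zero]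
    rw [e1, L2.inner_def]
    apply integral_congr_ae
    filter_upwards [huA] with x hx
    rw [hx, RCLike.inner_apply]


end OSec

end Pool.Agent.H269
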