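import Pool.Agent.H269.DefsG
import Pool.Agent.H269.GN.G020
import Pool.Agent.H269.GN.G024
import Pool.Agent.H269.GN.G041
import Pool.Agent.H269.R5.J16
import Pool.Agent.H269.R5.J44
import Pool.Agent.H269.DefsG3

/-!
# GN-51 uniqueness of the weak solution, odd dimension (MP_f2af60_mp, infinitely many resonances in odd dimension)
-/

set_option autoImplicit false

open MeasureTheory Filter Topology Complex
open scoped InnerProductSpace ENNReal NNReal

namespace Pool.Agent.H269


section HelpSec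

variable {v : ℕ} {R M : ℝ} {V : EV v → ℝ} {A T : ℂ → OpV v R}

open Laplacian in
theorem j3519_weak_lap {φ : EV v → ℂ} (hφ : ContDiff ℝ ((⊤ : ℕ∞) : WithTop ℕ∞) φ)
    (hc : HasCompactSupport φ) : Continuous (Δ φ) ∧ HasCompactSupport (Δ φ) := by
  rw [InnerProductSpace.laplacian_eq_iteratedFDeriv_stdOrthonormalBasis]
  have h1 : Continuous (fun x => iteratedFDeriv ℝ 2 φ x) :=
    hφ.continuous_iteratedFDeriv (m := 2) (WithTop.coe_le_coe.2 le_top)
  have h2 : HasCompactSupport (fun x => iteratedFDeriv ℝ 2 φ x) := hc.iteratedFDeriv 2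
  constructor
  · refine continuous_finsetSum _ fun i _ => ?_
    exact (ContinuousMultilinearMap.apply ℝ (fun _ : Fin 2 => EV v) ℂ
      ![(stdOrthonormalBasis ℝ (EV v)) i, (stdOrthonormalBasis ℝ (EV v)) i]).continuous.comp h1
  · exact h2.comp_left (g := fun m : EV v [×2]→L[ℝ] ℂ => ∑ i,
      m ![(stdOrthonormalBasis ℝ (EV v)) i, (stdOrthonormalBasis ℝ (EV v)) i]) (by simp)

theorem j3519_extV_memLp (f : Lp ℂ 2 (muV v R)) : MemLp (extV v R f) 2 volume := by
  unfold extV
  rw [memLp_indicator_iff_restrict measurableSet_closedBall]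
  exact Lp.memLp f

theorem j3519_extV_support (f : Lp ℂ 2 (muV v R)) : HasCompactSupport (extV v R f) := by
  apply HasCompactSupport.intro (isCompact_closedBall (0 : EV v) R)
  intro x hx
  exact Set.indicator_of_notMem hx _

theorem j3519_extV_integral (f : Lp ℂ 2 (muV v R)) (φ : EV v → ℂ) :
    ∫ x, extV v R f x * φ x = ∫ x, f x * φ x ∂(muV v R) := by
  unfold extV
  rw [← integral_indicator measurableSet_closedBall]
  congr 1
  funext x
  by_cases hx : x ∈ Metric.closedBall (0 : EV v) R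
  · rw [Set.indicator_of_mem hx, Set.indicator_of_mem hx]
  · rw [Set.indicator_of_notMem hx, Set.indicator_of_notMem hx, zero_mul]

theorem j3519_extV_integral' (f : Lp ℂ 2 (muV v R)) (φ : EV v → ℂ) :
    ∫ x, φ x * extV v R f x = ∫ x, φ x * f x ∂(muV v R) := by
  simp only [mul_comm (φ _)]
  exact j3519_extV_integral f φ

theorem j3519_mul_int {μ : Measure (EV v)} {f g : EV v → ℂ} (hf : MemLp f 2 μ) (hg : MemLp g 2 μ) :
    Integrable (fun x => f x * g x) μ := hf.integrable_mul hg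



theorem j3519_mul_memLp (F : FamG v R M V A T)
    {φ : EV v → ℂ} (hφ : MemLp φ 2 volume) : MemLp (fun x => (V x : ℂ) * φ x) 2 volume := by
  refine hφ.of_le_mul (c := M) ?_ ?_
  · exact ((Complex.measurable_ofReal.comp F.meas).aestronglyMeasurable).mul hφ.1
  · filter_upwards with x
    rw [norm_mul]
    refine mul_le_mul_of_nonneg_right ?_ (norm_nonneg _)
    rw [Complex.norm_real, Real.norm_eq_abs]
    exact F.bdd x

open Laplacian in
/-- splitting of the weak equation -/
theorem j3519_weak_split (F : FamG v R M V A T) (μ : ℂ)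
    {w : EV v → ℂ} (hw : MemLp w 2 volume) {φ : EV v → ℂ}
    (hφ : ContDiff ℝ ((⊤ : ℕ∞) : WithTop ℕ∞) φ) (hc : HasCompactSupport φ) :
    Integrable (fun x => w x * (-(Δ φ x) - μ ^ 2 * φ x)) volume ∧
    Integrable (fun x => w x * (-(Δ φ x) + (V x : ℂ) * φ x - μ ^ 2 * φ x)) volume ∧
    ∫ x, w x * (-(Δ φ x) + (V x : ℂ) * φ x - μ ^ 2 * φ x) =
      (∫ x, w x * (-(Δ φ x) - μ ^ 2 * φ x)) + ∫ x, ((V x : ℂ) * w x) * φ x := by
  obtain ⟨l1, l2⟩ := j3519_weak_lap hφ hc
  have hφ2 : MemLp φ 2 volume := hφ.continuous.memLp_of_hasCompactSupport hc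
  have hl2 : MemLp (Δ φ) 2 volume := l1.memLp_of_hasCompactSupport l2
  have hm : MemLp (fun x => μ ^ 2 * φ x) 2 volume := hφ2.const_mul _
  have i1 : Integrable (fun x => w x * (-(Δ φ x) - μ ^ 2 * φ x)) volume :=
    j3519_mul_int hw (hl2.neg.sub hm)
  have i2 : Integrable (fun x => ((V x : ℂ) * w x) * φ x) volume :=
    j3519_mul_int (j3519_mul_memLp F hw) hφ2
  have e : (fun x => w x * (-(Δ φ x) + (V x : ℂ) * φ x - μ ^ 2 * φ x)) =
      fun x => w x * (-(Δ φ x) - μ ^ 2 * φ x) + ((V x : ℂ) * w x) * φ x := by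
    funext x; ring
  refine ⟨i1, ?_, ?_⟩
  · rw [e]; exact i1.add i2
  · rw [e, integral_add i1 i2]


end HelpSec


section OSec

variable {v : ℕ} {R M : ℝ} {V : EV v → ℝ} {A T : ℂ → OpV v R}

open Laplacian in
theorem FamG.weak_unique (F : FamG v R M V A T) (μ : ℂ) (hμ : 0 < μ.im) (Y : OpV v R)
    (hY : Y * (1 + T μ) = 1) (w : EV v → ℂ) (hw : MemLp w 2 volume)
    (h : ∀ φ : EV v → ℂ, ContDiff ℝ ((⊤ : ℕ∞) : WithTop ℕ∞) φ → HasCompactSupport φ →
      ∫ x, w x * (-(Δ φ x) + (V x : ℂ) * φ x - μ ^ 2 * φ x) = 0) : w =ᵐ[volume] 0 := by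
  have hpos : 0 < μ.im := hμ
  have hVw : MemLp (fun x => (V x : ℂ) * w x) 2 volume := j3519_mul_memLp F hw
  have hVwR : MemLp (fun x => -((V x : ℂ) * w x)) 2 (muV v R) := hVw.neg.restrict _
  set hL : Lp ℂ 2 (muV v R) := hVwR.toLp _ with hhL
  have hLae : (hL : EV v → ℂ) =ᵐ[muV v R] fun x => -((V x : ℂ) * w x) := hVwR.coeFn_toLp
  have hext : extV v R hL =ᵐ[volume] fun x => -((V x : ℂ) * w x) := by
    have h1 : ∀ᵐ x ∂(volume : Measure (EV v)), x ∈ Metric.closedBall (0 : EV v) R →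
        (hL : EV v → ℂ) x = -((V x : ℂ) * w x) :=
      (ae_restrict_iff' Metric.isClosed_closedBall.measurableSet).1 hLae
    filter_upwards [h1] with x hx
    by_cases hx' : x ∈ Metric.closedBall (0 : EV v) R
    · rw [extV, Set.indicator_of_mem hx', hx hx']
    · rw [extV, Set.indicator_of_notMem hx', F.supp x hx']; simp
  obtain ⟨u1, -, u3⟩ := free_resolventG v μ hpos (extV v R hL) (j3519_extV_memLp hL) (j3519_extV_support hL)
  set u : EV v → ℂ := fun x => ∫ y, Gr v μ ‖x - y‖ * extV v R hL y with hu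
  have hwu : (fun x => w x - u x) =ᵐ[volume] 0 := by
    refine helmholtz_unique (2 * v + 3) μ hpos _ (hw.sub u1) fun φ hφ hc => ?_
    obtain ⟨a1, -, a3⟩ := j3519_weak_split F μ hw hφ hc
    obtain ⟨b1, -, -⟩ := j3519_weak_split F μ u1 hφ hc
    have c1 := h φ hφ hc
    rw [a3] at c1
    have c2 := u3 φ hφ hc
    have c3 : ∫ x, extV v R hL x * φ x = -∫ x, ((V x : ℂ) * w x) * φ x := by
      rw [← integral_neg]
      refine integral_congr_ae ?_
      filter_upwards [hext] with x hx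
      rw [hx]; ring
    have c4 : (fun x => (w x - u x) * (-(Laplacian.laplacian φ x) - μ ^ 2 * φ x)) = fun x =>
        w x * (-(Laplacian.laplacian φ x) - μ ^ 2 * φ x) -
          u x * (-(Laplacian.laplacian φ x) - μ ^ 2 * φ x) := by
      funext x; ring
    rw [c4, integral_sub a1 b1, c2, c3]
    linear_combination c1
  have hwu' : ∀ᵐ x ∂(volume : Measure (EV v)), w x = u x := by
    filter_upwards [hwu] with x hx using sub_eq_zero.1 hx
  have huA : ∀ᵐ x ∂(muV v R), u x = (A μ hL : EV v → ℂ) x := by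
    filter_upwards [(F.kA μ hL).2] with x hx
    rw [hx, hu]
    exact j3519_extV_integral' hL _
  have hT : hL + T μ hL = 0 := by
    refine Lp.ext ?_
    filter_upwards [Lp.coeFn_add hL (T μ hL), hLae, huA, F.T_apply μ hL,
      ae_restrict_of_ae hwu', Lp.coeFn_zero ℂ 2 (muV v R)] with x h1 h2 h3 h4 h5 h6
    rw [h1, Pi.add_apply, h2, h4, ← h3, h5, h6, Pi.zero_apply]
    ring
  have hL0 : hL = 0 := by
    have e1 := congrArg (fun B : OpV v R => B hL) hY
    have e2 : Y (hL + T μ hL) = hL := by simpa using e1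
    rw [hT, map_zero] at e2
    exact e2.symm
  have hext0 : extV v R hL =ᵐ[volume] 0 := by
    have h1 : ∀ᵐ x ∂(volume : Measure (EV v)), x ∈ Metric.closedBall (0 : EV v) R →
        (hL : EV v → ℂ) x = 0 := by
      refine (ae_restrict_iff' Metric.isClosed_closedBall.measurableSet).1 ?_
      rw [hL0]
      exact Lp.coeFn_zero ℂ 2 (muV v R)
    filter_upwards [h1] with x hx
    by_cases hx' : x ∈ Metric.closedBall (0 : EV v) R
    · rw [extV, Set.indicator_of_mem hx', hx hx']; rfl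
    · rw [extV, Set.indicator_of_notMem hx']; rfl
  filter_upwards [hwu'] with x hx
  rw [hx, hu]
  have : ∫ y, Gr v μ ‖x - y‖ * extV v R hL y = ∫ y : EV v, (0 : ℂ) := by
    refine integral_congr_ae ?_
    filter_upwards [hext0] with y hy
    rw [hy]; simp
  simpa using this


end OSec

end Pool.Agent.H269
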