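import Pool.Agent.H269.DefsG

/-!
# GN-60 integral over a path of points (MP_f2af60_mp, infinitely many resonances in odd dimension)
-/

set_option autoImplicit false

open MeasureTheory Filter Topology Complex
open scoped InnerProductSpace ENNReal NNReal

namespace Pool.Agent.H269



theorem plx_first (v k : ℕ) (i : Fin (k + 2)) (Φ : EV v → (Fin (k + 1) → EV v) → ℝ≥0∞)
    (hΦ : Measurable fun p : EV v × (Fin (k + 1) → EV v) => Φ p.1 p.2) :
    ∫⁻ x : Fin (k + 2) → EV v, Φ (x i) (fun j => x (i.succAbove j)) =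
      ∫⁻ z : Fin (k + 1) → EV v, ∫⁻ y : EV v, Φ y z := by
  have h := (volume_preserving_piFinSuccAbove (fun _ : Fin (k + 2) => EV v) i).lintegral_comp hΦ
  rw [Measure.volume_eq_prod, lintegral_prod_symm' _ hΦ] at h
  exact h

theorem plx_zero (v k : ℕ) (f g : EV v → ℝ≥0∞) (hf : Measurable f) (hg : Measurable g) :
    ∫⁻ x : Fin (k + 1) → EV v, f (x 0) * ∏ i : Fin k, g (x i.castSucc - x i.succ) =
      (∫⁻ y, f y) * (∫⁻ y, g y) ^ k := by
  induction k with
  | zero =>
    simp only [Finset.univ_eq_empty, Finset.prod_empty, mul_one, pow_zero]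
    exact (volume_preserving_funUnique (Fin 1) (EV v)).lintegral_comp hf
  | succ k ih =>
    have h := plx_first v k (Fin.last (k + 1)) (fun y z => f (z 0) *
      (∏ i : Fin k, g (z i.castSucc - z i.succ)) * g (z (Fin.last k) - y)) (by
        refine Measurable.mul (Measurable.mul (by fun_prop) ?_) (by fun_prop)
        exact Finset.measurable_prod _ fun i _ => by fun_prop)
    have e : ∀ x : Fin (k + 2) → EV v, f (x 0) * ∏ i : Fin (k + 1), g (x i.castSucc - x i.succ) =
        f (x ((Fin.last (k + 1)).succAbove 0)) *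
          (∏ i : Fin k, g (x ((Fin.last (k + 1)).succAbove i.castSucc) -
            x ((Fin.last (k + 1)).succAbove i.succ))) *
          g (x ((Fin.last (k + 1)).succAbove (Fin.last k)) - x (Fin.last (k + 1))) := by
      intro x
      simp only [Fin.succAbove_last]
      rw [Fin.prod_univ_castSucc, ← mul_assoc]
      rfl
    simp only [e]
    rw [h]
    have e2 : ∀ z : Fin (k + 1) → EV v, ∫⁻ y : EV v, f (z 0) *
        (∏ i : Fin k, g (z i.castSucc - z i.succ)) * g (z (Fin.last k) - y) =
        (f (z 0) * ∏ i : Fin k, g (z i.castSucc - z i.succ)) * ∫⁻ y, g y := by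
      intro z
      rw [lintegral_const_mul _ (by fun_prop), lintegral_sub_left_eq_self (fun y => g y)]
    simp only [e2]
    rw [lintegral_mul_const _ (by
      refine Measurable.mul (by fun_prop) ?_
      exact Finset.measurable_prod _ fun i _ => by fun_prop), ih, pow_succ, mul_assoc]

theorem plx_path (v k : ℕ) (f g : EV v → ℝ≥0∞) (hf : Measurable f) (hg : Measurable g)
    (i₁ : Fin (k + 1)) :
    ∫⁻ x : Fin (k + 1) → EV v, f (x i₁) * ∏ i : Fin k, g (x i.castSucc - x i.succ) =
      (∫⁻ y, f y) * (∫⁻ y, g y) ^ k := by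
  induction k with
  | zero =>
    have : i₁ = 0 := Fin.ext (by omega)
    rw [this]
    exact plx_zero v 0 f g hf hg
  | succ k ih =>
    rcases Fin.eq_zero_or_eq_succ i₁ with h0 | ⟨j, hj⟩
    · rw [h0]
      exact plx_zero v (k + 1) f g hf hg
    · subst hj
      have h := plx_first v k 0 (fun y z => f (z j) *
        (∏ i : Fin k, g (z i.castSucc - z i.succ)) * g (y - z 0)) (by
          refine Measurable.mul (Measurable.mul (by fun_prop) ?_) (by fun_prop)
          exact Finset.measurable_prod _ fun i _ => by fun_prop)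
      have e : ∀ x : Fin (k + 2) → EV v, f (x j.succ) *
          ∏ i : Fin (k + 1), g (x i.castSucc - x i.succ) =
          f (x ((0 : Fin (k + 2)).succAbove j)) *
            (∏ i : Fin k, g (x ((0 : Fin (k + 2)).succAbove i.castSucc) -
              x ((0 : Fin (k + 2)).succAbove i.succ))) *
            g (x 0 - x ((0 : Fin (k + 2)).succAbove 0)) := by
        intro x
        simp only [Fin.succAbove_zero]
        rw [Fin.prod_univ_succ, mul_assoc, mul_comm (∏ i : Fin k, _)]
        rfl
      simp only [e]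
      rw [h]
      have e2 : ∀ z : Fin (k + 1) → EV v, ∫⁻ y : EV v, f (z j) *
          (∏ i : Fin k, g (z i.castSucc - z i.succ)) * g (y - z 0) =
          (f (z j) * ∏ i : Fin k, g (z i.castSucc - z i.succ)) * ∫⁻ y, g y := by
        intro z
        rw [lintegral_const_mul _ (by fun_prop), lintegral_sub_right_eq_self (fun y => g y)]
      simp only [e2]
      rw [lintegral_mul_const _ (by
        refine Measurable.mul (by fun_prop) ?_
        exact Finset.measurable_prod _ fun i _ => by fun_prop), ih, pow_succ, mul_assoc]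

theorem path_lintegral (v k : ℕ) (f g : EV v → ℝ≥0∞) (hf : Measurable f) (hg : Measurable g)
    (i₀ i₁ : Fin (k + 1)) :
    ∫⁻ x : Fin (k + 1) → EV v, f (x i₁) * ∏ i ∈ Finset.univ.erase i₀, g (x i - x (i + 1)) =
      (∫⁻ y, f y) * (∫⁻ y, g y) ^ k := by
  set σ : Fin (k + 1) ≃ Fin (k + 1) := Equiv.addRight (i₀ + 1) with hσ
  have hlast : σ (Fin.last k) = i₀ := by
    change Fin.last k + (i₀ + 1) = i₀
    rw [add_comm i₀ 1, ← add_assoc, Fin.last_add_one, zero_add]
  have hsucc : ∀ i : Fin k, σ i.castSucc + 1 = σ i.succ := by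
    intro i
    change i.castSucc + (i₀ + 1) + 1 = i.succ + (i₀ + 1)
    rw [← Fin.coeSucc_eq_succ]
    abel
  have hprod : ∀ x : Fin (k + 1) → EV v, ∏ i ∈ Finset.univ.erase i₀, g (x i - x (i + 1)) =
      ∏ i : Fin k, g (x (σ i.castSucc) - x (σ i.succ)) := by
    intro x
    symm
    refine Finset.prod_bij (fun (i : Fin k) _ => σ i.castSucc) ?_ ?_ ?_ ?_
    · intro i _
      rw [Finset.mem_erase]
      refine ⟨?_, Finset.mem_univ _⟩
      rw [← hlast]
      intro h
      exact (Fin.castSucc_lt_last i).ne (σ.injective h)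
    · intro i _ j _ h
      exact Fin.castSucc_injective k (σ.injective h)
    · intro b hb
      have hb' : σ.symm b ≠ Fin.last k := by
        intro h
        apply (Finset.mem_erase.1 hb).1
        rw [← hlast, ← h, Equiv.apply_symm_apply]
      obtain ⟨i, hi⟩ := Fin.exists_castSucc_eq.2 hb'
      exact ⟨i, Finset.mem_univ _, by rw [hi, Equiv.apply_symm_apply]⟩
    · intro i _
      rw [hsucc]
  simp only [hprod]
  have hm : Measurable fun x : Fin (k + 1) → EV v => f (x i₁) *
      ∏ i : Fin k, g (x (σ i.castSucc) - x (σ i.succ)) := by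
    refine Measurable.mul (by fun_prop) ?_
    exact Finset.measurable_prod _ fun i _ => by fun_prop
  have h := (volume_measurePreserving_piCongrLeft (fun _ : Fin (k + 1) => EV v) σ).lintegral_comp hm
  rw [← h, ← plx_path v k f g hf hg (σ.symm i₁)]
  refine lintegral_congr fun x => ?_
  have e : ∀ j, (MeasurableEquiv.piCongrLeft (fun _ : Fin (k + 1) => EV v) σ) x (σ j) = x j := by
    intro j
    rw [MeasurableEquiv.coe_piCongrLeft]
    exact Equiv.piCongrLeft_apply_apply (fun _ : Fin (k + 1) => EV v) σ x j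
  have e1 := e (σ.symm i₁)
  rw [Equiv.apply_symm_apply] at e1
  simp only [e, e1]

end Pool.Agent.H269
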