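import Pool.Agent.H269.DefsG

/-!
# GN-61 analytic parameter integrals (MP_f2af60_mp, infinitely many resonances in odd dimension)
-/

set_option autoImplicit false

open MeasureTheory Filter Topology Complex
open scoped InnerProductSpace ENNReal NNReal

namespace Pool.Agent.H269



/-- the class of integrands: holomorphic in the parameter, measurable, locally dominated by multiples of `g` -/
def GoodFam {α : Type} [MeasurableSpace α] (μ : Measure α) (U : Set ℂ) (g : α → ℝ)
    (f : ℂ → α → ℂ) : Prop :=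
  (∀ x, DifferentiableOn ℂ (fun z => f z x) U) ∧ (∀ z ∈ U, AEStronglyMeasurable (f z) μ) ∧
    ∀ z ∈ U, ∃ r C : ℝ, 0 < r ∧ Metric.closedBall z (2 * r) ⊆ U ∧
      ∀ w ∈ Metric.closedBall z (2 * r), ∀ x, ‖f w x‖ ≤ C * g x

theorem goodFam_deriv_bound {α : Type} [MeasurableSpace α] {μ : Measure α} {U : Set ℂ}
    {g : α → ℝ} {f : ℂ → α → ℂ} (h : GoodFam μ U g f) {z : ℂ} {r C : ℝ} (hr : 0 < r)
    (hsub : Metric.closedBall z (2 * r) ⊆ U)
    (hC : ∀ w ∈ Metric.closedBall z (2 * r), ∀ x, ‖f w x‖ ≤ C * g x)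
    {w : ℂ} (hw : w ∈ Metric.closedBall z r) (x : α) :
    ‖deriv (fun u => f u x) w‖ ≤ C / r * g x := by
  have hball : Metric.closedBall w r ⊆ Metric.closedBall z (2 * r) := by
    apply Metric.closedBall_subset_closedBall'
    have := Metric.mem_closedBall.mp hw
    linarith
  have h1 : DiffContOnCl ℂ (fun u => f u x) (Metric.ball w r) := by
    apply DifferentiableOn.diffContOnCl
    rw [closure_ball w hr.ne']
    exact (h.1 x).mono (hball.trans hsub)
  have h2 := Complex.norm_deriv_le_of_forall_mem_sphere_norm_le hr h1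
    (C := C * g x) (fun u hu => hC u (hball (Metric.sphere_subset_closedBall hu)) x)
  calc ‖deriv (fun u => f u x) w‖ ≤ C * g x / r := h2
    _ = C / r * g x := by ring

theorem goodFam_meas_deriv {α : Type} [MeasurableSpace α] {μ : Measure α} {U : Set ℂ}
    (hU : IsOpen U) {g : α → ℝ} {f : ℂ → α → ℂ} (h : GoodFam μ U g f) {z : ℂ} (hz : z ∈ U) :
    AEStronglyMeasurable (fun x => deriv (fun u => f u x) z) μ := by
  obtain ⟨r, C, hr, hsub, hC⟩ := h.2.2 z hz
  -- the sequence of steps
  have hstep : ∀ n : ℕ, z + ((r / ((n : ℝ) + 1) : ℝ) : ℂ) ∈ U := by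
    intro n
    apply hsub
    rw [Metric.mem_closedBall, dist_eq_norm, add_sub_cancel_left, Complex.norm_real,
      Real.norm_of_nonneg (by positivity)]
    have : r / ((n : ℝ) + 1) ≤ r := div_le_self hr.le (by linarith [(Nat.cast_nonneg n : (0 : ℝ) ≤ n)])
    linarith
  have hlim0 : Tendsto (fun n : ℕ => ((r / ((n : ℝ) + 1) : ℝ) : ℂ)) atTop (𝓝[≠] 0) := by
    rw [tendsto_nhdsWithin_iff]
    constructor
    · have h1 : Tendsto (fun n : ℕ => r / ((n : ℝ) + 1)) atTop (𝓝 0) := by
        have h2 := (tendsto_one_div_add_atTop_nhds_zero_nat (𝕜 := ℝ)).const_mul r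
        simpa [div_eq_mul_inv] using h2
      have h3 := (Complex.continuous_ofReal.tendsto 0).comp h1
      rw [Complex.ofReal_zero] at h3
      exact h3
    · refine Eventually.of_forall fun n => ?_
      simp only [Set.mem_compl_iff, Set.mem_singleton_iff, Complex.ofReal_eq_zero]
      positivity
  refine aestronglyMeasurable_of_tendsto_ae (u := atTop)
    (f := fun (n : ℕ) x => (((r / ((n : ℝ) + 1) : ℝ) : ℂ))⁻¹ •
      (f (z + ((r / ((n : ℝ) + 1) : ℝ) : ℂ)) x - f z x)) (fun n => ?_) ?_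
  · exact ((h.2.1 _ (hstep n)).sub (h.2.1 z hz)).const_smul
      (((r / ((n : ℝ) + 1) : ℝ) : ℂ))⁻¹
  · refine Eventually.of_forall fun x => ?_
    have hd : HasDerivAt (fun u => f u x) (deriv (fun u => f u x) z) z :=
      (((h.1 x) z hz).differentiableAt (hU.mem_nhds hz)).hasDerivAt
    exact (hasDerivAt_iff_tendsto_slope_zero.mp hd).comp hlim0

theorem goodFam_deriv {α : Type} [MeasurableSpace α] {μ : Measure α} {U : Set ℂ}
    (hU : IsOpen U) {g : α → ℝ} {f : ℂ → α → ℂ} (h : GoodFam μ U g f) :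
    GoodFam μ U g (fun z x => deriv (fun u => f u x) z) := by
  refine ⟨fun x => (h.1 x).deriv hU, fun z hz => goodFam_meas_deriv hU h hz, ?_⟩
  intro z hz
  obtain ⟨r, C, hr, hsub, hC⟩ := h.2.2 z hz
  refine ⟨r / 2, C / r, by positivity, ?_, ?_⟩
  · refine (Metric.closedBall_subset_closedBall ?_).trans hsub
    linarith
  · intro w hw x
    apply goodFam_deriv_bound h hr hsub hC
    refine Metric.closedBall_subset_closedBall ?_ hw
    linarith

theorem goodFam_hasDerivAt {α : Type} [MeasurableSpace α] {μ : Measure α} {U : Set ℂ}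
    (hU : IsOpen U) {g : α → ℝ} (hg : Integrable g μ) {f : ℂ → α → ℂ} (h : GoodFam μ U g f)
    {z : ℂ} (hz : z ∈ U) :
    HasDerivAt (fun z => ∫ x, f z x ∂μ) (∫ x, deriv (fun u => f u x) z ∂μ) z := by
  obtain ⟨r, C, hr, hsub, hC⟩ := h.2.2 z hz
  have hs : Metric.closedBall z r ∈ 𝓝 z := Metric.closedBall_mem_nhds z hr
  have hsub' : Metric.closedBall z r ⊆ U :=
    (Metric.closedBall_subset_closedBall (by linarith)).trans hsub
  have hmeas : ∀ᶠ w in 𝓝 z, AEStronglyMeasurable (f w) μ := by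
    filter_upwards [hU.mem_nhds hz] with w hw
    exact h.2.1 w hw
  have hint : Integrable (f z) μ := by
    refine Integrable.mono' (hg.const_mul C) (h.2.1 z hz) (Eventually.of_forall fun x => ?_)
    exact hC z (Metric.mem_closedBall_self (by positivity)) x
  exact (hasDerivAt_integral_of_dominated_loc_of_deriv_le (bound := fun x => C / r * g x) hs
    hmeas hint (F' := fun w x => deriv (fun u => f u x) w) (goodFam_meas_deriv hU h hz)
    (Eventually.of_forall fun x w hw => goodFam_deriv_bound h hr hsub hC hw x)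
    (hg.const_mul _)
    (Eventually.of_forall fun x w hw =>
      (((h.1 x) w (hsub' hw)).differentiableAt (hU.mem_nhds (hsub' hw))).hasDerivAt)).2

theorem goodFam_iteratedDeriv {α : Type} [MeasurableSpace α] {μ : Measure α} {U : Set ℂ}
    (hU : IsOpen U) {g : α → ℝ} (hg : Integrable g μ) (K : ℕ) :
    ∀ {f : ℂ → α → ℂ}, GoodFam μ U g f → ∀ z ∈ U,
      iteratedDeriv K (fun z => ∫ x, f z x ∂μ) z = ∫ x, iteratedDeriv K (fun z => f z x) z ∂μ := by
  induction K with
  | zero =>
    intro f _ z _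
    simp only [iteratedDeriv_zero]
  | succ K ih =>
    intro f h z hz
    rw [iteratedDeriv_succ']
    simp_rw [iteratedDeriv_succ']
    have h1 : deriv (fun z => ∫ x, f z x ∂μ)
        =ᶠ[𝓝 z] fun w => ∫ x, deriv (fun u => f u x) w ∂μ := by
      filter_upwards [hU.mem_nhds hz] with w hw
      exact (goodFam_hasDerivAt hU hg h hw).deriv
    rw [h1.iteratedDeriv_eq K]
    exact ih (goodFam_deriv hU h) z hz

theorem integral_analytic {α : Type} [MeasurableSpace α] {μ : Measure α} (U : Set ℂ)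
    (hU : IsOpen U) (f : ℂ → α → ℂ) (hf : ∀ x, DifferentiableOn ℂ (fun z => f z x) U)
    (hm : ∀ z ∈ U, AEStronglyMeasurable (f z) μ) (g : α → ℝ) (hg : Integrable g μ)
    (hb : ∀ z ∈ U, ∃ δ C : ℝ, 0 < δ ∧ ∀ w ∈ Metric.ball z δ, w ∈ U → ∀ x, ‖f w x‖ ≤ C * g x) :
    DifferentiableOn ℂ (fun z => ∫ x, f z x ∂μ) U ∧
    ∀ (K : ℕ), ∀ z ∈ U, iteratedDeriv K (fun z => ∫ x, f z x ∂μ) z =
      ∫ x, iteratedDeriv K (fun z => f z x) z ∂μ := by
  have h : GoodFam μ U g f := by
    refine ⟨hf, hm, ?_⟩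
    intro z hz
    obtain ⟨δ, C, hδ, hC⟩ := hb z hz
    obtain ⟨ε, hε, hεU⟩ := Metric.isOpen_iff.mp hU z hz
    have h3 : Metric.closedBall z (2 * (min δ ε / 4)) ⊆ Metric.ball z δ := by
      apply Metric.closedBall_subset_ball
      have := min_le_left δ ε
      have := lt_min hδ hε
      linarith
    have h4 : Metric.closedBall z (2 * (min δ ε / 4)) ⊆ Metric.ball z ε := by
      apply Metric.closedBall_subset_ball
      have := min_le_right δ ε
      have := lt_min hδ hε
      linarith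
    refine ⟨min δ ε / 4, C, by have := lt_min hδ hε; positivity, h4.trans hεU, ?_⟩
    intro w hw x
    exact hC w (h3 hw) (hεU (h4 hw)) x
  refine ⟨?_, fun K z hz => goodFam_iteratedDeriv hU hg K h z hz⟩
  intro z hz
  exact (goodFam_hasDerivAt hU hg h hz).differentiableAt.differentiableWithinAt

end Pool.Agent.H269


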