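import Pool.Agent.H269.DefsG
import Pool.Agent.H269.GN.G020
import Pool.Agent.H269.GN.G021
import Pool.Agent.H269.GN.G025
import Pool.Agent.H269.GN.G026
import Pool.Agent.H269.GN.G028
import Pool.Agent.H269.GN.G060

/-!
# GN-62 domination of the renormalized Born integrand (MP_f2af60_mp, infinitely many resonances in odd dimension)
-/

set_option autoImplicit false

open MeasureTheory Filter Topology Complex
open scoped InnerProductSpace ENNReal NNReal

namespace Pool.Agent.H269



theorem born_dom_tele {ι : Type} [DecidableEq ι] (s : Finset ι) (a b : ι → ℂ) (c e : ι → ℝ)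
    (ha : ∀ i ∈ s, ‖a i‖ ≤ c i) (hb : ∀ i ∈ s, ‖b i‖ ≤ c i) (he : ∀ i ∈ s, ‖a i - b i‖ ≤ e i) :
    ‖∏ i ∈ s, a i - ∏ i ∈ s, b i‖ ≤ ∑ i₀ ∈ s, e i₀ * ∏ i ∈ s.erase i₀, c i := by
  induction s using Finset.induction_on with
  | empty => simp
  | insert j s hj ih =>
    have ih' := ih (fun i hi => ha i (Finset.mem_insert_of_mem hi))
      (fun i hi => hb i (Finset.mem_insert_of_mem hi)) (fun i hi => he i (Finset.mem_insert_of_mem hi))
    have hc0 : ∀ i ∈ insert j s, 0 ≤ c i := fun i hi => (norm_nonneg _).trans (ha i hi)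
    rw [Finset.prod_insert hj, Finset.prod_insert hj, Finset.sum_insert hj, Finset.erase_insert hj]
    have h1 : ∑ i₀ ∈ s, e i₀ * ∏ i ∈ (insert j s).erase i₀, c i =
        c j * ∑ i₀ ∈ s, e i₀ * ∏ i ∈ s.erase i₀, c i := by
      rw [Finset.mul_sum]
      refine Finset.sum_congr rfl fun i₀ hi₀ => ?_
      have hne : i₀ ≠ j := by rintro rfl; exact hj hi₀
      have hni : j ∉ s.erase i₀ := fun h => hj (Finset.mem_of_mem_erase h)
      rw [Finset.erase_insert_of_ne hne.symm, Finset.prod_insert hni]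
      ring
    rw [h1]
    have h2 : a j * ∏ i ∈ s, a i - b j * ∏ i ∈ s, b i =
        (a j - b j) * ∏ i ∈ s, a i + b j * (∏ i ∈ s, a i - ∏ i ∈ s, b i) := by ring
    rw [h2]
    refine (norm_add_le _ _).trans (add_le_add ?_ ?_)
    · rw [norm_mul]
      refine mul_le_mul (he j (Finset.mem_insert_self _ _)) ?_ (norm_nonneg _)
        ((norm_nonneg _).trans (he j (Finset.mem_insert_self _ _)))
      rw [norm_prod]
      exact Finset.prod_le_prod (fun i _ => norm_nonneg _)
        (fun i hi => ha i (Finset.mem_insert_of_mem hi))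
    · rw [norm_mul]
      exact mul_le_mul (hb j (Finset.mem_insert_self _ _)) ih' (norm_nonneg _)
        (hc0 j (Finset.mem_insert_self _ _))

/-- the dominating kernel -/
noncomputable def born_dom_h (v : ℕ) (R : ℝ) (y : EV v) : ℝ :=
  if ‖y‖ ≤ 2 * R then 1 / ‖y‖ ^ (2 * v + 1) else 0

theorem born_dom_h_nonneg (v : ℕ) (R : ℝ) (y : EV v) : 0 ≤ born_dom_h v R y := by
  unfold born_dom_h; split_ifs <;> positivity

theorem born_dom_h_meas (v : ℕ) (R : ℝ) : Measurable (born_dom_h v R) := by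
  unfold born_dom_h
  exact Measurable.ite (measurableSet_le measurable_norm measurable_const) (by fun_prop)
    measurable_const

theorem born_dom_h_fin (v : ℕ) (R : ℝ) :
    ∫⁻ y : EV v, ENNReal.ofReal (born_dom_h v R y) < ∞ := by
  have h1 := rad_int v (2 * v + 1) (by omega) 1 one_pos
  have h2 : ∫⁻ y : EV v, ENNReal.ofReal (born_dom_h v R y) ≤
      ∫⁻ y : EV v, ENNReal.ofReal (Real.exp (2 * R)) *
        ENNReal.ofReal (Real.exp (-1 * ‖y‖) / ‖y‖ ^ (2 * v + 1)) := by
    refine lintegral_mono fun y => ?_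
    rw [← ENNReal.ofReal_mul (Real.exp_pos _).le]
    refine ENNReal.ofReal_le_ofReal ?_
    unfold born_dom_h
    split_ifs with h
    · rw [← mul_div_assoc, ← Real.exp_add]
      refine div_le_div_of_nonneg_right ?_ (by positivity)
      exact Real.one_le_exp (by linarith)
    · positivity
  refine h2.trans_lt ?_
  rw [lintegral_const_mul' _ _ ENNReal.ofReal_ne_top]
  exact ENNReal.mul_lt_top ENNReal.ofReal_lt_top h1

/-- the dominating function -/
noncomputable def born_dom_g (v k : ℕ) (R : ℝ) (x : Fin (k + 1) → EV v) : ℝ :=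
  ∑ i₀ : Fin (k + 1), (Metric.closedBall (0 : EV v) R).indicator (fun _ => (1 : ℝ)) (x 0) *
    ∏ i ∈ Finset.univ.erase i₀, born_dom_h v R (x i - x (i + 1))

theorem born_dom_g_nonneg (v k : ℕ) (R : ℝ) (x : Fin (k + 1) → EV v) : 0 ≤ born_dom_g v k R x := by
  unfold born_dom_g
  refine Finset.sum_nonneg fun i₀ _ => mul_nonneg ?_ (Finset.prod_nonneg fun i _ => born_dom_h_nonneg _ _ _)
  exact Set.indicator_nonneg (fun _ _ => zero_le_one) _

theorem born_dom_g_int (v k : ℕ) (R : ℝ) : Integrable (born_dom_g v k R) := by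
  unfold born_dom_g
  refine integrable_finset_sum _ fun i₀ _ => ?_
  have hm1 : Measurable fun x : Fin (k + 1) → EV v =>
      (Metric.closedBall (0 : EV v) R).indicator (fun _ => (1 : ℝ)) (x 0) :=
    (measurable_const.indicator Metric.isClosed_closedBall.measurableSet).comp (measurable_pi_apply 0)
  have hm2 : Measurable fun x : Fin (k + 1) → EV v =>
      ∏ i ∈ Finset.univ.erase i₀, born_dom_h v R (x i - x (i + 1)) :=
    Finset.measurable_fun_prod _ fun i _ =>
      (born_dom_h_meas v R).comp ((measurable_pi_apply i).sub (measurable_pi_apply (i + 1)))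
  refine ⟨(hm1.mul hm2).aestronglyMeasurable, ?_⟩
  rw [hasFiniteIntegral_iff_ofReal (Filter.Eventually.of_forall fun x =>
    mul_nonneg (Set.indicator_nonneg (fun _ _ => zero_le_one) _)
      (Finset.prod_nonneg fun i _ => born_dom_h_nonneg _ _ _))]
  have h1 := path_lintegral v k
    ((Metric.closedBall (0 : EV v) R).indicator (fun _ => (1 : ℝ≥0∞)))
    (fun y => ENNReal.ofReal (born_dom_h v R y))
    (measurable_const.indicator Metric.isClosed_closedBall.measurableSet)
    (born_dom_h_meas v R).ennreal_ofReal i₀ 0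
  have h2 : ∫⁻ x : Fin (k + 1) → EV v, ENNReal.ofReal
      ((Metric.closedBall (0 : EV v) R).indicator (fun _ => (1 : ℝ)) (x 0) *
        ∏ i ∈ Finset.univ.erase i₀, born_dom_h v R (x i - x (i + 1))) =
      ∫⁻ x : Fin (k + 1) → EV v, (Metric.closedBall (0 : EV v) R).indicator (fun _ => (1 : ℝ≥0∞)) (x 0) *
        ∏ i ∈ Finset.univ.erase i₀, ENNReal.ofReal (born_dom_h v R (x i - x (i + 1))) := by
    refine lintegral_congr fun x => ?_
    rw [ENNReal.ofReal_mul (Set.indicator_nonneg (fun _ _ => zero_le_one) _),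
      ENNReal.ofReal_prod_of_nonneg (fun i _ => born_dom_h_nonneg _ _ _)]
    congr 1
    by_cases hx : x 0 ∈ Metric.closedBall (0 : EV v) R
    · simp [Set.indicator_of_mem hx]
    · simp [Set.indicator_of_notMem hx]
  rw [h2, h1]
  refine ENNReal.mul_lt_top ?_ (ENNReal.pow_lt_top (born_dom_h_fin v R))
  rw [lintegral_indicator Metric.isClosed_closedBall.measurableSet]
  simp only [lintegral_const, one_mul, Measure.restrict_apply MeasurableSet.univ, Set.univ_inter]
  exact measure_closedBall_lt_top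

theorem born_dom (v k : ℕ) (hk : 1 ≤ k) (R M : ℝ) (V : EV v → ℝ) (hR : 0 < R) (hM : 0 ≤ M)
    (hV : Measurable V) (hb : ∀ x, |V x| ≤ M)
    (hs : ∀ x, x ∉ Metric.closedBall (0 : EV v) R → V x = 0) :
    ∃ g : (Fin (k + 1) → EV v) → ℝ, Integrable g ∧ (∀ x, 0 ≤ g x) ∧ ∀ B : ℝ, 0 ≤ B →
      ∃ (C : ℝ) (m : ℕ), 0 ≤ C ∧ ∀ l : ℂ, -B ≤ l.im → ∀ x : Fin (k + 1) → EV v,
        ‖(∏ i, (V (x i) : ℂ)) * (cyc (Gr v l) x - cyc (Sg v l) x)‖ ≤
          C * (1 + ‖l‖) ^ m * g x := by
  classical
  refine ⟨born_dom_g v k R, born_dom_g_int v k R, born_dom_g_nonneg v k R, fun B hB => ?_⟩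
  obtain ⟨C1, hC1, hG⟩ := Gr_bound v
  obtain ⟨C2, hC2, hS⟩ := Sg_bound v (2 * R) (by positivity)
  obtain ⟨C3, hC3, hRg⟩ := Rg_bound v B (2 * R) hB (by positivity)
  set D : ℝ := C1 * (1 + 2 * R) ^ v * Real.exp (2 * R * B) + C2 with hD
  have hD0 : 0 < D := by positivity
  refine ⟨M ^ (k + 1) * (C3 * D ^ k), 4 * v + 1 + 2 * v * k, by positivity, fun l hl x => ?_⟩
  by_cases hx : ∀ i, x i ∈ Metric.closedBall (0 : EV v) R
  · have hr : ∀ i, ‖x i - x (i + 1)‖ ≤ 2 * R := by
      intro i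
      have h1 := hx i
      have h2 := hx (i + 1)
      rw [mem_closedBall_zero_iff] at h1 h2
      exact (norm_sub_le _ _).trans (by linarith)
    have hh : ∀ i, born_dom_h v R (x i - x (i + 1)) = 1 / ‖x i - x (i + 1)‖ ^ (2 * v + 1) := by
      intro i; unfold born_dom_h; rw [if_pos (hr i)]
    have hl1 : 1 ≤ 1 + ‖l‖ := by linarith [norm_nonneg l]
    have hG' : ∀ i, ‖Gr v l ‖x i - x (i + 1)‖‖ ≤
        D * (1 + ‖l‖) ^ (2 * v) * born_dom_h v R (x i - x (i + 1)) := by
      intro i
      set ρ := ‖x i - x (i + 1)‖ with hρ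
      have hρ0 : 0 ≤ ρ := norm_nonneg _
      have h1 := hG l ρ hρ0
      rw [hh i]
      refine h1.trans ?_
      rw [div_eq_mul_one_div]
      refine mul_le_mul_of_nonneg_right ?_ (by positivity)
      have h2 : (1 + ‖l‖ * ρ) ^ v ≤ ((1 + 2 * R) * (1 + ‖l‖)) ^ v := by
        refine pow_le_pow_left₀ (by positivity) ?_ v
        have := mul_le_mul_of_nonneg_left (hr i) (norm_nonneg l)
        nlinarith [norm_nonneg l]
      have h3 : Real.exp (-l.im * ρ) ≤ Real.exp (2 * R * B) := by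
        refine Real.exp_le_exp.2 ?_
        have h4 : -l.im * ρ ≤ B * ρ := mul_le_mul_of_nonneg_right (by linarith) hρ0
        have h5 : B * ρ ≤ B * (2 * R) := mul_le_mul_of_nonneg_left (hr i) hB
        linarith
      have h6 : (1 + ‖l‖) ^ v ≤ (1 + ‖l‖) ^ (2 * v) := pow_le_pow_right₀ hl1 (by omega)
      calc C1 * (1 + ‖l‖ * ρ) ^ v * Real.exp (-l.im * ρ)
          ≤ C1 * ((1 + 2 * R) * (1 + ‖l‖)) ^ v * Real.exp (2 * R * B) := by
            refine mul_le_mul (mul_le_mul_of_nonneg_left h2 hC1.le) h3 (Real.exp_pos _).le (by positivity)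
        _ = (C1 * (1 + 2 * R) ^ v * Real.exp (2 * R * B)) * (1 + ‖l‖) ^ v := by
            rw [mul_pow]; ring
        _ ≤ D * (1 + ‖l‖) ^ (2 * v) := by
            refine mul_le_mul ?_ h6 (by positivity) hD0.le
            rw [hD]; linarith
    have hS' : ∀ i, ‖Sg v l ‖x i - x (i + 1)‖‖ ≤
        D * (1 + ‖l‖) ^ (2 * v) * born_dom_h v R (x i - x (i + 1)) := by
      intro i
      have h1 := hS l _ (norm_nonneg (x i - x (i + 1))) (hr i)
      rw [hh i]
      refine h1.trans ?_
      rw [div_eq_mul_one_div]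
      refine mul_le_mul_of_nonneg_right ?_ (by positivity)
      refine mul_le_mul_of_nonneg_right ?_ (by positivity)
      have : 0 ≤ C1 * (1 + 2 * R) ^ v * Real.exp (2 * R * B) := by positivity
      rw [hD]; linarith
    have hE' : ∀ i, ‖Gr v l ‖x i - x (i + 1)‖ - Sg v l ‖x i - x (i + 1)‖‖ ≤
        C3 * (1 + ‖l‖) ^ (4 * v + 1) := by
      intro i
      rcases (norm_nonneg (x i - x (i + 1))).eq_or_lt with h0 | h0
      · have h1 := hG' i
        have h2 := hS' i
        rw [hh i, ← h0] at h1 h2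
        simp only [ne_eq, Nat.add_eq_zero_iff, mul_eq_zero, OfNat.ofNat_ne_zero, false_or, one_ne_zero,
          and_false, not_false_eq_true, zero_pow, div_zero, mul_zero] at h1 h2
        rw [← h0, norm_le_zero_iff.1 h1, norm_le_zero_iff.1 h2, sub_zero, norm_zero]
        positivity
      · rw [Gr_eq v l _ h0, add_sub_cancel_left]
        exact hRg l _ hl h0.le (hr i)
    have htele := born_dom_tele (Finset.univ : Finset (Fin (k + 1))) (fun i => Gr v l ‖x i - x (i + 1)‖)
      (fun i => Sg v l ‖x i - x (i + 1)‖)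
      (fun i => D * (1 + ‖l‖) ^ (2 * v) * born_dom_h v R (x i - x (i + 1)))
      (fun _ => C3 * (1 + ‖l‖) ^ (4 * v + 1)) (fun i _ => hG' i) (fun i _ => hS' i) (fun i _ => hE' i)
    have hprod : ∀ i₀ : Fin (k + 1), ∏ i ∈ Finset.univ.erase i₀,
        (D * (1 + ‖l‖) ^ (2 * v) * born_dom_h v R (x i - x (i + 1))) =
        (D * (1 + ‖l‖) ^ (2 * v)) ^ k * ∏ i ∈ Finset.univ.erase i₀, born_dom_h v R (x i - x (i + 1)) := by
      intro i₀
      rw [Finset.prod_mul_distrib, Finset.prod_const, Finset.card_erase_of_mem (Finset.mem_univ _),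
        Finset.card_univ, Fintype.card_fin, Nat.add_sub_cancel]
    have hg : born_dom_g v k R x = ∑ i₀ : Fin (k + 1),
        ∏ i ∈ Finset.univ.erase i₀, born_dom_h v R (x i - x (i + 1)) := by
      unfold born_dom_g
      refine Finset.sum_congr rfl fun i₀ _ => ?_
      rw [Set.indicator_of_mem (hx 0), one_mul]
    have hVp : ‖∏ i, (V (x i) : ℂ)‖ ≤ M ^ (k + 1) := by
      rw [norm_prod]
      calc ∏ i, ‖(V (x i) : ℂ)‖ ≤ ∏ _i : Fin (k + 1), M :=
            Finset.prod_le_prod (fun i _ => norm_nonneg _) (fun i _ => by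
              rw [Complex.norm_real]; exact hb (x i))
        _ = M ^ (k + 1) := by rw [Finset.prod_const, Finset.card_univ, Fintype.card_fin]
    rw [norm_mul]
    refine (mul_le_mul hVp htele (norm_nonneg _) (by positivity)).trans (le_of_eq ?_)
    simp only [hprod]
    rw [hg, ← Finset.mul_sum, ← Finset.mul_sum]
    ring
  · push Not at hx
    obtain ⟨i, hi⟩ := hx
    have h1 : (∏ i, (V (x i) : ℂ)) = 0 :=
      Finset.prod_eq_zero (Finset.mem_univ i) (by rw [hs _ hi]; simp)
    rw [h1, zero_mul, norm_zero]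
    have := born_dom_g_nonneg v k R x
    positivity

end Pool.Agent.H269
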