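import Pool.Agent.H269.DefsG
import Pool.Agent.H269.GN.G020
import Pool.Agent.H269.GN.G025
import Pool.Agent.H269.GN.G061
import Pool.Agent.H269.GN.G062

/-!
# GN-63 renormalized Born terms are entire and polynomially bounded on half planes (MP_f2af60_mp, infinitely many resonances in odd dimension)
-/

set_option autoImplicit false

open MeasureTheory Filter Topology Complex
open scoped InnerProductSpace ENNReal NNReal

namespace Pool.Agent.H269



private theorem Sg_meas (v : ℕ) (l : ℂ) : Measurable (fun r : ℝ => Sg v l r) := by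
  unfold Sg
  have h1 : Measurable (fun r : ℝ => (r : ℂ)) := Complex.measurable_ofReal
  refine Measurable.div ?_ ?_
  · refine Finset.measurable_fun_sum _ fun i _ => ?_
    exact ((h1.const_mul (I * l)).neg.pow_const _).const_mul _
  · exact (h1.pow_const _).const_mul _

private theorem cyc_meas {v k : ℕ} (h : ℝ → ℂ) (hh : Measurable h) :
    Measurable (fun x : Fin (k + 1) → EV v => cyc h x) := by
  unfold cyc
  refine Finset.measurable_fun_prod _ fun i _ => ?_
  exact hh.comp ((measurable_pi_apply i).sub (measurable_pi_apply (i + 1))).norm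

private theorem cyc_diff {v k : ℕ} (h : ℂ → ℝ → ℂ) (hh : ∀ r, Differentiable ℂ (fun l => h l r))
    (x : Fin (k + 1) → EV v) : Differentiable ℂ (fun l => cyc (h l) x) := by
  unfold cyc
  refine Differentiable.fun_finsetProd fun i _ => ?_
  exact hh _

theorem bornF_entire (v k : ℕ) (hk : 1 ≤ k) (R M : ℝ) (V : EV v → ℝ) (hR : 0 < R) (hM : 0 ≤ M)
    (hV : Measurable V) (hb : ∀ x, |V x| ≤ M)
    (hs : ∀ x, x ∉ Metric.closedBall (0 : EV v) R → V x = 0) :
    Differentiable ℂ (bornF v k V) ∧ ∀ B : ℝ, 0 ≤ B →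
      ∃ (C : ℝ) (m : ℕ), 0 ≤ C ∧ ∀ l : ℂ, -B ≤ l.im → ‖bornF v k V l‖ ≤ C * (1 + ‖l‖) ^ m := by
  obtain ⟨g, hgi, hg0, hg⟩ := born_dom v k hk R M V hR hM hV hb hs
  set F : ℂ → (Fin (k + 1) → EV v) → ℂ := fun l x =>
    (∏ i, (V (x i) : ℂ)) * (cyc (Gr v l) x - cyc (Sg v l) x) with hF
  have hFd : ∀ x, DifferentiableOn ℂ (fun z => F z x) Set.univ := by
    intro x
    have h1 := cyc_diff (fun l r => Gr v l r) (Gr_differentiable v) x
    have h2 := cyc_diff (fun l r => Sg v l r) (Sg_differentiable v) x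
    exact ((h1.sub h2).const_mul _).differentiableOn
  have hFm : ∀ z ∈ (Set.univ : Set ℂ), AEStronglyMeasurable (F z) volume := by
    intro z _
    have h0 : Measurable (fun x : Fin (k + 1) → EV v => ∏ i, (V (x i) : ℂ)) := by
      refine Finset.measurable_fun_prod _ fun i _ => ?_
      exact Complex.measurable_ofReal.comp (hV.comp (measurable_pi_apply i))
    exact (h0.mul ((cyc_meas _ (Gr_measurable v z)).sub
      (cyc_meas _ (Sg_meas v z)))).aestronglyMeasurable
  have hloc : ∀ z ∈ (Set.univ : Set ℂ), ∃ δ C : ℝ, 0 < δ ∧ ∀ w ∈ Metric.ball z δ,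
      w ∈ (Set.univ : Set ℂ) → ∀ x, ‖F w x‖ ≤ C * g x := by
    intro z _
    obtain ⟨C, m, hC, h⟩ := hg (‖z‖ + 1) (by positivity)
    refine ⟨1, C * (1 + (‖z‖ + 1)) ^ m, one_pos, fun w hw _ x => ?_⟩
    have hwz : ‖w‖ ≤ ‖z‖ + 1 := by
      have h1 : ‖w - z‖ < 1 := by simpa [dist_eq_norm] using hw
      have h2 : ‖w‖ ≤ ‖w - z‖ + ‖z‖ := by
        have := norm_add_le (w - z) z
        simpa using this
      linarith
    have him : -(‖z‖ + 1) ≤ w.im := by
      have h1 := Complex.abs_im_le_norm w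
      have h2 := neg_abs_le w.im
      linarith
    refine (h w him x).trans ?_
    refine mul_le_mul_of_nonneg_right ?_ (hg0 x)
    refine mul_le_mul_of_nonneg_left ?_ hC
    exact pow_le_pow_left₀ (by positivity) (by linarith) m
  have hmain := (integral_analytic Set.univ isOpen_univ F hFd hFm g hgi hloc).1
  refine ⟨?_, ?_⟩
  · have h1 : Differentiable ℂ (fun z => ∫ x, F z x) := by
      rwa [differentiableOn_univ] at hmain
    exact h1.const_mul (1 / ((k : ℂ) + 1))
  · intro B hB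
    obtain ⟨C, m, hC, h⟩ := hg B hB
    have hgint : 0 ≤ ∫ x, g x := integral_nonneg hg0
    refine ⟨‖(1 / ((k : ℂ) + 1))‖ * (C * ∫ x, g x), m, by positivity, fun l hl => ?_⟩
    have h1 : ‖∫ x, F l x‖ ≤ ∫ x, C * (1 + ‖l‖) ^ m * g x :=
      norm_integral_le_of_norm_le (hgi.const_mul _) (Filter.Eventually.of_forall fun x => h l hl x)
    rw [integral_const_mul] at h1
    have h2 : ‖bornF v k V l‖ = ‖(1 / ((k : ℂ) + 1))‖ * ‖∫ x, F l x‖ := by
      rw [← norm_mul]
      rfl
    rw [h2]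
    calc ‖(1 / ((k : ℂ) + 1))‖ * ‖∫ x, F l x‖
        ≤ ‖(1 / ((k : ℂ) + 1))‖ * (C * (1 + ‖l‖) ^ m * ∫ x, g x) :=
          mul_le_mul_of_nonneg_left h1 (norm_nonneg _)
      _ = ‖(1 / ((k : ℂ) + 1))‖ * (C * ∫ x, g x) * (1 + ‖l‖) ^ m := by ring

end Pool.Agent.H269
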