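import Pool.Agent.H269.DefsG
import Pool.Agent.H269.GN.G020
import Pool.Agent.H269.GN.G021
import Pool.Agent.H269.GN.G022
import Pool.Agent.H269.GN.G061

/-!
# GN-64 derivatives in the energy of the cyclic product (MP_f2af60_mp, infinitely many resonances in odd dimension)
-/

set_option autoImplicit false

open MeasureTheory Filter Topology Complex
open scoped InnerProductSpace ENNReal NNReal

namespace Pool.Agent.H269


theorem aux_iteratedDeriv_poly (p : Polynomial ℂ) (K : ℕ) :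
    iteratedDeriv K (fun w : ℂ => p.eval w) = fun w => (Polynomial.derivative^[K] p).eval w := by
  induction K with
  | zero => simp
  | succ K ih =>
    rw [iteratedDeriv_succ, ih]
    funext w
    rw [Polynomial.deriv, Function.iterate_succ_apply']

theorem aux_sqrt_sq (w : ℂ) : (w ^ (1 / 2 : ℂ)) ^ 2 = w := by
  have h := Complex.cpow_nat_inv_pow w (n := 2) two_ne_zero
  norm_num at h ⊢
  exact h

theorem aux_Sg_poly (v : ℕ) (r : ℝ) : ∃ p : Polynomial ℂ, p.natDegree ≤ v ∧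
    ∀ w : ℂ, Sg v (I * w ^ (1 / 2 : ℂ)) r = p.eval w := by
  refine ⟨Polynomial.C ((4 * (Real.pi : ℂ) * (2 * (Real.pi : ℂ)) ^ v * (r : ℂ) ^ (2 * v + 1))⁻¹) *
    ∑ i ∈ Finset.range (v + 1), Polynomial.C ((ct v (2 * i) : ℂ) * (r : ℂ) ^ (2 * i)) *
      Polynomial.X ^ i, ?_, ?_⟩
  · refine (Polynomial.natDegree_C_mul_le _ _).trans ?_
    refine Polynomial.natDegree_sum_le_of_forall_le _ _ ?_
    intro i hi
    refine (Polynomial.natDegree_C_mul_X_pow_le _ _).trans ?_
    have := Finset.mem_range.mp hi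
    omega
  · intro w
    unfold Sg
    rw [Polynomial.eval_mul, Polynomial.eval_C, Polynomial.eval_finsetSum, div_eq_mul_inv, mul_comm]
    congr 1
    refine Finset.sum_congr rfl ?_
    intro i _
    rw [Polynomial.eval_mul, Polynomial.eval_C, Polynomial.eval_pow, Polynomial.eval_X]
    have h1 : -(I * (I * w ^ (1 / 2 : ℂ)) * (r : ℂ)) = w ^ (1 / 2 : ℂ) * r := by
      rw [← mul_assoc, I_mul_I]
      ring
    rw [h1, mul_pow, pow_mul (w ^ (1 / 2 : ℂ)) 2 i, aux_sqrt_sq]
    ring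

theorem aux_cyc_Sg (v k : ℕ) (x : Fin (k + 1) → EV v) : ∃ p : Polynomial ℂ,
    p.natDegree ≤ v * (k + 1) ∧ ∀ w : ℂ, cyc (Sg v (I * w ^ (1 / 2 : ℂ))) x = p.eval w := by
  choose p hp hpe using fun i : Fin (k + 1) => aux_Sg_poly v ‖x i - x (i + 1)‖
  refine ⟨∏ i, p i, ?_, ?_⟩
  · refine (Polynomial.natDegree_prod_le _ _).trans ?_
    refine (Finset.sum_le_sum (fun i _ => hp i)).trans ?_
    simp [mul_comm]
  · intro w
    unfold cyc
    rw [Polynomial.eval_prod]
    exact Finset.prod_congr rfl (fun i _ => hpe i w)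

theorem aux_hk_meas (v : ℕ) (r : ℝ) : Measurable (fun t : ℝ => hk v t r) := by
  unfold hk
  have h1 : Measurable (fun t : ℝ => (4 * Real.pi * t) ^ (-((2 * (v : ℝ) + 3) / 2))) :=
    (measurable_id.const_mul (4 * Real.pi)).pow_const _
  have h2 : Measurable (fun t : ℝ => Real.exp (-r ^ 2 / (4 * t))) :=
    Real.measurable_exp.comp ((measurable_id.const_mul 4).const_div (-r ^ 2))
  exact h1.mul h2

theorem aux_hk_nonneg (v : ℕ) (t r : ℝ) (ht : 0 < t) : 0 ≤ hk v t r := by
  unfold hk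
  have : 0 < 4 * Real.pi * t := by positivity
  exact mul_nonneg (Real.rpow_nonneg this.le _) (Real.exp_pos _).le

theorem aux_iter_exp (a c : ℂ) (K : ℕ) :
    iteratedDeriv K (fun w : ℂ => cexp (w * a) * c) = fun w => a ^ K * (cexp (w * a) * c) := by
  induction K with
  | zero => simp
  | succ K ih =>
    rw [iteratedDeriv_succ, ih]
    funext w
    have h1 : HasDerivAt (fun w : ℂ => w * a) a w := by
      simpa using (hasDerivAt_id w).mul_const a
    have h2 : HasDerivAt (fun w : ℂ => a ^ K * (cexp (w * a) * c))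
        (a ^ K * (cexp (w * a) * a * c)) w := (h1.cexp.mul_const c).const_mul (a ^ K)
    rw [h2.deriv]
    ring

theorem aux_ind (k : ℕ) (F : Fin (k + 1) → ℝ → ℝ) (t : Fin (k + 1) → ℝ) :
    ∏ i, (Set.Ioi (0 : ℝ)).indicator (F i) (t i) =
      (Set.pi Set.univ (fun _ : Fin (k + 1) => Set.Ioi (0 : ℝ))).indicator
        (fun t => ∏ i, F i (t i)) t := by
  by_cases ht : t ∈ Set.pi Set.univ (fun _ : Fin (k + 1) => Set.Ioi (0 : ℝ))
  · rw [Set.indicator_of_mem ht]
    refine Finset.prod_congr rfl (fun i _ => ?_)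
    rw [Set.indicator_of_mem (ht i (Set.mem_univ i))]
  · rw [Set.indicator_of_notMem ht]
    have h : ∃ i, t i ∉ Set.Ioi (0 : ℝ) := by
      by_contra hc
      push Not at hc
      exact ht (fun i _ => hc i)
    obtain ⟨i, hi⟩ := h
    exact Finset.prod_eq_zero (Finset.mem_univ i) (Set.indicator_of_notMem hi _)

theorem aux_heat_int (v : ℕ) (c r : ℝ) (hc : 0 < c) (hr : 0 < r) :
    Integrable (fun τ : ℝ => (Set.Ioi (0 : ℝ)).indicator
      (fun τ => hk v τ r * Real.exp (-c * τ)) τ) := by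
  have h := (Gr_heat v (Real.sqrt c) r (Real.sqrt_pos.mpr hc) hr).1
  rw [Real.sq_sqrt hc.le] at h
  exact (integrable_indicator_iff measurableSet_Ioi).mpr h

theorem aux_heat_val (v : ℕ) (c r : ℝ) (hc : 0 < c) (hr : 0 < r) :
    ((∫ τ : ℝ, (Set.Ioi (0 : ℝ)).indicator
      (fun τ => hk v τ r * Real.exp (-c * τ)) τ : ℝ) : ℂ) = Gr v (I * (c : ℂ) ^ (1 / 2 : ℂ)) r := by
  rw [integral_indicator measurableSet_Ioi]
  have h := (Gr_heat v (Real.sqrt c) r (Real.sqrt_pos.mpr hc) hr).2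
  rw [Real.sq_sqrt hc.le] at h
  rw [← h]
  have h2 := (Gr_imag v (Real.sqrt c) r (Real.sqrt_nonneg c) hr.le).1
  rw [← h2]
  congr 2
  have h3 : ((c : ℂ) ^ (1 / 2 : ℂ)) = ((Real.sqrt c : ℝ) : ℂ) := by
    rw [Real.sqrt_eq_rpow, Complex.ofReal_cpow hc.le]
    norm_num
  rw [h3]

theorem aux_Phi (v k K : ℕ) (s : ℝ) (hs : 0 < s) (r : Fin (k + 1) → ℝ) (hr : ∀ i, 0 < r i) :
    ∃ Φ : ℂ → ℂ, AnalyticOnNhd ℂ Φ {w : ℂ | s / 2 < w.re} ∧
      (∀ c : ℝ, s / 2 < c → Φ (c : ℂ) = ∏ i, Gr v (I * (c : ℂ) ^ (1 / 2 : ℂ)) (r i)) ∧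
      iteratedDeriv K Φ (s : ℂ) = (-1) ^ K *
        ((∫ t in Set.pi Set.univ (fun _ : Fin (k + 1) => Set.Ioi (0 : ℝ)),
          (∑ i, t i) ^ K * Real.exp (-s * ∑ i, t i) * ∏ i, hk v (t i) (r i) : ℝ) : ℂ) := by
  set S : Set (Fin (k + 1) → ℝ) :=
    Set.pi Set.univ (fun _ : Fin (k + 1) => Set.Ioi (0 : ℝ)) with hS
  have hSm : MeasurableSet S := MeasurableSet.univ_pi (fun _ => measurableSet_Ioi)
  set U : Set ℂ := {w : ℂ | s / 2 < w.re} with hU
  have hUo : IsOpen U := isOpen_lt continuous_const Complex.continuous_re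
  let f : ℂ → (Fin (k + 1) → ℝ) → ℂ := fun w => S.indicator
    (fun t => cexp (w * (-((∑ i, t i : ℝ) : ℂ))) * ((∏ i, hk v (t i) (r i) : ℝ) : ℂ))
  let g : (Fin (k + 1) → ℝ) → ℝ := fun t => ∏ i, (Set.Ioi (0 : ℝ)).indicator
    (fun τ => hk v τ (r i) * Real.exp (-(s / 2) * τ)) (t i)
  have hgi : Integrable g := Integrable.fintype_prod
    (fun i => aux_heat_int v (s / 2) (r i) (half_pos hs) (hr i))
  have hprod : ∀ (c : ℝ) (t : Fin (k + 1) → ℝ),
      ∏ i, (hk v (t i) (r i) * Real.exp (-c * t i)) =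
        Real.exp (-c * ∑ i, t i) * ∏ i, hk v (t i) (r i) := by
    intro c t
    rw [Finset.prod_mul_distrib, ← Real.exp_sum, Finset.mul_sum, mul_comm]
  have hgS : ∀ t, g t = S.indicator
      (fun t => Real.exp (-(s / 2) * ∑ i, t i) * ∏ i, hk v (t i) (r i)) t := by
    intro t
    change ∏ i, (Set.Ioi (0 : ℝ)).indicator
      (fun τ => hk v τ (r i) * Real.exp (-(s / 2) * τ)) (t i) = _
    rw [aux_ind k (fun i τ => hk v τ (r i) * Real.exp (-(s / 2) * τ)) t]
    simp only [hprod]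
    rfl
  have hm : ∀ z ∈ U, AEStronglyMeasurable (f z) volume := by
    intro z _
    apply Measurable.aestronglyMeasurable
    refine Measurable.indicator ?_ hSm
    have hsum : Measurable (fun t : Fin (k + 1) → ℝ => (∑ i, t i : ℝ)) :=
      Finset.measurable_sum _ (fun i _ => measurable_pi_apply i)
    have h1 : Measurable (fun t : Fin (k + 1) → ℝ => cexp (z * (-((∑ i, t i : ℝ) : ℂ)))) :=
      Complex.measurable_exp.comp ((Complex.measurable_ofReal.comp hsum).neg.const_mul z)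
    have h2 : Measurable (fun t : Fin (k + 1) → ℝ => (∏ i, hk v (t i) (r i) : ℝ)) :=
      Finset.measurable_prod _ (fun i _ => (aux_hk_meas v (r i)).comp (measurable_pi_apply i))
    exact h1.mul (Complex.measurable_ofReal.comp h2)
  have hf : ∀ t, DifferentiableOn ℂ (fun z => f z t) U := by
    intro t
    by_cases ht : t ∈ S
    · have : (fun z => f z t) = fun z => cexp (z * (-((∑ i, t i : ℝ) : ℂ))) *
          ((∏ i, hk v (t i) (r i) : ℝ) : ℂ) := by
        funext z
        exact Set.indicator_of_mem ht _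
      rw [this]
      exact (((differentiable_id.mul_const _).cexp).mul_const _).differentiableOn
    · have : (fun z => f z t) = fun z => 0 := by
        funext z
        exact Set.indicator_of_notMem ht _
      rw [this]
      exact differentiableOn_const 0
  have hb : ∀ z ∈ U, ∃ δ C : ℝ, 0 < δ ∧ ∀ w ∈ Metric.ball z δ, w ∈ U →
      ∀ t, ‖f w t‖ ≤ C * g t := by
    intro z _
    refine ⟨1, 1, one_pos, ?_⟩
    intro w _ hw t
    rw [one_mul, hgS t]
    by_cases ht : t ∈ S
    · have h1 : f w t = cexp (w * (-((∑ i, t i : ℝ) : ℂ))) *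
          ((∏ i, hk v (t i) (r i) : ℝ) : ℂ) := Set.indicator_of_mem ht _
      rw [h1, Set.indicator_of_mem ht, norm_mul, Complex.norm_exp, Complex.norm_real]
      have hpr : 0 ≤ ∏ i, hk v (t i) (r i) :=
        Finset.prod_nonneg (fun i _ => aux_hk_nonneg v (t i) (r i) (ht i (Set.mem_univ i)))
      rw [Real.norm_of_nonneg hpr]
      refine mul_le_mul_of_nonneg_right ?_ hpr
      apply Real.exp_le_exp.mpr
      have hsum : 0 ≤ ∑ i, t i :=
        Finset.sum_nonneg (fun i _ => le_of_lt (ht i (Set.mem_univ i)))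
      have hw' : s / 2 < w.re := hw
      have h2 : (w * (-((∑ i, t i : ℝ) : ℂ))).re = -(w.re * ∑ i, t i) := by
        rw [mul_neg, Complex.neg_re, Complex.re_mul_ofReal]
      rw [h2]
      nlinarith
    · have h1 : f w t = 0 := Set.indicator_of_notMem ht _
      rw [h1, Set.indicator_of_notMem ht, norm_zero]
  obtain ⟨hA, hD⟩ := integral_analytic U hUo f hf hm g hgi hb
  refine ⟨fun z => ∫ t, f z t, hA.analyticOnNhd hUo, ?_, ?_⟩
  · intro c hc
    have hc0 : 0 < c := by linarith [half_pos hs]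
    have h1 : (fun t => f (c : ℂ) t) = fun t => ∏ i, (((Set.Ioi (0 : ℝ)).indicator
        (fun τ => hk v τ (r i) * Real.exp (-c * τ)) (t i) : ℝ) : ℂ) := by
      funext t
      rw [← Complex.ofReal_prod, aux_ind k (fun i τ => hk v τ (r i) * Real.exp (-c * τ)) t]
      simp only [hprod]
      by_cases ht : t ∈ S
      · have h2 : f (c : ℂ) t = cexp ((c : ℂ) * (-((∑ i, t i : ℝ) : ℂ))) *
            ((∏ i, hk v (t i) (r i) : ℝ) : ℂ) := Set.indicator_of_mem ht _
        rw [h2, Set.indicator_of_mem ht]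
        push_cast
        congr 2
        ring
      · have h2 : f (c : ℂ) t = 0 := Set.indicator_of_notMem ht _
        rw [h2, Set.indicator_of_notMem ht, Complex.ofReal_zero]
    change ∫ t, f (c : ℂ) t = _
    rw [h1]
    rw [integral_fintype_prod_volume_eq_prod (𝕜 := ℂ) (fun i (τ : ℝ) =>
      (((Set.Ioi (0 : ℝ)).indicator (fun τ => hk v τ (r i) * Real.exp (-c * τ)) τ : ℝ) : ℂ))]
    refine Finset.prod_congr rfl (fun i _ => ?_)
    rw [integral_complex_ofReal]
    exact aux_heat_val v c (r i) hc0 (hr i)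
  · have hsU : (s : ℂ) ∈ U := by
      change s / 2 < ((s : ℝ) : ℂ).re
      rw [Complex.ofReal_re]
      exact half_lt_self hs
    rw [hD K (s : ℂ) hsU]
    have h1 : (fun t => iteratedDeriv K (fun z => f z t) (s : ℂ)) = S.indicator
        (fun t => (-1) ^ K * (((∑ i, t i) ^ K * Real.exp (-s * ∑ i, t i) *
          ∏ i, hk v (t i) (r i) : ℝ) : ℂ)) := by
      funext t
      by_cases ht : t ∈ S
      · have h2 : (fun z => f z t) = fun z => cexp (z * (-((∑ i, t i : ℝ) : ℂ))) *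
            ((∏ i, hk v (t i) (r i) : ℝ) : ℂ) := by
          funext z
          exact Set.indicator_of_mem ht _
        rw [h2, Set.indicator_of_mem ht, aux_iter_exp]
        push_cast
        rw [neg_pow, mul_assoc, mul_assoc]
        congr 3
        congr 1
        ring
      · have h2 : (fun z => f z t) = fun z => 0 := by
          funext z
          exact Set.indicator_of_notMem ht _
        rw [h2, Set.indicator_of_notMem ht]
        simp
    rw [h1, integral_indicator hSm, integral_const_mul, integral_complex_ofReal]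

theorem cyc_deriv (v k K : ℕ) (hK : v * (k + 1) < K) (s : ℝ) (hs : 0 < s)
    (x : Fin (k + 1) → EV v) (hx : ∀ i, x i ≠ x (i + 1)) :
    iteratedDeriv K (fun w : ℂ => cyc (Gr v (I * w ^ (1 / 2 : ℂ))) x -
      cyc (Sg v (I * w ^ (1 / 2 : ℂ))) x) (s : ℂ) = (-1) ^ K * (wK v k K s x : ℂ) := by
  have hr : ∀ i, 0 < ‖x i - x (i + 1)‖ := fun i => norm_pos_iff.mpr (sub_ne_zero.mpr (hx i))
  obtain ⟨Φ, hΦa, hΦr, hΦd⟩ := aux_Phi v k K s hs (fun i => ‖x i - x (i + 1)‖) hr
  obtain ⟨p, hp, hpe⟩ := aux_cyc_Sg v k x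
  have hUo : IsOpen {w : ℂ | s / 2 < w.re} := isOpen_lt continuous_const Complex.continuous_re
  have hUc : IsPreconnected {w : ℂ | s / 2 < w.re} :=
    (convex_halfSpace_re_gt (s / 2)).isPreconnected
  have hsU : (s : ℂ) ∈ {w : ℂ | s / 2 < w.re} := by
    change s / 2 < ((s : ℝ) : ℂ).re
    rw [Complex.ofReal_re]
    exact half_lt_self hs
  have hGa : AnalyticOnNhd ℂ (fun w : ℂ => cyc (Gr v (I * w ^ (1 / 2 : ℂ))) x)
      {w : ℂ | s / 2 < w.re} := by
    apply DifferentiableOn.analyticOnNhd _ hUo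
    intro w hw
    have hw' : s / 2 < w.re := hw
    have hsl : w ∈ Complex.slitPlane := Or.inl (by linarith [half_pos hs])
    have h1 : DifferentiableAt ℂ (fun w : ℂ => I * w ^ (1 / 2 : ℂ)) w :=
      (DifferentiableAt.cpow_const differentiableAt_id hsl).const_mul I
    apply DifferentiableAt.differentiableWithinAt
    unfold cyc
    apply DifferentiableAt.fun_finsetProd
    intro i _
    exact ((Gr_differentiable v ‖x i - x (i + 1)‖) _).comp w h1
  have hfreq : ∃ᶠ z in 𝓝[≠] (s : ℂ), (fun w : ℂ => cyc (Gr v (I * w ^ (1 / 2 : ℂ))) x) z = Φ z := by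
    have ht : Tendsto (fun n : ℕ => ((s + 1 / ((n : ℝ) + 1) : ℝ) : ℂ)) atTop (𝓝[≠] (s : ℂ)) := by
      rw [tendsto_nhdsWithin_iff]
      refine ⟨?_, Eventually.of_forall ?_⟩
      · have h0 : Tendsto (fun n : ℕ => s + 1 / ((n : ℝ) + 1)) atTop (𝓝 (s + 0)) :=
          tendsto_const_nhds.add tendsto_one_div_add_atTop_nhds_zero_nat
        rw [add_zero] at h0
        exact (Complex.continuous_ofReal.tendsto s).comp h0
      · intro n
        have hn : (0 : ℝ) < 1 / ((n : ℝ) + 1) := by positivity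
        change ((s + 1 / ((n : ℝ) + 1) : ℝ) : ℂ) ≠ (s : ℂ)
        intro h
        have := Complex.ofReal_injective h
        linarith
    refine ht.frequently (Frequently.of_forall ?_)
    intro n
    have hn : (0 : ℝ) < 1 / ((n : ℝ) + 1) := by positivity
    rw [hΦr (s + 1 / ((n : ℝ) + 1)) (by linarith [half_pos hs])]
    rfl
  have heq := hGa.eqOn_of_preconnected_of_frequently_eq hΦa hUc hsU hfreq
  have hev : (fun w : ℂ => cyc (Gr v (I * w ^ (1 / 2 : ℂ))) x -
      cyc (Sg v (I * w ^ (1 / 2 : ℂ))) x) =ᶠ[𝓝 (s : ℂ)] (Φ - fun w => p.eval w) := by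
    filter_upwards [hUo.mem_nhds hsU] with w hw
    have h1 := heq hw
    change cyc (Gr v (I * w ^ (1 / 2 : ℂ))) x - cyc (Sg v (I * w ^ (1 / 2 : ℂ))) x =
      Φ w - p.eval w
    rw [hpe w]
    congr 1
  rw [hev.iteratedDeriv_eq K]
  have hc1 : ContDiffAt ℂ (K : ℕ) Φ (s : ℂ) := (hΦa (s : ℂ) hsU).contDiffAt
  have hc2 : ContDiffAt ℂ (K : ℕ) (fun w : ℂ => p.eval w) (s : ℂ) := (p.differentiable.analyticAt _).contDiffAt
  rw [iteratedDeriv_sub hc1 hc2, hΦd, aux_iteratedDeriv_poly,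
    Polynomial.iterate_derivative_eq_zero (lt_of_le_of_lt hp hK)]
  simp only [Polynomial.eval_zero, sub_zero]
  rfl

end Pool.Agent.H269
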