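import Pool.Agent.H269.DefsG
import Pool.Agent.H269.GN.G020
import Pool.Agent.H269.GN.G025
import Pool.Agent.H269.GN.G061
import Pool.Agent.H269.GN.G062
import Pool.Agent.H269.GN.G064

/-!
# GN-65 energy derivatives of the renormalized Born terms (MP_f2af60_mp, infinitely many resonances in odd dimension)
-/

set_option autoImplicit false

open MeasureTheory Filter Topology Complex
open scoped InnerProductSpace ENNReal NNReal

namespace Pool.Agent.H269


theorem bornF_deriv_sqrt_re (w : ℂ) (hw : 0 < w.re) : 0 ≤ (w ^ (1 / 2 : ℂ)).re := by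
  have h0 : w ≠ 0 := by
    intro h; rw [h] at hw; simp at hw
  rw [Complex.cpow_def_of_ne_zero h0, Complex.exp_re]
  refine mul_nonneg (Real.exp_pos _).le ?_
  have h1 : (Complex.log w * (1 / 2 : ℂ)).im = Complex.arg w / 2 := by
    have : (1 / 2 : ℂ) = ((1 / 2 : ℝ) : ℂ) := by push_cast; rfl
    rw [this, Complex.im_mul_ofReal, Complex.log_im]
    ring
  rw [h1]
  refine Real.cos_nonneg_of_mem_Icc ⟨?_, ?_⟩
  · linarith [Complex.neg_pi_lt_arg w]
  · linarith [Complex.arg_le_pi w]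

theorem bornF_deriv_sqrt_norm (w : ℂ) (hw : 0 < w.re) : ‖w ^ (1 / 2 : ℂ)‖ ≤ 1 + ‖w‖ := by
  have h0 : w ≠ 0 := by
    intro h; rw [h] at hw; simp at hw
  have h2 : (w ^ (1 / 2 : ℂ)) ^ 2 = w := by
    rw [← Complex.cpow_nat_mul]
    norm_num
  have h3 : ‖w ^ (1 / 2 : ℂ)‖ ^ 2 = ‖w‖ := by
    rw [← norm_pow, h2]
  nlinarith [norm_nonneg (w ^ (1 / 2 : ℂ)), sq_nonneg (‖w ^ (1 / 2 : ℂ)‖ - 1)]

theorem bornF_deriv_Sg_measurable (v : ℕ) (l : ℂ) : Measurable (fun r : ℝ => Sg v l r) := by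
  unfold Sg
  fun_prop

theorem bornF_deriv_cyc_measurable (v k : ℕ) (h : ℝ → ℂ) (hh : Measurable h) :
    Measurable (fun x : Fin (k + 1) → EV v => cyc h x) := by
  unfold cyc
  refine Finset.measurable_prod _ fun i _ => ?_
  refine hh.comp ?_
  exact ((measurable_pi_apply i).sub (measurable_pi_apply (i + 1))).norm

theorem bornF_deriv_null (v k : ℕ) (hk : 1 ≤ k) :
    ∀ᵐ x : Fin (k + 1) → EV v, ∀ i, x i ≠ x (i + 1) := by
  rw [ae_all_iff]
  intro i
  let L : (Fin (k + 1) → EV v) →ₗ[ℝ] EV v :=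
    LinearMap.proj (R := ℝ) (φ := fun _ : Fin (k + 1) => EV v) i
      - LinearMap.proj (R := ℝ) (φ := fun _ : Fin (k + 1) => EV v) (i + 1)
  have hi : i ≠ i + 1 := by
    intro h
    have h1 : (1 : Fin (k + 1)) = 0 := by
      have := congrArg (fun j => j - i) h
      simp only [sub_self, add_sub_cancel_left] at this
      exact this.symm
    have h2 : k + 1 = 1 := Fin.one_eq_zero_iff.1 h1
    lia
  have hL : LinearMap.ker L ≠ ⊤ := by
    intro h
    let e : EV v := EuclideanSpace.single 0 (1 : ℝ)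
    have hmem : (Pi.single i e : Fin (k + 1) → EV v) ∈ LinearMap.ker L := by
      rw [h]; trivial
    have h2 : L (Pi.single i e : Fin (k + 1) → EV v) = 0 := hmem
    have h3 : L (Pi.single i e : Fin (k + 1) → EV v) = e := by
      simp [L, Pi.single_eq_of_ne (Ne.symm hi)]
    rw [h3] at h2
    have h4 := congrFun (congrArg (fun u : EV v => (u : Fin (2 * v + 3) → ℝ)) h2) 0
    simp [e] at h4
  have hz := Measure.addHaar_submodule (volume : Measure (Fin (k + 1) → EV v)) (LinearMap.ker L) hL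
  rw [ae_iff]
  refine measure_mono_null ?_ hz
  intro x hx
  simp only [Set.mem_ofPred_eq, not_not] at hx
  show L x = 0
  simp only [L, LinearMap.sub_apply, LinearMap.proj_apply]
  rw [hx, sub_self]


theorem bornF_deriv (v k K : ℕ) (hk : 1 ≤ k) (hK : v * (k + 1) < K) (R M : ℝ) (V : EV v → ℝ)
    (hR : 0 < R) (hM : 0 ≤ M) (hV : Measurable V) (hb : ∀ x, |V x| ≤ M)
    (hs : ∀ x, x ∉ Metric.closedBall (0 : EV v) R → V x = 0) (s : ℝ) (hs' : 0 < s) :
    iteratedDeriv K (fun w : ℂ => bornF v k V (I * w ^ (1 / 2 : ℂ))) (s : ℂ) =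
      (-1) ^ K * (bornD v k K V s : ℂ) := by
  obtain ⟨g, hgi, hg0, hgB⟩ := born_dom v k hk R M V hR hM hV hb hs
  obtain ⟨C, m, hC, hCb⟩ := hgB 0 le_rfl
  set U : Set ℂ := {w : ℂ | 0 < w.re} with hUdef
  have hU : IsOpen U := isOpen_lt continuous_const Complex.continuous_re
  let f : ℂ → (Fin (k + 1) → EV v) → ℂ := fun w x =>
    (∏ i, (V (x i) : ℂ)) * (cyc (Gr v (I * w ^ (1 / 2 : ℂ))) x - cyc (Sg v (I * w ^ (1 / 2 : ℂ))) x)
  have hsq : DifferentiableOn ℂ (fun w : ℂ => I * w ^ (1 / 2 : ℂ)) U := by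
    intro w hw
    refine (DifferentiableAt.const_mul ?_ _).differentiableWithinAt
    exact differentiableAt_id.cpow_const (Or.inl hw)
  have hf : ∀ x, DifferentiableOn ℂ (fun z => f z x) U := by
    intro x
    refine DifferentiableOn.const_mul (DifferentiableOn.sub ?_ ?_) _
    · unfold cyc
      refine DifferentiableOn.fun_finsetProd fun i _ => ?_
      exact ((Gr_differentiable v ‖x i - x (i + 1)‖).differentiableOn (s := Set.univ)).comp hsq
        (fun _ _ => trivial)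
    · unfold cyc
      refine DifferentiableOn.fun_finsetProd fun i _ => ?_
      exact ((Sg_differentiable v ‖x i - x (i + 1)‖).differentiableOn (s := Set.univ)).comp hsq
        (fun _ _ => trivial)
  have hm : ∀ z ∈ U, AEStronglyMeasurable (f z) (volume : Measure (Fin (k + 1) → EV v)) := by
    intro z _
    have h1 : Measurable (fun x : Fin (k + 1) → EV v => ∏ i, (V (x i) : ℂ)) := by
      refine Finset.measurable_prod _ fun i _ => ?_
      exact Complex.measurable_ofReal.comp (hV.comp (measurable_pi_apply i))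
    exact (h1.mul ((bornF_deriv_cyc_measurable v k _ (Gr_measurable v _)).sub
      (bornF_deriv_cyc_measurable v k _ (bornF_deriv_Sg_measurable v _)))).aestronglyMeasurable
  have hbd : ∀ z ∈ U, ∃ δ C : ℝ, 0 < δ ∧ ∀ w ∈ Metric.ball z δ, w ∈ U → ∀ x, ‖f w x‖ ≤ C * g x := by
    intro z _
    refine ⟨1, C * (1 + (2 + ‖z‖)) ^ m, one_pos, fun w hw hwU x => ?_⟩
    have h1 := hCb (I * w ^ (1 / 2 : ℂ)) (by
      have h := bornF_deriv_sqrt_re w hwU
      simp only [neg_zero]
      simpa [Complex.mul_im] using h) x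
    refine h1.trans ?_
    refine mul_le_mul_of_nonneg_right ?_ (hg0 x)
    refine mul_le_mul_of_nonneg_left ?_ hC
    refine pow_le_pow_left₀ (by positivity) ?_ m
    have h2 : ‖I * w ^ (1 / 2 : ℂ)‖ ≤ 1 + ‖w‖ := by
      rw [norm_mul, Complex.norm_I, one_mul]
      exact bornF_deriv_sqrt_norm w hwU
    have h3 : ‖w‖ ≤ 1 + ‖z‖ := by
      have h4 : ‖w - z‖ < 1 := by
        rw [← dist_eq_norm]; exact hw
      calc ‖w‖ = ‖(w - z) + z‖ := by rw [sub_add_cancel]
        _ ≤ ‖w - z‖ + ‖z‖ := norm_add_le _ _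
        _ ≤ 1 + ‖z‖ := by linarith
    linarith
  obtain ⟨_, hder⟩ := integral_analytic U hU f hf hm g hgi hbd
  have hsU : (s : ℂ) ∈ U := by
    show 0 < ((s : ℂ)).re
    simpa using hs'
  have h1 : (fun w : ℂ => bornF v k V (I * w ^ (1 / 2 : ℂ)))
      = fun w : ℂ => (1 / ((k : ℂ) + 1)) * ∫ x, f w x := by
    funext w
    rfl
  rw [h1, iteratedDeriv_const_mul_field, hder K (s : ℂ) hsU]
  have h2 : ∫ x, iteratedDeriv K (fun z => f z x) (s : ℂ)
      = ∫ x : Fin (k + 1) → EV v, (((-1) ^ K * ((∏ i, V (x i)) * wK v k K s x) : ℝ) : ℂ) := by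
    refine integral_congr_ae ?_
    filter_upwards [bornF_deriv_null v k hk] with x hx
    show iteratedDeriv K (fun z => (∏ i, (V (x i) : ℂ)) *
      (cyc (Gr v (I * z ^ (1 / 2 : ℂ))) x - cyc (Sg v (I * z ^ (1 / 2 : ℂ))) x)) (s : ℂ) = _
    rw [iteratedDeriv_const_mul_field, cyc_deriv v k K hK s hs' x hx]
    push_cast
    ring
  have h3 : ∫ x : Fin (k + 1) → EV v, (((-1) ^ K * ((∏ i, V (x i)) * wK v k K s x) : ℝ) : ℂ)
      = ((∫ x : Fin (k + 1) → EV v, ((-1) ^ K * ((∏ i, V (x i)) * wK v k K s x)) : ℝ) : ℂ) :=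
    integral_complex_ofReal
  rw [h2, h3, integral_const_mul]
  unfold bornD
  push_cast
  ring

end Pool.Agent.H269
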