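import Pool.Agent.H269.DefsG
import Pool.Agent.H269.GN.G020
import Pool.Agent.H269.GN.G021
import Pool.Agent.H269.GN.G027
import Pool.Agent.H269.GN.G028
import Pool.Agent.H269.GN.G046
import Pool.Agent.H269.GN.G060
import Pool.Agent.H269.R5.J15
import Pool.Agent.H269.R5.J16

/-!
# GN-66 trace of a product of Green operators as an integral over a cycle (MP_f2af60_mp, infinitely many resonances in odd dimension)
-/

set_option autoImplicit false

open MeasureTheory Filter Topology Complex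
open scoped InnerProductSpace ENNReal NNReal

namespace Pool.Agent.H269


section aux3701

variable {E : Type} [MeasurableSpace E] {μ : Measure E} [IsFiniteMeasure μ]

theorem measurable_prodKer_3701 {k m : E → E → ℂ} (hk : Measurable (Function.uncurry k))
    (hm : Measurable (Function.uncurry m)) :
    Measurable (Function.uncurry fun x y => ∫ z, k x z * m z y ∂μ) := by
  have h1 : Measurable (fun p : (E × E) × E => k p.1.1 p.2 * m p.2 p.1.2) := by
    have e1 : Measurable (fun p : (E × E) × E => k p.1.1 p.2) :=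
      hk.comp (measurable_fst.fst.prodMk measurable_snd)
    have e2 : Measurable (fun p : (E × E) × E => m p.2 p.1.2) :=
      hm.comp (measurable_snd.prodMk measurable_fst.snd)
    exact e1.mul e2
  exact (h1.stronglyMeasurable.integral_prod_right' (ν := μ)).measurable

theorem isKer_mul_3701 {k m : E → E → ℂ} (hk : Measurable (Function.uncurry k))
    (hm : Measurable (Function.uncurry m)) {S : ℝ≥0∞} (hS : S ≠ ∞)
    (h1 : ∀ z, ∫⁻ x, ‖k x z‖ₑ ∂μ ≤ S) (h2 : ∀ y, ∫⁻ z, ‖m z y‖ₑ ∂μ ≤ S)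
    {A B : Lp ℂ 2 μ →L[ℂ] Lp ℂ 2 μ} (hA : IsKer μ k A) (hB : IsKer μ m B) :
    IsKer μ (fun x y => ∫ z, k x z * m z y ∂μ) (A * B) := by
  intro f
  have hf : Measurable (f : E → ℂ) := (Lp.stronglyMeasurable f).measurable
  have hfint : Integrable (f : E → ℂ) μ :=
    (Lp.memLp f).integrable (by norm_num)
  have hkz : ∀ z, Measurable (fun x => ‖k x z‖ₑ) := fun z =>
    (hk.comp (measurable_id.prodMk measurable_const)).enorm
  have hkx : ∀ x, Measurable (fun z => k x z) := fun x =>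
    hk.comp (measurable_const.prodMk measurable_id)
  have hmz : ∀ z, Measurable (fun y => m z y) := fun z =>
    hm.comp (measurable_const.prodMk measurable_id)
  have hmy : ∀ y, Measurable (fun z => ‖m z y‖ₑ) := fun y =>
    (hm.comp (measurable_id.prodMk measurable_const)).enorm
  -- the inner lower integral
  have hgm : Measurable (Function.uncurry fun z y => ‖m z y‖ₑ * ‖f y‖ₑ) :=
    hm.enorm.mul (hf.comp measurable_snd).enorm
  set g : E → ℝ≥0∞ := fun z => ∫⁻ y, ‖m z y‖ₑ * ‖f y‖ₑ ∂μ with hg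
  have hgmeas : Measurable g := hgm.lintegral_prod_right'
  have hgfin : ∫⁻ z, g z ∂μ ≤ S * ∫⁻ y, ‖f y‖ₑ ∂μ := by
    rw [hg, lintegral_lintegral_swap hgm.aemeasurable]
    calc ∫⁻ y, ∫⁻ z, ‖m z y‖ₑ * ‖f y‖ₑ ∂μ ∂μ = ∫⁻ y, (∫⁻ z, ‖m z y‖ₑ ∂μ) * ‖f y‖ₑ ∂μ := by
          refine lintegral_congr fun y => ?_
          rw [lintegral_mul_const _ (hmy y)]
      _ ≤ ∫⁻ y, S * ‖f y‖ₑ ∂μ := lintegral_mono fun y => by gcongr; exact h2 y
      _ = S * ∫⁻ y, ‖f y‖ₑ ∂μ := lintegral_const_mul _ hf.enorm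
  have hkg : Measurable (Function.uncurry fun x z => ‖k x z‖ₑ * g z) :=
    hk.enorm.mul (hgmeas.comp measurable_snd)
  have htot : ∫⁻ x, ∫⁻ z, ‖k x z‖ₑ * g z ∂μ ∂μ ≠ ∞ := by
    rw [lintegral_lintegral_swap hkg.aemeasurable]
    refine ne_top_of_le_ne_top (b := S * (S * ∫⁻ y, ‖f y‖ₑ ∂μ)) ?_ ?_
    · refine ENNReal.mul_ne_top hS (ENNReal.mul_ne_top hS ?_)
      exact hfint.hasFiniteIntegral.ne
    · calc ∫⁻ z, ∫⁻ x, ‖k x z‖ₑ * g z ∂μ ∂μ = ∫⁻ z, (∫⁻ x, ‖k x z‖ₑ ∂μ) * g z ∂μ := by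
            refine lintegral_congr fun z => ?_
            rw [lintegral_mul_const _ (hkz z)]
        _ ≤ ∫⁻ z, S * g z ∂μ := lintegral_mono fun z => by gcongr; exact h1 z
        _ = S * ∫⁻ z, g z ∂μ := lintegral_const_mul _ hgmeas
        _ ≤ _ := by gcongr
  have hae : ∀ᵐ x ∂μ, ∫⁻ z, ‖k x z‖ₑ * g z ∂μ < ∞ :=
    ae_lt_top hkg.lintegral_prod_right' htot
  have hint : ∀ᵐ x ∂μ, Integrable
      (Function.uncurry fun z y => k x z * m z y * f y) (μ.prod μ) := by
    filter_upwards [hae] with x hx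
    have hmeas : Measurable (Function.uncurry fun z y => k x z * m z y * f y) :=
      (((hkx x).comp measurable_fst).mul hm).mul (hf.comp measurable_snd)
    refine ⟨hmeas.aestronglyMeasurable, ?_⟩
    unfold HasFiniteIntegral
    rw [lintegral_prod _ hmeas.enorm.aemeasurable]
    refine lt_of_le_of_lt (le_of_eq ?_) hx
    refine lintegral_congr fun z => ?_
    rw [hg]
    simp only [Function.uncurry_apply_pair]
    have hmf : Measurable (fun y => ‖m z y‖ₑ * ‖f y‖ₑ) := ((hmz z).enorm).mul hf.enorm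
    rw [← lintegral_const_mul _ hmf]
    refine lintegral_congr fun y => ?_
    rw [enorm_mul, enorm_mul, mul_assoc]
  have hB2 := (hB f).2
  have hA2 := (hA (B f)).2
  constructor
  · filter_upwards [hint] with x hx
    refine hx.integral_prod_right.congr ?_
    refine Eventually.of_forall fun y => ?_
    simp only [Function.uncurry_apply_pair]
    rw [integral_mul_const]
  · change (A (B f) : E → ℂ) =ᵐ[μ] _
    filter_upwards [hA2, hint] with x hx hx'
    rw [hx]
    calc ∫ z, k x z * (B f : E → ℂ) z ∂μ = ∫ z, ∫ y, k x z * m z y * f y ∂μ ∂μ := by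
          refine integral_congr_ae ?_
          filter_upwards [hB2] with z hz
          rw [hz, ← integral_const_mul]
          refine integral_congr_ae (Eventually.of_forall fun y => ?_)
          simp only
          rw [mul_assoc]
      _ = ∫ y, ∫ z, k x z * m z y * f y ∂μ ∂μ := integral_integral_swap hx'
      _ = _ := by
          refine integral_congr_ae (Eventually.of_forall fun y => ?_)
          simp only
          rw [integral_mul_const]


/-- iterated kernel -/
noncomputable def kap3701 (μ : Measure E) (t : ℕ → E → E → ℂ) : ℕ → E → E → ℂ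
  | 0 => t 0
  | j + 1 => fun x y => ∫ z, kap3701 μ t j x z * t (j + 1) z y ∂μ

theorem kap_meas_3701 {t : ℕ → E → E → ℂ} (hm : ∀ j, Measurable (Function.uncurry (t j))) :
    ∀ j, Measurable (Function.uncurry (kap3701 μ t j))
  | 0 => hm 0
  | j + 1 => measurable_prodKer_3701 (kap_meas_3701 hm j) (hm (j + 1))

theorem kap_row_3701 {t : ℕ → E → E → ℂ} (hm : ∀ j, Measurable (Function.uncurry (t j)))
    {S : ℝ≥0∞} (hrow : ∀ j x, ∫⁻ y, ‖t j x y‖ₑ ∂μ ≤ S) :
    ∀ j x, ∫⁻ y, ‖kap3701 μ t j x y‖ₑ ∂μ ≤ S ^ (j + 1)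
  | 0, x => by simpa [kap3701] using hrow 0 x
  | j + 1, x => by
    have hk := kap_meas_3701 (μ := μ) hm j
    have hkx : Measurable (fun z => ‖kap3701 μ t j x z‖ₑ) :=
      (hk.comp (measurable_const.prodMk measurable_id)).enorm
    have hm2 : Measurable (Function.uncurry fun y z => ‖kap3701 μ t j x z‖ₑ * ‖t (j + 1) z y‖ₑ) :=
      (hkx.comp measurable_snd).mul
        (((hm (j + 1)).comp (measurable_snd.prodMk measurable_fst)).enorm)
    have hty : ∀ z, Measurable (fun y => ‖t (j + 1) z y‖ₑ) := fun z =>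
      ((hm (j + 1)).comp (measurable_const.prodMk measurable_id)).enorm
    calc ∫⁻ y, ‖kap3701 μ t (j + 1) x y‖ₑ ∂μ
        ≤ ∫⁻ y, ∫⁻ z, ‖kap3701 μ t j x z‖ₑ * ‖t (j + 1) z y‖ₑ ∂μ ∂μ := by
          refine lintegral_mono fun y => ?_
          refine (enorm_integral_le_lintegral_enorm _).trans (le_of_eq ?_)
          refine lintegral_congr fun z => ?_
          rw [enorm_mul]
      _ = ∫⁻ z, ∫⁻ y, ‖kap3701 μ t j x z‖ₑ * ‖t (j + 1) z y‖ₑ ∂μ ∂μ :=
          lintegral_lintegral_swap hm2.aemeasurable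
      _ = ∫⁻ z, ‖kap3701 μ t j x z‖ₑ * ∫⁻ y, ‖t (j + 1) z y‖ₑ ∂μ ∂μ := by
          refine lintegral_congr fun z => ?_
          rw [lintegral_const_mul _ (hty z)]
      _ ≤ ∫⁻ z, ‖kap3701 μ t j x z‖ₑ * S ∂μ := lintegral_mono fun z => by
          gcongr; exact hrow (j + 1) z
      _ = (∫⁻ z, ‖kap3701 μ t j x z‖ₑ ∂μ) * S := lintegral_mul_const _ hkx
      _ ≤ S ^ (j + 1) * S := by gcongr; exact kap_row_3701 hm hrow j x
      _ = S ^ (j + 1 + 1) := by rw [pow_succ S (j + 1)]

theorem kap_col_3701 {t : ℕ → E → E → ℂ} (hm : ∀ j, Measurable (Function.uncurry (t j)))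
    {S : ℝ≥0∞} (hcol : ∀ j y, ∫⁻ x, ‖t j x y‖ₑ ∂μ ≤ S) :
    ∀ j y, ∫⁻ x, ‖kap3701 μ t j x y‖ₑ ∂μ ≤ S ^ (j + 1)
  | 0, y => by simpa [kap3701] using hcol 0 y
  | j + 1, y => by
    have hk := kap_meas_3701 (μ := μ) hm j
    have hkz : ∀ z, Measurable (fun x => ‖kap3701 μ t j x z‖ₑ) := fun z =>
      (hk.comp (measurable_id.prodMk measurable_const)).enorm
    have hm2 : Measurable (Function.uncurry fun x z => ‖kap3701 μ t j x z‖ₑ * ‖t (j + 1) z y‖ₑ) :=
      hk.enorm.mul
        (((hm (j + 1)).comp (measurable_snd.prodMk measurable_const)).enorm)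
    have hty : Measurable (fun z => ‖t (j + 1) z y‖ₑ) :=
      ((hm (j + 1)).comp (measurable_id.prodMk measurable_const)).enorm
    calc ∫⁻ x, ‖kap3701 μ t (j + 1) x y‖ₑ ∂μ
        ≤ ∫⁻ x, ∫⁻ z, ‖kap3701 μ t j x z‖ₑ * ‖t (j + 1) z y‖ₑ ∂μ ∂μ := by
          refine lintegral_mono fun x => ?_
          refine (enorm_integral_le_lintegral_enorm _).trans (le_of_eq ?_)
          refine lintegral_congr fun z => ?_
          rw [enorm_mul]
      _ = ∫⁻ z, ∫⁻ x, ‖kap3701 μ t j x z‖ₑ * ‖t (j + 1) z y‖ₑ ∂μ ∂μ :=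
          lintegral_lintegral_swap hm2.aemeasurable
      _ = ∫⁻ z, (∫⁻ x, ‖kap3701 μ t j x z‖ₑ ∂μ) * ‖t (j + 1) z y‖ₑ ∂μ := by
          refine lintegral_congr fun z => ?_
          rw [lintegral_mul_const _ (hkz z)]
      _ ≤ ∫⁻ z, S ^ (j + 1) * ‖t (j + 1) z y‖ₑ ∂μ := lintegral_mono fun z => by
          gcongr; exact kap_col_3701 hm hcol j z
      _ = S ^ (j + 1) * (∫⁻ z, ‖t (j + 1) z y‖ₑ ∂μ) := lintegral_const_mul _ hty
      _ ≤ S ^ (j + 1) * S := by gcongr; exact hcol (j + 1) y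
      _ = S ^ (j + 1 + 1) := by rw [pow_succ S (j + 1)]

/-- product of operators -/
noncomputable def ops3701 (T : ℕ → Lp ℂ 2 μ →L[ℂ] Lp ℂ 2 μ) : ℕ → Lp ℂ 2 μ →L[ℂ] Lp ℂ 2 μ
  | 0 => T 0
  | j + 1 => ops3701 T j * T (j + 1)

theorem kap_isKer_3701 {t : ℕ → E → E → ℂ} (hm : ∀ j, Measurable (Function.uncurry (t j)))
    {S : ℝ≥0∞} (hS : S ≠ ∞) (hcol : ∀ j y, ∫⁻ x, ‖t j x y‖ₑ ∂μ ≤ S)
    {T : ℕ → Lp ℂ 2 μ →L[ℂ] Lp ℂ 2 μ} (hT : ∀ j, IsKer μ (t j) (T j)) :
    ∀ j, IsKer μ (kap3701 μ t j) (ops3701 T j)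
  | 0 => hT 0
  | j + 1 => by
    refine isKer_mul_3701 (S := max (S ^ (j + 1)) S) (kap_meas_3701 hm j) (hm (j + 1)) ?_ ?_ ?_
      (kap_isKer_3701 hm hS hcol hT j) (hT (j + 1))
    · exact (max_lt (ENNReal.pow_lt_top hS.lt_top) hS.lt_top).ne
    · intro z
      exact (kap_col_3701 hm hcol j z).trans (le_max_left _ _)
    · intro y
      exact (hcol (j + 1) y).trans (le_max_right _ _)

theorem kap_integrable_3701 {t : ℕ → E → E → ℂ} (hm : ∀ j, Measurable (Function.uncurry (t j)))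
    {S : ℝ≥0∞} (hS : S ≠ ∞) (hrow : ∀ j x, ∫⁻ y, ‖t j x y‖ₑ ∂μ ≤ S) (j : ℕ) :
    Integrable (Function.uncurry (kap3701 μ t j)) (μ.prod μ) := by
  have hk := kap_meas_3701 (μ := μ) hm j
  refine ⟨hk.aestronglyMeasurable, ?_⟩
  unfold HasFiniteIntegral
  rw [lintegral_prod _ hk.enorm.aemeasurable]
  refine lt_of_le_of_lt (lintegral_mono fun x => kap_row_3701 hm hrow j x) ?_
  rw [lintegral_const]
  exact ENNReal.mul_lt_top (ENNReal.pow_lt_top hS.lt_top) (measure_lt_top _ _)

/-- peeling off the last coordinate, lower integrals -/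
theorem peel_lintegral_3701 (n : ℕ) (F : (Fin (n + 1) → E) → ℝ≥0∞) (hF : Measurable F) :
    ∫⁻ X, F X ∂(Measure.pi fun _ => μ) =
      ∫⁻ x : Fin n → E, ∫⁻ y, F (Fin.snoc (α := fun _ => E) x y) ∂μ ∂(Measure.pi fun _ => μ) := by
  have h := (measurePreserving_piFinSuccAbove (fun _ : Fin (n + 1) => μ) (Fin.last n))
  have h2 := (h.symm).lintegral_comp_emb (MeasurableEquiv.measurableEmbedding _) F
  rw [← h2]
  have h4 : Measurable (fun a : E × (Fin n → E) =>
      F ((MeasurableEquiv.piFinSuccAbove (fun _ => E) (Fin.last n)).symm a)) :=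
    hF.comp (MeasurableEquiv.measurable _)
  refine (lintegral_prod_symm' _ h4).trans ?_
  refine lintegral_congr fun x => lintegral_congr fun y => ?_
  congr 1
  rw [← Fin.insertNth_last']
  rfl

theorem peel_integral_3701 (n : ℕ) (F : (Fin (n + 1) → E) → ℂ)
    (hF : Integrable F (Measure.pi fun _ => μ)) :
    ∫ X, F X ∂(Measure.pi fun _ => μ) =
      ∫ x : Fin n → E, ∫ y, F (Fin.snoc (α := fun _ => E) x y) ∂μ ∂(Measure.pi fun _ => μ) := by
  have h := (measurePreserving_piFinSuccAbove (fun _ : Fin (n + 1) => μ) (Fin.last n))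
  have h2 := (h.symm).integral_comp' F
  have h3 := ((h.symm).integrable_comp_emb (MeasurableEquiv.measurableEmbedding _)).mpr hF
  rw [← h2]
  have h4 : Integrable (fun a : E × (Fin n → E) =>
      F ((MeasurableEquiv.piFinSuccAbove (fun _ => E) (Fin.last n)).symm a))
      (μ.prod (Measure.pi fun _ : Fin n => μ)) := h3
  refine (integral_prod_symm _ h4).trans ?_
  refine integral_congr_ae (Eventually.of_forall fun x => ?_)
  refine integral_congr_ae (Eventually.of_forall fun y => ?_)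
  simp only
  congr 1
  rw [← Fin.insertNth_last']
  rfl

/-- the path product -/
noncomputable def pth3701 (t : ℕ → E → E → ℂ) (n : ℕ) (X : Fin (n + 1) → E) : ℂ :=
  ∏ i : Fin n, t i (X i.castSucc) (X i.succ)

omit [MeasurableSpace E] in
theorem pth_snoc_3701 (t : ℕ → E → E → ℂ) (n : ℕ) (x : Fin (n + 1) → E) (y : E) :
    pth3701 t (n + 1) (Fin.snoc (α := fun _ => E) x y) =
      pth3701 t n x * t n (x (Fin.last n)) y := by
  unfold pth3701
  rw [Fin.prod_univ_castSucc]
  congr 1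
  · refine Finset.prod_congr rfl fun i _ => ?_
    rw [Fin.snoc_castSucc, Fin.succ_castSucc, Fin.snoc_castSucc]
    rfl
  · rw [Fin.snoc_castSucc, Fin.succ_last, Fin.snoc_last]
    rfl

theorem pth_meas_3701 {t : ℕ → E → E → ℂ} (hm : ∀ j, Measurable (Function.uncurry (t j)))
    (n : ℕ) : Measurable (pth3701 (E := E) t n) := by
  unfold pth3701
  refine Finset.measurable_prod _ fun i _ => ?_
  have h1 : Measurable (fun X : Fin (n + 1) → E => (X i.castSucc, X i.succ)) :=
    (measurable_pi_apply _).prodMk (measurable_pi_apply _)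
  exact (hm i).comp h1

theorem pth_lint_3701 {t : ℕ → E → E → ℂ} (hm : ∀ j, Measurable (Function.uncurry (t j)))
    {S : ℝ≥0∞} (hrow : ∀ j x, ∫⁻ y, ‖t j x y‖ₑ ∂μ ≤ S) (n : ℕ) :
    ∫⁻ X, ‖pth3701 (E := E) t n X‖ₑ ∂(Measure.pi fun _ => μ) ≤ S ^ n * μ Set.univ := by
  induction n with
  | zero =>
    simp [pth3701, Measure.pi_univ]
  | succ n ih =>
    rw [peel_lintegral_3701 _ _ (pth_meas_3701 hm _).enorm]
    have hp := (pth_meas_3701 hm n).enorm
    calc ∫⁻ x : Fin (n + 1) → E, ∫⁻ y, ‖pth3701 t (n + 1) (Fin.snoc (α := fun _ => E) x y)‖ₑ ∂μ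
          ∂(Measure.pi fun _ => μ)
        = ∫⁻ x : Fin (n + 1) → E, ‖pth3701 t n x‖ₑ * ∫⁻ y, ‖t n (x (Fin.last n)) y‖ₑ ∂μ
          ∂(Measure.pi fun _ => μ) := by
          refine lintegral_congr fun x => ?_
          rw [← lintegral_const_mul]
          · refine lintegral_congr fun y => ?_
            rw [pth_snoc_3701, enorm_mul]
          · exact ((hm n).comp (measurable_const.prodMk measurable_id)).enorm
      _ ≤ ∫⁻ x : Fin (n + 1) → E, ‖pth3701 t n x‖ₑ * S ∂(Measure.pi fun _ => μ) :=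
          lintegral_mono fun x => by gcongr; exact hrow n _
      _ = (∫⁻ x : Fin (n + 1) → E, ‖pth3701 t n x‖ₑ ∂(Measure.pi fun _ => μ)) * S :=
          lintegral_mul_const _ hp
      _ ≤ (S ^ n * μ Set.univ) * S := by gcongr
      _ = S ^ (n + 1) * μ Set.univ := by ring

theorem pth_int_3701 {t : ℕ → E → E → ℂ} (hm : ∀ j, Measurable (Function.uncurry (t j)))
    {S : ℝ≥0∞} (hS : S ≠ ∞) (hrow : ∀ j x, ∫⁻ y, ‖t j x y‖ₑ ∂μ ≤ S) (n : ℕ)
    {φ : E → E → ℂ} (hφ : Measurable (Function.uncurry φ)) {c : ℝ≥0∞} (hc : c ≠ ∞)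
    (hb : ∀ x y, ‖φ x y‖ₑ ≤ c) :
    Integrable (fun X : Fin (n + 1) → E => pth3701 t n X * φ (X 0) (X (Fin.last n)))
      (Measure.pi fun _ => μ) := by
  have hp := pth_meas_3701 hm n
  have hpair : Measurable (fun X : Fin (n + 1) → E => (X 0, X (Fin.last n))) :=
    (measurable_pi_apply _).prodMk (measurable_pi_apply _)
  have hφ2 : Measurable (fun X : Fin (n + 1) → E => φ (X 0) (X (Fin.last n))) :=
    hφ.comp hpair
  refine ⟨(hp.mul hφ2).aestronglyMeasurable, ?_⟩
  unfold HasFiniteIntegral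
  calc ∫⁻ X : Fin (n + 1) → E, ‖pth3701 t n X * φ (X 0) (X (Fin.last n))‖ₑ
        ∂(Measure.pi fun _ => μ)
      ≤ ∫⁻ X : Fin (n + 1) → E, ‖pth3701 t n X‖ₑ * c ∂(Measure.pi fun _ => μ) := by
        refine lintegral_mono fun X => ?_
        rw [enorm_mul]
        gcongr
        exact hb _ _
    _ = (∫⁻ X : Fin (n + 1) → E, ‖pth3701 t n X‖ₑ ∂(Measure.pi fun _ => μ)) * c :=
        lintegral_mul_const _ hp.enorm
    _ ≤ (S ^ n * μ Set.univ) * c := by gcongr; exact pth_lint_3701 hm hrow n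
    _ < ∞ := ENNReal.mul_lt_top (ENNReal.mul_lt_top (ENNReal.pow_lt_top hS.lt_top)
        (measure_lt_top _ _)) hc.lt_top

theorem kap_path_3701 {t : ℕ → E → E → ℂ} (hm : ∀ j, Measurable (Function.uncurry (t j)))
    {S : ℝ≥0∞} (hS : S ≠ ∞) (hrow : ∀ j x, ∫⁻ y, ‖t j x y‖ₑ ∂μ ≤ S) (j : ℕ) :
    ∀ {φ : E → E → ℂ}, Measurable (Function.uncurry φ) → ∀ {c : ℝ≥0∞}, c ≠ ∞ →
    (∀ x y, ‖φ x y‖ₑ ≤ c) →
    ∫ x, ∫ y, kap3701 μ t j x y * φ x y ∂μ ∂μ =
      ∫ X : Fin (j + 2) → E, pth3701 t (j + 1) X * φ (X 0) (X (Fin.last (j + 1)))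
        ∂(Measure.pi fun _ => μ) := by
  induction j with
  | zero =>
    intro φ hφ c hc hb
    have hI := pth_int_3701 (n := 1) hm hS hrow hφ hc hb
    have hmp := measurePreserving_finTwoArrow μ
    have e1 := (hmp.symm).integral_comp'
      (fun X : Fin (0 + 2) → E => pth3701 t (0 + 1) X * φ (X 0) (X (Fin.last (0 + 1))))
    have e2 := ((hmp.symm).integrable_comp_emb (MeasurableEquiv.measurableEmbedding _)).mpr hI
    refine Eq.trans ?_ e1
    refine Eq.trans ?_ (integral_prod _ e2).symm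
    refine integral_congr_ae (Eventually.of_forall fun x => ?_)
    refine integral_congr_ae (Eventually.of_forall fun y => ?_)
    simp [pth3701, kap3701, MeasurableEquiv.finTwoArrow]
  | succ j ih =>
    intro φ hφ c hc hb
    have hk := kap_meas_3701 (μ := μ) hm j
    have hkx : ∀ x, Measurable (fun z => kap3701 μ t j x z) := fun x =>
      hk.comp (measurable_const.prodMk measurable_id)
    have hφx : ∀ x, Measurable (fun y => φ x y) := fun x =>
      hφ.comp (measurable_const.prodMk measurable_id)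
    have htz : ∀ z, Measurable (fun y => t (j + 1) z y) := fun z =>
      (hm (j + 1)).comp (measurable_const.prodMk measurable_id)
    set ψ : E → E → ℂ := fun x z => ∫ y, t (j + 1) z y * φ x y ∂μ with hψ
    have hψm : Measurable (Function.uncurry ψ) := by
      have h1 : Measurable (fun p : (E × E) × E => t (j + 1) p.1.2 p.2 * φ p.1.1 p.2) := by
        have e1 : Measurable (fun p : (E × E) × E => t (j + 1) p.1.2 p.2) :=
          (hm (j + 1)).comp (measurable_fst.snd.prodMk measurable_snd)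
        have e2 : Measurable (fun p : (E × E) × E => φ p.1.1 p.2) :=
          hφ.comp (measurable_fst.fst.prodMk measurable_snd)
        exact e1.mul e2
      exact (h1.stronglyMeasurable.integral_prod_right' (ν := μ)).measurable
    have hψb : ∀ x z, ‖ψ x z‖ₑ ≤ S * c := by
      intro x z
      refine (enorm_integral_le_lintegral_enorm _).trans ?_
      calc ∫⁻ y, ‖t (j + 1) z y * φ x y‖ₑ ∂μ ≤ ∫⁻ y, ‖t (j + 1) z y‖ₑ * c ∂μ := by
            refine lintegral_mono fun y => ?_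
            rw [enorm_mul]
            gcongr
            exact hb _ _
        _ = (∫⁻ y, ‖t (j + 1) z y‖ₑ ∂μ) * c := lintegral_mul_const _ (htz z).enorm
        _ ≤ S * c := by gcongr; exact hrow _ _
    have hstep := ih hψm (ENNReal.mul_ne_top hS hc) hψb
    have hI := pth_int_3701 (n := j + 2) hm hS hrow hφ hc hb
    rw [peel_integral_3701 (j + 2) _ hI]
    have e1 : ∀ x, ∫ y, kap3701 μ t (j + 1) x y * φ x y ∂μ =
        ∫ z, kap3701 μ t j x z * ψ x z ∂μ := by
      intro x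
      have hmeas : Measurable (Function.uncurry fun y z =>
          kap3701 μ t j x z * t (j + 1) z y * φ x y) :=
        (((hkx x).comp measurable_snd).mul ((hm (j + 1)).comp
          (measurable_snd.prodMk measurable_fst))).mul ((hφx x).comp measurable_fst)
      have hint : Integrable (Function.uncurry fun y z =>
          kap3701 μ t j x z * t (j + 1) z y * φ x y) (μ.prod μ) := by
        refine ⟨hmeas.aestronglyMeasurable, ?_⟩
        unfold HasFiniteIntegral
        rw [lintegral_prod_symm' _ hmeas.enorm]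
        calc ∫⁻ z, ∫⁻ y, ‖Function.uncurry (fun y z =>
              kap3701 μ t j x z * t (j + 1) z y * φ x y) (y, z)‖ₑ ∂μ ∂μ
            ≤ ∫⁻ z, ‖kap3701 μ t j x z‖ₑ * (S * c) ∂μ := by
              refine lintegral_mono fun z => ?_
              simp only [Function.uncurry_apply_pair]
              calc ∫⁻ y, ‖kap3701 μ t j x z * t (j + 1) z y * φ x y‖ₑ ∂μ
                  ≤ ∫⁻ y, ‖kap3701 μ t j x z‖ₑ * (‖t (j + 1) z y‖ₑ * c) ∂μ := by
                    refine lintegral_mono fun y => ?_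
                    rw [enorm_mul, enorm_mul, mul_assoc]
                    gcongr
                    exact hb _ _
                _ = ‖kap3701 μ t j x z‖ₑ * ((∫⁻ y, ‖t (j + 1) z y‖ₑ ∂μ) * c) := by
                    rw [lintegral_const_mul _ ((htz z).enorm.mul_const _),
                      lintegral_mul_const _ (htz z).enorm]
                _ ≤ ‖kap3701 μ t j x z‖ₑ * (S * c) := by gcongr; exact hrow _ _
          _ = (∫⁻ z, ‖kap3701 μ t j x z‖ₑ ∂μ) * (S * c) :=
              lintegral_mul_const _ (hkx x).enorm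
          _ ≤ S ^ (j + 1) * (S * c) := by gcongr; exact kap_row_3701 hm hrow j x
          _ < ∞ := ENNReal.mul_lt_top (ENNReal.pow_lt_top hS.lt_top)
              (ENNReal.mul_lt_top hS.lt_top hc.lt_top)
      calc ∫ y, kap3701 μ t (j + 1) x y * φ x y ∂μ
          = ∫ y, ∫ z, kap3701 μ t j x z * t (j + 1) z y * φ x y ∂μ ∂μ := by
            refine integral_congr_ae (Eventually.of_forall fun y => ?_)
            simp only [kap3701]
            rw [integral_mul_const]
        _ = ∫ z, ∫ y, kap3701 μ t j x z * t (j + 1) z y * φ x y ∂μ ∂μ :=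
            integral_integral_swap hint
        _ = _ := by
            refine integral_congr_ae (Eventually.of_forall fun z => ?_)
            simp only [hψ]
            rw [← integral_const_mul]
            refine integral_congr_ae (Eventually.of_forall fun y => ?_)
            simp only
            rw [mul_assoc]
    calc ∫ x, ∫ y, kap3701 μ t (j + 1) x y * φ x y ∂μ ∂μ
        = ∫ x, ∫ z, kap3701 μ t j x z * ψ x z ∂μ ∂μ := by
          refine integral_congr_ae (Eventually.of_forall fun x => ?_)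
          exact e1 x
      _ = _ := hstep
      _ = _ := by
          refine integral_congr_ae (Eventually.of_forall fun X => ?_)
          simp only [hψ]
          rw [← integral_const_mul]
          refine integral_congr_ae (Eventually.of_forall fun y => ?_)
          simp only
          rw [pth_snoc_3701, Fin.snoc_last]
          have h0 : (Fin.snoc (α := fun _ => E) X y : Fin (j + 2 + 1) → E) 0 = X 0 := by
            have := Fin.snoc_castSucc (α := fun _ => E) y X (0 : Fin (j + 2))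
            exact this
          rw [h0, mul_assoc]

end aux3701

section aux3701b

/-- truncated kernel -/
noncomputable def tk3701 (v : ℕ) (R : ℝ) (V : EV v → ℝ) (g : ℝ → ℂ) (x y : EV v) : ℂ :=
  (Metric.closedBall (0 : EV v) R ×ˢ Metric.closedBall (0 : EV v) R).indicator
    (fun p : EV v × EV v => (V p.1 : ℂ) * g ‖p.1 - p.2‖) (x, y)

/-- truncated test function -/
noncomputable def ph3701 (v : ℕ) (R : ℝ) (V : EV v → ℝ) (g : ℝ → ℂ) (x y : EV v) : ℂ :=
  (Metric.closedBall (0 : EV v) R ×ˢ Metric.closedBall (0 : EV v) R).indicator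
    (fun p : EV v × EV v => (V p.2 : ℂ) * g ‖p.2 - p.1‖) (x, y)

theorem tk_meas_3701 (v : ℕ) (R : ℝ) (V : EV v → ℝ) (hV : Measurable V) (g : ℝ → ℂ)
    (hg : Measurable g) : Measurable (Function.uncurry (tk3701 v R V g)) := by
  have h1 : Measurable (fun p : EV v × EV v => (V p.1 : ℂ) * g ‖p.1 - p.2‖) := by
    have e1 : Measurable (fun p : EV v × EV v => (V p.1 : ℂ)) :=
      Complex.measurable_ofReal.comp (hV.comp measurable_fst)
    have e2 : Measurable (fun p : EV v × EV v => g ‖p.1 - p.2‖) :=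
      hg.comp (measurable_fst.sub measurable_snd).norm
    exact e1.mul e2
  exact h1.indicator (Metric.isClosed_closedBall.measurableSet.prod
    Metric.isClosed_closedBall.measurableSet)

theorem ph_meas_3701 (v : ℕ) (R : ℝ) (V : EV v → ℝ) (hV : Measurable V) (g : ℝ → ℂ)
    (hg : Measurable g) : Measurable (Function.uncurry (ph3701 v R V g)) := by
  have h1 : Measurable (fun p : EV v × EV v => (V p.2 : ℂ) * g ‖p.2 - p.1‖) := by
    have e1 : Measurable (fun p : EV v × EV v => (V p.2 : ℂ)) :=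
      Complex.measurable_ofReal.comp (hV.comp measurable_snd)
    have e2 : Measurable (fun p : EV v × EV v => g ‖p.2 - p.1‖) :=
      hg.comp (measurable_snd.sub measurable_fst).norm
    exact e1.mul e2
  exact h1.indicator (Metric.isClosed_closedBall.measurableSet.prod
    Metric.isClosed_closedBall.measurableSet)

theorem dist_3701 {v : ℕ} {R : ℝ} {x y : EV v} (hx : x ∈ Metric.closedBall (0 : EV v) R)
    (hy : y ∈ Metric.closedBall (0 : EV v) R) : ‖x - y‖ ≤ 2 * R := by
  rw [mem_closedBall_zero_iff] at hx hy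
  calc ‖x - y‖ ≤ ‖x‖ + ‖y‖ := norm_sub_le _ _
    _ ≤ 2 * R := by linarith

/-- the radial majorant -/
noncomputable def G3701 (v : ℕ) (z : EV v) : ℝ≥0∞ :=
  ENNReal.ofReal (Real.exp (-1 * ‖z‖) / ‖z‖ ^ (2 * v + 1))

theorem G_meas_3701 (v : ℕ) : Measurable (G3701 v) := by
  unfold G3701
  fun_prop

theorem tk_le_3701 (v : ℕ) (R M : ℝ) (V : EV v → ℝ) (hM : 0 ≤ M) (hV : ∀ x, |V x| ≤ M)
    (g : ℝ → ℂ) (C : ℝ) (hC : 0 ≤ C)
    (hg : ∀ r, 0 ≤ r → r ≤ 2 * R → ‖g r‖ ≤ C * (Real.exp (-1 * r) / r ^ (2 * v + 1)))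
    (x y : EV v) : ‖tk3701 v R V g x y‖ₑ ≤ ENNReal.ofReal (M * C) * G3701 v (x - y) := by
  unfold tk3701
  by_cases h : (x, y) ∈ Metric.closedBall (0 : EV v) R ×ˢ Metric.closedBall (0 : EV v) R
  · rw [Set.indicator_of_mem h]
    have hd := dist_3701 h.1 h.2
    simp only at hd
    unfold G3701
    rw [← ENNReal.ofReal_mul (by positivity), ← ofReal_norm]
    refine ENNReal.ofReal_le_ofReal ?_
    simp only
    rw [norm_mul, Complex.norm_real, Real.norm_eq_abs, mul_assoc]
    exact mul_le_mul (hV x) (hg _ (norm_nonneg _) hd) (norm_nonneg _) hM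
  · rw [Set.indicator_of_notMem h, enorm_zero]
    exact zero_le

theorem tk_row_3701 (v : ℕ) (R M : ℝ) (V : EV v → ℝ) (hM : 0 ≤ M) (hV : ∀ x, |V x| ≤ M)
    (g : ℝ → ℂ) (C : ℝ) (hC : 0 ≤ C)
    (hg : ∀ r, 0 ≤ r → r ≤ 2 * R → ‖g r‖ ≤ C * (Real.exp (-1 * r) / r ^ (2 * v + 1)))
    (x : EV v) : ∫⁻ y, ‖tk3701 v R V g x y‖ₑ ∂(muV v R) ≤
      ENNReal.ofReal (M * C) * ∫⁻ z, G3701 v z := by
  calc ∫⁻ y, ‖tk3701 v R V g x y‖ₑ ∂(muV v R) ≤ ∫⁻ y, ‖tk3701 v R V g x y‖ₑ :=
        lintegral_mono' Measure.restrict_le_self le_rfl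
    _ ≤ ∫⁻ y, ENNReal.ofReal (M * C) * G3701 v (x - y) :=
        lintegral_mono fun y => tk_le_3701 v R M V hM hV g C hC hg x y
    _ = ENNReal.ofReal (M * C) * ∫⁻ y, G3701 v (x - y) :=
        lintegral_const_mul _ ((G_meas_3701 v).comp (measurable_const.sub measurable_id))
    _ = _ := by rw [lintegral_sub_left_eq_self (fun z => G3701 v z) x]

theorem tk_col_3701 (v : ℕ) (R M : ℝ) (V : EV v → ℝ) (hM : 0 ≤ M) (hV : ∀ x, |V x| ≤ M)
    (g : ℝ → ℂ) (C : ℝ) (hC : 0 ≤ C)
    (hg : ∀ r, 0 ≤ r → r ≤ 2 * R → ‖g r‖ ≤ C * (Real.exp (-1 * r) / r ^ (2 * v + 1)))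
    (y : EV v) : ∫⁻ x, ‖tk3701 v R V g x y‖ₑ ∂(muV v R) ≤
      ENNReal.ofReal (M * C) * ∫⁻ z, G3701 v z := by
  calc ∫⁻ x, ‖tk3701 v R V g x y‖ₑ ∂(muV v R) ≤ ∫⁻ x, ‖tk3701 v R V g x y‖ₑ :=
        lintegral_mono' Measure.restrict_le_self le_rfl
    _ ≤ ∫⁻ x, ENNReal.ofReal (M * C) * G3701 v (x - y) :=
        lintegral_mono fun x => tk_le_3701 v R M V hM hV g C hC hg x y
    _ = ENNReal.ofReal (M * C) * ∫⁻ x, G3701 v (x - y) :=
        lintegral_const_mul _ ((G_meas_3701 v).comp (measurable_id.sub measurable_const))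
    _ = _ := by rw [lintegral_sub_right_eq_self (fun z => G3701 v z) y]

theorem Gr_le_3701 (v : ℕ) (R : ℝ) (hR : 0 < R) (l : ℂ) : ∃ C : ℝ, 0 ≤ C ∧
    ∀ r, 0 ≤ r → r ≤ 2 * R → ‖Gr v l r‖ ≤ C * (Real.exp (-1 * r) / r ^ (2 * v + 1)) := by
  obtain ⟨C, hC, h⟩ := Gr_bound v
  refine ⟨C * (1 + ‖l‖ * (2 * R)) ^ v * Real.exp (‖l‖ * (2 * R)) * Real.exp (2 * R),
    by positivity, ?_⟩
  intro r hr0 hr
  refine (h l r hr0).trans ?_
  have h1 : (1 + ‖l‖ * r) ^ v ≤ (1 + ‖l‖ * (2 * R)) ^ v := by gcongr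
  have h2 : Real.exp (-l.im * r) ≤ Real.exp (‖l‖ * (2 * R)) := by
    apply Real.exp_le_exp.mpr
    have e1 : -l.im ≤ ‖l‖ := (neg_le_abs _).trans (Complex.abs_im_le_norm l)
    calc -l.im * r ≤ ‖l‖ * r := mul_le_mul_of_nonneg_right e1 hr0
      _ ≤ ‖l‖ * (2 * R) := mul_le_mul_of_nonneg_left hr (norm_nonneg _)
  have h3 : 1 ≤ Real.exp (2 * R) * Real.exp (-1 * r) := by
    rw [← Real.exp_add]
    apply Real.one_le_exp
    linarith
  rw [← mul_div_assoc]
  have hp : 0 ≤ r ^ (2 * v + 1) := by positivity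
  apply div_le_div_of_nonneg_right _ hp
  calc C * (1 + ‖l‖ * r) ^ v * Real.exp (-l.im * r)
      ≤ C * (1 + ‖l‖ * (2 * R)) ^ v * Real.exp (‖l‖ * (2 * R)) := by gcongr
    _ = C * (1 + ‖l‖ * (2 * R)) ^ v * Real.exp (‖l‖ * (2 * R)) * 1 := by ring
    _ ≤ C * (1 + ‖l‖ * (2 * R)) ^ v * Real.exp (‖l‖ * (2 * R)) *
        (Real.exp (2 * R) * Real.exp (-1 * r)) := by gcongr
    _ = _ := by ring

theorem Gr_zero_3701 (v : ℕ) (l : ℂ) : Gr v l 0 = 0 := by
  unfold Gr
  simp

theorem diff_le_3701 (v : ℕ) (R : ℝ) (l : ℂ) : ∃ C : ℝ, 0 ≤ C ∧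
    ∀ r, 0 ≤ r → r ≤ 2 * R → ‖Gr v (-l) r - Gr v l r‖ ≤ C := by
  have hs := (Jg_summable v l (2 * R)).norm
  refine ⟨∑' j : ℕ, ‖cg v l j * ((2 * R : ℝ) : ℂ) ^ (2 * j)‖, tsum_nonneg fun _ => norm_nonneg _, ?_⟩
  intro r hr0 hr
  rcases eq_or_lt_of_le hr0 with h | h
  · rw [← h, Gr_zero_3701, Gr_zero_3701, sub_zero, norm_zero]
    exact tsum_nonneg fun _ => norm_nonneg _
  · rw [← Jg_eq v l r h]
    unfold Jg
    have hs2 := (Jg_summable v l r).norm
    refine (norm_tsum_le_tsum_norm hs2).trans ?_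
    refine hs2.tsum_le_tsum (fun j => ?_) hs
    rw [norm_mul, norm_mul]
    apply mul_le_mul_of_nonneg_left _ (norm_nonneg _)
    rw [norm_pow, norm_pow, Complex.norm_real, Complex.norm_real, Real.norm_of_nonneg hr0,
      Real.norm_of_nonneg (hr0.trans hr)]
    exact pow_le_pow_left₀ hr0 hr _

end aux3701b

section OSec

variable {v : ℕ} {R M : ℝ} {V : EV v → ℝ} {A T : ℂ → OpV v R}

theorem ops_eq_3701 (T : ℂ → OpV v R) (l : ℂ) (m : ℕ) (j : ℕ) :
    ops3701 (fun i => if i < m then T l else T (-l)) j =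
      T l ^ (min (j + 1) m) * T (-l) ^ (j + 1 - m) := by
  induction j with
  | zero =>
    rcases Nat.eq_zero_or_pos m with h | h
    · subst h; simp [ops3701]
    · have h1 : min 1 m = 1 := by omega
      have h2 : 1 - m = 0 := by omega
      simp [ops3701, h, h1, h2]
  | succ j ih =>
    simp only [ops3701]
    rw [ih]
    by_cases h : j + 1 < m
    · have h1 : min (j + 1) m = j + 1 := by omega
      have h2 : j + 1 - m = 0 := by omega
      have h3 : min (j + 1 + 1) m = j + 1 + 1 := by omega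
      have h4 : j + 1 + 1 - m = 0 := by omega
      rw [if_pos h, h1, h2, h3, h4, pow_zero, mul_one, mul_one, ← pow_succ]
    · have h1 : min (j + 1) m = m := by omega
      have h3 : min (j + 1 + 1) m = m := by omega
      have h4 : j + 1 + 1 - m = (j + 1 - m) + 1 := by omega
      rw [if_neg h, h1, h3, h4, mul_assoc, ← pow_succ]

theorem prod_eq_3701 (V : EV v → ℝ) (l : ℂ) (j a : ℕ)
    (X : Fin (j + 2) → EV v) :
    (∏ i, (V (X i) : ℂ)) * ∏ i : Fin (j + 1 + 1),
      (if i.val < j + 1 - a then Gr v l ‖X i - X (i + 1)‖ else if i.val < j + 1 then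
        Gr v (-l) ‖X i - X (i + 1)‖ else
        Gr v (-l) ‖X i - X (i + 1)‖ - Gr v l ‖X i - X (i + 1)‖) =
    (∏ i : Fin (j + 1), (V (X i.castSucc) : ℂ) * (if i.val < j + 1 - a then Gr v l else
      Gr v (-l)) ‖X i.castSucc - X i.succ‖) * ((V (X (Fin.last (j + 1))) : ℂ) *
      (Gr v (-l) ‖X (Fin.last (j + 1)) - X 0‖ - Gr v l ‖X (Fin.last (j + 1)) - X 0‖)) := by
  rw [← Finset.prod_mul_distrib, Fin.prod_univ_castSucc]
  congr 1
  · refine Finset.prod_congr rfl fun i _ => ?_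
    have h1 : (i.castSucc : Fin (j + 1 + 1)) + 1 = i.succ := Fin.coeSucc_eq_succ
    rw [h1, Fin.val_castSucc]
    have h2 : i.val < j + 1 := i.isLt
    rw [if_pos h2]
    congr 1
    split_ifs <;> rfl
  · have h1 : (Fin.last (j + 1)) + 1 = 0 := Fin.last_add_one _
    have h2 : ¬ ((Fin.last (j + 1)).val < j + 1 - a) := by
      rw [Fin.val_last]; omega
    have h3 : ¬ ((Fin.last (j + 1)).val < j + 1) := by
      rw [Fin.val_last]; omega
    rw [h1, if_neg h2, if_neg h3]

theorem point_3701 (R : ℝ) (V : EV v → ℝ)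
    (supp : ∀ x, x ∉ Metric.closedBall (0 : EV v) R → V x = 0) (g : ℕ → ℝ → ℂ) (h : ℝ → ℂ)
    (n : ℕ) (X : Fin (n + 1) → EV v) :
    (∏ i : Fin n, (V (X i.castSucc) : ℂ) * g i ‖X i.castSucc - X i.succ‖) *
      ((V (X (Fin.last n)) : ℂ) * h ‖X (Fin.last n) - X 0‖) =
    (Set.univ.pi fun _ : Fin (n + 1) => Metric.closedBall (0 : EV v) R).indicator
      (fun X => pth3701 (fun i => tk3701 v R V (g i)) n X *
        ph3701 v R V h (X 0) (X (Fin.last n))) X := by
  by_cases hX : X ∈ Set.univ.pi fun _ : Fin (n + 1) => Metric.closedBall (0 : EV v) R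
  · rw [Set.indicator_of_mem hX]
    have hX' : ∀ i, X i ∈ Metric.closedBall (0 : EV v) R := fun i => hX i (Set.mem_univ i)
    congr 1
    · unfold pth3701
      refine Finset.prod_congr rfl fun i _ => ?_
      simp only [tk3701]
      rw [Set.indicator_of_mem (Set.mk_mem_prod (hX' _) (hX' _))]
    · unfold ph3701
      rw [Set.indicator_of_mem (Set.mk_mem_prod (hX' _) (hX' _))]
  · rw [Set.indicator_of_notMem hX]
    have : ∃ i, X i ∉ Metric.closedBall (0 : EV v) R := by
      by_contra hcon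
      simp only [not_exists, not_not] at hcon
      exact hX fun i _ => hcon i
    obtain ⟨i, hi⟩ := this
    induction i using Fin.lastCases with
    | last => rw [supp _ hi]; simp
    | cast i =>
      have h0 : (∏ i : Fin n, (V (X i.castSucc) : ℂ) * g i ‖X i.castSucc - X i.succ‖) = 0 := by
        refine Finset.prod_eq_zero (Finset.mem_univ i) ?_
        rw [supp _ hi]; simp
      rw [h0, zero_mul]


theorem path_trace (F : FamG v R M V A T) {ι : Type} [Countable ι] [DecidableEq ι]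
    (b : HilbertBasis ι ℂ (Lp ℂ 2 (muV v R))) (l : ℂ) (k a : ℕ) (hk : 1 ≤ k) (ha : a ≤ k) :
    Integrable (fun x : Fin (k + 1) → EV v => (∏ i, (V (x i) : ℂ)) * ∏ i : Fin (k + 1),
      (if i.val < k - a then Gr v l ‖x i - x (i + 1)‖ else if i.val < k then
        Gr v (-l) ‖x i - x (i + 1)‖ else
        Gr v (-l) ‖x i - x (i + 1)‖ - Gr v l ‖x i - x (i + 1)‖)) ∧
    tr b (T l ^ (k - a) * T (-l) ^ a * (T (-l) - T l)) =
      ∫ x : Fin (k + 1) → EV v, (∏ i, (V (x i) : ℂ)) * ∏ i : Fin (k + 1),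
        (if i.val < k - a then Gr v l ‖x i - x (i + 1)‖ else if i.val < k then
          Gr v (-l) ‖x i - x (i + 1)‖ else
          Gr v (-l) ‖x i - x (i + 1)‖ - Gr v l ‖x i - x (i + 1)‖) := by
  obtain ⟨j, rfl⟩ : ∃ j, k = j + 1 := ⟨k - 1, by omega⟩
  have hfinm : IsFiniteMeasure (muV v R) :=
    ⟨by rw [Measure.restrict_apply_univ]; exact measure_closedBall_lt_top⟩
  have hMV : ∀ x, |V x| ≤ M := F.bdd
  obtain ⟨C1, hC1, hb1⟩ := Gr_le_3701 v R F.hR l
  obtain ⟨C2, hC2, hb2⟩ := Gr_le_3701 v R F.hR (-l)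
  obtain ⟨C3, hC3, hb3⟩ := diff_le_3701 v R l
  set C := max C1 C2 with hC
  have hC0 : 0 ≤ C := hC1.trans (le_max_left _ _)
  set g : ℕ → ℝ → ℂ := fun i => if i < j + 1 - a then Gr v l else Gr v (-l) with hg
  have hgm : ∀ i, Measurable (g i) := by
    intro i
    simp only [hg]
    split_ifs
    · exact Gr_measurable v l
    · exact Gr_measurable v (-l)
  have hgb : ∀ i r, 0 ≤ r → r ≤ 2 * R →
      ‖g i r‖ ≤ C * (Real.exp (-1 * r) / r ^ (2 * v + 1)) := by
    intro i r h0 h1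
    have hp : 0 ≤ Real.exp (-1 * r) / r ^ (2 * v + 1) := by positivity
    simp only [hg]
    split_ifs
    · exact (hb1 r h0 h1).trans (mul_le_mul_of_nonneg_right (le_max_left _ _) hp)
    · exact (hb2 r h0 h1).trans (mul_le_mul_of_nonneg_right (le_max_right _ _) hp)
  set t : ℕ → EV v → EV v → ℂ := fun i => tk3701 v R V (g i) with ht
  have htm : ∀ i, Measurable (Function.uncurry (t i)) := fun i =>
    tk_meas_3701 v R V F.meas (g i) (hgm i)
  set S : ℝ≥0∞ := ENNReal.ofReal (M * C) * ∫⁻ z, G3701 v z with hS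
  have hStop : S ≠ ∞ := by
    refine ENNReal.mul_ne_top ENNReal.ofReal_ne_top ?_
    exact (rad_int v (2 * v + 1) (by omega) 1 one_pos).ne
  have hrow : ∀ i x, ∫⁻ y, ‖t i x y‖ₑ ∂(muV v R) ≤ S := fun i x =>
    tk_row_3701 v R M V F.hM hMV (g i) C hC0 (hgb i) x
  have hcol : ∀ i y, ∫⁻ x, ‖t i x y‖ₑ ∂(muV v R) ≤ S := fun i y =>
    tk_col_3701 v R M V F.hM hMV (g i) C hC0 (hgb i) y
  have hae : ∀ᵐ x ∂(muV v R), x ∈ Metric.closedBall (0 : EV v) R :=
    ae_restrict_mem Metric.isClosed_closedBall.measurableSet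
  have hT : ∀ i, IsKer (muV v R) (t i) ((fun i => if i < j + 1 - a then T l else T (-l)) i) := by
    intro i
    have key : ∀ l' : ℂ, IsKer (muV v R) (tk3701 v R V (Gr v l')) (T l') := by
      intro l'
      refine (F.kT l').congr ?_
      filter_upwards [hae] with x hx
      filter_upwards [hae] with y hy
      unfold tk3701
      rw [Set.indicator_of_mem (Set.mk_mem_prod hx hy)]
    simp only [ht, hg]
    split_ifs
    · exact key l
    · exact key (-l)
  have hker := kap_isKer_3701 htm hStop hcol hT j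
  rw [ops_eq_3701] at hker
  have e1 : min (j + 1) (j + 1 - a) = j + 1 - a := by omega
  have e2 : j + 1 - (j + 1 - a) = a := by omega
  rw [e1, e2] at hker
  have htr := (F.tr_J b l).2.2 _ _ (kap_meas_3701 htm j)
    (kap_integrable_3701 htm hStop hrow j) hker
  set h : ℝ → ℂ := fun r => Gr v (-l) r - Gr v l r with hh
  have hhm : Measurable h := (Gr_measurable v (-l)).sub (Gr_measurable v l)
  set φ : EV v → EV v → ℂ := ph3701 v R V h with hφ
  have hφm : Measurable (Function.uncurry φ) := ph_meas_3701 v R V F.meas h hhm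
  have hφb : ∀ x y, ‖φ x y‖ₑ ≤ ENNReal.ofReal (M * C3) := by
    intro x y
    simp only [hφ]
    unfold ph3701
    by_cases hxy : (x, y) ∈ Metric.closedBall (0 : EV v) R ×ˢ Metric.closedBall (0 : EV v) R
    · rw [Set.indicator_of_mem hxy]
      have hd := dist_3701 hxy.2 hxy.1
      simp only at hd
      rw [← ofReal_norm]
      refine ENNReal.ofReal_le_ofReal ?_
      simp only
      rw [norm_mul, Complex.norm_real, Real.norm_eq_abs]
      exact mul_le_mul (hMV y) (hb3 _ (norm_nonneg _) hd) (norm_nonneg _) F.hM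
    · rw [Set.indicator_of_notMem hxy, enorm_zero]
      exact zero_le
  have hpath := kap_path_3701 htm hStop hrow j hφm ENNReal.ofReal_ne_top hφb
  have hpint := pth_int_3701 (n := j + 1) htm hStop hrow hφm ENNReal.ofReal_ne_top hφb
  have hpi : (Measure.pi fun _ : Fin (j + 1 + 1) => muV v R) =
      (volume : Measure (Fin (j + 1 + 1) → EV v)).restrict
        (Set.univ.pi fun _ : Fin (j + 1 + 1) => Metric.closedBall (0 : EV v) R) := by
    rw [volume_pi, Measure.restrict_pi_pi]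
  have hmeasB : MeasurableSet
      (Set.univ.pi fun _ : Fin (j + 1 + 1) => Metric.closedBall (0 : EV v) R) :=
    MeasurableSet.univ_pi fun _ => Metric.isClosed_closedBall.measurableSet
  have hfun : (fun x : Fin (j + 1 + 1) → EV v => (∏ i, (V (x i) : ℂ)) * ∏ i : Fin (j + 1 + 1),
      (if i.val < j + 1 - a then Gr v l ‖x i - x (i + 1)‖ else if i.val < j + 1 then
        Gr v (-l) ‖x i - x (i + 1)‖ else
        Gr v (-l) ‖x i - x (i + 1)‖ - Gr v l ‖x i - x (i + 1)‖)) =
      (Set.univ.pi fun _ : Fin (j + 1 + 1) => Metric.closedBall (0 : EV v) R).indicator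
      (fun X => pth3701 t (j + 1) X * φ (X 0) (X (Fin.last (j + 1)))) := by
    funext X
    rw [prod_eq_3701]
    exact point_3701 R V F.supp g h (j + 1) X
  rw [hfun]
  constructor
  · rw [integrable_indicator_iff hmeasB]
    unfold IntegrableOn
    rw [← hpi]
    exact hpint
  · rw [integral_indicator hmeasB, ← hpi, htr]
    refine Eq.trans ?_ hpath
    refine integral_congr_ae ?_
    filter_upwards [hae] with x hx
    refine integral_congr_ae ?_
    filter_upwards [hae] with y hy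
    simp only [hφ]
    unfold ph3701
    rw [Set.indicator_of_mem (Set.mk_mem_prod hx hy)]

end OSec

end Pool.Agent.H269
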