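import Pool.Agent.H269.DefsG
import Pool.Agent.H269.GN.G001
import Pool.Agent.H269.GN.G002
import Pool.Agent.H269.GN.G003
import Pool.Agent.H269.GN.G020
import Pool.Agent.H269.GN.G025
import Pool.Agent.H269.GN.G046
import Pool.Agent.H269.GN.G062
import Pool.Agent.H269.GN.G066
import Pool.Agent.H269.R5.J16

/-!
# GN-67 reflection formula for the Born terms (MP_f2af60_mp, infinitely many resonances in odd dimension)
-/

set_option autoImplicit false

open MeasureTheory Filter Topology Complex
open scoped InnerProductSpace ENNReal NNReal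

namespace Pool.Agent.H269



section OSec

variable {v : ℕ} {R M : ℝ} {V : EV v → ℝ} {A T : ℂ → OpV v R}

theorem br_op_tele {Rg : Type} [Ring Rg] (X Y : Rg) (n : ℕ) :
    Y ^ (n + 1) - X ^ (n + 1) = ∑ c ∈ Finset.range (n + 1), Y ^ c * (Y - X) * X ^ (n - c) := by
  induction n with
  | zero => simp
  | succ n ih =>
    rw [Finset.sum_range_succ]
    have h1 : ∀ c ∈ Finset.range (n + 1), Y ^ c * (Y - X) * X ^ (n + 1 - c) =
        (Y ^ c * (Y - X) * X ^ (n - c)) * X := by
      intro c hc
      rw [Finset.mem_range] at hc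
      have : n + 1 - c = (n - c) + 1 := by omega
      rw [this, pow_succ X, mul_assoc _ _ X]
    rw [Finset.sum_congr rfl h1, ← Finset.sum_mul, ← ih, Nat.sub_self, pow_zero, mul_one,
      pow_succ Y (n + 1), pow_succ X (n + 1)]
    noncomm_ring

theorem br_tr_sum {ι : Type} [DecidableEq ι] [Countable ι] {H : Type} [NormedAddCommGroup H]
    [InnerProductSpace ℂ H] [CompleteSpace H] {b : HilbertBasis ι ℂ H} (X : ℕ → H →L[ℂ] H)
    (hX : ∀ c, ∃ d, NucLe (X c) d) (n : ℕ) :
    (∃ d, NucLe (∑ c ∈ Finset.range n, X c) d) ∧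
    tr b (∑ c ∈ Finset.range n, X c) = ∑ c ∈ Finset.range n, tr b (X c) := by
  induction n with
  | zero =>
    simp only [Finset.range_zero, Finset.sum_empty]
    exact ⟨⟨0, NucLe.zero⟩, tr_zero⟩
  | succ n ih =>
    obtain ⟨⟨d1, h1⟩, h2⟩ := ih
    obtain ⟨d2, h3⟩ := hX n
    rw [Finset.sum_range_succ, Finset.sum_range_succ]
    exact ⟨⟨d1 + d2, h1.add h3⟩, by rw [tr_add h1 h3, h2]⟩

/-- telescoping of a product over `Fin (k + 1)` -/
theorem br_prod_tele (k : ℕ) (G G' : Fin (k + 1) → ℂ) :
    ∏ i, G' i - ∏ i, G i = ∑ c : Fin (k + 1), ∏ j, (if c < j then G j else if j < c then G' j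
      else G' j - G j) := by
  have h := Finset.prod_add_ordered (Finset.univ : Finset (Fin (k + 1))) G (fun i => G' i - G i)
  have h0 : ∀ i, G i + (G' i - G i) = G' i := fun i => by ring
  simp only [h0] at h
  rw [h, add_sub_cancel_left]
  refine Finset.sum_congr rfl fun c _ => ?_
  have h1 : ∏ j, (if c < j then G j else if j < c then G' j else G' j - G j) =
      ∏ j, ((if j = c then (G' j - G j) else 1) * ((if j < c then G' j else 1) *
        (if c < j then G j else 1))) := by
    refine Finset.prod_congr rfl fun j _ => ?_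
    rcases lt_trichotomy j c with hj | hj | hj
    · rw [if_neg (not_lt.2 hj.le), if_pos hj, if_neg hj.ne, if_pos hj, if_neg (not_lt.2 hj.le)]
      ring
    · subst hj; simp
    · rw [if_pos hj, if_neg hj.ne', if_neg (not_lt.2 hj.le), if_pos hj]
      ring
  rw [h1, Finset.prod_mul_distrib, Finset.prod_mul_distrib, Finset.prod_ite_eq' Finset.univ c,
    if_pos (Finset.mem_univ c), Finset.prod_filter, Finset.prod_filter]
  ring

theorem br_val (k : ℕ) (i c : Fin (k + 1)) :
    (i + (c + 1)).val = if i.val + c.val + 1 < k + 1 then i.val + c.val + 1 else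
      i.val + c.val + 1 - (k + 1) := by
  have h1 : (i + (c + 1)).val = (i.val + c.val + 1) % (k + 1) := by
    rw [Fin.val_add, Fin.val_add, Fin.val_one', Nat.add_mod_mod, ← add_assoc, Nat.add_mod_mod]
  rw [h1]
  have hi := i.isLt
  have hc := c.isLt
  split_ifs with h
  · exact Nat.mod_eq_of_lt h
  · rw [Nat.mod_eq_sub_mod (by omega), Nat.mod_eq_of_lt (by omega)]

theorem bornF_reflect (F : FamG v R M V A T) {ι : Type} [Countable ι] [DecidableEq ι]
    (b : HilbertBasis ι ℂ (Lp ℂ 2 (muV v R))) (l : ℂ) (k : ℕ) (hk : 1 ≤ k) :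
    bornF v k V (-l) - bornF v k V l =
      (1 / ((k : ℂ) + 1)) * tr b (T (-l) ^ (k + 1) - T l ^ (k + 1)) := by
  -- the integrand of the `c`-th term
  let W : Fin (k + 1) → (Fin (k + 1) → EV v) → ℂ := fun c x => (∏ i, (V (x i) : ℂ)) *
    ∏ j : Fin (k + 1), (if c < j then Gr v l ‖x j - x (j + 1)‖ else if j < c then
      Gr v (-l) ‖x j - x (j + 1)‖ else Gr v (-l) ‖x j - x (j + 1)‖ - Gr v l ‖x j - x (j + 1)‖)
  have hW : ∀ c : Fin (k + 1), Integrable (W c) ∧ ∫ x, W c x =
      tr b (T l ^ (k - c.val) * T (-l) ^ c.val * (T (-l) - T l)) := by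
    intro c
    obtain ⟨hI, hE⟩ := path_trace F b l k c.val hk (by have := c.isLt; omega)
    let e : Fin (k + 1) ≃ Fin (k + 1) := Equiv.addRight (c + 1)
    have he : ∀ i, e i = i + (c + 1) := fun i => rfl
    have hmp := volume_measurePreserving_piCongrLeft (fun _ : Fin (k + 1) => EV v) e.symm
    set Φ := MeasurableEquiv.piCongrLeft (fun _ : Fin (k + 1) => EV v) e.symm with hΦ
    have hΦa : ∀ (x : Fin (k + 1) → EV v) (i : Fin (k + 1)), Φ x i = x (e i) := by
      intro x i
      have := MeasurableEquiv.piCongrLeft_apply_apply e.symm (β := fun _ => EV v) x (e i)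
      rw [Equiv.symm_apply_apply] at this
      exact this
    set H : (Fin (k + 1) → EV v) → ℂ := fun x => (∏ i, (V (x i) : ℂ)) * ∏ i : Fin (k + 1),
      (if i.val < k - c.val then Gr v l ‖x i - x (i + 1)‖ else if i.val < k then
        Gr v (-l) ‖x i - x (i + 1)‖ else
        Gr v (-l) ‖x i - x (i + 1)‖ - Gr v l ‖x i - x (i + 1)‖) with hH
    have hcomp : ∀ x, H (Φ x) = W c x := by
      intro x
      simp only [hH, W]
      congr 1
      · rw [← Equiv.prod_comp e (fun i => (V (x i) : ℂ))]
        exact Finset.prod_congr rfl fun i _ => by rw [hΦa]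
      · rw [← Equiv.prod_comp e (fun j => if c < j then Gr v l ‖x j - x (j + 1)‖ else if j < c then
          Gr v (-l) ‖x j - x (j + 1)‖ else
          Gr v (-l) ‖x j - x (j + 1)‖ - Gr v l ‖x j - x (j + 1)‖)]
        refine Finset.prod_congr rfl fun i _ => ?_
        have e1 : e (i + 1) = e i + 1 := by rw [he, he]; abel
        have e2 : Φ x i = x (e i) := hΦa x i
        have e3 : Φ x (i + 1) = x (e i + 1) := by rw [hΦa, e1]
        rw [e2, e3]
        have hv : (e i).val = if i.val + c.val + 1 < k + 1 then i.val + c.val + 1 else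
            i.val + c.val + 1 - (k + 1) := by rw [he]; exact br_val k i c
        have hi := i.isLt
        have hc := c.isLt
        by_cases h1 : i.val < k - c.val
        · have h2 : c < e i := by
            rw [Fin.lt_def, hv, if_pos (by omega)]; omega
          rw [if_pos h1, if_pos h2]
        · by_cases h2 : i.val < k
          · have h3 : e i < c := by
              rw [Fin.lt_def, hv, if_neg (by omega)]; omega
            rw [if_neg h1, if_pos h2, if_neg (not_lt.2 h3.le), if_pos h3]
          · have h3 : e i = c := by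
              apply Fin.ext
              rw [hv, if_neg (by omega)]; omega
            rw [if_neg h1, if_neg h2, h3, if_neg (lt_irrefl _), if_neg (lt_irrefl _)]
    have hcomp' : (fun x => H (Φ x)) = W c := funext hcomp
    constructor
    · rw [← hcomp']
      exact (hmp.integrable_comp_emb Φ.measurableEmbedding).2 hI
    · rw [← hcomp']
      exact (hmp.integral_comp' H).trans hE.symm
  -- the nuclear operators
  obtain ⟨⟨d, hD⟩, -, -⟩ := FamG.tr_J F b l
  have hop : tr b (T (-l) ^ (k + 1) - T l ^ (k + 1)) =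
      ∑ c ∈ Finset.range (k + 1), tr b (T l ^ (k - c) * T (-l) ^ c * (T (-l) - T l)) := by
    rw [br_op_tele]
    have hX : ∀ c, ∃ d, NucLe (T (-l) ^ c * (T (-l) - T l) * T l ^ (k - c)) d := fun c =>
      ⟨_, (hD.left_mul _).right_mul _⟩
    rw [(br_tr_sum (b := b) _ hX (k + 1)).2]
    refine Finset.sum_congr rfl fun c _ => ?_
    rw [mul_assoc (T l ^ (k - c)), tr_mul_comm (hD.left_mul (T (-l) ^ c)) (T l ^ (k - c))]
  have hsumW : ∫ x, ∑ c : Fin (k + 1), W c x = tr b (T (-l) ^ (k + 1) - T l ^ (k + 1)) := by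
    rw [integral_finsetSum _ (fun c _ => (hW c).1), hop, Finset.sum_range]
    exact Finset.sum_congr rfl fun c _ => (hW c).2
  -- the Born terms
  obtain ⟨g, hg, hg0, hdom⟩ := born_dom v k hk R M V F.hR F.hM F.meas F.bdd F.supp
  have hint : ∀ l : ℂ, Integrable (fun x : Fin (k + 1) → EV v =>
      (∏ i, (V (x i) : ℂ)) * (cyc (Gr v l) x - cyc (Sg v l) x)) := by
    intro l
    obtain ⟨C, m, hC, hb⟩ := hdom |l.im| (abs_nonneg _)
    refine Integrable.mono' (hg.const_mul (C * (1 + ‖l‖) ^ m)) ?_ ?_
    · apply Measurable.aestronglyMeasurable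
      have hmV : Measurable (fun x : Fin (k + 1) → EV v => ∏ i, (V (x i) : ℂ)) :=
        Finset.measurable_prod _ fun i _ =>
          Complex.measurable_ofReal.comp (F.meas.comp (measurable_pi_apply i))
      have hnorm : ∀ i : Fin (k + 1), Measurable
          (fun x : Fin (k + 1) → EV v => ‖x i - x (i + 1)‖) := fun i =>
        ((measurable_pi_apply i).sub (measurable_pi_apply (i + 1))).norm
      have hmS : Measurable (fun r : ℝ => Sg v l r) := by
        unfold Sg
        refine Measurable.div ?_ ?_
        · exact Finset.measurable_sum _ fun i _ =>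
            (((measurable_const.mul Complex.measurable_ofReal).neg).pow_const _).const_mul _
        · exact (Complex.measurable_ofReal.pow_const _).const_mul _
      refine hmV.mul (Measurable.sub ?_ ?_)
      · exact Finset.measurable_prod _ fun i _ => (Gr_measurable v l).comp (hnorm i)
      · exact Finset.measurable_prod _ fun i _ => hmS.comp (hnorm i)
    · refine Filter.Eventually.of_forall fun x => ?_
      exact hb l (neg_abs_le _) x
  unfold bornF
  rw [← mul_sub, ← integral_sub (hint (-l)) (hint l), ← hsumW]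
  congr 1
  refine integral_congr_ae (Filter.Eventually.of_forall fun x => ?_)
  have hS : cyc (Sg v (-l)) x = cyc (Sg v l) x := by
    unfold cyc
    exact Finset.prod_congr rfl fun i _ => Sg_even v l _
  have ht := br_prod_tele k (fun j => Gr v l ‖x j - x (j + 1)‖)
    (fun j => Gr v (-l) ‖x j - x (j + 1)‖)
  simp only [W]
  rw [hS, ← Finset.mul_sum, ← ht]
  unfold cyc
  ring

end OSec

end Pool.Agent.H269
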