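import Pool.Agent.H269.DefsG2
import Pool.Agent.H269.GN.G028

/-!
# GN-70 quadratic form of the heat kernel in Fourier variables (MP_f2af60_mp, infinitely many resonances in odd dimension)
-/

set_option autoImplicit false

open MeasureTheory Filter Topology Complex
open scoped InnerProductSpace ENNReal NNReal FourierTransform

namespace Pool.Agent.H269


section quad_heat_aux

open scoped ContDiff SchwartzMap

theorem qh_fourier_toLp_ae {v : ℕ} (h : EV v → ℂ) (h1 : Integrable h) (h2 : MemLp h 2) :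
    (𝓕 (h2.toLp h : Lp (α := EV v) ℂ 2) : Lp (α := EV v) ℂ 2) =ᵐ[volume] 𝓕 h := by
  apply ae_eq_of_integral_contDiff_smul_eq
  · exact (Lp.memLp _).locallyIntegrable (by norm_num)
  · apply Continuous.locallyIntegrable
    exact VectorFourier.fourierIntegral_continuous Real.continuous_fourierChar
      (innerSL ℝ).continuous₂ h1
  · intro g g_smooth g_cpt
    have hg₁ : HasCompactSupport (Complex.ofRealCLM ∘ g) := g_cpt.comp_left rfl
    have hg₂ : ContDiff ℝ ∞ (Complex.ofRealCLM ∘ g) := by fun_prop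
    set G : 𝓢(EV v, ℂ) := hg₁.toSchwartzMap hg₂ with hG
    have e1 : ∫ x, g x • (𝓕 (h2.toLp h : Lp (α := EV v) ℂ 2) : Lp (α := EV v) ℂ 2) x
        = (Lp.toTemperedDistribution
          (𝓕 (h2.toLp h : Lp (α := EV v) ℂ 2) : Lp (α := EV v) ℂ 2)) G := by
      rw [Lp.toTemperedDistribution_apply]
      simp [hG]
    rw [e1, ← Lp.fourier_toTemperedDistribution_eq, TemperedDistribution.fourier_apply,
      Lp.toTemperedDistribution_apply]
    have e2 : ∫ x, (𝓕 G) x • (h2.toLp h : Lp (α := EV v) ℂ 2) x =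
        ∫ x, (𝓕 (G : EV v → ℂ)) x • h x := by
      apply integral_congr_ae
      filter_upwards [h2.coeFn_toLp] with x hx
      rw [hx]
      rfl
    rw [e2]
    have e3 : ∫ x, (𝓕 (G : EV v → ℂ)) x • h x = ∫ x, (G x) • (𝓕 h) x := by
      simpa using! (VectorFourier.integral_fourierIntegral_smul_eq_flip (L := innerₗ (EV v))
        Real.continuous_fourierChar continuous_inner G.integrable h1)
    rw [e3]
    apply integral_congr_ae
    filter_upwards with x
    simp [hG]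

theorem qh_plancherel {v : ℕ} (h : EV v → ℂ) (h1 : Integrable h) (h2 : MemLp h 2) :
    ∫⁻ ξ, ‖𝓕 h ξ‖ₑ ^ 2 = ∫⁻ t, ‖h t‖ₑ ^ 2 := by
  have e1 : ‖(𝓕 (h2.toLp h : Lp (α := EV v) ℂ 2) : Lp (α := EV v) ℂ 2)‖ₑ =
      ‖(h2.toLp h : Lp (α := EV v) ℂ 2)‖ₑ := by
    rw [← ofReal_norm, ← ofReal_norm, Lp.norm_fourier_eq]
  rw [Lp.enorm_def, Lp.enorm_def, eLpNorm_congr_ae (qh_fourier_toLp_ae h h1 h2),
    eLpNorm_congr_ae h2.coeFn_toLp] at e1
  have e2 : ∀ f : EV v → ℂ, eLpNorm f 2 volume = (∫⁻ x, ‖f x‖ₑ ^ 2) ^ (1 / 2 : ℝ) := by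
    intro f
    rw [eLpNorm_eq_lintegral_rpow_enorm_toReal (by norm_num) (by norm_num)]
    simp
  rw [e2, e2] at e1
  exact ENNReal.rpow_left_injective (by norm_num) e1

theorem qh_int {v : ℕ} {R M : ℝ} {V : EV v → ℝ} (P : PotG v R M V) : Integrable V := by
  have hs : Function.support V ⊆ Metric.closedBall (0 : EV v) R := by
    intro x hx
    by_contra h
    exact hx (P.supp x h)
  rw [← integrableOn_iff_integrable_of_support_subset hs]
  refine Measure.integrableOn_of_bounded (M := M) (measure_closedBall_lt_top.ne)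
    P.meas.aestronglyMeasurable ?_
  exact Filter.Eventually.of_forall fun x => by
    rw [Real.norm_eq_abs]
    exact P.bdd x

theorem qh_int_sq {v : ℕ} {R M : ℝ} {V : EV v → ℝ} (P : PotG v R M V) :
    Integrable (fun x => V x ^ 2) := by
  have h := (qh_int P).bdd_mul (c := M) P.meas.aestronglyMeasurable
    (Filter.Eventually.of_forall fun x => by
      rw [Real.norm_eq_abs]
      exact P.bdd x)
  refine h.congr (Filter.Eventually.of_forall fun x => ?_)
  show V x * V x = V x ^ 2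
  ring

theorem qh_intC {v : ℕ} {R M : ℝ} {V : EV v → ℝ} (P : PotG v R M V) :
    Integrable (fun x => (V x : ℂ)) := (qh_int P).ofReal

theorem qh_memLp {v : ℕ} {R M : ℝ} {V : EV v → ℝ} (P : PotG v R M V) :
    MemLp (fun x => (V x : ℂ)) 2 := by
  have h1 : MemLp V 2 := by
    rw [memLp_two_iff_integrable_sq P.meas.aestronglyMeasurable]
    exact qh_int_sq P
  exact h1.ofReal

theorem qh_cont {v : ℕ} {R M : ℝ} {V : EV v → ℝ} (P : PotG v R M V) : Continuous (Vf V) :=
  VectorFourier.fourierIntegral_continuous Real.continuous_fourierChar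
    (innerSL ℝ).continuous₂ (qh_intC P)

theorem qh_lint {v : ℕ} {R M : ℝ} {V : EV v → ℝ} (P : PotG v R M V) :
    ∫⁻ ξ, ENNReal.ofReal (‖Vf V ξ‖ ^ 2) = ∫⁻ x, ENNReal.ofReal (V x ^ 2) := by
  have h := qh_plancherel (fun x => (V x : ℂ)) (qh_intC P) (qh_memLp P)
  have e1 : ∀ z : ℂ, ‖z‖ₑ ^ 2 = ENNReal.ofReal (‖z‖ ^ 2) := by
    intro z
    rw [← ofReal_norm, ENNReal.ofReal_pow (norm_nonneg _)]
  simp only [e1] at h
  refine Eq.trans ?_ (h.trans ?_)
  · rfl
  · refine lintegral_congr fun x => ?_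
    rw [Complex.norm_real, Real.norm_eq_abs, sq_abs]

theorem qh_Vf {v : ℕ} (V : EV v → ℝ) (ξ : EV v) :
    Vf V ξ = ∫ y : EV v, cexp (-(2 * Real.pi * inner ℝ y ξ : ℝ) * I) * (V y : ℂ) := by
  unfold Vf
  rw [Real.fourier_eq']
  refine integral_congr_ae (Filter.Eventually.of_forall fun y => ?_)
  simp only [smul_eq_mul]
  congr 2
  push_cast
  ring

theorem qh_Vf_conj {v : ℕ} (V : EV v → ℝ) (ξ : EV v) :
    (starRingEnd ℂ) (Vf V ξ) =
      ∫ x : EV v, cexp ((2 * Real.pi * inner ℝ x ξ : ℝ) * I) * (V x : ℂ) := by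
  rw [qh_Vf, ← integral_conj]
  refine integral_congr_ae (Filter.Eventually.of_forall fun x => ?_)
  simp only [map_mul, Complex.conj_ofReal]
  congr 1
  rw [← Complex.exp_conj]
  congr 1
  simp only [map_mul, map_neg, Complex.conj_ofReal, Complex.conj_I]
  ring

/-- the Gaussian weight -/
noncomputable def qhg {v : ℕ} (t : ℝ) (ξ : EV v) : ℝ := Real.exp (-4 * Real.pi ^ 2 * ‖ξ‖ ^ 2 * t)

theorem qh_g_int {v : ℕ} {t : ℝ} (ht : 0 < t) : Integrable (fun ξ : EV v => qhg t ξ) := by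
  have h : Integrable (fun ξ : EV v => cexp (-(4 * Real.pi ^ 2 * t : ℂ) * ‖ξ‖ ^ 2 + 0 * inner ℝ (0 : EV v) ξ)) := by
    refine GaussianFourier.integrable_cexp_neg_mul_sq_norm_add ?_ 0 0
    have : (4 * (Real.pi : ℂ) ^ 2 * (t : ℂ)) = ((4 * Real.pi ^ 2 * t : ℝ) : ℂ) := by push_cast; ring
    rw [this, Complex.ofReal_re]
    positivity
  refine h.re.congr (Filter.Eventually.of_forall fun ξ => ?_)
  simp only [zero_mul, add_zero]
  have : -(4 * (Real.pi : ℂ) ^ 2 * (t : ℂ)) * (‖ξ‖ : ℂ) ^ 2 = ((-4 * Real.pi ^ 2 * ‖ξ‖ ^ 2 * t : ℝ) : ℂ) := by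
    push_cast
    ring
  rw [this, ← Complex.ofReal_exp]
  exact Complex.ofReal_re _

theorem qh_inv {v : ℕ} {t : ℝ} (ht : 0 < t) (z : EV v) :
    ∫ ξ : EV v, cexp ((2 * Real.pi * inner ℝ z ξ : ℝ) * I) * (qhg t ξ : ℂ) = (hk v t ‖z‖ : ℂ) := by
  have hpi := Real.pi_pos
  obtain ⟨t', ht'⟩ : ∃ t' : ℝ, t' = 1 / (16 * Real.pi ^ 2 * t) := ⟨_, rfl⟩
  have ht'0 : 0 < t' := by rw [ht']; positivity
  have h := hk_fourier v t' ht'0 (-z)
  have e1 : ∀ ξ : EV v, (hk v t' ‖ξ‖ : ℂ) =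
      (((4 * Real.pi * t') ^ (-((2 * (v : ℝ) + 3) / 2)) : ℝ) : ℂ) * (qhg t ξ : ℂ) := by
    intro ξ
    rw [← Complex.ofReal_mul]
    congr 1
    unfold hk qhg
    congr 2
    rw [ht']
    field_simp
    ring
  have e2 : ∫ ξ : EV v, cexp (-(2 * Real.pi * inner ℝ ξ (-z) : ℝ) * I) * (hk v t' ‖ξ‖ : ℂ) =
      (((4 * Real.pi * t') ^ (-((2 * (v : ℝ) + 3) / 2)) : ℝ) : ℂ) *
        ∫ ξ : EV v, cexp ((2 * Real.pi * inner ℝ z ξ : ℝ) * I) * (qhg t ξ : ℂ) := by
    rw [← integral_const_mul]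
    refine integral_congr_ae (Filter.Eventually.of_forall fun ξ => ?_)
    simp only
    rw [e1, inner_neg_right, real_inner_comm]
    push_cast
    ring_nf
  rw [e2, norm_neg] at h
  have hc : 0 < (4 * Real.pi * t') ^ (-((2 * (v : ℝ) + 3) / 2)) := by positivity
  have hc' : (((4 * Real.pi * t') ^ (-((2 * (v : ℝ) + 3) / 2)) : ℝ) : ℂ) ≠ 0 := by
    exact_mod_cast hc.ne'
  have e3 : ((Real.exp (-4 * Real.pi ^ 2 * ‖z‖ ^ 2 * t') : ℝ) : ℂ) =
      (((4 * Real.pi * t') ^ (-((2 * (v : ℝ) + 3) / 2)) : ℝ) : ℂ) * (hk v t ‖z‖ : ℂ) := by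
    rw [← Complex.ofReal_mul]
    congr 1
    unfold hk
    rw [← mul_assoc, ← Real.mul_rpow (by positivity) (by positivity)]
    have e4 : 4 * Real.pi * t' * (4 * Real.pi * t) = 1 := by
      rw [ht']
      field_simp
      norm_num
    rw [e4, Real.one_rpow, one_mul]
    congr 1
    rw [ht']
    field_simp
    ring
  rw [e3] at h
  exact mul_left_cancel₀ hc' h

theorem qh_unit (a : ℝ) : ‖cexp ((a : ℂ) * I)‖ = 1 := Complex.norm_exp_ofReal_mul_I a

theorem qh_step1 {v : ℕ} {R M : ℝ} {V : EV v → ℝ} (P : PotG v R M V) {t : ℝ} (ht : 0 < t) (x : EV v) :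
    ∫ y : EV v, (V y : ℂ) * (hk v t ‖x - y‖ : ℂ) =
      ∫ ξ : EV v, cexp ((2 * Real.pi * inner ℝ x ξ : ℝ) * I) * (qhg t ξ : ℂ) * Vf V ξ := by
  have hint : Integrable (Function.uncurry fun (y ξ : EV v) =>
      (V y : ℂ) * (cexp ((2 * Real.pi * inner ℝ (x - y) ξ : ℝ) * I) * (qhg t ξ : ℂ)))
      (volume.prod volume) := by
    have h1 : Integrable (fun p : EV v × EV v => (V p.1 : ℂ) * (qhg t p.2 : ℂ))
        (volume.prod volume) := (qh_intC P).mul_prod (qh_g_int ht).ofReal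
    have h2 := h1.bdd_mul (c := 1)
      (f := fun p : EV v × EV v => cexp ((2 * Real.pi * inner ℝ (x - p.1) p.2 : ℝ) * I))
      (by
        apply Continuous.aestronglyMeasurable
        fun_prop)
      (Filter.Eventually.of_forall fun p => (qh_unit _).le)
    refine h2.congr (Filter.Eventually.of_forall fun p => ?_)
    simp only [Function.uncurry]
    ring
  calc ∫ y : EV v, (V y : ℂ) * (hk v t ‖x - y‖ : ℂ)
      = ∫ y : EV v, ∫ ξ : EV v,
          (V y : ℂ) * (cexp ((2 * Real.pi * inner ℝ (x - y) ξ : ℝ) * I) * (qhg t ξ : ℂ)) := by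
        refine integral_congr_ae (Filter.Eventually.of_forall fun y => ?_)
        simp only
        rw [← qh_inv ht (x - y), integral_const_mul]
    _ = ∫ ξ : EV v, ∫ y : EV v,
          (V y : ℂ) * (cexp ((2 * Real.pi * inner ℝ (x - y) ξ : ℝ) * I) * (qhg t ξ : ℂ)) :=
        integral_integral_swap hint
    _ = _ := by
        refine integral_congr_ae (Filter.Eventually.of_forall fun ξ => ?_)
        simp only
        rw [qh_Vf, ← integral_const_mul]
        refine integral_congr_ae (Filter.Eventually.of_forall fun y => ?_)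
        simp only
        have e : cexp ((2 * Real.pi * inner ℝ (x - y) ξ : ℝ) * I) =
            cexp ((2 * Real.pi * inner ℝ x ξ : ℝ) * I) * cexp (-(2 * Real.pi * inner ℝ y ξ : ℝ) * I) := by
          rw [← Complex.exp_add]
          congr 1
          rw [inner_sub_left]
          push_cast
          ring
        rw [e]
        ring

theorem qh_Vf_le {v : ℕ} (V : EV v → ℝ) (ξ : EV v) : ‖Vf V ξ‖ ≤ ∫ y : EV v, ‖(V y : ℂ)‖ := by
  rw [qh_Vf]
  refine (norm_integral_le_integral_norm _).trans (le_of_eq ?_)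
  refine integral_congr_ae (Filter.Eventually.of_forall fun y => ?_)
  simp only
  rw [norm_mul, show -((2 * Real.pi * inner ℝ y ξ : ℝ) : ℂ) = ((-(2 * Real.pi * inner ℝ y ξ) : ℝ) : ℂ) by
    push_cast; ring, qh_unit, one_mul]

theorem qh_step2 {v : ℕ} {R M : ℝ} {V : EV v → ℝ} (P : PotG v R M V) {t : ℝ} (ht : 0 < t) :
    ∫ x : EV v, (V x : ℂ) * ∫ ξ : EV v,
        cexp ((2 * Real.pi * inner ℝ x ξ : ℝ) * I) * (qhg t ξ : ℂ) * Vf V ξ =
      ∫ ξ : EV v, ((‖Vf V ξ‖ ^ 2 * qhg t ξ : ℝ) : ℂ) := by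
  have hG : Integrable (fun ξ : EV v => Vf V ξ * (qhg t ξ : ℂ)) := by
    refine ((qh_g_int ht).ofReal (𝕜 := ℂ)).bdd_mul (c := ∫ y : EV v, ‖(V y : ℂ)‖)
      (qh_cont P).aestronglyMeasurable
      (Filter.Eventually.of_forall fun ξ => qh_Vf_le V ξ)
  have hint : Integrable (Function.uncurry fun (x ξ : EV v) =>
      (V x : ℂ) * (cexp ((2 * Real.pi * inner ℝ x ξ : ℝ) * I) * (qhg t ξ : ℂ) * Vf V ξ))
      (volume.prod volume) := by
    have h1 : Integrable (fun p : EV v × EV v => (V p.1 : ℂ) * (Vf V p.2 * (qhg t p.2 : ℂ)))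
        (volume.prod volume) := (qh_intC P).mul_prod hG
    have h2 := h1.bdd_mul (c := 1)
      (f := fun p : EV v × EV v => cexp ((2 * Real.pi * inner ℝ p.1 p.2 : ℝ) * I))
      (by
        apply Continuous.aestronglyMeasurable
        fun_prop)
      (Filter.Eventually.of_forall fun p => (qh_unit _).le)
    refine h2.congr (Filter.Eventually.of_forall fun p => ?_)
    simp only [Function.uncurry]
    ring
  calc ∫ x : EV v, (V x : ℂ) * ∫ ξ : EV v,
        cexp ((2 * Real.pi * inner ℝ x ξ : ℝ) * I) * (qhg t ξ : ℂ) * Vf V ξ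
      = ∫ x : EV v, ∫ ξ : EV v,
        (V x : ℂ) * (cexp ((2 * Real.pi * inner ℝ x ξ : ℝ) * I) * (qhg t ξ : ℂ) * Vf V ξ) := by
        refine integral_congr_ae (Filter.Eventually.of_forall fun x => ?_)
        simp only
        rw [integral_const_mul]
    _ = ∫ ξ : EV v, ∫ x : EV v,
        (V x : ℂ) * (cexp ((2 * Real.pi * inner ℝ x ξ : ℝ) * I) * (qhg t ξ : ℂ) * Vf V ξ) :=
        integral_integral_swap hint
    _ = _ := by
        refine integral_congr_ae (Filter.Eventually.of_forall fun ξ => ?_)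
        simp only
        have e1 : ∫ x : EV v,
            (V x : ℂ) * (cexp ((2 * Real.pi * inner ℝ x ξ : ℝ) * I) * (qhg t ξ : ℂ) * Vf V ξ) =
            (starRingEnd ℂ) (Vf V ξ) * (Vf V ξ * (qhg t ξ : ℂ)) := by
          rw [qh_Vf_conj, ← integral_mul_const]
          refine integral_congr_ae (Filter.Eventually.of_forall fun x => ?_)
          simp only
          ring
        rw [e1, ← mul_assoc, mul_comm ((starRingEnd ℂ) (Vf V ξ)) (Vf V ξ), Complex.mul_conj,
          Complex.normSq_eq_norm_sq]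
        push_cast
        ring

end quad_heat_aux

theorem quad_heat (v : ℕ) (R M : ℝ) (V : EV v → ℝ) (P : PotG v R M V) :
    Integrable (fun ξ : EV v => ‖Vf V ξ‖ ^ 2) ∧
    ∫ x, V x ^ 2 = ∫ ξ : EV v, ‖Vf V ξ‖ ^ 2 ∧
    ∀ t : ℝ, 0 < t → ∫ x, ∫ y, V x * V y * hk v t ‖x - y‖ =
      ∫ ξ : EV v, ‖Vf V ξ‖ ^ 2 * Real.exp (-4 * Real.pi ^ 2 * ‖ξ‖ ^ 2 * t) := by
  have hm : AEStronglyMeasurable (fun ξ : EV v => ‖Vf V ξ‖ ^ 2) volume :=
    ((qh_cont P).norm.pow 2).aestronglyMeasurable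
  have hl := qh_lint P
  have hsq := qh_int_sq P
  have hfin : ∫⁻ x, ENNReal.ofReal (V x ^ 2) < ⊤ := by
    have := hsq.hasFiniteIntegral
    rw [hasFiniteIntegral_iff_ofReal (Filter.Eventually.of_forall fun x => sq_nonneg _)] at this
    exact this
  have h1 : Integrable (fun ξ : EV v => ‖Vf V ξ‖ ^ 2) := by
    refine ⟨hm, ?_⟩
    rw [hasFiniteIntegral_iff_ofReal (Filter.Eventually.of_forall fun x => sq_nonneg _), hl]
    exact hfin
  refine ⟨h1, ?_, ?_⟩
  · rw [integral_eq_lintegral_of_nonneg_ae (Filter.Eventually.of_forall fun x => sq_nonneg _)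
      hsq.aestronglyMeasurable,
      integral_eq_lintegral_of_nonneg_ae (Filter.Eventually.of_forall fun x => sq_nonneg _) hm, hl]
  · intro t ht
    have e1 : ((∫ x, ∫ y, V x * V y * hk v t ‖x - y‖ : ℝ) : ℂ) =
        ∫ x : EV v, (V x : ℂ) * ∫ y : EV v, (V y : ℂ) * (hk v t ‖x - y‖ : ℂ) := by
      rw [← integral_complex_ofReal]
      refine integral_congr_ae (Filter.Eventually.of_forall fun x => ?_)
      simp only
      rw [← integral_complex_ofReal, ← integral_const_mul]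
      refine integral_congr_ae (Filter.Eventually.of_forall fun y => ?_)
      simp only
      push_cast
      ring
    have e2 := qh_step2 P ht
    have e3 : ∫ x : EV v, (V x : ℂ) * ∫ y : EV v, (V y : ℂ) * (hk v t ‖x - y‖ : ℂ) =
        ∫ ξ : EV v, ((‖Vf V ξ‖ ^ 2 * qhg t ξ : ℝ) : ℂ) := by
      rw [← e2]
      refine integral_congr_ae (Filter.Eventually.of_forall fun x => ?_)
      simp only
      rw [qh_step1 P ht x]
    rw [e3, integral_complex_ofReal] at e1
    exact Complex.ofReal_injective e1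

end Pool.Agent.H269
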