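import Pool.Agent.H269.DefsG2

/-!
# GN-71 the time integral of the quadratic term (MP_f2af60_mp, infinitely many resonances in odd dimension)
-/

set_option autoImplicit false

open MeasureTheory Filter Topology Complex
open scoped InnerProductSpace ENNReal NNReal FourierTransform

namespace Pool.Agent.H269



/-- the change of variables -/
noncomputable def qtPh (z : ℝ × ℝ) : ℝ × ℝ := (z.1 * z.2, z.1 * (1 - z.2))

/-- its derivative -/
noncomputable def qtDPh (z : ℝ × ℝ) : ℝ × ℝ →L[ℝ] ℝ × ℝ :=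
  (Matrix.toLin (.finTwoProd ℝ) (.finTwoProd ℝ)
    !![z.2, z.1; 1 - z.2, -z.1]).toContinuousLinearMap

theorem qt_hasFDerivAt (z : ℝ × ℝ) : HasFDerivAt qtPh (qtDPh z) z := by
  unfold qtDPh qtPh
  rw [Matrix.toLin_finTwoProd_toContinuousLinearMap]
  have h1 : HasFDerivAt (fun y : ℝ × ℝ => y.1 * y.2)
      (z.1 • ContinuousLinearMap.snd ℝ ℝ ℝ + z.2 • ContinuousLinearMap.fst ℝ ℝ ℝ) z :=
    hasFDerivAt_fst.mul hasFDerivAt_snd
  have h2 : HasFDerivAt (fun y : ℝ × ℝ => 1 - y.2) (-ContinuousLinearMap.snd ℝ ℝ ℝ) z :=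
    hasFDerivAt_snd.const_sub 1
  have h3 : HasFDerivAt (fun y : ℝ × ℝ => y.1 * (1 - y.2))
      (z.1 • (-ContinuousLinearMap.snd ℝ ℝ ℝ) + (1 - z.2) • ContinuousLinearMap.fst ℝ ℝ ℝ) z :=
    hasFDerivAt_fst.mul h2
  convert! HasFDerivAt.prodMk h1 h3 using 1
  ext <;> simp

theorem qt_det (z : ℝ × ℝ) : (qtDPh z).det = -z.1 := by
  unfold qtDPh
  simp only [LinearMap.det_toContinuousLinearMap, LinearMap.det_toLin,
    Matrix.det_fin_two_of]
  ring

theorem qt_image : qtPh '' (Set.Ioi 0 ×ˢ Set.Ioo 0 1) = Set.Ioi 0 ×ˢ Set.Ioi 0 := by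
  ext ⟨a, b⟩
  simp only [Set.mem_image, Set.mem_prod, Set.mem_Ioi, Set.mem_Ioo, Prod.exists, qtPh, Prod.mk.injEq]
  constructor
  · rintro ⟨t, x, ⟨h1, h2, h3⟩, rfl, rfl⟩
    exact ⟨by positivity, mul_pos h1 (by linarith)⟩
  · rintro ⟨h1, h2⟩
    have h3 : 0 < a + b := by linarith
    refine ⟨a + b, a / (a + b), ⟨h3, by positivity, ?_⟩, ?_, ?_⟩
    · rw [div_lt_one h3]; linarith
    · field_simp
    · field_simp
      ring

theorem qt_injOn : Set.InjOn qtPh (Set.Ioi 0 ×ˢ Set.Ioo 0 1) := by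
  rintro ⟨t, x⟩ h ⟨t', x'⟩ h' heq
  simp only [Set.mem_prod, Set.mem_Ioi, Set.mem_Ioo, qtPh, Prod.mk.injEq] at h h' heq
  have h1 : t = t' := by linarith [heq.1, heq.2]
  subst h1
  have h2 : x = x' := mul_left_cancel₀ h.1.ne' heq.1
  rw [h2]

/-- the integrand -/
noncomputable def qtG (v K : ℕ) (s q : ℝ) (z : ℝ × ℝ) : ℝ :=
  (z.1 + z.2) ^ K * Real.exp (-s * (z.1 + z.2)) *
      (4 * Real.pi * (z.1 + z.2)) ^ (-((2 * (v : ℝ) + 3) / 2)) *
      Real.exp (-q * (z.1 * z.2 / (z.1 + z.2)))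

/-- the integrand after the change of variables -/
noncomputable def qtH (v K : ℕ) (s q : ℝ) (z : ℝ × ℝ) : ℝ :=
  (4 * Real.pi) ^ (-((2 * (v : ℝ) + 3) / 2)) *
    (z.1 ^ (((K : ℝ) + 1 / 2 - v) - 1) * Real.exp (-((s + q * (z.2 * (1 - z.2))) * z.1)))

theorem qt_GPh (v K : ℕ) (s q : ℝ) (z : ℝ × ℝ) (hz : z ∈ Set.Ioi (0 : ℝ) ×ˢ Set.Ioo (0 : ℝ) 1) :
    |(qtDPh z).det| • qtG v K s q (qtPh z) = qtH v K s q z := by
  obtain ⟨t, x⟩ := z
  simp only [Set.mem_prod, Set.mem_Ioi, Set.mem_Ioo] at hz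
  obtain ⟨ht, hx0, hx1⟩ := hz
  rw [qt_det]
  simp only [qtG, qtH, qtPh, smul_eq_mul, abs_neg, abs_of_pos ht]
  have e1 : t * x + t * (1 - x) = t := by ring
  rw [e1]
  have e2 : t * x * (t * (1 - x)) / t = t * (x * (1 - x)) := by field_simp
  rw [e2, Real.mul_rpow (by positivity) ht.le]
  have e3 : t ^ (((K : ℝ) + 1 / 2 - v) - 1) = t * t ^ K * t ^ (-((2 * (v : ℝ) + 3) / 2)) := by
    have : ((K : ℝ) + 1 / 2 - v) - 1 = 1 + (K : ℝ) + (-((2 * (v : ℝ) + 3) / 2)) := by ring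
    rw [this, Real.rpow_add ht, Real.rpow_add ht, Real.rpow_one, Real.rpow_natCast]
  rw [e3]
  have e4 : Real.exp (-((s + q * (x * (1 - x))) * t)) =
      Real.exp (-s * t) * Real.exp (-q * (t * (x * (1 - x)))) := by
    rw [← Real.exp_add]; congr 1; ring
  rw [e4]
  ring

theorem qt_Hint (v K : ℕ) (hK : 2 * v + 3 ≤ K) (s q : ℝ) (hs : 0 < s) (hq : 0 ≤ q) :
    Integrable (qtH v K s q) ((volume.restrict (Set.Ioi (0 : ℝ))).prod
      (volume.restrict (Set.Ioo (0 : ℝ) 1))) := by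
  have hKR : (2 * (v : ℝ) + 3) ≤ K := by exact_mod_cast hK
  have hv : (0 : ℝ) ≤ v := Nat.cast_nonneg v
  have h1 : Integrable (fun t : ℝ => t ^ (((K : ℝ) + 1 / 2 - v) - 1) * Real.exp (-(s * t)))
      (volume.restrict (Set.Ioi (0 : ℝ))) := by
    have := integrableOn_rpow_mul_exp_neg_mul_rpow (p := 1) (s := ((K : ℝ) + 1 / 2 - v) - 1)
      (b := s) (by linarith) one_pos hs
    simp only [Real.rpow_one, neg_mul] at this
    exact this
  have h2 : Integrable (fun _ : ℝ => (4 * Real.pi) ^ (-((2 * (v : ℝ) + 3) / 2)))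
      (volume.restrict (Set.Ioo (0 : ℝ) 1)) := by
    haveI : IsFiniteMeasure (volume.restrict (Set.Ioo (0 : ℝ) 1)) := ⟨by simp⟩
    exact integrable_const _
  have h3 := h1.mul_prod h2
  have hms : MeasurableSet (Set.Ioi (0 : ℝ) ×ˢ Set.Ioo (0 : ℝ) 1) :=
    measurableSet_Ioi.prod measurableSet_Ioo
  refine h3.mono' ?_ ?_
  · rw [Measure.prod_restrict]
    refine ContinuousOn.aestronglyMeasurable ?_ hms
    unfold qtH
    refine ContinuousOn.mul continuousOn_const (ContinuousOn.mul ?_ ?_)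
    · exact ContinuousOn.rpow_const continuousOn_fst (fun z hz => Or.inl (ne_of_gt hz.1))
    · fun_prop
  · rw [Measure.prod_restrict]
    refine (ae_restrict_mem hms).mono fun z hz => ?_
    obtain ⟨t, x⟩ := z
    simp only [Set.mem_prod, Set.mem_Ioi, Set.mem_Ioo] at hz
    obtain ⟨ht, hx0, hx1⟩ := hz
    have hpos : (0 : ℝ) ≤ (4 * Real.pi) ^ (-((2 * (v : ℝ) + 3) / 2)) := by positivity
    have ht' : (0 : ℝ) ≤ t ^ (((K : ℝ) + 1 / 2 - v) - 1) := by positivity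
    rw [Real.norm_eq_abs, abs_of_nonneg (by unfold qtH; positivity)]
    simp only [qtH]
    have h5 : Real.exp (-((s + q * (x * (1 - x))) * t)) ≤ Real.exp (-(s * t)) := by
      apply Real.exp_le_exp.2
      have : 0 ≤ q * (x * (1 - x)) * t := by
        have : 0 ≤ x * (1 - x) := mul_nonneg hx0.le (by linarith)
        positivity
      linarith
    calc _ ≤ (4 * Real.pi) ^ (-((2 * (v : ℝ) + 3) / 2)) *
          (t ^ (((K : ℝ) + 1 / 2 - v) - 1) * Real.exp (-(s * t))) :=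
          mul_le_mul_of_nonneg_left (mul_le_mul_of_nonneg_left h5 ht') hpos
      _ = _ := by ring

theorem quad_time (v K : ℕ) (hK : 2 * v + 3 ≤ K) (s q : ℝ) (hs : 0 < s) (hq : 0 ≤ q) :
    IntegrableOn (fun t : Fin 2 → ℝ => (t 0 + t 1) ^ K * Real.exp (-s * (t 0 + t 1)) *
      (4 * Real.pi * (t 0 + t 1)) ^ (-((2 * (v : ℝ) + 3) / 2)) *
      Real.exp (-q * (t 0 * t 1 / (t 0 + t 1)))) (Set.pi Set.univ (fun _ => Set.Ioi 0)) ∧
    ∫ t in Set.pi Set.univ (fun _ : Fin 2 => Set.Ioi (0 : ℝ)),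
      (t 0 + t 1) ^ K * Real.exp (-s * (t 0 + t 1)) *
      (4 * Real.pi * (t 0 + t 1)) ^ (-((2 * (v : ℝ) + 3) / 2)) *
      Real.exp (-q * (t 0 * t 1 / (t 0 + t 1))) =
    (4 * Real.pi) ^ (-((2 * (v : ℝ) + 3) / 2)) * Real.Gamma ((K : ℝ) + 1 / 2 - v) *
      ∫ x in Set.Ioo (0 : ℝ) 1, (s + q * (x * (1 - x))) ^ (-((K : ℝ) + 1 / 2 - v)) := by
  have hKR : (2 * (v : ℝ) + 3) ≤ K := by exact_mod_cast hK
  have hv : (0 : ℝ) ≤ v := Nat.cast_nonneg v
  have hD : MeasurableSet (Set.Ioi (0 : ℝ) ×ˢ Set.Ioo (0 : ℝ) 1) :=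
    measurableSet_Ioi.prod measurableSet_Ioo
  have hvol : (volume : Measure (ℝ × ℝ)).restrict (Set.Ioi (0 : ℝ) ×ˢ Set.Ioo (0 : ℝ) 1) =
      (volume.restrict (Set.Ioi (0 : ℝ))).prod (volume.restrict (Set.Ioo (0 : ℝ) 1)) := by
    rw [Measure.prod_restrict]; rfl
  have hH := qt_Hint v K hK s q hs hq
  have hHD : IntegrableOn (qtH v K s q) (Set.Ioi (0 : ℝ) ×ˢ Set.Ioo (0 : ℝ) 1) volume := by
    unfold IntegrableOn
    rw [hvol]; exact hH
  have hGi : IntegrableOn (qtG v K s q) (Set.Ioi (0 : ℝ) ×ˢ Set.Ioi (0 : ℝ)) volume := by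
    rw [← qt_image, integrableOn_image_iff_integrableOn_abs_det_fderiv_smul volume hD
      (fun z _ => (qt_hasFDerivAt z).hasFDerivWithinAt) qt_injOn]
    exact hHD.congr_fun (fun z hz => (qt_GPh v K s q z hz).symm) hD
  have hGv : ∫ z in Set.Ioi (0 : ℝ) ×ˢ Set.Ioi (0 : ℝ), qtG v K s q z =
      (4 * Real.pi) ^ (-((2 * (v : ℝ) + 3) / 2)) * Real.Gamma ((K : ℝ) + 1 / 2 - v) *
      ∫ x in Set.Ioo (0 : ℝ) 1, (s + q * (x * (1 - x))) ^ (-((K : ℝ) + 1 / 2 - v)) := by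
    rw [← qt_image, integral_image_eq_integral_abs_det_fderiv_smul volume hD
      (fun z _ => (qt_hasFDerivAt z).hasFDerivWithinAt) qt_injOn,
      setIntegral_congr_fun hD (fun z hz => qt_GPh v K s q z hz), hvol, integral_prod_symm _ hH,
      ← integral_const_mul]
    refine setIntegral_congr_fun measurableSet_Ioo fun x hx => ?_
    have hp : 0 < s + q * (x * (1 - x)) := by
      have h1 : 0 ≤ x * (1 - x) := mul_nonneg hx.1.le (by linarith [hx.2])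
      have := mul_nonneg hq h1
      linarith
    simp only [qtH]
    rw [integral_const_mul, Real.integral_rpow_mul_exp_neg_mul_Ioi (by linarith) hp, one_div,
      Real.inv_rpow hp.le, ← Real.rpow_neg hp.le]
    ring
  have hpre : (Set.pi Set.univ (fun _ : Fin 2 => Set.Ioi (0 : ℝ))) =
      (MeasurableEquiv.finTwoArrow : (Fin 2 → ℝ) ≃ᵐ ℝ × ℝ) ⁻¹'
        (Set.Ioi (0 : ℝ) ×ˢ Set.Ioi (0 : ℝ)) := by
    ext t
    simp [Set.mem_pi, Fin.forall_fin_two]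
  have hmp := volume_preserving_finTwoArrow ℝ
  have hme := (MeasurableEquiv.finTwoArrow : (Fin 2 → ℝ) ≃ᵐ ℝ × ℝ).measurableEmbedding
  rw [hpre]
  constructor
  · exact (hmp.integrableOn_comp_preimage hme).2 hGi
  · rw [← hGv]
    exact hmp.setIntegral_preimage_emb hme (qtG v K s q) _

end Pool.Agent.H269
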