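import Pool.Agent.H269.DefsG2
import Pool.Agent.H269.GN.G028
import Pool.Agent.H269.GN.G070
import Pool.Agent.H269.GN.G071

/-!
# GN-72 formula for the quadratic Born term (MP_f2af60_mp, infinitely many resonances in odd dimension)
-/

set_option autoImplicit false

open MeasureTheory Filter Topology Complex
open scoped InnerProductSpace ENNReal NNReal FourierTransform

namespace Pool.Agent.H269


/-- the time weight -/
noncomputable def qfW (v K : ℕ) (s : ℝ) (t : Fin 2 → ℝ) : ℝ :=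
  (t 0 + t 1) ^ K * Real.exp (-s * (t 0 + t 1)) *
    (4 * Real.pi * (t 0 + t 1)) ^ (-((2 * (v : ℝ) + 3) / 2))

/-- the harmonic time -/
noncomputable def qfs (t : Fin 2 → ℝ) : ℝ := t 0 * t 1 / (t 0 + t 1)

/-- the quadrant -/
def qfT : Set (Fin 2 → ℝ) := Set.pi Set.univ (fun _ : Fin 2 => Set.Ioi (0 : ℝ))

theorem qfT_meas : MeasurableSet qfT := MeasurableSet.univ_pi (fun _ => measurableSet_Ioi)

theorem qfW_nonneg (v K : ℕ) (s : ℝ) {t : Fin 2 → ℝ} (ht : t ∈ qfT) : 0 ≤ qfW v K s t := by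
  have h0 : 0 < t 0 := ht 0 (Set.mem_univ _)
  have h1 : 0 < t 1 := ht 1 (Set.mem_univ _)
  unfold qfW
  positivity

theorem qfs_pos {t : Fin 2 → ℝ} (ht : t ∈ qfT) : 0 < qfs t := by
  have h0 : 0 < t 0 := ht 0 (Set.mem_univ _)
  have h1 : 0 < t 1 := ht 1 (Set.mem_univ _)
  unfold qfs
  positivity

theorem qfW_meas (v K : ℕ) (s : ℝ) : Measurable (qfW v K s) := by
  unfold qfW
  fun_prop

theorem qfs_meas : Measurable qfs := by
  unfold qfs
  fun_prop

theorem qf_wK (v K : ℕ) (s : ℝ) (x : Fin 2 → EV v) :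
    wK v 1 K s x = ∫ t in qfT, qfW v K s t * hk v (qfs t) ‖x 0 - x 1‖ := by
  unfold wK
  apply setIntegral_congr_fun qfT_meas
  intro t ht
  have h0 : 0 < t 0 := ht 0 (Set.mem_univ _)
  have h1 : 0 < t 1 := ht 1 (Set.mem_univ _)
  have e1 : (∏ i : Fin (1 + 1), hk v (t i) ‖x i - x (i + 1)‖) =
      hk v (t 0) ‖x 0 - x 1‖ * hk v (t 1) ‖x 0 - x 1‖ := by
    rw [Fin.prod_univ_two]
    have : (1 + 1 : Fin (1 + 1)) = 0 := rfl
    rw [this, norm_sub_rev (x 1) (x 0)]
    rfl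
  have e2 : (∑ i : Fin (1 + 1), t i) = t 0 + t 1 := Fin.sum_univ_two _
  simp only [e1, e2]
  rw [hk_mul v (t 0) (t 1) _ h0 h1]
  unfold qfW qfs
  ring

theorem hk_nonneg' (v : ℕ) {t : ℝ} (ht : 0 < t) (r : ℝ) : 0 ≤ hk v t r := by
  unfold hk
  positivity

theorem hk_le' (v : ℕ) {t : ℝ} (ht : 0 < t) (r : ℝ) :
    hk v t r ≤ (4 * Real.pi * t) ^ (-((2 * (v : ℝ) + 3) / 2)) := by
  unfold hk
  have h1 : Real.exp (-r ^ 2 / (4 * t)) ≤ 1 := by
    rw [Real.exp_le_one_iff]
    rw [neg_div]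
    have : 0 ≤ r ^ 2 / (4 * t) := by positivity
    linarith
  have h2 : 0 ≤ (4 * Real.pi * t) ^ (-((2 * (v : ℝ) + 3) / 2)) := by positivity
  nlinarith

theorem qf_abs {v : ℕ} {R M : ℝ} {V : EV v → ℝ} (P : PotG v R M V) :
    PotG v R M (fun x => |V x|) where
  hR := P.hR
  hM := P.hM
  meas := P.meas.abs
  bdd := by
    intro x
    rw [abs_abs]
    exact P.bdd x
  supp := by
    intro x hx
    rw [P.supp x hx, abs_zero]

theorem qf_hk_meas (v : ℕ) : Measurable fun z : ℝ × ℝ => hk v z.1 z.2 := by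
  unfold hk
  fun_prop

/-- the integrand -/
noncomputable def qfF (v K : ℕ) (s : ℝ) (V : EV v → ℝ) (z : (EV v × EV v) × (Fin 2 → ℝ)) : ℝ :=
  V z.1.1 * V z.1.2 * (qfW v K s z.2 * hk v (qfs z.2) ‖z.1.1 - z.1.2‖)

theorem qfF_meas (v K : ℕ) (s : ℝ) {V : EV v → ℝ} (hV : Measurable V) :
    Measurable (qfF v K s V) := by
  unfold qfF
  have h1 : Measurable fun z : (EV v × EV v) × (Fin 2 → ℝ) =>
      hk v (qfs z.2) ‖z.1.1 - z.1.2‖ := by
    have h2 : Measurable fun z : (EV v × EV v) × (Fin 2 → ℝ) =>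
        ((qfs z.2, ‖z.1.1 - z.1.2‖) : ℝ × ℝ) :=
      (qfs_meas.comp measurable_snd).prodMk
        ((measurable_fst.comp measurable_fst).sub (measurable_snd.comp measurable_fst)).norm
    exact (qf_hk_meas v).comp h2
  have h3 : Measurable fun z : (EV v × EV v) × (Fin 2 → ℝ) => qfW v K s z.2 :=
    (qfW_meas v K s).comp measurable_snd
  have h4 : Measurable fun z : (EV v × EV v) × (Fin 2 → ℝ) => V z.1.1 :=
    hV.comp (measurable_fst.comp measurable_fst)
  have h5 : Measurable fun z : (EV v × EV v) × (Fin 2 → ℝ) => V z.1.2 :=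
    hV.comp (measurable_snd.comp measurable_fst)
  exact (h4.mul h5).mul (h3.mul h1)

theorem qf_Vint {v : ℕ} {R M : ℝ} {V : EV v → ℝ} (P : PotG v R M V) : Integrable V := by
  have h1 : IntegrableOn V (Metric.closedBall (0 : EV v) R) := by
    apply Measure.integrableOn_of_bounded (M := M) (isCompact_closedBall _ _).measure_lt_top.ne
      P.meas.aestronglyMeasurable
    exact Filter.Eventually.of_forall (fun x => by rw [Real.norm_eq_abs]; exact P.bdd x)
  rw [← integrable_indicator_iff measurableSet_closedBall] at h1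
  have h2 : (Metric.closedBall (0 : EV v) R).indicator V = V := by
    funext x
    by_cases hx : x ∈ Metric.closedBall (0 : EV v) R
    · rw [Set.indicator_of_mem hx]
    · rw [Set.indicator_of_notMem hx, P.supp x hx]
  rw [h2] at h1
  exact h1

/-- for fixed time the kernel is integrable -/
theorem qf_fix {v : ℕ} {R M : ℝ} {V : EV v → ℝ} (P : PotG v R M V) {t : ℝ} (ht : 0 < t) :
    Integrable (fun z : EV v × EV v => V z.1 * V z.2 * hk v t ‖z.1 - z.2‖)
      ((volume : Measure (EV v)).prod volume) := by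
  have h1 : Integrable (fun z : EV v × EV v => V z.1 * V z.2)
      ((volume : Measure (EV v)).prod volume) := (qf_Vint P).mul_prod (qf_Vint P)
  apply h1.mul_bdd (c := (4 * Real.pi * t) ^ (-((2 * (v : ℝ) + 3) / 2)))
  · have h2 : Measurable fun z : EV v × EV v => ((t, ‖z.1 - z.2‖) : ℝ × ℝ) := by fun_prop
    exact ((qf_hk_meas v).comp h2).aestronglyMeasurable
  · apply Filter.Eventually.of_forall
    intro z
    rw [Real.norm_eq_abs, abs_of_nonneg (hk_nonneg' v ht _)]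
    exact hk_le' v ht _

theorem qf_fix_int {v : ℕ} {R M : ℝ} {V : EV v → ℝ} (P : PotG v R M V) {t : ℝ} (ht : 0 < t) :
    ∫ z : EV v × EV v, V z.1 * V z.2 * hk v t ‖z.1 - z.2‖ ∂((volume : Measure (EV v)).prod volume) =
      ∫ ξ : EV v, ‖Vf V ξ‖ ^ 2 * Real.exp (-4 * Real.pi ^ 2 * ‖ξ‖ ^ 2 * t) := by
  rw [integral_prod _ (qf_fix P ht)]
  exact (quad_heat v R M V P).2.2 t ht

theorem qfW_int (v K : ℕ) (hK : 2 * v + 3 ≤ K) (s : ℝ) (hs : 0 < s) :
    Integrable (qfW v K s) (volume.restrict qfT) := by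
  have h := (quad_time v K hK s 0 hs le_rfl).1
  have h2 : (fun t : Fin 2 → ℝ => (t 0 + t 1) ^ K * Real.exp (-s * (t 0 + t 1)) *
      (4 * Real.pi * (t 0 + t 1)) ^ (-((2 * (v : ℝ) + 3) / 2)) *
      Real.exp (-0 * (t 0 * t 1 / (t 0 + t 1)))) = qfW v K s := by
    funext t
    simp [qfW]
  rw [h2] at h
  exact h

theorem qf_exp_le (v : ℕ) {t : ℝ} (ht : 0 < t) (ξ : EV v) :
    Real.exp (-4 * Real.pi ^ 2 * ‖ξ‖ ^ 2 * t) ≤ 1 := by
  rw [Real.exp_le_one_iff]
  have : 0 ≤ Real.pi ^ 2 * ‖ξ‖ ^ 2 * t := by positivity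
  linarith

theorem qf_int1 {v K : ℕ} (hK : 2 * v + 3 ≤ K) {R M : ℝ} {V : EV v → ℝ}
    (P : PotG v R M V) {s : ℝ} (hs : 0 < s) :
    Integrable (qfF v K s V) (((volume : Measure (EV v)).prod volume).prod
      (volume.restrict qfT)) := by
  have hm : AEStronglyMeasurable (qfF v K s V) (((volume : Measure (EV v)).prod volume).prod
      (volume.restrict qfT)) := (qfF_meas v K s P.meas).aestronglyMeasurable
  rw [integrable_prod_iff' hm]
  have hA := qf_abs P
  constructor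
  · filter_upwards [ae_restrict_mem qfT_meas] with t ht
    have := (qf_fix P (qfs_pos ht)).const_mul (qfW v K s t)
    refine this.congr (Filter.Eventually.of_forall ?_)
    intro z
    simp only [qfF]
    ring
  · have hW := (qfW_int v K hK s hs).const_mul (∫ ξ : EV v, ‖Vf (fun x => |V x|) ξ‖ ^ 2)
    refine hW.mono' ?_ ?_
    · exact hm.norm.prod_swap.integral_prod_right'
    · filter_upwards [ae_restrict_mem qfT_meas] with t ht
      have hW0 := qfW_nonneg v K s ht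
      have hs0 := qfs_pos ht
      have e1 : ∀ z : EV v × EV v, ‖qfF v K s V (z, t)‖ =
          qfW v K s t * (|V z.1| * |V z.2| * hk v (qfs t) ‖z.1 - z.2‖) := by
        intro z
        simp only [qfF]
        rw [Real.norm_eq_abs, abs_mul, abs_mul, abs_mul, abs_of_nonneg hW0,
          abs_of_nonneg (hk_nonneg' v hs0 _)]
        ring
      have e2 : ∫ z : EV v × EV v, ‖qfF v K s V (z, t)‖ ∂((volume : Measure (EV v)).prod volume) =
          qfW v K s t * ∫ ξ : EV v, ‖Vf (fun x => |V x|) ξ‖ ^ 2 *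
            Real.exp (-4 * Real.pi ^ 2 * ‖ξ‖ ^ 2 * qfs t) := by
        simp_rw [e1]
        rw [integral_const_mul, ← qf_fix_int hA hs0]
      rw [e2, Real.norm_eq_abs, abs_mul, abs_of_nonneg hW0, mul_comm]
      apply mul_le_mul_of_nonneg_right _ hW0
      rw [abs_of_nonneg (integral_nonneg fun ξ => by positivity)]
      have hI := (quad_heat v R M _ hA).1
      apply integral_mono_of_nonneg (Filter.Eventually.of_forall fun ξ => by positivity) hI
      apply Filter.Eventually.of_forall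
      intro ξ
      have h1 := qf_exp_le v hs0 ξ
      have h2 : 0 ≤ ‖Vf (fun x => |V x|) ξ‖ ^ 2 := by positivity
      simp only
      nlinarith

theorem qf_int2 {v K : ℕ} (hK : 2 * v + 3 ≤ K) {R M : ℝ} {V : EV v → ℝ}
    (P : PotG v R M V) {s : ℝ} (hs : 0 < s) :
    Integrable (fun z : (Fin 2 → ℝ) × EV v => qfW v K s z.1 *
      (‖Vf V z.2‖ ^ 2 * Real.exp (-4 * Real.pi ^ 2 * ‖z.2‖ ^ 2 * qfs z.1)))
      ((volume.restrict qfT).prod volume) := by
  have h1 : Integrable (fun z : (Fin 2 → ℝ) × EV v => qfW v K s z.1 * ‖Vf V z.2‖ ^ 2)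
      ((volume.restrict qfT).prod volume) :=
    (qfW_int v K hK s hs).mul_prod (quad_heat v R M V P).1
  have h2 : Integrable (fun z : (Fin 2 → ℝ) × EV v => (qfW v K s z.1 * ‖Vf V z.2‖ ^ 2) *
      Real.exp (-4 * Real.pi ^ 2 * ‖z.2‖ ^ 2 * qfs z.1))
      ((volume.restrict qfT).prod volume) := by
    apply h1.mul_bdd (c := 1)
    · have h3 : Measurable fun z : (Fin 2 → ℝ) × EV v =>
          Real.exp (-4 * Real.pi ^ 2 * ‖z.2‖ ^ 2 * qfs z.1) := by
        have h4 : Measurable fun z : (Fin 2 → ℝ) × EV v => qfs z.1 := qfs_meas.comp measurable_fst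
        have h5 : Measurable fun z : (Fin 2 → ℝ) × EV v => ‖z.2‖ := measurable_snd.norm
        exact (((h5.pow_const 2).const_mul _).mul h4).exp
      exact h3.aestronglyMeasurable
    · have h5 : ∀ᵐ z ∂(((volume : Measure (Fin 2 → ℝ)).restrict qfT).prod
          (volume : Measure (EV v))), z.1 ∈ qfT := by
        have := (Measure.quasiMeasurePreserving_fst (μ := (volume : Measure (Fin 2 → ℝ)).restrict qfT)
          (ν := (volume : Measure (EV v)))).ae (ae_restrict_mem qfT_meas)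
        exact this
      filter_upwards [h5] with z hz
      rw [Real.norm_eq_abs, abs_of_pos (Real.exp_pos _)]
      exact qf_exp_le v (qfs_pos hz) z.2
  refine h2.congr (Filter.Eventually.of_forall ?_)
  intro z
  simp only
  ring


theorem quad_formula (v K : ℕ) (hK : 2 * v + 3 ≤ K) (R M : ℝ) (V : EV v → ℝ)
    (P : PotG v R M V) (s : ℝ) (hs : 0 < s) :
    bornD v 1 K V s = (1 / 2) * ((4 * Real.pi) ^ (-((2 * (v : ℝ) + 3) / 2)) *
      Real.Gamma ((K : ℝ) + 1 / 2 - v)) * ∫ ξ : EV v, ‖Vf V ξ‖ ^ 2 *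
        ∫ x in Set.Ioo (0 : ℝ) 1,
          (s + 4 * Real.pi ^ 2 * ‖ξ‖ ^ 2 * (x * (1 - x))) ^ (-((K : ℝ) + 1 / 2 - v)) := by
  have s1 : bornD v 1 K V s = 1 / 2 * ∫ x : Fin 2 → EV v,
      (V (x 0) * V (x 1)) * ∫ t in qfT, qfW v K s t * hk v (qfs t) ‖x 0 - x 1‖ := by
    unfold bornD
    have e0 : (1 / (((1 : ℕ) : ℝ) + 1)) = 1 / 2 := by norm_num
    rw [e0]
    congr 1
    apply integral_congr_ae
    apply Filter.Eventually.of_forall
    intro x
    simp only
    have e1 : (∏ i : Fin (1 + 1), V (x i)) = V (x 0) * V (x 1) := Fin.prod_univ_two _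
    rw [e1, qf_wK]
  have s2 : ∫ x : Fin 2 → EV v,
      (V (x 0) * V (x 1)) * ∫ t in qfT, qfW v K s t * hk v (qfs t) ‖x 0 - x 1‖ =
      ∫ z : EV v × EV v, ∫ t in qfT, qfF v K s V (z, t) := by
    have h := (volume_preserving_finTwoArrow (EV v)).integral_comp'
      (g := fun z : EV v × EV v => ∫ t in qfT, qfF v K s V (z, t))
    rw [← h]
    apply integral_congr_ae
    apply Filter.Eventually.of_forall
    intro x
    simp only
    rw [← integral_const_mul]
    rfl
  have s3 : ∫ z : EV v × EV v, ∫ t in qfT, qfF v K s V (z, t) =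
      ∫ t in qfT, ∫ z : EV v × EV v, qfF v K s V (z, t) := by
    have h := integral_integral_swap (f := fun (z : EV v × EV v) (t : Fin 2 → ℝ) =>
      qfF v K s V (z, t)) (μ := (volume : Measure (EV v × EV v))) (ν := volume.restrict qfT)
      (qf_int1 hK P hs)
    exact h
  have s4 : ∫ t in qfT, ∫ z : EV v × EV v, qfF v K s V (z, t) =
      ∫ t in qfT, ∫ ξ : EV v, qfW v K s t *
        (‖Vf V ξ‖ ^ 2 * Real.exp (-4 * Real.pi ^ 2 * ‖ξ‖ ^ 2 * qfs t)) := by
    apply setIntegral_congr_fun qfT_meas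
    intro t ht
    simp only
    rw [integral_const_mul, ← qf_fix_int P (qfs_pos ht), ← integral_const_mul]
    apply integral_congr_ae
    apply Filter.Eventually.of_forall
    intro z
    simp only [qfF]
    ring
  have s5 : ∫ t in qfT, ∫ ξ : EV v, qfW v K s t *
        (‖Vf V ξ‖ ^ 2 * Real.exp (-4 * Real.pi ^ 2 * ‖ξ‖ ^ 2 * qfs t)) =
      ∫ ξ : EV v, ∫ t in qfT, qfW v K s t *
        (‖Vf V ξ‖ ^ 2 * Real.exp (-4 * Real.pi ^ 2 * ‖ξ‖ ^ 2 * qfs t)) := by
    have h := integral_integral_swap (f := fun (t : Fin 2 → ℝ) (ξ : EV v) => qfW v K s t *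
        (‖Vf V ξ‖ ^ 2 * Real.exp (-4 * Real.pi ^ 2 * ‖ξ‖ ^ 2 * qfs t)))
      (μ := volume.restrict qfT) (ν := (volume : Measure (EV v))) (qf_int2 hK P hs)
    exact h
  rw [s1, s2, s3, s4, s5, mul_assoc]
  congr 1
  rw [← integral_const_mul]
  apply integral_congr_ae
  apply Filter.Eventually.of_forall
  intro ξ
  simp only
  have hq : 0 ≤ 4 * Real.pi ^ 2 * ‖ξ‖ ^ 2 := by positivity
  have h := (quad_time v K hK s (4 * Real.pi ^ 2 * ‖ξ‖ ^ 2) hs hq).2
  calc ∫ t in qfT, qfW v K s t *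
        (‖Vf V ξ‖ ^ 2 * Real.exp (-4 * Real.pi ^ 2 * ‖ξ‖ ^ 2 * qfs t))
      = ‖Vf V ξ‖ ^ 2 * ∫ t in qfT, (t 0 + t 1) ^ K * Real.exp (-s * (t 0 + t 1)) *
      (4 * Real.pi * (t 0 + t 1)) ^ (-((2 * (v : ℝ) + 3) / 2)) *
      Real.exp (-(4 * Real.pi ^ 2 * ‖ξ‖ ^ 2) * (t 0 * t 1 / (t 0 + t 1))) := by
        rw [← integral_const_mul]
        apply integral_congr_ae
        apply Filter.Eventually.of_forall
        intro t
        simp only [qfW, qfs]
        have : -4 * Real.pi ^ 2 * ‖ξ‖ ^ 2 * (t 0 * t 1 / (t 0 + t 1)) =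
          -(4 * Real.pi ^ 2 * ‖ξ‖ ^ 2) * (t 0 * t 1 / (t 0 + t 1)) := by ring
        rw [this]
        ring
    _ = _ := by
        unfold qfT
        rw [h]
        ring

end Pool.Agent.H269
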