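import Pool.Agent.H269.DefsG2

/-!
# GN-73 Taylor remainder of (1+u)^(-β) (MP_f2af60_mp, infinitely many resonances in odd dimension)
-/

set_option autoImplicit false

open MeasureTheory Filter Topology Complex
open scoped InnerProductSpace ENNReal NNReal FourierTransform

namespace Pool.Agent.H269


/-- signed remainder, shifted index -/
noncomputable def rmR (β : ℝ) (m : ℕ) (u : ℝ) : ℝ :=
  (-1) ^ m * ((1 + u) ^ (-β) - ∑ i ∈ Finset.range m, (-1) ^ i * cf β i * u ^ i)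

theorem rm_eq_rmR (β : ℝ) (m : ℕ) (u : ℝ) : rm β m u = rmR β (m + 1) u := rfl

theorem cf_zero' (β : ℝ) : cf β 0 = 1 := by simp [cf]

theorem cf_succ' (β : ℝ) (i : ℕ) : cf β (i + 1) * ((i : ℝ) + 1) = β * cf (β + 1) i := by
  unfold cf
  rw [Finset.prod_range_succ', Nat.factorial_succ]
  have h1 : ∏ k ∈ Finset.range i, (β + ((k + 1 : ℕ) : ℝ)) = ∏ j ∈ Finset.range i, (β + 1 + (j : ℝ)) :=
    Finset.prod_congr rfl fun k _ => by push_cast; ring
  rw [h1]
  have h2 : (i.factorial : ℝ) ≠ 0 := by positivity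
  have h3 : (i : ℝ) + 1 ≠ 0 := by positivity
  push_cast
  field_simp
  ring

theorem rmR_deriv (β : ℝ) (m : ℕ) {u : ℝ} (hu : 0 ≤ u) :
    HasDerivAt (rmR β (m + 1)) (β * rmR (β + 1) m u) u := by
  have h1 : HasDerivAt (fun u : ℝ => (1 + u) ^ (-β)) (1 * (-β) * (1 + u) ^ (-β - 1)) u :=
    HasDerivAt.rpow_const ((hasDerivAt_id u).const_add 1) (Or.inl (by simp; linarith))
  have h2 : HasDerivAt (fun u : ℝ => ∑ i ∈ Finset.range (m + 1), (-1) ^ i * cf β i * u ^ i)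
      (∑ i ∈ Finset.range (m + 1), (-1) ^ i * cf β i * ((i : ℝ) * u ^ (i - 1))) u := by
    refine HasDerivAt.fun_sum fun i _ => ?_
    exact (hasDerivAt_pow i u).const_mul _
  have h3 := (h1.sub h2).const_mul ((-1 : ℝ) ^ (m + 1))
  refine h3.congr_deriv ?_
  have h4 : ∑ i ∈ Finset.range (m + 1), (-1 : ℝ) ^ i * cf β i * ((i : ℝ) * u ^ (i - 1)) =
      -β * ∑ i ∈ Finset.range m, (-1) ^ i * cf (β + 1) i * u ^ i := by
    rw [Finset.sum_range_succ', Finset.mul_sum]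
    simp only [Nat.cast_zero, zero_mul, mul_zero, add_zero]
    refine Finset.sum_congr rfl fun i _ => ?_
    have h5 := cf_succ' β i
    rw [Nat.add_sub_cancel]
    push_cast
    have h6 : (-1 : ℝ) ^ (i + 1) * cf β (i + 1) * (((i : ℝ) + 1) * u ^ i) =
        (-1) ^ (i + 1) * (cf β (i + 1) * ((i : ℝ) + 1)) * u ^ i := by ring
    rw [h6, h5]
    ring
  have h7 : -β - 1 = -(β + 1) := by ring
  rw [h4, h7]
  unfold rmR
  ring

theorem rmR_zero (β : ℝ) (m : ℕ) : rmR β (m + 1) 0 = 0 := by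
  unfold rmR
  rw [Finset.sum_range_succ']
  simp [cf_zero']

theorem rmR_add (β : ℝ) (m : ℕ) (u : ℝ) : rmR β (m + 1) u + rmR β m u = cf β m * u ^ m := by
  unfold rmR
  rw [Finset.sum_range_succ]
  have h : ((-1 : ℝ) ^ m) * ((-1 : ℝ) ^ m) = 1 := by rw [← mul_pow]; norm_num
  have h2 : (-1 : ℝ) ^ (m + 1) = -(-1) ^ m := by rw [pow_succ]; ring
  rw [h2]
  linear_combination (cf β m * u ^ m) * h

theorem rm_mono_aux {f f' : ℝ → ℝ} {L : ℝ} (hf : ∀ u, 0 ≤ u → HasDerivAt f (f' u) u) (h0 : f 0 = 0)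
    (hn : ∀ u, 0 ≤ u → u ≤ L → 0 ≤ f' u) : ∀ u, 0 ≤ u → u ≤ L → 0 ≤ f u := by
  intro u hu hL
  have hm : MonotoneOn f (Set.Icc 0 L) := by
    refine monotoneOn_of_deriv_nonneg (convex_Icc 0 L)
      (fun x hx => (hf x hx.1).continuousAt.continuousWithinAt) ?_ ?_
    · intro x hx
      rw [interior_Icc] at hx
      exact (hf x hx.1.le).differentiableAt.differentiableWithinAt
    · intro x hx
      rw [interior_Icc] at hx
      rw [(hf x hx.1.le).deriv]
      exact hn x hx.1.le hx.2.le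
  have := hm ⟨le_refl 0, hu.trans hL⟩ ⟨hu, hL⟩ hu
  rwa [h0] at this

theorem rmR_bounds (m : ℕ) : ∀ β : ℝ, 0 < β → (∀ u : ℝ, 0 ≤ u → 0 ≤ rmR β m u ∧ rmR β m u ≤ cf β m * u ^ m) ∧
    ∀ L : ℝ, 0 ≤ L → ∃ c : ℝ, 0 < c ∧ ∀ u : ℝ, 0 ≤ u → u ≤ L → c * u ^ m ≤ rmR β m u := by
  induction m with
  | zero =>
    intro β hβ
    have he : ∀ u, rmR β 0 u = (1 + u) ^ (-β) := by
      intro u
      simp [rmR]
    refine ⟨fun u hu => ?_, fun L hL => ⟨(1 + L) ^ (-β), by positivity, fun u hu huL => ?_⟩⟩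
    · rw [he, cf_zero', pow_zero, mul_one]
      exact ⟨by positivity, Real.rpow_le_one_of_one_le_of_nonpos (by linarith) (by linarith)⟩
    · rw [he, pow_zero, mul_one]
      exact Real.rpow_le_rpow_of_nonpos (by linarith) (by linarith) (by linarith)
  | succ m ih =>
    intro β hβ
    obtain ⟨ih1, ih2⟩ := ih (β + 1) (by linarith)
    have hm : (0 : ℝ) < (m : ℝ) + 1 := by positivity
    refine ⟨fun u hu => ⟨?_, ?_⟩, fun L hL => ?_⟩
    · exact rm_mono_aux (L := u) (fun x hx => rmR_deriv β m hx) (rmR_zero β m)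
        (fun x hx _ => mul_nonneg hβ.le (ih1 x hx).1) u hu le_rfl
    · have hd : ∀ x, 0 ≤ x → HasDerivAt (fun x => cf β (m + 1) * x ^ (m + 1) - rmR β (m + 1) x)
          (cf β (m + 1) * (((m + 1 : ℕ) : ℝ) * x ^ m) - β * rmR (β + 1) m x) x := fun x hx =>
        ((hasDerivAt_pow (m + 1) x).const_mul _).sub (rmR_deriv β m hx)
      have h0 : cf β (m + 1) * (0 : ℝ) ^ (m + 1) - rmR β (m + 1) 0 = 0 := by
        rw [rmR_zero, zero_pow (Nat.succ_ne_zero m)]
        ring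
      have h1 := rm_mono_aux (L := u) hd h0 (fun x hx _ => by
        have h2 := (ih1 x hx).2
        have h3 := cf_succ' β m
        have h4 : cf β (m + 1) * (((m + 1 : ℕ) : ℝ) * x ^ m) = β * (cf (β + 1) m * x ^ m) := by
          push_cast
          rw [← mul_assoc, h3]
          ring
        rw [h4, ← mul_sub]
        exact mul_nonneg hβ.le (by linarith)) u hu le_rfl
      linarith
    · obtain ⟨c, hc, hcu⟩ := ih2 L hL
      refine ⟨β * c / ((m : ℝ) + 1), by positivity, fun u hu huL => ?_⟩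
      have hd : ∀ x, 0 ≤ x → HasDerivAt (fun x => rmR β (m + 1) x - β * c / ((m : ℝ) + 1) * x ^ (m + 1))
          (β * rmR (β + 1) m x - β * c / ((m : ℝ) + 1) * (((m + 1 : ℕ) : ℝ) * x ^ m)) x := fun x hx =>
        (rmR_deriv β m hx).sub ((hasDerivAt_pow (m + 1) x).const_mul _)
      have h0 : rmR β (m + 1) 0 - β * c / ((m : ℝ) + 1) * (0 : ℝ) ^ (m + 1) = 0 := by
        rw [rmR_zero, zero_pow (Nat.succ_ne_zero m)]
        ring
      have h1 := rm_mono_aux (L := L) hd h0 (fun x hx hxL => by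
        have h2 := hcu x hx hxL
        have h4 : β * c / ((m : ℝ) + 1) * (((m + 1 : ℕ) : ℝ) * x ^ m) = β * (c * x ^ m) := by
          push_cast
          field_simp
        rw [h4, ← mul_sub]
        exact mul_nonneg hβ.le (by linarith)) u hu huL
      linarith

theorem rm_bounds (β : ℝ) (hβ : 0 < β) (m : ℕ) :
    (∀ u : ℝ, 0 ≤ u → 0 ≤ rm β m u ∧ rm β m u ≤ cf β m * u ^ m ∧
      rm β m u ≤ cf β (m + 1) * u ^ (m + 1)) ∧
    ∀ L : ℝ, 0 ≤ L → ∃ c : ℝ, 0 < c ∧ ∀ u : ℝ, 0 ≤ u → u ≤ L → c * u ^ (m + 1) ≤ rm β m u := by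
  have h1 := rmR_bounds (m + 1) β hβ
  have h0 := rmR_bounds m β hβ
  refine ⟨fun u hu => ?_, h1.2⟩
  have h2 := (h1.1 u hu)
  have h3 := rmR_add β m u
  have h4 := (h0.1 u hu).1
  rw [rm_eq_rmR]
  exact ⟨h2.1, by linarith, h2.2⟩

end Pool.Agent.H269
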