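import Pool.Agent.H269.DefsG2

/-!
# GN-75 scaling and translation of the kernel wK (MP_f2af60_mp, infinitely many resonances in odd dimension)
-/

set_option autoImplicit false

open MeasureTheory Filter Topology Complex
open scoped InnerProductSpace ENNReal NNReal FourierTransform

namespace Pool.Agent.H269



theorem hk_scale_aux (v : ℕ) (s t r : ℝ) (hs : 0 < s) (ht : 0 < t) :
    hk v (s * t) (√s * r) = s ^ (-((2 * (v : ℝ) + 3) / 2)) * hk v t r := by
  unfold hk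
  have hp := Real.pi_pos
  have h1 : 4 * Real.pi * (s * t) = s * (4 * Real.pi * t) := by ring
  have h2 : -(√s * r) ^ 2 / (4 * (s * t)) = -r ^ 2 / (4 * t) := by
    rw [mul_pow, Real.sq_sqrt hs.le]
    field_simp
  rw [h1, h2, Real.mul_rpow hs.le (by positivity)]
  ring

open scoped Pointwise in
theorem smul_pi_Ioi (k : ℕ) (s : ℝ) (hs : 0 < s) :
    s • (Set.pi Set.univ (fun _ : Fin (k + 1) => Set.Ioi (0 : ℝ)))
      = Set.pi Set.univ (fun _ : Fin (k + 1) => Set.Ioi (0 : ℝ)) := by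
  ext t
  rw [Set.mem_smul_set_iff_inv_smul_mem₀ hs.ne']
  simp only [Set.mem_pi, Set.mem_univ, Set.mem_Ioi, true_implies, Pi.smul_apply, smul_eq_mul]
  refine forall_congr' fun i => ?_
  constructor
  · intro h
    have := mul_pos hs h
    rwa [mul_inv_cancel_left₀ hs.ne'] at this
  · intro h
    positivity

open scoped Pointwise in
theorem integral_smul_pi_Ioi (k : ℕ) (s : ℝ) (hs : 0 < s) (f : (Fin (k + 1) → ℝ) → ℝ) :
    ∫ t in Set.pi Set.univ (fun _ : Fin (k + 1) => Set.Ioi (0 : ℝ)), f (s • t)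
      = (s ^ (k + 1))⁻¹ *
        ∫ t in Set.pi Set.univ (fun _ : Fin (k + 1) => Set.Ioi (0 : ℝ)), f t := by
  have h1 := MeasureTheory.Measure.setIntegral_comp_smul_of_pos
    (volume : Measure (Fin (k + 1) → ℝ)) f
    (Set.pi Set.univ (fun _ : Fin (k + 1) => Set.Ioi (0 : ℝ))) hs
  rw [smul_pi_Ioi k s hs, Module.finrank_fin_fun, smul_eq_mul] at h1
  exact h1

theorem wK_scale (v k K : ℕ) (s : ℝ) (hs : 0 < s) (x : Fin (k + 1) → EV v) :
    wK v k K s x = s ^ (((v : ℝ) + 1 / 2) * (k + 1) - K) * wK v k K 1 (√s • x) := by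
  set S : Set (Fin (k + 1) → ℝ) := Set.pi Set.univ (fun _ : Fin (k + 1) => Set.Ioi (0 : ℝ)) with hS
  set f : (Fin (k + 1) → ℝ) → ℝ := fun t => (∑ i, t i) ^ K * Real.exp (-1 * ∑ i, t i) *
    ∏ i, hk v (t i) ‖(√s • x) i - (√s • x) (i + 1)‖ with hf
  have hSm : MeasurableSet S := MeasurableSet.univ_pi fun _ => measurableSet_Ioi
  have h1 := integral_smul_pi_Ioi k s hs f
  rw [← hS] at h1
  have h2 : ∫ t in S, f (s • t) = ∫ t in S, (s ^ K * (s ^ (-((2 * (v : ℝ) + 3) / 2))) ^ (k + 1)) *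
      ((∑ i, t i) ^ K * Real.exp (-s * ∑ i, t i) * ∏ i, hk v (t i) ‖x i - x (i + 1)‖) := by
    refine setIntegral_congr_fun hSm fun t ht => ?_
    have ht' : ∀ i, 0 < t i := fun i => ht i (Set.mem_univ i)
    simp only [hf, Pi.smul_apply, smul_eq_mul]
    have e1 : ∑ i, s * t i = s * ∑ i, t i := by rw [Finset.mul_sum]
    have e2 : ∀ i, hk v (s * t i) ‖√s • x i - √s • x (i + 1)‖
        = s ^ (-((2 * (v : ℝ) + 3) / 2)) * hk v (t i) ‖x i - x (i + 1)‖ := by
      intro i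
      rw [← smul_sub, norm_smul, Real.norm_of_nonneg (Real.sqrt_nonneg s)]
      exact hk_scale_aux v s (t i) _ hs (ht' i)
    rw [e1, Finset.prod_congr rfl fun i _ => e2 i, Finset.prod_mul_distrib, Finset.prod_const,
      Finset.card_univ, Fintype.card_fin, mul_pow]
    have e3 : -1 * (s * ∑ i, t i) = -s * ∑ i, t i := by ring
    rw [e3]
    ring
  rw [h2, integral_const_mul] at h1
  have hw : wK v k K s x = ∫ t in S, ((∑ i, t i) ^ K * Real.exp (-s * ∑ i, t i) *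
      ∏ i, hk v (t i) ‖x i - x (i + 1)‖) := rfl
  have hw1 : wK v k K 1 (√s • x) = ∫ t in S, f t := rfl
  rw [← hw, ← hw1] at h1
  have hc : 0 < s ^ K * (s ^ (-((2 * (v : ℝ) + 3) / 2))) ^ (k + 1) := by positivity
  have h3 : wK v k K s x = (s ^ K * (s ^ (-((2 * (v : ℝ) + 3) / 2))) ^ (k + 1))⁻¹ *
      ((s ^ (k + 1))⁻¹ * wK v k K 1 (√s • x)) := by
    rw [← h1, inv_mul_cancel_left₀ hc.ne']
  rw [h3, ← mul_assoc]
  congr 1
  rw [← Real.rpow_natCast (s ^ (-((2 * (v : ℝ) + 3) / 2))) (k + 1), ← Real.rpow_mul hs.le,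
    ← Real.rpow_natCast s K, ← Real.rpow_natCast s (k + 1), ← Real.rpow_add hs,
    ← Real.rpow_neg hs.le, ← Real.rpow_neg hs.le, ← Real.rpow_add hs]
  congr 1
  push_cast
  ring

theorem wK_translate (v k K : ℕ) (s : ℝ) (x : Fin (k + 1) → EV v) (a : EV v) :
    wK v k K s (fun i => x i + a) = wK v k K s x := by
  simp only [wK, add_sub_add_right_eq_sub]

end Pool.Agent.H269
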