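import Pool.Agent.H269.DefsG2
import Pool.Agent.H269.GN.G028

/-!
# GN-76 cyclic product of heat kernels, moments (MP_f2af60_mp, infinitely many resonances in odd dimension)
-/

set_option autoImplicit false

open MeasureTheory Filter Topology Complex
open scoped InnerProductSpace ENNReal NNReal FourierTransform

namespace Pool.Agent.H269



theorem h135_hk_nonneg (v : ℕ) (t r : ℝ) (ht : 0 < t) : 0 ≤ hk v t r := by
  unfold hk
  positivity

theorem h135_hk_cont (v : ℕ) (t : ℝ) : Continuous (hk v t) := by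
  unfold hk
  fun_prop

theorem h135_path (v k : ℕ) : ∀ (t : Fin (k + 1) → ℝ) (_ : ∀ i, 0 < t i) (a b : EV v),
    ∫⁻ y : Fin k → EV v, ∏ i : Fin (k + 1), ENNReal.ofReal (hk v (t i)
      ‖(Fin.cons a y : Fin (k + 1) → EV v) i - (Fin.snoc y b : Fin (k + 1) → EV v) i‖) =
    ENNReal.ofReal (hk v (∑ i, t i) ‖a - b‖) := by
  induction k with
  | zero =>
    intro t ht a b
    rw [lintegral_unique]
    have h1 : (volume : Measure (Fin 0 → EV v)) Set.univ = 1 := by
      rw [volume_pi, Measure.pi_univ]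
      simp
    rw [h1, mul_one, Fin.prod_univ_one, Fin.sum_univ_one]
    rfl
  | succ k ih =>
    intro t ht a b
    have hmp := (volume_preserving_piFinSuccAbove (fun _ : Fin (k + 1) => EV v) 0).symm
    rw [← hmp.lintegral_comp_emb (MeasurableEquiv.measurableEmbedding _)]
    have hmeas : Measurable (fun y : Fin (k + 1) → EV v => ∏ i : Fin (k + 1 + 1),
        ENNReal.ofReal (hk v (t i) ‖(Fin.cons a y : Fin (k + 1 + 1) → EV v) i -
          (Fin.snoc y b : Fin (k + 1 + 1) → EV v) i‖)) := by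
      refine Finset.measurable_prod _ fun i _ => ?_
      refine ENNReal.measurable_ofReal.comp ?_
      refine (h135_hk_cont v (t i)).measurable.comp ?_
      refine Measurable.norm ?_
      refine Measurable.sub ?_ ?_
      · refine Fin.cases ?_ (fun j => ?_) i
        · simp only [Fin.cons_zero]
          exact measurable_const
        · simp only [Fin.cons_succ]
          exact measurable_pi_apply j
      · refine Fin.lastCases ?_ (fun j => ?_) i
        · simp only [Fin.snoc_last]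
          exact measurable_const
        · simp only [Fin.snoc_castSucc]
          exact measurable_pi_apply j
    rw [Measure.volume_eq_prod, lintegral_prod]
    swap
    · exact (hmeas.comp (MeasurableEquiv.measurable _)).aemeasurable
    have hkey : ∀ (y0 : EV v) (y' : Fin k → EV v),
        (∏ i : Fin (k + 1 + 1), ENNReal.ofReal (hk v (t i)
          ‖(Fin.cons a ((MeasurableEquiv.piFinSuccAbove (fun _ : Fin (k + 1) => EV v) 0).symm
            (y0, y')) : Fin (k + 1 + 1) → EV v) i -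
          (Fin.snoc ((MeasurableEquiv.piFinSuccAbove (fun _ : Fin (k + 1) => EV v) 0).symm
            (y0, y')) b : Fin (k + 1 + 1) → EV v) i‖)) =
        ENNReal.ofReal (hk v (t 0) ‖a - y0‖) *
          ∏ i : Fin (k + 1), ENNReal.ofReal (hk v (t i.succ)
            ‖(Fin.cons y0 y' : Fin (k + 1) → EV v) i -
              (Fin.snoc y' b : Fin (k + 1) → EV v) i‖) := by
      intro y0 y'
      have e1 : ((MeasurableEquiv.piFinSuccAbove (fun _ : Fin (k + 1) => EV v) 0).symm
            (y0, y')) = (Fin.cons y0 y' : Fin (k + 1) → EV v) := by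
        funext i
        refine Fin.cases ?_ (fun j => ?_) i
        · rfl
        · rfl
      rw [e1, Fin.prod_univ_succ]
      congr 1
      refine Finset.prod_congr rfl fun i _ => ?_
      have e2 : (Fin.snoc (Fin.cons y0 y' : Fin (k + 1) → EV v) b : Fin (k + 1 + 1) → EV v) =
          Fin.cons y0 (Fin.snoc y' b : Fin (k + 1) → EV v) := by
        rw [Fin.cons_snoc_eq_snoc_cons]
      rw [e2, Fin.cons_succ, Fin.cons_succ]
    have hL : ∀ y0 : EV v, ∫⁻ y' : Fin k → EV v,
        (∏ i : Fin (k + 1 + 1), ENNReal.ofReal (hk v (t i)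
          ‖(Fin.cons a ((MeasurableEquiv.piFinSuccAbove (fun _ : Fin (k + 1) => EV v) 0).symm
            (y0, y')) : Fin (k + 1 + 1) → EV v) i -
          (Fin.snoc ((MeasurableEquiv.piFinSuccAbove (fun _ : Fin (k + 1) => EV v) 0).symm
            (y0, y')) b : Fin (k + 1 + 1) → EV v) i‖)) =
        ENNReal.ofReal (hk v (t 0) ‖a - y0‖) *
          ENNReal.ofReal (hk v (∑ i : Fin (k + 1), t i.succ) ‖y0 - b‖) := by
      intro y0
      rw [← ih (fun i => t i.succ) (fun i => ht i.succ) y0 b, ← lintegral_const_mul']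
      · exact lintegral_congr fun y' => hkey y0 y'
      · exact ENNReal.ofReal_ne_top
    have hpos : 0 < ∑ i : Fin (k + 1), t i.succ :=
      Finset.sum_pos (fun i _ => ht i.succ) Finset.univ_nonempty
    rw [Fin.sum_univ_succ (f := t), ← hk_semigroup v (t 0) _ (ht 0) hpos a b]
    exact lintegral_congr hL

theorem h135_bdd (j : ℕ) : ∃ B : ℝ, 0 < B ∧ ∀ u : ℝ, 0 ≤ u →
    u ^ j * Real.exp (-u ^ 2 / 8) ≤ B := by
  refine ⟨Real.exp 2 * (j.factorial : ℝ), by positivity, fun u hu => ?_⟩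
  have h1 : u ^ j / (j.factorial : ℝ) ≤ Real.exp u := Real.pow_div_factorial_le_exp u hu j
  have hf : (0 : ℝ) < j.factorial := by positivity
  have h2 : u ^ j ≤ Real.exp u * j.factorial := by
    rwa [div_le_iff₀ hf] at h1
  have h3 : Real.exp u * Real.exp (-u ^ 2 / 8) ≤ Real.exp 2 := by
    rw [← Real.exp_add]
    apply Real.exp_le_exp.2
    nlinarith [sq_nonneg (u - 4)]
  calc u ^ j * Real.exp (-u ^ 2 / 8)
      ≤ Real.exp u * j.factorial * Real.exp (-u ^ 2 / 8) :=
        mul_le_mul_of_nonneg_right h2 (Real.exp_pos _).le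
    _ = (Real.exp u * Real.exp (-u ^ 2 / 8)) * j.factorial := by ring
    _ ≤ Real.exp 2 * j.factorial := mul_le_mul_of_nonneg_right h3 hf.le

theorem hk_cycle (v k : ℕ) (t : Fin (k + 1) → ℝ) (ht : ∀ i, 0 < t i) :
    ∫⁻ y : Fin k → EV v, ENNReal.ofReal (∏ i : Fin (k + 1), hk v (t i)
      ‖(Fin.cons 0 y : Fin (k + 1) → EV v) i - (Fin.cons 0 y : Fin (k + 1) → EV v) (i + 1)‖) =
    ENNReal.ofReal ((4 * Real.pi * ∑ i, t i) ^ (-((2 * (v : ℝ) + 3) / 2))) := by
  have hR : ENNReal.ofReal ((4 * Real.pi * ∑ i, t i) ^ (-((2 * (v : ℝ) + 3) / 2))) =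
      ENNReal.ofReal (hk v (∑ i, t i) ‖(0 : EV v) - 0‖) := by
    congr 1
    unfold hk
    simp
  rw [hR, ← h135_path v k t ht 0 0]
  refine lintegral_congr fun y => ?_
  rw [ENNReal.ofReal_prod_of_nonneg (fun i _ => h135_hk_nonneg v _ _ (ht i))]
  refine Finset.prod_congr rfl fun i _ => ?_
  have e : (Fin.cons 0 y : Fin (k + 1) → EV v) (i + 1) = (Fin.snoc y 0 : Fin (k + 1) → EV v) i := by
    refine Fin.lastCases ?_ (fun j => ?_) i
    · rw [Fin.last_add_one, Fin.snoc_last, Fin.cons_zero]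
    · rw [Fin.coeSucc_eq_succ, Fin.cons_succ, Fin.snoc_castSucc]
  rw [e]

theorem hk_moment (v j : ℕ) : ∃ C : ℝ, 0 < C ∧ ∀ t r : ℝ, 0 < t → 0 ≤ r →
    r ^ j * hk v t r ≤ C * t ^ ((j : ℝ) / 2) * hk v (2 * t) r := by
  obtain ⟨B, hB0, hB⟩ := h135_bdd j
  refine ⟨B * 2 ^ ((2 * (v : ℝ) + 3) / 2), by positivity, fun t r ht hr => ?_⟩
  have hpi := Real.pi_pos
  have hu : r = (r / Real.sqrt t) * Real.sqrt t := by
    have : Real.sqrt t ≠ 0 := (Real.sqrt_pos.2 ht).ne'
    field_simp
  have hsq : Real.sqrt t ^ 2 = t := Real.sq_sqrt ht.le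
  have hsj : t ^ ((j : ℝ) / 2) = Real.sqrt t ^ j := by
    rw [Real.sqrt_eq_rpow, ← Real.rpow_natCast, ← Real.rpow_mul ht.le]
    congr 1
    ring
  have h2 : (4 * Real.pi * t) ^ (-((2 * (v : ℝ) + 3) / 2)) =
      2 ^ ((2 * (v : ℝ) + 3) / 2) * (4 * Real.pi * (2 * t)) ^ (-((2 * (v : ℝ) + 3) / 2)) := by
    have e : 4 * Real.pi * (2 * t) = 2 * (4 * Real.pi * t) := by ring
    rw [e, Real.mul_rpow (x := 2) (y := 4 * Real.pi * t) (by norm_num) (by positivity),
      ← mul_assoc, ← Real.rpow_add (by norm_num : (0 : ℝ) < 2)]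
    simp
  have h3 : Real.exp (-r ^ 2 / (4 * t)) =
      Real.exp (-(r / Real.sqrt t) ^ 2 / 8) * Real.exp (-r ^ 2 / (4 * (2 * t))) := by
    rw [← Real.exp_add]
    congr 1
    rw [div_pow, hsq]
    field_simp
    ring
  have h4 : r ^ j = (r / Real.sqrt t) ^ j * Real.sqrt t ^ j := by
    rw [← mul_pow, ← hu]
  have hb := hB (r / Real.sqrt t) (by positivity)
  unfold hk
  rw [h2, h3, h4, hsj]
  have hX : 0 ≤ Real.sqrt t ^ j * 2 ^ ((2 * (v : ℝ) + 3) / 2) *
      (4 * Real.pi * (2 * t)) ^ (-((2 * (v : ℝ) + 3) / 2)) *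
      Real.exp (-r ^ 2 / (4 * (2 * t))) := by positivity
  have := mul_le_mul_of_nonneg_right hb hX
  calc _ = (r / Real.sqrt t) ^ j * Real.exp (-(r / Real.sqrt t) ^ 2 / 8) *
      (Real.sqrt t ^ j * 2 ^ ((2 * (v : ℝ) + 3) / 2) *
      (4 * Real.pi * (2 * t)) ^ (-((2 * (v : ℝ) + 3) / 2)) *
      Real.exp (-r ^ 2 / (4 * (2 * t)))) := by ring
    _ ≤ _ := this
    _ = _ := by ring

end Pool.Agent.H269
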