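import Pool.Agent.H269.DefsG2
import Pool.Agent.H269.GN.G076

/-!
# GN-77 the weight wk1: measurable, even, all moments (MP_f2af60_mp, infinitely many resonances in odd dimension)
-/

set_option autoImplicit false

open MeasureTheory Filter Topology Complex
open scoped InnerProductSpace ENNReal NNReal FourierTransform

namespace Pool.Agent.H269


namespace GN77

/-- length of the side number `i` of the closed polygon with vertices `0, y` -/
noncomputable def side (v k : ℕ) (y : Fin k → EV v) (i : Fin (k + 1)) : ℝ :=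
  ‖(Fin.cons 0 y : Fin (k + 1) → EV v) i - (Fin.cons 0 y : Fin (k + 1) → EV v) (i + 1)‖

lemma side_nonneg (v k : ℕ) (y : Fin k → EV v) (i : Fin (k + 1)) : 0 ≤ side v k y i :=
  norm_nonneg _

lemma cons_neg (v k : ℕ) (y : Fin k → EV v) (i : Fin (k + 1)) :
    (Fin.cons 0 (-y) : Fin (k + 1) → EV v) i = -(Fin.cons 0 y : Fin (k + 1) → EV v) i := by
  refine Fin.cases ?_ (fun m => ?_) i
  · simp
  · simp

lemma side_neg (v k : ℕ) (y : Fin k → EV v) (i : Fin (k + 1)) :
    side v k (-y) i = side v k y i := by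
  unfold side
  rw [cons_neg, cons_neg, ← norm_neg]
  congr 1
  abel

lemma norm_le_sides (v k : ℕ) (y : Fin k → EV v) : ‖y‖ ≤ ∑ i, side v k y i := by
  rw [pi_norm_le_iff_of_nonneg (Finset.sum_nonneg fun i _ => side_nonneg v k y i)]
  intro m
  set x : Fin (k + 1) → EV v := Fin.cons 0 y with hx
  set f : ℕ → EV v := fun i => x (Fin.ofNat (k + 1) i) with hf
  have h1 := dist_le_range_sum_dist f (m + 1)
  have h0 : f 0 = 0 := by
    simp [hf, hx]
  have hm : f (m + 1) = y m := by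
    have : Fin.ofNat (k + 1) ((m : ℕ) + 1) = m.succ := by
      ext
      simp [Fin.ofNat, Fin.val_succ]
    simp only [hf]
    rw [this, hx, Fin.cons_succ]
  rw [h0, hm, dist_eq_norm, zero_sub, norm_neg] at h1
  refine h1.trans ?_
  have hsub : Finset.range ((m : ℕ) + 1) ⊆ Finset.range (k + 1) := by
    intro i hi
    rw [Finset.mem_range] at hi ⊢
    omega
  refine (Finset.sum_le_sum_of_subset_of_nonneg hsub fun _ _ _ => dist_nonneg).trans ?_
  rw [Finset.sum_range]
  apply le_of_eq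
  apply Finset.sum_congr rfl
  intro i _
  have e1 : Fin.ofNat (k + 1) (i : ℕ) = i := by
    ext
    simp only [Fin.ofNat]
    exact Nat.mod_eq_of_lt i.2
  have e2 : Fin.ofNat (k + 1) ((i : ℕ) + 1) = i + 1 := by
    ext
    simp [Fin.ofNat, Fin.val_add]
  simp only [hf]
  rw [e1, e2, dist_eq_norm]
  rfl

lemma pow_sum_le (k j : ℕ) (r : Fin (k + 1) → ℝ) (hr : ∀ i, 0 ≤ r i) :
    (∑ i, r i) ^ j ≤ ((k : ℝ) + 1) ^ j * ∑ i, r i ^ j := by
  obtain ⟨i0, -, hi0⟩ := Finset.exists_max_image Finset.univ r ⟨0, Finset.mem_univ 0⟩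
  have h1 : ∑ i, r i ≤ ((k : ℝ) + 1) * r i0 := by
    calc ∑ i, r i ≤ ∑ _i : Fin (k + 1), r i0 := Finset.sum_le_sum fun i hi => hi0 i hi
      _ = ((k : ℝ) + 1) * r i0 := by simp
  calc (∑ i, r i) ^ j ≤ (((k : ℝ) + 1) * r i0) ^ j :=
        pow_le_pow_left₀ (Finset.sum_nonneg fun i _ => hr i) h1 j
    _ = ((k : ℝ) + 1) ^ j * r i0 ^ j := mul_pow _ _ _
    _ ≤ ((k : ℝ) + 1) ^ j * ∑ i, r i ^ j := by
        apply mul_le_mul_of_nonneg_left _ (by positivity)
        exact Finset.single_le_sum (f := fun i => r i ^ j) (fun i _ => pow_nonneg (hr i) j)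
          (Finset.mem_univ i0)

lemma hk_nonneg_g077 (v : ℕ) {t : ℝ} (ht : 0 < t) (r : ℝ) : 0 ≤ hk v t r := by
  unfold hk
  positivity

/-- bound of one product -/
lemma prod_bound_g077 (v k j : ℕ) : ∃ D : ℝ, 0 < D ∧ ∀ (t r : Fin (k + 1) → ℝ), (∀ i, 0 < t i) →
    (∀ i, 0 ≤ r i) → (∑ i, r i) ^ j * ∏ i, hk v (t i) (r i) ≤
      D * (∑ i, t i) ^ ((j : ℝ) / 2) * ∏ i, hk v (2 * t i) (r i) := by
  obtain ⟨C, hC, hCj⟩ := hk_moment v j
  obtain ⟨C0, hC0, hC00⟩ := hk_moment v 0
  have h00 : ∀ t r : ℝ, 0 < t → 0 ≤ r → hk v t r ≤ C0 * hk v (2 * t) r := by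
    intro t r ht hr
    have := hC00 t r ht hr
    simpa using this
  refine ⟨((k : ℝ) + 1) ^ j * ((k + 1) * (C * C0 ^ k)), by positivity, ?_⟩
  intro t r ht hr
  have hsum : ∀ i, t i ≤ ∑ i, t i := fun i =>
    Finset.single_le_sum (f := t) (fun i _ => (ht i).le) (Finset.mem_univ i)
  have hT : 0 < ∑ i, t i := lt_of_lt_of_le (ht 0) (hsum 0)
  have hP : 0 ≤ ∏ i, hk v (t i) (r i) := Finset.prod_nonneg fun i _ => hk_nonneg_g077 v (ht i) _
  have hone : ∀ i, r i ^ j * ∏ l, hk v (t l) (r l) ≤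
      (C * C0 ^ k) * (∑ i, t i) ^ ((j : ℝ) / 2) * ∏ l, hk v (2 * t l) (r l) := by
    intro i
    rw [← Finset.mul_prod_erase Finset.univ (fun l => hk v (t l) (r l)) (Finset.mem_univ i),
      ← Finset.mul_prod_erase Finset.univ (fun l => hk v (2 * t l) (r l)) (Finset.mem_univ i)]
    have h1 : r i ^ j * hk v (t i) (r i) ≤
        C * (∑ i, t i) ^ ((j : ℝ) / 2) * hk v (2 * t i) (r i) := by
      refine (hCj (t i) (r i) (ht i) (hr i)).trans ?_
      apply mul_le_mul_of_nonneg_right _ (hk_nonneg_g077 v (by linarith [ht i]) _)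
      apply mul_le_mul_of_nonneg_left _ hC.le
      exact Real.rpow_le_rpow (ht i).le (hsum i) (by positivity)
    have h2 : ∏ l ∈ Finset.univ.erase i, hk v (t l) (r l) ≤
        C0 ^ k * ∏ l ∈ Finset.univ.erase i, hk v (2 * t l) (r l) := by
      have hcard : (Finset.univ.erase i : Finset (Fin (k + 1))).card = k := by
        rw [Finset.card_erase_of_mem (Finset.mem_univ i)]
        simp
      calc ∏ l ∈ Finset.univ.erase i, hk v (t l) (r l)
          ≤ ∏ l ∈ Finset.univ.erase i, (C0 * hk v (2 * t l) (r l)) :=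
            Finset.prod_le_prod (fun l _ => hk_nonneg_g077 v (ht l) _)
              (fun l _ => h00 _ _ (ht l) (hr l))
        _ = C0 ^ k * ∏ l ∈ Finset.univ.erase i, hk v (2 * t l) (r l) := by
            rw [Finset.prod_mul_distrib, Finset.prod_const, hcard]
    calc r i ^ j * (hk v (t i) (r i) * ∏ l ∈ Finset.univ.erase i, hk v (t l) (r l))
        = (r i ^ j * hk v (t i) (r i)) * ∏ l ∈ Finset.univ.erase i, hk v (t l) (r l) := by ring
      _ ≤ (C * (∑ i, t i) ^ ((j : ℝ) / 2) * hk v (2 * t i) (r i)) *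
          (C0 ^ k * ∏ l ∈ Finset.univ.erase i, hk v (2 * t l) (r l)) := by
          apply mul_le_mul h1 h2
          · exact Finset.prod_nonneg fun l _ => hk_nonneg_g077 v (ht l) _
          · have := hk_nonneg_g077 v (t := 2 * t i) (by linarith [ht i]) (r i)
            positivity
      _ = _ := by ring
  calc (∑ i, r i) ^ j * ∏ i, hk v (t i) (r i)
      ≤ (((k : ℝ) + 1) ^ j * ∑ i, r i ^ j) * ∏ i, hk v (t i) (r i) :=
        mul_le_mul_of_nonneg_right (pow_sum_le k j r hr) hP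
    _ = ((k : ℝ) + 1) ^ j * ∑ i, (r i ^ j * ∏ l, hk v (t l) (r l)) := by
        rw [mul_assoc, Finset.sum_mul]
    _ ≤ ((k : ℝ) + 1) ^ j * ∑ _i : Fin (k + 1), ((C * C0 ^ k) * (∑ i, t i) ^ ((j : ℝ) / 2) *
          ∏ l, hk v (2 * t l) (r l)) := by
        apply mul_le_mul_of_nonneg_left _ (by positivity)
        exact Finset.sum_le_sum fun i _ => hone i
    _ = _ := by
        rw [Finset.sum_const, Finset.card_univ, Fintype.card_fin, nsmul_eq_mul]
        push_cast
        ring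

lemma rpow_exp_bound (a : ℝ) (ha : 0 ≤ a) : ∃ D : ℝ, 0 < D ∧ ∀ T : ℝ, 0 < T →
    T ^ a * Real.exp (-T) ≤ D * Real.exp (-(T / 2)) := by
  obtain ⟨m, hm⟩ := exists_nat_ge a
  refine ⟨1 + m.factorial * 2 ^ m, by positivity, ?_⟩
  intro T hT
  have h1 : T ^ a ≤ (1 + m.factorial * 2 ^ m) * Real.exp (T / 2) := by
    have he : 1 ≤ Real.exp (T / 2) := Real.one_le_exp (by positivity)
    have h2 : T ^ m ≤ (m.factorial * 2 ^ m) * Real.exp (T / 2) := by
      have h3 := Real.pow_div_factorial_le_exp (T / 2) (by positivity) m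
      rw [div_le_iff₀ (by positivity), div_pow, div_le_iff₀ (by positivity)] at h3
      linarith
    rcases le_total T 1 with hle | hge
    · have h4 : T ^ a ≤ 1 := Real.rpow_le_one hT.le hle ha
      have h5 : 0 ≤ (m.factorial * 2 ^ m : ℝ) * Real.exp (T / 2) := by positivity
      linarith
    · have h4 : T ^ a ≤ T ^ (m : ℝ) := Real.rpow_le_rpow_of_exponent_le hge hm
      rw [Real.rpow_natCast] at h4
      linarith
  calc T ^ a * Real.exp (-T) ≤ ((1 + m.factorial * 2 ^ m) * Real.exp (T / 2)) * Real.exp (-T) :=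
        mul_le_mul_of_nonneg_right h1 (Real.exp_pos _).le
    _ = (1 + m.factorial * 2 ^ m) * Real.exp (-(T / 2)) := by
        rw [mul_assoc, ← Real.exp_add]
        congr 2
        ring

/-- the integrand of the weight -/
noncomputable def Fi (v k K : ℕ) (y : Fin k → EV v) (t : Fin (k + 1) → ℝ) : ℝ :=
  (∑ i, t i) ^ K * Real.exp (-1 * ∑ i, t i) * ∏ i, hk v (t i) (side v k y i)

lemma wk1_eq (v k K : ℕ) (y : Fin k → EV v) : wk1 v k K y =
    ∫ t in Set.pi Set.univ (fun _ : Fin (k + 1) => Set.Ioi (0 : ℝ)), Fi v k K y t := rfl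

lemma Fi_nonneg (v k K : ℕ) (y : Fin k → EV v) {t : Fin (k + 1) → ℝ} (ht : ∀ i, 0 < t i) :
    0 ≤ Fi v k K y t := by
  unfold Fi
  have h1 : 0 ≤ ∑ i, t i := Finset.sum_nonneg fun i _ => (ht i).le
  have h2 : 0 ≤ ∏ i, hk v (t i) (side v k y i) :=
    Finset.prod_nonneg fun i _ => hk_nonneg_g077 v (ht i) _
  positivity

lemma measurable_cons (v k : ℕ) (i : Fin (k + 1)) :
    Measurable fun p : (Fin k → EV v) × (Fin (k + 1) → ℝ) =>
      (Fin.cons 0 p.1 : Fin (k + 1) → EV v) i := by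
  refine Fin.cases ?_ (fun m => ?_) i
  · simp only [Fin.cons_zero]
    exact measurable_const
  · simp only [Fin.cons_succ]
    exact (measurable_pi_apply m).comp measurable_fst

lemma measurable_side (v k : ℕ) (i : Fin (k + 1)) :
    Measurable fun p : (Fin k → EV v) × (Fin (k + 1) → ℝ) => side v k p.1 i :=
  ((measurable_cons v k i).sub (measurable_cons v k (i + 1))).norm

lemma measurable_hk (v : ℕ) {α : Type} [MeasurableSpace α] {f g : α → ℝ} (hf : Measurable f)
    (hg : Measurable g) : Measurable fun p => hk v (f p) (g p) := by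
  unfold hk
  exact ((measurable_const.mul hf).pow_const _).mul
    (((hg.pow_const 2).neg.div (measurable_const.mul hf)).exp)

lemma measurable_Fi (v k K : ℕ) :
    Measurable fun p : (Fin k → EV v) × (Fin (k + 1) → ℝ) => Fi v k K p.1 p.2 := by
  unfold Fi
  have h1 : Measurable fun p : (Fin k → EV v) × (Fin (k + 1) → ℝ) => ∑ i, p.2 i :=
    Finset.measurable_fun_sum _ fun i _ => (measurable_pi_apply i).comp measurable_snd
  have h2 : Measurable fun p : (Fin k → EV v) × (Fin (k + 1) → ℝ) =>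
      ∏ i, hk v (p.2 i) (side v k p.1 i) :=
    Finset.measurable_fun_prod _ fun i _ =>
      measurable_hk v ((measurable_pi_apply i).comp measurable_snd) (measurable_side v k i)
  exact ((h1.pow_const K).mul ((measurable_const.mul h1).exp)).mul h2

/-- the open positive orthant -/
abbrev Om (k : ℕ) : Set (Fin (k + 1) → ℝ) :=
  Set.pi Set.univ (fun _ : Fin (k + 1) => Set.Ioi (0 : ℝ))

lemma measurableSet_Om (k : ℕ) : MeasurableSet (Om k) :=
  MeasurableSet.univ_pi fun _ => measurableSet_Ioi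

lemma lint_bound (v k K j : ℕ) (hK : 2 * v + 3 ≤ K) : ∃ D : ℝ, 0 < D ∧
    ∀ t : Fin (k + 1) → ℝ, (∀ i, 0 < t i) →
      ∫⁻ y : Fin k → EV v, ENNReal.ofReal (‖y‖ ^ j * Fi v k K y t) ≤
        ENNReal.ofReal (D * Real.exp (-((∑ i, t i) / 2))) := by
  obtain ⟨D1, hD1, h1⟩ := prod_bound_g077 v k j
  have hK' : 2 * (v : ℝ) + 3 ≤ K := by exact_mod_cast hK
  have ha : 0 ≤ (K : ℝ) + (j : ℝ) / 2 + (-((2 * (v : ℝ) + 3) / 2)) := by
    have : (0 : ℝ) ≤ j := Nat.cast_nonneg j
    have : (0 : ℝ) ≤ v := Nat.cast_nonneg v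
    linarith
  obtain ⟨D2, hD2, h2⟩ := rpow_exp_bound _ ha
  refine ⟨D1 * D2, by positivity, ?_⟩
  intro t ht
  have hT : 0 < ∑ i, t i := lt_of_lt_of_le (ht 0)
    (Finset.single_le_sum (f := t) (fun i _ => (ht i).le) (Finset.mem_univ 0))
  set Tt := ∑ i, t i with hTt
  set Q : ℝ := Tt ^ K * Real.exp (-1 * Tt) * (D1 * Tt ^ ((j : ℝ) / 2)) with hQ
  have hQ0 : 0 ≤ Q := by positivity
  have hpt : ∀ y : Fin k → EV v, ‖y‖ ^ j * Fi v k K y t ≤
      Q * ∏ i, hk v (2 * t i) (side v k y i) := by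
    intro y
    have h3 : ‖y‖ ^ j ≤ (∑ i, side v k y i) ^ j :=
      pow_le_pow_left₀ (norm_nonneg _) (norm_le_sides v k y) j
    calc ‖y‖ ^ j * Fi v k K y t ≤ (∑ i, side v k y i) ^ j * Fi v k K y t :=
          mul_le_mul_of_nonneg_right h3 (Fi_nonneg v k K y ht)
      _ = (Tt ^ K * Real.exp (-1 * Tt)) *
          ((∑ i, side v k y i) ^ j * ∏ i, hk v (t i) (side v k y i)) := by
          unfold Fi
          rw [← hTt]
          ring
      _ ≤ (Tt ^ K * Real.exp (-1 * Tt)) * (D1 * Tt ^ ((j : ℝ) / 2) *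
          ∏ i, hk v (2 * t i) (side v k y i)) := by
          apply mul_le_mul_of_nonneg_left _ (by positivity)
          exact h1 t (side v k y) ht (side_nonneg v k y)
      _ = Q * ∏ i, hk v (2 * t i) (side v k y i) := by
          rw [hQ]; ring
  have hcyc := hk_cycle v k (fun i => 2 * t i) (fun i => by have := ht i; positivity)
  calc ∫⁻ y : Fin k → EV v, ENNReal.ofReal (‖y‖ ^ j * Fi v k K y t)
      ≤ ∫⁻ y : Fin k → EV v,
          ENNReal.ofReal Q * ENNReal.ofReal (∏ i, hk v (2 * t i) (side v k y i)) := by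
        apply lintegral_mono
        intro y
        simp only
        rw [← ENNReal.ofReal_mul hQ0]
        exact ENNReal.ofReal_le_ofReal (hpt y)
    _ = ENNReal.ofReal Q * ∫⁻ y : Fin k → EV v,
          ENNReal.ofReal (∏ i, hk v (2 * t i) (side v k y i)) :=
        lintegral_const_mul' _ _ ENNReal.ofReal_ne_top
    _ = ENNReal.ofReal Q * ENNReal.ofReal
          ((4 * Real.pi * ∑ i, 2 * t i) ^ (-((2 * (v : ℝ) + 3) / 2))) := by
        rw [← hcyc]
        rfl
    _ = ENNReal.ofReal (Q * (4 * Real.pi * ∑ i, 2 * t i) ^ (-((2 * (v : ℝ) + 3) / 2))) := by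
        rw [ENNReal.ofReal_mul hQ0]
    _ ≤ ENNReal.ofReal (D1 * D2 * Real.exp (-(Tt / 2))) := by
        apply ENNReal.ofReal_le_ofReal
        have h5 : (4 * Real.pi * ∑ i, 2 * t i) ^ (-((2 * (v : ℝ) + 3) / 2)) ≤
            Tt ^ (-((2 * (v : ℝ) + 3) / 2)) := by
          rw [← Finset.mul_sum, ← hTt]
          apply Real.rpow_le_rpow_of_nonpos hT
          · have := Real.pi_gt_three
            nlinarith
          · have : (0 : ℝ) ≤ v := Nat.cast_nonneg v
            linarith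
        calc Q * (4 * Real.pi * ∑ i, 2 * t i) ^ (-((2 * (v : ℝ) + 3) / 2))
            ≤ Q * Tt ^ (-((2 * (v : ℝ) + 3) / 2)) := mul_le_mul_of_nonneg_left h5 hQ0
          _ = D1 * (Tt ^ ((K : ℝ) + (j : ℝ) / 2 + (-((2 * (v : ℝ) + 3) / 2))) *
                Real.exp (-Tt)) := by
              rw [Real.rpow_add hT, Real.rpow_add hT, Real.rpow_natCast, hQ, neg_one_mul]
              ring
          _ ≤ D1 * (D2 * Real.exp (-(Tt / 2))) :=
              mul_le_mul_of_nonneg_left (h2 Tt hT) hD1.le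
          _ = D1 * D2 * Real.exp (-(Tt / 2)) := by ring

lemma lint_exp (k : ℕ) (D : ℝ) :
    ∫⁻ t in Om k, ENNReal.ofReal (D * Real.exp (-((∑ i, t i) / 2))) < ⊤ := by
  have h1 : Integrable (fun t : Fin (k + 1) → ℝ => ∏ i, Real.exp (-(1 / 2) * t i))
      (volume.restrict (Om k)) := by
    have h2 : (volume : Measure (Fin (k + 1) → ℝ)).restrict (Om k) =
        Measure.pi (fun _ : Fin (k + 1) => (volume : Measure ℝ).restrict (Set.Ioi 0)) :=
      Measure.restrict_pi_pi (μ := fun _ : Fin (k + 1) => (volume : Measure ℝ)) _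
    rw [h2]
    exact Integrable.fintype_prod (f := fun _ : Fin (k + 1) => fun x : ℝ =>
      Real.exp (-(1 / 2) * x)) fun _ => exp_neg_integrableOn_Ioi 0 (by norm_num)
  have h3 : Integrable (fun t : Fin (k + 1) → ℝ => D * Real.exp (-((∑ i, t i) / 2)))
      (volume.restrict (Om k)) := by
    refine (h1.const_mul D).congr (Filter.Eventually.of_forall fun t => ?_)
    simp only
    rw [← Real.exp_sum, ← Finset.mul_sum]
    congr 2
    ring
  exact (h3.lintegral_lt_top)

end GN77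



theorem wk1_props (v k K : ℕ) (hk : 1 ≤ k) (hK : 2 * v + 3 ≤ K) :
    Measurable (wk1 v k K) ∧ (∀ y, 0 ≤ wk1 v k K y) ∧ (∀ y, wk1 v k K (-y) = wk1 v k K y) ∧
    ∀ j : ℕ, Integrable (fun y : Fin k → EV v => ‖y‖ ^ j * wk1 v k K y) := by
  have hmeas : Measurable (wk1 v k K) := by
    have h := (GN77.measurable_Fi v k K).stronglyMeasurable
    have h2 := h.integral_prod_right' (ν := volume.restrict (GN77.Om k))
    exact h2.measurable
  refine ⟨hmeas, ?_, ?_, ?_⟩
  · intro y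
    rw [GN77.wk1_eq]
    apply setIntegral_nonneg (GN77.measurableSet_Om k)
    intro t ht
    exact GN77.Fi_nonneg v k K y (fun i => ht i (Set.mem_univ i))
  · intro y
    rw [GN77.wk1_eq, GN77.wk1_eq]
    congr 1
    funext t
    unfold GN77.Fi
    simp_rw [GN77.side_neg]
  · intro j
    refine ⟨((measurable_norm.pow_const j).mul hmeas).aestronglyMeasurable, ?_⟩
    obtain ⟨D, hD, hbound⟩ := GN77.lint_bound v k K j hK
    have h1 : ∀ y : Fin k → EV v, ‖‖y‖ ^ j * wk1 v k K y‖ₑ ≤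
        ∫⁻ t in GN77.Om k, ENNReal.ofReal (‖y‖ ^ j * GN77.Fi v k K y t) := by
      intro y
      rw [GN77.wk1_eq, ← integral_const_mul]
      refine (enorm_integral_le_lintegral_enorm _).trans ?_
      apply le_of_eq
      apply setLIntegral_congr_fun (GN77.measurableSet_Om k)
      intro t ht
      exact Real.enorm_of_nonneg (mul_nonneg (by positivity)
        (GN77.Fi_nonneg v k K y (fun i => ht i (Set.mem_univ i))))
    have hjm : Measurable fun p : (Fin k → EV v) × (Fin (k + 1) → ℝ) =>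
        ENNReal.ofReal (‖p.1‖ ^ j * GN77.Fi v k K p.1 p.2) :=
      (((measurable_norm.comp measurable_fst).pow_const j).mul
        (GN77.measurable_Fi v k K)).ennreal_ofReal
    calc ∫⁻ y : Fin k → EV v, ‖‖y‖ ^ j * wk1 v k K y‖ₑ
        ≤ ∫⁻ y : Fin k → EV v, ∫⁻ t in GN77.Om k,
            ENNReal.ofReal (‖y‖ ^ j * GN77.Fi v k K y t) := lintegral_mono h1
      _ = ∫⁻ t in GN77.Om k, ∫⁻ y : Fin k → EV v,
            ENNReal.ofReal (‖y‖ ^ j * GN77.Fi v k K y t) :=
          lintegral_lintegral_swap hjm.aemeasurable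
      _ ≤ ∫⁻ t in GN77.Om k, ENNReal.ofReal (D * Real.exp (-((∑ i, t i) / 2))) :=
          setLIntegral_mono' (GN77.measurableSet_Om k)
            fun t ht => hbound t (fun i => ht i (Set.mem_univ i))
      _ < ⊤ := GN77.lint_exp k D

end Pool.Agent.H269
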