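import Pool.Agent.H269.DefsG2
import Pool.Agent.H269.GN.G075
import Pool.Agent.H269.GN.G077

/-!
# GN-78 scaling form of the Born terms (MP_f2af60_mp, infinitely many resonances in odd dimension)
-/

set_option autoImplicit false

open MeasureTheory Filter Topology Complex
open scoped InnerProductSpace ENNReal NNReal FourierTransform

namespace Pool.Agent.H269



theorem potG_integrable {v : ℕ} {R M : ℝ} {V : EV v → ℝ} (P : PotG v R M V) :
    Integrable V := by
  have h1 : IntegrableOn V (Metric.closedBall (0 : EV v) R) := by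
    refine Measure.integrableOn_of_bounded (M := M) ?_ P.meas.aestronglyMeasurable ?_
    · exact (isCompact_closedBall _ _).measure_lt_top.ne
    · exact Filter.Eventually.of_forall fun x => by
        rw [Real.norm_eq_abs]; exact P.bdd x
  rwa [integrableOn_iff_integrable_of_support_subset] at h1
  intro x hx
  by_contra hx'
  exact hx (P.supp x hx')

theorem wK_cons (v k K : ℕ) (r : ℝ) (x : EV v) (y : Fin k → EV v) :
    wK v k K 1 (r • (Fin.cons x y : Fin (k + 1) → EV v)) = wk1 v k K (r • (y - fun _ => x)) := by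
  unfold wk1
  rw [← wK_translate v k K 1 (Fin.cons 0 (r • (y - fun _ => x)) : Fin (k + 1) → EV v) (r • x)]
  congr 1
  funext i
  refine Fin.cases ?_ (fun j => ?_) i
  · simp
  · simp [smul_sub]

/-- the integrand in the scaled variables -/
noncomputable def sH (v k K : ℕ) (V : EV v → ℝ) (s : ℝ) (p : EV v × (Fin k → EV v)) : ℝ :=
  V p.1 * (∏ i, V (p.1 + (√s)⁻¹ • p.2 i)) * wk1 v k K p.2

theorem sH_measurable (v k K : ℕ) (hk : 1 ≤ k) (hK : 2 * v + 3 ≤ K) {R M : ℝ} {V : EV v → ℝ}
    (P : PotG v R M V) (s : ℝ) : Measurable (sH v k K V s) := by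
  obtain ⟨hm, -, -, -⟩ := wk1_props v k K hk hK
  unfold sH
  refine ((P.meas.comp measurable_fst).mul ?_).mul (hm.comp measurable_snd)
  refine Finset.measurable_prod _ fun i _ => P.meas.comp ?_
  have h1 : Measurable (fun p : EV v × (Fin k → EV v) => p.2 i) :=
    (measurable_pi_apply i).comp measurable_snd
  exact measurable_fst.add (h1.const_smul (√s)⁻¹)

theorem sH_integrable (v k K : ℕ) (hk : 1 ≤ k) (hK : 2 * v + 3 ≤ K) (R M : ℝ) (V : EV v → ℝ)
    (P : PotG v R M V) (s : ℝ) :
    Integrable (sH v k K V s) ((volume : Measure (EV v)).prod (volume : Measure (Fin k → EV v))) := by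
  obtain ⟨hm, hnn, -, hint⟩ := wk1_props v k K hk hK
  have hint0 : Integrable (wk1 v k K) := by simpa using hint 0
  have hV := potG_integrable P
  have hmeas : Measurable (sH v k K V s) := sH_measurable v k K hk hK P s
  have h1 : Integrable (fun p : EV v × (Fin k → EV v) => (|V p.1| * M ^ k) * wk1 v k K p.2)
      ((volume : Measure (EV v)).prod (volume : Measure (Fin k → EV v))) :=
    (hV.abs.mul_const (M ^ k)).mul_prod hint0
  refine h1.mono' hmeas.aestronglyMeasurable (Filter.Eventually.of_forall fun p => ?_)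
  unfold sH
  rw [Real.norm_eq_abs, abs_mul, abs_mul, abs_of_nonneg (hnn p.2)]
  refine mul_le_mul_of_nonneg_right (mul_le_mul_of_nonneg_left ?_ (abs_nonneg _)) (hnn _)
  rw [Finset.abs_prod]
  calc ∏ i, |V (p.1 + (√s)⁻¹ • p.2 i)| ≤ ∏ _i : Fin k, M :=
        Finset.prod_le_prod (fun _ _ => abs_nonneg _) fun i _ => P.bdd _
    _ = M ^ k := by simp

theorem sub_smul_integral {k v : ℕ} (r : ℝ) (a : Fin k → EV v) (f : (Fin k → EV v) → ℝ) :
    ∫ x, f (r • (x - a)) = |(r ^ (k * (2 * v + 3)))⁻¹| * ∫ x, f x := by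
  have h1 : ∫ x, f (r • (x - a)) = ∫ x, f (r • x) :=
    integral_sub_right_eq_self (fun x => f (r • x)) a
  have h2 := Measure.integral_comp_smul (volume : Measure (Fin k → EV v)) f r
  have h3 : Module.finrank ℝ (Fin k → EV v) = k * (2 * v + 3) := by
    rw [Module.finrank_pi_fintype]
    simp
  rw [h1, h2, h3, smul_eq_mul]


theorem bornD_scale (v k K : ℕ) (hk : 1 ≤ k) (hK : 2 * v + 3 ≤ K) (R M : ℝ) (V : EV v → ℝ)
    (P : PotG v R M V) (s : ℝ) (hs : 0 < s) :
    bornD v k K V s = (1 / ((k : ℝ) + 1)) * s ^ ((v : ℝ) + 1 / 2 - k - K) *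
      ∫ y : Fin k → EV v, corr v k V ((√s)⁻¹ • y) * wk1 v k K y := by
  have hss : 0 < √s := Real.sqrt_pos.2 hs
  have hH := sH_integrable v k K hk hK R M V P s
  set c : ℝ := s ^ (((v : ℝ) + 1 / 2) * (k + 1) - K) with hc
  set n : ℕ := k * (2 * v + 3) with hn
  -- the integrand in the new variables
  let T : EV v × (Fin k → EV v) → ℝ := fun p => sH v k K V s (p.1, √s • (p.2 - fun _ => p.1))
  have hF : ∀ x : Fin (k + 1) → EV v, (∏ i, V (x i)) * wK v k K s x =
      c * T (MeasurableEquiv.piFinSuccAbove (fun _ : Fin (k + 1) => EV v) 0 x) := by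
    intro x
    have e1 : MeasurableEquiv.piFinSuccAbove (fun _ : Fin (k + 1) => EV v) 0 x =
        (x 0, Fin.tail x) := by
      ext <;> rfl
    rw [e1, wK_scale v k K s hs x]
    have e2 : (Fin.cons (x 0) (Fin.tail x) : Fin (k + 1) → EV v) = x := Fin.cons_self_tail x
    have e3 := wK_cons v k K (√s) (x 0) (Fin.tail x)
    rw [e2] at e3
    rw [e3, Fin.prod_univ_succ]
    simp only [T, sH]
    have e4 : ∀ i : Fin k, x 0 + (√s)⁻¹ • ((√s • (Fin.tail x - fun _ => x 0) :
        Fin k → EV v) i) = x i.succ := by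
      intro i
      simp only [Pi.smul_apply, Pi.sub_apply, smul_smul, inv_mul_cancel₀ hss.ne', one_smul]
      simp [Fin.tail]
    simp only [e4]
    ring
  have hTm : ∀ x₀, (fun x' => T (x₀, x')) =
      fun x' => (fun y => sH v k K V s (x₀, y)) (√s • (x' - fun _ => x₀)) := fun x₀ => rfl
  have hTint : Integrable T ((volume : Measure (EV v)).prod (volume : Measure (Fin k → EV v))) := by
    have hmeasT : Measurable T := by
      have hmeas : Measurable (sH v k K V s) := sH_measurable v k K hk hK P s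
      refine hmeas.comp (measurable_fst.prodMk ?_)
      have h1 : Measurable (fun p : EV v × (Fin k → EV v) => p.2 - fun _ => p.1) := by
        refine measurable_pi_lambda _ fun i => ?_
        exact ((measurable_pi_apply i).comp measurable_snd).sub measurable_fst
      exact h1.const_smul (√s)
    rw [integrable_prod_iff hmeasT.aestronglyMeasurable]
    constructor
    · have h1 := hH.prod_right_ae
      filter_upwards [h1] with x₀ hx
      rw [hTm x₀]
      exact (hx.comp_smul hss.ne').comp_sub_right (fun _ => x₀)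
    · have h1 := hH.integral_norm_prod_left
      have h2 : (fun x₀ => ∫ x', ‖T (x₀, x')‖) =
          fun x₀ => |(√s ^ n)⁻¹| * ∫ y, ‖sH v k K V s (x₀, y)‖ := by
        funext x₀
        exact sub_smul_integral (√s) (fun _ => x₀) (fun y => ‖sH v k K V s (x₀, y)‖)
      rw [h2]
      exact h1.const_mul _
  have h1 : ∫ x : Fin (k + 1) → EV v, (∏ i, V (x i)) * wK v k K s x =
      c * (|(√s ^ n)⁻¹| * ∫ y : Fin k → EV v, corr v k V ((√s)⁻¹ • y) * wk1 v k K y) := by
    simp only [hF]
    rw [integral_const_mul]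
    congr 1
    rw [(volume_preserving_piFinSuccAbove (fun _ : Fin (k + 1) => EV v) 0).integral_comp' T]
    rw [Measure.volume_eq_prod, integral_prod T hTint]
    have h2 : ∀ x₀, ∫ x', T (x₀, x') = |(√s ^ n)⁻¹| * ∫ y, sH v k K V s (x₀, y) := fun x₀ =>
      sub_smul_integral (√s) (fun _ => x₀) (fun y => sH v k K V s (x₀, y))
    simp only [h2]
    rw [integral_const_mul]
    congr 1
    rw [integral_integral_swap (f := fun x₀ y => sH v k K V s (x₀, y)) hH]
    refine integral_congr_ae (Filter.Eventually.of_forall fun y => ?_)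
    simp only [sH, corr, Pi.smul_apply]
    rw [integral_mul_const]
  unfold bornD
  rw [h1]
  have h2 : c * |(√s ^ n)⁻¹| = s ^ ((v : ℝ) + 1 / 2 - k - K) := by
    rw [abs_of_pos (by positivity), hc, Real.sqrt_eq_rpow, ← Real.rpow_natCast (s ^ (1 / 2 : ℝ)) n,
      ← Real.rpow_mul hs.le, ← Real.rpow_neg hs.le, ← Real.rpow_add hs]
    congr 1
    rw [hn]
    push_cast
    ring
  rw [← h2]
  ring


end Pool.Agent.H269
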