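import Pool.Agent.H269.DefsG2

/-!
# GN-79 iterated partial derivatives; integration by parts inequality (MP_f2af60_mp, infinitely many resonances in odd dimension)
-/

set_option autoImplicit false

open MeasureTheory Filter Topology Complex
open scoped InnerProductSpace ENNReal NNReal FourierTransform

namespace Pool.Agent.H269


theorem gn79_phi (q : ℝ) (hq : 2 ≤ q) (t : ℝ) :
    HasDerivAt (fun t : ℝ => |t| ^ (q - 2) * t) ((q - 1) * |t| ^ (q - 2)) t := by
  by_cases ht : t = 0
  · subst ht
    rw [hasDerivAt_iff_tendsto_slope_zero]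
    have hc : Continuous fun t : ℝ => |t| ^ (q - 2) :=
      continuous_abs.rpow_const fun _ => Or.inr (by linarith)
    have h0 : (q - 1) * |(0 : ℝ)| ^ (q - 2) = |(0 : ℝ)| ^ (q - 2) := by
      rcases eq_or_lt_of_le hq with h | h
      · rw [← h]; norm_num
      · rw [abs_zero, Real.zero_rpow (by linarith : q - 2 ≠ 0)]; ring
    rw [h0]
    have h1 : Tendsto (fun t : ℝ => |t| ^ (q - 2)) (𝓝[≠] 0) (𝓝 (|(0 : ℝ)| ^ (q - 2))) :=
      (hc.tendsto 0).mono_left nhdsWithin_le_nhds
    refine h1.congr' ?_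
    filter_upwards [self_mem_nhdsWithin] with t ht
    have ht' : t ≠ 0 := ht
    simp only [zero_add, mul_zero, sub_zero, smul_eq_mul]
    field_simp
  · have h1 := ((hasDerivAt_abs ht).rpow_const (p := q - 2)
      (Or.inl (abs_ne_zero.2 ht))).mul (hasDerivAt_id t)
    refine h1.congr_deriv ?_
    have h2 : |t| ^ (q - 2 - 1) * |t| = |t| ^ (q - 2) := by
      rw [← Real.rpow_add_one (abs_ne_zero.2 ht)]
      congr 1
      ring
    have h3 : ((SignType.sign t : ℝ)) * t = |t| := sign_mul_self t
    simp only [id]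
    calc (SignType.sign t : ℝ) * (q - 2) * |t| ^ (q - 2 - 1) * t + |t| ^ (q - 2) * 1
        = (q - 2) * (|t| ^ (q - 2 - 1) * ((SignType.sign t : ℝ) * t)) + |t| ^ (q - 2) := by ring
      _ = (q - 1) * |t| ^ (q - 2) := by rw [h3, h2]; ring

theorem gn79_pow (q : ℝ) (hq : 2 ≤ q) (t : ℝ) : |t| ^ (q - 2) * t * t = |t| ^ q := by
  by_cases ht : t = 0
  · subst ht
    rw [abs_zero, Real.zero_rpow (by linarith : q ≠ 0)]
    ring
  · have h1 : |t| ^ q = |t| ^ (q - 2) * |t| ^ (2 : ℝ) := by
      rw [← Real.rpow_add (abs_pos.2 ht)]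
      congr 1
      ring
    rw [h1, Real.rpow_two, sq_abs]
    ring


theorem pd_smG (v : ℕ) (f : EV v → ℝ) (hf : SmG v f) (L : List (Fin (2 * v + 3))) :
    SmG v (pd L f) := by
  induction L with
  | nil => exact hf
  | cons i L ih =>
    refine ⟨?_, ?_⟩
    · show ContDiff ℝ ((⊤ : ℕ∞) : WithTop ℕ∞)
        (fun x => fderiv ℝ (pd L f) x (EuclideanSpace.single i 1))
      exact (ih.smooth.fderiv_right (m := ((⊤ : ℕ∞) : WithTop ℕ∞)) (by simp)).clm_apply
        contDiff_const
    · exact ih.supp.fderiv_apply ℝ _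

theorem pd_append (v : ℕ) (f : EV v → ℝ) (L₁ L₂ : List (Fin (2 * v + 3))) :
    pd (L₁ ++ L₂) f = pd L₁ (pd L₂ f) := by
  induction L₁ with
  | nil => rfl
  | cons i L ih =>
    rw [List.cons_append]
    show (fun x => fderiv ℝ (pd (L ++ L₂) f) x (EuclideanSpace.single i 1)) =
      (fun x => fderiv ℝ (pd L (pd L₂ f)) x (EuclideanSpace.single i 1))
    rw [ih]

theorem gn_ibp (v : ℕ) (q : ℝ) (hq : 2 ≤ q) (u : EV v → ℝ) (hu : SmG v u)
    (i : Fin (2 * v + 3)) :
    Integrable (fun x => |pd [i] u x| ^ q) ∧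
    Integrable (fun x => |u x| * |pd [i] u x| ^ (q - 2) * |pd [i, i] u x|) ∧
    ∫ x, |pd [i] u x| ^ q ≤
      (q - 1) * ∫ x, |u x| * |pd [i] u x| ^ (q - 2) * |pd [i, i] u x| := by
  have hg := pd_smG v u hu [i]
  have hgg := pd_smG v u hu [i, i]
  set g : EV v → ℝ := pd [i] u with hgdef
  set gg : EV v → ℝ := pd [i, i] u with hggdef
  set e : EV v := EuclideanSpace.single i 1 with he
  have hge : ∀ x, fderiv ℝ u x e = g x := fun _ => rfl
  have hgge : ∀ x, fderiv ℝ g x e = gg x := fun _ => rfl
  have hcu : Continuous u := hu.smooth.continuous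
  have hcg : Continuous g := hg.smooth.continuous
  have hcgg : Continuous gg := hgg.smooth.continuous
  have hcp : Continuous fun x => |g x| ^ (q - 2) :=
    hcg.abs.rpow_const fun _ => Or.inr (by linarith)
  have hdu : Differentiable ℝ u := hu.smooth.differentiable (by simp)
  have hdg : Differentiable ℝ g := hg.smooth.differentiable (by simp)
  set w : EV v → ℝ := fun x => |g x| ^ (q - 2) * g x with hw
  have hwd : ∀ x, HasFDerivAt w (((q - 1) * |g x| ^ (q - 2)) • fderiv ℝ g x) x := by
    intro x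
    exact (gn79_phi q hq (g x)).comp_hasFDerivAt x (hdg x).hasFDerivAt
  have hcw : Continuous w := hcp.mul hcg
  have hws : HasCompactSupport w := hg.supp.mul_left
  have hwe : ∀ x, fderiv ℝ w x e = (q - 1) * |g x| ^ (q - 2) * gg x := by
    intro x
    rw [(hwd x).fderiv, ContinuousLinearMap.smul_apply, hgge, smul_eq_mul]
  have i1 : Integrable (fun x => |g x| ^ q) := by
    refine Continuous.integrable_of_hasCompactSupport
      (hcg.abs.rpow_const fun _ => Or.inr (by linarith)) ?_
    exact hg.supp.comp_left (g := fun t : ℝ => |t| ^ q)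
      (by simp only [abs_zero]; exact Real.zero_rpow (by linarith))
  have i2 : Integrable (fun x => |u x| * |g x| ^ (q - 2) * |gg x|) := by
    refine Continuous.integrable_of_hasCompactSupport
      ((hcu.abs.mul hcp).mul hcgg.abs) ?_
    have h1 : HasCompactSupport fun x => |gg x| :=
      hgg.supp.comp_left (g := fun t : ℝ => |t|) abs_zero
    exact h1.mul_left
  refine ⟨i1, i2, ?_⟩
  have j1 : Integrable (fun x => fderiv ℝ w x e * u x) := by
    simp_rw [hwe]
    refine Continuous.integrable_of_hasCompactSupport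
      (((continuous_const.mul hcp).mul hcgg).mul hcu) ?_
    exact hu.supp.mul_left
  have j2 : Integrable (fun x => w x * fderiv ℝ u x e) := by
    simp_rw [hge]
    exact Continuous.integrable_of_hasCompactSupport (hcw.mul hcg) hg.supp.mul_left
  have j3 : Integrable (fun x => w x * u x) :=
    Continuous.integrable_of_hasCompactSupport (hcw.mul hcu) hu.supp.mul_left
  have key := integral_mul_fderiv_eq_neg_fderiv_mul_of_integrable (v := e) j1 j2 j3
    (fun x _ => (hwd x).differentiableAt) (fun x _ => hdu x)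
  have e1 : ∫ x, |g x| ^ q = ∫ x, w x * fderiv ℝ u x e := by
    refine integral_congr_ae (Filter.Eventually.of_forall fun x => ?_)
    simp only [hge, hw]
    exact (gn79_pow q hq (g x)).symm
  rw [e1, key, ← integral_neg, ← integral_const_mul]
  refine integral_mono j1.neg (i2.const_mul _) fun x => ?_
  simp only [hwe]
  have h1 : 0 ≤ |g x| ^ (q - 2) := Real.rpow_nonneg (abs_nonneg _) _
  have h2 : -((q - 1) * |g x| ^ (q - 2) * gg x * u x) ≤
      |(q - 1) * |g x| ^ (q - 2) * gg x * u x| := neg_le_abs _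
  refine h2.trans (le_of_eq ?_)
  rw [abs_mul, abs_mul, abs_mul, abs_of_nonneg (by linarith : 0 ≤ q - 1), abs_of_nonneg h1]
  ring

end Pool.Agent.H269
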