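import Pool.Agent.H269.DefsG2
import Pool.Agent.H269.GN.G079

/-!
# GN-80 Gagliardo-Nirenberg inequality with the sup norm (MP_f2af60_mp, infinitely many resonances in odd dimension)
-/

set_option autoImplicit false

open MeasureTheory Filter Topology Complex
open scoped InnerProductSpace ENNReal NNReal FourierTransform

namespace Pool.Agent.H269



theorem g80_young {u d b K ε p1 q p3 : ℝ} (hu : 0 ≤ u) (hd : 0 ≤ d) (hb : 0 ≤ b)
    (hp1 : 0 < p1) (hq : 2 < q) (hp3 : 0 < p3) (hw : 1 / p1 + (q - 2) / q + 1 / p3 = 1)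
    (hε : 0 < ε) (hK : 0 < K) :
    K * (u * d ^ (q - 2) * b) ≤ ε * u ^ p1 + 1 / 2 * d ^ q +
      (K / (ε ^ (1 / p1) * (1 / 2 : ℝ) ^ ((q - 2) / q))) ^ p3 * b ^ p3 := by
  have hq0 : 0 < q := by linarith
  have hD0 : 0 < K / (ε ^ (1 / p1) * (1 / 2 : ℝ) ^ ((q - 2) / q)) := by positivity
  obtain ⟨D, hD⟩ : ∃ D : ℝ, D = K / (ε ^ (1 / p1) * (1 / 2 : ℝ) ^ ((q - 2) / q)) := ⟨_, rfl⟩
  rw [← hD] at hD0 ⊢
  have hw2 : 0 < (q - 2) / q := div_pos (by linarith) hq0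
  have hw1 : 0 < 1 / p1 := by positivity
  have hw3 : 0 < 1 / p3 := by positivity
  have h1 := Real.geom_mean_le_arith_mean3_weighted hw1.le hw2.le hw3.le
    (show 0 ≤ ε * u ^ p1 by positivity) (show 0 ≤ 1 / 2 * d ^ q by positivity)
    (show 0 ≤ D ^ p3 * b ^ p3 by positivity) hw
  have e1 : (ε * u ^ p1) ^ (1 / p1) = ε ^ (1 / p1) * u := by
    rw [Real.mul_rpow hε.le (by positivity), ← Real.rpow_mul hu, mul_one_div_cancel hp1.ne',
      Real.rpow_one]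
  have e2 : (1 / 2 * d ^ q) ^ ((q - 2) / q) = (1 / 2 : ℝ) ^ ((q - 2) / q) * d ^ (q - 2) := by
    rw [Real.mul_rpow (by norm_num) (by positivity), ← Real.rpow_mul hd, mul_div_cancel₀ _ hq0.ne']
  have e3 : (D ^ p3 * b ^ p3) ^ (1 / p3) = D * b := by
    rw [Real.mul_rpow (by positivity) (by positivity), ← Real.rpow_mul hD0.le,
      ← Real.rpow_mul hb, mul_one_div_cancel hp3.ne', Real.rpow_one, Real.rpow_one]
  rw [e1, e2, e3] at h1
  have e4 : ε ^ (1 / p1) * u * ((1 / 2 : ℝ) ^ ((q - 2) / q) * d ^ (q - 2)) * (D * b) =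
      K * (u * d ^ (q - 2) * b) := by
    have h2 : D * (ε ^ (1 / p1) * (1 / 2 : ℝ) ^ ((q - 2) / q)) = K := by
      rw [hD]
      exact div_mul_cancel₀ K (by positivity)
    rw [← h2]
    ring
  rw [e4] at h1
  have w1le : 1 / p1 ≤ 1 := by linarith
  have w2le : (q - 2) / q ≤ 1 := by linarith
  have w3le : 1 / p3 ≤ 1 := by linarith
  have f1 := mul_le_mul_of_nonneg_right w1le (show 0 ≤ ε * u ^ p1 by positivity)
  have f2 := mul_le_mul_of_nonneg_right w2le (show 0 ≤ 1 / 2 * d ^ q by positivity)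
  have f3 := mul_le_mul_of_nonneg_right w3le (show 0 ≤ D ^ p3 * b ^ p3 by positivity)
  linarith

theorem g80_young2 {d b K q p3 : ℝ} (hd : 0 ≤ d) (hb : 0 ≤ b)
    (hq : 2 < q) (hp3 : 0 < p3) (hw : (q - 2) / q + 1 / p3 = 1) (hK : 0 < K) :
    K * (d ^ (q - 2) * b) ≤ 1 / 2 * d ^ q +
      (K / (1 / 2 : ℝ) ^ ((q - 2) / q)) ^ p3 * b ^ p3 := by
  have hq0 : 0 < q := by linarith
  have hD0 : 0 < K / (1 / 2 : ℝ) ^ ((q - 2) / q) := by positivity
  obtain ⟨D, hD⟩ : ∃ D : ℝ, D = K / (1 / 2 : ℝ) ^ ((q - 2) / q) := ⟨_, rfl⟩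
  rw [← hD] at hD0 ⊢
  have hw2 : 0 < (q - 2) / q := div_pos (by linarith) hq0
  have hw3 : 0 < 1 / p3 := by positivity
  have h1 := Real.geom_mean_le_arith_mean2_weighted hw2.le hw3.le
    (show 0 ≤ 1 / 2 * d ^ q by positivity)
    (show 0 ≤ D ^ p3 * b ^ p3 by positivity) hw
  have e2 : (1 / 2 * d ^ q) ^ ((q - 2) / q) = (1 / 2 : ℝ) ^ ((q - 2) / q) * d ^ (q - 2) := by
    rw [Real.mul_rpow (by norm_num) (by positivity), ← Real.rpow_mul hd, mul_div_cancel₀ _ hq0.ne']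
  have e3 : (D ^ p3 * b ^ p3) ^ (1 / p3) = D * b := by
    rw [Real.mul_rpow (by positivity) (by positivity), ← Real.rpow_mul hD0.le,
      ← Real.rpow_mul hb, mul_one_div_cancel hp3.ne', Real.rpow_one, Real.rpow_one]
  rw [e2, e3] at h1
  have e4 : (1 / 2 : ℝ) ^ ((q - 2) / q) * d ^ (q - 2) * (D * b) = K * (d ^ (q - 2) * b) := by
    have h2 : D * (1 / 2 : ℝ) ^ ((q - 2) / q) = K := by
      rw [hD]
      exact div_mul_cancel₀ K (by positivity)
    rw [← h2]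
    ring
  rw [e4] at h1
  have w2le : (q - 2) / q ≤ 1 := by linarith
  have w3le : 1 / p3 ≤ 1 := by linarith
  have f2 := mul_le_mul_of_nonneg_right w2le (show 0 ≤ 1 / 2 * d ^ q by positivity)
  have f3 := mul_le_mul_of_nonneg_right w3le (show 0 ≤ D ^ p3 * b ^ p3 by positivity)
  linarith

theorem g80_int {v : ℕ} {g : EV v → ℝ} (hg : SmG v g) {a : ℝ} (ha : 0 < a) :
    Integrable (fun x => |g x| ^ a) := by
  apply Continuous.integrable_of_hasCompactSupport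
  · exact hg.smooth.continuous.abs.rpow_const (fun x => Or.inr ha.le)
  · exact hg.supp.comp_left (g := fun y : ℝ => |y| ^ a) (by
      show |(0 : ℝ)| ^ a = 0
      rw [abs_zero, Real.zero_rpow ha.ne'])

theorem g80_one {v : ℕ} {p1 q p3 ε : ℝ} (hp1 : 0 < p1) (hq : 2 < q) (hp3 : 0 < p3)
    (hw : 1 / p1 + (q - 2) / q + 1 / p3 = 1) (hε : 0 < ε) {u : EV v → ℝ} (hu : SmG v u)
    (i : Fin (2 * v + 3)) :
    (∫ x, |pd [i] u x| ^ q) ≤ 2 * ε * (∫ x, |u x| ^ p1) +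
      2 * ((q - 1) / (ε ^ (1 / p1) * (1 / 2 : ℝ) ^ ((q - 2) / q))) ^ p3 *
        (∫ x, |pd [i, i] u x| ^ p3) := by
  obtain ⟨h1, h2, h3⟩ := gn_ibp v q hq.le u hu i
  have i1 : Integrable (fun x => |u x| ^ p1) := g80_int hu hp1
  have i3 : Integrable (fun x => |pd [i, i] u x| ^ p3) := g80_int (pd_smG v u hu [i, i]) hp3
  obtain ⟨D, hD⟩ : ∃ D : ℝ,
    D = ((q - 1) / (ε ^ (1 / p1) * (1 / 2 : ℝ) ^ ((q - 2) / q))) ^ p3 := ⟨_, rfl⟩
  have h4 : (q - 1) * ∫ x, |u x| * |pd [i] u x| ^ (q - 2) * |pd [i, i] u x| ≤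
      ε * (∫ x, |u x| ^ p1) + 1 / 2 * (∫ x, |pd [i] u x| ^ q) +
        D * (∫ x, |pd [i, i] u x| ^ p3) := by
    have i4 : Integrable (fun x => ε * |u x| ^ p1 + 1 / 2 * |pd [i] u x| ^ q) :=
      (i1.const_mul ε).add (h1.const_mul (1 / 2))
    rw [← integral_const_mul, ← integral_const_mul, ← integral_const_mul, ← integral_const_mul,
      ← integral_add (i1.const_mul ε) (h1.const_mul (1 / 2)),
      ← integral_add i4 (i3.const_mul D)]
    apply integral_mono (h2.const_mul (q - 1)) (i4.add (i3.const_mul D))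
    intro x
    have h5 := g80_young (abs_nonneg (u x)) (abs_nonneg (pd [i] u x))
      (abs_nonneg (pd [i, i] u x)) hp1 hq hp3 hw hε (show 0 < q - 1 by linarith)
    rw [← hD] at h5
    exact h5
  rw [← hD]
  have h6 : 2 * ε * (∫ x, |u x| ^ p1) = 2 * (ε * (∫ x, |u x| ^ p1)) := by ring
  have h7 : 2 * D * (∫ x, |pd [i, i] u x| ^ p3) = 2 * (D * (∫ x, |pd [i, i] u x| ^ p3)) := by
    ring
  rw [h6, h7]
  linarith

theorem g80_one' {v : ℕ} {q p3 : ℝ} (hq : 2 < q) (hp3 : 0 < p3)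
    (hw : (q - 2) / q + 1 / p3 = 1) {u : EV v → ℝ} (hu : SmG v u) (hu1 : ∀ x, |u x| ≤ 1)
    (i : Fin (2 * v + 3)) :
    ∫ x, |pd [i] u x| ^ q ≤ 2 * ((q - 1) / (1 / 2 : ℝ) ^ ((q - 2) / q)) ^ p3 *
        ∫ x, |pd [i, i] u x| ^ p3 := by
  obtain ⟨h1, h2, h3⟩ := gn_ibp v q hq.le u hu i
  have i3 : Integrable (fun x => |pd [i, i] u x| ^ p3) := g80_int (pd_smG v u hu [i, i]) hp3
  obtain ⟨D, hD⟩ : ∃ D : ℝ, D = ((q - 1) / (1 / 2 : ℝ) ^ ((q - 2) / q)) ^ p3 := ⟨_, rfl⟩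
  have h4 : (q - 1) * ∫ x, |u x| * |pd [i] u x| ^ (q - 2) * |pd [i, i] u x| ≤
      1 / 2 * (∫ x, |pd [i] u x| ^ q) + D * (∫ x, |pd [i, i] u x| ^ p3) := by
    rw [← integral_const_mul, ← integral_const_mul, ← integral_const_mul,
      ← integral_add (h1.const_mul (1 / 2)) (i3.const_mul D)]
    apply integral_mono (h2.const_mul (q - 1)) ((h1.const_mul (1 / 2)).add (i3.const_mul D))
    intro x
    have h5 := g80_young2 (abs_nonneg (pd [i] u x))
      (abs_nonneg (pd [i, i] u x)) hq hp3 hw (show 0 < q - 1 by linarith)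
    rw [← hD] at h5
    refine le_trans ?_ h5
    apply mul_le_mul_of_nonneg_left _ (by linarith)
    rw [mul_assoc]
    have h6 : 0 ≤ |pd [i] u x| ^ (q - 2) * |pd [i, i] u x| := by positivity
    calc |u x| * (|pd [i] u x| ^ (q - 2) * |pd [i, i] u x|)
        ≤ 1 * (|pd [i] u x| ^ (q - 2) * |pd [i, i] u x|) := mul_le_mul_of_nonneg_right (hu1 x) h6
      _ = _ := one_mul _
  rw [← hD]
  have h7 : 2 * D * (∫ x, |pd [i, i] u x| ^ p3) = 2 * (D * (∫ x, |pd [i, i] u x| ^ p3)) := by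
    ring
  rw [h7]
  linarith

/-- sum over the words of length `n` -/
noncomputable def g80S {ι : Type} [Fintype ι] (n : ℕ) (F : List ι → ℝ) : ℝ :=
  ∑ w : Fin n → ι, F (List.ofFn w)

theorem g80S_zero {ι : Type} [Fintype ι] (F : List ι → ℝ) : g80S 0 F = F [] := by
  simp [g80S]

theorem g80S_succ {ι : Type} [Fintype ι] (n : ℕ) (F : List ι → ℝ) :
    g80S (n + 1) F = ∑ i : ι, g80S n (fun L => F (i :: L)) := by
  unfold g80S
  rw [← (Fin.consEquiv (fun _ : Fin (n + 1) => ι)).sum_comp, Fintype.sum_prod_type]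
  apply Finset.sum_congr rfl
  intro i _
  apply Finset.sum_congr rfl
  intro w _
  congr 1
  rw [List.ofFn_succ]
  rfl

theorem g80S_mono {ι : Type} [Fintype ι] (n : ℕ) {F G : List ι → ℝ} (h : ∀ L, F L ≤ G L) :
    g80S n F ≤ g80S n G := Finset.sum_le_sum fun _ _ => h _

theorem g80S_add {ι : Type} [Fintype ι] (n : ℕ) (F G : List ι → ℝ) :
    g80S n (fun L => F L + G L) = g80S n F + g80S n G := Finset.sum_add_distrib

theorem g80S_mul {ι : Type} [Fintype ι] (n : ℕ) (c : ℝ) (F : List ι → ℝ) :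
    g80S n (fun L => c * F L) = c * g80S n F := (Finset.mul_sum _ _ _).symm

theorem g80S_nonneg {ι : Type} [Fintype ι] (n : ℕ) {F : List ι → ℝ} (h : ∀ L, 0 ≤ F L) :
    0 ≤ g80S n F := Finset.sum_nonneg fun _ _ => h _

theorem g80S_single {ι : Type} [Fintype ι] {F : List ι → ℝ} (h : ∀ L, 0 ≤ F L) (L : List ι) :
    F L ≤ g80S L.length F := by
  induction L generalizing F with
  | nil => rw [List.length_nil, g80S_zero]
  | cons a L ih =>
    rw [List.length_cons, g80S_succ]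
    refine le_trans (ih (F := fun L => F (a :: L)) (fun L => h _)) ?_
    exact Finset.single_le_sum (f := fun i : ι => g80S L.length (fun L => F (i :: L)))
      (fun i _ => g80S_nonneg _ fun L => h _) (Finset.mem_univ a)

/-- the terms of the norm -/
noncomputable def g80T {v : ℕ} (f : EV v → ℝ) (a : ℝ) (L : List (Fin (2 * v + 3))) : ℝ :=
  ∫ x, |pd L f x| ^ a

theorem g80T_nonneg {v : ℕ} (f : EV v → ℝ) (a : ℝ) (L : List (Fin (2 * v + 3))) :
    0 ≤ g80T f a L := integral_nonneg fun _ => Real.rpow_nonneg (abs_nonneg _) _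

theorem g80_diag {ι : Type} [Fintype ι] (n : ℕ) {F : List ι → ℝ} (h : ∀ L, 0 ≤ F L) :
    ∑ i : ι, g80S n (fun L => F (i :: i :: L)) ≤ g80S (n + 2) F := by
  rw [g80S_succ]
  apply Finset.sum_le_sum
  intro i _
  rw [g80S_succ]
  exact Finset.single_le_sum (f := fun j : ι => g80S n (fun L => F (i :: j :: L)))
    (fun j _ => g80S_nonneg _ fun L => h _) (Finset.mem_univ i)

theorem g80_step (v m j : ℕ) (hj : 1 ≤ j) (hjm : j < m) : ∃ C : ℝ, 0 ≤ C ∧
    ∀ f : EV v → ℝ, SmG v f → (∀ x, |f x| ≤ 1) →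
      g80S j (g80T f (2 * (m : ℝ) / j)) ≤ C * g80S (j + 1) (g80T f (2 * (m : ℝ) / (j + 1 : ℕ))) := by
  induction j, hj using Nat.le_induction with
  | base =>
    have hm : (1 : ℝ) < m := by exact_mod_cast hjm
    have hq : 2 < 2 * (m : ℝ) / (1 : ℕ) := by
      rw [Nat.cast_one, div_one]
      linarith
    have hp3 : 0 < 2 * (m : ℝ) / (1 + 1 : ℕ) := by positivity
    have hw : (2 * (m : ℝ) / (1 : ℕ) - 2) / (2 * (m : ℝ) / (1 : ℕ)) +
        1 / (2 * (m : ℝ) / (1 + 1 : ℕ)) = 1 := by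
      push_cast
      field_simp
      ring
    obtain ⟨q, hqd⟩ : ∃ q : ℝ, q = 2 * (m : ℝ) / (1 : ℕ) := ⟨_, rfl⟩
    obtain ⟨p3, hp3d⟩ : ∃ p : ℝ, p = 2 * (m : ℝ) / (1 + 1 : ℕ) := ⟨_, rfl⟩
    rw [← hqd] at hq hw ⊢
    rw [← hp3d] at hp3 hw ⊢
    have hD0 : 0 ≤ 2 * ((q - 1) / (1 / 2 : ℝ) ^ ((q - 2) / q)) ^ p3 := by
      have : 0 < q - 1 := by linarith
      positivity
    refine ⟨_, hD0, ?_⟩
    intro f hf hf1
    have h1 : g80S 1 (g80T f q) ≤ 2 * ((q - 1) / (1 / 2 : ℝ) ^ ((q - 2) / q)) ^ p3 *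
        ∑ i : Fin (2 * v + 3), g80S 0 (fun L => g80T f p3 (i :: i :: L)) := by
      rw [g80S_succ, Finset.mul_sum]
      apply Finset.sum_le_sum
      intro i _
      rw [g80S_zero, g80S_zero]
      exact g80_one' hq hp3 hw hf hf1 i
    refine h1.trans (mul_le_mul_of_nonneg_left ?_ hD0)
    exact g80_diag 0 (g80T_nonneg f p3)
  | succ j hj ih =>
    obtain ⟨C', hC', hih⟩ := ih (by omega)
    have hj0 : (0 : ℝ) < j := by exact_mod_cast hj
    have hm0 : (0 : ℝ) < m := by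
      have : 0 < m := by omega
      exact_mod_cast this
    have hjm' : ((j : ℝ) + 1) < m := by exact_mod_cast hjm
    have hp1 : 0 < 2 * (m : ℝ) / j := by positivity
    have hq : 2 < 2 * (m : ℝ) / (j + 1 : ℕ) := by
      push_cast
      rw [lt_div_iff₀ (by positivity)]
      linarith
    have hp3 : 0 < 2 * (m : ℝ) / (j + 1 + 1 : ℕ) := by positivity
    have hw : 1 / (2 * (m : ℝ) / j) +
        (2 * (m : ℝ) / (j + 1 : ℕ) - 2) / (2 * (m : ℝ) / (j + 1 : ℕ)) +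
        1 / (2 * (m : ℝ) / (j + 1 + 1 : ℕ)) = 1 := by
      push_cast
      field_simp
      ring
    obtain ⟨p1, hp1d⟩ : ∃ p : ℝ, p = 2 * (m : ℝ) / j := ⟨_, rfl⟩
    obtain ⟨q, hqd⟩ : ∃ q : ℝ, q = 2 * (m : ℝ) / (j + 1 : ℕ) := ⟨_, rfl⟩
    obtain ⟨p3, hp3d⟩ : ∃ p : ℝ, p = 2 * (m : ℝ) / (j + 1 + 1 : ℕ) := ⟨_, rfl⟩
    rw [← hp1d, ← hqd, ← hp3d] at hw
    rw [← hp1d] at hp1 hih
    rw [← hqd] at hq hih ⊢
    rw [← hp3d] at hp3 ⊢
    obtain ⟨n, hn⟩ : ∃ n : ℝ, n = (2 * v + 3 : ℕ) := ⟨_, rfl⟩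
    have hn0 : 0 < n := by rw [hn]; positivity
    obtain ⟨ε, hε⟩ : ∃ ε : ℝ, ε = 1 / (4 * n * (C' + 1)) := ⟨_, rfl⟩
    have hε0 : 0 < ε := by rw [hε]; positivity
    have hεn : 2 * ε * n * C' ≤ 1 / 2 := by
      have : 2 * ε * n * (C' + 1) = 1 / 2 := by
        rw [hε]
        field_simp
        norm_num
      have h2 : 0 ≤ 2 * ε * n := by positivity
      nlinarith
    obtain ⟨D, hD⟩ : ∃ D : ℝ,
      D = ((q - 1) / (ε ^ (1 / p1) * (1 / 2 : ℝ) ^ ((q - 2) / q))) ^ p3 := ⟨_, rfl⟩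
    have hD0 : 0 ≤ D := by
      have : 0 < q - 1 := by linarith
      rw [hD]
      positivity
    refine ⟨4 * D, by positivity, ?_⟩
    intro f hf hf1
    have h1 : g80S (j + 1) (g80T f q) ≤ 2 * ε * n * g80S j (g80T f p1) +
        2 * D * ∑ i : Fin (2 * v + 3), g80S j (fun L => g80T f p3 (i :: i :: L)) := by
      rw [g80S_succ, Finset.mul_sum]
      have h2 : 2 * ε * n * g80S j (g80T f p1) =
          ∑ _i : Fin (2 * v + 3), 2 * ε * g80S j (g80T f p1) := by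
        rw [Finset.sum_const, Finset.card_univ, Fintype.card_fin, nsmul_eq_mul, ← hn]
        ring
      rw [h2, ← Finset.sum_add_distrib]
      apply Finset.sum_le_sum
      intro i _
      rw [← g80S_mul, ← g80S_mul, ← g80S_add]
      apply g80S_mono
      intro L
      have h3 := g80_one hp1 hq hp3 hw hε0 (pd_smG v f hf L) i
      rw [← hD] at h3
      exact h3
    have h2 := g80_diag j (g80T_nonneg f p3)
    have h3 := hih f hf hf1
    have h4 : 0 ≤ g80S (j + 1) (g80T f q) := g80S_nonneg _ (g80T_nonneg f q)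
    have h5 : 2 * ε * n * g80S j (g80T f p1) ≤ 1 / 2 * g80S (j + 1) (g80T f q) := by
      calc 2 * ε * n * g80S j (g80T f p1) ≤ 2 * ε * n * (C' * g80S (j + 1) (g80T f q)) :=
            mul_le_mul_of_nonneg_left h3 (by positivity)
        _ = 2 * ε * n * C' * g80S (j + 1) (g80T f q) := by ring
        _ ≤ _ := mul_le_mul_of_nonneg_right hεn h4
    have h6 := mul_le_mul_of_nonneg_left h2 (show 0 ≤ 2 * D by positivity)
    linarith

theorem g80_chain (v m j k : ℕ) (hj : 1 ≤ j) (hk : j + k = m) : ∃ C : ℝ, 0 ≤ C ∧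
    ∀ f : EV v → ℝ, SmG v f → (∀ x, |f x| ≤ 1) →
      g80S j (g80T f (2 * (m : ℝ) / j)) ≤ C * g80S m (g80T f (2 * (m : ℝ) / m)) := by
  induction k generalizing j with
  | zero =>
    have hjm : j = m := by omega
    subst hjm
    exact ⟨1, zero_le_one, fun f _ _ => by rw [one_mul]⟩
  | succ k ih =>
    obtain ⟨C1, hC1, h1⟩ := g80_step v m j hj (by omega)
    obtain ⟨C2, hC2, h2⟩ := ih (j + 1) (by omega) (by omega)
    refine ⟨C1 * C2, by positivity, ?_⟩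
    intro f hf hf1
    refine (h1 f hf hf1).trans ?_
    rw [mul_assoc]
    exact mul_le_mul_of_nonneg_left (h2 f hf hf1) hC1

theorem gn_main (v m j : ℕ) (hj : 1 ≤ j) (hjm : j ≤ m) : ∃ C : ℝ, 0 ≤ C ∧
    ∀ f : EV v → ℝ, SmG v f → (∀ x, |f x| ≤ 1) → ∀ L : List (Fin (2 * v + 3)), L.length = j →
      Integrable (fun x => |pd L f x| ^ (2 * (m : ℝ) / j)) ∧
      ∫ x, |pd L f x| ^ (2 * (m : ℝ) / j) ≤ C * En v m f := by
  obtain ⟨C, hC, h⟩ := g80_chain v m j (m - j) hj (by omega)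
  refine ⟨C, hC, ?_⟩
  intro f hf hf1 L hL
  have hj0 : (0 : ℝ) < j := by exact_mod_cast hj
  have hm0 : (0 : ℝ) < m := by
    have : 0 < m := by omega
    exact_mod_cast this
  refine ⟨g80_int (pd_smG v f hf L) (by positivity), ?_⟩
  have h1 := g80S_single (g80T_nonneg f (2 * (m : ℝ) / j)) L
  rw [hL] at h1
  have h2 : g80S m (g80T f (2 * (m : ℝ) / m)) = En v m f := by
    have h3 : 2 * (m : ℝ) / m = 2 := by
      field_simp
    rw [h3]
    unfold g80S En g80T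
    apply Finset.sum_congr rfl
    intro w _
    congr 1
    funext x
    rw [Real.rpow_two, sq_abs]
  rw [← h2]
  exact h1.trans (h f hf hf1)

end Pool.Agent.H269
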