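import Pool.Agent.H269.DefsG2

/-!
# GN-81 Plancherel for iterated derivatives (MP_f2af60_mp, infinitely many resonances in odd dimension)
-/

set_option autoImplicit false

open MeasureTheory Filter Topology Complex
open scoped InnerProductSpace ENNReal NNReal FourierTransform

namespace Pool.Agent.H269


/-! helper lemmas -/

open SchwartzMap in
theorem gn81_exists (v : ℕ) (f : EV v → ℝ) (hf : SmG v f) (L : List (Fin (2 * v + 3))) :
    ∃ S : SchwartzMap (EV v) ℂ, (∀ x, S x = ((pd L f x : ℝ) : ℂ)) ∧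
      ∀ ξ : EV v, ‖𝓕 S ξ‖ ≤ (2 * Real.pi * ‖ξ‖) ^ L.length * ‖Vf f ξ‖ := by
  induction L with
  | nil =>
    have h1 : HasCompactSupport (fun x => (f x : ℂ)) :=
      hf.supp.comp_left (g := fun r : ℝ => (r : ℂ)) Complex.ofReal_zero
    have h2 : ContDiff ℝ ((⊤ : ℕ∞) : WithTop ℕ∞) (fun x => (f x : ℂ)) :=
      Complex.ofRealCLM.contDiff.comp hf.smooth
    refine ⟨h1.toSchwartzMap h2, fun x => rfl, fun ξ => ?_⟩
    simp only [List.length_nil, pow_zero, one_mul]
    exact le_of_eq rfl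
  | cons i L ih =>
    obtain ⟨S, hS, hb⟩ := ih
    refine ⟨LineDeriv.lineDerivOp (EuclideanSpace.single i (1 : ℝ)) S, fun x => ?_, fun ξ => ?_⟩
    · rw [SchwartzMap.lineDerivOp_apply_eq_fderiv]
      have hfun : (S : EV v → ℂ) = fun x => ((pd L f x : ℝ) : ℂ) := funext hS
      have hre : pd L f = fun x => (S x).re := by
        funext x
        rw [hS, Complex.ofReal_re]
      have hd : DifferentiableAt ℝ (pd L f) x := by
        rw [hre]
        exact Complex.reCLM.differentiableAt.comp x S.differentiableAt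
      have h3 : HasFDerivAt (fun x => ((pd L f x : ℝ) : ℂ))
          (Complex.ofRealCLM.comp (fderiv ℝ (pd L f) x)) x :=
        Complex.ofRealCLM.hasFDerivAt.comp x hd.hasFDerivAt
      rw [hfun, h3.fderiv]
      rfl
    · rw [SchwartzMap.fourier_lineDerivOp_eq]
      have hg : (fun x : EV v => inner ℝ x (EuclideanSpace.single i (1 : ℝ))).HasTemperateGrowth :=
        ((innerSL ℝ).flip (EuclideanSpace.single i (1 : ℝ))).hasTemperateGrowth
      have h4 : ((2 * (Real.pi : ℂ) * Complex.I) •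
          SchwartzMap.smulLeftCLM ℂ (fun x : EV v => inner ℝ x (EuclideanSpace.single i (1 : ℝ)))
            (𝓕 S)) ξ = (2 * (Real.pi : ℂ) * Complex.I) •
              ((inner ℝ ξ (EuclideanSpace.single i (1 : ℝ)) : ℝ) • (𝓕 S ξ)) := by
        rw [smul_apply, SchwartzMap.smulLeftCLM_apply_apply hg]
      rw [h4, norm_smul, norm_smul]
      have h5 : ‖(2 * (Real.pi : ℂ) * Complex.I)‖ = 2 * Real.pi := by
        rw [norm_mul, norm_mul, Complex.norm_I, mul_one, Complex.norm_real, Real.norm_eq_abs,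
          abs_of_pos Real.pi_pos]
        norm_num
      have h6 : ‖(inner ℝ ξ (EuclideanSpace.single i (1 : ℝ)) : ℝ)‖ ≤ ‖ξ‖ := by
        refine (norm_inner_le_norm _ _).trans ?_
        rw [PiLp.norm_single, norm_one, mul_one]
      rw [h5, List.length_cons, pow_succ]
      have h7 := hb ξ
      have h8 : 0 ≤ 2 * Real.pi := by positivity
      calc 2 * Real.pi * (‖(inner ℝ ξ (EuclideanSpace.single i (1 : ℝ)) : ℝ)‖ * ‖𝓕 S ξ‖)
          ≤ 2 * Real.pi * (‖ξ‖ * ((2 * Real.pi * ‖ξ‖) ^ L.length * ‖Vf f ξ‖)) := by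
            refine mul_le_mul_of_nonneg_left ?_ h8
            exact mul_le_mul h6 h7 (norm_nonneg _) (norm_nonneg _)
        _ = _ := by ring

theorem gn81_int (v m : ℕ) (f : EV v → ℝ) (hf : SmG v f) :
    Integrable (fun ξ : EV v => ‖ξ‖ ^ (2 * m) * ‖Vf f ξ‖ ^ 2) := by
  have h1 : HasCompactSupport (fun x => (f x : ℂ)) :=
    hf.supp.comp_left (g := fun r : ℝ => (r : ℂ)) Complex.ofReal_zero
  have h2 : ContDiff ℝ ((⊤ : ℕ∞) : WithTop ℕ∞) (fun x => (f x : ℂ)) :=
    Complex.ofRealCLM.contDiff.comp hf.smooth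
  let S : SchwartzMap (EV v) ℂ := 𝓕 (h1.toSchwartzMap h2)
  have hS : ∀ ξ, S ξ = Vf f ξ := fun ξ => rfl
  have h3 := S.integrable_pow_mul volume (2 * m)
  have h4 := h3.mul_const (SchwartzMap.seminorm ℝ 0 0 S)
  refine h4.mono' ?_ ?_
  · have hc : Continuous (fun ξ : EV v => Vf f ξ) := by
      have : (fun ξ : EV v => Vf f ξ) = S := funext fun ξ => (hS ξ).symm
      rw [this]
      exact S.continuous
    exact ((continuous_norm.pow _).mul (hc.norm.pow 2)).aestronglyMeasurable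
  · refine Filter.Eventually.of_forall fun ξ => ?_
    have h5 : ‖S ξ‖ ≤ SchwartzMap.seminorm ℝ 0 0 S := S.norm_le_seminorm ℝ ξ
    rw [Real.norm_of_nonneg (by positivity), ← hS, pow_two (‖S ξ‖), ← mul_assoc]
    exact mul_le_mul_of_nonneg_left h5 (by positivity)


theorem En_le (v m : ℕ) : ∃ C : ℝ, 0 ≤ C ∧ ∀ f : EV v → ℝ, SmG v f →
    Integrable (fun ξ : EV v => ‖ξ‖ ^ (2 * m) * ‖Vf f ξ‖ ^ 2) ∧
    En v m f ≤ C * ∫ ξ : EV v, ‖ξ‖ ^ (2 * m) * ‖Vf f ξ‖ ^ 2 := by
  refine ⟨(Fintype.card (Fin m → Fin (2 * v + 3)) : ℝ) * (2 * Real.pi) ^ (2 * m), by positivity,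
    fun f hf => ⟨gn81_int v m f hf, ?_⟩⟩
  have key : ∀ w : Fin m → Fin (2 * v + 3), ∫ x, (pd (List.ofFn w) f x) ^ 2 ≤
      (2 * Real.pi) ^ (2 * m) * ∫ ξ : EV v, ‖ξ‖ ^ (2 * m) * ‖Vf f ξ‖ ^ 2 := by
    intro w
    obtain ⟨S, hS, hb⟩ := gn81_exists v f hf (List.ofFn w)
    rw [List.length_ofFn] at hb
    have h1 : ∫ x, (pd (List.ofFn w) f x) ^ 2 = ∫ x, ‖S x‖ ^ 2 := by
      congr 1
      funext x
      rw [hS, Complex.norm_real, Real.norm_eq_abs, sq_abs]
    rw [h1, ← SchwartzMap.integral_norm_sq_fourier, ← integral_const_mul]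
    refine integral_mono_of_nonneg (Filter.Eventually.of_forall fun ξ => by positivity)
      ((gn81_int v m f hf).const_mul _) (Filter.Eventually.of_forall fun ξ => ?_)
    have h2 := pow_le_pow_left₀ (norm_nonneg _) (hb ξ) 2
    refine h2.trans (le_of_eq ?_)
    rw [mul_pow, ← pow_mul, mul_comm m 2, mul_pow, mul_assoc]
  unfold En
  refine (Finset.sum_le_sum fun w _ => key w).trans (le_of_eq ?_)
  rw [Finset.sum_const, Finset.card_univ, nsmul_eq_mul, mul_assoc]

end Pool.Agent.H269
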