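import Pool.Agent.H269.DefsG2
import Pool.Agent.H269.GN.G079

/-!
# GN-82 derivative of the correlation function (MP_f2af60_mp, infinitely many resonances in odd dimension)
-/

set_option autoImplicit false

open MeasureTheory Filter Topology Complex
open scoped InnerProductSpace ENNReal NNReal FourierTransform

namespace Pool.Agent.H269


theorem gn82_trans (v k : ℕ) (g : Fin (k + 1) → EV v → ℝ) (w : Fin (k + 1) → EV v)
    (i₀ : Fin (k + 1)) (τ : ℝ) :
    mcorr v k g w τ = ∫ x, ∏ i, g i (x + τ • (w i - w i₀)) := by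
  unfold mcorr
  rw [← integral_add_right_eq_self (fun x : EV v => ∏ i, g i (x + τ • (w i - w i₀))) (τ • w i₀)]
  congr 1
  funext x
  refine Finset.prod_congr rfl fun i _ => ?_
  congr 1
  rw [smul_sub]
  abel

theorem gn82_bdd {v : ℕ} {f : EV v → ℝ} (hc : Continuous f) (hs : HasCompactSupport f) :
    ∃ C : ℝ, 0 ≤ C ∧ ∀ x, |f x| ≤ C := by
  obtain ⟨C, hC⟩ := hs.exists_bound_of_continuous hc
  exact ⟨max C 0, le_max_right _ _, fun x => (hC x).trans (le_max_left _ _)⟩

theorem gn82_fderiv {v : ℕ} {f : EV v → ℝ} (y z : EV v) :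
    fderiv ℝ f y z = ∑ a : Fin (2 * v + 3), z a * pd [a] f y := by
  have hz : z = ∑ a : Fin (2 * v + 3), z a • EuclideanSpace.single a (1 : ℝ) := by
    ext b
    simp [Finset.sum_apply, Pi.single_apply]
  conv_lhs => rw [hz]
  rw [map_sum]
  refine Finset.sum_congr rfl fun a _ => ?_
  rw [map_smul, smul_eq_mul]
  rfl


theorem mcorr_deriv (v k : ℕ) (g : Fin (k + 1) → EV v → ℝ) (hg : ∀ i, SmG v (g i))
    (w : Fin (k + 1) → EV v) (i₀ : Fin (k + 1)) (σ : ℝ) :
    HasDerivAt (mcorr v k g w) (∑ j ∈ Finset.univ.erase i₀, ∑ a : Fin (2 * v + 3),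
      (w j a - w i₀ a) * mcorr v k (Function.update g j (pd [a] (g j))) w σ) σ := by
  obtain ⟨u, hu⟩ : ∃ u : Fin (k + 1) → EV v, u = fun i => w i - w i₀ := ⟨_, rfl⟩
  have hui : ∀ i, w i - w i₀ = u i := fun i => by rw [hu]
  have hu0 : u i₀ = 0 := by rw [hu]; simp
  have hcont : ∀ i, Continuous (g i) := fun i => (hg i).smooth.continuous
  have hdiff : ∀ i, Differentiable ℝ (g i) := fun i => (hg i).smooth.differentiable (by simp)
  have hcd : ∀ i (z : EV v), Continuous (fun y => fderiv ℝ (g i) y z) := fun i z =>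
    ((hg i).smooth.continuous_fderiv (by simp)).clm_apply continuous_const
  choose C hC0 hC using fun i => gn82_bdd (hcont i) (hg i).supp
  choose D hD0 hD using fun i => gn82_bdd (hcd i (u i)) ((hg i).supp.fderiv_apply (𝕜 := ℝ) (u i))
  -- the function and its derivative
  obtain ⟨F, hF⟩ : ∃ F : ℝ → EV v → ℝ, F = fun τ x => ∏ i, g i (x + τ • u i) := ⟨_, rfl⟩
  obtain ⟨T, hT⟩ : ∃ T : Fin (k + 1) → ℝ → EV v → ℝ, T = fun j τ x =>
    (∏ i ∈ Finset.univ.erase j, g i (x + τ • u i)) • fderiv ℝ (g j) (x + τ • u j) (u j) := ⟨_, rfl⟩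
  have hF0 : ∀ τ x, x ∉ tsupport (g i₀) → F τ x = 0 := by
    intro τ x hx
    rw [hF]
    refine Finset.prod_eq_zero (Finset.mem_univ i₀) ?_
    rw [hu0, smul_zero, add_zero]
    exact image_eq_zero_of_notMem_tsupport hx
  have hT0 : ∀ j τ x, x ∉ tsupport (g i₀) → T j τ x = 0 := by
    intro j τ x hx
    rw [hT]
    by_cases hj : j = i₀
    · subst hj
      simp [hu0]
    · have : ∏ i ∈ Finset.univ.erase j, g i (x + τ • u i) = 0 := by
        refine Finset.prod_eq_zero (Finset.mem_erase.2 ⟨Ne.symm hj, Finset.mem_univ i₀⟩) ?_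
        rw [hu0, smul_zero, add_zero]
        exact image_eq_zero_of_notMem_tsupport hx
      simp only [this, zero_smul]
  have hFc : ∀ τ, Continuous (F τ) := by
    intro τ
    rw [hF]
    exact continuous_finsetProd _ fun i _ => (hcont i).comp (by fun_prop)
  have hTc : ∀ j τ, Continuous (T j τ) := by
    intro j τ
    rw [hT]
    exact (continuous_finsetProd _ fun i _ => (hcont i).comp (by fun_prop)).smul
      ((hcd j (u j)).comp (by fun_prop))
  have hFi : ∀ τ, Integrable (F τ) := fun τ =>
    (hFc τ).integrable_of_hasCompactSupport (HasCompactSupport.intro (hg i₀).supp (hF0 τ))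
  have hTi : ∀ j τ, Integrable (T j τ) := fun j τ =>
    (hTc j τ).integrable_of_hasCompactSupport (HasCompactSupport.intro (hg i₀).supp (hT0 j τ))
  -- the bound
  obtain ⟨B, hB⟩ : ∃ B : ℝ, B = ∑ j, (∏ i ∈ Finset.univ.erase j, C i) * D j := ⟨_, rfl⟩
  have hbd : ∀ τ x, |∑ j, T j τ x| ≤ (tsupport (g i₀)).indicator (fun _ => B) x := by
    intro τ x
    by_cases hx : x ∈ tsupport (g i₀)
    · rw [Set.indicator_of_mem hx, hB]
      refine (Finset.abs_sum_le_sum_abs _ _).trans (Finset.sum_le_sum fun j _ => ?_)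
      rw [hT]
      simp only [smul_eq_mul]
      rw [abs_mul, Finset.abs_prod]
      refine mul_le_mul (Finset.prod_le_prod (fun i _ => abs_nonneg _) fun i _ => hC i _)
        (hD j _) (abs_nonneg _) (Finset.prod_nonneg fun i _ => hC0 i)
    · rw [Set.indicator_of_notMem hx, Finset.sum_eq_zero fun j _ => hT0 j τ x hx, abs_zero]
  have hBi : Integrable ((tsupport (g i₀)).indicator (fun _ : EV v => B)) := by
    rw [integrable_indicator_iff (isClosed_tsupport _).measurableSet]
    exact integrableOn_const (IsCompact.measure_lt_top (hg i₀).supp).ne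
  have hder : ∀ x τ, HasDerivAt (fun τ => F τ x) (∑ j, T j τ x) τ := by
    intro x τ
    rw [hF, hT]
    refine HasDerivAt.fun_finsetProd (u := Finset.univ) (f := fun i τ => g i (x + τ • u i)) fun i _ => ?_
    have h1 : HasDerivAt (fun τ : ℝ => x + τ • u i) (u i) τ := by
      simpa using ((hasDerivAt_id τ).smul_const (u i)).const_add x
    exact (hdiff i (x + τ • u i)).hasFDerivAt.comp_hasDerivAt τ h1
  have hmain := (hasDerivAt_integral_of_dominated_loc_of_deriv_le (μ := (volume : Measure (EV v)))
    (F := F) (F' := fun τ x => ∑ j, T j τ x) (x₀ := σ) (s := Set.univ)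
    (bound := (tsupport (g i₀)).indicator (fun _ => B)) Filter.univ_mem
    (Filter.Eventually.of_forall fun τ => (hFc τ).aestronglyMeasurable) (hFi σ)
    (continuous_finsetSum _ fun j _ => hTc j σ).aestronglyMeasurable
    (Filter.Eventually.of_forall fun x τ _ => hbd τ x) hBi
    (Filter.Eventually.of_forall fun x τ _ => hder x τ)).2
  have e1 : mcorr v k g w = fun τ => ∫ x, F τ x := by
    funext τ
    rw [gn82_trans v k g w i₀ τ, hF]
    simp only [hui]
  rw [e1]
  refine hmain.congr_deriv ?_
  symm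
  rw [integral_finsetSum _ fun j _ => hTi j σ]
  rw [← Finset.add_sum_erase _ _ (Finset.mem_univ i₀)]
  have e2 : ∫ x, T i₀ σ x = 0 := by
    rw [hT]
    simp [hu0]
  rw [e2, zero_add]
  refine Finset.sum_congr rfl fun j _ => ?_
  have e3 : ∀ x, T j σ x = ∑ a : Fin (2 * v + 3), (w j a - w i₀ a) *
      ∏ i, (Function.update g j (pd [a] (g j))) i (x + σ • u i) := by
    intro x
    rw [hT]
    simp only [smul_eq_mul]
    rw [gn82_fderiv, Finset.mul_sum]
    refine Finset.sum_congr rfl fun a _ => ?_
    rw [← Finset.mul_prod_erase Finset.univ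
      (fun i => (Function.update g j (pd [a] (g j))) i (x + σ • u i)) (Finset.mem_univ j)]
    rw [Function.update_self]
    have e4 : ∏ i ∈ Finset.univ.erase j, (Function.update g j (pd [a] (g j))) i (x + σ • u i) =
        ∏ i ∈ Finset.univ.erase j, g i (x + σ • u i) := by
      refine Finset.prod_congr rfl fun i hi => ?_
      rw [Function.update_of_ne (Finset.ne_of_mem_erase hi)]
    rw [e4, hu]
    simp only [PiLp.sub_apply]
    ring
  simp only [e3]
  rw [integral_finsetSum]
  · refine Finset.sum_congr rfl fun a _ => ?_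
    rw [integral_const_mul, gn82_trans v k _ w i₀ σ]
    simp only [hui]
  · intro a _
    refine Integrable.const_mul ?_ _
    have hc' : ∀ i, Continuous (Function.update g j (pd [a] (g j)) i) ∧
        ((i = i₀) → ∀ x, x ∉ tsupport (g i₀) → Function.update g j (pd [a] (g j)) i x = 0) := by
      intro i
      by_cases hi : i = j
      · subst hi
        rw [Function.update_self]
        refine ⟨(pd_smG v (g i) (hg i) [a]).smooth.continuous, ?_⟩
        rintro rfl x hx
        have h1 : tsupport (fun y => fderiv ℝ (g i) y (EuclideanSpace.single a 1)) ⊆ tsupport (g i) :=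
          tsupport_fderiv_apply_subset ℝ _
        exact image_eq_zero_of_notMem_tsupport (fun h => hx (h1 h))
      · rw [Function.update_of_ne hi]
        exact ⟨hcont i, fun h x hx => by subst h; exact image_eq_zero_of_notMem_tsupport hx⟩
    refine Continuous.integrable_of_hasCompactSupport
      (continuous_finsetProd _ fun i _ => (hc' i).1.comp (by fun_prop))
      (HasCompactSupport.intro (hg i₀).supp fun x hx => ?_)
    refine Finset.prod_eq_zero (Finset.mem_univ i₀) ?_
    rw [hu0, smul_zero, add_zero]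
    exact (hc' i₀).2 rfl x hx

end Pool.Agent.H269
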