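import Pool.Agent.H269.DefsG2
import Pool.Agent.H269.GN.G079
import Pool.Agent.H269.GN.G082

/-!
# GN-83 smoothness and bounds for the correlation function (MP_f2af60_mp, infinitely many resonances in odd dimension)
-/

set_option autoImplicit false

open MeasureTheory Filter Topology Complex
open scoped InnerProductSpace ENNReal NNReal FourierTransform

namespace Pool.Agent.H269


namespace McIter

theorem smG_update (v k : ℕ) (g : Fin (k + 1) → EV v → ℝ) (hg : ∀ i, SmG v (g i))
    (j : Fin (k + 1)) (a : Fin (2 * v + 3)) :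
    ∀ i, SmG v (Function.update g j (pd [a] (g j)) i) := by
  intro i
  by_cases h : i = j
  · subst h
    rw [Function.update_self]
    exact pd_smG v _ (hg i) [a]
  · rw [Function.update_of_ne h]
    exact hg i

theorem deriv_eq (v k : ℕ) (g : Fin (k + 1) → EV v → ℝ) (hg : ∀ i, SmG v (g i))
    (w : Fin (k + 1) → EV v) :
    deriv (mcorr v k g w) = fun σ => ∑ j ∈ Finset.univ.erase 0, ∑ a : Fin (2 * v + 3),
      (w j a - w 0 a) * mcorr v k (Function.update g j (pd [a] (g j))) w σ :=
  funext fun σ => (mcorr_deriv v k g hg w 0 σ).deriv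

theorem contDiff_nat (v k : ℕ) (n : ℕ) : ∀ (g : Fin (k + 1) → EV v → ℝ) (_ : ∀ i, SmG v (g i))
    (w : Fin (k + 1) → EV v), ContDiff ℝ (n : WithTop ℕ∞) (mcorr v k g w) := by
  induction n with
  | zero =>
    intro g hg w
    have h1 : Differentiable ℝ (mcorr v k g w) := fun σ =>
      (mcorr_deriv v k g hg w 0 σ).differentiableAt
    exact contDiff_zero.2 h1.continuous
  | succ n ih =>
    intro g hg w
    have h1 : Differentiable ℝ (mcorr v k g w) := fun σ =>
      (mcorr_deriv v k g hg w 0 σ).differentiableAt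
    have h2 : ContDiff ℝ (n : WithTop ℕ∞) (deriv (mcorr v k g w)) := by
      rw [deriv_eq v k g hg w]
      refine ContDiff.sum fun j _ => ContDiff.sum fun a _ => ?_
      exact contDiff_const.mul (ih _ (smG_update v k g hg j a) w)
    have h3 : ContDiff ℝ ((n : WithTop ℕ∞) + 1) (mcorr v k g w) :=
      contDiff_succ_iff_deriv.2 ⟨h1, fun h => by simp at h, h2⟩
    exact_mod_cast h3

theorem contDiff_top (v k : ℕ) (g : Fin (k + 1) → EV v → ℝ) (hg : ∀ i, SmG v (g i))
    (w : Fin (k + 1) → EV v) : ContDiff ℝ ((⊤ : ℕ∞) : WithTop ℕ∞) (mcorr v k g w) :=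
  contDiff_infty.2 fun n => contDiff_nat v k n g hg w

theorem iter_succ (v k a : ℕ) (g : Fin (k + 1) → EV v → ℝ) (hg : ∀ i, SmG v (g i))
    (w : Fin (k + 1) → EV v) (σ : ℝ) :
    iteratedDeriv (a + 1) (mcorr v k g w) σ = ∑ j ∈ Finset.univ.erase 0,
      ∑ b : Fin (2 * v + 3), (w j b - w 0 b) *
        iteratedDeriv a (mcorr v k (Function.update g j (pd [b] (g j))) w) σ := by
  have hc : ∀ j b, ContDiffAt ℝ (a : WithTop ℕ∞)
      (mcorr v k (Function.update g j (pd [b] (g j))) w) σ := fun j b =>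
    (contDiff_nat v k a _ (smG_update v k g hg j b) w).contDiffAt
  rw [iteratedDeriv_succ', deriv_eq v k g hg w, iteratedDeriv_fun_sum]
  · refine Finset.sum_congr rfl fun j _ => ?_
    rw [iteratedDeriv_fun_sum]
    · refine Finset.sum_congr rfl fun b _ => ?_
      exact iteratedDeriv_const_mul _ (hc j b)
    · intro b _
      exact contDiffAt_const.mul (hc j b)
  · intro j _
    exact ContDiffAt.sum fun b _ => contDiffAt_const.mul (hc j b)

theorem sm_bound (v : ℕ) (f : EV v → ℝ) (hf : SmG v f) : ∃ C : ℝ, 0 ≤ C ∧ ∀ x, |f x| ≤ C := by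
  obtain ⟨C, hC⟩ := hf.supp.exists_bound_of_continuous hf.smooth.continuous
  exact ⟨C, (norm_nonneg (f 0)).trans (hC 0), hC⟩

theorem mcorr_shift (v k : ℕ) (g : Fin (k + 1) → EV v → ℝ) (w : Fin (k + 1) → EV v) (σ : ℝ) :
    mcorr v k g w σ = ∫ x, g 0 x * ∏ i : Fin k, g i.succ (x + σ • (w i.succ - w 0)) := by
  have h1 := integral_add_right_eq_self (μ := (volume : Measure (EV v)))
    (fun x => ∏ i, g i (x + σ • w i)) (-(σ • w 0))
  unfold mcorr
  rw [← h1]
  congr 1
  funext x
  rw [Fin.prod_univ_succ]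
  congr 1
  · congr 1
    abel
  · refine Finset.prod_congr rfl fun i _ => ?_
    congr 1
    rw [smul_sub]
    abel

theorem base (v k : ℕ) (g : Fin (k + 1) → EV v → ℝ) (hg : ∀ i, SmG v (g i)) :
    Continuous (fun p : (Fin (k + 1) → EV v) × ℝ => mcorr v k g p.1 p.2) ∧
    ∃ C : ℝ, ∀ (w : Fin (k + 1) → EV v) (σ : ℝ), |mcorr v k g w σ| ≤ C := by
  choose C hC0 hC using fun i => sm_bound v (g i) (hg i)
  have hcont : ∀ i, Continuous (g i) := fun i => (hg i).smooth.continuous
  have hint : Integrable (fun x => |g 0 x| * ∏ i : Fin k, C i.succ)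
      (volume : Measure (EV v)) :=
    ((hcont 0).integrable_of_hasCompactSupport (hg 0).supp).abs.mul_const _
  have hb : ∀ (w : Fin (k + 1) → EV v) (σ : ℝ) (x : EV v),
      ‖g 0 x * ∏ i : Fin k, g i.succ (x + σ • (w i.succ - w 0))‖ ≤
        |g 0 x| * ∏ i : Fin k, C i.succ := by
    intro w σ x
    rw [Real.norm_eq_abs, abs_mul, Finset.abs_prod]
    refine mul_le_mul_of_nonneg_left ?_ (abs_nonneg _)
    exact Finset.prod_le_prod (fun i _ => abs_nonneg _) (fun i _ => hC _ _)
  constructor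
  · have h1 : (fun p : (Fin (k + 1) → EV v) × ℝ => mcorr v k g p.1 p.2) =
        fun p : (Fin (k + 1) → EV v) × ℝ =>
          ∫ x, g 0 x * ∏ i : Fin k, g i.succ (x + p.2 • (p.1 i.succ - p.1 0)) :=
      funext fun p => mcorr_shift v k g p.1 p.2
    rw [h1]
    refine continuous_of_dominated (bound := fun x => |g 0 x| * ∏ i : Fin k, C i.succ) ?_ ?_
      hint ?_
    · intro p
      refine Continuous.aestronglyMeasurable ?_
      refine (hcont 0).mul (continuous_finsetProd _ fun i _ => (hcont _).comp ?_)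
      fun_prop
    · intro p
      exact Eventually.of_forall fun x => hb p.1 p.2 x
    · refine Eventually.of_forall fun x => ?_
      refine continuous_const.mul (continuous_finsetProd _ fun i _ => (hcont _).comp ?_)
      fun_prop
  · refine ⟨∫ x, |g 0 x| * ∏ i : Fin k, C i.succ, ?_⟩
    intro w σ
    rw [mcorr_shift, ← Real.norm_eq_abs]
    exact norm_integral_le_of_norm_le hint (Eventually.of_forall fun x => hb w σ x)

theorem coord_le (v k : ℕ) (w : Fin (k + 1) → EV v) (j : Fin (k + 1)) (b : Fin (2 * v + 3)) :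
    |w j b - w 0 b| ≤ 2 * ‖w‖ := by
  have h : ∀ j, |w j b| ≤ ‖w‖ := fun j =>
    (PiLp.norm_apply_le (w j) b).trans (norm_le_pi_norm w j)
  calc |w j b - w 0 b| ≤ |w j b| + |w 0 b| := abs_sub _ _
    _ ≤ 2 * ‖w‖ := by linarith [h j, h 0]

theorem main (v k a : ℕ) : ∀ (g : Fin (k + 1) → EV v → ℝ) (_ : ∀ i, SmG v (g i)),
    Continuous (fun p : (Fin (k + 1) → EV v) × ℝ => iteratedDeriv a (mcorr v k g p.1) p.2) ∧
    ∃ C : ℝ, ∀ (w : Fin (k + 1) → EV v) (σ : ℝ),
      |iteratedDeriv a (mcorr v k g w) σ| ≤ C * ‖w‖ ^ a := by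
  induction a with
  | zero =>
    intro g hg
    obtain ⟨h1, C, hC⟩ := base v k g hg
    refine ⟨?_, C, ?_⟩
    · simpa only [iteratedDeriv_zero] using h1
    · intro w σ
      rw [iteratedDeriv_zero, pow_zero, mul_one]
      exact hC w σ
  | succ a ih =>
    intro g hg
    have hih := fun j b => ih _ (smG_update v k g hg j b)
    choose h1 C hC using hih
    constructor
    · simp only [iter_succ v k a g hg]
      refine continuous_finsetSum _ fun j _ => continuous_finsetSum _ fun b _ => ?_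
      refine Continuous.mul ?_ (h1 j b)
      fun_prop
    · refine ⟨∑ j ∈ Finset.univ.erase 0, ∑ b : Fin (2 * v + 3), 2 * |C j b|, ?_⟩
      intro w σ
      rw [iter_succ v k a g hg, Finset.sum_mul]
      refine (Finset.abs_sum_le_sum_abs _ _).trans (Finset.sum_le_sum fun j _ => ?_)
      rw [Finset.sum_mul]
      refine (Finset.abs_sum_le_sum_abs _ _).trans (Finset.sum_le_sum fun b _ => ?_)
      rw [abs_mul]
      have e1 := coord_le v k w j b
      have e2 : |iteratedDeriv a (mcorr v k (Function.update g j (pd [b] (g j))) w) σ| ≤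
          |C j b| * ‖w‖ ^ a :=
        (hC j b w σ).trans (mul_le_mul_of_nonneg_right (le_abs_self _)
          (pow_nonneg (norm_nonneg _) _))
      calc |w j b - w 0 b| *
            |iteratedDeriv a (mcorr v k (Function.update g j (pd [b] (g j))) w) σ|
          ≤ (2 * ‖w‖) * (|C j b| * ‖w‖ ^ a) :=
            mul_le_mul e1 e2 (abs_nonneg _) (mul_nonneg (by norm_num) (norm_nonneg _))
        _ = 2 * |C j b| * ‖w‖ ^ (a + 1) := by ring

end McIter



theorem mcorr_iter (v k a : ℕ) (g : Fin (k + 1) → EV v → ℝ) (hg : ∀ i, SmG v (g i)) :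
    (∀ w, ContDiff ℝ ((⊤ : ℕ∞) : WithTop ℕ∞) (mcorr v k g w)) ∧
    Continuous (fun p : (Fin (k + 1) → EV v) × ℝ => iteratedDeriv a (mcorr v k g p.1) p.2) ∧
    ∃ C : ℝ, ∀ (w : Fin (k + 1) → EV v) (σ : ℝ),
      |iteratedDeriv a (mcorr v k g w) σ| ≤ C * ‖w‖ ^ a := by
  exact ⟨fun w => McIter.contDiff_top v k g hg w, McIter.main v k a g hg⟩

end Pool.Agent.H269
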