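import Pool.Agent.H269.DefsG2
import Pool.Agent.H269.GN.G079
import Pool.Agent.H269.GN.G080

/-!
# GN-84 top order multilinear bound (MP_f2af60_mp, infinitely many resonances in odd dimension)
-/

set_option autoImplicit false

open MeasureTheory Filter Topology Complex
open scoped InnerProductSpace ENNReal NNReal FourierTransform

namespace Pool.Agent.H269



theorem mcorr_full (v k m : ℕ) (hm : 1 ≤ m) : ∃ C : ℝ, 0 ≤ C ∧ ∀ f : EV v → ℝ, SmG v f →
    (∀ x, |f x| ≤ 1) → ∀ L : Fin (k + 1) → List (Fin (2 * v + 3)), (∀ i, (L i).length ≤ m) →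
      ∑ i, (L i).length = 2 * m → ∀ (w : Fin (k + 1) → EV v) (σ : ℝ),
      |mcorr v k (fun i => pd (L i) f) w σ| ≤ C * En v m f := by
  have hex : ∀ j : ℕ, ∃ C : ℝ, 0 ≤ C ∧ (1 ≤ j → j ≤ m →
      ∀ f : EV v → ℝ, SmG v f → (∀ x, |f x| ≤ 1) → ∀ L : List (Fin (2 * v + 3)), L.length = j →
        Integrable (fun x => |pd L f x| ^ (2 * (m : ℝ) / j)) ∧
        ∫ x, |pd L f x| ^ (2 * (m : ℝ) / j) ≤ C * En v m f) := by
    intro j
    by_cases h1 : 1 ≤ j
    · by_cases h2 : j ≤ m
      · obtain ⟨C, hC, h⟩ := gn_main v m j h1 h2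
        exact ⟨C, hC, fun _ _ => h⟩
      · exact ⟨0, le_rfl, fun _ h => absurd h h2⟩
    · exact ⟨0, le_rfl, fun h _ => absurd h h1⟩
  choose c hc0 hc using hex
  refine ⟨∑ j ∈ Finset.range (m + 1), c j, Finset.sum_nonneg fun j _ => hc0 j, ?_⟩
  intro f hf hf1 L hLm hLsum w σ
  have hEn : 0 ≤ En v m f := by
    unfold En
    exact Finset.sum_nonneg fun i _ => integral_nonneg fun x => sq_nonneg _
  have hm0 : (0 : ℝ) < m := by exact_mod_cast hm
  set S : Finset (Fin (k + 1)) := Finset.univ.filter (fun i => 0 < (L i).length) with hS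
  set θ : Fin (k + 1) → ℝ := fun i => ((L i).length : ℝ) / (2 * m) with hθ
  set G : Fin (k + 1) → EV v → ℝ := fun i x => |pd (L i) f x| ^ (2 * (m : ℝ) / (L i).length) with hG
  have hθ0 : ∀ i, 0 ≤ θ i := fun i => by rw [hθ]; positivity
  have hθ1 : ∑ i ∈ S, θ i = 1 := by
    have h1 : ∑ i ∈ S, θ i = ∑ i, θ i := by
      apply Finset.sum_subset (Finset.subset_univ _)
      intro i _ hi
      rw [hS, Finset.mem_filter] at hi
      have h2 : (L i).length = 0 := by
        by_contra h
        exact hi ⟨Finset.mem_univ _, Nat.pos_of_ne_zero h⟩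
      simp [hθ, h2]
    rw [h1, hθ, ← Finset.sum_div, ← Nat.cast_sum, hLsum]
    push_cast
    field_simp
  have hG0 : ∀ i x, 0 ≤ G i x := fun i x => by rw [hG]; positivity
  -- pointwise
  have hpt : ∀ x, |∏ i, pd (L i) f (x + σ • w i)| ≤ ∑ i ∈ S, θ i * G i (x + σ • w i) := by
    intro x
    rw [Finset.abs_prod, ← Finset.prod_filter_mul_prod_filter_not Finset.univ
      (fun i => 0 < (L i).length)]
    have h1 : ∏ i ∈ Finset.univ.filter (fun i => ¬ 0 < (L i).length),
        |pd (L i) f (x + σ • w i)| ≤ 1 := by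
      apply Finset.prod_le_one
      · intro i _
        exact abs_nonneg _
      · intro i hi
        have h2 : (L i).length = 0 := by
          have := (Finset.mem_filter.1 hi).2
          omega
        have h3 : L i = [] := List.length_eq_zero_iff.1 h2
        rw [h3]
        exact hf1 _
    have h2 : 0 ≤ ∏ i ∈ S, |pd (L i) f (x + σ • w i)| :=
      Finset.prod_nonneg fun i _ => abs_nonneg _
    have h3 : ∏ i ∈ S, |pd (L i) f (x + σ • w i)| = ∏ i ∈ S, (G i (x + σ • w i)) ^ θ i := by
      apply Finset.prod_congr rfl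
      intro i hi
      rw [hS, Finset.mem_filter] at hi
      have h4 : (0 : ℝ) < (L i).length := by exact_mod_cast hi.2
      rw [hG, hθ]
      simp only []
      rw [← Real.rpow_mul (abs_nonneg _)]
      have h5 : 2 * (m : ℝ) / (L i).length * ((L i).length / (2 * m)) = 1 := by
        field_simp
      rw [h5, Real.rpow_one]
    have h4 := Real.geom_mean_le_arith_mean_weighted S θ (fun i => G i (x + σ • w i))
      (fun i _ => hθ0 i) hθ1 (fun i _ => hG0 i _)
    calc (∏ i ∈ S, |pd (L i) f (x + σ • w i)|) *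
          ∏ i ∈ Finset.univ.filter (fun i => ¬ 0 < (L i).length), |pd (L i) f (x + σ • w i)|
        ≤ (∏ i ∈ S, |pd (L i) f (x + σ • w i)|) * 1 := mul_le_mul_of_nonneg_left h1 h2
      _ = ∏ i ∈ S, (G i (x + σ • w i)) ^ θ i := by rw [mul_one, h3]
      _ ≤ _ := h4
  have hmain : ∀ i ∈ S, Integrable (fun x => G i (x + σ • w i)) ∧
      ∫ x, G i (x + σ • w i) ≤ (∑ j ∈ Finset.range (m + 1), c j) * En v m f := by
    intro i hi
    rw [hS, Finset.mem_filter] at hi
    obtain ⟨h1, h2⟩ := hc (L i).length hi.2 (hLm i) f hf hf1 (L i) rfl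
    refine ⟨Integrable.comp_add_right h1 (σ • w i), ?_⟩
    rw [integral_add_right_eq_self (fun x => G i x) (σ • w i)]
    refine le_trans h2 ?_
    apply mul_le_mul_of_nonneg_right _ hEn
    exact Finset.single_le_sum (f := c) (fun j _ => hc0 j)
      (Finset.mem_range.2 (Nat.lt_succ_of_le (hLm i)))
  unfold mcorr
  calc |∫ x, ∏ i, pd (L i) f (x + σ • w i)|
      ≤ ∫ x, |∏ i, pd (L i) f (x + σ • w i)| := abs_integral_le_integral_abs
    _ ≤ ∫ x, ∑ i ∈ S, θ i * G i (x + σ • w i) := by
        apply integral_mono_of_nonneg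
        · exact Filter.Eventually.of_forall fun x => abs_nonneg _
        · exact integrable_finsetSum _ fun i hi => (hmain i hi).1.const_mul _
        · exact Filter.Eventually.of_forall hpt
    _ = ∑ i ∈ S, θ i * ∫ x, G i (x + σ • w i) := by
        rw [integral_finsetSum _ fun i hi => (hmain i hi).1.const_mul _]
        apply Finset.sum_congr rfl
        intro i _
        rw [integral_const_mul]
    _ ≤ ∑ i ∈ S, θ i * ((∑ j ∈ Finset.range (m + 1), c j) * En v m f) := by
        apply Finset.sum_le_sum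
        intro i hi
        exact mul_le_mul_of_nonneg_left (hmain i hi).2 (hθ0 i)
    _ = (∑ j ∈ Finset.range (m + 1), c j) * En v m f := by
        rw [← Finset.sum_mul, hθ1, one_mul]

end Pool.Agent.H269
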