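import Pool.Agent.H269.DefsG2
import Pool.Agent.H269.GN.G079
import Pool.Agent.H269.GN.G082
import Pool.Agent.H269.GN.G083
import Pool.Agent.H269.GN.G084

/-!
# GN-85 derivative of order 2m of the correlation function (MP_f2af60_mp, infinitely many resonances in odd dimension)
-/

set_option autoImplicit false

open MeasureTheory Filter Topology Complex
open scoped InnerProductSpace ENNReal NNReal FourierTransform

namespace Pool.Agent.H269



theorem En_nonneg907 (v m : ℕ) (f : EV v → ℝ) : 0 ≤ En v m f :=
  Finset.sum_nonneg fun _ _ => integral_nonneg fun _ => sq_nonneg _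

theorem upd907 {v k : ℕ} (f : EV v → ℝ) (L : Fin (k + 1) → List (Fin (2 * v + 3)))
    (j : Fin (k + 1)) (a : Fin (2 * v + 3)) :
    Function.update (fun i => pd (L i) f) j (pd [a] (pd (L j) f)) =
      fun i => pd (Function.update L j (a :: L j) i) f := by
  funext i
  by_cases h : i = j
  · subst h
    simp only [Function.update_self]
    rfl
  · simp only [Function.update_of_ne h]

theorem bd907 (v k m : ℕ) (hm : 1 ≤ m) (r : ℕ) : ∃ C : ℝ, 0 ≤ C ∧ ∀ f : EV v → ℝ, SmG v f →
    (∀ x, |f x| ≤ 1) → ∀ L : Fin (k + 1) → List (Fin (2 * v + 3)), (∀ i, (L i).length ≤ m) →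
      ∑ i, (L i).length + r = 2 * m → ∀ (w : Fin (k + 1) → EV v) (σ : ℝ),
      |iteratedDeriv r (mcorr v k (fun i => pd (L i) f) w) σ| ≤ C * ‖w‖ ^ r * En v m f := by
  induction r with
  | zero =>
    obtain ⟨C, hC0, hC⟩ := mcorr_full v k m hm
    refine ⟨C, hC0, fun f hf hb L hL hs w σ => ?_⟩
    rw [iteratedDeriv_zero, pow_zero, mul_one]
    exact hC f hf hb L hL (by simpa using hs) w σ
  | succ r ih =>
    obtain ⟨C, hC0, hC⟩ := ih
    refine ⟨((k : ℝ) + 1) * (((2 * v + 3 : ℕ) : ℝ) * (2 * C)), by positivity,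
      fun f hf hb L hL hs w σ => ?_⟩
    obtain ⟨i₀, hi₀⟩ : ∃ i₀ : Fin (k + 1), ∀ j, j ≠ i₀ → (L j).length + 1 ≤ m := by
      by_cases h : ∃ i, (L i).length = m
      · obtain ⟨i₀, hi₀⟩ := h
        refine ⟨i₀, fun j hj => ?_⟩
        by_contra hcon
        have h1 : (L j).length = m := by
          have := hL j
          omega
        have h2 : (L j).length + (L i₀).length ≤ ∑ i, (L i).length :=
          Finset.add_le_sum (f := fun i => (L i).length) (fun _ _ => Nat.zero_le _)
            (Finset.mem_univ j) (Finset.mem_univ i₀) hj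
        omega
      · refine ⟨0, fun j _ => ?_⟩
        have h1 := hL j
        have h2 : (L j).length ≠ m := fun e => h ⟨j, e⟩
        omega
    have hg : ∀ i, SmG v (pd (L i) f) := fun i => pd_smG v f hf (L i)
    have hder : deriv (mcorr v k (fun i => pd (L i) f) w) = fun s =>
        ∑ j ∈ Finset.univ.erase i₀, ∑ a : Fin (2 * v + 3), (w j a - w i₀ a) *
          mcorr v k (fun i => pd (Function.update L j (a :: L j) i) f) w s := by
      funext s
      rw [(mcorr_deriv v k _ hg w i₀ s).deriv]
      refine Finset.sum_congr rfl fun j _ => Finset.sum_congr rfl fun a _ => ?_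
      rw [upd907]
    have hsm : ∀ (j : Fin (k + 1)) (a : Fin (2 * v + 3)), ContDiff ℝ ((⊤ : ℕ∞) : WithTop ℕ∞)
        (mcorr v k (fun i => pd (Function.update L j (a :: L j) i) f) w) := fun j a =>
      (mcorr_iter v k 0 _ (fun i => pd_smG v f hf _)).1 w
    have hsm' : ∀ (j : Fin (k + 1)) (a : Fin (2 * v + 3)), ContDiffAt ℝ r (fun s =>
        (w j a - w i₀ a) * mcorr v k (fun i => pd (Function.update L j (a :: L j) i) f) w s) σ :=
      fun j a => (contDiff_const.mul ((hsm j a).of_le (by exact_mod_cast le_top))).contDiffAt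
    rw [iteratedDeriv_succ', hder]
    rw [iteratedDeriv_fun_sum (fun j _ => ContDiffAt.sum fun a _ => hsm' j a)]
    have hterm : ∀ j ∈ Finset.univ.erase i₀, |iteratedDeriv r (fun s => ∑ a : Fin (2 * v + 3),
        (w j a - w i₀ a) * mcorr v k (fun i => pd (Function.update L j (a :: L j) i) f) w s) σ| ≤
        ((2 * v + 3 : ℕ) : ℝ) * ((2 * ‖w‖) * (C * ‖w‖ ^ r * En v m f)) := by
      intro j hj
      have hj' : j ≠ i₀ := Finset.ne_of_mem_erase hj
      rw [iteratedDeriv_fun_sum (fun a _ => hsm' j a)]
      refine (Finset.abs_sum_le_sum_abs _ _).trans ?_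
      refine (Finset.sum_le_card_nsmul _ _ ((2 * ‖w‖) * (C * ‖w‖ ^ r * En v m f))
        fun a _ => ?_).trans (by simp)
      rw [iteratedDeriv_const_mul_field, abs_mul]
      refine mul_le_mul ?_ ?_ (abs_nonneg _) (by positivity)
      · have h1 : |w j a| ≤ ‖w‖ := (PiLp.norm_apply_le (w j) a).trans (norm_le_pi_norm w j)
        have h2 : |w i₀ a| ≤ ‖w‖ := (PiLp.norm_apply_le (w i₀) a).trans (norm_le_pi_norm w i₀)
        have h3 := abs_sub (w j a) (w i₀ a)
        linarith
      · refine hC f hf hb _ ?_ ?_ w σ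
        · intro i
          by_cases h : i = j
          · subst h
            rw [Function.update_self, List.length_cons]
            exact hi₀ i hj'
          · rw [Function.update_of_ne h]
            exact hL i
        · have h1 : ∑ i, (Function.update L j (a :: L j) i).length = ∑ i, (L i).length + 1 := by
            rw [← Finset.add_sum_erase _ _ (Finset.mem_univ j),
              ← Finset.add_sum_erase _ (fun i => (L i).length) (Finset.mem_univ j)]
            rw [Function.update_self, List.length_cons]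
            have h2 : ∑ x ∈ Finset.univ.erase j, (Function.update L j (a :: L j) x).length =
                ∑ x ∈ Finset.univ.erase j, (L x).length :=
              Finset.sum_congr rfl fun x hx => by
                rw [Function.update_of_ne (Finset.ne_of_mem_erase hx)]
            rw [h2]
            ring
          rw [h1]
          omega
    refine (Finset.abs_sum_le_sum_abs _ _).trans ?_
    refine (Finset.sum_le_card_nsmul _ _ _ hterm).trans ?_
    rw [nsmul_eq_mul]
    have hcard : (((Finset.univ.erase i₀).card : ℕ) : ℝ) ≤ (k : ℝ) + 1 := by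
      have : (Finset.univ.erase i₀).card ≤ k + 1 := by
        simp
      exact_mod_cast this
    have hE := En_nonneg907 v m f
    have hnn : 0 ≤ ((2 * v + 3 : ℕ) : ℝ) * ((2 * ‖w‖) * (C * ‖w‖ ^ r * En v m f)) := by positivity
    refine (mul_le_mul_of_nonneg_right hcard hnn).trans (le_of_eq ?_)
    rw [pow_succ]
    ring

theorem mcorr_iter_bound (v k m : ℕ) (hm : 1 ≤ m) : ∃ C : ℝ, 0 ≤ C ∧ ∀ f : EV v → ℝ, SmG v f →
    (∀ x, |f x| ≤ 1) → ∀ (w : Fin (k + 1) → EV v) (σ : ℝ),
      |iteratedDeriv (2 * m) (mcorr v k (fun _ => f) w) σ| ≤ C * ‖w‖ ^ (2 * m) * En v m f := by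
  obtain ⟨C, hC0, hC⟩ := bd907 v k m hm (2 * m)
  refine ⟨C, hC0, fun f hf hb w σ => ?_⟩
  have h := hC f hf hb (fun _ => []) (fun _ => Nat.zero_le _) (by simp) w σ
  exact h

end Pool.Agent.H269

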