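import Pool.Agent.H269.DefsG2
import Pool.Agent.H269.GN.G083
import Pool.Agent.H269.GN.G085

/-!
# GN-86 expansion of the smeared correlation function, smooth case (MP_f2af60_mp, infinitely many resonances in odd dimension)
-/

set_option autoImplicit false

open MeasureTheory Filter Topology Complex
open scoped InnerProductSpace ENNReal NNReal FourierTransform

namespace Pool.Agent.H269


theorem GN86_En_nonneg (v m : ℕ) (f : EV v → ℝ) : 0 ≤ En v m f :=
  Finset.sum_nonneg fun _ _ => integral_nonneg fun _ => sq_nonneg _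

theorem GN86_norm_cons {v k : ℕ} (y : Fin k → EV v) :
    ‖(Fin.cons 0 y : Fin (k + 1) → EV v)‖ ≤ ‖y‖ := by
  rw [pi_norm_le_iff_of_nonneg (norm_nonneg _)]
  intro i
  refine Fin.cases ?_ (fun j => ?_) i
  · rw [Fin.cons_zero, norm_zero]; exact norm_nonneg _
  · rw [Fin.cons_succ]; exact norm_le_pi_norm y j

theorem GN86_cont_cons (v k : ℕ) :
    Continuous (fun y : Fin k → EV v => (Fin.cons 0 y : Fin (k + 1) → EV v)) := by
  refine continuous_pi fun i => ?_
  refine Fin.cases ?_ (fun j => ?_) i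
  · simp only [Fin.cons_zero]; exact continuous_const
  · simp only [Fin.cons_succ]; exact continuous_apply j

theorem GN86_mcorr_neg (v k : ℕ) (f : EV v → ℝ) (y : Fin k → EV v) :
    mcorr v k (fun _ => f) (Fin.cons 0 (-y) : Fin (k + 1) → EV v) =
      fun σ => mcorr v k (fun _ => f) (Fin.cons 0 y : Fin (k + 1) → EV v) (-σ) := by
  funext σ
  unfold mcorr
  refine integral_congr_ae (Filter.Eventually.of_forall fun x => ?_)
  refine Finset.prod_congr rfl fun i _ => ?_
  refine Fin.cases ?_ (fun j => ?_) i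
  · simp
  · simp

theorem GN86_taylor {φ : ℝ → ℝ} (hφ : ContDiff ℝ ((⊤ : ℕ∞) : WithTop ℕ∞) φ) {n : ℕ} {B : ℝ}
    (hB : ∀ σ, |iteratedDeriv (n + 1) φ σ| ≤ B) {σ : ℝ} (hσ : 0 ≤ σ) :
    |φ σ - ∑ a ∈ Finset.range (n + 1), iteratedDeriv a φ 0 / (a.factorial : ℝ) * σ ^ a| ≤
      B * σ ^ (n + 1) := by
  have hB0 : 0 ≤ B := (abs_nonneg _).trans (hB 0)
  rcases hσ.eq_or_lt with rfl | hpos
  · rw [Finset.sum_range_succ']
    have : ∑ a ∈ Finset.range n, iteratedDeriv (a + 1) φ 0 / ((a + 1).factorial : ℝ) *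
        (0 : ℝ) ^ (a + 1) = 0 := Finset.sum_eq_zero fun a _ => by simp
    rw [this]
    simp
  · have hu : UniqueDiffOn ℝ (Set.Icc 0 σ) := uniqueDiffOn_Icc hpos
    have e : ∀ (a : ℕ) (t : ℝ), t ∈ Set.Icc 0 σ →
        iteratedDerivWithin a φ (Set.Icc 0 σ) t = iteratedDeriv a φ t := fun a t ht =>
      iteratedDerivWithin_eq_iteratedDeriv hu
        ((hφ.of_le (by exact_mod_cast le_top)).contDiffAt) ht
    have h := taylor_mean_remainder_bound (f := φ) (a := 0) (b := σ) (x := σ) (n := n) (C := B) hσ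
      ((hφ.of_le (by exact_mod_cast le_top)).contDiffOn) ⟨hσ, le_rfl⟩
      (fun t ht => by rw [e _ t ht, Real.norm_eq_abs]; exact hB t)
    rw [taylor_within_apply, Real.norm_eq_abs] at h
    have h1 : ∑ a ∈ Finset.range (n + 1), ((a.factorial : ℝ)⁻¹ * (σ - 0) ^ a) •
        iteratedDerivWithin a φ (Set.Icc 0 σ) 0 =
        ∑ a ∈ Finset.range (n + 1), iteratedDeriv a φ 0 / (a.factorial : ℝ) * σ ^ a := by
      refine Finset.sum_congr rfl fun a _ => ?_
      rw [e a 0 ⟨le_rfl, hσ⟩, sub_zero, smul_eq_mul]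
      ring
    rw [h1, sub_zero] at h
    refine h.trans (div_le_self (by positivity) ?_)
    exact_mod_cast Nat.factorial_pos n

theorem GN86_contD (v k a : ℕ) (g : Fin (k + 1) → EV v → ℝ) (hg : ∀ i, SmG v (g i)) (σ : ℝ) :
    Continuous (fun y : Fin k → EV v =>
      iteratedDeriv a (mcorr v k g (Fin.cons 0 y : Fin (k + 1) → EV v)) σ) := by
  have h := (mcorr_iter v k a g hg).2.1
  have h3 : Continuous (fun y : Fin k → EV v => ((Fin.cons 0 y : Fin (k + 1) → EV v), σ)) :=
    Continuous.prodMk (GN86_cont_cons v k) continuous_const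
  generalize hF : (fun p : (Fin (k + 1) → EV v) × ℝ => iteratedDeriv a (mcorr v k g p.1) p.2) = F
    at h
  have h2 := Continuous.comp h h3
  have h4 : (fun y : Fin k → EV v =>
      iteratedDeriv a (mcorr v k g (Fin.cons 0 y : Fin (k + 1) → EV v)) σ) =
      F ∘ (fun y : Fin k → EV v => ((Fin.cons 0 y : Fin (k + 1) → EV v), σ)) := by
    rw [← hF]
    rfl
  rw [h4]
  exact h2

theorem GN86_neginv (v k : ℕ) : (volume : Measure (Fin k → EV v)).IsNegInvariant := by
  have h : ∀ _ : Fin k, (volume : Measure (EV v)).IsNegInvariant := fun _ => inferInstance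
  exact @Measure.pi.isNegInvariant (Fin k) (fun _ => EV v) _ _ (fun _ => volume) _ _ _ _

theorem GN86_intneg (v k : ℕ) (F : (Fin k → EV v) → ℝ) : ∫ y, F (-y) = ∫ y, F y := by
  have := GN86_neginv v k
  exact integral_neg_eq_self F volume

theorem GN86_sum_even (T : ℕ → ℝ) (hT : ∀ i, T (2 * i + 1) = 0) (m : ℕ) :
    ∑ a ∈ Finset.range (2 * m), T a = ∑ i ∈ Finset.range m, T (2 * i) := by
  induction m with
  | zero => simp
  | succ m ih =>
    rw [show 2 * (m + 1) = 2 * m + 1 + 1 by ring, Finset.sum_range_succ, Finset.sum_range_succ,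
      Finset.sum_range_succ, ih, hT, add_zero]


theorem corr_eq_mcorr (v k : ℕ) (f : EV v → ℝ) (y : Fin k → EV v) (σ : ℝ) :
    corr v k f (σ • y) = mcorr v k (fun _ => f) (Fin.cons 0 y : Fin (k + 1) → EV v) σ := by
  unfold corr mcorr
  refine integral_congr_ae (Filter.Eventually.of_forall fun x => ?_)
  simp [Fin.prod_univ_succ]

theorem corr_expand_smooth (v k m : ℕ) (hm : 1 ≤ m) : ∃ C : ℝ, 0 ≤ C ∧
    ∀ W : (Fin k → EV v) → ℝ, Measurable W → (∀ y, 0 ≤ W y) → (∀ y, W (-y) = W y) →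
      (∀ j : ℕ, Integrable (fun y => ‖y‖ ^ j * W y)) →
      ∀ f : EV v → ℝ, SmG v f → (∀ x, |f x| ≤ 1) → ∃ c : ℕ → ℝ, ∀ σ : ℝ, 0 ≤ σ →
        |(∫ y, corr v k f (σ • y) * W y) - ∑ i ∈ Finset.range m, c i * σ ^ (2 * i)| ≤
          C * En v m f * (∫ y, ‖y‖ ^ (2 * m) * W y) * σ ^ (2 * m) := by
  obtain ⟨C, hC, hbound⟩ := mcorr_iter_bound v k m hm
  refine ⟨C, hC, ?_⟩
  intro W hWm hW0 hWe hWi f hf hf1
  have hEn := GN86_En_nonneg v m f
  set D : ℕ → (Fin k → EV v) → ℝ := fun a y =>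
    iteratedDeriv a (mcorr v k (fun _ => f) (Fin.cons 0 y : Fin (k + 1) → EV v)) 0 with hD
  have hsm : ∀ w, ContDiff ℝ ((⊤ : ℕ∞) : WithTop ℕ∞) (mcorr v k (fun _ => f) w) :=
    (mcorr_iter v k 0 (fun _ => f) (fun _ => hf)).1
  have hcontD : ∀ a (σ : ℝ), Continuous (fun y : Fin k → EV v =>
      iteratedDeriv a (mcorr v k (fun _ => f) (Fin.cons 0 y : Fin (k + 1) → EV v)) σ) := by
    intro a σ
    exact GN86_contD v k a (fun _ => f) (fun _ => hf) σ
  have hbd : ∀ a, ∃ K : ℝ, 0 ≤ K ∧ ∀ (y : Fin k → EV v) (σ : ℝ),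
      |iteratedDeriv a (mcorr v k (fun _ => f) (Fin.cons 0 y : Fin (k + 1) → EV v)) σ| ≤
        K * ‖y‖ ^ a := by
    intro a
    obtain ⟨K, hK⟩ := (mcorr_iter v k a (fun _ => f) (fun _ => hf)).2.2
    refine ⟨|K|, abs_nonneg _, fun y σ => ?_⟩
    refine (hK _ σ).trans ?_
    refine mul_le_mul (le_abs_self K) (pow_le_pow_left₀ (norm_nonneg _) (GN86_norm_cons y) a)
      (pow_nonneg (norm_nonneg _) _) (abs_nonneg _)
  have hint : ∀ a (σ : ℝ), Integrable (fun y : Fin k → EV v =>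
      iteratedDeriv a (mcorr v k (fun _ => f) (Fin.cons 0 y : Fin (k + 1) → EV v)) σ * W y) := by
    intro a σ
    obtain ⟨K, hK0, hK⟩ := hbd a
    refine Integrable.mono' ((hWi a).const_mul K)
      ((hcontD a σ).measurable.mul hWm).aestronglyMeasurable (Filter.Eventually.of_forall fun y => ?_)
    rw [Real.norm_eq_abs, abs_mul, abs_of_nonneg (hW0 y), ← mul_assoc]
    exact mul_le_mul_of_nonneg_right (hK y σ) (hW0 y)
  have hint0 : ∀ σ : ℝ, Integrable (fun y : Fin k → EV v =>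
      mcorr v k (fun _ => f) (Fin.cons 0 y : Fin (k + 1) → EV v) σ * W y) := by
    intro σ
    have := hint 0 σ
    simpa only [iteratedDeriv_zero] using this
  have hodd : ∀ i, ∫ y, D (2 * i + 1) y * W y = 0 := by
    intro i
    have h1 : ∫ y, D (2 * i + 1) (-y) * W (-y) = ∫ y, D (2 * i + 1) y * W y :=
      GN86_intneg v k (fun y => D (2 * i + 1) y * W y)
    have h2 : ∀ y, D (2 * i + 1) (-y) * W (-y) = -(D (2 * i + 1) y * W y) := by
      intro y
      rw [hWe]
      simp only [hD]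
      rw [GN86_mcorr_neg, iteratedDeriv_comp_neg, neg_zero, smul_eq_mul,
        Odd.neg_one_pow ⟨i, rfl⟩]
      ring
    simp only [h2] at h1
    rw [integral_neg] at h1
    linarith
  refine ⟨fun i => (∫ y, D (2 * i) y * W y) / ((2 * i).factorial : ℝ), fun σ hσ => ?_⟩
  have hsum : ∑ i ∈ Finset.range m, (∫ y, D (2 * i) y * W y) / ((2 * i).factorial : ℝ) *
      σ ^ (2 * i) = ∫ y, (∑ a ∈ Finset.range (2 * m), D a y / (a.factorial : ℝ) * σ ^ a) * W y := by
    have h1 : ∫ y, (∑ a ∈ Finset.range (2 * m), D a y / (a.factorial : ℝ) * σ ^ a) * W y =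
        ∑ a ∈ Finset.range (2 * m), (∫ y, D a y * W y) / (a.factorial : ℝ) * σ ^ a := by
      have h2 : ∀ y, (∑ a ∈ Finset.range (2 * m), D a y / (a.factorial : ℝ) * σ ^ a) * W y =
          ∑ a ∈ Finset.range (2 * m), (σ ^ a / (a.factorial : ℝ)) * (D a y * W y) := by
        intro y
        rw [Finset.sum_mul]
        refine Finset.sum_congr rfl fun a _ => ?_
        ring
      simp only [h2]
      rw [integral_finsetSum]
      · refine Finset.sum_congr rfl fun a _ => ?_
        rw [integral_const_mul]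
        ring
      · intro a _
        exact (hint a 0).const_mul _
    rw [h1]
    exact (GN86_sum_even (fun a => (∫ y, D a y * W y) / (a.factorial : ℝ) * σ ^ a)
      (fun i => by simp only [hodd]; simp) m).symm
  have hpoint : ∀ y, |mcorr v k (fun _ => f) (Fin.cons 0 y : Fin (k + 1) → EV v) σ -
      ∑ a ∈ Finset.range (2 * m), D a y / (a.factorial : ℝ) * σ ^ a| ≤
      C * ‖y‖ ^ (2 * m) * En v m f * σ ^ (2 * m) := by
    intro y
    obtain ⟨n, hn⟩ : ∃ n, 2 * m = n + 1 := ⟨2 * m - 1, by omega⟩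
    have h := GN86_taylor (hsm (Fin.cons 0 y : Fin (k + 1) → EV v)) (n := n)
      (B := C * ‖y‖ ^ (2 * m) * En v m f) (fun t => by
        rw [← hn]
        refine (hbound f hf hf1 _ t).trans ?_
        refine mul_le_mul_of_nonneg_right (mul_le_mul_of_nonneg_left
          (pow_le_pow_left₀ (norm_nonneg _) (GN86_norm_cons y) _) hC) hEn) hσ
    rw [← hn] at h
    exact h
  have hintS : Integrable (fun y => (∑ a ∈ Finset.range (2 * m), D a y / (a.factorial : ℝ) *
      σ ^ a) * W y) := by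
    have h2 : (fun y => (∑ a ∈ Finset.range (2 * m), D a y / (a.factorial : ℝ) * σ ^ a) * W y) =
        fun y => ∑ a ∈ Finset.range (2 * m), (σ ^ a / (a.factorial : ℝ)) * (D a y * W y) := by
      funext y
      rw [Finset.sum_mul]
      refine Finset.sum_congr rfl fun a _ => ?_
      ring
    rw [h2]
    exact integrable_finsetSum _ fun a _ => (hint a 0).const_mul _
  simp only [corr_eq_mcorr]
  rw [hsum, ← integral_sub (hint0 σ) hintS]
  have hle : |∫ y, (mcorr v k (fun _ => f) (Fin.cons 0 y : Fin (k + 1) → EV v) σ * W y -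
      (∑ a ∈ Finset.range (2 * m), D a y / (a.factorial : ℝ) * σ ^ a) * W y)| ≤
      ∫ y, C * En v m f * σ ^ (2 * m) * (‖y‖ ^ (2 * m) * W y) := by
    rw [← Real.norm_eq_abs]
    refine norm_integral_le_of_norm_le ((hWi (2 * m)).const_mul _)
      (Filter.Eventually.of_forall fun y => ?_)
    rw [← sub_mul, Real.norm_eq_abs, abs_mul, abs_of_nonneg (hW0 y)]
    calc |mcorr v k (fun _ => f) (Fin.cons 0 y : Fin (k + 1) → EV v) σ -
          ∑ a ∈ Finset.range (2 * m), D a y / (a.factorial : ℝ) * σ ^ a| * W y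
        ≤ C * ‖y‖ ^ (2 * m) * En v m f * σ ^ (2 * m) * W y :=
          mul_le_mul_of_nonneg_right (hpoint y) (hW0 y)
      _ = _ := by ring
  refine hle.trans (le_of_eq ?_)
  rw [integral_const_mul]
  ring

end Pool.Agent.H269
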