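import Pool.Agent.H269.DefsG2

/-!
# GN-87 mollification (MP_f2af60_mp, infinitely many resonances in odd dimension)
-/

set_option autoImplicit false

open MeasureTheory Filter Topology Complex
open scoped InnerProductSpace ENNReal NNReal FourierTransform

namespace Pool.Agent.H269


theorem mollify (v : ℕ) (R M : ℝ) (V : EV v → ℝ) (P : PotG v R M V) :
    ∃ f : ℕ → EV v → ℝ, (∀ n, SmG v (f n)) ∧ (∀ n x, |f n x| ≤ M) ∧
      (∀ n x, x ∉ Metric.closedBall (0 : EV v) (R + 1) → f n x = 0) ∧
      (∀ n ξ, ‖Vf (f n) ξ‖ ≤ ‖Vf V ξ‖) ∧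
      ∀ᵐ x, Tendsto (fun n => f n x) atTop (𝓝 (V x)) := by
  obtain ⟨hR, hM, hmeas, hbdd, hsupp⟩ := P
  have hV : Integrable V := by
    have h1 : IntegrableOn V (Metric.closedBall (0 : EV v) R) := by
      refine Measure.integrableOn_of_bounded (M := M) ?_ hmeas.aestronglyMeasurable ?_
      · exact (isCompact_closedBall _ _).measure_lt_top.ne
      · exact Eventually.of_forall fun x => by simpa using hbdd x
    rw [integrableOn_iff_integrable_of_support_subset] at h1
    · exact h1
    · intro x hx
      by_contra hcon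
      exact hx (hsupp x hcon)
  let φ : ℕ → ContDiffBump (0 : EV v) := fun n =>
    ⟨1 / (2 * ((n : ℝ) + 1)), 1 / ((n : ℝ) + 1), by positivity, by
      apply one_div_lt_one_div_of_lt <;> nlinarith [(Nat.cast_nonneg n : (0 : ℝ) ≤ n)]⟩
  let ρ : ℕ → EV v → ℝ := fun n => (φ n).normed volume
  have hρ0 : ∀ n x, 0 ≤ ρ n x := fun n x => (φ n).nonneg_normed x
  have hρ1 : ∀ n, ∫ x, ρ n x = 1 := fun n => (φ n).integral_normed
  have hρi : ∀ n, Integrable (ρ n) := fun n => (φ n).integrable_normed
  let f : ℕ → EV v → ℝ := fun n => MeasureTheory.convolution (ρ n) V (ContinuousLinearMap.lsmul ℝ ℝ) volume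
  have hf : ∀ n x, f n x = ∫ t, ρ n t * V (x - t) := fun n x => rfl
  have hs : ∀ n x, x ∉ Metric.closedBall (0 : EV v) (R + 1) → f n x = 0 := by
    intro n x hx
    rw [hf]
    have : ∀ t, ρ n t * V (x - t) = 0 := by
      intro t
      by_cases ht : t ∈ Metric.ball (0 : EV v) (φ n).rOut
      · have h1 : ‖t‖ < 1 / ((n : ℝ) + 1) := by
          rw [mem_ball_zero_iff] at ht
          exact ht
        have h2 : 1 / ((n : ℝ) + 1) ≤ 1 := by
          rw [div_le_one (by positivity)]
          linarith [(Nat.cast_nonneg n : (0 : ℝ) ≤ n)]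
        have h3 : R + 1 < ‖x‖ := by simpa using hx
        have h4 : ‖x‖ ≤ ‖x - t‖ + ‖t‖ := by
          have := norm_add_le (x - t) t
          rwa [sub_add_cancel] at this
        have h5 : V (x - t) = 0 := by
          apply hsupp
          rw [mem_closedBall_zero_iff]
          linarith
        rw [h5, mul_zero]
      · have h1 : t ∉ Function.support (ρ n) := by
          change t ∉ Function.support ((φ n).normed volume)
          rw [(φ n).support_normed_eq]
          exact ht
        rw [Function.notMem_support.1 h1, zero_mul]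
    simp [this]
  refine ⟨f, fun n => ⟨?_, ?_⟩, fun n x => ?_, hs, fun n ξ => ?_, ?_⟩
  · exact (φ n).hasCompactSupport_normed.contDiff_convolution_left (ContinuousLinearMap.lsmul ℝ ℝ)
      (φ n).contDiff_normed hV.locallyIntegrable
  · exact HasCompactSupport.intro (isCompact_closedBall (0 : EV v) (R + 1)) (hs n)
  · rw [hf, ← Real.norm_eq_abs]
    have h1 := norm_integral_le_of_norm_le (μ := volume) (f := fun t => ρ n t * V (x - t))
      (g := fun t => ρ n t * M) ((hρi n).mul_const M) (Eventually.of_forall fun t => by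
        rw [norm_mul, Real.norm_of_nonneg (hρ0 n t)]
        exact mul_le_mul_of_nonneg_left (by simpa using hbdd _) (hρ0 n t))
    rw [integral_mul_const, hρ1, one_mul] at h1
    exact h1
  · have hρc : Integrable (fun x => (ρ n x : ℂ)) := (hρi n).ofReal
    have hVc : Integrable (fun x => (V x : ℂ)) := hV.ofReal
    have h1 := Real.fourier_mul_convolution_eq hρc hVc ξ
    have h2 : MeasureTheory.convolution (fun x => (ρ n x : ℂ)) (fun x => (V x : ℂ))
        (ContinuousLinearMap.mul ℂ ℂ) volume = fun x => (f n x : ℂ) := by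
      funext x
      rw [hf, ← integral_complex_ofReal]
      refine integral_congr_ae (Eventually.of_forall fun t => ?_)
      simp
    rw [h2] at h1
    have h3 : Vf (f n) ξ = 𝓕 (fun x => (ρ n x : ℂ)) ξ * Vf V ξ := h1
    have h4 : ‖𝓕 (fun x => (ρ n x : ℂ)) ξ‖ ≤ 1 := by
      refine (VectorFourier.norm_fourierIntegral_le_integral_norm _ _ _ _ _).trans ?_
      have : ∀ x, ‖(ρ n x : ℂ)‖ = ρ n x := fun x => by
        rw [Complex.norm_real, Real.norm_of_nonneg (hρ0 n x)]
      simp only [this, hρ1, le_refl]
    rw [h3, norm_mul]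
    exact mul_le_of_le_one_left (norm_nonneg _) h4
  · refine ContDiffBump.ae_convolution_tendsto_right_of_locallyIntegrable (φ := φ) (K := 2) ?_ ?_
      hV.locallyIntegrable
    · exact tendsto_one_div_add_atTop_nhds_zero_nat
    · refine Eventually.of_forall fun n => ?_
      change 1 / ((n : ℝ) + 1) ≤ 2 * (1 / (2 * ((n : ℝ) + 1)))
      have : (0 : ℝ) < (n : ℝ) + 1 := by positivity
      field_simp
      exact le_refl _

end Pool.Agent.H269
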