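import Pool.Agent.H269.DefsG2

/-!
# GN-88 convergence of correlation functions; bounded polynomials (MP_f2af60_mp, infinitely many resonances in odd dimension)
-/

set_option autoImplicit false

open MeasureTheory Filter Topology Complex
open scoped InnerProductSpace ENNReal NNReal FourierTransform

namespace Pool.Agent.H269



theorem corr_tendsto_bound (v k : ℕ) (R M : ℝ) (f : EV v → ℝ)
    (hM : 0 < M) (hb : ∀ x, |f x| ≤ M)
    (hs : ∀ x, x ∉ Metric.closedBall (0 : EV v) R → f x = 0) (y : Fin k → EV v) (x : EV v) :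
    ‖f x * ∏ i, f (x + y i)‖ ≤
      (Metric.closedBall (0 : EV v) R).indicator (fun _ => M ^ (k + 1)) x := by
  by_cases hx : x ∈ Metric.closedBall (0 : EV v) R
  · rw [Set.indicator_of_mem hx, norm_mul, norm_prod, pow_succ, mul_comm]
    have h1 : ∏ i, ‖f (x + y i)‖ ≤ M ^ k := by
      calc ∏ i, ‖f (x + y i)‖ ≤ ∏ _i : Fin k, M :=
            Finset.prod_le_prod (fun i _ => norm_nonneg _) (fun i _ => by
              rw [Real.norm_eq_abs]; exact hb _)
        _ = M ^ k := by simp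
    exact mul_le_mul h1 (by rw [Real.norm_eq_abs]; exact hb x) (norm_nonneg _) (by positivity)
  · rw [Set.indicator_of_notMem hx, hs x hx, zero_mul, norm_zero]

theorem corr_tendsto_int (v k : ℕ) (R M : ℝ) :
    Integrable ((Metric.closedBall (0 : EV v) R).indicator (fun _ => M ^ (k + 1))) := by
  refine (integrable_indicator_iff Metric.isClosed_closedBall.measurableSet).2 ?_
  exact integrableOn_const (measure_closedBall_lt_top.ne)

theorem corr_tendsto (v k : ℕ) (R M : ℝ) (V : EV v → ℝ) (f : ℕ → EV v → ℝ) (hR : 0 < R)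
    (hM : 0 < M) (hf : ∀ n, Measurable (f n)) (hb : ∀ n x, |f n x| ≤ M)
    (hs : ∀ n x, x ∉ Metric.closedBall (0 : EV v) R → f n x = 0)
    (ht : ∀ᵐ x, Tendsto (fun n => f n x) atTop (𝓝 (V x))) (y : Fin k → EV v) :
    Tendsto (fun n => corr v k (f n) y) atTop (𝓝 (corr v k V y)) ∧
    ∀ n, |corr v k (f n) y| ≤
      M ^ (k + 1) * (volume (Metric.closedBall (0 : EV v) R)).toReal := by
  constructor
  · unfold corr
    refine tendsto_integral_of_dominated_convergence
      ((Metric.closedBall (0 : EV v) R).indicator (fun _ => M ^ (k + 1))) ?_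
      (corr_tendsto_int v k R M) ?_ ?_
    · intro n
      refine Measurable.aestronglyMeasurable ?_
      refine (hf n).mul (Finset.measurable_prod _ fun i _ => ?_)
      exact (hf n).comp (measurable_id.add_const (y i))
    · intro n
      exact Eventually.of_forall fun x =>
        corr_tendsto_bound v k R M (f n) hM (hb n) (hs n) y x
    · have h1 : ∀ i : Fin k, ∀ᵐ x : EV v, Tendsto (fun n => f n (x + y i)) atTop
          (𝓝 (V (x + y i))) := fun i =>
        (measurePreserving_add_right (volume : Measure (EV v)) (y i)).quasiMeasurePreserving.ae ht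
      filter_upwards [ht, ae_all_iff.2 h1] with x hx hx2
      exact hx.mul (tendsto_finsetProd _ fun i _ => hx2 i)
  · intro n
    unfold corr
    have h2 := norm_integral_le_of_norm_le (corr_tendsto_int v k R M)
      (Eventually.of_forall fun x => corr_tendsto_bound v k R M (f n) hM (hb n) (hs n) y x)
    rw [Real.norm_eq_abs] at h2
    refine h2.trans (le_of_eq ?_)
    rw [integral_indicator Metric.isClosed_closedBall.measurableSet, setIntegral_const, smul_eq_mul,
      mul_comm]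
    rfl

theorem poly_compact (m : ℕ) (Ψ : ℝ → ℝ) (Ψn : ℕ → ℝ → ℝ) (c : ℕ → ℕ → ℝ) (C B : ℝ)
    (h1 : ∀ n, ∀ σ ∈ Set.Icc (0 : ℝ) 1,
      |Ψn n σ - ∑ i ∈ Finset.range m, c n i * σ ^ (2 * i)| ≤ C * σ ^ (2 * m))
    (h2 : ∀ n, ∀ σ ∈ Set.Icc (0 : ℝ) 1, |Ψn n σ| ≤ B)
    (h3 : ∀ σ ∈ Set.Icc (0 : ℝ) 1, Tendsto (fun n => Ψn n σ) atTop (𝓝 (Ψ σ))) :
    ∃ c' : ℕ → ℝ, ∀ σ ∈ Set.Icc (0 : ℝ) 1,
      |Ψ σ - ∑ i ∈ Finset.range m, c' i * σ ^ (2 * i)| ≤ C * σ ^ (2 * m) := by
  classical
  -- nodes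
  have hx : ∀ j : Fin m, (((j : ℕ) : ℝ) + 1) / m ∈ Set.Icc (0 : ℝ) 1 := by
    intro j
    have hm : (0 : ℝ) < m := by
      have := j.pos
      exact_mod_cast this
    refine ⟨by positivity, ?_⟩
    rw [div_le_one hm]
    exact_mod_cast j.2
  obtain ⟨u, hu⟩ : ∃ u : Fin m → ℝ, ∀ j : Fin m, u j = ((((j : ℕ) : ℝ) + 1) / m) ^ 2 :=
    ⟨fun j => ((((j : ℕ) : ℝ) + 1) / m) ^ 2, fun j => rfl⟩
  have hinj : Function.Injective u := by
    intro i j hij
    rw [hu, hu] at hij
    have hm : (0 : ℝ) < m := by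
      have := j.pos
      exact_mod_cast this
    have h4 : (((i : ℕ) : ℝ) + 1) / m = (((j : ℕ) : ℝ) + 1) / m :=
      (pow_left_inj₀ (hx i).1 (hx j).1 (by norm_num)).1 hij
    have h5 : (((i : ℕ) : ℝ) + 1) = (((j : ℕ) : ℝ) + 1) := by
      field_simp at h4
      exact h4
    have h6 : ((i : ℕ) : ℝ) = ((j : ℕ) : ℝ) := by linarith
    exact Fin.ext (by exact_mod_cast h6)
  have hdet : (Matrix.vandermonde u).det ≠ 0 := Matrix.det_vandermonde_ne_zero_iff.2 hinj
  have hunit : IsUnit (Matrix.vandermonde u).det := isUnit_iff_ne_zero.2 hdet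
  obtain ⟨w, hw⟩ : ∃ w : ℕ → Fin m → ℝ,
      ∀ n, w n = (Matrix.vandermonde u).mulVec (fun i : Fin m => c n i) :=
    ⟨fun n => (Matrix.vandermonde u).mulVec (fun i : Fin m => c n i), fun n => rfl⟩
  have hwb : ∀ n j, |w n j| ≤ B + |C| := by
    intro n j
    have e1 : w n j = ∑ i ∈ Finset.range m, c n i * ((((j : ℕ) : ℝ) + 1) / m) ^ (2 * i) := by
      rw [hw, Finset.sum_range]
      simp only [Matrix.mulVec, dotProduct, Matrix.vandermonde_apply, hu]
      refine Finset.sum_congr rfl fun i _ => ?_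
      rw [pow_mul]
      ring
    have a1 := h1 n _ (hx j)
    have a2 := h2 n _ (hx j)
    rw [← e1] at a1
    have a3 : C * ((((j : ℕ) : ℝ) + 1) / m) ^ (2 * m) ≤ |C| := by
      refine (mul_le_mul_of_nonneg_right (le_abs_self C) (pow_nonneg (hx j).1 _)).trans ?_
      exact mul_le_of_le_one_right (abs_nonneg _) (pow_le_one₀ (hx j).1 (hx j).2)
    have a4 : |w n j| ≤ |Ψn n ((((j : ℕ) : ℝ) + 1) / m)| +
        |Ψn n ((((j : ℕ) : ℝ) + 1) / m) - w n j| := by
      have h6 : w n j = Ψn n ((((j : ℕ) : ℝ) + 1) / m) -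
        (Ψn n ((((j : ℕ) : ℝ) + 1) / m) - w n j) := by ring
      conv_lhs => rw [h6]
      exact abs_sub _ _
    linarith
  obtain ⟨w', -, φ, hφ, hlim⟩ := tendsto_subseq_of_bounded
    (s := Metric.closedBall (0 : Fin m → ℝ) (|B| + |C|)) Metric.isBounded_closedBall (x := w)
    (fun n => by
      rw [mem_closedBall_zero_iff, pi_norm_le_iff_of_nonneg (by positivity)]
      intro j
      rw [Real.norm_eq_abs]
      refine (hwb n j).trans ?_
      have := le_abs_self B
      linarith)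
  have hcn : ∀ n, (fun i : Fin m => c n i) = (Matrix.vandermonde u)⁻¹.mulVec (w n) := by
    intro n
    rw [hw, Matrix.mulVec_mulVec, Matrix.nonsing_inv_mul _ hunit, Matrix.one_mulVec]
  have hlim2 : Tendsto (fun n => (fun i : Fin m => c (φ n) i)) atTop
      (𝓝 ((Matrix.vandermonde u)⁻¹.mulVec w')) := by
    have h5 : Continuous (fun z : Fin m → ℝ => (Matrix.vandermonde u)⁻¹.mulVec z) := by
      exact Continuous.matrix_mulVec continuous_const continuous_id
    have h6 := (h5.tendsto w').comp hlim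
    refine h6.congr fun n => ?_
    rw [hcn (φ n)]
    rfl
  refine ⟨fun i => if h : i < m then (Matrix.vandermonde u)⁻¹.mulVec w' ⟨i, h⟩ else 0, ?_⟩
  intro σ hσ
  have h4 : Tendsto (fun n => Ψn (φ n) σ) atTop (𝓝 (Ψ σ)) := (h3 σ hσ).comp hφ.tendsto_atTop
  have h5 : Tendsto (fun n => ∑ i ∈ Finset.range m, c (φ n) i * σ ^ (2 * i)) atTop
      (𝓝 (∑ i ∈ Finset.range m, (if h : i < m then (Matrix.vandermonde u)⁻¹.mulVec w' ⟨i, h⟩
        else 0) * σ ^ (2 * i))) := by
    refine tendsto_finsetSum _ fun i hi => ?_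
    have him := Finset.mem_range.1 hi
    rw [dif_pos him]
    exact ((tendsto_pi_nhds.1 hlim2) ⟨i, him⟩).mul_const _
  have h6 := (h4.sub h5).abs
  exact le_of_tendsto h6 (Eventually.of_forall fun n => h1 (φ n) σ hσ)

end Pool.Agent.H269
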