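import Pool.Agent.H269.DefsG2
import Pool.Agent.H269.GN.G070
import Pool.Agent.H269.GN.G081
import Pool.Agent.H269.GN.G086
import Pool.Agent.H269.GN.G087
import Pool.Agent.H269.GN.G088

/-!
# GN-89 expansion of the smeared correlation function (MP_f2af60_mp, infinitely many resonances in odd dimension)
-/

set_option autoImplicit false

open MeasureTheory Filter Topology Complex
open scoped InnerProductSpace ENNReal NNReal FourierTransform

namespace Pool.Agent.H269


theorem gn89_Vf_scale (v : ℕ) (V : EV v → ℝ) (M : ℝ) (ξ : EV v) :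
    Vf (fun x => V x / M) ξ = (1 / (M : ℂ)) * Vf V ξ := by
  unfold Vf
  rw [Real.fourier_eq, Real.fourier_eq, ← integral_const_mul]
  refine integral_congr_ae (Filter.Eventually.of_forall fun x => ?_)
  simp only [Circle.smul_def, smul_eq_mul]
  push_cast
  ring

theorem gn89_corr_scale (v k : ℕ) (V : EV v → ℝ) (M : ℝ) (hM : M ≠ 0) (y : Fin k → EV v) :
    corr v k V y = M ^ (k + 1) * corr v k (fun x => V x / M) y := by
  unfold corr
  rw [← integral_const_mul]
  refine integral_congr_ae (Filter.Eventually.of_forall fun x => ?_)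
  simp only [Finset.prod_div_distrib, Finset.prod_const, Finset.card_univ, Fintype.card_fin]
  field_simp
  ring

theorem gn89_meas (v k : ℕ) (g : EV v → ℝ) (hg : Measurable g) : StronglyMeasurable (corr v k g) := by
  unfold corr
  have h : StronglyMeasurable (fun p : (Fin k → EV v) × EV v => g p.2 * ∏ i, g (p.2 + p.1 i)) := by
    apply Measurable.stronglyMeasurable
    apply (hg.comp measurable_snd).mul
    apply Finset.measurable_prod
    intro i _
    exact hg.comp (measurable_snd.add ((measurable_pi_apply i).comp measurable_fst))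
  exact h.integral_prod_right

theorem gn89_one (v k m : ℕ) (hm : 1 ≤ m) (R : ℝ) (V : EV v → ℝ) (P : PotG v R 1 V)
    (hP : Integrable (fun ξ : EV v => ‖ξ‖ ^ (2 * m) * ‖Vf V ξ‖ ^ 2))
    (W : (Fin k → EV v) → ℝ) (hW : Measurable W) (hW0 : ∀ y, 0 ≤ W y)
    (hWe : ∀ y, W (-y) = W y) (hWm : ∀ j : ℕ, Integrable (fun y => ‖y‖ ^ j * W y)) :
    ∃ (c : ℕ → ℝ) (C : ℝ), ∀ σ ∈ Set.Icc (0 : ℝ) 1,
      |(∫ y, corr v k V (σ • y) * W y) - ∑ i ∈ Finset.range m, c i * σ ^ (2 * i)| ≤
        C * σ ^ (2 * m) := by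
  obtain ⟨f, hfs, hfb, hfsupp, hfV, hfc⟩ := mollify v R 1 V P
  obtain ⟨C₁, hC₁, hEn⟩ := En_le v m
  obtain ⟨C₂, hC₂, hexp⟩ := corr_expand_smooth v k m hm
  have hfm : ∀ n, Measurable (f n) := fun n => (hfs n).smooth.continuous.measurable
  set E : ℝ := C₁ * ∫ ξ : EV v, ‖ξ‖ ^ (2 * m) * ‖Vf V ξ‖ ^ 2 with hE
  have hEle : ∀ n, En v m (f n) ≤ E := by
    intro n
    obtain ⟨hi, hle⟩ := hEn (f n) (hfs n)
    refine hle.trans (mul_le_mul_of_nonneg_left ?_ hC₁)
    refine integral_mono hi hP fun ξ => ?_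
    refine mul_le_mul_of_nonneg_left ?_ (by positivity)
    exact pow_le_pow_left₀ (norm_nonneg _) (hfV n ξ) 2
  choose c hc using fun n => hexp W hW hW0 hWe hWm (f n) (hfs n) (hfb n)
  have hR1 : 0 < R + 1 := by have := P.hR; linarith
  have hcorr := fun y => corr_tendsto v k (R + 1) 1 V f hR1 one_pos hfm hfb hfsupp hfc y
  set B0 : ℝ := (1 : ℝ) ^ (k + 1) * (volume (Metric.closedBall (0 : EV v) (R + 1))).toReal with hB0
  have hB0n : 0 ≤ B0 := by positivity
  have hWi : Integrable W := by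
    have := hWm 0
    simpa using this
  have hWI : 0 ≤ ∫ y, ‖y‖ ^ (2 * m) * W y := integral_nonneg fun y => mul_nonneg (by positivity) (hW0 y)
  obtain ⟨c', hc'⟩ := poly_compact m (fun σ => ∫ y, corr v k V (σ • y) * W y)
    (fun n σ => ∫ y, corr v k (f n) (σ • y) * W y) c (C₂ * E * ∫ y, ‖y‖ ^ (2 * m) * W y) (∫ y, B0 * W y)
    (fun n σ hσ => by
      refine (hc n σ hσ.1).trans ?_
      refine mul_le_mul_of_nonneg_right ?_ (pow_nonneg hσ.1 _)
      refine mul_le_mul_of_nonneg_right ?_ hWI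
      exact mul_le_mul_of_nonneg_left (hEle n) hC₂)
    (fun n σ _ => by
      rw [← Real.norm_eq_abs]
      refine norm_integral_le_of_norm_le (hWi.const_mul B0) (Filter.Eventually.of_forall fun y => ?_)
      rw [norm_mul, Real.norm_eq_abs, Real.norm_eq_abs, abs_of_nonneg (hW0 y)]
      exact mul_le_mul_of_nonneg_right ((hcorr (σ • y)).2 n) (hW0 y))
    (fun σ _ => by
      refine tendsto_integral_of_dominated_convergence (fun y => B0 * W y) (fun n => ?_) (hWi.const_mul B0)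
        (fun n => Filter.Eventually.of_forall fun y => ?_) (Filter.Eventually.of_forall fun y => ?_)
      · have h1 : Measurable (fun y : Fin k → EV v => σ • y) := measurable_const_smul σ
        exact (((gn89_meas v k (f n) (hfm n)).comp_measurable h1).mul hW.stronglyMeasurable).aestronglyMeasurable
      · rw [norm_mul, Real.norm_eq_abs, Real.norm_eq_abs, abs_of_nonneg (hW0 y)]
        exact mul_le_mul_of_nonneg_right ((hcorr (σ • y)).2 n) (hW0 y)
      · exact ((hcorr (σ • y)).1).mul_const _)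
  exact ⟨c', _, hc'⟩


theorem corr_expand (v k m : ℕ) (hm : 1 ≤ m) (R M : ℝ) (V : EV v → ℝ) (P : PotG v R M V)
    (hP : Integrable (fun ξ : EV v => ‖ξ‖ ^ (2 * m) * ‖Vf V ξ‖ ^ 2))
    (W : (Fin k → EV v) → ℝ) (hW : Measurable W) (hW0 : ∀ y, 0 ≤ W y)
    (hWe : ∀ y, W (-y) = W y) (hWm : ∀ j : ℕ, Integrable (fun y => ‖y‖ ^ j * W y)) :
    ∃ (c : ℕ → ℝ) (C : ℝ), ∀ σ ∈ Set.Icc (0 : ℝ) 1,
      |(∫ y, corr v k V (σ • y) * W y) - ∑ i ∈ Finset.range m, c i * σ ^ (2 * i)| ≤
        C * σ ^ (2 * m) := by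
  have hM : 0 < M := P.hM
  have P' : PotG v R 1 (fun x => V x / M) := by
    refine ⟨P.hR, one_pos, P.meas.div_const M, fun x => ?_, fun x hx => ?_⟩
    · rw [abs_div, abs_of_pos hM, div_le_one hM]
      exact P.bdd x
    · show V x / M = 0
      rw [P.supp x hx, zero_div]
  have hP' : Integrable (fun ξ : EV v => ‖ξ‖ ^ (2 * m) * ‖Vf (fun x => V x / M) ξ‖ ^ 2) := by
    have h1 : (fun ξ : EV v => ‖ξ‖ ^ (2 * m) * ‖Vf (fun x => V x / M) ξ‖ ^ 2) =
        fun ξ : EV v => ‖(1 / (M : ℂ))‖ ^ 2 * (‖ξ‖ ^ (2 * m) * ‖Vf V ξ‖ ^ 2) := by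
      funext ξ
      rw [gn89_Vf_scale, norm_mul]
      ring
    rw [h1]
    exact hP.const_mul _
  obtain ⟨c, C, hc⟩ := gn89_one v k m hm R _ P' hP' W hW hW0 hWe hWm
  refine ⟨fun i => M ^ (k + 1) * c i, M ^ (k + 1) * C, fun σ hσ => ?_⟩
  have h1 : (∫ y, corr v k V (σ • y) * W y) = M ^ (k + 1) * ∫ y, corr v k (fun x => V x / M) (σ • y) * W y := by
    rw [← integral_const_mul]
    refine integral_congr_ae (Filter.Eventually.of_forall fun y => ?_)
    simp only
    rw [gn89_corr_scale v k V M hM.ne']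
    ring
  have h2 : ∑ i ∈ Finset.range m, M ^ (k + 1) * c i * σ ^ (2 * i) = M ^ (k + 1) * ∑ i ∈ Finset.range m, c i * σ ^ (2 * i) := by
    rw [Finset.mul_sum]
    exact Finset.sum_congr rfl fun i _ => by ring
  rw [h1, h2, ← mul_sub, abs_mul, abs_of_pos (pow_pos hM _), mul_assoc]
  exact mul_le_mul_of_nonneg_left (hc σ hσ) (pow_nonneg hM.le _)

end Pool.Agent.H269

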