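import Pool.Agent.H269.DefsG2
import Pool.Agent.H269.GN.G077
import Pool.Agent.H269.GN.G078
import Pool.Agent.H269.GN.G088
import Pool.Agent.H269.GN.G089

/-!
# GN-90 expansion of the Born terms (MP_f2af60_mp, infinitely many resonances in odd dimension)
-/

set_option autoImplicit false

open MeasureTheory Filter Topology Complex
open scoped InnerProductSpace ENNReal NNReal FourierTransform

namespace Pool.Agent.H269



theorem bornD_expand (v k K m : ℕ) (hk : 1 ≤ k) (hK : 2 * v + 3 ≤ K) (R M : ℝ)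
    (V : EV v → ℝ) (P : PotG v R M V)
    (hP : Integrable (fun ξ : EV v => ‖ξ‖ ^ (2 * m) * ‖Vf V ξ‖ ^ 2)) :
    ∃ (c : ℕ → ℝ) (C : ℝ), ∀ s : ℝ, 1 ≤ s →
      |bornD v k K V s - ∑ i ∈ Finset.range m, c i * s ^ ((v : ℝ) + 1 / 2 - k - K - i)| ≤
        C * s ^ ((v : ℝ) + 1 / 2 - k - K - m) := by
  obtain ⟨w1, w2, w3, w4⟩ := wk1_props v k K hk hK
  have hk0 : (0 : ℝ) ≤ 1 / ((k : ℝ) + 1) := by positivity
  rcases Nat.eq_zero_or_pos m with hm | hm
  · subst hm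
    have hb : ∀ y : Fin k → EV v, |corr v k V y| ≤
        M ^ (k + 1) * (volume (Metric.closedBall (0 : EV v) R)).toReal := fun y =>
      (corr_tendsto v k R M V (fun _ => V) P.hR P.hM (fun _ => P.meas) (fun _ x => P.bdd x)
        (fun _ x hx => P.supp x hx) (Filter.Eventually.of_forall fun x => tendsto_const_nhds)
        y).2 0
    set B : ℝ := M ^ (k + 1) * (volume (Metric.closedBall (0 : EV v) R)).toReal with hB
    have hw0 : Integrable (fun y : Fin k → EV v => wk1 v k K y) := by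
      have := w4 0
      simpa using this
    refine ⟨fun _ => 0, (1 / ((k : ℝ) + 1)) * (B * ∫ y, wk1 v k K y), fun s hs => ?_⟩
    have hs0 : 0 < s := by linarith
    rw [Finset.range_zero, Finset.sum_empty, sub_zero, bornD_scale v k K hk hK R M V P s hs0]
    have hi : |∫ y : Fin k → EV v, corr v k V ((√s)⁻¹ • y) * wk1 v k K y| ≤
        B * ∫ y, wk1 v k K y := by
      rw [← integral_const_mul, ← Real.norm_eq_abs]
      refine norm_integral_le_of_norm_le (hw0.const_mul B) (Filter.Eventually.of_forall ?_)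
      intro y
      rw [Real.norm_eq_abs, abs_mul, abs_of_nonneg (w2 y)]
      exact mul_le_mul_of_nonneg_right (hb _) (w2 y)
    have hp : (0 : ℝ) ≤ s ^ ((v : ℝ) + 1 / 2 - k - K) := Real.rpow_nonneg hs0.le _
    rw [abs_mul, abs_mul, abs_of_nonneg hk0, abs_of_nonneg hp, Nat.cast_zero, sub_zero]
    calc (1 / ((k : ℝ) + 1)) * s ^ ((v : ℝ) + 1 / 2 - k - K) *
          |∫ y : Fin k → EV v, corr v k V ((√s)⁻¹ • y) * wk1 v k K y|
        ≤ (1 / ((k : ℝ) + 1)) * s ^ ((v : ℝ) + 1 / 2 - k - K) * (B * ∫ y, wk1 v k K y) :=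
          mul_le_mul_of_nonneg_left hi (mul_nonneg hk0 hp)
      _ = (1 / ((k : ℝ) + 1)) * (B * ∫ y, wk1 v k K y) * s ^ ((v : ℝ) + 1 / 2 - k - K) := by
          ring
  · obtain ⟨c0, C0, h0⟩ := corr_expand v k m hm R M V P hP (wk1 v k K) w1 w2 w3 w4
    refine ⟨fun i => (1 / ((k : ℝ) + 1)) * c0 i, (1 / ((k : ℝ) + 1)) * C0, fun s hs => ?_⟩
    have hs0 : 0 < s := by linarith
    have hsq : 1 ≤ √s := by
      rw [Real.one_le_sqrt]; exact hs
    have hσ : (√s)⁻¹ ∈ Set.Icc (0 : ℝ) 1 :=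
      ⟨inv_nonneg.2 (Real.sqrt_nonneg _), inv_le_one_of_one_le₀ hsq⟩
    have hpow : ∀ i : ℕ, ((√s)⁻¹) ^ (2 * i) = s ^ (-(i : ℝ)) := by
      intro i
      rw [pow_mul, inv_pow, Real.sq_sqrt hs0.le, Real.rpow_neg hs0.le, Real.rpow_natCast, inv_pow]
    have hexp : ∀ i : ℕ, s ^ ((v : ℝ) + 1 / 2 - k - K - i) =
        s ^ ((v : ℝ) + 1 / 2 - k - K) * ((√s)⁻¹) ^ (2 * i) := by
      intro i
      rw [hpow i, ← Real.rpow_add hs0, sub_eq_add_neg _ (i : ℝ)]
    have h1 := h0 _ hσ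
    have hp : (0 : ℝ) ≤ s ^ ((v : ℝ) + 1 / 2 - k - K) := Real.rpow_nonneg hs0.le _
    rw [bornD_scale v k K hk hK R M V P s hs0]
    have hsum : ∑ i ∈ Finset.range m, (1 / ((k : ℝ) + 1)) * c0 i *
        s ^ ((v : ℝ) + 1 / 2 - k - K - i) = (1 / ((k : ℝ) + 1)) * s ^ ((v : ℝ) + 1 / 2 - k - K) *
        ∑ i ∈ Finset.range m, c0 i * ((√s)⁻¹) ^ (2 * i) := by
      rw [Finset.mul_sum]
      refine Finset.sum_congr rfl fun i _ => ?_
      rw [hexp i]
      ring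
    simp only []
    rw [hsum, ← mul_sub, abs_mul, abs_of_nonneg (mul_nonneg hk0 hp), hexp m]
    calc (1 / ((k : ℝ) + 1)) * s ^ ((v : ℝ) + 1 / 2 - k - K) *
          |(∫ y : Fin k → EV v, corr v k V ((√s)⁻¹ • y) * wk1 v k K y) -
            ∑ i ∈ Finset.range m, c0 i * ((√s)⁻¹) ^ (2 * i)|
        ≤ (1 / ((k : ℝ) + 1)) * s ^ ((v : ℝ) + 1 / 2 - k - K) * (C0 * ((√s)⁻¹) ^ (2 * m)) :=
          mul_le_mul_of_nonneg_left h1 (mul_nonneg hk0 hp)
      _ = (1 / ((k : ℝ) + 1)) * C0 * (s ^ ((v : ℝ) + 1 / 2 - k - K) * ((√s)⁻¹) ^ (2 * m)) := by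
          ring

end Pool.Agent.H269
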