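import Pool.Agent.H269.DefsG2

/-!
# GN-100 the map w -> i sqrt w on discs; Cauchy estimate (MP_f2af60_mp, infinitely many resonances in odd dimension)
-/

set_option autoImplicit false

open MeasureTheory Filter Topology Complex
open scoped InnerProductSpace ENNReal NNReal FourierTransform

namespace Pool.Agent.H269



theorem sqrt_geom (s : ℝ) (hs : 0 < s) (w : ℂ) (hw : ‖w - s‖ ≤ s / 8) :
    0 < w.re ∧ ‖I * w ^ (1 / 2 : ℂ) - I * ((√s : ℝ) : ℂ)‖ ≤ √s / 4 ∧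
    ((s : ℂ)) ^ (1 / 2 : ℂ) = ((√s : ℝ) : ℂ) ∧
    HasDerivAt (fun w : ℂ => I * w ^ (1 / 2 : ℂ)) (I * (1 / 2) * w ^ (-(1 / 2) : ℂ)) w ∧
    (w ^ (1 / 2 : ℂ)) ^ 2 = w ∧ w ^ (-(1 / 2) : ℂ) * w ^ (1 / 2 : ℂ) = 1 := by
  have hre : 0 < w.re := by
    have h1 := (Complex.abs_re_le_norm (w - s)).trans hw
    rw [Complex.sub_re, Complex.ofReal_re] at h1
    have h2 := (abs_le.1 h1).1
    linarith
  have hw0 : w ≠ 0 := by
    intro h
    rw [h] at hre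
    simp at hre
  have hsq : (w ^ (1 / 2 : ℂ)) ^ 2 = w := by
    have h := Complex.cpow_nat_inv_pow w (n := 2) (by norm_num)
    have e : (((2 : ℕ) : ℂ))⁻¹ = (1 / 2 : ℂ) := by norm_num
    rwa [e] at h
  have hroot : ((s : ℂ)) ^ (1 / 2 : ℂ) = ((√s : ℝ) : ℂ) := by
    rw [Real.sqrt_eq_rpow, Complex.ofReal_cpow hs.le]
    norm_num
  have hzre : 0 < (w ^ (1 / 2 : ℂ)).re := by
    rw [Complex.cpow_def_of_ne_zero hw0, Complex.exp_re]
    apply mul_pos (Real.exp_pos _)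
    have him : (Complex.log w * (1 / 2)).im = Complex.arg w / 2 := by
      have : (Complex.log w * (1 / 2)) = Complex.log w * (((1 / 2 : ℝ)) : ℂ) := by push_cast; ring
      rw [this, Complex.im_mul_ofReal, Complex.log_im]
      ring
    rw [him]
    have harg : |Complex.arg w| < Real.pi / 2 := Complex.abs_arg_lt_pi_div_two_iff.2 (Or.inl hre)
    have harg' := abs_lt.1 harg
    have hpi := Real.pi_pos
    apply Real.cos_pos_of_mem_Ioo
    constructor <;> linarith [harg'.1, harg'.2]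
  have hss : 0 < √s := Real.sqrt_pos.2 hs
  have hs2 : √s * √s = s := Real.mul_self_sqrt hs.le
  refine ⟨hre, ?_, hroot, ?_, hsq, ?_⟩
  · rw [← mul_sub, norm_mul, Complex.norm_I, one_mul]
    have hprod : ‖w ^ (1 / 2 : ℂ) - ((√s : ℝ) : ℂ)‖ * ‖w ^ (1 / 2 : ℂ) + ((√s : ℝ) : ℂ)‖ =
        ‖w - s‖ := by
      rw [← norm_mul]
      congr 1
      have h3 : (((√s : ℝ) : ℂ)) * ((√s : ℝ) : ℂ) = (s : ℂ) := by
        rw [← Complex.ofReal_mul, hs2]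
      calc (w ^ (1 / 2 : ℂ) - ((√s : ℝ) : ℂ)) * (w ^ (1 / 2 : ℂ) + ((√s : ℝ) : ℂ)) =
          (w ^ (1 / 2 : ℂ)) ^ 2 - ((√s : ℝ) : ℂ) * ((√s : ℝ) : ℂ) := by ring
        _ = w - s := by rw [hsq, h3]
    have hge : √s ≤ ‖w ^ (1 / 2 : ℂ) + ((√s : ℝ) : ℂ)‖ := by
      refine le_trans ?_ (Complex.re_le_norm _)
      rw [Complex.add_re, Complex.ofReal_re]
      linarith
    have h4 : ‖w ^ (1 / 2 : ℂ) - ((√s : ℝ) : ℂ)‖ * √s ≤ s / 8 := by
      calc ‖w ^ (1 / 2 : ℂ) - ((√s : ℝ) : ℂ)‖ * √s ≤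
          ‖w ^ (1 / 2 : ℂ) - ((√s : ℝ) : ℂ)‖ * ‖w ^ (1 / 2 : ℂ) + ((√s : ℝ) : ℂ)‖ :=
            mul_le_mul_of_nonneg_left hge (norm_nonneg _)
        _ = ‖w - s‖ := hprod
        _ ≤ s / 8 := hw
    have h5 : ‖w ^ (1 / 2 : ℂ) - ((√s : ℝ) : ℂ)‖ * √s ≤ (√s / 4) * √s := by
      calc ‖w ^ (1 / 2 : ℂ) - ((√s : ℝ) : ℂ)‖ * √s ≤ s / 8 := h4
        _ ≤ s / 4 := by linarith
        _ = (√s / 4) * √s := by rw [div_mul_eq_mul_div, hs2]
    exact le_of_mul_le_mul_right h5 hss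
  · have h6 := ((hasDerivAt_id w).cpow_const (c := (1 / 2 : ℂ)) (Or.inl hre)).const_mul I
    refine h6.congr_deriv ?_
    have e : (1 / 2 : ℂ) - 1 = -(1 / 2) := by norm_num
    rw [id, e, mul_one, mul_assoc]
  · rw [← Complex.cpow_add _ _ hw0]
    have e : (-(1 / 2) : ℂ) + 1 / 2 = 0 := by norm_num
    rw [e, Complex.cpow_zero]

theorem cauchy_disc (f : ℂ → ℂ) (s B : ℝ) (hs : 0 < s) (K : ℕ)
    (hf : ∀ w : ℂ, ‖w - s‖ ≤ s / 8 → DifferentiableAt ℂ f w)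
    (hb : ∀ w : ℂ, ‖w - s‖ ≤ s / 8 → ‖f w‖ ≤ B) :
    ‖iteratedDeriv K f (s : ℂ)‖ ≤ (K.factorial : ℝ) * B * (8 / s) ^ K := by
  have hR : 0 < s / 8 := by linarith
  have hd : DiffContOnCl ℂ f (Metric.ball (s : ℂ) (s / 8)) := by
    apply DifferentiableOn.diffContOnCl
    rw [closure_ball _ hR.ne']
    intro w hw
    rw [mem_closedBall_iff_norm] at hw
    exact (hf w hw).differentiableWithinAt
  have h := Complex.norm_iteratedDeriv_le_of_forall_mem_sphere_norm_le K hR hd (C := B)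
    (fun z hz => hb z (mem_sphere_iff_norm.1 hz).le)
  refine h.trans (le_of_eq ?_)
  rw [div_eq_mul_inv, ← inv_pow, inv_div]

end Pool.Agent.H269
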