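import Pool.Agent.H269.DefsG2
import Pool.Agent.H269.GN.G100

/-!
# GN-101 derivatives of half integer powers (MP_f2af60_mp, infinitely many resonances in odd dimension)
-/

set_option autoImplicit false

open MeasureTheory Filter Topology Complex
open scoped InnerProductSpace ENNReal NNReal FourierTransform

namespace Pool.Agent.H269


theorem axL (n : ℕ) (k c : ℕ → ℂ) (K : ℕ) : ∀ w ∈ slitPlane,
    iteratedDeriv K (fun w : ℂ => ∑ a ∈ Finset.range n, k a * w ^ (c a)) w =
      ∑ a ∈ Finset.range n, k a * (∏ j ∈ Finset.range K, (c a - j)) * w ^ (c a - K) := by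
  induction K with
  | zero => intro w hw; simp
  | succ K ih =>
    intro w hw
    rw [iteratedDeriv_succ]
    have h1 : iteratedDeriv K (fun w : ℂ => ∑ a ∈ Finset.range n, k a * w ^ (c a)) =ᶠ[𝓝 w]
        fun w => ∑ a ∈ Finset.range n,
          k a * (∏ j ∈ Finset.range K, (c a - j)) * w ^ (c a - K) :=
      Filter.eventuallyEq_of_mem (isOpen_slitPlane.mem_nhds hw) ih
    rw [h1.deriv_eq]
    apply HasDerivAt.deriv
    apply HasDerivAt.fun_sum
    intro a _
    have h2 : HasDerivAt (fun w : ℂ => w ^ (c a - K)) ((c a - K) * w ^ (c a - K - 1) * 1) w :=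
      (hasDerivAt_id w).cpow_const hw
    have h3 := h2.const_mul (k a * (∏ j ∈ Finset.range K, (c a - j)))
    refine h3.congr_deriv ?_
    rw [Finset.prod_range_succ]
    have h4 : c a - ((K + 1 : ℕ) : ℂ) = c a - K - 1 := by push_cast; ring
    rw [h4]
    ring

theorem axPow (w : ℂ) (a : ℕ) : (w ^ (1 / 2 : ℂ)) ^ a = w ^ ((a : ℂ) * (1 / 2)) :=
  (Complex.cpow_nat_mul w a (1 / 2)).symm

theorem axS (a K : ℕ) (s : ℝ) (hs : 0 < s) :
    (s : ℂ) ^ ((a : ℂ) * (1 / 2) - K) = ((s ^ ((a : ℝ) / 2 - K) : ℝ) : ℂ) := by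
  rw [Complex.ofReal_cpow hs.le]
  congr 1
  push_cast
  ring

theorem axSplit (T : ℕ → ℂ) (m : ℕ) : ∑ a ∈ Finset.range (2 * m), T a =
    ∑ i ∈ Finset.range m, T (2 * i) + ∑ i ∈ Finset.range m, T (2 * i + 1) := by
  induction m with
  | zero => simp
  | succ m ih =>
    rw [show 2 * (m + 1) = 2 * m + 1 + 1 by ring, Finset.sum_range_succ, Finset.sum_range_succ, ih,
      Finset.sum_range_succ, Finset.sum_range_succ]
    ring


theorem half_pow_deriv (K a : ℕ) (s : ℝ) (hs : 0 < s) :
    iteratedDeriv K (fun w : ℂ => (w ^ (1 / 2 : ℂ)) ^ a) (s : ℂ) =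
      (∏ j ∈ Finset.range K, ((a : ℂ) / 2 - j)) * ((s ^ ((a : ℝ) / 2 - K) : ℝ) : ℂ) := by
  have hs' : (s : ℂ) ∈ slitPlane := Complex.ofReal_mem_slitPlane.mpr hs
  have h := axL 1 (fun _ => 1) (fun _ => (a : ℂ) * (1 / 2)) K s hs'
  simp only [Finset.sum_range_one, one_mul] at h
  have h1 : (fun w : ℂ => (w ^ (1 / 2 : ℂ)) ^ a) = fun w : ℂ => w ^ ((a : ℂ) * (1 / 2)) := by
    funext w; exact axPow w a
  rw [h1, h, axS a K s hs]
  congr 1
  apply Finset.prod_congr rfl
  intro j _
  ring

theorem poly_half_deriv (K : ℕ) (G : Polynomial ℂ) : ∃ (d : ℕ) (c e : ℕ → ℂ),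
    (∀ i, G.coeff (2 * i + 1) = 0 → c i = 0) ∧ ∀ s : ℝ, 0 < s →
      iteratedDeriv K (fun w : ℂ => G.eval (I * w ^ (1 / 2 : ℂ))) (s : ℂ) =
        ∑ i ∈ Finset.range d, c i * ((s ^ ((i : ℝ) + 1 / 2 - K) : ℝ) : ℂ) +
          ∑ i ∈ Finset.range d, e i * ((s ^ i : ℝ) : ℂ) := by
  set n := G.natDegree + 1 with hn
  let P : ℕ → ℂ := fun a => G.coeff a * I ^ a * ∏ j ∈ Finset.range K, ((a : ℂ) * (1 / 2) - j)
  refine ⟨n, fun i => P (2 * i + 1), fun i => P (2 * (K + i)), ?_, ?_⟩
  · intro i hi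
    simp only [P, hi, zero_mul]
  · intro s hs
    have hs' : (s : ℂ) ∈ slitPlane := Complex.ofReal_mem_slitPlane.mpr hs
    have h := axL n (fun a => G.coeff a * I ^ a) (fun a => (a : ℂ) * (1 / 2)) K s hs'
    have h1 : (fun w : ℂ => G.eval (I * w ^ (1 / 2 : ℂ))) =
        fun w : ℂ => ∑ a ∈ Finset.range n, G.coeff a * I ^ a * w ^ ((a : ℂ) * (1 / 2)) := by
      funext w
      rw [Polynomial.eval_eq_sum_range]
      apply Finset.sum_congr rfl
      intro a _
      rw [mul_pow, axPow]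
      ring
    rw [h1, h]
    set T : ℕ → ℂ := fun a => P a * ((s ^ ((a : ℝ) / 2 - K) : ℝ) : ℂ) with hT
    have h2 : (∑ a ∈ Finset.range n, G.coeff a * I ^ a *
        (∏ j ∈ Finset.range K, ((a : ℂ) * (1 / 2) - j)) * (s : ℂ) ^ ((a : ℂ) * (1 / 2) - K)) =
        ∑ a ∈ Finset.range n, T a := by
      apply Finset.sum_congr rfl
      intro a _
      rw [axS a K s hs]
    have hz : ∀ a, n ≤ a → T a = 0 := by
      intro a ha
      have : G.coeff a = 0 := Polynomial.coeff_eq_zero_of_natDegree_lt (by omega)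
      simp only [hT, P, this, zero_mul]
    have hz2 : ∀ b, b < K → T (2 * b) = 0 := by
      intro b hb
      have : ∏ j ∈ Finset.range K, (((2 * b : ℕ) : ℂ) * (1 / 2) - j) = 0 := by
        apply Finset.prod_eq_zero (Finset.mem_range.mpr hb)
        push_cast; ring
      simp only [hT, P, this, mul_zero, zero_mul]
    have h3 : ∑ a ∈ Finset.range n, T a = ∑ a ∈ Finset.range (2 * (K + n)), T a := by
      apply Finset.sum_subset
      · intro a ha
        rw [Finset.mem_range] at ha ⊢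
        omega
      · intro a _ ha
        rw [Finset.mem_range, not_lt] at ha
        exact hz a ha
    have h4 : ∑ i ∈ Finset.range (K + n), T (2 * i) = ∑ i ∈ Finset.range n, T (2 * (K + i)) := by
      rw [Finset.sum_range_add, Finset.sum_eq_zero (fun b hb => hz2 b (Finset.mem_range.mp hb)),
        zero_add]
    have h5 : ∑ i ∈ Finset.range (K + n), T (2 * i + 1) = ∑ i ∈ Finset.range n, T (2 * i + 1) := by
      symm
      apply Finset.sum_subset
      · intro a ha
        rw [Finset.mem_range] at ha ⊢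
        omega
      · intro a _ ha
        rw [Finset.mem_range, not_lt] at ha
        exact hz _ (by omega)
    rw [h2, h3, axSplit, h4, h5, add_comm]
    congr 1
    · apply Finset.sum_congr rfl
      intro i _
      simp only [hT]
      congr 3
      push_cast; ring
    · apply Finset.sum_congr rfl
      intro i _
      simp only [hT]
      congr 2
      rw [← Real.rpow_natCast]
      congr 1
      push_cast; ring

end Pool.Agent.H269
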