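import Pool.Agent.H269.DefsG2
import Pool.Agent.H269.GN.G100

/-!
# GN-102 derivatives of the pole terms (MP_f2af60_mp, infinitely many resonances in odd dimension)
-/

set_option autoImplicit false

open MeasureTheory Filter Topology Complex
open scoped InnerProductSpace ENNReal NNReal FourierTransform

namespace Pool.Agent.H269


theorem pole_half_deriv_geom (u : ℂ) (s : ℝ) (hs1 : 1 ≤ s) (hs : 8 * (‖u‖ + 1) ≤ √s) (w : ℂ)
    (hw : ‖w - s‖ ≤ s / 8) :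
    w ≠ 0 ∧ I * w ^ (1 / 2 : ℂ) - u ≠ 0 ∧ DifferentiableAt ℂ (fun w : ℂ => I * w ^ (1 / 2 : ℂ)) w ∧
    I * (1 / 2) * w ^ (-(1 / 2) : ℂ) * (1 / (I * w ^ (1 / 2 : ℂ) - u)) =
      (1 / 2) * w⁻¹ + u / (2 * w * (I * w ^ (1 / 2 : ℂ) - u)) ∧
    ‖u / (2 * w * (I * w ^ (1 / 2 : ℂ) - u))‖ ≤ ‖u‖ * s ^ (-(3 / 2) : ℝ) := by
  have hs0 : 0 < s := by linarith
  obtain ⟨hre, hsq, -, hder, hzz, hzi⟩ := sqrt_geom s hs0 w hw
  set z := w ^ (1 / 2 : ℂ) with hz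
  have hrs : 0 < √s := Real.sqrt_pos.2 hs0
  have hIs : ‖I * ((√s : ℝ) : ℂ)‖ = √s := by
    rw [norm_mul, Complex.norm_I, one_mul, Complex.norm_real, Real.norm_eq_abs, abs_of_pos hrs]
  have hIz : 3 / 4 * √s ≤ ‖I * z‖ := by
    have h1 : ‖I * ((√s : ℝ) : ℂ)‖ ≤ ‖I * z‖ + ‖I * z - I * ((√s : ℝ) : ℂ)‖ := by
      have h2 : I * ((√s : ℝ) : ℂ) = I * z - (I * z - I * ((√s : ℝ) : ℂ)) := by ring
      calc ‖I * ((√s : ℝ) : ℂ)‖ = ‖I * z - (I * z - I * ((√s : ℝ) : ℂ))‖ := by rw [← h2]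
        _ ≤ _ := norm_sub_le _ _
    rw [hIs] at h1
    linarith
  have hu0 := norm_nonneg u
  have hd : 5 / 8 * √s ≤ ‖I * z - u‖ := by
    have h1 : ‖I * z‖ - ‖u‖ ≤ ‖I * z - u‖ := norm_sub_norm_le _ _
    linarith
  have hd0 : I * z - u ≠ 0 := by
    intro h
    rw [h, norm_zero] at hd
    linarith
  have hwn : 7 / 8 * s ≤ ‖w‖ := by
    have h1 : ‖((s : ℝ) : ℂ)‖ ≤ ‖w‖ + ‖w - s‖ := by
      have h2 : ((s : ℝ) : ℂ) = w - (w - s) := by ring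
      calc ‖((s : ℝ) : ℂ)‖ = ‖w - (w - s)‖ := by rw [← h2]
        _ ≤ _ := norm_sub_le _ _
    rw [Complex.norm_real, Real.norm_eq_abs, abs_of_pos hs0] at h1
    linarith
  have hw0 : w ≠ 0 := by
    intro h
    rw [h, norm_zero] at hwn
    linarith
  have hz0 : z ≠ 0 := by
    intro h
    rw [h, mul_zero] at hzi
    exact zero_ne_one hzi
  refine ⟨hw0, hd0, hder.differentiableAt, ?_, ?_⟩
  · have h1 : w ^ (-(1 / 2) : ℂ) = z⁻¹ := eq_inv_of_mul_eq_one_left hzi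
    rw [h1, ← hzz]
    field_simp
    ring
  · rw [norm_div, norm_mul, norm_mul, Complex.norm_ofNat]
    have hs32 : s ^ (-(3 / 2) : ℝ) = (s * √s)⁻¹ := by
      rw [Real.rpow_neg hs0.le, Real.sqrt_eq_rpow]
      congr 1
      calc s ^ (3 / 2 : ℝ) = s ^ (1 + 1 / 2 : ℝ) := by norm_num
        _ = s ^ (1 : ℝ) * s ^ (1 / 2 : ℝ) := Real.rpow_add hs0 _ _
        _ = s * s ^ (1 / 2 : ℝ) := by rw [Real.rpow_one]
    rw [hs32, div_eq_mul_inv]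
    apply mul_le_mul_of_nonneg_left _ hu0
    apply inv_anti₀ (by positivity)
    have h1 : 7 / 8 * s * (5 / 8 * √s) ≤ ‖w‖ * ‖I * z - u‖ :=
      mul_le_mul hwn hd (by positivity) (norm_nonneg _)
    have h2 : 0 < s * √s := by positivity
    nlinarith

theorem pole_half_deriv_inv (k : ℕ) (s : ℝ) (hs : 0 < s) :
    iteratedDeriv k (fun w : ℂ => (1 / 2) * w⁻¹) (s : ℂ) =
      (1 / 2) * (-1) ^ k * (k.factorial : ℂ) * ((s ^ (-((k + 1 : ℕ) : ℝ)) : ℝ) : ℂ) := by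
  have h1 : iteratedDeriv k (fun w : ℂ => (1 / 2) * w⁻¹) (s : ℂ) =
      (1 / 2) * iteratedDeriv k (fun w : ℂ => w⁻¹) (s : ℂ) := by
    rw [iteratedDeriv_const_mul_field]
  rw [h1]
  have h2 : iteratedDeriv k (fun w : ℂ => w⁻¹) (s : ℂ) =
      (-1) ^ k * (k.factorial : ℂ) * (s : ℂ) ^ (-1 - k : ℤ) := by
    rw [iteratedDeriv_eq_iterate]
    exact iter_deriv_inv k (s : ℂ)
  rw [h2]
  have h3 : ((s ^ (-((k + 1 : ℕ) : ℝ)) : ℝ) : ℂ) = (s : ℂ) ^ (-1 - k : ℤ) := by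
    rw [Real.rpow_neg hs.le, Real.rpow_natCast]
    rw [show (-1 - k : ℤ) = -((k + 1 : ℕ) : ℤ) by push_cast; ring, zpow_neg, zpow_natCast]
    push_cast
    rfl
  rw [h3]
  ring

theorem pole_half_deriv_main (k : ℕ) (u : ℂ) (s : ℝ) (hs1 : 1 ≤ s) (hs : 8 * (‖u‖ + 1) ≤ √s) :
    ‖iteratedDeriv k (fun w : ℂ => I * (1 / 2) * w ^ (-(1 / 2) : ℂ) *
        (1 / (I * w ^ (1 / 2 : ℂ) - u))) (s : ℂ) -
        (1 / 2) * (-1) ^ k * (k.factorial : ℂ) * ((s ^ (-((k + 1 : ℕ) : ℝ)) : ℝ) : ℂ)‖ ≤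
      ((k.factorial : ℝ) * ‖u‖ * 8 ^ k) * s ^ (-((k + 1 : ℕ) : ℝ) - 1 / 2) := by
  have hs0 : 0 < s := by linarith
  let R : ℂ → ℂ := fun w => u / (2 * w * (I * w ^ (1 / 2 : ℂ) - u))
  have hev : (fun w : ℂ => I * (1 / 2) * w ^ (-(1 / 2) : ℂ) * (1 / (I * w ^ (1 / 2 : ℂ) - u))) =ᶠ[𝓝 (s : ℂ)]
      ((fun w : ℂ => (1 / 2) * w⁻¹) + R) := by
    have hball : Metric.ball (s : ℂ) (s / 8) ∈ 𝓝 (s : ℂ) := Metric.ball_mem_nhds _ (by positivity)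
    filter_upwards [hball] with w hw
    rw [Metric.mem_ball, dist_eq_norm] at hw
    exact (pole_half_deriv_geom u s hs1 hs w hw.le).2.2.2.1
  have hRd : ∀ w : ℂ, ‖w - s‖ ≤ s / 8 → DifferentiableAt ℂ R w := by
    intro w hw
    obtain ⟨h1, h2, h3, -, -⟩ := pole_half_deriv_geom u s hs1 hs w hw
    refine DifferentiableAt.div (differentiableAt_const _) ?_ ?_
    · exact ((differentiableAt_const _).mul differentiableAt_id).mul (h3.sub (differentiableAt_const _))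
    · exact mul_ne_zero (mul_ne_zero two_ne_zero h1) h2
  have hRb : ∀ w : ℂ, ‖w - s‖ ≤ s / 8 → ‖R w‖ ≤ ‖u‖ * s ^ (-(3 / 2) : ℝ) := by
    intro w hw
    exact (pole_half_deriv_geom u s hs1 hs w hw).2.2.2.2
  have hRa : ContDiffAt ℂ k R (s : ℂ) := by
    have h1 : DifferentiableOn ℂ R (Metric.ball (s : ℂ) (s / 8)) := by
      intro w hw
      rw [Metric.mem_ball, dist_eq_norm] at hw
      exact (hRd w hw.le).differentiableWithinAt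
    exact (h1.analyticAt (Metric.ball_mem_nhds _ (by positivity))).contDiffAt
  have hIa : ContDiffAt ℂ k (fun w : ℂ => (1 / 2) * w⁻¹) (s : ℂ) :=
    contDiffAt_const.mul (contDiffAt_inv ℂ (by exact_mod_cast hs0.ne'))
  rw [hev.iteratedDeriv_eq k, iteratedDeriv_add hIa hRa, pole_half_deriv_inv k s hs0, add_sub_cancel_left]
  refine (cauchy_disc R s (‖u‖ * s ^ (-(3 / 2) : ℝ)) hs0 k hRd hRb).trans (le_of_eq ?_)
  have h5 : s ^ (-((k + 1 : ℕ) : ℝ) - 1 / 2) = s ^ (-(3 / 2) : ℝ) * (s ^ k)⁻¹ := by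
    rw [← Real.rpow_natCast, ← Real.rpow_neg hs0.le, ← Real.rpow_add hs0]
    congr 1
    push_cast
    ring
  rw [h5, div_pow, div_eq_mul_inv]
  ring


theorem pole_half_deriv (K : ℕ) (hK : 1 ≤ K) (u : ℂ) : ∃ C s₀ : ℝ, 1 ≤ s₀ ∧
    ∀ s : ℝ, s₀ ≤ s →
      (∀ w : ℂ, ‖w - s‖ ≤ s / 8 → I * w ^ (1 / 2 : ℂ) ≠ u) ∧
      ‖iteratedDeriv (K - 1) (fun w : ℂ => I * (1 / 2) * w ^ (-(1 / 2) : ℂ) *
        (1 / (I * w ^ (1 / 2 : ℂ) - u))) (s : ℂ) -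
        (1 / 2) * (-1) ^ (K - 1) * ((K - 1).factorial : ℂ) * ((s ^ (-(K : ℝ)) : ℝ) : ℂ)‖ ≤
        C * s ^ (-(K : ℝ) - 1 / 2) := by
  obtain ⟨k, rfl⟩ : ∃ k, K = k + 1 := ⟨K - 1, by omega⟩
  refine ⟨(k.factorial : ℝ) * ‖u‖ * 8 ^ k, max 1 (64 * (‖u‖ + 1) ^ 2), le_max_left _ _, ?_⟩
  intro s hs
  have hs1 : 1 ≤ s := (le_max_left _ _).trans hs
  have hsu : 8 * (‖u‖ + 1) ≤ √s := by
    apply Real.le_sqrt_of_sq_le
    calc (8 * (‖u‖ + 1)) ^ 2 = 64 * (‖u‖ + 1) ^ 2 := by ring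
      _ ≤ s := (le_max_right _ _).trans hs
  refine ⟨?_, ?_⟩
  · intro w hw h
    exact (pole_half_deriv_geom u s hs1 hsu w hw).2.1 (sub_eq_zero.2 h)
  · exact pole_half_deriv_main k u s hs1 hsu

end Pool.Agent.H269
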