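import Pool.Agent.H269.DefsG2
import Pool.Agent.H269.GN.G100

/-!
# GN-103 logarithm of a function close to one (MP_f2af60_mp, infinitely many resonances in odd dimension)
-/

set_option autoImplicit false

open MeasureTheory Filter Topology Complex
open scoped InnerProductSpace ENNReal NNReal FourierTransform

namespace Pool.Agent.H269



theorem log_near (Det : ℂ → ℂ) (hD : Differentiable ℂ Det) (C κ₀ : ℝ) (q : ℕ) (hq : 1 ≤ q)
    (hκ : 0 < κ₀) (hn : ∀ κ : ℝ, κ₀ ≤ κ → ∀ l : ℂ, ‖l - I * κ‖ ≤ κ / 4 →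
      ‖Det l - 1‖ ≤ C / κ ^ q) (K : ℕ) : ∃ C' s₀ : ℝ, 1 ≤ s₀ ∧ ∀ s : ℝ, s₀ ≤ s →
      (∀ w : ℂ, ‖w - s‖ ≤ s / 8 → ‖Det (I * w ^ (1 / 2 : ℂ)) - 1‖ ≤ 1 / 2) ∧
      ‖iteratedDeriv K (fun w : ℂ => Complex.log (Det (I * w ^ (1 / 2 : ℂ)))) (s : ℂ)‖ ≤
        C' * s ^ (-(K : ℝ) - 1 / 2) := by
  refine ⟨(K.factorial : ℝ) * (2 * |C|) * 8 ^ K, max 1 (max (κ₀ ^ 2) ((2 * |C| + 2) ^ 2)),
    le_max_left _ _, ?_⟩
  intro s hs
  have hs1 : (1 : ℝ) ≤ s := le_trans (le_max_left _ _) hs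
  have hs2 : κ₀ ^ 2 ≤ s := le_trans (le_trans (le_max_left _ _) (le_max_right _ _)) hs
  have hs3 : (2 * |C| + 2) ^ 2 ≤ s := le_trans (le_trans (le_max_right _ _) (le_max_right _ _)) hs
  have hs0 : 0 < s := by linarith
  have hk1 : (1 : ℝ) ≤ √s := Real.one_le_sqrt.mpr hs1
  have hk2 : κ₀ ≤ √s := Real.le_sqrt_of_sq_le hs2
  have hk3 : 2 * |C| + 2 ≤ √s := Real.le_sqrt_of_sq_le hs3
  have hk0 : 0 < √s := by linarith
  have hbd : ∀ w : ℂ, ‖w - s‖ ≤ s / 8 →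
      ‖Det (I * w ^ (1 / 2 : ℂ)) - 1‖ ≤ |C| / √s := by
    intro w hw
    have h1 := (sqrt_geom s hs0 w hw).2.1
    have h2 := hn (√s) hk2 _ h1
    refine h2.trans ?_
    calc C / √s ^ q ≤ |C| / √s ^ q := by
          apply div_le_div_of_nonneg_right (le_abs_self C); positivity
      _ ≤ |C| / √s := by
          apply div_le_div_of_nonneg_left (abs_nonneg C) hk0
          calc √s = √s ^ 1 := (pow_one _).symm
            _ ≤ √s ^ q := pow_le_pow_right₀ hk1 hq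
  have hhalf : |C| / √s ≤ 1 / 2 := by
    rw [div_le_div_iff₀ hk0 (by norm_num)]
    linarith
  have hbd2 : ∀ w : ℂ, ‖w - s‖ ≤ s / 8 →
      ‖Det (I * w ^ (1 / 2 : ℂ)) - 1‖ ≤ 1 / 2 := fun w hw => (hbd w hw).trans hhalf
  refine ⟨hbd2, ?_⟩
  have hdiff : ∀ w : ℂ, ‖w - s‖ ≤ s / 8 →
      DifferentiableAt ℂ (fun w : ℂ => Complex.log (Det (I * w ^ (1 / 2 : ℂ)))) w := by
    intro w hw
    have h4 := (sqrt_geom s hs0 w hw).2.2.2.1
    have h5 : DifferentiableAt ℂ (fun w : ℂ => Det (I * w ^ (1 / 2 : ℂ))) w :=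
      DifferentiableAt.comp w (hD _) h4.differentiableAt
    apply DifferentiableAt.clog h5
    have h6 := hbd2 w hw
    left
    have h7 : |(Det (I * w ^ (1 / 2 : ℂ)) - 1).re| ≤ 1 / 2 := (Complex.abs_re_le_norm _).trans h6
    rw [Complex.sub_re, Complex.one_re] at h7
    have := (abs_le.mp h7).1
    linarith
  have hlog : ∀ w : ℂ, ‖w - s‖ ≤ s / 8 →
      ‖(fun w : ℂ => Complex.log (Det (I * w ^ (1 / 2 : ℂ)))) w‖ ≤ 2 * |C| / √s := by
    intro w hw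
    have h6 := hbd2 w hw
    have h7 := Complex.norm_log_one_add_half_le_self h6
    have h8 : (1 : ℂ) + (Det (I * w ^ (1 / 2 : ℂ)) - 1) = Det (I * w ^ (1 / 2 : ℂ)) := by ring
    rw [h8] at h7
    have h9 := hbd w hw
    have h10 : 2 * |C| / √s = 2 * (|C| / √s) := by ring
    rw [h10]
    have h11 : (0 : ℝ) ≤ |C| / √s := by positivity
    show ‖Complex.log (Det (I * w ^ (1 / 2 : ℂ)))‖ ≤ _
    linarith
  refine (cauchy_disc _ s (2 * |C| / √s) hs0 K hdiff hlog).trans (le_of_eq ?_)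
  have e1 : s ^ (-(K : ℝ) - 1 / 2) = (s ^ K)⁻¹ * (√s)⁻¹ := by
    rw [Real.rpow_sub hs0, Real.rpow_neg hs0.le, Real.rpow_natCast, Real.sqrt_eq_rpow]
    rw [div_eq_mul_inv]
  rw [e1, div_pow]
  field_simp

end Pool.Agent.H269
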