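import Pool.Agent.H269.DefsG2
import Pool.Agent.H269.GN.G100
import Pool.Agent.H269.GN.G101
import Pool.Agent.H269.GN.G102
import Pool.Agent.H269.GN.G103

/-!
# GN-104 asymptotic expansion of the K-th energy derivative (complex analysis core) (MP_f2af60_mp, infinitely many resonances in odd dimension)
-/

set_option autoImplicit false

open MeasureTheory Filter Topology Complex
open scoped InnerProductSpace ENNReal NNReal FourierTransform

namespace Pool.Agent.H269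


/-- a primitive of a polynomial -/
theorem exists_primitive (Q : Polynomial ℂ) : ∃ G : Polynomial ℂ, Polynomial.derivative G = Q ∧
    ∀ n, G.coeff (n + 1) = Q.coeff n / ((n : ℂ) + 1) := by
  refine ⟨∑ a ∈ Finset.range (Q.natDegree + 1),
    Polynomial.monomial (a + 1) (Q.coeff a / ((a : ℂ) + 1)), ?_⟩
  have hc : ∀ n, (∑ a ∈ Finset.range (Q.natDegree + 1),
      Polynomial.monomial (a + 1) (Q.coeff a / ((a : ℂ) + 1))).coeff (n + 1) =
      Q.coeff n / ((n : ℂ) + 1) := by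
    intro n
    rw [Polynomial.finsetSum_coeff]
    simp only [Polynomial.coeff_monomial, add_left_inj]
    by_cases hn : n ∈ Finset.range (Q.natDegree + 1)
    · rw [Finset.sum_eq_single n]
      · simp
      · intro b _ hb
        rw [if_neg hb]
      · intro h
        exact absurd hn h
    · have h0 : Q.coeff n = 0 := by
        apply Polynomial.coeff_eq_zero_of_natDegree_lt
        rw [Finset.mem_range] at hn
        omega
      rw [h0, zero_div]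
      apply Finset.sum_eq_zero
      intro b hb
      rw [if_neg]
      rintro rfl
      exact hn hb
  refine ⟨?_, hc⟩
  ext n
  rw [Polynomial.coeff_derivative, hc]
  have : (n : ℂ) + 1 ≠ 0 := Nat.cast_add_one_ne_zero n
  field_simp

/-- the logarithmic derivative -/
theorem deriv_Psi (Det D Ψ : ℂ → ℂ) (hDet : Differentiable ℂ Det) (hΨ : Differentiable ℂ Ψ)
    (hD : ∀ l, D l = Det l * cexp (Ψ l)) (R : ℂ → ℂ)
    (hf : ∀ z, D z ≠ 0 → deriv D z = D z * R z) (l : ℂ) (hl : Det l ≠ 0) :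
    deriv Ψ l = R l - deriv Det l / Det l := by
  have he : cexp (Ψ l) ≠ 0 := Complex.exp_ne_zero _
  have hne : D l ≠ 0 := by
    rw [hD]
    exact mul_ne_zero hl he
  have h1 : HasDerivAt D (deriv Det l * cexp (Ψ l) + Det l * (cexp (Ψ l) * deriv Ψ l)) l := by
    have h2 := ((hDet l).hasDerivAt).mul ((hΨ l).hasDerivAt.cexp)
    have h3 : D = fun l => Det l * cexp (Ψ l) := funext hD
    rw [h3]
    exact h2
  have h2 := hf l hne
  rw [h1.deriv, hD] at h2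
  have h3 : cexp (Ψ l) * (deriv Det l + Det l * deriv Ψ l) = cexp (Ψ l) * (Det l * R l) := by
    linear_combination h2
  have h4 := mul_left_cancel₀ he h3
  rw [eq_sub_iff_add_eq, ← mul_right_inj' hl, mul_add, mul_div_cancel₀ _ hl]
  linear_combination h4


theorem star_core (Det D Ψ : ℂ → ℂ) (hDet : Differentiable ℂ Det) (hΨ : Differentiable ℂ Ψ)
    (hD : ∀ l, D l = Det l * cexp (Ψ l)) (C κ₀ : ℝ) (q : ℕ) (hq : 1 ≤ q) (hκ : 0 < κ₀)
    (hn : ∀ κ : ℝ, κ₀ ≤ κ → ∀ l : ℂ, ‖l - I * κ‖ ≤ κ / 4 → ‖Det l - 1‖ ≤ C / κ ^ q)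
    (Q : Polynomial ℂ) (Z : Finset ℂ) (m : ℂ → ℕ)
    (hf : ∀ z, D z ≠ 0 → deriv D z = D z * (Q.eval z + ∑ u ∈ Z, (m u : ℂ) / (z - u)))
    (K : ℕ) (hK : 1 ≤ K) :
    ∃ (d : ℕ) (c e : ℕ → ℂ) (C' s₀ : ℝ), 1 ≤ s₀ ∧ (∀ i, Q.coeff (2 * i) = 0 → c i = 0) ∧
      ∀ s : ℝ, s₀ ≤ s →
        ‖iteratedDeriv K (fun w : ℂ => Ψ (I * w ^ (1 / 2 : ℂ))) (s : ℂ) -
          (∑ i ∈ Finset.range d, c i * ((s ^ ((i : ℝ) + 1 / 2 - K) : ℝ) : ℂ) +
          ∑ i ∈ Finset.range d, e i * ((s ^ i : ℝ) : ℂ) +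
          ((∑ u ∈ Z, m u : ℕ) : ℂ) * ((1 / 2) * (-1) ^ (K - 1) * ((K - 1).factorial : ℂ) *
            ((s ^ (-(K : ℝ)) : ℝ) : ℂ)))‖ ≤ C' * s ^ (-(K : ℝ) - 1 / 2) := by
  obtain ⟨G, hGd, hGc⟩ := exists_primitive Q
  obtain ⟨d, c, e, hc, hP⟩ := poly_half_deriv K G
  choose Cf sf hsf hpole using fun u => pole_half_deriv K hK u
  obtain ⟨C₁, s₁, hs₁, hlog⟩ := log_near Det hDet C κ₀ q hq hκ hn K
  refine ⟨d, c, e, (∑ u ∈ Z, (m u : ℝ) * Cf u) + C₁, max s₁ (∑ u ∈ Z, sf u),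
    hs₁.trans (le_max_left _ _), ?_, ?_⟩
  · intro i hi
    apply hc
    rw [hGc, hi, zero_div]
  intro s hs
  have hss₁ : s₁ ≤ s := (le_max_left _ _).trans hs
  have hs0 : 0 < s := by linarith
  have hsu : ∀ u ∈ Z, sf u ≤ s := by
    intro u hu
    refine le_trans ?_ ((le_max_right _ _).trans hs)
    exact Finset.single_le_sum (f := sf) (fun v _ => zero_le_one.trans (hsf v)) hu
  obtain ⟨hDet1, hL⟩ := hlog s hss₁
  set U : Set ℂ := Metric.ball (s : ℂ) (s / 8) with hU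
  have hUn : U ∈ 𝓝 (s : ℂ) := Metric.ball_mem_nhds _ (by positivity)
  have hUd : ∀ w ∈ U, ‖w - s‖ ≤ s / 8 := by
    intro w hw
    rw [hU, Metric.mem_ball, dist_eq_norm] at hw
    exact hw.le
  have hl : ∀ w ∈ U, HasDerivAt (fun w : ℂ => I * w ^ (1 / 2 : ℂ))
      (I * (1 / 2) * w ^ (-(1 / 2) : ℂ)) w := fun w hw => (sqrt_geom s hs0 w (hUd w hw)).2.2.2.1
  have hre : ∀ w ∈ U, 0 < w.re := fun w hw => (sqrt_geom s hs0 w (hUd w hw)).1
  have hslit : ∀ w ∈ U, Det (I * w ^ (1 / 2 : ℂ)) ∈ Complex.slitPlane := by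
    intro w hw
    have h1 := hDet1 w (hUd w hw)
    left
    have h2 := Complex.abs_re_le_norm (Det (I * w ^ (1 / 2 : ℂ)) - 1)
    have h3 := abs_le.1 (h2.trans h1)
    rw [Complex.sub_re, Complex.one_re] at h3
    linarith [h3.1]
  -- the functions
  set A : ℂ → ℂ := fun w => Ψ (I * w ^ (1 / 2 : ℂ)) with hA
  set P : ℂ → ℂ := fun w => G.eval (I * w ^ (1 / 2 : ℂ)) with hPdef
  set L : ℂ → ℂ := fun w => Complex.log (Det (I * w ^ (1 / 2 : ℂ))) with hLdef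
  set h : ℂ → ℂ → ℂ := fun u w => I * (1 / 2) * w ^ (-(1 / 2) : ℂ) *
    (1 / (I * w ^ (1 / 2 : ℂ) - u)) with hh
  have hPd : ∀ w ∈ U, HasDerivAt P (Q.eval (I * w ^ (1 / 2 : ℂ)) *
      (I * (1 / 2) * w ^ (-(1 / 2) : ℂ))) w := by
    intro w hw
    have h1 := (G.hasDerivAt (I * w ^ (1 / 2 : ℂ))).comp w (hl w hw)
    rw [hGd] at h1
    exact h1
  have hLd : ∀ w ∈ U, HasDerivAt L (deriv Det (I * w ^ (1 / 2 : ℂ)) *
      (I * (1 / 2) * w ^ (-(1 / 2) : ℂ)) / Det (I * w ^ (1 / 2 : ℂ))) w := by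
    intro w hw
    have h1 := ((hDet (I * w ^ (1 / 2 : ℂ))).hasDerivAt).comp w (hl w hw)
    exact h1.clog (hslit w hw)
  have hhd : ∀ u ∈ Z, ∀ w ∈ U, DifferentiableAt ℂ (h u) w := by
    intro u hu w hw
    have h1 : I * w ^ (1 / 2 : ℂ) - u ≠ 0 :=
      sub_ne_zero.2 ((hpole u s (hsu u hu)).1 w (hUd w hw))
    have h2 : DifferentiableAt ℂ (fun w : ℂ => w ^ (-(1 / 2) : ℂ)) w :=
      differentiableAt_id.cpow (differentiableAt_const _) (Or.inl (hre w hw))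
    have h3 := (hl w hw).differentiableAt
    exact ((h2.const_mul _)).mul ((differentiableAt_const 1).div (h3.sub_const u) h1)
  have hPa : AnalyticAt ℂ P (s : ℂ) :=
    DifferentiableOn.analyticAt (fun w hw => (hPd w hw).differentiableAt.differentiableWithinAt) hUn
  have hLa : AnalyticAt ℂ L (s : ℂ) :=
    DifferentiableOn.analyticAt (fun w hw => (hLd w hw).differentiableAt.differentiableWithinAt) hUn
  have hha : ∀ u ∈ Z, AnalyticAt ℂ (h u) (s : ℂ) := fun u hu =>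
    DifferentiableOn.analyticAt (fun w hw => (hhd u hu w hw).differentiableWithinAt) hUn
  have hAd : ∀ w ∈ U, deriv A w = deriv P w + ∑ u ∈ Z, (m u : ℂ) * h u w - deriv L w := by
    intro w hw
    have h0 : Det (I * w ^ (1 / 2 : ℂ)) ≠ 0 := Complex.slitPlane_ne_zero (hslit w hw)
    have h1 : HasDerivAt A (deriv Ψ (I * w ^ (1 / 2 : ℂ)) *
        (I * (1 / 2) * w ^ (-(1 / 2) : ℂ))) w :=
      ((hΨ (I * w ^ (1 / 2 : ℂ))).hasDerivAt).comp w (hl w hw)
    rw [h1.deriv, (hPd w hw).deriv, (hLd w hw).deriv,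
      deriv_Psi Det D Ψ hDet hΨ hD (fun z => Q.eval z + ∑ u ∈ Z, (m u : ℂ) / (z - u)) hf _ h0]
    have h2 : (∑ u ∈ Z, (m u : ℂ) * h u w) = (∑ u ∈ Z, (m u : ℂ) / (I * w ^ (1 / 2 : ℂ) - u)) *
        (I * (1 / 2) * w ^ (-(1 / 2) : ℂ)) := by
      rw [Finset.sum_mul]
      refine Finset.sum_congr rfl fun u _ => ?_
      simp only [hh]
      ring
    rw [h2]
    ring
  obtain ⟨k, rfl⟩ : ∃ k, K = k + 1 := ⟨K - 1, by omega⟩
  rw [Nat.add_sub_cancel] at hpole ⊢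
  have hev : deriv A =ᶠ[𝓝 (s : ℂ)] fun w => deriv P w + ∑ u ∈ Z, (m u : ℂ) * h u w - deriv L w := by
    filter_upwards [hUn] with w hw using hAd w hw
  have hPc : ContDiffAt ℂ k (deriv P) (s : ℂ) := hPa.deriv.contDiffAt
  have hLc : ContDiffAt ℂ k (deriv L) (s : ℂ) := hLa.deriv.contDiffAt
  have hhc : ∀ u ∈ Z, ContDiffAt ℂ k (h u) (s : ℂ) := fun u hu => (hha u hu).contDiffAt
  have hsc : ContDiffAt ℂ k (fun w => ∑ u ∈ Z, (m u : ℂ) * h u w) (s : ℂ) :=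
    ContDiffAt.sum fun u hu => contDiffAt_const.mul (hhc u hu)
  have hmain : iteratedDeriv (k + 1) A (s : ℂ) = iteratedDeriv (k + 1) P (s : ℂ) +
      ∑ u ∈ Z, (m u : ℂ) * iteratedDeriv k (h u) (s : ℂ) - iteratedDeriv (k + 1) L (s : ℂ) := by
    rw [iteratedDeriv_succ', iteratedDeriv_succ', iteratedDeriv_succ',
      hev.iteratedDeriv_eq k]
    have e1 : iteratedDeriv k (fun w => deriv P w + ∑ u ∈ Z, (m u : ℂ) * h u w - deriv L w) (s : ℂ)
        = iteratedDeriv k (fun w => deriv P w + ∑ u ∈ Z, (m u : ℂ) * h u w) (s : ℂ) -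
          iteratedDeriv k (deriv L) (s : ℂ) := iteratedDeriv_fun_sub (hPc.add hsc) hLc
    have e2 : iteratedDeriv k (fun w => deriv P w + ∑ u ∈ Z, (m u : ℂ) * h u w) (s : ℂ) =
        iteratedDeriv k (deriv P) (s : ℂ) +
          iteratedDeriv k (fun w => ∑ u ∈ Z, (m u : ℂ) * h u w) (s : ℂ) :=
      iteratedDeriv_fun_add hPc hsc
    have e3 : iteratedDeriv k (fun w => ∑ u ∈ Z, (m u : ℂ) * h u w) (s : ℂ) =
        ∑ u ∈ Z, (m u : ℂ) * iteratedDeriv k (h u) (s : ℂ) := by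
      rw [iteratedDeriv_fun_sum fun u hu => contDiffAt_const.mul (hhc u hu)]
      refine Finset.sum_congr rfl fun u hu => ?_
      exact iteratedDeriv_const_mul (m u : ℂ) (hhc u hu)
    rw [e1, e2, e3]
  rw [hmain, hP s hs0]
  set X : ℂ := (1 / 2) * (-1) ^ k * (k.factorial : ℂ) *
    ((s ^ (-((k + 1 : ℕ) : ℝ)) : ℝ) : ℂ) with hX
  have e4 : ∀ a b : ℂ, a + b + ∑ u ∈ Z, (m u : ℂ) * iteratedDeriv k (h u) (s : ℂ) -
      iteratedDeriv (k + 1) L (s : ℂ) - (a + b + ((∑ u ∈ Z, m u : ℕ) : ℂ) * X) =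
      ∑ u ∈ Z, (m u : ℂ) * (iteratedDeriv k (h u) (s : ℂ) - X) -
        iteratedDeriv (k + 1) L (s : ℂ) := by
    intro a b
    push_cast
    simp only [mul_sub, Finset.sum_sub_distrib, Finset.sum_mul]
    ring
  rw [e4]
  refine (norm_sub_le _ _).trans ?_
  rw [add_mul]
  apply add_le_add _ hL
  refine (norm_sum_le _ _).trans ?_
  rw [Finset.sum_mul]
  refine Finset.sum_le_sum fun u hu => ?_
  rw [norm_mul, Complex.norm_natCast, mul_assoc]
  apply mul_le_mul_of_nonneg_left _ (Nat.cast_nonneg _)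
  exact (hpole u s (hsu u hu)).2

end Pool.Agent.H269
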