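import Pool.Agent.H269.DefsG2

/-!
# GN-105 low energy lemma; power matching (MP_f2af60_mp, infinitely many resonances in odd dimension)
-/

set_option autoImplicit false

open MeasureTheory Filter Topology Complex
open scoped InnerProductSpace ENNReal NNReal FourierTransform

namespace Pool.Agent.H269


theorem poly_small (P : Polynomial ℂ) (n : ℕ) (C δ : ℝ) (hδ : 0 < δ)
    (h : ∀ l : ℂ, l ≠ 0 → ‖l‖ ≤ δ → ‖P.eval l‖ ≤ C * ‖l‖ ^ n) (m : ℕ) (hm : m ≤ n) :
    Polynomial.X ^ m ∣ P := by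
  induction m with
  | zero => simp
  | succ m ih =>
    obtain ⟨R, hR⟩ := ih (by omega)
    have h1 : Tendsto (fun l : ℂ => R.eval l) (𝓝[≠] 0) (𝓝 (R.eval 0)) :=
      (R.continuous.tendsto 0).mono_left nhdsWithin_le_nhds
    have h2 : Tendsto (fun l : ℂ => R.eval l) (𝓝[≠] 0) (𝓝 0) := by
      have h3 : Tendsto (fun l : ℂ => |C| * ‖l‖) (𝓝[≠] 0) (𝓝 0) := by
        have : Tendsto (fun l : ℂ => |C| * ‖l‖) (𝓝 0) (𝓝 (|C| * ‖(0 : ℂ)‖)) :=
          (continuous_const.mul continuous_norm).tendsto 0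
        rw [norm_zero, mul_zero] at this
        exact this.mono_left nhdsWithin_le_nhds
      refine squeeze_zero_norm' ?_ h3
      have h4 : ∀ᶠ l : ℂ in 𝓝[≠] 0, ‖l‖ ≤ min δ 1 := by
        have : ∀ᶠ l : ℂ in 𝓝 0, ‖l‖ < min δ 1 := by
          have h5 := Metric.ball_mem_nhds (0 : ℂ) (lt_min hδ one_pos)
          filter_upwards [h5] with l hl
          rwa [Metric.mem_ball, dist_zero_right] at hl
        filter_upwards [this.filter_mono nhdsWithin_le_nhds] with l hl using hl.le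
      filter_upwards [h4, self_mem_nhdsWithin] with l hl hl0
      have hl0' : l ≠ 0 := hl0
      have hpos : 0 < ‖l‖ := norm_pos_iff.mpr hl0'
      have h6 := h l hl0' (hl.trans (min_le_left _ _))
      rw [hR, Polynomial.eval_mul, Polynomial.eval_pow, Polynomial.eval_X, norm_mul, norm_pow] at h6
      have h7 : C * ‖l‖ ^ n ≤ ‖l‖ ^ m * (|C| * ‖l‖) := by
        calc C * ‖l‖ ^ n ≤ |C| * ‖l‖ ^ (m + 1) := by
              refine mul_le_mul (le_abs_self C) ?_ (by positivity) (abs_nonneg C)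
              exact pow_le_pow_of_le_one hpos.le (hl.trans (min_le_right _ _)) hm
          _ = ‖l‖ ^ m * (|C| * ‖l‖) := by ring
      exact le_of_mul_le_mul_left (h6.trans h7) (pow_pos hpos m)
    have h3 : R.eval 0 = 0 := tendsto_nhds_unique h1 h2
    have h4 : Polynomial.X ∣ R := by
      rw [Polynomial.X_dvd_iff, Polynomial.coeff_zero_eq_eval_zero, h3]
    obtain ⟨T, hT⟩ := h4
    exact ⟨T, by rw [hR, hT]; ring⟩

theorem low_energy (D : ℂ → ℂ) (hD : Differentiable ℂ D) (Q : Polynomial ℂ)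
    (h0 : ∀ z, D z ≠ 0) (hQ : ∀ z, deriv D z = D z * Q.eval z) (C δ : ℝ) (hδ : 0 < δ) (v : ℕ)
    (h : ∀ l : ℂ, ‖l‖ ≤ δ → ‖D (-l) - D l‖ ≤ C * ‖l‖ ^ (2 * v + 1)) (i : ℕ) (hi : i < v) :
    Q.coeff (2 * i) = 0 := by
  have hF : ∀ z, HasDerivAt (fun l => D (-l) - D l)
      (-(D (-z) * Q.eval (-z)) - D z * Q.eval z) z := by
    intro z
    have h1 : HasDerivAt D (D z * Q.eval z) z := by
      rw [← hQ]
      exact (hD z).hasDerivAt
    have h2 : HasDerivAt D (D (-z) * Q.eval (-z)) (-z) := by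
      rw [← hQ]
      exact (hD (-z)).hasDerivAt
    have h3 : HasDerivAt (fun l : ℂ => D (-l)) (D (-z) * Q.eval (-z) * (-1)) z :=
      HasDerivAt.comp z h2 (hasDerivAt_neg z)
    have h4 := h3.sub h1
    have e5 : -(D (-z) * Q.eval (-z)) - D z * Q.eval z =
        D (-z) * Q.eval (-z) * (-1) - D z * Q.eval z := by ring
    rw [e5]
    exact h4
  have hFd : Differentiable ℂ (fun l => D (-l) - D l) := fun z => (hF z).differentiableAt
  have hC : ∀ l : ℂ, l ≠ 0 → ‖l‖ ≤ δ / 2 →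
      ‖-(D (-l) * Q.eval (-l)) - D l * Q.eval l‖ ≤ |C| * 2 ^ (2 * v + 1) * ‖l‖ ^ (2 * v) := by
    intro l hl0 hl
    have hpos : 0 < ‖l‖ := norm_pos_iff.mpr hl0
    have h1 : ‖deriv (fun l => D (-l) - D l) l‖ ≤ (|C| * (2 * ‖l‖) ^ (2 * v + 1)) / ‖l‖ := by
      refine Complex.norm_deriv_le_of_forall_mem_sphere_norm_le hpos hFd.diffContOnCl ?_
      intro z hz
      rw [mem_sphere_iff_norm] at hz
      have hz2 : ‖z‖ ≤ 2 * ‖l‖ := by
        calc ‖z‖ = ‖(z - l) + l‖ := by rw [sub_add_cancel]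
          _ ≤ ‖z - l‖ + ‖l‖ := norm_add_le _ _
          _ = 2 * ‖l‖ := by rw [hz]; ring
      calc ‖D (-z) - D z‖ ≤ C * ‖z‖ ^ (2 * v + 1) := h z (by linarith)
        _ ≤ |C| * (2 * ‖l‖) ^ (2 * v + 1) := by
            refine mul_le_mul (le_abs_self C) ?_ (by positivity) (abs_nonneg C)
            exact pow_le_pow_left₀ (norm_nonneg _) hz2 _
    rw [(hF l).deriv] at h1
    refine h1.trans (le_of_eq ?_)
    field_simp
    ring
  have hb : ∀ᶠ l : ℂ in 𝓝 0, ‖D 0‖ / 2 < ‖D l‖ ∧ ‖Q.eval (-l)‖ < ‖Q.eval 0‖ + 1 := by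
    have c1 : Tendsto (fun l => ‖D l‖) (𝓝 0) (𝓝 ‖D 0‖) := (hD.continuous.norm).tendsto 0
    have c2 : Tendsto (fun l : ℂ => ‖Q.eval (-l)‖) (𝓝 0) (𝓝 ‖Q.eval (-(0 : ℂ))‖) :=
      ((Q.continuous.comp continuous_neg).norm).tendsto 0
    rw [neg_zero] at c2
    have hp : 0 < ‖D 0‖ := norm_pos_iff.mpr (h0 0)
    exact (c1.eventually (lt_mem_nhds (by linarith))).and
      (c2.eventually (gt_mem_nhds (by linarith)))
  obtain ⟨ε, hε, hb⟩ := Metric.eventually_nhds_iff.mp hb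
  have hp : 0 < ‖D 0‖ := norm_pos_iff.mpr (h0 0)
  have hP : Polynomial.X ^ (2 * v) ∣ (Q + Q.comp (-Polynomial.X)) := by
    refine poly_small _ (2 * v)
      ((|C| * 2 ^ (2 * v + 1) + |C| * (‖Q.eval 0‖ + 1)) / (‖D 0‖ / 2))
      (min (min (δ / 2) (ε / 2)) 1) (by positivity) ?_ (2 * v) le_rfl
    intro l hl0 hl
    have hl1 : ‖l‖ ≤ δ / 2 := hl.trans ((min_le_left _ _).trans (min_le_left _ _))
    have hl2 : ‖l‖ ≤ ε / 2 := hl.trans ((min_le_left _ _).trans (min_le_right _ _))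
    have hl3 : ‖l‖ ≤ 1 := hl.trans (min_le_right _ _)
    obtain ⟨b1, b2⟩ := hb (y := l) (by rw [dist_zero_right]; linarith)
    have e1 : (Q + Q.comp (-Polynomial.X)).eval l = Q.eval l + Q.eval (-l) := by
      simp
    have e2 : D l * (Q.eval l + Q.eval (-l)) =
        -(-(D (-l) * Q.eval (-l)) - D l * Q.eval l) - (D (-l) - D l) * Q.eval (-l) := by
      ring
    have e3 : ‖D l‖ * ‖Q.eval l + Q.eval (-l)‖ ≤
        (|C| * 2 ^ (2 * v + 1) + |C| * (‖Q.eval 0‖ + 1)) * ‖l‖ ^ (2 * v) := by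
      rw [← norm_mul, e2]
      calc _ ≤ ‖-(-(D (-l) * Q.eval (-l)) - D l * Q.eval l)‖ + ‖(D (-l) - D l) * Q.eval (-l)‖ :=
            norm_sub_le _ _
        _ ≤ |C| * 2 ^ (2 * v + 1) * ‖l‖ ^ (2 * v) +
            (|C| * ‖l‖ ^ (2 * v)) * (‖Q.eval 0‖ + 1) := by
            rw [norm_neg, norm_mul]
            refine add_le_add (hC l hl0 hl1) ?_
            refine mul_le_mul ?_ b2.le (norm_nonneg _) (by positivity)
            refine (h l (by linarith)).trans ?_
            refine mul_le_mul (le_abs_self C) ?_ (by positivity) (abs_nonneg C)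
            exact pow_le_pow_of_le_one (norm_nonneg _) hl3 (by omega)
        _ = _ := by ring
    rw [e1, div_mul_eq_mul_div, le_div_iff₀ (by positivity)]
    calc ‖Q.eval l + Q.eval (-l)‖ * (‖D 0‖ / 2) ≤ ‖Q.eval l + Q.eval (-l)‖ * ‖D l‖ := by
          gcongr
      _ = ‖D l‖ * ‖Q.eval l + Q.eval (-l)‖ := mul_comm _ _
      _ ≤ _ := e3
  have h2 := (Polynomial.X_pow_dvd_iff.mp hP) (2 * i) (by omega)
  have e6 : (-Polynomial.X : Polynomial ℂ) = Polynomial.C (-1) * Polynomial.X := by simp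
  rw [Polynomial.coeff_add, e6, Polynomial.comp_C_mul_X_coeff, pow_mul] at h2
  have h7 : (2 : ℂ) * Q.coeff (2 * i) = 0 := by
    rw [← h2]
    norm_num
    ring
  simpa using h7

theorem power_match (d : ℕ) (a e : ℕ → ℝ) (N : ℝ) (K L : ℕ) (hK : L + 1 ≤ K) (f : ℝ → ℝ)
    (C s₀ : ℝ) (hf : ∀ s, s₀ ≤ s →
      |f s - (∑ j ∈ Finset.range d, a j * s ^ ((j : ℝ) + 1 / 2) +
        ∑ j ∈ Finset.range d, e j * s ^ ((j : ℝ) + K) - N)| ≤ C * s ^ ((L : ℝ) - 1 / 2))
    (ho : Tendsto (fun s : ℝ => s ^ (-((L : ℝ) + 1 / 2)) * f s) atTop (𝓝 0)) :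
    (∀ j < d, L ≤ j → a j = 0) ∧ (∀ j < d, e j = 0) ∧
    ∃ C' s₁ : ℝ, 1 ≤ s₁ ∧ ∀ s, s₁ ≤ s →
      |f s + (if L = 0 then N else 0)| ≤ C' * s ^ ((L : ℝ) - 1 / 2) := by
  obtain ⟨P, hP⟩ : ∃ P : Polynomial ℝ, P =
      ∑ j ∈ Finset.range d, Polynomial.C (a j) * Polynomial.X ^ (2 * j + 1) +
      ∑ j ∈ Finset.range d, Polynomial.C (e j) * Polynomial.X ^ (2 * j + 2 * K) -
      Polynomial.C N := ⟨_, rfl⟩
  have hPe : ∀ x : ℝ, 0 < x → P.eval x =
      ∑ j ∈ Finset.range d, a j * (x ^ 2) ^ ((j : ℝ) + 1 / 2) +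
        ∑ j ∈ Finset.range d, e j * (x ^ 2) ^ ((j : ℝ) + K) - N := by
    intro x hx
    rw [hP]
    simp only [Polynomial.eval_sub, Polynomial.eval_add, Polynomial.eval_finsetSum,
      Polynomial.eval_mul, Polynomial.eval_C, Polynomial.eval_pow, Polynomial.eval_X]
    congr 1
    congr 1
    · refine Finset.sum_congr rfl fun j _ => ?_
      congr 1
      rw [← Real.rpow_natCast x 2, ← Real.rpow_mul hx.le, ← Real.rpow_natCast x (2 * j + 1)]
      congr 1
      push_cast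
      ring
    · refine Finset.sum_congr rfl fun j _ => ?_
      congr 1
      rw [← Real.rpow_natCast x 2, ← Real.rpow_mul hx.le, ← Real.rpow_natCast x (2 * j + 2 * K)]
      congr 1
      push_cast
      ring
  have hsq : Tendsto (fun x : ℝ => x ^ 2) atTop atTop := tendsto_pow_atTop two_ne_zero
  have h1 : Tendsto (fun x : ℝ => x ^ (-(2 * (L : ℝ) + 1)) * f (x ^ 2)) atTop (𝓝 0) := by
    refine (ho.comp hsq).congr' ?_
    filter_upwards [eventually_gt_atTop (0 : ℝ)] with x hx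
    simp only [Function.comp_apply]
    congr 1
    rw [← Real.rpow_natCast x 2, ← Real.rpow_mul hx.le]
    congr 1
    push_cast
    ring
  have h2 : Tendsto (fun x : ℝ => x ^ (-(2 * (L : ℝ) + 1)) * (f (x ^ 2) - P.eval x)) atTop
      (𝓝 0) := by
    have h3 : Tendsto (fun x : ℝ => |C| * x ^ (-(2 : ℝ))) atTop (𝓝 0) := by
      have := (tendsto_rpow_neg_atTop (y := 2) (by norm_num)).const_mul |C|
      rwa [mul_zero] at this
    refine squeeze_zero_norm' ?_ h3
    filter_upwards [eventually_gt_atTop (0 : ℝ), hsq.eventually_ge_atTop s₀] with x hx hx2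
    have h4 := hf _ hx2
    rw [← hPe x hx] at h4
    have h5 : (x ^ 2) ^ ((L : ℝ) - 1 / 2) = x ^ (2 * (L : ℝ) - 1) := by
      rw [← Real.rpow_natCast x 2, ← Real.rpow_mul hx.le]
      congr 1
      push_cast
      ring
    rw [h5] at h4
    have hp : 0 < x ^ (-(2 * (L : ℝ) + 1)) := Real.rpow_pos_of_pos hx _
    have hp2 : 0 < x ^ (2 * (L : ℝ) - 1) := Real.rpow_pos_of_pos hx _
    rw [norm_mul, Real.norm_of_nonneg hp.le, Real.norm_eq_abs]
    calc x ^ (-(2 * (L : ℝ) + 1)) * |f (x ^ 2) - P.eval x|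
        ≤ x ^ (-(2 * (L : ℝ) + 1)) * (|C| * x ^ (2 * (L : ℝ) - 1)) := by
          refine mul_le_mul_of_nonneg_left (h4.trans ?_) hp.le
          exact mul_le_mul_of_nonneg_right (le_abs_self C) hp2.le
      _ = |C| * (x ^ (-(2 * (L : ℝ) + 1)) * x ^ (2 * (L : ℝ) - 1)) := by ring
      _ = |C| * x ^ (-(2 : ℝ)) := by
          rw [← Real.rpow_add hx]
          congr 2
          ring
  have h3 : Tendsto (fun x : ℝ => P.eval x / (Polynomial.X ^ (2 * L + 1) : Polynomial ℝ).eval x)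
      atTop (𝓝 0) := by
    have h4 := h1.sub h2
    rw [sub_zero] at h4
    refine h4.congr' ?_
    filter_upwards [eventually_gt_atTop (0 : ℝ)] with x hx
    rw [Polynomial.eval_pow, Polynomial.eval_X, ← mul_sub, sub_sub_cancel, Real.rpow_neg hx.le]
    have : x ^ (2 * (L : ℝ) + 1) = x ^ (2 * L + 1) := by
      rw [← Real.rpow_natCast x (2 * L + 1)]
      congr 1
      push_cast
      ring
    rw [this]
    field_simp
  have hdeg : P.degree < ((2 * L + 1 : ℕ) : WithBot ℕ) := by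
    have := (Polynomial.div_tendsto_atTop_zero_iff_degree_lt P (Polynomial.X ^ (2 * L + 1))
      (pow_ne_zero _ Polynomial.X_ne_zero)).mp h3
    rwa [Polynomial.degree_X_pow] at this
  have hcoef : ∀ n, 2 * L + 1 ≤ n → P.coeff n = 0 := fun n hn =>
    Polynomial.coeff_eq_zero_of_degree_lt (hdeg.trans_le (by exact_mod_cast hn))
  have hform : ∀ n, P.coeff n = (∑ j ∈ Finset.range d, if n = 2 * j + 1 then a j else 0) +
      (∑ j ∈ Finset.range d, if n = 2 * j + 2 * K then e j else 0) -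
      (if n = 0 then N else 0) := by
    intro n
    rw [hP]
    simp only [Polynomial.coeff_sub, Polynomial.coeff_add, Polynomial.finsetSum_coeff,
      Polynomial.coeff_C_mul, Polynomial.coeff_X_pow, Polynomial.coeff_C, mul_ite, mul_one,
      mul_zero]
  have ha : ∀ j < d, L ≤ j → a j = 0 := by
    intro j hj hL
    have h4 := hform (2 * j + 1)
    rw [hcoef _ (by omega)] at h4
    rw [Finset.sum_eq_single_of_mem j (Finset.mem_range.mpr hj) (fun b _ hb => by
      rw [if_neg (by omega)]), if_pos rfl, Finset.sum_eq_zero (fun b _ => by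
      rw [if_neg (by omega)]), if_neg (by omega)] at h4
    linarith
  have he : ∀ j < d, e j = 0 := by
    intro j hj
    have h4 := hform (2 * j + 2 * K)
    rw [hcoef _ (by omega)] at h4
    rw [Finset.sum_eq_zero (fun b _ => by rw [if_neg (by omega)]),
      Finset.sum_eq_single_of_mem j (Finset.mem_range.mpr hj) (fun b _ hb => by
      rw [if_neg (by omega)]), if_pos rfl, if_neg (by omega)] at h4
    linarith
  refine ⟨ha, he, C + ∑ j ∈ Finset.range d, |a j| + |N|, max 1 s₀, le_max_left _ _, ?_⟩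
  intro s hs
  have hs1 : 1 ≤ s := (le_max_left _ _).trans hs
  have hs0 : 0 < s := by linarith
  have h4 := hf s ((le_max_right _ _).trans hs)
  have h5 : ∑ j ∈ Finset.range d, e j * s ^ ((j : ℝ) + K) = 0 :=
    Finset.sum_eq_zero fun j hj => by rw [he j (Finset.mem_range.mp hj), zero_mul]
  rw [h5, add_zero] at h4
  have hpos : 0 < s ^ ((L : ℝ) - 1 / 2) := Real.rpow_pos_of_pos hs0 _
  have h6 : |∑ j ∈ Finset.range d, a j * s ^ ((j : ℝ) + 1 / 2)| ≤
      (∑ j ∈ Finset.range d, |a j|) * s ^ ((L : ℝ) - 1 / 2) := by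
    rw [Finset.sum_mul]
    refine (Finset.abs_sum_le_sum_abs _ _).trans (Finset.sum_le_sum fun j hj => ?_)
    rcases le_or_gt L j with hL | hL
    · rw [ha j (Finset.mem_range.mp hj) hL]
      simp
    · rw [abs_mul, abs_of_pos (Real.rpow_pos_of_pos hs0 _)]
      refine mul_le_mul_of_nonneg_left ?_ (abs_nonneg _)
      refine Real.rpow_le_rpow_of_exponent_le hs1 ?_
      have : (j : ℝ) + 1 ≤ L := by exact_mod_cast hL
      linarith
  have h7 : |N - (if L = 0 then N else 0)| ≤ |N| * s ^ ((L : ℝ) - 1 / 2) := by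
    split_ifs with hL
    · rw [sub_self, abs_zero]
      positivity
    · rw [sub_zero]
      refine le_mul_of_one_le_right (abs_nonneg N) (Real.one_le_rpow hs1 ?_)
      have : (1 : ℝ) ≤ L := by exact_mod_cast Nat.one_le_iff_ne_zero.mpr hL
      linarith
  have e1 : f s + (if L = 0 then N else 0) =
      (f s - (∑ j ∈ Finset.range d, a j * s ^ ((j : ℝ) + 1 / 2) - N)) +
      ∑ j ∈ Finset.range d, a j * s ^ ((j : ℝ) + 1 / 2) - (N - (if L = 0 then N else 0)) := by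
    ring
  rw [e1]
  calc _ ≤ |(f s - (∑ j ∈ Finset.range d, a j * s ^ ((j : ℝ) + 1 / 2) - N)) +
        ∑ j ∈ Finset.range d, a j * s ^ ((j : ℝ) + 1 / 2)| + |N - (if L = 0 then N else 0)| :=
        abs_sub _ _
    _ ≤ |f s - (∑ j ∈ Finset.range d, a j * s ^ ((j : ℝ) + 1 / 2) - N)| +
        |∑ j ∈ Finset.range d, a j * s ^ ((j : ℝ) + 1 / 2)| +
        |N - (if L = 0 then N else 0)| := by
        gcongr
        exact abs_add_le _ _
    _ ≤ C * s ^ ((L : ℝ) - 1 / 2) + (∑ j ∈ Finset.range d, |a j|) * s ^ ((L : ℝ) - 1 / 2) +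
        |N| * s ^ ((L : ℝ) - 1 / 2) := by
        gcongr
    _ = _ := by ring

end Pool.Agent.H269
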