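import Pool.Agent.H269.DefsG2
import Pool.Agent.H269.GN.G001
import Pool.Agent.H269.GN.G003
import Pool.Agent.H269.GN.G014
import Pool.Agent.H269.GN.G025
import Pool.Agent.H269.GN.G026
import Pool.Agent.H269.GN.G045
import Pool.Agent.H269.GN.G046
import Pool.Agent.H269.GN.G063
import Pool.Agent.H269.GN.G067

/-!
# GN-106 the exponent Psi; reflection formula of the scattering determinant (MP_f2af60_mp, infinitely many resonances in odd dimension)
-/

set_option autoImplicit false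

open MeasureTheory Filter Topology Complex
open scoped InnerProductSpace ENNReal NNReal FourierTransform

namespace Pool.Agent.H269



/-- polynomial growth in the half plane `-B ≤ im l` -/
def PsiGrow (B : ℝ) (f : ℂ → ℂ) : Prop :=
  ∃ (C : ℝ) (m : ℕ), 0 ≤ C ∧ ∀ l : ℂ, -B ≤ l.im → ‖f l‖ ≤ C * (1 + ‖l‖) ^ m

theorem psi_grow_add {B : ℝ} {f g : ℂ → ℂ} (hf : PsiGrow B f) (hg : PsiGrow B g) :
    PsiGrow B (fun l => f l + g l) := by
  obtain ⟨C, m, hC, hf⟩ := hf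
  obtain ⟨D, n, hD, hg⟩ := hg
  refine ⟨C + D, max m n, add_nonneg hC hD, fun l hl => ?_⟩
  have h1 : (1 : ℝ) ≤ 1 + ‖l‖ := by linarith [norm_nonneg l]
  have hm : (1 + ‖l‖) ^ m ≤ (1 + ‖l‖) ^ (max m n) := pow_le_pow_right₀ h1 (le_max_left _ _)
  have hn : (1 + ‖l‖) ^ n ≤ (1 + ‖l‖) ^ (max m n) := pow_le_pow_right₀ h1 (le_max_right _ _)
  calc ‖f l + g l‖ ≤ ‖f l‖ + ‖g l‖ := norm_add_le _ _
    _ ≤ C * (1 + ‖l‖) ^ m + D * (1 + ‖l‖) ^ n := add_le_add (hf l hl) (hg l hl)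
    _ ≤ C * (1 + ‖l‖) ^ (max m n) + D * (1 + ‖l‖) ^ (max m n) :=
        add_le_add (mul_le_mul_of_nonneg_left hm hC) (mul_le_mul_of_nonneg_left hn hD)
    _ = (C + D) * (1 + ‖l‖) ^ (max m n) := by ring

theorem psi_grow_const_mul {B : ℝ} {f : ℂ → ℂ} (c : ℂ) (hf : PsiGrow B f) :
    PsiGrow B (fun l => c * f l) := by
  obtain ⟨C, m, hC, hf⟩ := hf
  refine ⟨‖c‖ * C, m, mul_nonneg (norm_nonneg _) hC, fun l hl => ?_⟩
  rw [norm_mul, mul_assoc]
  exact mul_le_mul_of_nonneg_left (hf l hl) (norm_nonneg _)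

theorem psi_grow_sum {B : ℝ} (s : Finset ℕ) (f : ℕ → ℂ → ℂ) (h : ∀ k ∈ s, PsiGrow B (f k)) :
    PsiGrow B (fun l => ∑ k ∈ s, f k l) := by
  classical
  induction s using Finset.induction_on with
  | empty => exact ⟨0, 0, le_rfl, fun l _ => by simp⟩
  | insert a s ha ih =>
    have h2 := psi_grow_add (h a (Finset.mem_insert_self a s))
      (ih fun k hk => h k (Finset.mem_insert_of_mem hk))
    simpa only [Finset.sum_insert ha] using h2

theorem psi_sum_split (n : ℕ) (f : ℕ → ℂ) :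
    ∑ j ∈ Finset.range (n + 1), f j = f 0 + ∑ j ∈ Finset.Icc 1 n, f j := by
  rw [Finset.sum_range_succ', add_comm]
  congr 1
  rw [Finset.range_eq_Ico, Finset.sum_Ico_add' f 0 n 1]
  congr 1

section OSec

variable {v : ℕ} {R M : ℝ} {V : EV v → ℝ} {A T : ℂ → OpV v R}

theorem FamG.Psi_entire (F : FamG v R M V A T) :
    Differentiable ℂ (Psi v V) ∧ ∀ B : ℝ, 0 ≤ B → ∃ (C : ℝ) (p : ℕ), 0 ≤ C ∧
      ∀ l : ℂ, -B ≤ l.im → ‖Psi v V l‖ ≤ C * (1 + ‖l‖) ^ p := by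
  have hb : ∀ k : ℕ, 1 ≤ k → Differentiable ℂ (bornF v k V) ∧ ∀ B : ℝ, 0 ≤ B →
      ∃ (C : ℝ) (m : ℕ), 0 ≤ C ∧ ∀ l : ℂ, -B ≤ l.im → ‖bornF v k V l‖ ≤ C * (1 + ‖l‖) ^ m :=
    fun k hk => bornF_entire v k hk R M V F.hR F.hM F.meas F.bdd F.supp
  constructor
  · have e : Psi v V = fun l => Rg v l 0 * (∫ x, (V x : ℂ)) +
        ∑ k ∈ Finset.Icc 1 (4 * v + 4), (-1) ^ k * bornF v k V l := rfl
    rw [e]
    refine Differentiable.add ((Rg_differentiable v 0).mul_const _) ?_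
    refine Differentiable.fun_sum fun k hk => ?_
    exact ((hb k (Finset.mem_Icc.mp hk).1).1).const_mul _
  · intro B hB
    have g1 : PsiGrow B (fun l => (∫ x, (V x : ℂ)) * Rg v l 0) := by
      refine psi_grow_const_mul _ ?_
      obtain ⟨C, hC, h⟩ := Rg_bound v B R hB F.hR
      exact ⟨C, 4 * v + 1, hC.le, fun l hl => h l 0 hl le_rfl F.hR.le⟩
    have g2 : PsiGrow B (fun l => ∑ k ∈ Finset.Icc 1 (4 * v + 4), (-1) ^ k * bornF v k V l) := by
      refine psi_grow_sum _ (fun k l => (-1) ^ k * bornF v k V l) fun k hk => ?_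
      exact psi_grow_const_mul _ ((hb k (Finset.mem_Icc.mp hk).1).2 B hB)
    obtain ⟨C, m, hC, h⟩ := psi_grow_add g1 g2
    refine ⟨C, m, hC, fun l hl => ?_⟩
    have := h l hl
    beta_reduce at this
    rw [mul_comm (∫ x, (V x : ℂ))] at this
    exact this

theorem FamG.Df_reflect (F : FamG v R M V A T) {ι : Type} [Countable ι] [DecidableEq ι]
    (b : HilbertBasis ι ℂ (Lp ℂ 2 (muV v R))) (l : ℂ) (Y : OpV v R) (h1 : (1 + T l) * Y = 1)
    (h2 : Y * (1 + T l) = 1) :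
    Df b V T (-l) = Df b V T l * det1 b (Y * (T (-l) - T l)) := by
  obtain ⟨C, hC, hpow⟩ := F.pow_HS |l.im| (abs_nonneg _)
  have hT := hpow ι b l (neg_abs_le _)
  have hT' := hpow ι b (-l) (by rw [Complex.neg_im]; exact neg_le_neg (le_abs_self _))
  obtain ⟨⟨d, hd⟩, htr, -⟩ := F.tr_J b l
  have key := detKp_reflect (b := b) (2 * v + 3) (by omega) hT hT' hd h1 h2
  have hsum : (∑ j ∈ Finset.range (2 * (2 * v + 3) - 1),
      ((-1 : ℂ) ^ (j + 1) / ((j : ℂ) + 1)) * tr b (T (-l) ^ (j + 1) - T l ^ (j + 1))) +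
      (Psi v V (-l) - Psi v V l) = 0 := by
    have hn : 2 * (2 * v + 3) - 1 = (4 * v + 4) + 1 := by omega
    have hpsi : Psi v V (-l) - Psi v V l = (Rg v (-l) 0 - Rg v l 0) * (∫ x, (V x : ℂ)) +
        ∑ k ∈ Finset.Icc 1 (4 * v + 4), (-1) ^ k * (bornF v k V (-l) - bornF v k V l) := by
      unfold Psi
      simp only [mul_sub, Finset.sum_sub_distrib]
      ring
    rw [hn, psi_sum_split, hpsi, ← htr]
    have h0 : ((-1 : ℂ) ^ (0 + 1) / (((0 : ℕ) : ℂ) + 1)) *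
        tr b (T (-l) ^ (0 + 1) - T l ^ (0 + 1)) = - tr b (T (-l) - T l) := by
      simp
    rw [h0]
    have hs : (∑ j ∈ Finset.Icc 1 (4 * v + 4),
        ((-1 : ℂ) ^ (j + 1) / ((j : ℂ) + 1)) * tr b (T (-l) ^ (j + 1) - T l ^ (j + 1))) +
        ∑ k ∈ Finset.Icc 1 (4 * v + 4), (-1) ^ k * (bornF v k V (-l) - bornF v k V l) = 0 := by
      rw [← Finset.sum_add_distrib]
      refine Finset.sum_eq_zero fun k hk => ?_
      rw [bornF_reflect F b l k (Finset.mem_Icc.mp hk).1]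
      ring
    linear_combination hs
  have hexp : cexp (∑ j ∈ Finset.range (2 * (2 * v + 3) - 1),
      ((-1 : ℂ) ^ (j + 1) / ((j : ℂ) + 1)) * tr b (T (-l) ^ (j + 1) - T l ^ (j + 1))) *
      cexp (Psi v V (-l)) = cexp (Psi v V l) := by
    rw [← Complex.exp_add]
    congr 1
    linear_combination hsum
  unfold Df
  rw [key]
  linear_combination (det1 b (Kp (2 * (2 * v + 3)) (T l)) * det1 b (Y * (T (-l) - T l))) * hexp

end OSec

end Pool.Agent.H269
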