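import Pool.Agent.H269.DefsG2
import Pool.Agent.H269.GN.G041
import Pool.Agent.H269.GN.G042
import Pool.Agent.H269.GN.G043
import Pool.Agent.H269.GN.G047
import Pool.Agent.H269.GN.G048
import Pool.Agent.H269.GN.G106

/-!
# GN-107 the scattering determinant: entire, zeros, finite order, low energy (MP_f2af60_mp, infinitely many resonances in odd dimension)
-/

set_option autoImplicit false

open MeasureTheory Filter Topology Complex
open scoped InnerProductSpace ENNReal NNReal FourierTransform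

namespace Pool.Agent.H269


section HelpDf

variable {v : ℕ} {R M : ℝ} {V : EV v → ℝ} {A T : ℂ → OpV v R}

theorem FamG.aux_T_half (F : FamG v R M V A T) (l : ℂ) (hl : M + 2 ≤ l.im) : ‖T l‖ ≤ 1 / 2 := by
  have hM := F.hM
  have him : 0 < l.im := by linarith
  have h1 := F.T_norm l
  have h2 := (F.norm_le l him).1
  have h3 : M * ‖A l‖ ≤ M * (l.im ^ 2)⁻¹ := mul_le_mul_of_nonneg_left h2 hM
  have h4 : M * (l.im ^ 2)⁻¹ ≤ 1 / 2 := by
    rw [← div_eq_mul_inv, div_le_iff₀ (by positivity)]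
    nlinarith
  linarith

theorem aux_inv {H : Type} [NormedAddCommGroup H] [InnerProductSpace ℂ H] [CompleteSpace H]
    (t : H →L[ℂ] H) (ht : ‖t‖ ≤ 1 / 2) :
    ∃ Y : H →L[ℂ] H, (1 + t) * Y = 1 ∧ Y * (1 + t) = 1 ∧ ‖Y‖ ≤ 2 := by
  have hlt : ‖-t‖ < 1 := by rw [norm_neg]; linarith
  set u := Units.oneSub (-t) hlt with hu
  have huv : (u : H →L[ℂ] H) = 1 + t := by
    rw [hu, Units.val_oneSub, sub_neg_eq_add]
  have h1 : (1 + t) * (↑u⁻¹ : H →L[ℂ] H) = 1 := by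
    rw [← huv]; exact Units.mul_inv u
  have h2 : (↑u⁻¹ : H →L[ℂ] H) * (1 + t) = 1 := by
    rw [← huv]; exact Units.inv_mul u
  refine ⟨(↑u⁻¹ : H →L[ℂ] H), h1, h2, ?_⟩
  set Y : H →L[ℂ] H := (↑u⁻¹ : H →L[ℂ] H) with hY
  have h3 : Y = 1 - t * Y := by
    have : Y + t * Y = 1 := by rw [← h1]; noncomm_ring
    exact eq_sub_of_add_eq this
  have h4 : ‖Y‖ ≤ ‖(1 : H →L[ℂ] H)‖ + ‖t * Y‖ := by
    conv_lhs => rw [h3]
    exact norm_sub_le _ _
  have h5 : ‖t * Y‖ ≤ ‖t‖ * ‖Y‖ := norm_mul_le _ _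
  have h6 : ‖(1 : H →L[ℂ] H)‖ ≤ 1 := ContinuousLinearMap.norm_id_le
  have h7 : ‖t‖ * ‖Y‖ ≤ 1 / 2 * ‖Y‖ := mul_le_mul_of_nonneg_right ht (norm_nonneg _)
  linarith

end HelpDf


section OSec

variable {v : ℕ} {R M : ℝ} {V : EV v → ℝ} {A T : ℂ → OpV v R}

theorem FamG.Df_basic (F : FamG v R M V A T) {ι : Type} [Countable ι] [DecidableEq ι]
    (b : HilbertBasis ι ℂ (Lp ℂ 2 (muV v R))) :
    Differentiable ℂ (Df b V T) ∧ (∀ l, Df b V T l = 0 ↔ ¬ IsUnit (1 + T l)) ∧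
    ∃ (C : ℝ) (p : ℕ), ∀ l : ℂ, ‖Df b V T l‖ ≤ Real.exp (C * (1 + ‖l‖) ^ p) := by
  have hE := F.Det_entire b
  have hP := F.Psi_entire
  have hM := F.hM
  refine ⟨?_, ?_, ?_⟩
  · unfold Df
    exact hE.1.mul hP.1.cexp
  · intro l
    unfold Df
    rw [mul_eq_zero, or_iff_left (Complex.exp_ne_zero _)]
    exact hE.2 l
  · obtain ⟨C1, h1⟩ := F.Det_bound b (M + 2) (by linarith)
    obtain ⟨C2, p2, hC2, h2⟩ := hP.2 (M + 2) (by linarith)
    obtain ⟨C3, h3⟩ := F.det_YJ b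
    set p1 : ℕ := 2 * (v * (2 * v + 3)) with hp1
    set P : ℕ := p1 + p2 + (2 * v + 7) with hPdef
    have hup : ∀ l : ℂ, -(M + 2) ≤ l.im →
        ‖Df b V T l‖ ≤ Real.exp ((|C1| + C2) * (1 + ‖l‖) ^ P) := by
      intro l hl
      have hone : (1 : ℝ) ≤ 1 + ‖l‖ := by linarith [norm_nonneg l]
      have a1 : (1 + ‖l‖) ^ p1 ≤ (1 + ‖l‖) ^ P := pow_le_pow_right₀ hone (by omega)
      have a2 : (1 + ‖l‖) ^ p2 ≤ (1 + ‖l‖) ^ P := pow_le_pow_right₀ hone (by omega)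
      have b1 : C1 * (1 + ‖l‖) ^ p1 ≤ |C1| * (1 + ‖l‖) ^ P :=
        (mul_le_mul_of_nonneg_right (le_abs_self C1) (by positivity)).trans
          (mul_le_mul_of_nonneg_left a1 (abs_nonneg _))
      have b2 : C2 * (1 + ‖l‖) ^ p2 ≤ C2 * (1 + ‖l‖) ^ P := mul_le_mul_of_nonneg_left a2 hC2
      have c1 := h1 l hl
      have c2 : ‖cexp (Psi v V l)‖ ≤ Real.exp (C2 * (1 + ‖l‖) ^ p2) := by
        rw [Complex.norm_exp]
        exact Real.exp_le_exp.mpr (((Complex.re_le_norm _).trans (h2 l hl)))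
      unfold Df
      rw [norm_mul]
      calc _ ≤ Real.exp (C1 * (1 + ‖l‖) ^ p1) * Real.exp (C2 * (1 + ‖l‖) ^ p2) :=
            mul_le_mul c1 c2 (norm_nonneg _) (Real.exp_nonneg _)
        _ = Real.exp (C1 * (1 + ‖l‖) ^ p1 + C2 * (1 + ‖l‖) ^ p2) := (Real.exp_add _ _).symm
        _ ≤ _ := by
            apply Real.exp_le_exp.mpr
            rw [add_mul]
            exact add_le_add b1 b2
    refine ⟨|C1| + C2 + |C3|, P, ?_⟩
    intro l
    have hone : (1 : ℝ) ≤ 1 + ‖l‖ := by linarith [norm_nonneg l]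
    have hpos : (0 : ℝ) ≤ (1 + ‖l‖) ^ P := by positivity
    rcases le_or_gt (-(M + 2)) l.im with hl | hl
    · refine (hup l hl).trans (Real.exp_le_exp.mpr ?_)
      have : 0 ≤ |C3| * (1 + ‖l‖) ^ P := mul_nonneg (abs_nonneg _) hpos
      nlinarith
    · have him : M + 2 ≤ (-l).im := by
        rw [Complex.neg_im]; linarith
      obtain ⟨Y, hY1, hY2, hY3⟩ := aux_inv (T (-l)) (F.aux_T_half (-l) him)
      have hr := F.Df_reflect b (-l) Y hY1 hY2
      have hq := h3 (-l) Y hY3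
      rw [neg_neg] at hr hq
      have hu := hup (-l) (by linarith)
      rw [norm_neg] at hu hq
      have a3 : (1 + ‖l‖) ^ (2 * v + 7) ≤ (1 + ‖l‖) ^ P := pow_le_pow_right₀ hone (by omega)
      have b3 : C3 * (1 + ‖l‖) ^ (2 * v + 7) ≤ |C3| * (1 + ‖l‖) ^ P :=
        (mul_le_mul_of_nonneg_right (le_abs_self C3) (by positivity)).trans
          (mul_le_mul_of_nonneg_left a3 (abs_nonneg _))
      rw [hr, norm_mul]
      calc _ ≤ Real.exp ((|C1| + C2) * (1 + ‖l‖) ^ P) * Real.exp (C3 * (1 + ‖l‖) ^ (2 * v + 7)) :=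
            mul_le_mul hu hq (norm_nonneg _) (Real.exp_nonneg _)
        _ = Real.exp ((|C1| + C2) * (1 + ‖l‖) ^ P + C3 * (1 + ‖l‖) ^ (2 * v + 7)) :=
            (Real.exp_add _ _).symm
        _ ≤ _ := by
            apply Real.exp_le_exp.mpr
            rw [add_mul (|C1| + C2)]
            linarith

theorem FamG.Df_low (F : FamG v R M V A T) {ι : Type} [Countable ι] [DecidableEq ι]
    (b : HilbertBasis ι ℂ (Lp ℂ 2 (muV v R))) (h : IsUnit (1 + T 0)) :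
    ∃ C δ : ℝ, 0 < δ ∧ ∀ l : ℂ, ‖l‖ ≤ δ →
      ‖Df b V T (-l) - Df b V T l‖ ≤ C * ‖l‖ ^ (2 * v + 1) := by
  have hTc : Continuous T := F.differentiable.2.continuous
  have hDc : Continuous (Df b V T) := (F.Df_basic b).1.continuous
  have hTc1 : Continuous (fun l : ℂ => 1 + T l) := continuous_const.add hTc
  obtain ⟨u, hu⟩ := h
  have hinv : ContinuousAt (fun l : ℂ => Ring.inverse (1 + T l)) 0 := by
    have h0 : ContinuousAt Ring.inverse (1 + T 0) := by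
      rw [← hu]; exact NormedRing.inverse_continuousAt u
    exact ContinuousAt.comp (f := fun l : ℂ => 1 + T l) (g := Ring.inverse) h0 hTc1.continuousAt
  set L : ℝ := ‖Ring.inverse (1 + T 0)‖ + 1 with hL
  set K : ℝ := ‖Df b V T 0‖ + 1 with hK
  have e1 : ∀ᶠ l in 𝓝 (0 : ℂ), ‖Ring.inverse (1 + T l)‖ < L := by
    have hlt : ‖Ring.inverse (1 + T 0)‖ < L := by rw [hL]; exact lt_add_one _
    exact hinv.norm.eventually (Iio_mem_nhds hlt)
  have e2 : ∀ᶠ l in 𝓝 (0 : ℂ), ‖Df b V T l‖ < K := by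
    have hlt : ‖Df b V T 0‖ < K := by rw [hK]; exact lt_add_one _
    exact hDc.norm.continuousAt.eventually (Iio_mem_nhds hlt)
  have e3 : ∀ᶠ l in 𝓝 (0 : ℂ), IsUnit (1 + T l) := by
    have hop : IsOpen {x : OpV v R | IsUnit x} := Units.isOpen
    have hm : (1 + T 0) ∈ {x : OpV v R | IsUnit x} := by
      rw [← hu]; exact u.isUnit
    exact hTc1.continuousAt.eventually (hop.mem_nhds hm)
  obtain ⟨ε, hε, hball⟩ := Metric.eventually_nhds_iff.mp (e1.and (e2.and e3))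
  obtain ⟨C, δ, hδ, hC⟩ := F.det_YJ_low b L
  refine ⟨K * C, min δ (ε / 2), lt_min hδ (by linarith), ?_⟩
  intro l hl
  have hl1 : ‖l‖ ≤ δ := hl.trans (min_le_left _ _)
  have hl2 : dist l 0 < ε := by
    rw [dist_zero_right]
    have := hl.trans (min_le_right δ (ε / 2))
    linarith
  obtain ⟨f1, f2, f3⟩ := hball hl2
  have hY1 : (1 + T l) * Ring.inverse (1 + T l) = 1 := Ring.mul_inverse_cancel _ f3
  have hY2 : Ring.inverse (1 + T l) * (1 + T l) = 1 := Ring.inverse_mul_cancel _ f3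
  have hr := F.Df_reflect b l (Ring.inverse (1 + T l)) hY1 hY2
  have hq := hC l (Ring.inverse (1 + T l)) hl1 f1.le
  have : Df b V T (-l) - Df b V T l =
      Df b V T l * (det1 b (Ring.inverse (1 + T l) * (T (-l) - T l)) - 1) := by
    rw [hr]; ring
  rw [this, norm_mul, mul_assoc]
  exact mul_le_mul f2.le hq (norm_nonneg _) (by rw [hK]; positivity)

end OSec

end Pool.Agent.H269
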