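import Pool.Agent.H269.DefsG2
import Pool.Agent.H269.GN.G025
import Pool.Agent.H269.GN.G048
import Pool.Agent.H269.GN.G063
import Pool.Agent.H269.GN.G065
import Pool.Agent.H269.GN.G100
import Pool.Agent.H269.GN.G101
import Pool.Agent.H269.GN.G104
import Pool.Agent.H269.GN.G105
import Pool.Agent.H269.GN.G106
import Pool.Agent.H269.GN.G107
import Pool.Agent.H269.R5.J12

/-!
# GN-108 asymptotics of the sum of the Born terms at high negative energy (MP_f2af60_mp, infinitely many resonances in odd dimension)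
-/

set_option autoImplicit false

open MeasureTheory Filter Topology Complex
open scoped InnerProductSpace ENNReal NNReal FourierTransform

namespace Pool.Agent.H269


section OSec

variable {v : ℕ} {R M : ℝ} {V : EV v → ℝ} {A T : ℂ → OpV v R}

theorem FamG.psi_aux (F : FamG v R M V A T) (K : ℕ) (hK : v * (4 * v + 5) < K) :
    ∃ Γ : ℂ, ∀ s : ℝ, 0 < s →
      iteratedDeriv K (fun w : ℂ => Psi v V (I * w ^ (1 / 2 : ℂ))) (s : ℂ) =
        Γ * ((s ^ ((v : ℝ) + 1 / 2 - K) : ℝ) : ℂ) +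
          (-1) ^ K * ((∑ k ∈ Finset.Icc 1 (4 * v + 4), (-1) ^ k * bornD v k K V s : ℝ) : ℂ) := by
  set c0 : ℂ := (ct v (2 * v + 1) : ℂ) / (4 * (Real.pi : ℂ) * (2 * (Real.pi : ℂ)) ^ v) *
    (∫ x, (V x : ℂ)) with hc0
  refine ⟨c0 * ∏ j ∈ Finset.range K, (((2 * v + 1 : ℕ) : ℂ) / 2 - j), fun s hs => ?_⟩
  have hslit : (s : ℂ) ∈ slitPlane := by
    rw [Complex.mem_slitPlane_iff]; left; simpa using hs
  have hcp : AnalyticAt ℂ (fun w : ℂ => w ^ (1 / 2 : ℂ)) (s : ℂ) :=
    AnalyticAt.cpow analyticAt_id analyticAt_const hslit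
  have hIc : AnalyticAt ℂ (fun w : ℂ => I * w ^ (1 / 2 : ℂ)) (s : ℂ) :=
    analyticAt_const.mul hcp
  have hB : ∀ k ∈ Finset.Icc 1 (4 * v + 4),
      AnalyticAt ℂ (fun w : ℂ => bornF v k V (I * w ^ (1 / 2 : ℂ))) (s : ℂ) := by
    intro k hk
    have h1 := (bornF_entire v k (Finset.mem_Icc.mp hk).1 R M V F.hR F.hM F.meas F.bdd F.supp).1
    exact AnalyticAt.comp (g := bornF v k V) (f := fun w : ℂ => I * w ^ (1 / 2 : ℂ))
      (h1.analyticAt _) hIc
  have hfun : (fun w : ℂ => Psi v V (I * w ^ (1 / 2 : ℂ))) = fun w : ℂ =>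
      c0 * (w ^ (1 / 2 : ℂ)) ^ (2 * v + 1) +
        ∑ k ∈ Finset.Icc 1 (4 * v + 4), (-1) ^ k * bornF v k V (I * w ^ (1 / 2 : ℂ)) := by
    funext w
    unfold Psi
    rw [Rg_zero]
    congr 1
    have : -(I * (I * w ^ (1 / 2 : ℂ))) = w ^ (1 / 2 : ℂ) := by
      rw [← mul_assoc, I_mul_I]; ring
    rw [this, hc0]
    ring
  rw [hfun, iteratedDeriv_fun_add, iteratedDeriv_const_mul_field, half_pow_deriv K (2 * v + 1) s hs,
    iteratedDeriv_fun_sum]
  · congr 1
    · have hexp : ((2 * v + 1 : ℕ) : ℝ) / 2 - K = (v : ℝ) + 1 / 2 - K := by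
        push_cast; ring
      rw [hexp, ← mul_assoc]
    · rw [ofReal_sum, Finset.mul_sum]
      refine Finset.sum_congr rfl fun k hk => ?_
      have hk' := Finset.mem_Icc.mp hk
      have hKk : v * (k + 1) < K := by
        refine lt_of_le_of_lt (Nat.mul_le_mul_left v ?_) hK
        omega
      rw [iteratedDeriv_const_mul_field,
        bornF_deriv v k K hk'.1 hKk R M V F.hR F.hM F.meas F.bdd F.supp s hs]
      push_cast
      ring
  · intro k hk
    exact (analyticAt_const.mul (hB k hk)).contDiffAt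
  · exact (analyticAt_const.mul (hcp.pow _)).contDiffAt
  · have : AnalyticAt ℂ (fun w : ℂ => ∑ k ∈ Finset.Icc 1 (4 * v + 4),
        (-1) ^ k * bornF v k V (I * w ^ (1 / 2 : ℂ))) (s : ℂ) :=
      Finset.analyticAt_fun_sum _ fun k hk => analyticAt_const.mul (hB k hk)
    exact this.contDiffAt

theorem FamG.star (F : FamG v R M V A T) (hv : 1 ≤ v) {ι : Type} [Countable ι] [DecidableEq ι]
    (b : HilbertBasis ι ℂ (Lp ℂ 2 (muV v R))) (Z : Finset ℂ)
    (hZ : ∀ l, ¬ IsUnit (1 + T l) → l ∈ Z) (K : ℕ) (hK : v * (4 * v + 5) < K) :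
    ∃ (d : ℕ) (c e : ℕ → ℝ) (N C s₀ : ℝ), 1 ≤ s₀ ∧ 0 ≤ N ∧ (N = 0 → c (v - 1) = 0) ∧
      ∀ s : ℝ, s₀ ≤ s →
        |∑ k ∈ Finset.Icc 1 (4 * v + 4), (-1) ^ k * bornD v k K V s -
          (∑ i ∈ Finset.range d, c i * s ^ ((i : ℝ) + 1 / 2 - K) +
            ∑ i ∈ Finset.range d, e i * s ^ i - N * s ^ (-(K : ℝ)))| ≤
          C * s ^ (-(K : ℝ) - 1 / 2) := by
  have hK1 : 1 ≤ K := by omega
  obtain ⟨hDent, hD0, Cg, p, hgrow⟩ := F.Df_basic b
  obtain ⟨Q, m, hm, hf⟩ := factor_entire (Df b V T) hDent p Cg hgrow Z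
    (fun z hz => hZ z ((hD0 z).mp hz))
  obtain ⟨hDetE, hDet0⟩ := F.Det_entire b
  obtain ⟨Cn, κ₀, hκ, hn⟩ := F.Det_near b
  obtain ⟨hPsi, -⟩ := F.Psi_entire
  obtain ⟨d, c, e, C', s₀, hs₀, hc, hmain⟩ := star_core _ (Df b V T) (Psi v V) hDetE hPsi
    (fun l => rfl) Cn κ₀ (2 * (2 * v + 3)) (by omega) hκ hn Q Z m hf K hK1
  obtain ⟨Γ, hΓ⟩ := F.psi_aux K hK
  set N' : ℕ := ∑ u ∈ Z, m u with hN'
  set σ : ℝ := (-1) ^ K with hσ
  have hσσ : σ * σ = 1 := by rw [hσ, ← pow_add, ← two_mul, pow_mul]; norm_num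
  have hσC : ((σ : ℝ) : ℂ) = (-1) ^ K := by rw [hσ]; push_cast; rfl
  have hσK : σ * (-1) ^ (K - 1) = -1 := by
    obtain ⟨K', rfl⟩ : ∃ K', K = K' + 1 := ⟨K - 1, by omega⟩
    rw [hσ, Nat.add_sub_cancel, pow_succ, mul_right_comm, ← pow_add, ← two_mul, pow_mul]
    norm_num
  refine ⟨max d (v + 1), fun i => (if i < d then σ * (c i).re else 0) -
      (if i = v then σ * Γ.re else 0), fun i => if i < d then σ * (e i).re else 0,
      (N' : ℝ) * ((1 / 2) * ((K - 1).factorial : ℝ)), C', s₀, hs₀, by positivity, ?_, ?_⟩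
  · intro h0
    have hN0 : N' = 0 := by
      have hne : ((1 / 2) * ((K - 1).factorial : ℝ)) ≠ 0 := by positivity
      rcases mul_eq_zero.mp h0 with h | h
      · exact_mod_cast h
      · exact absurd h hne
    have hm0 : ∀ u ∈ Z, m u = 0 := by
      intro u hu
      exact Finset.sum_eq_zero_iff.mp hN0 u hu
    have hDne : ∀ z, Df b V T z ≠ 0 := by
      intro z
      by_cases hz : z ∈ Z
      · exact (hm z hz).mp (hm0 z hz)
      · intro h
        exact hz (hZ z ((hD0 z).mp h))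
    have hU : IsUnit (1 + T 0) := by
      by_contra h
      exact hDne 0 ((hD0 0).mpr h)
    obtain ⟨C, δ, hδ, hlow⟩ := F.Df_low b hU
    have hQ : ∀ z, deriv (Df b V T) z = Df b V T z * Q.eval z := by
      intro z
      rw [hf z (hDne z)]
      congr 1
      rw [Finset.sum_eq_zero, add_zero]
      intro u hu
      rw [hm0 u hu]
      simp
    have hcoef := low_energy (Df b V T) hDent Q hDne hQ C δ hδ v hlow (v - 1) (by omega)
    have hcv := hc (v - 1) hcoef
    show (if v - 1 < d then σ * (c (v - 1)).re else 0) - (if v - 1 = v then σ * Γ.re else 0) = 0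
    rw [hcv, if_neg (by omega : ¬ (v - 1 = v))]
    simp
  · intro s hs
    have hs0 : 0 < s := by linarith
    have h1 := hmain s hs
    rw [hΓ s hs0] at h1
    set B : ℝ := ∑ k ∈ Finset.Icc 1 (4 * v + 4), (-1) ^ k * bornD v k K V s with hB
    refine le_trans ?_ h1
    have hsum1 : ∑ i ∈ Finset.range (max d (v + 1)), ((if i < d then σ * (c i).re else 0) -
        (if i = v then σ * Γ.re else 0)) * s ^ ((i : ℝ) + 1 / 2 - K) =
        σ * (∑ i ∈ Finset.range d, (c i).re * s ^ ((i : ℝ) + 1 / 2 - K)) -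
          σ * (Γ.re * s ^ ((v : ℝ) + 1 / 2 - K)) := by
      simp only [sub_mul]
      rw [Finset.sum_sub_distrib]
      congr 1
      · rw [Finset.mul_sum]
        rw [← Finset.sum_subset (Finset.range_subset_range.mpr (le_max_left d (v + 1)))]
        · refine Finset.sum_congr rfl fun i hi => ?_
          rw [if_pos (Finset.mem_range.mp hi)]
          ring
        · intro i _ hi
          rw [if_neg (fun h => hi (Finset.mem_range.mpr h)), zero_mul]
      · rw [Finset.sum_eq_single v]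
        · rw [if_pos rfl]; ring
        · intro i _ hi
          rw [if_neg hi, zero_mul]
        · intro h
          exact absurd (Finset.mem_range.mpr (lt_of_lt_of_le (Nat.lt_succ_self v)
            (le_max_right d (v + 1)))) h
    have hsum2 : ∑ i ∈ Finset.range (max d (v + 1)), (if i < d then σ * (e i).re else 0) * s ^ i =
        σ * (∑ i ∈ Finset.range d, (e i).re * s ^ i) := by
      rw [Finset.mul_sum]
      rw [← Finset.sum_subset (Finset.range_subset_range.mpr (le_max_left d (v + 1)))]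
      · refine Finset.sum_congr rfl fun i hi => ?_
        rw [if_pos (Finset.mem_range.mp hi)]
        ring
      · intro i _ hi
        rw [if_neg (fun h => hi (Finset.mem_range.mpr h)), zero_mul]
    rw [hsum1, hsum2]
    set X : ℂ := Γ * ((s ^ ((v : ℝ) + 1 / 2 - K) : ℝ) : ℂ) + (-1) ^ K * (B : ℂ) -
      (∑ i ∈ Finset.range d, c i * ((s ^ ((i : ℝ) + 1 / 2 - K) : ℝ) : ℂ) +
        ∑ i ∈ Finset.range d, e i * ((s ^ i : ℝ) : ℂ) +
        (N' : ℂ) * ((1 / 2) * (-1) ^ (K - 1) * ((K - 1).factorial : ℂ) *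
          ((s ^ (-(K : ℝ)) : ℝ) : ℂ))) with hX
    have hXre : X.re = Γ.re * s ^ ((v : ℝ) + 1 / 2 - K) + σ * B -
        (∑ i ∈ Finset.range d, (c i).re * s ^ ((i : ℝ) + 1 / 2 - K) +
          ∑ i ∈ Finset.range d, (e i).re * s ^ i +
          (N' : ℝ) * ((1 / 2) * (-1) ^ (K - 1) * ((K - 1).factorial : ℝ) * s ^ (-(K : ℝ)))) := by
      have e1 : ((-1 : ℂ)) ^ K * (B : ℂ) = ((σ * B : ℝ) : ℂ) := by rw [← hσC]; push_cast; rfl
      have e2 : (N' : ℂ) * ((1 / 2) * (-1) ^ (K - 1) * ((K - 1).factorial : ℂ) *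
          ((s ^ (-(K : ℝ)) : ℝ) : ℂ)) =
          (((N' : ℝ) * ((1 / 2) * (-1) ^ (K - 1) * ((K - 1).factorial : ℝ) *
            s ^ (-(K : ℝ))) : ℝ) : ℂ) := by
        push_cast; rfl
      rw [hX, e1, e2]
      simp only [add_re, sub_re, re_sum, re_mul_ofReal, ofReal_re]
    have hfin : B - (σ * (∑ i ∈ Finset.range d, (c i).re * s ^ ((i : ℝ) + 1 / 2 - K)) -
          σ * (Γ.re * s ^ ((v : ℝ) + 1 / 2 - K)) +
          σ * (∑ i ∈ Finset.range d, (e i).re * s ^ i) -
          (N' : ℝ) * ((1 / 2) * ((K - 1).factorial : ℝ)) * s ^ (-(K : ℝ))) = σ * X.re := by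
      rw [hXre]
      linear_combination (-B) * hσσ + (N' : ℝ) * ((1 / 2) * ((K - 1).factorial : ℝ)) *
        s ^ (-(K : ℝ)) * hσK
    rw [hfin, abs_mul]
    have hσ1 : |σ| = 1 := by rw [hσ, abs_pow, abs_neg, abs_one, one_pow]
    rw [hσ1, one_mul]
    exact abs_re_le_norm X

end OSec

end Pool.Agent.H269
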