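import Pool.Agent.H269.DefsG2
import Pool.Agent.H269.GN.G070

/-!
# GN-110 bootstrap: from the bound to the next regularity (MP_f2af60_mp, infinitely many resonances in odd dimension)
-/

set_option autoImplicit false

open MeasureTheory Filter Topology Complex
open scoped InnerProductSpace ENNReal NNReal FourierTransform

namespace Pool.Agent.H269


theorem gn110_on (v m : ℕ) (R M : ℝ) (V : EV v → ℝ) (P : PotG v R M V) (s : ℝ) :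
    IntegrableOn (fun ξ : EV v => ‖ξ‖ ^ (2 * m + 2) * ‖Vf V ξ‖ ^ 2) {ξ : EV v | ‖ξ‖ ^ 2 ≤ s} := by
  obtain ⟨h1, -, -⟩ := quad_heat v R M V P
  have hm : AEStronglyMeasurable (fun ξ : EV v => ‖ξ‖ ^ (2 * m + 2) * ‖Vf V ξ‖ ^ 2) (volume.restrict {ξ : EV v | ‖ξ‖ ^ 2 ≤ s}) := by
    refine AEStronglyMeasurable.mul ?_ h1.aestronglyMeasurable.restrict
    exact (continuous_norm.pow (2 * m + 2)).aestronglyMeasurable
  have hS : MeasurableSet {ξ : EV v | ‖ξ‖ ^ 2 ≤ s} := by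
    refine IsClosed.measurableSet ?_
    exact isClosed_le (continuous_norm.pow 2) continuous_const
  have h2 : IntegrableOn (fun ξ : EV v => s ^ (m + 1) * ‖Vf V ξ‖ ^ 2) {ξ : EV v | ‖ξ‖ ^ 2 ≤ s} :=
    (h1.const_mul (s ^ (m + 1))).integrableOn
  refine Integrable.mono' h2 hm ?_
  refine (ae_restrict_iff' hS).2 (Eventually.of_forall ?_)
  intro ξ hξ
  have hξ' : ‖ξ‖ ^ 2 ≤ s := hξ
  rw [Real.norm_eq_abs, abs_of_nonneg (by positivity)]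
  refine mul_le_mul_of_nonneg_right ?_ (by positivity)
  calc ‖ξ‖ ^ (2 * m + 2) = (‖ξ‖ ^ 2) ^ (m + 1) := by rw [← pow_mul]; congr 1
    _ ≤ s ^ (m + 1) := pow_le_pow_left₀ (by positivity) hξ' _


theorem boot_next (v m : ℕ) (R M : ℝ) (V : EV v → ℝ) (P : PotG v R M V) (K : ℕ) (ρ : ℝ → ℝ)
    (c₁ : ℝ) (hc : 0 < c₁)
    (h1 : ∀ s, 1 ≤ s → c₁ * s ^ ((v : ℝ) - 3 / 2 - m - K) *
        ∫ ξ in {ξ : EV v | ‖ξ‖ ^ 2 ≤ s}, ‖ξ‖ ^ (2 * m + 2) * ‖Vf V ξ‖ ^ 2 ≤ ρ s)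
    (C' s₁ : ℝ) (hs₁ : 1 ≤ s₁)
    (h2 : ∀ s, s₁ ≤ s → s ^ (K : ℝ) * ρ s ≤ C' * s ^ ((v : ℝ) - 3 / 2 - m)) :
    Integrable (fun ξ : EV v => ‖ξ‖ ^ (2 * (m + 1)) * ‖Vf V ξ‖ ^ 2) := by
  have he : (fun ξ : EV v => ‖ξ‖ ^ (2 * (m + 1)) * ‖Vf V ξ‖ ^ 2) = fun ξ : EV v => ‖ξ‖ ^ (2 * m + 2) * ‖Vf V ξ‖ ^ 2 := rfl
  rw [he]
  have hcov : AECover (volume : Measure (EV v)) atTop (fun n : ℕ => {ξ : EV v | ‖ξ‖ ^ 2 ≤ (n : ℝ)}) := by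
    refine ⟨Eventually.of_forall ?_, fun n => ?_⟩
    · intro ξ
      obtain ⟨N, hN⟩ := exists_nat_ge (‖ξ‖ ^ 2)
      filter_upwards [eventually_ge_atTop N] with n hn
      have h3 : (N : ℝ) ≤ n := by exact_mod_cast hn
      exact hN.trans h3
    · exact (isClosed_le (continuous_norm.pow 2) continuous_const).measurableSet
  refine hcov.integrable_of_integral_bounded_of_nonneg_ae (C' / c₁) (fun n => gn110_on v m R M V P n)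
    (Eventually.of_forall fun ξ => by positivity) ?_
  obtain ⟨N, hN⟩ := exists_nat_ge s₁
  filter_upwards [eventually_ge_atTop N] with n hn
  have hn' : s₁ ≤ (n : ℝ) := hN.trans (by exact_mod_cast hn)
  have hn1 : (1 : ℝ) ≤ n := hs₁.trans hn'
  have hn0 : (0 : ℝ) < n := by linarith
  have e1 := h1 n hn1
  have e2 := h2 n hn'
  have hK : (0 : ℝ) < (n : ℝ) ^ (K : ℝ) := Real.rpow_pos_of_pos hn0 _
  have hp : (0 : ℝ) < (n : ℝ) ^ ((v : ℝ) - 3 / 2 - m) := Real.rpow_pos_of_pos hn0 _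
  have e3 := mul_le_mul_of_nonneg_left e1 hK.le
  have e4 : (n : ℝ) ^ (K : ℝ) * (n : ℝ) ^ ((v : ℝ) - 3 / 2 - m - K) = (n : ℝ) ^ ((v : ℝ) - 3 / 2 - m) := by
    rw [← Real.rpow_add hn0]
    congr 1
    ring
  rw [le_div_iff₀ hc]
  obtain ⟨Iv, hIv⟩ : ∃ Iv : ℝ, Iv = ∫ ξ in {ξ : EV v | ‖ξ‖ ^ 2 ≤ (n : ℝ)}, ‖ξ‖ ^ (2 * m + 2) * ‖Vf V ξ‖ ^ 2 := ⟨_, rfl⟩
  rw [← hIv] at e3 ⊢
  have e5 : (n : ℝ) ^ (K : ℝ) * (c₁ * (n : ℝ) ^ ((v : ℝ) - 3 / 2 - m - K) * Iv) = (Iv * c₁) * (n : ℝ) ^ ((v : ℝ) - 3 / 2 - m) := by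
    rw [← e4]
    ring
  rw [e5] at e3
  exact le_of_mul_le_mul_right (e3.trans e2) hp

end Pool.Agent.H269

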