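import Pool.Agent.H269.DefsG2
import Pool.Agent.H269.GN.G070
import Pool.Agent.H269.GN.G108
import Pool.Agent.H269.GN.G109
import Pool.Agent.H269.GN.G110
import Pool.Agent.H269.R5.J19

/-!
# GN-111 infinitely many non-invertible points, odd dimension (MP_f2af60_mp, infinitely many resonances in odd dimension)
-/

set_option autoImplicit false

open MeasureTheory Filter Topology Complex
open scoped InnerProductSpace ENNReal NNReal FourierTransform

namespace Pool.Agent.H269



section OSec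

variable {v : ℕ} {R M : ℝ} {V : EV v → ℝ} {A T : ℂ → OpV v R}

theorem FamG.noninvertible_infinite (F : FamG v R M V A T) (hv : 1 ≤ v)
    (hne : ¬ (V =ᵐ[volume] 0))
    (h : Odd v ∨ Integrable (fun ξ : EV v => ‖ξ‖ ^ (2 * v - 1) * ‖Vf V ξ‖ ^ 2)) :
    {l : ℂ | ¬ IsUnit (1 + T l)}.Infinite := by
  by_contra hinf
  rw [Set.not_infinite] at hinf
  have P : PotG v R (M + 1) V := ⟨F.hR, by linarith [F.hM], F.meas,
    fun x => (F.bdd x).trans (by linarith), F.supp⟩
  have h2top : Fact ((2 : ℝ≥0∞) ≠ ⊤) := ⟨by norm_num⟩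
  have hsep : TopologicalSpace.SeparableSpace (Lp ℂ 2 (muV v R)) := inferInstance
  obtain ⟨ι, hι, ⟨b⟩⟩ := exists_countable_basis (Lp ℂ 2 (muV v R))
  classical
  have hZ : ∀ l, ¬ IsUnit (1 + T l) → l ∈ hinf.toFinset := fun l hl => by
    rw [Set.Finite.mem_toFinset]; exact hl
  set K : ℕ := 10 * (v + 1) ^ 2 with hKdef
  have hK : v * (4 * v + 5) < K := by rw [hKdef]; nlinarith
  have hK' : 2 * v + 3 ≤ K := by rw [hKdef]; nlinarith
  obtain ⟨d, c, e, N, C, s₀, hs₀, hN0, hNc, hstar⟩ := F.star hv b hinf.toFinset hZ K hK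
  -- the induction
  have hint : ∀ m : ℕ, m ≤ v - 1 → Integrable (fun ξ : EV v => ‖ξ‖ ^ (2 * m) * ‖Vf V ξ‖ ^ 2) := by
    intro m
    induction m with
    | zero =>
      intro _
      simpa using (quad_heat v R (M + 1) V P).1
    | succ m ih =>
      intro hm
      have hPm := ih (by omega)
      obtain ⟨α₀, ρ, c₁, hc₁, _, hρ, h1, _, _, C', s₁, hs₁, h6⟩ :=
        boot_step v K m hv (by omega) hK hK' R (M + 1) V P hPm d c e N C s₀ hs₀ hstar
      refine boot_next v m R (M + 1) V P K ρ c₁ hc₁ h1 C' s₁ hs₁ ?_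
      intro s hs
      have h7 := h6 s hs
      rw [if_neg (by omega), add_zero, abs_mul, abs_pow, abs_neg, abs_one, one_pow, one_mul] at h7
      exact (le_abs_self _).trans h7
  -- the last step
  have hN : N = 0 := by
    obtain ⟨α₀, ρ, c₁, hc₁, _, hρ, h1, h5, _, C', s₁, hs₁, h6⟩ :=
      boot_step v K (v - 1) hv le_rfl hK hK' R (M + 1) V P (hint (v - 1) le_rfl) d c e N C s₀ hs₀ hstar
    have hcast : ((v - 1 : ℕ) : ℝ) = (v : ℝ) - 1 := by
      rw [Nat.cast_sub hv]; simp
    have hlim : Tendsto (fun s : ℝ => C' * s ^ (-(1 / 2) : ℝ)) atTop (𝓝 0) := by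
      have := (tendsto_rpow_neg_atTop (show (0 : ℝ) < 1 / 2 by norm_num)).const_mul C'
      rwa [mul_zero] at this
    have h7 : ∀ s, s₁ ≤ s → |(-1) ^ (v - 1) * (s ^ (K : ℝ) * ρ s) + N| ≤ C' * s ^ (-(1 / 2) : ℝ) := by
      intro s hs
      have h8 := h6 s hs
      rw [if_pos rfl, hcast] at h8
      have e1 : (v : ℝ) - 3 / 2 - ((v : ℝ) - 1) = -(1 / 2) := by ring
      rw [e1] at h8
      exact h8
    rcases h with hodd | hI
    · have hev : Even (v - 1) := by
        obtain ⟨k, hk⟩ := hodd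
        exact ⟨k, by omega⟩
      have hle : N ≤ 0 := by
        refine ge_of_tendsto hlim ?_
        filter_upwards [eventually_ge_atTop s₁] with s hs
        have h8 := h7 s hs
        rw [hev.neg_one_pow, one_mul] at h8
        have hs0 : 0 < s := by linarith
        have h9 : 0 ≤ s ^ (K : ℝ) * ρ s := mul_nonneg (Real.rpow_nonneg hs0.le _) (hρ s hs0)
        linarith [le_abs_self (s ^ (K : ℝ) * ρ s + N)]
      exact le_antisymm hle hN0
    · have hexp : 2 * (v - 1) + 1 = 2 * v - 1 := by omega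
      have h8 := h5 (by rw [hexp]; exact hI)
      rw [hcast] at h8
      have e2 : (K : ℝ) - ((v : ℝ) - 1 - ((v : ℝ) - 1)) = K := by ring
      rw [e2] at h8
      have h9 : Tendsto (fun s : ℝ => |(-1) ^ (v - 1) * (s ^ (K : ℝ) * ρ s) + N|) atTop (𝓝 |N|) := by
        have h10 := ((h8.const_mul ((-1 : ℝ) ^ (v - 1))).add_const N).abs
        rwa [mul_zero, zero_add] at h10
      have h11 : |N| ≤ 0 := by
        refine le_of_tendsto_of_tendsto h9 hlim ?_
        filter_upwards [eventually_ge_atTop s₁] with s hs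
        exact h7 s hs
      exact abs_eq_zero.1 (le_antisymm h11 (abs_nonneg _))
  have hc0 : c (v - 1) = 0 := hNc hN
  obtain ⟨α₀, ρ, c₁, hc₁, hα, _, _, _, hm0, _⟩ :=
    boot_step v K 0 hv (by omega) hK hK' R (M + 1) V P (hint 0 (by omega)) d c e N C s₀ hs₀ hstar
  have h12 := hm0 rfl
  rw [hc0] at h12
  simp only [ite_self] at h12
  exact hne (hα (by linarith))

end OSec

end Pool.Agent.H269

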